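import Pool.Agent.Ben.Targets2

/-!
# Assembly from the blocks
-/

set_option autoImplicit false

namespace Pool.Agent.Ben

open Complex MeasureTheory Set

/-- exponential sums from LH -/
def T_forward : Prop := LH → Disc

/-- Upper bounds give LH -/
def T_backward : Prop := ∀ (G : ℝ → ℝ) (B κ : ℝ), Adm G B → 0 < κ → coef G 1 ≠ 0 →
  Upper G κ → LH

theorem forward (hET : T_ET) (hFWD : T_FWD) (hPHI : T_PHI) (hSAW : T_SAW)
    (hEXPS : T_EXPS) (hFORM : T_FORM) (hSUM : T_SUM) (hINV : T_INV) (hMEL : T_MEL)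
    (hRB : T_RB) (hSHF : T_SHF) (hKB : T_KB) (hPOLE : T_POLE) : T_forward := by
  intro h
  exact hFWD hET (hEXPS hFORM hSUM hINV hMEL hRB hSHF hKB hPOLE h) hPHI hSAW

theorem gauss_lh (hTAIL : T_TAIL) (hSUML : T_SUML) (hLH : T_LH) (κ : ℝ) (hκ : 0 < κ)
    (h : GaussLe κ) : LH :=
  hLH (hSUML hTAIL κ hκ h)

theorem backward (hFOU : T_FOU) (hERR : T_ERR) (hERZ : T_ERZ) (hMEAN : T_MEAN)
    (hMAIN : T_MAIN) (hL1 : T_L1) (hGAU : T_GAU) (hTAIL : T_TAIL) (hSUML : T_SUML)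
    (hLH : T_LH) : T_backward := by
  intro G B κ hG hκ hc hU
  exact gauss_lh hTAIL hSUML hLH (κ / 2) (by positivity)
    (hGAU hMAIN hMEAN hL1 hFOU hERR hERZ G B κ hG hκ hc hU)

theorem upper_lh (hb : T_backward) (hMANT : T_MANT) (hADMB : T_ADMB) (hBENB : T_BENB)
    {g a b : ℝ} (hg : 1 < g) (ha : 0 < a) (hab : a < b) (hba : b < g * a)
    (hU : BenfordUpper g a b) : LH := by
  have hb0 : 0 < b := ha.trans hab
  have hg0 : 0 < g := by linarith
  have h1 : Real.logb g a < Real.logb g b := Real.logb_lt_logb hg ha hab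
  have h2 : Real.logb g b < Real.logb g a + 1 := by
    have := Real.logb_lt_logb hg hb0 hba
    rw [Real.logb_mul hg0.ne' ha.ne', Real.logb_self_eq_one hg] at this
    linarith
  obtain ⟨hA, hc⟩ := hADMB (Real.logb g a) (Real.logb g b) h1 h2
  exact hb _ 2 _ hA (Real.log_pos hg) hc (hBENB hMANT g a b hg ha hab hba hU)

theorem assemble (hf : T_forward) (hb : T_backward) (hMANT : T_MANT) (hLEN : T_LEN)
    (hBENU : T_BENU) (hBENL : T_BENL) (hLENF : T_LENF) (hADMB : T_ADMB) (hADMP : T_ADMP)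
    (hBENB : T_BENB) (hLENU : T_LENU) (hLENL : T_LENL) (hTAIL : T_TAIL) (hSUML : T_SUML)
    (hLH : T_LH) (hINT : T_INT) :
    List.TFAE [LH,
      ∀ g : ℝ, 1 < g → BenfordUnif g,
      ∃ g a b : ℝ, 1 < g ∧ 0 < a ∧ a < b ∧ b < g * a ∧
        (BenfordUpper g a b ∨ BenfordLower g a b),
      ∀ g : ℝ, 1 < g → BenfordInt g,
      ∃ g : ℝ, 1 < g ∧ BenfordInt g,
      Lengths,
      LengthsUpper,
      LengthsLower] := by
  tfae_have 1 → 2 := fun h => hBENU hMANT (hf h)
  tfae_have 2 → 3 := by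
    intro h
    refine ⟨10, 1, 2, by norm_num, by norm_num, by norm_num, by norm_num, Or.inl ?_⟩
    intro ε hε
    obtain ⟨C, hC⟩ := h 10 (by norm_num) ε hε
    exact ⟨C, fun x N hN hNx => (le_abs_self _).trans
      (hC x N hN hNx 1 2 (by norm_num) (by norm_num) (by norm_num))⟩
  tfae_have 3 → 1 := by
    rintro ⟨g, a, b, hg, ha, hab, hba, hU | hL⟩
    · exact upper_lh hb hMANT hADMB hBENB hg ha hab hba hU
    · exact upper_lh hb hMANT hADMB hBENB hg (ha.trans hab) hba (by gcongr)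
        (hBENL hMANT g a b hg ha hab hba hL)
  tfae_have 2 → 4 := by
    intro h g hg ε hε
    obtain ⟨C, hC⟩ := h g hg ε hε
    refine ⟨|C|, ?_⟩
    intro k N hN hNk s hs1 hsg
    have hNk' : (N : ℝ) ≤ (k : ℝ) := by exact_mod_cast hNk
    have hk : (0 : ℝ) ≤ (k : ℝ) := by positivity
    rcases lt_or_eq_of_le hs1 with hs | hs
    · have := hC k N hN hNk' 1 s one_pos hs (by linarith)
      rw [div_one] at this
      refine this.trans ?_
      gcongr
      exact le_abs_self C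
    · have h0 : {n : ℕ | 1 ≤ n ∧ n ≤ N ∧ Mant g 1 s ((n : ℝ) ^ (k : ℝ))} = ∅ := by
        ext n
        simp only [Set.mem_ofPred_eq, Set.mem_empty_iff_false, iff_false]
        rintro ⟨-, -, m, hm1, hm2⟩
        rw [← hs] at hm2
        linarith
      have : count g 1 s (k : ℝ) N = 0 := by
        unfold count
        rw [h0]
        exact Set.ncard_empty ℕ
      rw [this, ← hs, Real.logb_one]
      simp only [Nat.cast_zero, mul_zero, sub_zero, abs_zero]
      positivity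
  tfae_have 4 → 5 := fun h => ⟨10, by norm_num, h 10 (by norm_num)⟩
  tfae_have 5 → 1 := by
    rintro ⟨g, hg, h⟩
    exact gauss_lh hTAIL hSUML hLH _ (Real.log_pos hg) (hINT hMANT g hg h)
  tfae_have 1 → 6 := fun h => hLENF hLEN (hf h)
  tfae_have 6 → 7 := by
    intro h ε hε
    obtain ⟨C, hC⟩ := h ε hε
    exact ⟨C, fun g k N hg hk hN hp => (le_abs_self _).trans (hC g k N hg hk hN hp)⟩
  tfae_have 6 → 8 := by
    intro h ε hε
    obtain ⟨C, hC⟩ := h ε hε
    exact ⟨C, fun g k N hg hk hN hp => (abs_le.mp (hC g k N hg hk hN hp)).1⟩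
  tfae_have 7 → 1 := fun h =>
    hb _ 1 _ hADMP.2.1 (by norm_num) hADMP.2.2 (hLENU hLEN h)
  tfae_have 8 → 1 := fun h =>
    hb _ 1 _ hADMP.1.1 (by norm_num) hADMP.1.2 (hLENL hLEN h)
  tfae_finish

end Pool.Agent.Ben
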