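import Pool.Agent.Ben.Asm7

/-!
# Assembly: all means are compared with the mean of order one
-/

set_option autoImplicit false

namespace Pool.Agent.Ben

open Complex MeasureTheory Set

theorem dev_meas {g : ℝ} {f : ℝ → ℝ} (hf : Measurable f) (N : ℕ) :
    Measurable (fun x : ℝ => ∑ n ∈ Finset.Icc 1 N, f (Real.logb g ((n : ℝ) ^ x)) -
      N * ∫ u in (0 : ℝ)..1, f u) := by
  refine Measurable.sub_const (Finset.measurable_fun_sum _ fun n hn => ?_) _
  have hn0 : (0 : ℝ) < n := by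
    have := (Finset.mem_Icc.1 hn).1
    exact_mod_cast this
  have e1 : (fun x : ℝ => f (Real.logb g ((n : ℝ) ^ x))) =
      fun x : ℝ => f (x * Real.logb g n) := by
    funext x
    rw [Real.logb_rpow_eq_mul_logb_of_pos hn0]
  rw [e1]
  exact hf.comp (by fun_prop)

theorem dev_bdd {g : ℝ} {f : ℝ → ℝ} {B : ℝ} (hB : ∀ y, |f y| ≤ B) (N : ℕ) (x : ℝ) :
    |∑ n ∈ Finset.Icc 1 N, f (Real.logb g ((n : ℝ) ^ x)) - N * ∫ u in (0 : ℝ)..1, f u| ≤
      N * B + |N * ∫ u in (0 : ℝ)..1, f u| := by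
  refine (abs_sub _ _).trans ?_
  have h1 : |∑ n ∈ Finset.Icc 1 N, f (Real.logb g ((n : ℝ) ^ x))| ≤ N * B := by
    refine (Finset.abs_sum_le_sum_abs _ _).trans ?_
    refine (Finset.sum_le_sum fun n _ => hB _).trans (le_of_eq ?_)
    simp
  linarith

/-- the mean of order one is the weakest -/
theorem SM.to_one {g β p q a : ℝ} {f : ℝ → ℝ} (hf : Measurable f) (hb : ∃ B, ∀ y, |f y| ≤ B)
    (hq : 1 ≤ q) (h : SM g β p q a f) : SM g β p 1 a f := by
  obtain ⟨B, hB⟩ := hb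
  intro ε hε
  obtain ⟨C, hC⟩ := h ε hε
  refine ⟨1 + C, fun X hX N hN hNX => ?_⟩
  have h0 := hC X hX N hN hNX
  have hX0 : 0 < X := by linarith
  have hN0 : (0 : ℝ) < N := by exact_mod_cast hN
  have hD := dev_meas (g := g) hf N
  have hDb := dev_bdd (g := g) hB N
  set D : ℝ → ℝ := fun x => ∑ n ∈ Finset.Icc 1 N, f (Real.logb g ((n : ℝ) ^ x)) -
      N * ∫ u in (0 : ℝ)..1, f u with hDdef
  set K : ℝ := N * B + |N * ∫ u in (0 : ℝ)..1, f u| with hK
  set F : ℝ → ℝ := fun x => max (D x) 0 with hFdef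
  have hF0 : ∀ x, 0 ≤ F x := fun x => le_max_right _ _
  have hFm : Measurable F := hD.max measurable_const
  have hFK : ∀ x, F x ≤ K := fun x =>
    max_le ((le_abs_self _).trans (hDb x)) ((abs_nonneg _).trans (hDb x))
  have hint : ∀ r : ℝ, 0 ≤ r → IntervalIntegrable (fun x => F x ^ r) volume X (2 * X) := by
    intro r hr
    refine (intervalIntegrable_const (c := K ^ r)).mono_fun
      (hFm.pow_const r).aestronglyMeasurable (Filter.Eventually.of_forall fun x => ?_)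
    show ‖F x ^ r‖ ≤ ‖K ^ r‖
    rw [Real.norm_of_nonneg (Real.rpow_nonneg (hF0 x) _),
      Real.norm_of_nonneg (Real.rpow_nonneg ((hF0 x).trans (hFK x)) _)]
    exact Real.rpow_le_rpow (hF0 x) (hFK x) hr
  set l : ℝ := (N : ℝ) ^ p * X ^ (a + ε) with hl
  have hl0 : 0 < l := by positivity
  have hpt : ∀ x, F x ^ (1 : ℝ) ≤ l + l ^ (1 - q) * F x ^ q := by
    intro x
    rw [Real.rpow_one]
    rcases le_total (F x) l with h1 | h1
    · have : 0 ≤ l ^ (1 - q) * F x ^ q := mul_nonneg (by positivity) (Real.rpow_nonneg (hF0 x) _)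
      linarith
    · have hFx : 0 < F x := lt_of_lt_of_le hl0 h1
      have h2 : F x ^ (1 - q) ≤ l ^ (1 - q) :=
        Real.rpow_le_rpow_of_nonpos hl0 h1 (by linarith)
      have h3 : F x = F x ^ (1 - q) * F x ^ q := by
        rw [← Real.rpow_add hFx]
        simp
      have h4 : F x ^ (1 - q) * F x ^ q ≤ l ^ (1 - q) * F x ^ q :=
        mul_le_mul_of_nonneg_right h2 (Real.rpow_nonneg (hF0 x) _)
      linarith
  have h5 : ∫ x in X..(2 * X), F x ^ (1 : ℝ) ≤
      ∫ x in X..(2 * X), (l + l ^ (1 - q) * F x ^ q) := by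
    refine intervalIntegral.integral_mono_on (by linarith) (hint 1 (by norm_num)) ?_
      fun x _ => hpt x
    exact intervalIntegrable_const.add ((hint q (by linarith)).const_mul _)
  rw [intervalIntegral.integral_add intervalIntegrable_const ((hint q (by linarith)).const_mul _),
    intervalIntegral.integral_const, intervalIntegral.integral_const_mul, smul_eq_mul] at h5
  have e1 : (N : ℝ) ^ (p * q) * X ^ (1 + q * (a + ε)) = l ^ q * X := by
    rw [hl, Real.mul_rpow (by positivity) (by positivity), ← Real.rpow_mul hN0.le,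
      ← Real.rpow_mul hX0.le, Real.rpow_add hX0, Real.rpow_one, mul_comm (a + ε) q]
    ring
  have e2 : (N : ℝ) ^ (p * 1) * X ^ (1 + 1 * (a + ε)) = l * X := by
    rw [hl, Real.rpow_add hX0, Real.rpow_one, mul_one, one_mul]
    ring
  have e3 : l ^ (1 - q) * l ^ q = l := by
    rw [← Real.rpow_add hl0]
    simp
  have h6 : l ^ (1 - q) * ∫ x in X..(2 * X), F x ^ q ≤ C * (l * X) := by
    calc l ^ (1 - q) * ∫ x in X..(2 * X), F x ^ q
        ≤ l ^ (1 - q) * (C * (N : ℝ) ^ (p * q) * X ^ (1 + q * (a + ε))) :=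
          mul_le_mul_of_nonneg_left h0 (by positivity)
      _ = C * (l ^ (1 - q) * l ^ q) * X := by rw [mul_assoc C, e1]; ring
      _ = C * (l * X) := by rw [e3]; ring
  calc ∫ x in X..(2 * X), F x ^ (1 : ℝ) ≤ (2 * X - X) * l +
        l ^ (1 - q) * ∫ x in X..(2 * X), F x ^ q := h5
    _ ≤ (2 * X - X) * l + C * (l * X) := by linarith
    _ = (1 + C) * (l * X) := by ring
    _ = (1 + C) * (N : ℝ) ^ (p * 1) * X ^ (1 + 1 * (a + ε)) := by rw [← e2]; ring

/-- a pointwise one-sided bound gives the one in the mean of order one -/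
theorem sm_of_ptw {g β p : ℝ} {f : ℝ → ℝ} (hβ : 0 ≤ β) (h : StatUpperG g β p 0 f) :
    SM g β p 1 0 f := by
  intro ε hε
  obtain ⟨C, hC⟩ := h ε hε
  refine ⟨|C| * 2 ^ (0 + ε), fun X hX N hN hNX => ?_⟩
  have h1 := mean_of_ptw (β := β) (q := 1) (a := 0) (ε := ε) (C := |C|) (P := (N : ℝ) ^ p)
    le_rfl le_rfl hε (by positivity) (abs_nonneg C) hβ (X := X) hX
    (D := fun x => ∑ n ∈ Finset.Icc 1 N, f (Real.logb g ((n : ℝ) ^ x)) -
      N * ∫ u in (0 : ℝ)..1, f u) ?_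
  · refine h1.trans (le_of_eq ?_)
    rw [Real.rpow_one, Real.rpow_one, mul_one]
  · intro x hx
    have hx1 : 1 ≤ x := hX.trans hx
    have hx0 : 0 ≤ x := by linarith
    have h2 := hC x hx1 N hN (hNX.trans (Real.rpow_le_rpow (by linarith) hx hβ))
    refine h2.trans ?_
    gcongr
    exact le_abs_self C

/-- the square root is optimal, pointwise and in all means -/
theorem optimal_all (hopt : ∀ (g β θ : ℝ) (f : ℝ → ℝ), 1 < g → 0 < β → Measurable f →
      Function.Periodic f 1 → (∃ B, ∀ y, |f y| ≤ B) → ¬ (∃ c : ℝ, ∀ᵐ y, f y = c) → θ < 1 / 2 →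
      ¬ SM g β θ 1 0 f) {g β θ : ℝ} {f : ℝ → ℝ} (hg : 1 < g) (hβ : 0 < β)
    (hf : Measurable f) (hp : Function.Periodic f 1) (hb : ∃ B, ∀ y, |f y| ≤ B)
    (hn : ¬ (∃ c : ℝ, ∀ᵐ y, f y = c)) (hθ : θ < 1 / 2) :
    ¬ StatUpperG g β θ 0 f ∧ ∀ q : ℝ, 1 ≤ q → ¬ SM g β θ q 0 f := by
  refine ⟨fun h => hopt g β θ f hg hβ hf hp hb hn hθ (sm_of_ptw hβ.le h), fun q hq h => ?_⟩
  exact hopt g β θ f hg hβ hf hp hb hn hθ (h.to_one hf hb hq)

end Pool.Agent.Ben
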