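import Pool.Agent.Ben.Targets10
import Pool.Agent.Ben.Asm8

/-!
# Assembly: all lines `Re = s`, `1/2 ≤ s < 1`
-/

set_option autoImplicit false

namespace Pool.Agent.Ben

open Complex MeasureTheory Set

/-! ### from one statistic to zeta -/

theorem zq_of_stat (hONE : M_ONE) (hUNIQ : V_UNIQ) (hITER : M_ITER) (hZ : S_ZQ)
    {g β q s a : ℝ} {f : ℝ → ℝ} (hq : 1 ≤ q) (hs : 1 / 2 ≤ s) (hs1 : s < 1) (ha : 0 ≤ a)
    (hg : 1 < g) (hβ : 1 / 2 < β) (hf : Measurable f)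
    (hp : Function.Periodic f 1) (hb : ∃ B, ∀ y, |f y| ≤ B)
    (hn : ¬ (∃ c : ℝ, ∀ᵐ y, f y = c)) (hU : SM g β s q a f) : ZQ q s a := by
  have h1 : 1 / 2 < min β 1 := lt_min hβ (by norm_num)
  have h2 : 0 < min β 1 := by linarith
  obtain ⟨κ, hκ, h3⟩ := gm_of_stat hONE hUNIQ hITER ha hq hg h2 (min_le_right _ _)
    (by linarith : 0 ≤ s) hs1.le (by linarith : 0 < s) hf hp hb hn (hU.mono (min_le_left β 1))
  exact hZ q s a κ (min β 1) hq hs hs1 ha hκ h1 (min_le_right _ _) h3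

theorem zp_of_stat (hONE : G_ONE) (hUNIQ : V_UNIQ) (hITER : G_ITER) (hZ : S_ZP)
    {g β s a : ℝ} {f : ℝ → ℝ} (hs : 1 / 2 ≤ s) (hs1 : s < 1) (ha : 0 ≤ a)
    (hg : 1 < g) (hβ : 1 / 2 < β) (hf : Measurable f)
    (hp : Function.Periodic f 1) (hb : ∃ B, ∀ y, |f y| ≤ B)
    (hn : ¬ (∃ c : ℝ, ∀ᵐ y, f y = c)) (hU : StatUpperG g β s a f) : ZP s a := by
  have h1 : 1 / 2 < min β 1 := lt_min hβ (by norm_num)
  have h2 : 0 < min β 1 := by linarith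
  obtain ⟨κ, hκ, h3⟩ := gauss_of_stat hONE hUNIQ hITER ha hg h2 (min_le_right _ _)
    (by linarith : 0 ≤ s) hs1.le (by linarith : 0 < s) hf hp hb hn (hU.mono (min_le_left β 1))
  exact hZ s a κ (min β 1) hs hs1 ha hκ h1 (min_le_right _ _) h3

/-! ### two-sided laws give one-sided ones -/

/-- pointwise -/
theorem up_of_lp {j d : ℕ} {s : ℝ} (h : LP j d s) : UP j d 1 s 0 := by
  intro ε hε
  obtain ⟨C, hC⟩ := h ε hε
  refine ⟨C, fun x _ N hN hNx => ?_⟩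
  rw [Real.rpow_one] at hNx
  rw [zero_add]
  exact (le_abs_self _).trans (hC x N hN hNx)

/-- in the mean of order `q` -/
theorem uq_of_lq {j d : ℕ} {q s : ℝ} (hq : 1 ≤ q) (h : LQ j d q s) : UQ j d 1 q s 0 := by
  intro ε hε
  obtain ⟨C, hC⟩ := h ε hε
  refine ⟨C, fun X hX N hN hNX => ?_⟩
  rw [Real.rpow_one] at hNX
  rw [zero_add]
  refine le_trans ?_ (hC X hX N hN hNX)
  have hD : Measurable (fun x : ℝ => (dcount j d x N : ℝ) - N * benf j d) :=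
    (dcount_meas j d N).sub_const _
  have hB : ∀ x : ℝ, |(dcount j d x N : ℝ) - N * benf j d| ≤ N + |N * benf j d| := fun x =>
    (abs_sub _ _).trans (by linarith [dcount_bdd j d N x])
  have hint : ∀ F : ℝ → ℝ, Measurable F → (∀ x, |F x| ≤ N + |N * benf j d|) →
      (∀ x, 0 ≤ F x) → IntervalIntegrable (fun x => F x ^ q) volume X (2 * X) := by
    intro F hF hFb hF0
    refine (intervalIntegrable_const (c := (N + |N * benf j d|) ^ q)).mono_fun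
      (hF.pow_const q).aestronglyMeasurable (Filter.Eventually.of_forall fun x => ?_)
    have h1 : F x ≤ N + |N * benf j d| := (le_abs_self _).trans (hFb x)
    show ‖F x ^ q‖ ≤ ‖((N : ℝ) + |(N : ℝ) * benf j d|) ^ q‖
    rw [Real.norm_of_nonneg (Real.rpow_nonneg (hF0 x) _),
      Real.norm_of_nonneg (Real.rpow_nonneg ((hF0 x).trans h1) _)]
    exact Real.rpow_le_rpow (hF0 x) h1 (by linarith)
  refine intervalIntegral.integral_mono_on (by linarith) ?_ ?_ ?_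
  · refine hint _ (hD.max measurable_const) ?_ fun x => le_max_right _ _
    intro x
    rw [abs_of_nonneg (le_max_right _ _)]
    exact max_le ((le_abs_self _).trans (hB x)) (by positivity)
  · refine hint _ hD.abs ?_ fun x => abs_nonneg _
    intro x
    rw [abs_abs]
    exact hB x
  · intro x _
    exact Real.rpow_le_rpow (le_max_right _ _) (max_le (le_abs_self _) (abs_nonneg _))
      (by linarith)

/-- the existence of a statistic which satisfies `P` -/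
def Some1 (P : ℝ → ℝ → (ℝ → ℝ) → Prop) : Prop :=
  ∃ (g β : ℝ) (f : ℝ → ℝ), 1 < g ∧ 1 / 2 < β ∧ Measurable f ∧ Function.Periodic f 1 ∧
    (∃ B, ∀ y, |f y| ≤ B) ∧ ¬ (∃ c : ℝ, ∀ᵐ y, f y = c) ∧ P g β f

theorem stat_of_cp {s a : ℝ} (h : ∀ g : ℝ, 1 < g → CP g s a) :
    Some1 (fun g β f => StatUpperG g β s a f) := by
  obtain ⟨f, hf1, hf2, hf3, hf4, hf5, M, hM⟩ := cos_C1
  refine ⟨10, 1, f, by norm_num, by norm_num, hf1, hf2, hf3, hf4, ?_⟩
  intro ε hε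
  obtain ⟨C, hC⟩ := h 10 (by norm_num) ε hε
  refine ⟨C * M, fun x _ N hN hNx => ?_⟩
  rw [Real.rpow_one] at hNx
  exact (le_abs_self _).trans (hC f M hf5 hf2 hM x N hN hNx)

theorem cos_bv : ∃ f : ℝ → ℝ, Measurable f ∧ Function.Periodic f 1 ∧
    (∃ B, ∀ y, |f y| ≤ B) ∧ ¬ (∃ c : ℝ, ∀ᵐ y, f y = c) ∧ Continuous f ∧
    BoundedVariationOn f (Icc 0 1) := by
  obtain ⟨f, hf1, hf2, hf3, hf4, hf5, M, hM⟩ := cos_C1
  refine ⟨f, hf1, hf2, hf3, hf4, hf5.continuous, ?_⟩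
  have hl : LipschitzWith (Real.toNNReal M) f := by
    refine lipschitzWith_of_nnnorm_deriv_le (hf5.differentiable (by norm_num)) fun x => ?_
    rw [← NNReal.coe_le_coe, coe_nnnorm, Real.norm_eq_abs,
      Real.coe_toNNReal _ ((abs_nonneg _).trans (hM 0))]
    exact hM x
  have := hl.locallyBoundedVariationOn (Icc (0 : ℝ) 1)
  have h2 := this 0 1 (by simp) (by simp)
  simpa using h2

theorem dev_cont {g : ℝ} {f : ℝ → ℝ} (hf : Continuous f) (N : ℕ) :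
    Continuous (fun x : ℝ => ∑ n ∈ Finset.Icc 1 N, f (Real.logb g ((n : ℝ) ^ x)) -
      N * ∫ u in (0 : ℝ)..1, f u) := by
  refine Continuous.sub ?_ continuous_const
  refine continuous_finsetSum _ fun n hn => ?_
  have hn0 : (0 : ℝ) < n := by
    have := (Finset.mem_Icc.1 hn).1
    exact_mod_cast this
  have e1 : (fun x : ℝ => f (Real.logb g ((n : ℝ) ^ x))) =
      fun x : ℝ => f (x * Real.logb g n) := by
    funext x
    rw [Real.logb_rpow_eq_mul_logb_of_pos hn0]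
  rw [e1]
  exact hf.comp (by fun_prop)

theorem pos_le_abs {D : ℝ → ℝ} (hD : Continuous D) {q X : ℝ} (hq : 1 ≤ q) (hX : 1 ≤ X) :
    ∫ x in X..(2 * X), (max (D x) 0) ^ q ≤ ∫ x in X..(2 * X), |D x| ^ q := by
  refine intervalIntegral.integral_mono_on (by linarith) ?_ ?_ ?_
  · exact ((hD.max continuous_const).rpow_const
      (fun _ => Or.inr (by linarith))).intervalIntegrable _ _
  · exact ((hD.abs.rpow_const (fun _ => Or.inr (by linarith)))).intervalIntegrable _ _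
  · intro x _
    exact Real.rpow_le_rpow (le_max_right _ _) (max_le (le_abs_self _) (abs_nonneg _))
      (by linarith)

theorem stat_of_cq {q s a : ℝ} (hq : 1 ≤ q) (h : ∀ g : ℝ, 1 < g → CQ g q s a) :
    Some1 (fun g β f => SM g β s q a f) := by
  obtain ⟨f, hf1, hf2, hf3, hf4, hf5, M, hM⟩ := cos_C1
  refine ⟨10, 1, f, by norm_num, by norm_num, hf1, hf2, hf3, hf4, ?_⟩
  intro ε hε
  obtain ⟨C, hC⟩ := h 10 (by norm_num) ε hε
  refine ⟨C * M ^ q, fun X hX N hN hNX => ?_⟩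
  rw [Real.rpow_one] at hNX
  have hM0 : 0 ≤ M := (abs_nonneg _).trans (hM 0)
  have h1 := hC f M hf5 hf2 hM X hX N hN hNX
  refine (pos_le_abs (dev_cont hf5.continuous N) hq hX).trans (h1.trans (le_of_eq ?_))
  rw [Real.mul_rpow hM0 (by positivity), ← Real.rpow_mul (by positivity)]
  ring

theorem stat_of_bp {s : ℝ} (h : ∀ g : ℝ, 1 < g → BP g s) :
    Some1 (fun g β f => StatUpperG g β s 0 f) := by
  obtain ⟨f, hf1, hf2, hf3, hf4, hf5, hf6⟩ := cos_bv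
  refine ⟨10, 1, f, by norm_num, by norm_num, hf1, hf2, hf3, hf4, ?_⟩
  intro ε hε
  obtain ⟨C, hC⟩ := h 10 (by norm_num) ε hε
  refine ⟨C * (eVariationOn f (Icc 0 1)).toReal, fun x _ N hN hNx => ?_⟩
  rw [Real.rpow_one] at hNx
  rw [zero_add]
  exact (le_abs_self _).trans (hC f hf2 hf6 x N hN hNx)

theorem stat_of_bq {q s : ℝ} (hq : 1 ≤ q) (h : ∀ g : ℝ, 1 < g → BQ g q s) :
    Some1 (fun g β f => SM g β s q 0 f) := by
  obtain ⟨f, hf1, hf2, hf3, hf4, hf5, hf6⟩ := cos_bv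
  refine ⟨10, 1, f, by norm_num, by norm_num, hf1, hf2, hf3, hf4, ?_⟩
  intro ε hε
  obtain ⟨C, hC⟩ := h 10 (by norm_num) ε hε
  set V := (eVariationOn f (Icc 0 1)).toReal with hV
  have hV0 : 0 ≤ V := ENNReal.toReal_nonneg
  refine ⟨C * V ^ q, fun X hX N hN hNX => ?_⟩
  rw [Real.rpow_one] at hNX
  have h1 := hC f hf2 hf6 X hX N hN hNX
  refine (pos_le_abs (dev_cont hf5 N) hq hX).trans (h1.trans (le_of_eq ?_))
  rw [Real.mul_rpow hV0 (by positivity), ← Real.rpow_mul (by positivity), zero_add]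
  ring

/-! ### the line `Re = 1/2` -/

theorem zp_half {a : ℝ} : ZP (1 / 2) a ↔ Lind a := by
  unfold ZP Lind
  have e : (((1 / 2 : ℝ)) : ℂ) = 1 / 2 := by push_cast; ring
  rw [e]

theorem zq_half {q a : ℝ} : ZQ q (1 / 2) a ↔ ZM q a := by
  unfold ZQ ZM
  have e : (((1 / 2 : ℝ)) : ℂ) = 1 / 2 := by push_cast; ring
  rw [e]

/-- some digit, one-sided, pointwise -/
def OneP (s a : ℝ) : Prop := ∃ (j d : ℕ) (β : ℝ), d ≤ 9 ∧ (j = 0 → 1 ≤ d) ∧ 1 / 2 < β ∧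
  (UP j d β s a ∨ DnP j d β s a)

/-- some digit, one-sided, in the mean of order `q` -/
def OneQ (q s a : ℝ) : Prop := ∃ (j d : ℕ) (β : ℝ), d ≤ 9 ∧ (j = 0 → 1 ≤ d) ∧ 1 / 2 < β ∧
  (UQ j d β q s a ∨ DnQ j d β q s a)

theorem assembleP (hONE : G_ONE) (hUNIQ : V_UNIQ) (hITER : G_ITER) (hZP : S_ZP) (hEP : S_EP)
    (hCP : S_CP) (hTR : S_TR) (hDP : S_DP) (hBV : S_BV) (hDG : S_DG) (hDB : S_DB) :
    (∀ s a : ℝ, 1 / 2 ≤ s → s < 1 → 0 ≤ a → List.TFAE [ZP s a,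
      ∀ g : ℝ, 1 < g → CP g s a,
      Some1 (fun g β f => StatUpperG g β s a f)]) ∧
    (∀ s a : ℝ, 1 / 2 ≤ s → s < 1 → 0 ≤ a → OneP s a → ZP s a) ∧
    (∀ s : ℝ, 1 / 2 ≤ s → s < 1 → List.TFAE [ZP s 0,
      ∀ g : ℝ, 1 < g → BP g s,
      ∀ j d : ℕ, LP j d s,
      OneP s 0]) := by
  have hdig : ∀ s a : ℝ, 1 / 2 ≤ s → s < 1 → 0 ≤ a → OneP s a → ZP s a := by
    rintro s a hs hs1 ha ⟨j, d, β, hd, hj, hβ, h⟩
    obtain ⟨f, hf1, hf2, hf3, hf4, hf5⟩ := (hDB j d β s a hd hj).1 h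
    exact zp_of_stat hONE hUNIQ hITER hZP hs hs1 ha (by norm_num) hβ hf1 hf2 ⟨1, hf3⟩ hf4 hf5
  refine ⟨?_, hdig, ?_⟩
  · intro s a hs hs1 ha
    tfae_have 1 → 2 := by
      intro h
      rcases lt_or_ge a (1 - s) with h1 | h1
      · exact hCP s a hs hs1 ha (by linarith) (hEP s a hs hs1 ha (by linarith) h)
      · exact fun g hg => (hTR s a hs hs1 h1 g hg).1
    tfae_have 2 → 3 := stat_of_cp
    tfae_have 3 → 1 := by
      rintro ⟨g, β, f, hg, hβ, hf1, hf2, hf3, hf4, hf5⟩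
      exact zp_of_stat hONE hUNIQ hITER hZP hs hs1 ha hg hβ hf1 hf2 hf3 hf4 hf5
    tfae_finish
  · intro s hs hs1
    have hD : ZP s 0 → DP s := fun h => hDP s hs hs1 (hEP s 0 hs hs1 le_rfl one_pos h)
    tfae_have 1 → 2 := fun h => hBV.1 s (hD h)
    tfae_have 1 → 3 := fun h => hDG.1 s (hD h)
    tfae_have 2 → 1 := by
      intro h
      obtain ⟨g, β, f, hg, hβ, hf1, hf2, hf3, hf4, hf5⟩ := stat_of_bp h
      exact zp_of_stat hONE hUNIQ hITER hZP hs hs1 le_rfl hg hβ hf1 hf2 hf3 hf4 hf5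
    tfae_have 3 → 4 := fun h =>
      ⟨0, 1, 1, by norm_num, by norm_num, by norm_num, Or.inl (up_of_lp (h 0 1))⟩
    tfae_have 4 → 1 := hdig s 0 hs hs1 le_rfl
    tfae_finish

theorem assembleQ (hONE : M_ONE) (hUNIQ : V_UNIQ) (hITER : M_ITER) (hZQ : S_ZQ) (hEQ : S_EQ)
    (hCQ : S_CQ) (hTR : S_TR) (hDQ : S_DQ) (hBV : S_BV) (hDG : S_DG) (hDB : S_DB)
    (hHOL : S_HOL) (hZK : S_ZK) :
    (∀ q s a : ℝ, 1 ≤ q → 1 / 2 ≤ s → s < 1 → 0 ≤ a → List.TFAE [ZQ q s a,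
      ∀ g : ℝ, 1 < g → CQ g q s a,
      Some1 (fun g β f => SM g β s q a f)]) ∧
    (∀ q s a : ℝ, 1 ≤ q → 1 / 2 ≤ s → s < 1 → 0 ≤ a → OneQ q s a → ZQ q s a) ∧
    (∀ q s : ℝ, 1 ≤ q → 1 / 2 ≤ s → s < 1 → List.TFAE [ZQ q s 0,
      ∀ g : ℝ, 1 < g → BQ g q s,
      ∀ j d : ℕ, LQ j d q s,
      OneQ q s 0]) ∧
    (∀ (k : ℕ) (q s : ℝ), 1 ≤ k → 1 ≤ q → q ≤ 2 * k → 1 / 2 ≤ s → 1 - 1 / (k : ℝ) ≤ s → s < 1 →
      ZQ q s 0) := by
  have hdig : ∀ q s a : ℝ, 1 ≤ q → 1 / 2 ≤ s → s < 1 → 0 ≤ a → OneQ q s a → ZQ q s a := by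
    rintro q s a hq hs hs1 ha ⟨j, d, β, hd, hj, hβ, h⟩
    obtain ⟨f, hf1, hf2, hf3, hf4, hf5⟩ := (hDB j d β s a hd hj).2 q h
    exact zq_of_stat hONE hUNIQ hITER hZQ hq hs hs1 ha (by norm_num) hβ hf1 hf2 ⟨1, hf3⟩ hf4 hf5
  refine ⟨?_, hdig, ?_, ?_⟩
  · intro q s a hq hs hs1 ha
    tfae_have 1 → 2 := by
      intro h
      rcases lt_or_ge a (1 - s) with h1 | h1
      · exact hCQ q s a hq hs hs1 ha (by linarith) (hEQ q s a hq hs hs1 ha (by linarith) h)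
      · exact fun g hg => (hTR s a hs hs1 h1 g hg).2 q hq
    tfae_have 2 → 3 := stat_of_cq hq
    tfae_have 3 → 1 := by
      rintro ⟨g, β, f, hg, hβ, hf1, hf2, hf3, hf4, hf5⟩
      exact zq_of_stat hONE hUNIQ hITER hZQ hq hs hs1 ha hg hβ hf1 hf2 hf3 hf4 hf5
    tfae_finish
  · intro q s hq hs hs1
    have hD : ZQ q s 0 → DQ q s :=
      fun h => hDQ q s hq hs hs1 (hEQ q s 0 hq hs hs1 le_rfl one_pos h)
    tfae_have 1 → 2 := fun h => hBV.2 q s hq (hD h)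
    tfae_have 1 → 3 := fun h => hDG.2 q s hq (hD h)
    tfae_have 2 → 1 := by
      intro h
      obtain ⟨g, β, f, hg, hβ, hf1, hf2, hf3, hf4, hf5⟩ := stat_of_bq hq h
      exact zq_of_stat hONE hUNIQ hITER hZQ hq hs hs1 le_rfl hg hβ hf1 hf2 hf3 hf4 hf5
    tfae_have 3 → 4 := fun h =>
      ⟨0, 1, 1, by norm_num, by norm_num, by norm_num, Or.inl (uq_of_lq hq (h 0 1))⟩
    tfae_have 4 → 1 := hdig q s 0 hq hs hs1 le_rfl
    tfae_finish
  · intro k q s hk hq hqk hs hks hs1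
    exact hHOL q (2 * k) s 0 hq hqk hs hs1 le_rfl (hZK k hk s hs hks hs1)

/-- LH and one digit in the means of arbitrarily large order -/
theorem lh_means (hHOL : S_HOL) (hLHK : M_LHK) (hlaw : Lind 0 → ∀ j d : ℕ, DigitLaw j d)
    (hdig : ∀ q s a : ℝ, 1 ≤ q → 1 / 2 ≤ s → s < 1 → 0 ≤ a → OneQ q s a → ZQ q s a) :
    Lind 0 ↔ ∀ Q : ℝ, ∃ q : ℝ, 1 ≤ q ∧ Q ≤ q ∧ OneQ q (1 / 2) 0 := by
  constructor
  · intro h Q
    refine ⟨max 1 Q, le_max_left _ _, le_max_right _ _, 0, 1, 1, by norm_num, by norm_num,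
      by norm_num, Or.inl ?_⟩
    intro ε hε
    obtain ⟨C, hC⟩ := digitMU_of_law (hlaw h 0 1) (le_max_left 1 Q) ε hε
    refine ⟨C, fun X hX N hN hNX => ?_⟩
    rw [← Real.sqrt_eq_rpow]
    exact hC X hX N hN hNX
  · intro h
    refine hLHK 0 le_rfl fun q hq => ?_
    obtain ⟨r, hr, hqr, h5⟩ := h q
    exact zq_half.1 (hHOL q r (1 / 2) 0 hq hqr le_rfl (by norm_num) le_rfl
      (hdig r (1 / 2) 0 hr le_rfl (by norm_num) le_rfl h5))

end Pool.Agent.Ben
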