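import Pool.Agent.Ben.Targets11

/-!
# Assembly of the product criterion
-/

set_option autoImplicit false

namespace Pool.Agent.Ben

open Complex MeasureTheory Set

theorem PB_mono {β β' s s' a : ℝ} (hβ : β' ≤ β) (hs : s ≤ s') (h : PB β s a) : PB β' s' a := by
  intro ε hε
  obtain ⟨C, hC⟩ := h ε hε
  refine ⟨|C|, fun x hx N hN hNx => (hC x hx N hN (hNx.trans ?_)).trans ?_⟩
  · exact Real.rpow_le_rpow_of_exponent_le hx hβ
  · have hN1 : (1 : ℝ) ≤ N := by exact_mod_cast hN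
    have h1 : (N : ℝ) ^ s ≤ (N : ℝ) ^ s' := Real.rpow_le_rpow_of_exponent_le hN1 hs
    apply Real.exp_le_exp.mpr
    have h2 : 0 ≤ (N : ℝ) ^ s := by positivity
    have h3 : 0 ≤ x ^ (a + ε) := by positivity
    refine mul_le_mul_of_nonneg_right ?_ h3
    calc C * (N : ℝ) ^ s ≤ |C| * (N : ℝ) ^ s := mul_le_mul_of_nonneg_right (le_abs_self C) h2
      _ ≤ |C| * (N : ℝ) ^ s' := mul_le_mul_of_nonneg_left h1 (abs_nonneg C)

theorem PB_GG (hLI : L_ITER) (hGA : L_GA) (hGB : L_GB) (hONE : L_ONE) {β s a : ℝ} (hβ : 0 < β)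
    (hβ1 : β ≤ 1) (hs0 : 0 ≤ s) (hs1 : s ≤ 1) (ha : 0 ≤ a) (h : PB β s a) {θ : ℝ} (hθ : 0 < θ) :
    ∃ κ : ℝ, 0 < κ ∧ GG s a θ κ β := by
  obtain ⟨⟨B, hB⟩, h0⟩ := hGA
  have hc : coef G0 ((1 : ℕ) : ℤ) ≠ 0 := by
    rw [Nat.cast_one]
    exact hGB
  exact hLI 1 le_rfl G0 B 1 β s a hB h0 one_pos hβ hβ1 hs0 hs1 ha hc
    (fun j h1 h2 => absurd h2 (by omega)) (hONE β s a hβ ha h) θ hθ

theorem assembleL (hLI : L_ITER) (hGA : L_GA) (hGB : L_GB) (hONE : L_ONE) (hFWD : L_FWD)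
    (hZP : S_ZP) (hEP : S_EP) (hMS : G_MS) :
    (∀ β s a : ℝ, 1 / 2 < β → 1 / 2 ≤ s → s < 1 → 0 ≤ a → PB β s a → ZP s a) ∧
    (∀ s : ℝ, 1 / 2 ≤ s → s < 1 → ZP s 0 → PB 1 s 0) ∧
    (∀ β θ : ℝ, 0 < β → θ < 1 / 2 → ¬ PB β θ 0) := by
  refine ⟨fun β s a hβ hs hs1 ha h => ?_, fun s hs hs1 h => ?_, fun β θ hβ hθ h => ?_⟩
  · have hb : 1 / 2 < min β 1 := lt_min hβ (by norm_num)
    have h1 : PB (min β 1) s a := PB_mono (min_le_left _ _) le_rfl h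
    obtain ⟨κ, hκ, h2⟩ := PB_GG hLI hGA hGB hONE (by linarith) (min_le_right _ _)
      (by linarith : (0 : ℝ) ≤ s) hs1.le ha h1 (θ := s) (by linarith)
    exact hZP s a κ (min β 1) hs hs1 ha hκ hb (min_le_right _ _) h2
  · exact hFWD s hs hs1 (hEP s 0 hs hs1 le_rfl one_pos h)
  · have hb : 0 < min β 1 := lt_min hβ one_pos
    have ht0 : 0 ≤ max θ 0 := le_max_right _ _
    have ht1 : max θ 0 < 1 / 2 := max_lt hθ (by norm_num)
    have h1 : PB (min β 1) (max θ 0) 0 := PB_mono (min_le_left _ _) (le_max_left _ _) h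
    obtain ⟨κ, hκ, h2⟩ := PB_GG hLI hGA hGB hONE hb (min_le_right _ _)
      ht0 (by linarith) le_rfl h1 (θ := 1 / 4) (by norm_num)
    exact hMS (max θ 0) (1 / 4) κ (min β 1) ht1 (by norm_num) hκ hb h2

end Pool.Agent.Ben
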