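import Pool.Agent.Ben.Targets12

/-!
# Assembly of the product criterion on the closed unit disc
-/

set_option autoImplicit false

namespace Pool.Agent.Ben

open Complex MeasureTheory Set

theorem PZ_mono {z : ℂ} {β β' s s' a : ℝ} (hβ : β' ≤ β) (hs : s ≤ s') (h : PZ z β s a) :
    PZ z β' s' a := by
  intro ε hε
  obtain ⟨C, hC⟩ := h ε hε
  refine ⟨|C|, fun x hx N hN hNx => (hC x hx N hN (hNx.trans ?_)).trans ?_⟩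
  · exact Real.rpow_le_rpow_of_exponent_le hx hβ
  · have hN1 : (1 : ℝ) ≤ N := by exact_mod_cast hN
    have h1 : (N : ℝ) ^ s ≤ (N : ℝ) ^ s' := Real.rpow_le_rpow_of_exponent_le hN1 hs
    apply Real.exp_le_exp.mpr
    have h2 : 0 ≤ (N : ℝ) ^ s := by positivity
    have h3 : 0 ≤ x ^ (a + ε) := by positivity
    refine mul_le_mul_of_nonneg_right ?_ h3
    calc C * (N : ℝ) ^ s ≤ |C| * (N : ℝ) ^ s := mul_le_mul_of_nonneg_right (le_abs_self C) h2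
      _ ≤ |C| * (N : ℝ) ^ s' := mul_le_mul_of_nonneg_left h1 (abs_nonneg C)

theorem PU_PZ {s : ℝ} (h : PU s) {z : ℂ} (hz : ‖z‖ ≤ 1) : PZ z 1 s 0 := by
  intro ε hε
  obtain ⟨C, hC⟩ := h ε hε
  refine ⟨C, fun x hx N hN hNx => ?_⟩
  rw [Real.rpow_one] at hNx
  rw [zero_add]
  exact hC z hz x hx N hN hNx

theorem GZ_facts (hZA : N_ZA) (hZB : N_ZB) {z : ℂ} (hz0 : z ≠ 0) (hz : ‖z‖ ≤ 1) :
    (∃ B : ℝ, Loc (GZ z) B) ∧ coef (GZ z) 0 = 0 ∧ coef (GZ z) 1 ≠ 0 := by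
  rcases hz.lt_or_eq with h | h
  · exact hZB z hz0 h
  · exact hZA z h

theorem PZ_GG (hLI : L_ITER) (hZA : N_ZA) (hZB : N_ZB) (hONE : N_ONE) {z : ℂ} (hz0 : z ≠ 0)
    (hz : ‖z‖ ≤ 1) {β s a : ℝ} (hβ : 0 < β) (hβ1 : β ≤ 1) (hs0 : 0 ≤ s) (hs1 : s ≤ 1)
    (ha : 0 ≤ a) (h : PZ z β s a) {θ : ℝ} (hθ : 0 < θ) :
    ∃ κ : ℝ, 0 < κ ∧ GG s a θ κ β := by
  obtain ⟨⟨B, hB⟩, h0, h1⟩ := GZ_facts hZA hZB hz0 hz
  have hc : coef (GZ z) ((1 : ℕ) : ℤ) ≠ 0 := by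
    rw [Nat.cast_one]
    exact h1
  exact hLI 1 le_rfl (GZ z) B 1 β s a hB h0 one_pos hβ hβ1 hs0 hs1 ha hc
    (fun j h1 h2 => absurd h2 (by omega)) (hONE z β s a hβ hs0 ha h) θ hθ

theorem assembleN (hLI : L_ITER) (hZA : N_ZA) (hZB : N_ZB) (hONE : N_ONE) (hFWD : N_FWD)
    (hSM : N_SM) (hZP : S_ZP) (hEP : S_EP) (hMS : G_MS)
    (hCP : ∀ s a : ℝ, 1 / 2 ≤ s → s < 1 → 0 ≤ a → ZP s a → ∀ g : ℝ, 1 < g → CP g s a) :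
    (∀ (z : ℂ) (β s a : ℝ), z ≠ 0 → ‖z‖ ≤ 1 → 1 / 2 < β → 1 / 2 ≤ s → s < 1 → 0 ≤ a →
      PZ z β s a → ZP s a) ∧
    (∀ (z : ℂ) (s a : ℝ), ‖z‖ < 1 → 1 / 2 ≤ s → s < 1 → 0 ≤ a → ZP s a → PZ z 1 s a) ∧
    (∀ s : ℝ, 1 / 2 ≤ s → s < 1 → ZP s 0 → PU s) ∧
    (∀ (z : ℂ) (β θ : ℝ), z ≠ 0 → ‖z‖ ≤ 1 → 0 < β → θ < 1 / 2 → ¬ PZ z β θ 0) := by
  refine ⟨fun z β s a hz0 hz hβ hs hs1 ha h => ?_, fun z s a hz hs hs1 ha h => ?_,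
    fun s hs hs1 h => ?_, fun z β θ hz0 hz hβ hθ h => ?_⟩
  · have hb : 1 / 2 < min β 1 := lt_min hβ (by norm_num)
    have h1 : PZ z (min β 1) s a := PZ_mono (min_le_left _ _) le_rfl h
    obtain ⟨κ, hκ, h2⟩ := PZ_GG hLI hZA hZB hONE hz0 hz (by linarith) (min_le_right _ _)
      (by linarith : (0 : ℝ) ≤ s) hs1.le ha h1 (θ := s) (by linarith)
    exact hZP s a κ (min β 1) hs hs1 ha hκ hb (min_le_right _ _) h2
  · exact hSM z s a hz (by linarith) ha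
      (hCP s a hs hs1 ha h _ (Real.one_lt_exp_iff.2 (by positivity)))
  · exact hFWD s hs hs1 (hEP s 0 hs hs1 le_rfl one_pos h)
  · have hb : 0 < min β 1 := lt_min hβ one_pos
    have ht0 : 0 ≤ max θ 0 := le_max_right _ _
    have ht1 : max θ 0 < 1 / 2 := max_lt hθ (by norm_num)
    have h1 : PZ z (min β 1) (max θ 0) 0 := PZ_mono (min_le_left _ _) (le_max_left _ _) h
    obtain ⟨κ, hκ, h2⟩ := PZ_GG hLI hZA hZB hONE hz0 hz hb (min_le_right _ _)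
      ht0 (by linarith) le_rfl h1 (θ := 1 / 4) (by norm_num)
    exact hMS (max θ 0) (1 / 4) κ (min β 1) ht1 (by norm_num) hκ hb h2

end Pool.Agent.Ben
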