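import Pool.Agent.Ben.Targets3
import Pool.Agent.Ben.Asm

/-!
# Assembly of version 2 from the blocks
-/

set_option autoImplicit false

namespace Pool.Agent.Ben

open Complex MeasureTheory Set

theorem cos_stat : ∃ f : ℝ → ℝ, Measurable f ∧ Function.Periodic f 1 ∧
    (∃ B, ∀ y, |f y| ≤ B) ∧ ¬ (∃ c : ℝ, ∀ᵐ y, f y = c) ∧ BoundedVariationOn f (Icc 0 1) := by
  have hc : Continuous (fun y : ℝ => Real.cos (2 * Real.pi * y)) := by fun_prop
  refine ⟨fun y => Real.cos (2 * Real.pi * y), hc.measurable, ?_, ⟨1, ?_⟩, ?_, ?_⟩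
  · intro y
    have : 2 * Real.pi * (y + 1) = 2 * Real.pi * y + 2 * Real.pi := by ring
    simp only [this, Real.cos_add_two_pi]
  · intro y
    exact Real.abs_cos_le_one _
  · rintro ⟨c, h⟩
    have h2 : (fun y : ℝ => Real.cos (2 * Real.pi * y)) = fun _ => c :=
      (Continuous.ae_eq_iff_eq volume hc continuous_const).1 h
    have h3 := congrFun h2 0
    have h4 := congrFun h2 (1 / 2)
    have h5 : 2 * Real.pi * (1 / 2) = Real.pi := by ring
    simp only [h5, Real.cos_pi, mul_zero, Real.cos_zero] at h3 h4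
    linarith
  · have hl : LipschitzWith (Real.toNNReal (2 * Real.pi)) fun y : ℝ =>
        Real.cos (2 * Real.pi * y) := by
      apply LipschitzWith.of_dist_le_mul
      intro x y
      rw [Real.dist_eq, Real.dist_eq, Real.coe_toNNReal _ (by positivity)]
      have := Real.abs_cos_sub_cos_le (2 * Real.pi * x) (2 * Real.pi * y)
      refine this.trans ?_
      rw [← mul_sub, abs_mul, abs_of_pos (by positivity)]
    have := hl.locallyBoundedVariationOn (Icc (0 : ℝ) 1)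
    have h2 := this 0 1 (by simp) (by simp)
    simpa using h2
theorem back2 (hITER : V_ITER) (hTAIL : T_TAIL) (hSUML : T_SUML) (hLH : T_LH)
    {G : ℝ → ℝ} {B κ : ℝ} (hG : Obs G B) (hκ : 0 < κ)
    (hm : ∃ m : ℕ, 1 ≤ m ∧ coef G m ≠ 0 ∧ ∀ j : ℕ, 0 < j → j < m → coef G j = 0)
    (hU : Upper G κ) : LH := by
  obtain ⟨m, hm1, hc, hj⟩ := hm
  obtain ⟨κ', hκ', hGL⟩ := hITER m hm1 G B κ hG hκ hc hj hU
  exact gauss_lh hTAIL hSUML hLH κ' hκ' hGL

theorem Adm.obs {G : ℝ → ℝ} {B : ℝ} (h : Adm G B) : Obs G B :=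
  ⟨h.meas, h.per, h.bdd, h.mean⟩

theorem one_lh (hONE : V_ONE) (hUNIQ : V_UNIQ) (hITER : V_ITER) (hTAIL : T_TAIL)
    (hSUML : T_SUML) (hLH : T_LH) {g : ℝ} {f : ℝ → ℝ} (hg : 1 < g) (hf : Measurable f)
    (hp : Function.Periodic f 1) (hb : ∃ B, ∀ y, |f y| ≤ B)
    (hn : ¬ (∃ c : ℝ, ∀ᵐ y, f y = c)) (hU : StatUpper g f) : LH := by
  obtain ⟨B, hB⟩ := hb
  obtain ⟨h1, h2⟩ := hONE g f B hg hf hp hB hU
  refine back2 hITER hTAIL hSUML hLH h1 (Real.log_pos hg) (hUNIQ _ _ h1 ?_) h2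
  intro h
  apply hn
  refine ⟨∫ u in (0 : ℝ)..1, f u, ?_⟩
  filter_upwards [h] with y hy
  linarith

theorem assemble2 (hf : T_forward) (hMANT : T_MANT) (hLEN : T_LEN)
    (hBENU : T_BENU) (hLENF : T_LENF) (hADMP : T_ADMP)
    (hLENU : T_LENU) (hLENL : T_LENL) (hTAIL : T_TAIL) (hSUML : T_SUML)
    (hLH : T_LH) (hINT : T_INT) (hITER : V_ITER) (hUNIQ : V_UNIQ) (hONE : V_ONE)
    (hALL : V_ALL) (hDIG : V_DIG) (hDIGB : V_DIGB) :
    List.TFAE [LH,
      ∀ g : ℝ, 1 < g → StatAll g,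
      ∃ (g : ℝ) (f : ℝ → ℝ), 1 < g ∧ Measurable f ∧ Function.Periodic f 1 ∧
        (∃ B, ∀ y, |f y| ≤ B) ∧ ¬ (∃ c : ℝ, ∀ᵐ y, f y = c) ∧ StatUpper g f,
      ∀ j d : ℕ, DigitLaw j d,
      ∃ j d : ℕ, d ≤ 9 ∧ (j = 0 → 1 ≤ d) ∧ (DigitUpper j d ∨ DigitLower j d),
      ∀ g : ℝ, 1 < g → BenfordInt g,
      ∃ g : ℝ, 1 < g ∧ BenfordInt g,
      Lengths,
      LengthsUpper,
      LengthsLower] := by
  have h1 : coef psi 1 ≠ 0 := hADMP.1.2
  have h2 : coef (fun y => -psi y) 1 ≠ 0 := hADMP.2.2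
  tfae_have 1 → 2 := fun h => hALL (hf h)
  tfae_have 1 → 4 := fun h => hDIG (hBENU hMANT (hf h) 10 (by norm_num))
  tfae_have 4 → 5 := by
    intro h
    refine ⟨0, 1, by norm_num, by norm_num, Or.inl ?_⟩
    intro ε hε
    obtain ⟨C, hC⟩ := h 0 1 ε hε
    exact ⟨C, fun x N hN hNx => (le_abs_self _).trans (hC x N hN hNx)⟩
  tfae_have 5 → 3 := by
    rintro ⟨j, d, hd, hj, h⟩
    obtain ⟨f, hf1, hf2, hf3, hf4, hf5⟩ := hDIGB j d hd hj h
    exact ⟨10, f, by norm_num, hf1, hf2, ⟨1, hf3⟩, hf4, hf5⟩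
  tfae_have 3 → 1 := by
    rintro ⟨g, f, hg, hf1, hf2, hf3, hf4, hf5⟩
    exact one_lh hONE hUNIQ hITER hTAIL hSUML hLH hg hf1 hf2 hf3 hf4 hf5
  tfae_have 1 → 6 := by
    intro h g hg ε hε
    obtain ⟨C, hC⟩ := hBENU hMANT (hf h) g hg ε hε
    refine ⟨|C|, ?_⟩
    intro k N hN hNk s hs1 hsg
    have hNk' : (N : ℝ) ≤ (k : ℝ) := by exact_mod_cast hNk
    have hk : (0 : ℝ) ≤ (k : ℝ) := by positivity
    rcases lt_or_eq_of_le hs1 with hs | hs
    · have := hC k N hN hNk' 1 s one_pos hs (by linarith)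
      rw [div_one] at this
      refine this.trans ?_
      gcongr
      exact le_abs_self C
    · have h0 : {n : ℕ | 1 ≤ n ∧ n ≤ N ∧ Mant g 1 s ((n : ℝ) ^ (k : ℝ))} = ∅ := by
        ext n
        simp only [Set.mem_ofPred_eq, Set.mem_empty_iff_false, iff_false]
        rintro ⟨-, -, m, hm1, hm2⟩
        rw [← hs] at hm2
        linarith
      have : count g 1 s (k : ℝ) N = 0 := by
        unfold count
        rw [h0]
        exact Set.ncard_empty ℕ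
      rw [this, ← hs, Real.logb_one]
      simp only [Nat.cast_zero, mul_zero, sub_zero, abs_zero]
      positivity
  tfae_have 6 → 7 := fun h => ⟨10, by norm_num, h 10 (by norm_num)⟩
  tfae_have 7 → 1 := by
    rintro ⟨g, hg, h⟩
    exact gauss_lh hTAIL hSUML hLH _ (Real.log_pos hg) (hINT hMANT g hg h)
  tfae_have 1 → 8 := fun h => hLENF hLEN (hf h)
  tfae_have 8 → 9 := by
    intro h ε hε
    obtain ⟨C, hC⟩ := h ε hε
    exact ⟨C, fun g k N hg hk hN hp => (le_abs_self _).trans (hC g k N hg hk hN hp)⟩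
  tfae_have 8 → 10 := by
    intro h ε hε
    obtain ⟨C, hC⟩ := h ε hε
    exact ⟨C, fun g k N hg hk hN hp => (abs_le.mp (hC g k N hg hk hN hp)).1⟩
  tfae_have 9 → 1 := fun h =>
    back2 hITER hTAIL hSUML hLH hADMP.2.1.obs (by norm_num)
      ⟨1, le_rfl, by simpa using h2, fun j h3 h4 => by omega⟩ (hLENU hLEN h)
  tfae_have 10 → 1 := fun h =>
    back2 hITER hTAIL hSUML hLH hADMP.1.1.obs (by norm_num)
      ⟨1, le_rfl, by simpa using h1, fun j h3 h4 => by omega⟩ (hLENL hLEN h)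
  tfae_have 2 → 3 := by
    intro h
    obtain ⟨f, hf1, hf2, hf3, hf4, hf5⟩ := cos_stat
    refine ⟨10, f, by norm_num, hf1, hf2, hf3, hf4, ?_⟩
    intro ε hε
    obtain ⟨C, hC⟩ := h 10 (by norm_num) ε hε
    exact ⟨C * (eVariationOn f (Icc 0 1)).toReal, fun x N hN hNx =>
      (le_abs_self _).trans (hC f hf2 hf5 x N hN hNx)⟩
  tfae_finish

end Pool.Agent.Ben
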