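import Pool.Agent.Ben.Targets5
import Pool.Agent.Ben.Asm2

/-!
# Assembly of version 3 from the blocks
-/

set_option autoImplicit false

namespace Pool.Agent.Ben

open Complex MeasureTheory Set

theorem back3 (hITER : W_ITER) (hSUML : W_SUML) (hLH : W_LH) {G : ℝ → ℝ} {B κ a : ℝ}
    (hG : Obs G B) (hκ : 0 < κ) (ha : 0 ≤ a)
    (hm : ∃ m : ℕ, 1 ≤ m ∧ coef G m ≠ 0 ∧ ∀ j : ℕ, 0 < j → j < m → coef G j = 0)
    (hU : UpperA G κ a) : Lind a := by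
  obtain ⟨m, hm1, hc, hj⟩ := hm
  obtain ⟨κ', hκ', hGL⟩ := hITER m hm1 G B κ a hG hκ ha hc hj hU
  exact hLH a ha (hSUML κ' a hκ' ha hGL)

theorem Upper.toA {G : ℝ → ℝ} {κ : ℝ} (h : Upper G κ) : UpperA G κ 0 := by
  intro ε hε
  obtain ⟨C, hC⟩ := h ε hε
  refine ⟨C, ?_⟩
  simpa only [zero_add] using hC

theorem lh_lind : LH ↔ Lind 0 := by
  unfold LH Lind
  simp only [zero_add]

theorem gaussLe_A {κ : ℝ} (h : GaussLe κ) : GaussA κ 0 := by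
  intro ε hε
  obtain ⟨C, hC⟩ := h ε hε
  refine ⟨C, ?_⟩
  simpa only [zero_add] using hC

theorem exps_zero (h : Exps 0) : ∀ ε : ℝ, 0 < ε → ∀ K : ℝ, 0 < K → ∃ C : ℝ, ∀ T : ℝ, 1 ≤ T →
    ∀ N : ℕ, 1 ≤ N → (N : ℝ) ≤ K * T →
    ‖∑ n ∈ Finset.Icc 1 N, (n : ℂ) ^ (-(T * I) : ℂ)‖ ≤ C * √(N : ℝ) * T ^ ε := by
  intro ε hε K hK
  obtain ⟨C, hC⟩ := h ε hε K hK
  refine ⟨C, ?_⟩
  simpa only [zero_add] using hC

theorem one_lind (hONE : W_ONE) (hUNIQ : V_UNIQ) (hITER : W_ITER) (hSUML : W_SUML)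
    (hLH : W_LH) {g a : ℝ} {f : ℝ → ℝ} (ha : 0 ≤ a) (hg : 1 < g) (hf : Measurable f)
    (hp : Function.Periodic f 1) (hb : ∃ B, ∀ y, |f y| ≤ B)
    (hn : ¬ (∃ c : ℝ, ∀ᵐ y, f y = c)) (hU : StatUpperA g a f) : Lind a := by
  obtain ⟨B, hB⟩ := hb
  obtain ⟨h1, h2⟩ := hONE g a f B hg ha hf hp hB hU
  refine back3 hITER hSUML hLH h1 (Real.log_pos hg) ha (hUNIQ _ _ h1 ?_) h2
  intro h
  apply hn
  refine ⟨∫ u in (0 : ℝ)..1, f u, ?_⟩
  filter_upwards [h] with y hy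
  linarith

theorem cos_C1 : ∃ f : ℝ → ℝ, Measurable f ∧ Function.Periodic f 1 ∧
    (∃ B, ∀ y, |f y| ≤ B) ∧ ¬ (∃ c : ℝ, ∀ᵐ y, f y = c) ∧ ContDiff ℝ 1 f ∧
    ∃ M, ∀ y, |deriv f y| ≤ M := by
  have hc : Continuous (fun y : ℝ => Real.cos (2 * Real.pi * y)) := by fun_prop
  refine ⟨fun y => Real.cos (2 * Real.pi * y), hc.measurable, ?_, ⟨1, ?_⟩, ?_, ?_, ?_⟩
  · intro y
    have : 2 * Real.pi * (y + 1) = 2 * Real.pi * y + 2 * Real.pi := by ring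
    simp only [this, Real.cos_add_two_pi]
  · intro y
    exact Real.abs_cos_le_one _
  · rintro ⟨c, h⟩
    have h2 : (fun y : ℝ => Real.cos (2 * Real.pi * y)) = fun _ => c :=
      (Continuous.ae_eq_iff_eq volume hc continuous_const).1 h
    have h3 := congrFun h2 0
    have h4 := congrFun h2 (1 / 2)
    have h5 : 2 * Real.pi * (1 / 2) = Real.pi := by ring
    simp only [h5, Real.cos_pi, mul_zero, Real.cos_zero] at h3 h4
    linarith
  · exact Real.contDiff_cos.comp (contDiff_const.mul contDiff_id)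
  · refine ⟨2 * Real.pi, fun y => ?_⟩
    have h1 : HasDerivAt (fun y : ℝ => Real.cos (2 * Real.pi * y))
        (-Real.sin (2 * Real.pi * y) * (2 * Real.pi)) y := by
      have h2 : HasDerivAt (fun y : ℝ => 2 * Real.pi * y) (2 * Real.pi) y := by
        simpa using (hasDerivAt_id y).const_mul (2 * Real.pi)
      exact h2.cos
    rw [h1.deriv, abs_mul, abs_neg, abs_of_pos (by positivity : 0 < 2 * Real.pi)]
    have := Real.abs_sin_le_one (2 * Real.pi * y)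
    nlinarith [Real.pi_pos]

theorem assemble3 (hFORM : Form) (hRB : T_RB) (hPOLE : T_POLE) (hWE : W_EXPS) (hSMO : W_SMO)
    (hTRIV : W_TRIV) (hET : T_ET) (hFWD : T_FWD) (hPHI : T_PHI) (hSAW : T_SAW)
    (hMANT : T_MANT) (hLEN : T_LEN) (hBENU : T_BENU) (hLENF : T_LENF) (hADMP : T_ADMP)
    (hLENU : T_LENU) (hLENL : T_LENL) (hINT : T_INT) (hITER : W_ITER) (hSUML : W_SUML)
    (hLH : W_LH) (hUNIQ : V_UNIQ) (hONE : W_ONE) (hALL : V_ALL) (hDIG : V_DIG)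
    (hDIGB : W_DIGB) (hSTF : X_STF) (hSTB : X_STB) :
    (∀ a : ℝ, 0 ≤ a → List.TFAE [Lind a,
      ∀ g : ℝ, 1 < g → StatC1 g a,
      ∃ (g : ℝ) (f : ℝ → ℝ), 1 < g ∧ Measurable f ∧ Function.Periodic f 1 ∧
        (∃ B, ∀ y, |f y| ≤ B) ∧ ¬ (∃ c : ℝ, ∀ᵐ y, f y = c) ∧ StatUpperA g a f]) ∧
    (∀ a : ℝ, 0 ≤ a → (∃ j d : ℕ, d ≤ 9 ∧ (j = 0 → 1 ≤ d) ∧
      (DigitUpperA j d a ∨ DigitLowerA j d a)) → Lind a) ∧
    List.TFAE [Lind 0,
      ∀ g : ℝ, 1 < g → StatAll g,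
      ∀ j d : ℕ, DigitLaw j d,
      ∃ j d : ℕ, d ≤ 9 ∧ (j = 0 → 1 ≤ d) ∧ (DigitUpperA j d 0 ∨ DigitLowerA j d 0),
      ∀ b : ℕ, 2 ≤ b → StringsAll b,
      ∃ b : ℕ, 2 ≤ b ∧ (StringsUpper b ∨ StringsLower b),
      Lengths,
      LengthsUpper,
      LengthsLower] := by
  have hone := fun (g a : ℝ) (f : ℝ → ℝ) (ha : 0 ≤ a) (hg : 1 < g) (hf : Measurable f)
    (hp : Function.Periodic f 1) (hb : ∃ B, ∀ y, |f y| ≤ B)
    (hn : ¬ (∃ c : ℝ, ∀ᵐ y, f y = c)) (hU : StatUpperA g a f) =>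
      one_lind hONE hUNIQ hITER hSUML hLH ha hg hf hp hb hn hU
  have hdig : ∀ a : ℝ, 0 ≤ a → (∃ j d : ℕ, d ≤ 9 ∧ (j = 0 → 1 ≤ d) ∧
      (DigitUpperA j d a ∨ DigitLowerA j d a)) → Lind a := by
    rintro a ha ⟨j, d, hd, hj, h⟩
    obtain ⟨f, hf1, hf2, hf3, hf4, hf5⟩ := hDIGB j d a hd hj h
    exact hone 10 a f ha (by norm_num) hf1 hf2 ⟨1, hf3⟩ hf4 hf5
  have hf : Lind 0 → Disc := by
    intro h
    exact hFWD hET (exps_zero (hWE 0 le_rfl one_pos h)) hPHI hSAW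
  refine ⟨?_, hdig, ?_⟩
  · intro a ha
    tfae_have 1 → 2 := by
      intro h
      rcases lt_or_ge a (1 / 2) with h1 | h1
      · exact hSMO a ha h1 (hWE a ha (by linarith) h)
      · exact hTRIV a h1
    tfae_have 2 → 3 := by
      intro h
      obtain ⟨f, hf1, hf2, hf3, hf4, hf5, M, hM⟩ := cos_C1
      refine ⟨10, f, by norm_num, hf1, hf2, hf3, hf4, ?_⟩
      intro ε hε
      obtain ⟨C, hC⟩ := h 10 (by norm_num) ε hε
      exact ⟨C * M, fun x N hN hNx =>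
        (le_abs_self _).trans (hC f M hf5 hf2 hM x N hN hNx)⟩
    tfae_have 3 → 1 := by
      rintro ⟨g, f, hg, hf1, hf2, hf3, hf4, hf5⟩
      exact hone g a f ha hg hf1 hf2 hf3 hf4 hf5
    tfae_finish
  · have h1 : coef psi 1 ≠ 0 := hADMP.1.2
    have h2 : coef (fun y => -psi y) 1 ≠ 0 := hADMP.2.2
    tfae_have 1 → 2 := fun h => hALL (hf h)
    tfae_have 2 → 1 := by
      intro h
      obtain ⟨f, hf1, hf2, hf3, hf4, hf5⟩ := cos_stat
      refine hone 10 0 f le_rfl (by norm_num) hf1 hf2 hf3 hf4 ?_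
      intro ε hε
      obtain ⟨C, hC⟩ := h 10 (by norm_num) ε hε
      refine ⟨C * (eVariationOn f (Icc 0 1)).toReal, fun x N hN hNx => ?_⟩
      rw [zero_add]
      exact (le_abs_self _).trans (hC f hf2 hf5 x N hN hNx)
    tfae_have 1 → 3 := fun h => hDIG (hBENU hMANT (hf h) 10 (by norm_num))
    tfae_have 3 → 4 := by
      intro h
      refine ⟨0, 1, by norm_num, by norm_num, Or.inl ?_⟩
      intro ε hε
      obtain ⟨C, hC⟩ := h 0 1 ε hε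
      refine ⟨C, fun x N hN hNx => ?_⟩
      rw [zero_add]
      exact (le_abs_self _).trans (hC x N hN hNx)
    tfae_have 4 → 1 := hdig 0 le_rfl
    tfae_have 1 → 5 := by
      intro h b hb
      exact hSTF b hb (hBENU hMANT (hf h) b (by exact_mod_cast hb))
    tfae_have 5 → 6 := by
      intro h
      refine ⟨10, by norm_num, Or.inl ?_⟩
      intro ε hε
      obtain ⟨C, hC⟩ := h 10 (by norm_num) ε hε
      exact ⟨C, fun k N d hN hk hd => (le_abs_self _).trans (hC k N d hN hk hd)⟩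
    tfae_have 6 → 1 := by
      rintro ⟨b, hb, h⟩
      have hb1 : (1 : ℝ) < b := by exact_mod_cast hb
      have h3 := hINT hMANT b hb1 (hSTB b hb h)
      exact hLH 0 le_rfl (hSUML _ 0 (Real.log_pos hb1) le_rfl (gaussLe_A h3))
    tfae_have 1 → 7 := fun h => hLENF hLEN (hf h)
    tfae_have 7 → 8 := by
      intro h ε hε
      obtain ⟨C, hC⟩ := h ε hε
      exact ⟨C, fun g k N hg hk hN hp => (le_abs_self _).trans (hC g k N hg hk hN hp)⟩
    tfae_have 7 → 9 := by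
      intro h ε hε
      obtain ⟨C, hC⟩ := h ε hε
      exact ⟨C, fun g k N hg hk hN hp => (abs_le.mp (hC g k N hg hk hN hp)).1⟩
    tfae_have 8 → 1 := fun h =>
      back3 hITER hSUML hLH hADMP.2.1.obs (by norm_num) le_rfl
        ⟨1, le_rfl, by simpa using h2, fun j h3 h4 => by omega⟩ (hLENU hLEN h).toA
    tfae_have 9 → 1 := fun h =>
      back3 hITER hSUML hLH hADMP.1.1.obs (by norm_num) le_rfl
        ⟨1, le_rfl, by simpa using h1, fun j h3 h4 => by omega⟩ (hLENL hLEN h).toA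
    tfae_finish

end Pool.Agent.Ben
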