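import Pool.Agent.Ben.Targets6
import Pool.Agent.Ben.Asm3

/-!
# Assembly: the square root is optimal
-/

set_option autoImplicit false

namespace Pool.Agent.Ben

open Complex MeasureTheory Set

theorem optimal (hONE : Y_ONE) (hUNIQ : V_UNIQ) (hITER : Y_ITER) (hMS : Y_MS) {g θ : ℝ}
    {f : ℝ → ℝ} (hg : 1 < g) (hf : Measurable f)
    (hp : Function.Periodic f 1) (hb : ∃ B, ∀ y, |f y| ≤ B)
    (hn : ¬ (∃ c : ℝ, ∀ᵐ y, f y = c)) (hθ : θ < 1 / 2) : ¬ StatUpperT g θ f := by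
  intro hU
  obtain ⟨B, hB⟩ := hb
  obtain ⟨h1, h2⟩ := hONE g θ f B hg hf hp hB hU
  have h0 : ¬ (∀ᵐ x, f x - ∫ u in (0 : ℝ)..1, f u = 0) := by
    intro h
    apply hn
    refine ⟨∫ u in (0 : ℝ)..1, f u, ?_⟩
    filter_upwards [h] with y hy
    linarith
  obtain ⟨m, hm1, hc, hj⟩ := hUNIQ _ _ h1 h0
  have h3 : UpperT (fun y => f y - ∫ u in (0 : ℝ)..1, f u) (Real.log g) (max θ 0) := by
    intro ε hε
    obtain ⟨C, hC⟩ := h2 ε hε
    refine ⟨|C|, fun t ht N hN hNt => (hC t ht N hN hNt).trans ?_⟩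
    have hN1 : (1 : ℝ) ≤ N := by exact_mod_cast hN
    have h4 : (N : ℝ) ^ θ ≤ (N : ℝ) ^ (max θ 0) :=
      Real.rpow_le_rpow_of_exponent_le hN1 (le_max_left _ _)
    have h5 : 0 ≤ t ^ ε := Real.rpow_nonneg (by linarith) _
    have h6 : 0 ≤ (N : ℝ) ^ θ := Real.rpow_nonneg (by linarith) _
    calc C * (N : ℝ) ^ θ * t ^ ε ≤ |C| * (N : ℝ) ^ θ * t ^ ε := by
          gcongr
          exact le_abs_self C
      _ ≤ |C| * (N : ℝ) ^ (max θ 0) * t ^ ε := by gcongr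
  have h7 : max θ 0 < 1 / 2 := max_lt hθ (by norm_num)
  obtain ⟨θ', h8, h9⟩ := exists_between h7
  obtain ⟨κ, hκ, hGT⟩ := hITER m hm1 _ _ (Real.log g) (max θ 0) h1 (Real.log_pos hg)
    (le_max_right _ _) hc hj h3 θ' h8
  exact hMS θ' κ h9 hκ hGT

end Pool.Agent.Ben
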