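import Pool.Agent.Ben.Targets7
import Pool.Agent.Ben.Asm3

/-!
# Assembly: shorter ranges `N ≤ x ^ β`
-/

set_option autoImplicit false

namespace Pool.Agent.Ben

open Complex MeasureTheory Set

theorem StatUpperG.mono {g β β' p a : ℝ} {f : ℝ → ℝ} (h : StatUpperG g β p a f)
    (hβ : β' ≤ β) : StatUpperG g β' p a f := by
  intro ε hε
  obtain ⟨C, hC⟩ := h ε hε
  exact ⟨C, fun x hx N hN hNx =>
    hC x hx N hN (hNx.trans (Real.rpow_le_rpow_of_exponent_le hx hβ))⟩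

theorem StatUpperG.mono_p {g β p p' a : ℝ} {f : ℝ → ℝ} (h : StatUpperG g β p a f)
    (hp : p ≤ p') : StatUpperG g β p' a f := by
  intro ε hε
  obtain ⟨C, hC⟩ := h ε hε
  refine ⟨|C|, fun x hx N hN hNx => (hC x hx N hN hNx).trans ?_⟩
  have hN1 : (1 : ℝ) ≤ N := by exact_mod_cast hN
  have h4 : (N : ℝ) ^ p ≤ (N : ℝ) ^ p' := Real.rpow_le_rpow_of_exponent_le hN1 hp
  have h5 : 0 ≤ x ^ (a + ε) := Real.rpow_nonneg (by linarith) _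
  have h6 : 0 ≤ (N : ℝ) ^ p := Real.rpow_nonneg (by linarith) _
  calc C * (N : ℝ) ^ p * x ^ (a + ε) ≤ |C| * (N : ℝ) ^ p * x ^ (a + ε) := by
        gcongr
        exact le_abs_self C
    _ ≤ |C| * (N : ℝ) ^ p' * x ^ (a + ε) := by gcongr

theorem gauss_of_stat (hONE : G_ONE) (hUNIQ : V_UNIQ) (hITER : G_ITER)
    {g β p a θ : ℝ} {f : ℝ → ℝ} (ha : 0 ≤ a) (hg : 1 < g) (hβ : 0 < β) (hβ1 : β ≤ 1)
    (hp0 : 0 ≤ p) (hp1 : p ≤ 1) (hθ : 0 < θ) (hf : Measurable f)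
    (hp : Function.Periodic f 1) (hb : ∃ B, ∀ y, |f y| ≤ B)
    (hn : ¬ (∃ c : ℝ, ∀ᵐ y, f y = c)) (hU : StatUpperG g β p a f) :
    ∃ κ : ℝ, 0 < κ ∧ GG p a θ κ β := by
  obtain ⟨B, hB⟩ := hb
  obtain ⟨h1, κ, hκ, h2⟩ := hONE g β p a f B hg hβ hβ1 ha hp0 hf hp hB hU
  have h0 : ¬ (∀ᵐ x, f x - ∫ u in (0 : ℝ)..1, f u = 0) := by
    intro h
    apply hn
    refine ⟨∫ u in (0 : ℝ)..1, f u, ?_⟩
    filter_upwards [h] with y hy
    linarith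
  obtain ⟨m, hm1, hc, hj⟩ := hUNIQ _ _ h1 h0
  exact hITER m hm1 _ _ κ β p a h1 hκ hβ hβ1 hp0 hp1 ha hc hj h2 θ hθ

/-- one statistic, one-sided, `N ≤ x ^ β`, one `β > 1/2` -/
theorem one_lindG (hONE : G_ONE) (hUNIQ : V_UNIQ) (hITER : G_ITER) (hSUML : G_SUML)
    (hLH : G_LH) {g β a : ℝ} {f : ℝ → ℝ} (ha : 0 ≤ a) (hg : 1 < g) (hβ : 1 / 2 < β)
    (hf : Measurable f)
    (hp : Function.Periodic f 1) (hb : ∃ B, ∀ y, |f y| ≤ B)
    (hn : ¬ (∃ c : ℝ, ∀ᵐ y, f y = c)) (hU : StatUpperG g β (1 / 2) a f) : Lind a := by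
  have h1 : 1 / 2 < min β 1 := lt_min hβ (by norm_num)
  have h2 : 0 < min β 1 := by linarith
  obtain ⟨κ, hκ, h3⟩ := gauss_of_stat hONE hUNIQ hITER ha hg h2 (min_le_right _ _)
    (by norm_num) (by norm_num) (by norm_num : (0 : ℝ) < 1 / 2) hf hp hb hn
    (hU.mono (min_le_left β 1))
  exact hLH (min β 1) a h1 ha (hSUML κ (min β 1) a hκ h2 (min_le_right _ _) ha h3)

/-- the square root is optimal, in each range `N ≤ x ^ β` -/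
theorem optimalG (hONE : G_ONE) (hUNIQ : V_UNIQ) (hITER : G_ITER) (hMS : G_MS) {g β θ : ℝ}
    {f : ℝ → ℝ} (hg : 1 < g) (hβ : 0 < β) (hf : Measurable f)
    (hp : Function.Periodic f 1) (hb : ∃ B, ∀ y, |f y| ≤ B)
    (hn : ¬ (∃ c : ℝ, ∀ᵐ y, f y = c)) (hθ : θ < 1 / 2) : ¬ StatUpperG g β θ 0 f := by
  intro hU
  have h2 : 0 < min β 1 := lt_min hβ one_pos
  have h7 : max θ 0 < 1 / 2 := max_lt hθ (by norm_num)
  obtain ⟨κ, hκ, h3⟩ := gauss_of_stat hONE hUNIQ hITER le_rfl hg h2 (min_le_right _ _)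
    (le_max_right θ 0) (by linarith) (by norm_num : (0 : ℝ) < 1 / 4) hf hp hb hn
    ((hU.mono (min_le_left β 1)).mono_p (le_max_left θ 0))
  exact hMS (max θ 0) (1 / 4) κ (min β 1) h7 (by norm_num) hκ h2 h3

end Pool.Agent.Ben
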