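import Pool.Agent.Ben.Targets8
import Pool.Agent.Ben.Asm5

/-!
# Assembly: means of order `q`
-/

set_option autoImplicit false

namespace Pool.Agent.Ben

open Complex MeasureTheory Set

theorem SM.mono {g β β' p q a : ℝ} {f : ℝ → ℝ} (h : SM g β p q a f)
    (hβ : β' ≤ β) : SM g β' p q a f := by
  intro ε hε
  obtain ⟨C, hC⟩ := h ε hε
  exact ⟨C, fun X hX N hN hNX =>
    hC X hX N hN (hNX.trans (Real.rpow_le_rpow_of_exponent_le hX hβ))⟩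

theorem SM.mono_p {g β p p' q a : ℝ} {f : ℝ → ℝ} (h : SM g β p q a f) (hq : 1 ≤ q)
    (hp : p ≤ p') : SM g β p' q a f := by
  intro ε hε
  obtain ⟨C, hC⟩ := h ε hε
  refine ⟨|C|, fun X hX N hN hNX => (hC X hX N hN hNX).trans ?_⟩
  have hN1 : (1 : ℝ) ≤ N := by exact_mod_cast hN
  have h4 : (N : ℝ) ^ (p * q) ≤ (N : ℝ) ^ (p' * q) :=
    Real.rpow_le_rpow_of_exponent_le hN1 (by nlinarith)
  have h5 : 0 ≤ X ^ (1 + q * (a + ε)) := Real.rpow_nonneg (by linarith) _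
  have h6 : 0 ≤ (N : ℝ) ^ (p * q) := Real.rpow_nonneg (by linarith) _
  calc C * (N : ℝ) ^ (p * q) * X ^ (1 + q * (a + ε))
      ≤ |C| * (N : ℝ) ^ (p * q) * X ^ (1 + q * (a + ε)) := by
        gcongr
        exact le_abs_self C
    _ ≤ |C| * (N : ℝ) ^ (p' * q) * X ^ (1 + q * (a + ε)) := by gcongr

theorem gm_of_stat (hONE : M_ONE) (hUNIQ : V_UNIQ) (hITER : M_ITER)
    {g β p q a η : ℝ} {f : ℝ → ℝ} (ha : 0 ≤ a) (hq : 1 ≤ q) (hg : 1 < g) (hβ : 0 < β)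
    (hβ1 : β ≤ 1)
    (hp0 : 0 ≤ p) (hp1 : p ≤ 1) (hη : 0 < η) (hf : Measurable f)
    (hp : Function.Periodic f 1) (hb : ∃ B, ∀ y, |f y| ≤ B)
    (hn : ¬ (∃ c : ℝ, ∀ᵐ y, f y = c)) (hU : SM g β p q a f) :
    ∃ κ : ℝ, 0 < κ ∧ GM q p a η κ β := by
  obtain ⟨B, hB⟩ := hb
  obtain ⟨h1, κ, hκ, h2⟩ := hONE g β p q a f B hg hβ hβ1 ha hp0 hq hf hp hB hU
  have h0 : ¬ (∀ᵐ x, f x - ∫ u in (0 : ℝ)..1, f u = 0) := by
    intro h
    apply hn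
    refine ⟨∫ u in (0 : ℝ)..1, f u, ?_⟩
    filter_upwards [h] with y hy
    linarith
  obtain ⟨m, hm1, hc, hj⟩ := hUNIQ _ _ h1 h0
  exact hITER m hm1 _ _ κ β p q a h1 hκ hβ hβ1 hp0 hp1 hq ha hc hj h2 η hη

/-- one statistic, one-sided, in the mean of order `q`, `N ≤ X ^ β`, one `β > 1/2` -/
theorem zm_of_stat (hONE : M_ONE) (hUNIQ : V_UNIQ) (hITER : M_ITER) (hZ : M_Z)
    {g β q a : ℝ} {f : ℝ → ℝ} (hq : 1 ≤ q) (ha : 0 ≤ a) (hg : 1 < g) (hβ : 1 / 2 < β)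
    (hf : Measurable f)
    (hp : Function.Periodic f 1) (hb : ∃ B, ∀ y, |f y| ≤ B)
    (hn : ¬ (∃ c : ℝ, ∀ᵐ y, f y = c)) (hU : SM g β (1 / 2) q a f) : ZM q a := by
  have h1 : 1 / 2 < min β 1 := lt_min hβ (by norm_num)
  have h2 : 0 < min β 1 := by linarith
  obtain ⟨κ, hκ, h3⟩ := gm_of_stat hONE hUNIQ hITER ha hq hg h2 (min_le_right _ _)
    (by norm_num) (by norm_num) (by norm_num : (0 : ℝ) < 1 / 2) hf hp hb hn
    (hU.mono (min_le_left β 1))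
  exact hZ q a κ (min β 1) hq ha hκ h1 (min_le_right _ _) h3

/-- the square root is optimal in mean square, in each range `N ≤ X ^ β` -/
theorem optimalM (hONE : M_ONE) (hUNIQ : V_UNIQ) (hITER : M_ITER) (hMS : M_MS) {g β θ : ℝ}
    {f : ℝ → ℝ} (hg : 1 < g) (hβ : 0 < β) (hf : Measurable f)
    (hp : Function.Periodic f 1) (hb : ∃ B, ∀ y, |f y| ≤ B)
    (hn : ¬ (∃ c : ℝ, ∀ᵐ y, f y = c)) (hθ : θ < 1 / 2) : ¬ SM g β θ 2 0 f := by
  intro hU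
  have h2 : 0 < min β 1 := lt_min hβ one_pos
  have h7 : max θ 0 < 1 / 2 := max_lt hθ (by norm_num)
  obtain ⟨κ, hκ, h3⟩ := gm_of_stat hONE hUNIQ hITER le_rfl (by norm_num) hg h2
    (min_le_right _ _)
    (le_max_right θ 0) (by linarith) (by norm_num : (0 : ℝ) < 1 / 4) hf hp hb hn
    ((hU.mono (min_le_left β 1)).mono_p (by norm_num) (le_max_left θ 0))
  exact hMS (max θ 0) (1 / 4) κ (min β 1) h7 (by norm_num) hκ h2 h3

/-- a pointwise bound gives the bound in the mean -/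
theorem mean_of_ptw {β q a ε C : ℝ} {P : ℝ} (hq : 1 ≤ q) (ha : 0 ≤ a) (hε : 0 < ε)
    (hP : 0 ≤ P) (hC : 0 ≤ C) (hβ : 0 ≤ β) {D : ℝ → ℝ} {X : ℝ} (hX : 1 ≤ X)
    (h : ∀ x : ℝ, X ≤ x → D x ≤ C * P * x ^ (a + ε)) :
    ∫ x in X..(2 * X), (max (D x) 0) ^ q ≤
      (C * 2 ^ (a + ε)) ^ q * P ^ q * X ^ (1 + q * (a + ε)) := by
  have hX0 : 0 < X := by linarith
  have hb : ∀ x ∈ Set.uIoc X (2 * X), ‖(max (D x) 0) ^ q‖ ≤ (C * P * (2 * X) ^ (a + ε)) ^ q := by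
    intro x hx
    rw [uIoc_of_le (by linarith)] at hx
    have h1 : 0 ≤ max (D x) 0 := le_max_right _ _
    rw [Real.norm_of_nonneg (Real.rpow_nonneg h1 _)]
    refine Real.rpow_le_rpow h1 (max_le ?_ (by positivity)) (by linarith)
    refine (h x hx.1.le).trans ?_
    have h2 : x ^ (a + ε) ≤ (2 * X) ^ (a + ε) :=
      Real.rpow_le_rpow (by linarith [hx.1]) hx.2 (by linarith)
    gcongr
  have h1 := intervalIntegral.norm_integral_le_of_norm_le_const hb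
  refine (Real.le_norm_self _).trans (h1.trans (le_of_eq ?_))
  have e1 : |2 * X - X| = X := by
    rw [abs_of_nonneg (by linarith)]
    ring
  have e2 : (C * P * (2 * X) ^ (a + ε)) = (C * 2 ^ (a + ε)) * P * X ^ (a + ε) := by
    rw [Real.mul_rpow (by norm_num) hX0.le]
    ring
  have e3 : X ^ (1 + q * (a + ε)) = X * (X ^ (a + ε)) ^ q := by
    rw [← Real.rpow_mul hX0.le, mul_comm (a + ε) q, Real.rpow_add hX0, Real.rpow_one]
  rw [e1, e2, e3, Real.mul_rpow (by positivity) (by positivity),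
    Real.mul_rpow (by positivity) hP]
  ring

/-- the digit law gives the one-sided bound in the mean -/
theorem digitMU_of_law {j d : ℕ} (h : DigitLaw j d) {q : ℝ} (hq : 1 ≤ q) :
    DigitMU j d 1 q 0 := by
  intro ε hε
  obtain ⟨C, hC⟩ := h ε hε
  refine ⟨(|C| * 2 ^ (0 + ε)) ^ q, fun X hX N hN hNX => ?_⟩
  refine mean_of_ptw (β := 1) hq le_rfl hε (Real.sqrt_nonneg _) (abs_nonneg C) (by norm_num) hX ?_
  intro x hx
  rw [Real.rpow_one] at hNX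
  have h1 := (le_abs_self _).trans (hC x N hN (hNX.trans hx))
  have hx0 : 0 ≤ x := by linarith
  rw [zero_add]
  refine h1.trans ?_
  gcongr
  exact le_abs_self C

/-- two-sided for all smooth statistics gives one-sided for the cosine -/
theorem sm_of_cm {q a : ℝ} (hq : 1 ≤ q) (h : ∀ g : ℝ, 1 < g → CM g q a) :
    ∃ (g β : ℝ) (f : ℝ → ℝ), 1 < g ∧ 1 / 2 < β ∧ Measurable f ∧ Function.Periodic f 1 ∧
      (∃ B, ∀ y, |f y| ≤ B) ∧ ¬ (∃ c : ℝ, ∀ᵐ y, f y = c) ∧ SM g β (1 / 2) q a f := by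
  obtain ⟨f, hf1, hf2, hf3, hf4, hf5, M, hM⟩ := cos_C1
  refine ⟨10, 1, f, by norm_num, by norm_num, hf1, hf2, hf3, hf4, ?_⟩
  intro ε hε
  obtain ⟨C, hC⟩ := h 10 (by norm_num) ε hε
  refine ⟨C * M ^ q, fun X hX N hN hNX => ?_⟩
  rw [Real.rpow_one] at hNX
  have hM0 : 0 ≤ M := (abs_nonneg _).trans (hM 0)
  have hcont : ContinuousOn (fun x : ℝ => ∑ n ∈ Finset.Icc 1 N, f (Real.logb 10 ((n : ℝ) ^ x)) -
      N * ∫ u in (0 : ℝ)..1, f u) univ := by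
    refine ContinuousOn.sub ?_ continuousOn_const
    refine continuousOn_finsetSum _ fun n hn => ?_
    have hn0 : (0 : ℝ) < n := by
      have := (Finset.mem_Icc.1 hn).1
      exact_mod_cast this
    have e1 : (fun x : ℝ => f (Real.logb 10 ((n : ℝ) ^ x))) =
        fun x : ℝ => f (x * Real.logb 10 n) := by
      funext x
      rw [Real.logb_rpow_eq_mul_logb_of_pos hn0]
    rw [e1]
    exact (hf5.continuous.comp (by fun_prop)).continuousOn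
  have hc : Continuous (fun x : ℝ => ∑ n ∈ Finset.Icc 1 N, f (Real.logb 10 ((n : ℝ) ^ x)) -
      N * ∫ u in (0 : ℝ)..1, f u) := by
    rwa [← continuousOn_univ]
  have h1 := hC f M hf5 hf2 hM X hX N hN hNX
  have h2 : ∫ x in X..(2 * X), (max (∑ n ∈ Finset.Icc 1 N, f (Real.logb 10 ((n : ℝ) ^ x)) -
      N * ∫ u in (0 : ℝ)..1, f u) 0) ^ q ≤
      ∫ x in X..(2 * X), |∑ n ∈ Finset.Icc 1 N, f (Real.logb 10 ((n : ℝ) ^ x)) -
        N * ∫ u in (0 : ℝ)..1, f u| ^ q := by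
    refine intervalIntegral.integral_mono_on (by linarith) ?_ ?_ ?_
    · exact (((hc.max continuous_const).rpow_const
        (fun _ => Or.inr (by linarith)))).intervalIntegrable _ _
    · exact ((hc.abs.rpow_const (fun _ => Or.inr (by linarith)))).intervalIntegrable _ _
    · intro x _
      exact Real.rpow_le_rpow (le_max_right _ _) (max_le (le_abs_self _) (abs_nonneg _))
        (by linarith)
  refine h2.trans (h1.trans (le_of_eq ?_))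
  rw [Real.mul_rpow hM0 (Real.sqrt_nonneg _), Real.sqrt_eq_rpow, ← Real.rpow_mul (by positivity)]
  ring

theorem assembleM (hONE : M_ONE) (hUNIQ : V_UNIQ) (hITER : M_ITER) (hZ : M_Z) (hMS : M_MS)
    (hDIGB : M_DIGB) (hEXPS : M_EXPS) (hSMO : M_SMO) (hTRIV : M_TRIV) (hLHK : M_LHK)
    (hlaw : Lind 0 → ∀ j d : ℕ, DigitLaw j d) :
    (∀ q a : ℝ, 1 ≤ q → 0 ≤ a → List.TFAE [ZM q a,
      ∀ g : ℝ, 1 < g → CM g q a,
      ∃ (g β : ℝ) (f : ℝ → ℝ), 1 < g ∧ 1 / 2 < β ∧ Measurable f ∧ Function.Periodic f 1 ∧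
        (∃ B, ∀ y, |f y| ≤ B) ∧ ¬ (∃ c : ℝ, ∀ᵐ y, f y = c) ∧ SM g β (1 / 2) q a f]) ∧
    (∀ q a : ℝ, 1 ≤ q → 0 ≤ a → (∃ (j d : ℕ) (β : ℝ), d ≤ 9 ∧ (j = 0 → 1 ≤ d) ∧ 1 / 2 < β ∧
      (DigitMU j d β q a ∨ DigitML j d β q a)) → ZM q a) ∧
    (Lind 0 ↔ ∀ q : ℝ, 1 ≤ q → ∃ (j d : ℕ) (β : ℝ), d ≤ 9 ∧ (j = 0 → 1 ≤ d) ∧ 1 / 2 < β ∧
      (DigitMU j d β q 0 ∨ DigitML j d β q 0)) ∧
    ∀ (g β θ : ℝ) (f : ℝ → ℝ), 1 < g → 0 < β → Measurable f → Function.Periodic f 1 →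
      (∃ B, ∀ y, |f y| ≤ B) → ¬ (∃ c : ℝ, ∀ᵐ y, f y = c) → θ < 1 / 2 → ¬ SM g β θ 2 0 f := by
  have hdig : ∀ q a : ℝ, 1 ≤ q → 0 ≤ a → (∃ (j d : ℕ) (β : ℝ), d ≤ 9 ∧ (j = 0 → 1 ≤ d) ∧
      1 / 2 < β ∧ (DigitMU j d β q a ∨ DigitML j d β q a)) → ZM q a := by
    rintro q a hq ha ⟨j, d, β, hd, hj, hβ, h⟩
    obtain ⟨f, hf1, hf2, hf3, hf4, hf5⟩ := hDIGB j d β q a hd hj h
    exact zm_of_stat hONE hUNIQ hITER hZ hq ha (by norm_num) hβ hf1 hf2 ⟨1, hf3⟩ hf4 hf5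
  refine ⟨?_, hdig, ?_, ?_⟩
  · intro q a hq ha
    tfae_have 1 → 2 := by
      intro h
      rcases lt_or_ge a (1 / 2) with h1 | h1
      · exact hSMO q a hq ha h1 (hEXPS q a hq ha (by linarith) h)
      · exact hTRIV q a hq h1
    tfae_have 2 → 3 := sm_of_cm hq
    tfae_have 3 → 1 := by
      rintro ⟨g, β, f, hg, hβ, hf1, hf2, hf3, hf4, hf5⟩
      exact zm_of_stat hONE hUNIQ hITER hZ hq ha hg hβ hf1 hf2 hf3 hf4 hf5
    tfae_finish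
  · constructor
    · intro h q hq
      exact ⟨0, 1, 1, by norm_num, by norm_num, by norm_num,
        Or.inl (digitMU_of_law (hlaw h 0 1) hq)⟩
    · intro h
      exact hLHK 0 le_rfl fun q hq => hdig q 0 hq le_rfl (h q hq)
  · intro g β θ f hg hβ hf1 hf2 hf3 hf4 hθ
    exact optimalM hONE hUNIQ hITER hMS hg hβ hf1 hf2 hf3 hf4 hθ

end Pool.Agent.Ben
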