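import Pool.Agent.Ben.Targets3

set_option autoImplicit false

namespace Pool.Agent.Ben

open Complex MeasureTheory Set

/-- the set of the logarithms of the numbers with digit `d` -/
def VDIGB_S (j d : ℕ) : Set ℝ := {y | ⌊(10 : ℝ) ^ Int.fract y * 10 ^ j⌋₊ % 10 = d}

/-- its indicator function -/
noncomputable def VDIGB_f (j d : ℕ) : ℝ → ℝ := (VDIGB_S j d).indicator fun _ => 1

theorem VDIGB_measS (j d : ℕ) : MeasurableSet (VDIGB_S j d) := by
  have h1 : Measurable fun y : ℝ => (10 : ℝ) ^ Int.fract y * 10 ^ j :=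
    (measurable_const.pow measurable_fract).mul_const _
  have h2 : Measurable fun y : ℝ => ⌊(10 : ℝ) ^ Int.fract y * 10 ^ j⌋₊ :=
    Nat.measurable_floor.comp h1
  have h3 : Measurable fun n : ℕ => n % 10 := measurable_from_top
  exact (h3.comp h2) (measurableSet_singleton d)

theorem VDIGB_meas (j d : ℕ) : Measurable (VDIGB_f j d) :=
  measurable_const.indicator (VDIGB_measS j d)

theorem VDIGB_per (j d : ℕ) : Function.Periodic (VDIGB_f j d) 1 := by
  intro y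
  unfold VDIGB_f VDIGB_S
  simp only [indicator, Set.mem_ofPred_eq, Int.fract_add_one]

theorem VDIGB_bdd (j d : ℕ) (y : ℝ) : |VDIGB_f j d y| ≤ 1 := by
  unfold VDIGB_f indicator
  split_ifs <;> simp

theorem VDIGB_bounds {j m : ℕ} (hm : 10 ^ j ≤ m) (hm' : m < 10 ^ (j + 1)) :
    0 ≤ Real.logb 10 ((m : ℝ) / 10 ^ j) ∧ Real.logb 10 (((m : ℝ) + 1) / 10 ^ j) ≤ 1 ∧
      Real.logb 10 ((m : ℝ) / 10 ^ j) < Real.logb 10 (((m : ℝ) + 1) / 10 ^ j) := by
  have hp : (0 : ℝ) < 10 ^ j := by positivity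
  have h1 : (10 : ℝ) ^ j ≤ m := by exact_mod_cast hm
  have h2 : (m : ℝ) + 1 ≤ 10 ^ (j + 1) := by exact_mod_cast hm'
  have hm0 : (0 : ℝ) < m := lt_of_lt_of_le hp h1
  refine ⟨Real.logb_nonneg (by norm_num) ((one_le_div hp).mpr h1), ?_, ?_⟩
  · rw [Real.logb_le_iff_le_rpow (by norm_num) (by positivity), Real.rpow_one, div_le_iff₀ hp]
    rw [pow_succ] at h2
    linarith
  · apply Real.logb_lt_logb (by norm_num) (by positivity)
    exact div_lt_div_of_pos_right (by linarith) hp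

theorem VDIGB_floor {j m : ℕ} (hm : 10 ^ j ≤ m) (hm' : m < 10 ^ (j + 1)) {y : ℝ}
    (h1 : Real.logb 10 ((m : ℝ) / 10 ^ j) ≤ y) (h2 : y < Real.logb 10 (((m : ℝ) + 1) / 10 ^ j)) :
    ⌊(10 : ℝ) ^ Int.fract y * 10 ^ j⌋₊ = m := by
  obtain ⟨h3, h4, -⟩ := VDIGB_bounds hm hm'
  have hp : (0 : ℝ) < 10 ^ j := by positivity
  have hm0 : (0 : ℝ) < m := by
    have : (10 : ℝ) ^ j ≤ m := by exact_mod_cast hm
    linarith
  have hf : Int.fract y = y := Int.fract_eq_self.mpr ⟨by linarith, by linarith⟩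
  rw [hf, Nat.floor_eq_iff (by positivity)]
  rw [Real.logb_le_iff_le_rpow (by norm_num) (by positivity), div_le_iff₀ hp] at h1
  rw [Real.lt_logb_iff_rpow_lt (by norm_num) (by positivity), lt_div_iff₀ hp] at h2
  exact ⟨h1, h2⟩

theorem VDIGB_val {j d m : ℕ} (hm : 10 ^ j ≤ m) (hm' : m < 10 ^ (j + 1)) {y : ℝ}
    (h1 : Real.logb 10 ((m : ℝ) / 10 ^ j) ≤ y) (h2 : y < Real.logb 10 (((m : ℝ) + 1) / 10 ^ j)) :
    VDIGB_f j d y = if m % 10 = d then 1 else 0 := by
  have hmem : y ∈ VDIGB_S j d ↔ m % 10 = d := by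
    show ⌊(10 : ℝ) ^ Int.fract y * 10 ^ j⌋₊ % 10 = d ↔ _
    rw [VDIGB_floor hm hm' h1 h2]
  unfold VDIGB_f
  by_cases h : m % 10 = d
  · rw [if_pos h, indicator_of_mem (hmem.mpr h)]
  · rw [if_neg h, indicator_of_notMem (fun h' => h (hmem.mp h'))]

theorem VDIGB_integral (j d : ℕ) : ∫ u in (0 : ℝ)..1, VDIGB_f j d u = benf j d := by
  let a : ℕ → ℝ := fun k => Real.logb 10 (((10 ^ j + k : ℕ) : ℝ) / 10 ^ j)
  have hp : (0 : ℝ) < 10 ^ j := by positivity
  have hint : ∀ x y : ℝ, IntervalIntegrable (VDIGB_f j d) volume x y := by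
    intro x y
    refine (intervalIntegrable_const (c := (1 : ℝ))).mono_fun
      (VDIGB_meas j d).aestronglyMeasurable (Filter.Eventually.of_forall fun u => ?_)
    simp only [Real.norm_eq_abs, abs_one]
    exact VDIGB_bdd j d u
  have h0 : a 0 = 0 := by
    show Real.logb 10 (((10 ^ j + 0 : ℕ) : ℝ) / 10 ^ j) = 0
    rw [add_zero]
    push_cast
    rw [div_self hp.ne', Real.logb_one]
  have hn : a (9 * 10 ^ j) = 1 := by
    show Real.logb 10 (((10 ^ j + 9 * 10 ^ j : ℕ) : ℝ) / 10 ^ j) = 1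
    push_cast
    rw [show (10 : ℝ) ^ j + 9 * 10 ^ j = 10 * 10 ^ j by ring, mul_div_assoc, div_self hp.ne',
      mul_one]
    exact Real.logb_self_eq_one (by norm_num)
  have hsum := intervalIntegral.sum_integral_adjacent_intervals (f := VDIGB_f j d)
    (μ := volume) (a := a) (n := 9 * 10 ^ j) (fun k _ => hint _ _)
  rw [h0, hn] at hsum
  rw [← hsum]
  unfold benf
  rw [Finset.sum_filter, Finset.sum_Ico_eq_sum_range]
  have e : 10 ^ (j + 1) - 10 ^ j = 9 * 10 ^ j := by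
    rw [pow_succ]
    omega
  rw [e]
  refine Finset.sum_congr rfl fun k hk => ?_
  rw [Finset.mem_range] at hk
  have hm : 10 ^ j ≤ 10 ^ j + k := Nat.le_add_right _ _
  have hm' : 10 ^ j + k < 10 ^ (j + 1) := by
    rw [pow_succ]
    omega
  obtain ⟨-, -, hlt⟩ := VDIGB_bounds hm hm'
  have ha1 : a (k + 1) = Real.logb 10 ((((10 ^ j + k : ℕ) : ℝ) + 1) / 10 ^ j) := by
    show Real.logb 10 (((10 ^ j + (k + 1) : ℕ) : ℝ) / 10 ^ j) = _
    push_cast
    rw [add_assoc]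
  have hm0 : (0 : ℝ) < ((10 ^ j + k : ℕ) : ℝ) := by
    have : 0 < 10 ^ j + k := by positivity
    exact_mod_cast this
  have hval : ∫ u in a k..a (k + 1), VDIGB_f j d u =
      ∫ _ in a k..a (k + 1), (if (10 ^ j + k) % 10 = d then (1 : ℝ) else 0) := by
    rw [ha1]
    apply intervalIntegral.integral_congr_ae
    have hne : ∀ᵐ u : ℝ, u ≠ Real.logb 10 ((((10 ^ j + k : ℕ) : ℝ) + 1) / 10 ^ j) := by
      rw [ae_iff]
      simp
    filter_upwards [hne] with u hu hu'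
    rw [uIoc_of_le hlt.le, mem_Ioc] at hu'
    exact VDIGB_val hm hm' hu'.1.le (lt_of_le_of_ne hu'.2 hu)
  rw [hval, intervalIntegral.integral_const, smul_eq_mul]
  have hdiff : a (k + 1) - a k = Real.logb 10 (1 + 1 / ((10 ^ j + k : ℕ) : ℝ)) := by
    rw [ha1, ← Real.logb_div (by positivity) (by positivity)]
    congr 1
    field_simp
  rw [hdiff]
  split_ifs
  · rw [mul_one]
  · rw [mul_zero]

theorem VDIGB_count (j d : ℕ) (x : ℝ) (N : ℕ) :
    ∑ n ∈ Finset.Icc 1 N, VDIGB_f j d (Real.logb 10 ((n : ℝ) ^ x)) = dcount j d x N := by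
  classical
  have h1 : ∀ n : ℕ, VDIGB_f j d (Real.logb 10 ((n : ℝ) ^ x)) =
      if digit j ((n : ℝ) ^ x) = d then (1 : ℝ) else 0 := by
    intro n
    have hmem : Real.logb 10 ((n : ℝ) ^ x) ∈ VDIGB_S j d ↔ digit j ((n : ℝ) ^ x) = d := Iff.rfl
    unfold VDIGB_f
    by_cases h : digit j ((n : ℝ) ^ x) = d
    · rw [if_pos h, indicator_of_mem (hmem.mpr h)]
    · rw [if_neg h, indicator_of_notMem (fun h' => h (hmem.mp h'))]
  rw [Finset.sum_congr rfl fun n _ => h1 n, Finset.sum_boole]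
  unfold dcount
  have h2 : {n : ℕ | 1 ≤ n ∧ n ≤ N ∧ digit j ((n : ℝ) ^ x) = d} =
      ((Finset.Icc 1 N).filter fun n => digit j ((n : ℝ) ^ x) = d : Finset ℕ) := by
    ext n
    simp [and_assoc]
  rw [h2, Set.ncard_coe_finset]

theorem VDIGB_nonconst {j d : ℕ} (hd : d ≤ 9) (hjd : j = 0 → 1 ≤ d) (c : ℝ) :
    ¬ ∀ᵐ y, VDIGB_f j d y = c := by
  intro h
  have key : ∀ m : ℕ, 10 ^ j ≤ m → m < 10 ^ (j + 1) → (if m % 10 = d then (1 : ℝ) else 0) = c := by
    intro m hm hm'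
    obtain ⟨-, -, hlt⟩ := VDIGB_bounds hm hm'
    by_contra hne
    have hsub : Ioo (Real.logb 10 ((m : ℝ) / 10 ^ j)) (Real.logb 10 (((m : ℝ) + 1) / 10 ^ j)) ⊆
        {y | ¬ VDIGB_f j d y = c} := by
      intro y hy hyc
      rw [VDIGB_val hm hm' hy.1.le hy.2] at hyc
      exact hne hyc
    have h0 : volume {y | ¬ VDIGB_f j d y = c} = 0 := ae_iff.mp h
    have h1 := measure_mono_null hsub h0
    rw [Real.volume_Ioo, ENNReal.ofReal_eq_zero] at h1
    linarith
  have h10 : 10 ≤ 10 ^ (j + 1) := by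
    rw [pow_succ]
    have : 1 ≤ 10 ^ j := Nat.one_le_pow _ _ (by norm_num)
    omega
  have hdv : (10 : ℕ) ∣ 10 ^ (j + 1) := dvd_pow_self _ (by omega)
  have hrange : ∀ b : ℕ, b ≤ 9 → 1 ≤ b ∨ (b = d) → 10 ^ j ≤ 10 ^ (j + 1) - 10 + b := by
    intro b _ hb
    rcases Nat.eq_zero_or_pos j with hj | hj
    · subst hj
      have : 1 ≤ b := by
        rcases hb with hb | hb
        · exact hb
        · rw [hb]
          exact hjd rfl
      simp
      omega
    · have h1 : 10 ≤ 10 ^ j := by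
        calc 10 = 10 ^ 1 := by norm_num
          _ ≤ 10 ^ j := Nat.pow_le_pow_right (by norm_num) hj
      rw [pow_succ]
      omega
  have hmod : ∀ b : ℕ, b ≤ 9 → (10 ^ (j + 1) - 10 + b) % 10 = b := by
    intro b hb
    obtain ⟨q, hq⟩ := hdv
    rw [hq]
    rw [hq] at h10
    omega
  have e1 := key (10 ^ (j + 1) - 10 + d) (hrange d hd (Or.inr rfl)) (by omega)
  rw [hmod d hd, if_pos rfl] at e1
  by_cases h9 : d = 9
  · have e2 := key (10 ^ (j + 1) - 10 + 8) (hrange 8 (by norm_num) (Or.inl (by norm_num)))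
      (by omega)
    rw [hmod 8 (by norm_num), if_neg (by omega)] at e2
    rw [← e2] at e1
    norm_num at e1
  · have e2 := key (10 ^ (j + 1) - 10 + 9) (hrange 9 (by norm_num) (Or.inl (by norm_num)))
      (by omega)
    rw [hmod 9 (by norm_num), if_neg (by omega)] at e2
    rw [← e2] at e1
    norm_num at e1

theorem p_VDIGB : V_DIGB := by
  intro j d hd hjd h
  rcases h with h | h
  · refine ⟨VDIGB_f j d, VDIGB_meas j d, VDIGB_per j d, VDIGB_bdd j d, ?_, ?_⟩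
    · rintro ⟨c, hc⟩
      exact VDIGB_nonconst hd hjd c hc
    · intro ε hε
      obtain ⟨C, hC⟩ := h ε hε
      refine ⟨C, fun x N hN hx => ?_⟩
      rw [VDIGB_count, VDIGB_integral]
      exact hC x N hN hx
  · refine ⟨fun y => - VDIGB_f j d y, (VDIGB_meas j d).neg, ?_, ?_, ?_, ?_⟩
    · intro y
      show - VDIGB_f j d (y + 1) = - VDIGB_f j d y
      rw [VDIGB_per j d y]
    · intro y
      rw [abs_neg]
      exact VDIGB_bdd j d y
    · rintro ⟨c, hc⟩
      refine VDIGB_nonconst hd hjd (-c) ?_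
      filter_upwards [hc] with y hy
      rw [← hy, neg_neg]
    · intro ε hε
      obtain ⟨C, hC⟩ := h ε hε
      refine ⟨C, fun x N hN hx => ?_⟩
      rw [Finset.sum_neg_distrib, VDIGB_count, intervalIntegral.integral_neg, VDIGB_integral]
      have := hC x N hN hx
      linarith

end Pool.Agent.Ben
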