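import Pool.Agent.Ben.Targets9
import Pool.Agent.Ben.Asm6
import Pool.Agent.Ben.P_VDIGB

/-!
# Assembly: means of order `q`, second part
-/

set_option autoImplicit false

namespace Pool.Agent.Ben

open Complex MeasureTheory Set

theorem dcount_meas (j d N : ℕ) : Measurable (fun x : ℝ => (dcount j d x N : ℝ)) := by
  have e : (fun x : ℝ => (dcount j d x N : ℝ)) =
      fun x : ℝ => ∑ n ∈ Finset.Icc 1 N, VDIGB_f j d (Real.logb 10 ((n : ℝ) ^ x)) := by
    funext x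
    exact (VDIGB_count j d x N).symm
  rw [e]
  refine Finset.measurable_fun_sum _ fun n hn => ?_
  have hn0 : (0 : ℝ) < n := by
    have := (Finset.mem_Icc.1 hn).1
    exact_mod_cast this
  have e1 : (fun x : ℝ => VDIGB_f j d (Real.logb 10 ((n : ℝ) ^ x))) =
      fun x : ℝ => VDIGB_f j d (x * Real.logb 10 n) := by
    funext x
    rw [Real.logb_rpow_eq_mul_logb_of_pos hn0]
  rw [e1]
  exact (VDIGB_meas j d).comp (by fun_prop)

theorem dcount_bdd (j d N : ℕ) (x : ℝ) : |(dcount j d x N : ℝ)| ≤ N := by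
  rw [← VDIGB_count j d x N]
  refine (Finset.abs_sum_le_sum_abs _ _).trans ?_
  refine (Finset.sum_le_sum fun n _ => VDIGB_bdd j d _).trans (le_of_eq ?_)
  simp

/-- two-sided for a digit gives the upper inequality -/
theorem digitMU_of_MT {j d : ℕ} {q : ℝ} (hq : 1 ≤ q) (h : DigitMT j d q) :
    DigitMU j d 1 q 0 := by
  intro ε hε
  obtain ⟨C, hC⟩ := h ε hε
  refine ⟨C, fun X hX N hN hNX => ?_⟩
  rw [Real.rpow_one] at hNX
  rw [zero_add]
  refine le_trans ?_ (hC X hX N hN hNX)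
  have hD : Measurable (fun x : ℝ => (dcount j d x N : ℝ) - N * benf j d) :=
    (dcount_meas j d N).sub_const _
  have hB : ∀ x : ℝ, |(dcount j d x N : ℝ) - N * benf j d| ≤ N + |N * benf j d| := fun x =>
    (abs_sub _ _).trans (by linarith [dcount_bdd j d N x])
  have hint : ∀ F : ℝ → ℝ, Measurable F → (∀ x, |F x| ≤ N + |N * benf j d|) →
      (∀ x, 0 ≤ F x) → IntervalIntegrable (fun x => F x ^ q) volume X (2 * X) := by
    intro F hF hFb hF0
    refine (intervalIntegrable_const (c := (N + |N * benf j d|) ^ q)).mono_fun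
      (hF.pow_const q).aestronglyMeasurable (Filter.Eventually.of_forall fun x => ?_)
    have h1 : F x ≤ N + |N * benf j d| := (le_abs_self _).trans (hFb x)
    show ‖F x ^ q‖ ≤ ‖((N : ℝ) + |(N : ℝ) * benf j d|) ^ q‖
    rw [Real.norm_of_nonneg (Real.rpow_nonneg (hF0 x) _),
      Real.norm_of_nonneg (Real.rpow_nonneg ((hF0 x).trans h1) _)]
    exact Real.rpow_le_rpow (hF0 x) h1 (by linarith)
  refine intervalIntegral.integral_mono_on (by linarith) ?_ ?_ ?_
  · refine hint _ (hD.max measurable_const) ?_ fun x => le_max_right _ _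
    intro x
    rw [abs_of_nonneg (le_max_right _ _)]
    exact max_le ((le_abs_self _).trans (hB x)) (by positivity)
  · refine hint _ hD.abs ?_ fun x => abs_nonneg _
    intro x
    rw [abs_abs]
    exact hB x
  · intro x _
    exact Real.rpow_le_rpow (le_max_right _ _) (max_le (le_abs_self _) (abs_nonneg _))
      (by linarith)

/-- two-sided for all statistics of bounded variation gives the smooth ones -/
theorem sm_of_bm {q : ℝ} (hq : 1 ≤ q) (h : ∀ g : ℝ, 1 < g → BM g q) :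
    ∃ (g β : ℝ) (f : ℝ → ℝ), 1 < g ∧ 1 / 2 < β ∧ Measurable f ∧ Function.Periodic f 1 ∧
      (∃ B, ∀ y, |f y| ≤ B) ∧ ¬ (∃ c : ℝ, ∀ᵐ y, f y = c) ∧ SM g β (1 / 2) q 0 f := by
  obtain ⟨f, hf1, hf2, hf3, hf4, hf5, M, hM⟩ := cos_C1
  have hbv : BoundedVariationOn f (Icc 0 1) := by
    have hl : LipschitzWith (Real.toNNReal M) f := by
      refine lipschitzWith_of_nnnorm_deriv_le (hf5.differentiable (by norm_num)) fun x => ?_
      rw [← NNReal.coe_le_coe, coe_nnnorm, Real.norm_eq_abs,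
        Real.coe_toNNReal _ ((abs_nonneg _).trans (hM 0))]
      exact hM x
    have := hl.locallyBoundedVariationOn (Icc (0 : ℝ) 1)
    have h2 := this 0 1 (by simp) (by simp)
    simpa using h2
  refine ⟨10, 1, f, by norm_num, by norm_num, hf1, hf2, hf3, hf4, ?_⟩
  intro ε hε
  obtain ⟨C, hC⟩ := h 10 (by norm_num) ε hε
  set V := (eVariationOn f (Icc 0 1)).toReal with hV
  have hV0 : 0 ≤ V := ENNReal.toReal_nonneg
  refine ⟨C * V ^ q, fun X hX N hN hNX => ?_⟩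
  rw [Real.rpow_one] at hNX
  have hc : Continuous (fun x : ℝ => ∑ n ∈ Finset.Icc 1 N, f (Real.logb 10 ((n : ℝ) ^ x)) -
      N * ∫ u in (0 : ℝ)..1, f u) := by
    refine Continuous.sub ?_ continuous_const
    refine continuous_finsetSum _ fun n hn => ?_
    have hn0 : (0 : ℝ) < n := by
      have := (Finset.mem_Icc.1 hn).1
      exact_mod_cast this
    have e1 : (fun x : ℝ => f (Real.logb 10 ((n : ℝ) ^ x))) =
        fun x : ℝ => f (x * Real.logb 10 n) := by
      funext x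
      rw [Real.logb_rpow_eq_mul_logb_of_pos hn0]
    rw [e1]
    exact hf5.continuous.comp (by fun_prop)
  have h1 := hC f hf2 hbv X hX N hN hNX
  have h2 : ∫ x in X..(2 * X), (max (∑ n ∈ Finset.Icc 1 N, f (Real.logb 10 ((n : ℝ) ^ x)) -
      N * ∫ u in (0 : ℝ)..1, f u) 0) ^ q ≤
      ∫ x in X..(2 * X), |∑ n ∈ Finset.Icc 1 N, f (Real.logb 10 ((n : ℝ) ^ x)) -
        N * ∫ u in (0 : ℝ)..1, f u| ^ q := by
    refine intervalIntegral.integral_mono_on (by linarith) ?_ ?_ ?_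
    · exact (((hc.max continuous_const).rpow_const
        (fun _ => Or.inr (by linarith)))).intervalIntegrable _ _
    · exact ((hc.abs.rpow_const (fun _ => Or.inr (by linarith)))).intervalIntegrable _ _
    · intro x _
      exact Real.rpow_le_rpow (le_max_right _ _) (max_le (le_abs_self _) (abs_nonneg _))
        (by linarith)
  refine h2.trans (h1.trans (le_of_eq ?_))
  rw [Real.mul_rpow hV0 (Real.sqrt_nonneg _), Real.sqrt_eq_rpow, ← Real.rpow_mul (by positivity),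
    zero_add]
  ring

/-- the square root is optimal in the mean of order one -/
theorem optimal1 (hONE : M_ONE) (hUNIQ : V_UNIQ) (hITER : M_ITER) (hMSA : M_MSA) {g β θ : ℝ}
    {f : ℝ → ℝ} (hg : 1 < g) (hβ : 0 < β) (hf : Measurable f)
    (hp : Function.Periodic f 1) (hb : ∃ B, ∀ y, |f y| ≤ B)
    (hn : ¬ (∃ c : ℝ, ∀ᵐ y, f y = c)) (hθ : θ < 1 / 2) : ¬ SM g β θ 1 0 f := by
  intro hU
  have h2 : 0 < min β 1 := lt_min hβ one_pos
  have h7 : max θ 0 < 1 / 2 := max_lt hθ (by norm_num)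
  obtain ⟨κ, hκ, h3⟩ := gm_of_stat hONE hUNIQ hITER le_rfl (by norm_num) hg h2
    (min_le_right _ _)
    (le_max_right θ 0) (by linarith) (by norm_num : (0 : ℝ) < 1 / 4) hf hp hb hn
    ((hU.mono (min_le_left β 1)).mono_p (by norm_num) (le_max_left θ 0))
  exact hMSA (max θ 0) (1 / 4) κ (min β 1) h7 (by norm_num) hκ h2 h3

theorem assembleM2 (hONE : M_ONE) (hUNIQ : V_UNIQ) (hITER : M_ITER) (hZ : M_Z)
    (hDIGB : M_DIGB) (hEXPS : M_EXPS) (hDISC : M_DISC) (hBVQ : M_BVQ) (hDGQ : M_DGQ)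
    (hZF : M_ZF) (hHOL : M_HOL) (hMSA : M_MSA) :
    (∀ q : ℝ, 1 ≤ q → List.TFAE [ZM q 0,
      ∀ g : ℝ, 1 < g → BM g q,
      ∀ j d : ℕ, DigitMT j d q,
      ∃ (j d : ℕ) (β : ℝ), d ≤ 9 ∧ (j = 0 → 1 ≤ d) ∧ 1 / 2 < β ∧
        (DigitMU j d β q 0 ∨ DigitML j d β q 0)]) ∧
    (∀ q : ℝ, 1 ≤ q → q ≤ 4 → ZM q 0) ∧
    ∀ (g β θ : ℝ) (f : ℝ → ℝ), 1 < g → 0 < β → Measurable f → Function.Periodic f 1 →
      (∃ B, ∀ y, |f y| ≤ B) → ¬ (∃ c : ℝ, ∀ᵐ y, f y = c) → θ < 1 / 2 → ¬ SM g β θ 1 0 f := by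
  refine ⟨?_, ?_, ?_⟩
  · intro q hq
    tfae_have 1 → 2 := fun h => hBVQ q hq (hDISC q hq (hEXPS q 0 hq le_rfl one_pos h))
    tfae_have 1 → 3 := fun h => hDGQ q hq (hDISC q hq (hEXPS q 0 hq le_rfl one_pos h))
    tfae_have 2 → 1 := by
      intro h
      obtain ⟨g, β, f, hg, hβ, hf1, hf2, hf3, hf4, hf5⟩ := sm_of_bm hq h
      exact zm_of_stat hONE hUNIQ hITER hZ hq le_rfl hg hβ hf1 hf2 hf3 hf4 hf5
    tfae_have 3 → 4 := by
      intro h
      exact ⟨0, 1, 1, by norm_num, by norm_num, by norm_num, Or.inl (digitMU_of_MT hq (h 0 1))⟩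
    tfae_have 4 → 1 := by
      rintro ⟨j, d, β, hd, hj, hβ, h⟩
      obtain ⟨f, hf1, hf2, hf3, hf4, hf5⟩ := hDIGB j d β q 0 hd hj h
      exact zm_of_stat hONE hUNIQ hITER hZ hq le_rfl (by norm_num) hβ hf1 hf2 ⟨1, hf3⟩ hf4 hf5
    tfae_finish
  · intro q hq1 hq4
    exact hHOL q 4 0 hq1 hq4 le_rfl hZF
  · intro g β θ f hg hβ hf1 hf2 hf3 hf4 hθ
    exact optimal1 hONE hUNIQ hITER hMSA hg hβ hf1 hf2 hf3 hf4 hθ

end Pool.Agent.Ben
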