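import Mathlib

/-!
# The Lindelöf hypothesis and the digits of powers: definitions
-/

set_option autoImplicit false

namespace Pool.Agent.Ben

open Complex

/-- the Lindelöf hypothesis -/
def LH : Prop :=
  ∀ ε : ℝ, 0 < ε → ∃ C : ℝ, ∀ t : ℝ, ‖riemannZeta (1 / 2 + t * I)‖ ≤ C * (1 + |t|) ^ ε

/-- the mantissa of `x` in base `g` lies between `a` (included) and `b` (excluded) -/
def Mant (g a b x : ℝ) : Prop := ∃ m : ℤ, a * g ^ m ≤ x ∧ x < b * g ^ m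

/-- among the first `N` powers `n ^ x` those with mantissa in `[a, b)` -/
noncomputable def count (g a b x : ℝ) (N : ℕ) : ℕ :=
  {n : ℕ | 1 ≤ n ∧ n ≤ N ∧ Mant g a b ((n : ℝ) ^ x)}.ncard

/-- Benford's law with square root error for the powers `n ^ x`, `n ≤ N ≤ x` -/
def Benford (g a b : ℝ) : Prop :=
  ∀ ε : ℝ, 0 < ε → ∃ C : ℝ, ∀ x : ℝ, ∀ N : ℕ, 1 ≤ N → (N : ℝ) ≤ x →
    |(count g a b x N : ℝ) - N * Real.logb g (b / a)| ≤ C * √(N : ℝ) * x ^ ε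

/-- the one-sided inequality -/
def BenfordUpper (g a b : ℝ) : Prop :=
  ∀ ε : ℝ, 0 < ε → ∃ C : ℝ, ∀ x : ℝ, ∀ N : ℕ, 1 ≤ N → (N : ℝ) ≤ x →
    (count g a b x N : ℝ) - N * Real.logb g (b / a) ≤ C * √(N : ℝ) * x ^ ε

/-- the number of digits of `m` in base `g` -/
def len (g m : ℕ) : ℕ := (Nat.digits g m).length

/-- the powers `1 ^ k, …, N ^ k` together have `N / 2` digits more than their product -/
def Lengths : Prop :=
  ∀ ε : ℝ, 0 < ε → ∃ C : ℝ, ∀ g k N : ℕ, 2 ≤ g → 1 ≤ k → 1 ≤ N → g ^ N ≤ 2 ^ k →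
    |∑ n ∈ Finset.Icc 1 N, (len g (n ^ k) : ℝ) - len g (N.factorial ^ k) - N / 2| ≤
      C * √(N : ℝ) * (k : ℝ) ^ ε

/-- the one-sided inequality -/
def LengthsUpper : Prop :=
  ∀ ε : ℝ, 0 < ε → ∃ C : ℝ, ∀ g k N : ℕ, 2 ≤ g → 1 ≤ k → 1 ≤ N → g ^ N ≤ 2 ^ k →
    ∑ n ∈ Finset.Icc 1 N, (len g (n ^ k) : ℝ) - len g (N.factorial ^ k) - N / 2 ≤
      C * √(N : ℝ) * (k : ℝ) ^ ε

/-- the other one-sided inequality -/
def LengthsLower : Prop :=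
  ∀ ε : ℝ, 0 < ε → ∃ C : ℝ, ∀ g k N : ℕ, 2 ≤ g → 1 ≤ k → 1 ≤ N → g ^ N ≤ 2 ^ k →
    -(C * √(N : ℝ) * (k : ℝ) ^ ε) ≤
      ∑ n ∈ Finset.Icc 1 N, (len g (n ^ k) : ℝ) - len g (N.factorial ^ k) - N / 2

/-! ### auxiliary notions of the proof -/

/-- the sawtooth function -/
noncomputable def psi (x : ℝ) : ℝ := Int.fract x - 1 / 2

/-- `exp (2 π i x)` -/
noncomputable def e (x : ℝ) : ℂ := exp ((2 * Real.pi * x : ℝ) * I)

/-- Fourier coefficients of a function of period one -/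
noncomputable def coef (G : ℝ → ℝ) (h : ℤ) : ℂ := ∫ x in (0 : ℝ)..1, (G x : ℂ) * e (-(h * x))

/-- one-sided square root bound for the sums of `G (t log n)`, `n ≤ N ≤ κ t` -/
def Upper (G : ℝ → ℝ) (κ : ℝ) : Prop :=
  ∀ ε : ℝ, 0 < ε → ∃ C : ℝ, ∀ t : ℝ, 1 ≤ t → ∀ N : ℕ, 1 ≤ N → (N : ℝ) ≤ κ * t →
    ∑ n ∈ Finset.Icc 1 N, G (t * Real.log n) ≤ C * √(N : ℝ) * t ^ ε

/-- admissible observables: bounded, of period one, mean zero, coefficients `O(1/h)` -/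
structure Adm (G : ℝ → ℝ) (B : ℝ) : Prop where
  meas : Measurable G
  per : Function.Periodic G 1
  bdd : ∀ x, |G x| ≤ B
  mean : coef G 0 = 0
  dec : ∀ h : ℤ, h ≠ 0 → ‖coef G h‖ ≤ B / |(h : ℝ)|

/-- the cutoff: `1` up to `N`, linear, `0` from `N + 1` on -/
noncomputable def rho (N : ℕ) (x : ℝ) : ℝ := max 0 (min 1 (N + 1 - x))

/-- its Mellin transform -/
noncomputable def RR (N : ℕ) (s : ℂ) : ℂ :=
  (((N + 1 : ℝ) : ℂ) ^ (s + 1) - ((N : ℝ) : ℂ) ^ (s + 1)) / (s * (s + 1))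

/-- the Gaussian window -/
noncomputable def w (u : ℝ) : ℝ := Real.exp (-(4 * Real.pi ^ 2 * u ^ 2))

end Pool.Agent.Ben
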