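import Pool.Agent.Ben.Targets

/-!
# Ben, target ADMB: Fourier coefficients of the sawtooth
-/

set_option autoImplicit false

namespace Pool.Agent.Ben

open Complex MeasureTheory

theorem ADMB_e_eq (h : ℤ) (x : ℝ) :
    e (-(h * x)) = cexp (-(2 * Real.pi * I * h) * x) := by
  unfold e
  congr 1
  push_cast
  ring

theorem ADMB_e_add (x y : ℝ) : e (x + y) = e x * e y := by
  unfold e
  rw [← Complex.exp_add]
  congr 1
  push_cast
  ring

theorem ADMB_e_int (h : ℤ) : e (h : ℝ) = 1 := by
  unfold e
  rw [Complex.exp_eq_one_iff]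
  exact ⟨h, by push_cast; ring⟩

theorem ADMB_norm_e (x : ℝ) : ‖e x‖ = 1 := by
  unfold e
  exact Complex.norm_exp_ofReal_mul_I _

theorem ADMB_psi_le (x : ℝ) : |psi x| ≤ 1 / 2 := by
  unfold psi
  rw [abs_le]
  have h1 := Int.fract_nonneg x
  have h2 := Int.fract_lt_one x
  constructor <;> linarith

theorem ADMB_meas_psi : Measurable psi := by
  unfold psi
  exact measurable_fract.sub_const _

theorem ADMB_cont_e : Continuous e := by
  unfold e
  fun_prop

theorem ADMB_coef_psi (h : ℤ) :
    coef psi h = if h = 0 then 0 else -(1 / (2 * Real.pi * I * h)) := by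
  have h0 : coef psi h =
      ∫ x in (0 : ℝ)..1, ((x : ℂ) - 1 / 2) * cexp (-(2 * Real.pi * I * h) * x) := by
    unfold coef
    apply intervalIntegral.integral_congr_ae
    have h1 : ∀ᵐ x ∂(volume : Measure ℝ), x ≠ 1 := by
      simp [ae_iff, measure_singleton]
    filter_upwards [h1] with x hx1 hx
    rw [Set.uIoc_of_le zero_le_one] at hx
    have hx2 : x < 1 := lt_of_le_of_ne hx.2 hx1
    have h3 : Int.fract x = x := Int.fract_eq_self.2 ⟨hx.1.le, hx2⟩
    rw [ADMB_e_eq]
    unfold psi
    rw [h3]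
    push_cast
    rfl
  rw [h0]
  split_ifs with hh
  · subst hh
    have h2 : ∀ x ∈ Set.uIcc (0 : ℝ) 1,
        HasDerivAt (fun y : ℝ => ((y : ℂ) ^ 2 / 2 - (y : ℂ) / 2)) ((x : ℂ) - 1 / 2) x := by
      intro x _
      have h3 : HasDerivAt (fun y : ℝ => (y : ℂ)) 1 x := Complex.ofRealCLM.hasDerivAt
      have h4 := ((h3.pow 2).div_const 2).sub (h3.div_const 2)
      refine HasDerivAt.congr_deriv h4 ?_
      norm_num
    have h5 := intervalIntegral.integral_eq_sub_of_hasDerivAt h2
      (by apply Continuous.intervalIntegrable; fun_prop)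
    have h6 : ∀ x : ℝ, ((x : ℂ) - 1 / 2) * cexp (-(2 * Real.pi * I * ((0 : ℤ) : ℂ)) * x) =
        (x : ℂ) - 1 / 2 := by
      intro x
      simp
    simp only [h6]
    rw [h5]
    norm_num
  · set c : ℂ := -(2 * Real.pi * I * h) with hc
    have hc0 : c ≠ 0 := by
      rw [hc]
      simp [hh, Real.pi_ne_zero, I_ne_zero]
    have h2 : ∀ x ∈ Set.uIcc (0 : ℝ) 1,
        HasDerivAt (fun y : ℝ => ((y : ℂ) - 1 / 2) * cexp (c * y) / c - cexp (c * y) / c ^ 2)
          (((x : ℂ) - 1 / 2) * cexp (c * x)) x := by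
      intro x _
      have h3 : HasDerivAt (fun y : ℝ => (y : ℂ)) 1 x := Complex.ofRealCLM.hasDerivAt
      have h4 := (h3.const_mul c).cexp
      have h5 := (((h3.sub_const (1 / 2)).mul h4).div_const c).sub (h4.div_const (c ^ 2))
      refine HasDerivAt.congr_deriv h5 ?_
      field_simp
      ring
    have h5 := intervalIntegral.integral_eq_sub_of_hasDerivAt h2
      (by apply Continuous.intervalIntegrable; fun_prop)
    rw [h5]
    have h6 : cexp c = 1 := by
      have := ADMB_e_int (-h)
      unfold e at this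
      rw [← this]
      congr 1
      rw [hc]
      push_cast
      ring
    have h7 : -(1 / (2 * Real.pi * I * h)) = 1 / c := by
      rw [hc, one_div, one_div, inv_neg]
    rw [h7]
    simp only [ofReal_one, ofReal_zero, mul_one, mul_zero, Complex.exp_zero, h6]
    field_simp
    ring

theorem ADMB_per (h : ℤ) (a : ℝ) :
    Function.Periodic (fun x : ℝ => (psi x : ℂ) * e (-(h * (x + a)))) 1 := by
  intro x
  have h1 : psi (x + 1) = psi x := by
    unfold psi
    rw [Int.fract_add_one]
  have h2 : -(h * (x + 1 + a)) = -(h * (x + a)) + ((-h : ℤ) : ℝ) := by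
    push_cast
    ring
  simp only
  rw [h1, h2, ADMB_e_add, ADMB_e_int, mul_one]

theorem ADMB_shift (h : ℤ) (a : ℝ) :
    coef (fun y => psi (y - a)) h = e (-(h * a)) * coef psi h := by
  unfold coef
  have h1 : ∀ x : ℝ, (psi (x - a) : ℂ) * e (-(h * x)) =
      (fun x : ℝ => (psi x : ℂ) * e (-(h * (x + a)))) (x - a) := by
    intro x
    simp
  simp only [h1]
  rw [intervalIntegral.integral_comp_sub_right
    (fun x : ℝ => (psi x : ℂ) * e (-(h * (x + a)))) a]
  have h2 := (ADMB_per h a).intervalIntegral_add_eq (0 - a) 0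
  have h3 : (0 : ℝ) - a + 1 = 1 - a := by ring
  rw [h3, zero_add] at h2
  rw [h2, ← intervalIntegral.integral_const_mul]
  refine intervalIntegral.integral_congr fun x _ => ?_
  have h4 : -(h * (x + a)) = -(h * a) + -(h * x) := by ring
  rw [h4, ADMB_e_add]
  ring

theorem ADMB_int (h : ℤ) (a : ℝ) :
    IntervalIntegrable (fun x : ℝ => (psi (x - a) : ℂ) * e (-(h * x))) volume 0 1 := by
  rw [intervalIntegrable_iff_integrableOn_Ioc_of_le zero_le_one]
  refine Measure.integrableOn_of_bounded (M := 1 / 2) (by simp) ?_ ?_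
  · have h1 : Measurable fun x : ℝ => (psi (x - a) : ℂ) :=
      measurable_ofReal.comp (ADMB_meas_psi.comp (measurable_id.sub_const a))
    have h2 : Measurable fun x : ℝ => e (-(h * x)) :=
      ADMB_cont_e.measurable.comp (by fun_prop)
    exact (h1.mul h2).aestronglyMeasurable
  · filter_upwards with x
    rw [norm_mul, ADMB_norm_e, mul_one, Complex.norm_real]
    exact ADMB_psi_le _

theorem ADMB_coef (a' b' : ℝ) (h : ℤ) : coef (fun y => psi (y - b') - psi (y - a')) h =
    (e (-(h * b')) - e (-(h * a'))) * coef psi h := by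
  have h1 : coef (fun y => psi (y - b') - psi (y - a')) h =
      coef (fun y => psi (y - b')) h - coef (fun y => psi (y - a')) h := by
    unfold coef
    rw [← intervalIntegral.integral_sub (ADMB_int h b') (ADMB_int h a')]
    refine intervalIntegral.integral_congr fun x _ => ?_
    simp only
    push_cast
    ring
  rw [h1, ADMB_shift, ADMB_shift]
  ring

/-- Target ADMB. -/
theorem p_ADMB : T_ADMB := by
  intro a' b' hab hba
  refine ⟨⟨?_, ?_, ?_, ?_, ?_⟩, ?_⟩
  · exact (ADMB_meas_psi.comp (measurable_id.sub_const b')).sub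
      (ADMB_meas_psi.comp (measurable_id.sub_const a'))
  · intro x
    have h1 : ∀ a : ℝ, psi (x + 1 - a) = psi (x - a) := by
      intro a
      have h2 : x + 1 - a = x - a + 1 := by ring
      unfold psi
      rw [h2, Int.fract_add_one]
    simp only [h1]
  · intro x
    have h1 := ADMB_psi_le (x - b')
    have h2 := ADMB_psi_le (x - a')
    have h3 := abs_sub (psi (x - b')) (psi (x - a'))
    linarith
  · rw [ADMB_coef, ADMB_coef_psi]
    simp
  · intro h hh
    have h0 : 0 < |(h : ℝ)| := abs_pos.2 (by exact_mod_cast hh)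
    rw [ADMB_coef, ADMB_coef_psi, if_neg hh, norm_mul, norm_neg]
    have h1 : ‖e (-(h * b')) - e (-(h * a'))‖ ≤ 2 := by
      refine (norm_sub_le _ _).trans ?_
      rw [ADMB_norm_e, ADMB_norm_e]
      norm_num
    have h2 : ‖1 / (2 * (Real.pi : ℂ) * I * (h : ℂ))‖ = 1 / (2 * Real.pi * |(h : ℝ)|) := by
      rw [norm_div, norm_one, norm_mul, norm_mul, norm_mul, norm_I, mul_one, Complex.norm_real,
        Real.norm_of_nonneg Real.pi_pos.le]
      congr 2
      · norm_num
      · have h3 : (h : ℂ) = ((h : ℝ) : ℂ) := by push_cast; rfl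
        rw [h3, Complex.norm_real, Real.norm_eq_abs]
    rw [h2]
    have h3 : (1 : ℝ) ≤ 2 * Real.pi := by linarith [Real.pi_gt_three]
    have h4 : 1 / (2 * Real.pi * |(h : ℝ)|) ≤ 1 / |(h : ℝ)| := by
      apply one_div_le_one_div_of_le h0
      nlinarith
    calc ‖e (-(h * b')) - e (-(h * a'))‖ * (1 / (2 * Real.pi * |(h : ℝ)|))
        ≤ 2 * (1 / |(h : ℝ)|) := mul_le_mul h1 h4 (by positivity) (by norm_num)
      _ = 2 / |(h : ℝ)| := by ring
  · rw [ADMB_coef, ADMB_coef_psi, if_neg one_ne_zero]
    refine mul_ne_zero ?_ ?_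
    · intro h1
      have h2 : e (a' - b') = 1 := by
        have h3 : -(((1 : ℤ) : ℝ) * b') = -(((1 : ℤ) : ℝ) * a') + (a' - b') := by
          push_cast
          ring
        rw [h3, ADMB_e_add] at h1
        have h4 : e (-(((1 : ℤ) : ℝ) * a')) ≠ 0 := by
          intro h5
          have := ADMB_norm_e (-(((1 : ℤ) : ℝ) * a'))
          rw [h5, norm_zero] at this
          exact zero_ne_one this
        have h6 : e (-(((1 : ℤ) : ℝ) * a')) * (e (a' - b') - 1) = 0 := by
          rw [mul_sub, mul_one]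
          exact h1
        rcases mul_eq_zero.1 h6 with h7 | h7
        · exact absurd h7 h4
        · exact sub_eq_zero.1 h7
      unfold e at h2
      rw [Complex.exp_eq_one_iff] at h2
      obtain ⟨m, hm⟩ := h2
      have h3 : ((a' - b' : ℝ) : ℂ) = ((m : ℝ) : ℂ) := by
        have h4 : (2 * Real.pi * I : ℂ) ≠ 0 := by
          simp [Real.pi_ne_zero, I_ne_zero]
        apply mul_left_cancel₀ h4
        push_cast at hm ⊢
        linear_combination hm
      have h4 : a' - b' = (m : ℝ) := by exact_mod_cast h3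
      have h5 : (m : ℝ) < 0 := by linarith
      have h6 : (-1 : ℝ) < m := by linarith
      have h7 : m < 0 := by exact_mod_cast h5
      have h8 : -1 < m := by exact_mod_cast h6
      omega
    · simp [Real.pi_ne_zero, I_ne_zero]

end Pool.Agent.Ben
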