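import Pool.Agent.Ben.P_ADMB

/-!
# Ben, target ADMP: the sawtooth and its negative are admissible
-/

set_option autoImplicit false

namespace Pool.Agent.Ben

open Complex MeasureTheory

theorem ADMP_coef_neg (h : ℤ) : coef (fun y => -psi y) h = -coef psi h := by
  unfold coef
  rw [← intervalIntegral.integral_neg]
  refine intervalIntegral.integral_congr fun x _ => ?_
  simp only
  push_cast
  ring

theorem ADMP_per : Function.Periodic psi 1 := by
  intro x
  unfold psi
  rw [Int.fract_add_one]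

theorem ADMP_zero : coef psi 0 = 0 := by
  rw [ADMB_coef_psi, if_pos rfl]

theorem ADMP_one : coef psi 1 ≠ 0 := by
  rw [ADMB_coef_psi, if_neg one_ne_zero]
  simp [Real.pi_ne_zero, I_ne_zero]

theorem ADMP_dec (h : ℤ) (hh : h ≠ 0) : ‖coef psi h‖ ≤ 1 / |(h : ℝ)| := by
  have h0 : 0 < |(h : ℝ)| := abs_pos.2 (by exact_mod_cast hh)
  rw [ADMB_coef_psi, if_neg hh, norm_neg]
  have h2 : ‖1 / (2 * (Real.pi : ℂ) * I * (h : ℂ))‖ = 1 / (2 * Real.pi * |(h : ℝ)|) := by
    rw [norm_div, norm_one, norm_mul, norm_mul, norm_mul, norm_I, mul_one, Complex.norm_real,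
      Real.norm_of_nonneg Real.pi_pos.le]
    congr 2
    · norm_num
    · have h3 : (h : ℂ) = ((h : ℝ) : ℂ) := by push_cast; rfl
      rw [h3, Complex.norm_real, Real.norm_eq_abs]
  rw [h2]
  apply one_div_le_one_div_of_le h0
  nlinarith [Real.pi_gt_three]

/-- Target ADMP. -/
theorem p_ADMP : T_ADMP := by
  refine ⟨⟨⟨ADMB_meas_psi, ADMP_per, ?_, ADMP_zero, ADMP_dec⟩, ADMP_one⟩,
    ⟨ADMB_meas_psi.neg, ?_, ?_, ?_, ?_⟩, ?_⟩
  · intro x
    exact (ADMB_psi_le x).trans (by norm_num)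
  · intro x
    simp only
    rw [ADMP_per x]
  · intro x
    rw [abs_neg]
    exact (ADMB_psi_le x).trans (by norm_num)
  · rw [ADMP_coef_neg, ADMP_zero, neg_zero]
  · intro h hh
    rw [ADMP_coef_neg, norm_neg]
    exact ADMP_dec h hh
  · rw [ADMP_coef_neg]
    exact neg_ne_zero.2 ADMP_one

end Pool.Agent.Ben
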