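import Pool.Agent.Ben.Targets

/-!
# Benford's law gives the one-sided bound for the observable
-/

set_option autoImplicit false

namespace Pool.Agent.Ben

theorem p_BENB : T_BENB := by
  intro hM g a b hg ha hab hbg hU ε hε
  obtain ⟨C, hC⟩ := hU ε hε
  have hL : 0 < Real.log g := Real.log_pos hg
  refine ⟨C * Real.log g ^ ε, ?_⟩
  intro t ht N hN hNt
  have ht0 : 0 < t := by linarith
  have hx : 0 < t * Real.log g := mul_pos ht0 hL
  have h1 := hC (t * Real.log g) N hN (by linarith [hNt, mul_comm (Real.log g) t])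
  rw [hM g a b hg ha hab hbg (t * Real.log g) hx N] at h1
  have h2 : t * Real.log g / Real.log g = t := by field_simp
  rw [h2, Real.mul_rpow ht0.le hL.le] at h1
  calc ∑ n ∈ Finset.Icc 1 N, (psi (t * Real.log n - Real.logb g b) -
        psi (t * Real.log n - Real.logb g a))
      ≤ C * √(N : ℝ) * (t ^ ε * Real.log g ^ ε) := h1
    _ = C * Real.log g ^ ε * √(N : ℝ) * t ^ ε := by ring

end Pool.Agent.Ben
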