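import Pool.Agent.Ben.Targets

/-!
# Benford's law from the discrepancy bound
-/

set_option autoImplicit false

namespace Pool.Agent.Ben

open Complex MeasureTheory Set

private theorem BENF_psi_sub (x y : ℝ) : |psi x - psi y| ≤ 1 := by
  unfold psi
  have h1 := Int.fract_nonneg x
  have h2 := Int.fract_nonneg y
  have h3 := (Int.fract_lt_one x).le
  have h4 := (Int.fract_lt_one y).le
  rw [abs_le]
  constructor <;> linarith

theorem p_BENF : T_BENF := by
  intro hM hD g a b hg ha hab hb ε hε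
  have hL : 0 < Real.log g := Real.log_pos hg
  obtain ⟨C0, hC0⟩ := hD ε hε (Real.log g) hL
  refine ⟨2 * |C0| / Real.log g ^ ε + √(Real.log g), ?_⟩
  intro x N hN hNx
  have hN1 : (1 : ℝ) ≤ N := by exact_mod_cast hN
  have hx1 : 1 ≤ x := hN1.trans hNx
  have hx0 : 0 < x := by linarith
  have hLe : 0 < Real.log g ^ ε := Real.rpow_pos_of_pos hL ε
  have hxe : 1 ≤ x ^ ε := Real.one_le_rpow hx1 hε.le
  have hsN : 0 ≤ √(N : ℝ) := Real.sqrt_nonneg _
  have hsL : 0 ≤ √(Real.log g) := Real.sqrt_nonneg _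
  have hA : 0 ≤ 2 * |C0| / Real.log g ^ ε := by positivity
  rw [hM g a b hg ha hab hb x hx0 N]
  rcases le_or_gt 1 (x / Real.log g) with ht | ht
  · have hNt : (N : ℝ) ≤ Real.log g * (x / Real.log g) := by
      rw [mul_div_cancel₀ _ hL.ne']
      exact hNx
    have h1 := hC0 (x / Real.log g) ht N hN hNt (-Real.logb g b)
    have h2 := hC0 (x / Real.log g) ht N hN hNt (-Real.logb g a)
    have hte : (x / Real.log g) ^ ε = x ^ ε / Real.log g ^ ε := Real.div_rpow hx0.le hL.le ε
    rw [hte] at h1 h2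
    rw [Finset.sum_sub_distrib]
    have h3 : C0 * √(N : ℝ) * (x ^ ε / Real.log g ^ ε) ≤
        |C0| * √(N : ℝ) * (x ^ ε / Real.log g ^ ε) := by
      have : 0 ≤ x ^ ε / Real.log g ^ ε := by positivity
      exact mul_le_mul_of_nonneg_right (mul_le_mul_of_nonneg_right (le_abs_self _) hsN) this
    have h4 : |∑ n ∈ Finset.Icc 1 N, psi (x / Real.log g * Real.log n - Real.logb g b) -
        ∑ n ∈ Finset.Icc 1 N, psi (x / Real.log g * Real.log n - Real.logb g a)| ≤
        2 * (|C0| * √(N : ℝ) * (x ^ ε / Real.log g ^ ε)) := by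
      have h5 := abs_sub (∑ n ∈ Finset.Icc 1 N,
        psi (x / Real.log g * Real.log n - Real.logb g b))
        (∑ n ∈ Finset.Icc 1 N, psi (x / Real.log g * Real.log n - Real.logb g a))
      simp only [← sub_eq_add_neg] at h1 h2
      linarith
    refine h4.trans ?_
    have h6 : 2 * (|C0| * √(N : ℝ) * (x ^ ε / Real.log g ^ ε)) =
        2 * |C0| / Real.log g ^ ε * √(N : ℝ) * x ^ ε := by
      ring
    rw [h6]
    have h7 : 0 ≤ √(N : ℝ) * x ^ ε := by positivity
    nlinarith [mul_nonneg hsL h7]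
  · have hxL : x < Real.log g := by
      rwa [div_lt_one hL] at ht
    have h1 : |∑ n ∈ Finset.Icc 1 N, (psi (x / Real.log g * Real.log n - Real.logb g b) -
        psi (x / Real.log g * Real.log n - Real.logb g a))| ≤ N := by
      refine (Finset.abs_sum_le_sum_abs _ _).trans ?_
      refine (Finset.sum_le_sum fun n _ => BENF_psi_sub _ _).trans ?_
      simp
    refine h1.trans ?_
    have h2 : (N : ℝ) = √(N : ℝ) * √(N : ℝ) := (Real.mul_self_sqrt (by positivity)).symm
    have h3 : √(N : ℝ) ≤ √(Real.log g) := Real.sqrt_le_sqrt (by linarith)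
    have h4 : (N : ℝ) ≤ √(Real.log g) * √(N : ℝ) := by
      calc (N : ℝ) = √(N : ℝ) * √(N : ℝ) := h2
        _ ≤ √(Real.log g) * √(N : ℝ) := mul_le_mul_of_nonneg_right h3 hsN
    have h5 : √(Real.log g) * √(N : ℝ) ≤ √(Real.log g) * √(N : ℝ) * x ^ ε :=
      le_mul_of_one_le_right (by positivity) hxe
    have h6 : 0 ≤ 2 * |C0| / Real.log g ^ ε * (√(N : ℝ) * x ^ ε) := by positivity
    calc (N : ℝ) ≤ √(Real.log g) * √(N : ℝ) := h4
      _ ≤ √(Real.log g) * √(N : ℝ) * x ^ ε := h5
      _ ≤ (2 * |C0| / Real.log g ^ ε + √(Real.log g)) * √(N : ℝ) * x ^ ε := by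
        nlinarith

end Pool.Agent.Ben
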