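import Pool.Agent.Ben.Targets2

/-!
# The lower one-sided inequality gives the upper one for the complementary interval
-/

set_option autoImplicit false

namespace Pool.Agent.Ben

open Complex MeasureTheory Set

theorem p_BENL : T_BENL := by
  intro hM g a b hg ha hab hb hL ε hε
  obtain ⟨C, hC⟩ := hL ε hε
  refine ⟨C, ?_⟩
  intro x N hN hNx
  have hN1 : (1 : ℝ) ≤ (N : ℝ) := by exact_mod_cast hN
  have hx0 : 0 < x := by linarith
  have h1 := hC x N hN hNx
  have hg0 : 0 < g := by linarith
  rw [hM g a b hg ha hab hb x hx0 N] at h1
  rw [hM g b (g * a) hg (ha.trans hab) hb (by gcongr) x hx0 N]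
  have key : ∀ n : ℕ, psi (x / Real.log g * Real.log n - Real.logb g (g * a)) =
      psi (x / Real.log g * Real.log n - Real.logb g a) := by
    intro n
    rw [Real.logb_mul hg0.ne' ha.ne', Real.logb_self_eq_one hg]
    unfold psi
    have : x / Real.log g * Real.log n - (1 + Real.logb g a) =
      x / Real.log g * Real.log n - Real.logb g a - 1 := by ring
    rw [this, Int.fract_sub_one]
  simp only [key]
  have h2 : ∑ n ∈ Finset.Icc 1 N, (psi (x / Real.log g * Real.log n - Real.logb g a) -
      psi (x / Real.log g * Real.log n - Real.logb g b)) =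
      -∑ n ∈ Finset.Icc 1 N, (psi (x / Real.log g * Real.log n - Real.logb g b) -
      psi (x / Real.log g * Real.log n - Real.logb g a)) := by
    rw [← Finset.sum_neg_distrib]
    apply Finset.sum_congr rfl
    intro n _
    ring
  rw [h2]
  linarith

end Pool.Agent.Ben
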