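import Pool.Agent.Ben.Targets2

/-!
# Uniform version of Benford's law from `Disc`
-/

set_option autoImplicit false

namespace Pool.Agent.Ben

open Complex MeasureTheory Set

namespace BENU

lemma abs_psi_le (x : ℝ) : |psi x| ≤ 1 / 2 := by
  unfold psi
  rw [abs_le]
  have h1 := Int.fract_nonneg x
  have h2 := Int.fract_lt_one x
  constructor <;> linarith

lemma count_full {g a : ℝ} (hg : 1 < g) (ha : 0 < a) (x : ℝ) (N : ℕ) :
    count g a (g * a) x N = N := by
  have : {n : ℕ | 1 ≤ n ∧ n ≤ N ∧ Mant g a (g * a) ((n : ℝ) ^ x)} =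
      ((Finset.Icc 1 N : Finset ℕ) : Set ℕ) := by
    ext n
    simp only [Set.mem_ofPred_eq, Finset.coe_Icc, Set.mem_Icc]
    constructor
    · rintro ⟨h1, h2, -⟩
      exact ⟨h1, h2⟩
    · rintro ⟨h1, h2⟩
      refine ⟨h1, h2, ?_⟩
      have hn : (0 : ℝ) < (n : ℝ) := by exact_mod_cast h1
      have hp : 0 < (n : ℝ) ^ x := Real.rpow_pos_of_pos hn x
      obtain ⟨m, hm1, hm2⟩ := exists_mem_Ico_zpow (div_pos hp ha) hg
      refine ⟨m, ?_, ?_⟩
      · rw [le_div_iff₀ ha] at hm1
        linarith
      · rw [div_lt_iff₀ ha, zpow_add_one₀ (by positivity)] at hm2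
        calc (n : ℝ) ^ x < g ^ m * g * a := hm2
          _ = g * a * g ^ m := by ring
  unfold count
  rw [this, Set.ncard_coe_finset]
  simp

end BENU

open BENU in
theorem p_BENU : T_BENU := by
  intro hM hD g hg ε hε
  obtain ⟨C, hC⟩ := hD ε hε (Real.log g) (Real.log_pos hg)
  have hlg : 0 < Real.log g := Real.log_pos hg
  have hlge : 0 < Real.log g ^ ε := Real.rpow_pos_of_pos hlg ε
  refine ⟨2 * |C| / Real.log g ^ ε + √(Real.log g), ?_⟩
  intro x N hN hNx a b ha hab hb
  have hN1 : (1 : ℝ) ≤ (N : ℝ) := by exact_mod_cast hN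
  have hx1 : 1 ≤ x := le_trans hN1 hNx
  have hx0 : 0 < x := by linarith
  have hxe : 1 ≤ x ^ ε := Real.one_le_rpow hx1 hε.le
  have hsN : 0 ≤ √(N : ℝ) := Real.sqrt_nonneg _
  rcases lt_or_eq_of_le hb with hb' | hb'
  · rw [hM g a b hg ha hab hb' x hx0 N, Finset.sum_sub_distrib]
    by_cases ht : 1 ≤ x / Real.log g
    · have hle : (N : ℝ) ≤ Real.log g * (x / Real.log g) := by
        rw [mul_div_cancel₀ _ hlg.ne']
        exact hNx
      have e1 := hC (x / Real.log g) ht N hN hle (-Real.logb g b)
      have e2 := hC (x / Real.log g) ht N hN hle (-Real.logb g a)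
      simp only [← sub_eq_add_neg] at e1 e2
      have hpow : (x / Real.log g) ^ ε = x ^ ε / Real.log g ^ ε :=
        Real.div_rpow hx0.le hlg.le ε
      have hub : C * √(N : ℝ) * (x / Real.log g) ^ ε ≤
          |C| / Real.log g ^ ε * √(N : ℝ) * x ^ ε := by
        rw [hpow]
        have : C * √(N : ℝ) * (x ^ ε / Real.log g ^ ε) ≤
            |C| * √(N : ℝ) * (x ^ ε / Real.log g ^ ε) := by
          gcongr
          exact le_abs_self C
        refine this.trans (le_of_eq ?_)
        ring
      have habs := abs_sub (∑ n ∈ Finset.Icc 1 N,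
          psi (x / Real.log g * Real.log n - Real.logb g b))
        (∑ n ∈ Finset.Icc 1 N, psi (x / Real.log g * Real.log n - Real.logb g a))
      calc _ ≤ _ := habs
        _ ≤ |C| / Real.log g ^ ε * √(N : ℝ) * x ^ ε +
            |C| / Real.log g ^ ε * √(N : ℝ) * x ^ ε :=
          add_le_add (e1.trans hub) (e2.trans hub)
        _ = 2 * |C| / Real.log g ^ ε * √(N : ℝ) * x ^ ε + 0 := by ring
        _ ≤ 2 * |C| / Real.log g ^ ε * √(N : ℝ) * x ^ ε +
            √(Real.log g) * √(N : ℝ) * x ^ ε := by
          gcongr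
          positivity
        _ = _ := by ring
    · push Not at ht
      rw [div_lt_one hlg] at ht
      have hNg : (N : ℝ) ≤ Real.log g := by linarith
      rw [← Finset.sum_sub_distrib]
      calc |∑ n ∈ Finset.Icc 1 N, (psi (x / Real.log g * Real.log n - Real.logb g b) -
            psi (x / Real.log g * Real.log n - Real.logb g a))|
          ≤ ∑ n ∈ Finset.Icc 1 N, |psi (x / Real.log g * Real.log n - Real.logb g b) -
            psi (x / Real.log g * Real.log n - Real.logb g a)| :=
            Finset.abs_sum_le_sum_abs _ _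
        _ ≤ ∑ _n ∈ Finset.Icc 1 N, (1 : ℝ) := by
            apply Finset.sum_le_sum
            intro n _
            have h1 := abs_psi_le (x / Real.log g * Real.log n - Real.logb g b)
            have h2 := abs_psi_le (x / Real.log g * Real.log n - Real.logb g a)
            refine (abs_sub _ _).trans ?_
            linarith
        _ = (N : ℝ) := by simp
        _ = √(N : ℝ) * √(N : ℝ) := (Real.mul_self_sqrt (by positivity)).symm
        _ ≤ √(Real.log g) * √(N : ℝ) := by gcongr
        _ ≤ √(Real.log g) * √(N : ℝ) * x ^ ε :=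
            le_mul_of_one_le_right (by positivity) hxe
        _ = 0 + √(Real.log g) * √(N : ℝ) * x ^ ε := by ring
        _ ≤ 2 * |C| / Real.log g ^ ε * √(N : ℝ) * x ^ ε +
            √(Real.log g) * √(N : ℝ) * x ^ ε := by
          gcongr
          positivity
        _ = _ := by ring
  · subst hb'
    rw [count_full hg ha, mul_div_assoc, div_self ha.ne', mul_one,
      Real.logb_self_eq_one hg, mul_one, sub_self, abs_zero]
    positivity

end Pool.Agent.Ben
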