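import Pool.Agent.Ben.Targets

/-!
# Ben: the frequencies other than one
-/

set_option autoImplicit false

open MeasureTheory Set Filter Topology Complex

namespace Pool.Agent.Ben

private lemma ERR_summ : Summable (fun h : ℤ => Real.exp (-|(h : ℝ)| / 4)) := by
  have h1 : Summable (fun n : ℕ => Real.exp (-(n : ℝ) / 4)) := by
    have h2 : Summable (fun n : ℕ => (Real.exp (-(1 / 4))) ^ n) :=
      summable_geometric_of_lt_one (Real.exp_pos _).le (by rw [Real.exp_lt_one_iff]; norm_num)
    refine h2.congr (fun n => ?_)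
    rw [← Real.exp_nat_mul]
    congr 1
    ring
  apply Summable.of_nat_of_neg
  · refine h1.congr (fun n => ?_)
    simp
  · refine h1.congr (fun n => ?_)
    simp

/-- telescoping sum -/
private lemma ERR_tel (X : ℝ) (hX : 0 < X) (M : ℕ) :
    ∑ n ∈ Finset.Icc 2 M, X / ((X + n) * (X + n - 1)) ≤ M / (X + M) := by
  induction M with
  | zero => simp
  | succ M ih =>
    rcases Nat.lt_or_ge M 1 with h | h
    · have : M = 0 := by omega
      subst this
      simp
      positivity
    · rw [Finset.sum_Icc_succ_top (by omega)]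
      have h1 : (0 : ℝ) < X + M := by positivity
      have h2 : (0 : ℝ) < X + M + 1 := by positivity
      have h3 : X / ((X + ((M + 1 : ℕ) : ℝ)) * (X + ((M + 1 : ℕ) : ℝ) - 1)) + M / (X + M) =
          ((M + 1 : ℕ) : ℝ) / (X + ((M + 1 : ℕ) : ℝ)) := by
        push_cast
        have h4 : X + ((M : ℝ) + 1) - 1 = X + M := by ring
        have h5 : X + ((M : ℝ) + 1) ≠ 0 := by positivity
        rw [h4]
        field_simp
        ring
      linarith

private lemma ERR_tel1 (X : ℝ) (hX : 0 < X) (M : ℕ) :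
    ∑ n ∈ Finset.Icc 2 M, X / ((X + n) * (X + n - 1)) ≤ 1 := by
  refine (ERR_tel X hX M).trans ?_
  rw [div_le_one (by positivity)]
  linarith

private lemma ERR_sq (M : ℕ) : ∑ n ∈ Finset.Icc 2 M, 1 / (n : ℝ) ^ 2 ≤ 2 := by
  have h1 : ∀ n ∈ Finset.Icc 2 M, 1 / (n : ℝ) ^ 2 ≤ 2 * (1 / ((1 + n) * (1 + n - 1))) := by
    intro n hn
    have h2 : (2 : ℝ) ≤ n := by exact_mod_cast (Finset.mem_Icc.1 hn).1
    have h3 : (1 : ℝ) + n - 1 = n := by ring
    rw [h3, mul_one_div, div_le_div_iff₀ (by positivity) (by positivity)]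
    nlinarith
  refine (Finset.sum_le_sum h1).trans ?_
  rw [← Finset.mul_sum]
  have := ERR_tel1 1 one_pos M
  linarith

/-- the term -/
private lemma ERR_term (y : ℝ) (hy : 0 ≤ y) (n : ℕ) (hn : 2 ≤ n) (h : ℤ) :
    (if h = 0 ∨ h = 1 then 0 else
      Real.exp (-(h * Real.log n - y) ^ 2 / 4) / |(h : ℝ)|) ≤
      (Real.exp 16 * Real.exp (y / 2) * (1 / (n : ℝ) ^ 2) +
        4 * Real.exp 2 * Real.exp (y / 2) *
          (Real.exp (y / 2) / ((Real.exp (y / 2) + n) * (Real.exp (y / 2) + n - 1)))) *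
        Real.exp (-|(h : ℝ)| / 4) := by
  have hn2 : (2 : ℝ) ≤ n := by exact_mod_cast hn
  have hn0 : (0 : ℝ) < n := by linarith
  have hX1 : 1 ≤ Real.exp (y / 2) := Real.one_le_exp (by positivity)
  obtain ⟨X, hX⟩ : ∃ X, X = Real.exp (y / 2) := ⟨_, rfl⟩
  have hXX : X * X = Real.exp y := by rw [hX, ← Real.exp_add]; congr 1; ring
  have hL : 1 / 2 ≤ Real.log n := by
    have h1 := Real.log_le_log (by norm_num) hn2
    have h2 := Real.log_two_gt_d9
    linarith
  obtain ⟨L, hLL⟩ : ∃ L, L = Real.log n := ⟨_, rfl⟩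
  have hinv : 1 / (n : ℝ) ^ 2 = Real.exp (-(2 * L)) := by
    rw [hLL, Real.exp_neg, ← Real.log_rpow hn0, Real.exp_log (by positivity)]
    simp
  rw [← hX, ← hLL]
  rw [← hX] at hX1
  rw [← hLL] at hL
  have hX0 : 0 < X := by linarith
  have hA0 : 0 ≤ Real.exp 16 * X * (1 / (n : ℝ) ^ 2) := by positivity
  have hd : 0 < (X + n) * (X + n - 1) := by
    apply mul_pos
    · positivity
    · linarith
  have hB0 : 0 ≤ 4 * Real.exp 2 * X * (X / ((X + n) * (X + n - 1))) := by
    have : 0 ≤ X / ((X + n) * (X + n - 1)) := div_nonneg hX0.le hd.le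
    positivity
  split_ifs with h01
  · exact mul_nonneg (add_nonneg hA0 hB0) (Real.exp_pos _).le
  · have hdiv : ∀ a : ℝ, 0 ≤ a → a / |(h : ℝ)| ≤ a := by
      intro a ha
      apply div_le_self ha
      rw [← Int.cast_abs]
      have : h ≠ 0 := fun hh => h01 (Or.inl hh)
      exact_mod_cast Int.one_le_abs this
    refine (hdiv _ (Real.exp_pos _).le).trans ?_
    rcases lt_or_ge h 0 with hneg | hpos
    · -- negative frequencies
      have h1 : (h : ℝ) ≤ -1 := by exact_mod_cast (by omega : h ≤ -1)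
      have h2 : |(h : ℝ)| = -h := abs_of_neg (by linarith)
      refine le_trans ?_ (mul_le_mul_of_nonneg_right (le_add_of_nonneg_right hB0)
        (Real.exp_pos _).le)
      rw [hinv, h2]
      have h3 : Real.exp (-(h * L - y) ^ 2 / 4) ≤
          Real.exp 16 * Real.exp (-(2 * L)) * Real.exp (- -(h : ℝ) / 4) := by
        rw [← Real.exp_add, ← Real.exp_add]
        apply Real.exp_le_exp.2
        have h4 : 0 ≤ -(h : ℝ) * L := by nlinarith
        have h5 : (-(h : ℝ) * L) ^ 2 ≤ (h * L - y) ^ 2 := by nlinarith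
        have h6 : 0 ≤ (-(h : ℝ) * L / 2 - 4) ^ 2 := sq_nonneg _
        nlinarith
      refine h3.trans ?_
      have h7 : 0 ≤ Real.exp 16 * Real.exp (-(2 * L)) * Real.exp (- -(h : ℝ) / 4) := by
        positivity
      calc Real.exp 16 * Real.exp (-(2 * L)) * Real.exp (- -(h : ℝ) / 4)
          ≤ X * (Real.exp 16 * Real.exp (-(2 * L)) * Real.exp (- -(h : ℝ) / 4)) :=
            le_mul_of_one_le_left h7 hX1
        _ = _ := by ring
    · have hh2 : 2 ≤ h := by omega
      rcases lt_or_ge h 4 with h4 | h4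
      · -- the frequencies two and three
        refine le_trans ?_ (mul_le_mul_of_nonneg_right (le_add_of_nonneg_left hA0)
          (Real.exp_pos _).le)
        have h1 : (2 : ℝ) ≤ h := by exact_mod_cast hh2
        have h2 : (h : ℝ) ≤ 3 := by exact_mod_cast (by omega : h ≤ 3)
        have h3 : |(h : ℝ)| = h := abs_of_nonneg (by linarith)
        have key : Real.exp (-(h * L - y) ^ 2 / 4) ≤
            Real.exp 1 * (4 * X * (X / ((X + n) * (X + n - 1)))) := by
          rcases le_or_gt (n : ℝ) X with hc | hc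
          · have e1 : Real.exp (-(h * L - y) ^ 2 / 4) ≤ 1 := by
              apply Real.exp_le_one_iff.2
              have := sq_nonneg (h * L - y)
              linarith
            have e2 : (1 : ℝ) ≤ 4 * X * (X / ((X + n) * (X + n - 1))) := by
              rw [← mul_div_assoc, le_div_iff₀ hd]
              nlinarith
            have e3 : (1 : ℝ) ≤ Real.exp 1 := Real.one_le_exp (by norm_num)
            nlinarith
          · have e1 : Real.exp (-(h * L - y) ^ 2 / 4) ≤
                Real.exp 1 * (Real.exp y * (1 / (n : ℝ) ^ 2)) := by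
              rw [hinv, ← Real.exp_add, ← Real.exp_add]
              apply Real.exp_le_exp.2
              have := sq_nonneg ((h * L - y) / 2 - 1)
              nlinarith
            refine e1.trans (mul_le_mul_of_nonneg_left ?_ (Real.exp_pos _).le)
            have e4 : (X + n) * (X + n - 1) ≤ 4 * (n : ℝ) ^ 2 := by nlinarith
            rw [← hXX, mul_one_div, ← mul_div_assoc, div_le_div_iff₀ (by positivity) hd]
            nlinarith [mul_le_mul_of_nonneg_left e4 (mul_pos hX0 hX0).le]
        refine key.trans ?_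
        have h5 : Real.exp 1 ≤ Real.exp 2 * Real.exp (-|(h : ℝ)| / 4) := by
          rw [h3, ← Real.exp_add]
          apply Real.exp_le_exp.2
          linarith
        have h6 : 0 ≤ 4 * X * (X / ((X + n) * (X + n - 1))) := by
          have : 0 ≤ X / ((X + n) * (X + n - 1)) := div_nonneg hX0.le hd.le
          positivity
        calc Real.exp 1 * (4 * X * (X / ((X + n) * (X + n - 1))))
            ≤ (Real.exp 2 * Real.exp (-|(h : ℝ)| / 4)) *
                (4 * X * (X / ((X + n) * (X + n - 1)))) :=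
              mul_le_mul_of_nonneg_right h5 h6
          _ = _ := by ring
      · -- large frequencies
        refine le_trans ?_ (mul_le_mul_of_nonneg_right (le_add_of_nonneg_right hB0)
          (Real.exp_pos _).le)
        have h1 : (4 : ℝ) ≤ h := by exact_mod_cast h4
        have h3 : |(h : ℝ)| = h := abs_of_nonneg (by linarith)
        rw [h3, hinv, hX, ← Real.exp_add, ← Real.exp_add, ← Real.exp_add]
        apply Real.exp_le_exp.2
        have h5 := sq_nonneg ((h * L - y) / 2 - 1 / 2)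
        nlinarith

theorem p_ERR : T_ERR := by
  refine ⟨(2 * Real.exp 16 + 4 * Real.exp 2) * ∑' h : ℤ, Real.exp (-|(h : ℝ)| / 4), ?_⟩
  intro y hy M
  obtain ⟨S, hS⟩ : ∃ S, S = ∑' h : ℤ, Real.exp (-|(h : ℝ)| / 4) := ⟨_, rfl⟩
  have hS0 : 0 ≤ S := by rw [hS]; exact tsum_nonneg (fun h => (Real.exp_pos _).le)
  rw [← hS]
  obtain ⟨X, hX⟩ : ∃ X, X = Real.exp (y / 2) := ⟨_, rfl⟩
  have hX1 : 1 ≤ X := by rw [hX]; exact Real.one_le_exp (by positivity)
  have h1 : ∀ n ∈ Finset.Icc 2 M, ∑' h : ℤ, (if h = 0 ∨ h = 1 then 0 else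
      Real.exp (-(h * Real.log n - y) ^ 2 / 4) / |(h : ℝ)|) ≤
      (Real.exp 16 * X * (1 / (n : ℝ) ^ 2) +
        4 * Real.exp 2 * X * (X / ((X + n) * (X + n - 1)))) * S := by
    intro n hn
    have h2 := ERR_term y hy n (Finset.mem_Icc.1 hn).1
    rw [← hX] at h2
    have h3 := ERR_summ.mul_left (Real.exp 16 * X * (1 / (n : ℝ) ^ 2) +
        4 * Real.exp 2 * X * (X / ((X + n) * (X + n - 1))))
    have h4 : Summable (fun h : ℤ => (if h = 0 ∨ h = 1 then 0 else
        Real.exp (-(h * Real.log n - y) ^ 2 / 4) / |(h : ℝ)|)) := by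
      refine Summable.of_nonneg_of_le (fun h => ?_) h2 h3
      split_ifs
      · exact le_rfl
      · positivity
    refine (h4.tsum_le_tsum h2 h3).trans ?_
    rw [tsum_mul_left, ← hS]
  refine (Finset.sum_le_sum h1).trans ?_
  rw [← Finset.sum_mul, Finset.sum_add_distrib, ← Finset.mul_sum, ← Finset.mul_sum, ← hX]
  have h5 := ERR_sq M
  have h6 := ERR_tel1 X (by linarith) M
  have h7 : Real.exp 16 * X * ∑ n ∈ Finset.Icc 2 M, 1 / (n : ℝ) ^ 2 ≤ Real.exp 16 * X * 2 :=
    mul_le_mul_of_nonneg_left h5 (by positivity)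
  have h8 : 4 * Real.exp 2 * X * ∑ n ∈ Finset.Icc 2 M, X / ((X + n) * (X + n - 1)) ≤
      4 * Real.exp 2 * X * 1 := mul_le_mul_of_nonneg_left h6 (by positivity)
  have h9 : (Real.exp 16 * X * ∑ n ∈ Finset.Icc 2 M, 1 / (n : ℝ) ^ 2 +
      4 * Real.exp 2 * X * ∑ n ∈ Finset.Icc 2 M, X / ((X + n) * (X + n - 1))) * S ≤
      (Real.exp 16 * X * 2 + 4 * Real.exp 2 * X * 1) * S :=
    mul_le_mul_of_nonneg_right (add_le_add h7 h8) hS0
  refine h9.trans ?_
  have h10 : (Real.exp 16 * X * 2 + 4 * Real.exp 2 * X * 1) * S =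
      (2 * Real.exp 16 + 4 * Real.exp 2) * S * X := by ring
  rw [h10]
  exact le_mul_of_one_le_right (by positivity) (by linarith)

end Pool.Agent.Ben
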