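import Pool.Agent.Ben.Targets

/-!
# Block ERZ: all frequencies for `y = 0`
-/

set_option autoImplicit false

namespace Pool.Agent.Ben

private lemma ERZ_summable : Summable (fun h : ℤ => Real.exp (-|(h : ℝ)|)) := by
  apply Summable.of_nat_of_neg
  · have := Real.summable_exp_neg_nat
    simpa using this
  · have := Real.summable_exp_neg_nat
    simpa using this

private lemma ERZ_term (n : ℕ) (hn : 2 ≤ n) (h : ℤ) :
    (if h = 0 then 0 else Real.exp (-(h * Real.log n) ^ 2 / 4) / |(h : ℝ)|) ≤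
      Real.exp 16 * (1 / (n : ℝ) ^ 2) * Real.exp (-|(h : ℝ)|) := by
  split_ifs with h0
  · positivity
  · have hn' : (2 : ℝ) ≤ n := by exact_mod_cast hn
    have hn0 : (0 : ℝ) < n := by linarith
    have hh : (1 : ℝ) ≤ |(h : ℝ)| := by
      have : (1 : ℤ) ≤ |h| := Int.one_le_abs h0
      exact_mod_cast this
    have hL : (1 / 2 : ℝ) ≤ Real.log n := by
      have h1 : Real.log 2 ≤ Real.log n := Real.log_le_log (by norm_num) hn'
      have h2 := Real.log_two_gt_d9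
      linarith
    have e1 : Real.exp (-(h * Real.log n) ^ 2 / 4) / |(h : ℝ)| ≤
        Real.exp (-(h * Real.log n) ^ 2 / 4) :=
      div_le_self (Real.exp_pos _).le hh
    refine e1.trans ?_
    have e2 : Real.exp 16 * (1 / (n : ℝ) ^ 2) * Real.exp (-|(h : ℝ)|) =
        Real.exp (16 - 2 * Real.log n - |(h : ℝ)|) := by
      have e3 : (1 / (n : ℝ) ^ 2) = Real.exp (-(2 * Real.log n)) := by
        rw [Real.exp_neg, mul_comm 2, Real.exp_mul, Real.exp_log hn0]
        norm_num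
      rw [e3, ← Real.exp_add, ← Real.exp_add, sub_eq_add_neg, sub_eq_add_neg]
    rw [e2]
    apply Real.exp_le_exp.2
    have e4 : (h * Real.log n) ^ 2 = (|(h : ℝ)| * Real.log n) ^ 2 := by
      rw [mul_pow, mul_pow, sq_abs]
    rw [e4]
    have e5 : 0 ≤ (|(h : ℝ)| * Real.log n / 2 - 4) ^ 2 := sq_nonneg _
    have e6 : 0 ≤ (|(h : ℝ)| - 1) * (Real.log n) :=
      mul_nonneg (by linarith) (by linarith)
    have e7 : 0 ≤ |(h : ℝ)| * (Real.log n - 1 / 2) :=
      mul_nonneg (by linarith) (by linarith)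
    nlinarith

/-- All frequencies for `y = 0`. -/
theorem p_ERZ : T_ERZ := by
  have h2 : Summable (fun n : ℕ => 1 / (n : ℝ) ^ 2) :=
    Real.summable_one_div_nat_pow.2 (by norm_num)
  refine ⟨Real.exp 16 * (∑' n : ℕ, 1 / (n : ℝ) ^ 2) * ∑' h : ℤ, Real.exp (-|(h : ℝ)|),
    fun M => ?_⟩
  have key : ∀ n ∈ Finset.Icc 2 M, ∑' h : ℤ, (if h = 0 then 0 else
      Real.exp (-(h * Real.log n) ^ 2 / 4) / |(h : ℝ)|) ≤
      Real.exp 16 * (1 / (n : ℝ) ^ 2) * ∑' h : ℤ, Real.exp (-|(h : ℝ)|) := by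
    intro n hn
    have hn2 : 2 ≤ n := (Finset.mem_Icc.1 hn).1
    rw [← tsum_mul_left]
    have hs : Summable (fun h : ℤ => Real.exp 16 * (1 / (n : ℝ) ^ 2) *
        Real.exp (-|(h : ℝ)|)) := ERZ_summable.mul_left _
    refine Summable.tsum_le_tsum (fun h => ERZ_term n hn2 h) ?_ hs
    refine Summable.of_nonneg_of_le (fun h => ?_) (fun h => ERZ_term n hn2 h) hs
    split_ifs
    · exact le_refl _
    · positivity
  have hH : 0 ≤ ∑' h : ℤ, Real.exp (-|(h : ℝ)|) := tsum_nonneg fun h => (Real.exp_pos _).le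
  calc ∑ n ∈ Finset.Icc 2 M, ∑' h : ℤ, (if h = 0 then 0 else
      Real.exp (-(h * Real.log n) ^ 2 / 4) / |(h : ℝ)|)
      ≤ ∑ n ∈ Finset.Icc 2 M, Real.exp 16 * (1 / (n : ℝ) ^ 2) *
          ∑' h : ℤ, Real.exp (-|(h : ℝ)|) := Finset.sum_le_sum key
    _ = Real.exp 16 * (∑ n ∈ Finset.Icc 2 M, 1 / (n : ℝ) ^ 2) *
          ∑' h : ℤ, Real.exp (-|(h : ℝ)|) := by
        rw [Finset.mul_sum, Finset.sum_mul]
    _ ≤ Real.exp 16 * (∑' n : ℕ, 1 / (n : ℝ) ^ 2) * ∑' h : ℤ, Real.exp (-|(h : ℝ)|) := by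
        apply mul_le_mul_of_nonneg_right _ hH
        apply mul_le_mul_of_nonneg_left _ (Real.exp_pos _).le
        exact h2.sum_le_tsum _ (fun n _ => by positivity)

end Pool.Agent.Ben
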