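import Pool.Agent.Ben.Targets

/-!
# An Erdős–Turán inequality for the sawtooth (target ET)
-/

set_option autoImplicit false

namespace Pool.Agent.Ben

open Complex MeasureTheory Set

lemma ET_norm_e (x : ℝ) : ‖e x‖ = 1 := by
  unfold e
  exact Complex.norm_exp_ofReal_mul_I _

lemma ET_e_add (x y : ℝ) : e (x + y) = e x * e y := by
  unfold e
  rw [← Complex.exp_add]
  congr 1
  push_cast
  ring

lemma ET_re_e (x : ℝ) : (e x).re = Real.cos (2 * Real.pi * x) := by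
  unfold e
  rw [Complex.exp_ofReal_mul_I_re]

lemma ET_sub_le (a b : ℝ) : ‖e a - e b‖ ≤ min 2 (2 * Real.pi * |a - b|) := by
  refine le_min ?_ ?_
  · calc ‖e a - e b‖ ≤ ‖e a‖ + ‖e b‖ := norm_sub_le _ _
      _ = 2 := by rw [ET_norm_e, ET_norm_e]; norm_num
  · have h1 : e a - e b = e b * (e (a - b) - 1) := by
      rw [mul_sub, ← ET_e_add, mul_one]
      congr 2
      ring
    rw [h1, norm_mul, ET_norm_e, one_mul]
    unfold e
    have h2 := Real.norm_exp_I_mul_ofReal_sub_one_le (x := 2 * Real.pi * (a - b))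
    rw [mul_comm] at h2
    refine h2.trans ?_
    rw [Real.norm_eq_abs, abs_mul, abs_of_pos (by positivity : (0 : ℝ) < 2 * Real.pi)]

lemma ET_term (N : ℕ) (x : ℕ → ℝ) (c₁ c₂ δ : ℝ) (hδ : 0 < δ) (hc : |c₁ - c₂| = δ) (h : ℕ) :
    |∑ n ∈ Finset.Icc 1 N,
      (Real.cos (2 * Real.pi * (h + 1) * (x n + c₁)) / (2 * Real.pi ^ 2 * (h + 1 : ℝ) ^ 2) -
      Real.cos (2 * Real.pi * (h + 1) * (x n + c₂)) / (2 * Real.pi ^ 2 * (h + 1 : ℝ) ^ 2))| / δ ≤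
    min (1 / (Real.pi * (h + 1))) (1 / (Real.pi ^ 2 * (h + 1) ^ 2 * δ)) *
      ‖∑ n ∈ Finset.Icc 1 N, e ((h + 1) * x n)‖ := by
  have hpi := Real.pi_pos
  have hh : (0 : ℝ) < (h : ℝ) + 1 := by positivity
  set S : ℂ := ∑ n ∈ Finset.Icc 1 N, e ((h + 1) * x n) with hS
  set D : ℂ := e ((h + 1) * c₁) - e ((h + 1) * c₂) with hD
  have h1 : ∑ n ∈ Finset.Icc 1 N,
      (Real.cos (2 * Real.pi * (h + 1) * (x n + c₁)) / (2 * Real.pi ^ 2 * (h + 1 : ℝ) ^ 2) -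
      Real.cos (2 * Real.pi * (h + 1) * (x n + c₂)) / (2 * Real.pi ^ 2 * (h + 1 : ℝ) ^ 2)) =
      (S * D).re / (2 * Real.pi ^ 2 * (h + 1 : ℝ) ^ 2) := by
    rw [hS, hD, Finset.sum_mul, Complex.re_sum, Finset.sum_div]
    refine Finset.sum_congr rfl fun n _ => ?_
    rw [mul_sub, ← ET_e_add, ← ET_e_add, Complex.sub_re, ET_re_e, ET_re_e, sub_div,
      show 2 * Real.pi * ((h + 1) * x n + (h + 1) * c₁) =
        2 * Real.pi * (h + 1) * (x n + c₁) by ring,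
      show 2 * Real.pi * ((h + 1) * x n + (h + 1) * c₂) =
        2 * Real.pi * (h + 1) * (x n + c₂) by ring]
  rw [h1, abs_div, abs_of_pos (by positivity : (0 : ℝ) < 2 * Real.pi ^ 2 * (h + 1 : ℝ) ^ 2)]
  have h2 : |(S * D).re| ≤ ‖S‖ * ‖D‖ := by
    rw [← norm_mul]
    exact Complex.abs_re_le_norm _
  have h3 : ‖D‖ ≤ min 2 (2 * Real.pi * ((h + 1) * δ)) := by
    refine (ET_sub_le _ _).trans (le_of_eq ?_)
    rw [← mul_sub, abs_mul, abs_of_pos hh, hc]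
  have h4 : |(S * D).re| / (2 * Real.pi ^ 2 * (h + 1 : ℝ) ^ 2) / δ ≤
      ‖S‖ * min 2 (2 * Real.pi * ((h + 1) * δ)) / (2 * Real.pi ^ 2 * (h + 1 : ℝ) ^ 2) / δ := by
    gcongr
    exact h2.trans (mul_le_mul_of_nonneg_left h3 (norm_nonneg _))
  refine h4.trans ?_
  have h5 : ‖S‖ * min 2 (2 * Real.pi * ((h + 1) * δ)) / (2 * Real.pi ^ 2 * (h + 1 : ℝ) ^ 2) / δ =
      (min 2 (2 * Real.pi * ((h + 1) * δ)) / (2 * Real.pi ^ 2 * (h + 1 : ℝ) ^ 2 * δ)) * ‖S‖ := by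
    field_simp
  rw [h5]
  refine mul_le_mul_of_nonneg_right ?_ (norm_nonneg _)
  refine le_min ?_ ?_
  · calc min 2 (2 * Real.pi * ((h + 1) * δ)) / (2 * Real.pi ^ 2 * (h + 1 : ℝ) ^ 2 * δ) ≤
        (2 * Real.pi * ((h + 1) * δ)) / (2 * Real.pi ^ 2 * (h + 1 : ℝ) ^ 2 * δ) := by
          gcongr
          exact min_le_right _ _
      _ = 1 / (Real.pi * (h + 1)) := by field_simp
  · calc min 2 (2 * Real.pi * ((h + 1) * δ)) / (2 * Real.pi ^ 2 * (h + 1 : ℝ) ^ 2 * δ) ≤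
        2 / (2 * Real.pi ^ 2 * (h + 1 : ℝ) ^ 2 * δ) := by
          gcongr
          exact min_le_left _ _
      _ = 1 / (Real.pi ^ 2 * (h + 1) ^ 2 * δ) := by field_simp

lemma ET_summable (N : ℕ) (x : ℕ → ℝ) (δ : ℝ) (hδ : 0 < δ) :
    Summable fun h : ℕ => min (1 / (Real.pi * (h + 1))) (1 / (Real.pi ^ 2 * (h + 1) ^ 2 * δ)) *
      ‖∑ n ∈ Finset.Icc 1 N, e ((h + 1) * x n)‖ := by
  have hpi := Real.pi_pos
  have h0 : Summable fun h : ℕ => 1 / ((h : ℝ) + 1) ^ 2 := by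
    have := (summable_nat_add_iff 1).2 (Real.summable_one_div_nat_pow.2 (by norm_num : 1 < 2))
    refine this.congr fun h => ?_
    push_cast
    rfl
  refine Summable.of_nonneg_of_le (fun h => ?_) (fun h => ?_) (h0.mul_left (N / (Real.pi ^ 2 * δ)))
  · have hh : (0 : ℝ) < (h : ℝ) + 1 := by positivity
    positivity
  · have hh : (0 : ℝ) < (h : ℝ) + 1 := by positivity
    have h1 : ‖∑ n ∈ Finset.Icc 1 N, e ((h + 1) * x n)‖ ≤ N := by
      refine (norm_sum_le _ _).trans ?_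
      simp [ET_norm_e]
    calc min (1 / (Real.pi * (h + 1))) (1 / (Real.pi ^ 2 * (h + 1) ^ 2 * δ)) *
        ‖∑ n ∈ Finset.Icc 1 N, e ((h + 1) * x n)‖ ≤
        (1 / (Real.pi ^ 2 * (h + 1) ^ 2 * δ)) * N :=
          mul_le_mul (min_le_right _ _) h1 (norm_nonneg _) (by positivity)
      _ = N / (Real.pi ^ 2 * δ) * (1 / ((h : ℝ) + 1) ^ 2) := by field_simp

lemma ET_diff (hphi : T_PHI) (N : ℕ) (x : ℕ → ℝ) (c₁ c₂ δ : ℝ) (hδ : 0 < δ)
    (hc : |c₁ - c₂| = δ) :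
    |∑ n ∈ Finset.Icc 1 N, ((Int.fract (x n + c₁) ^ 2 - Int.fract (x n + c₁) + 1 / 6) / 2 -
      (Int.fract (x n + c₂) ^ 2 - Int.fract (x n + c₂) + 1 / 6) / 2)| / δ ≤
    ∑' h : ℕ, min (1 / (Real.pi * (h + 1))) (1 / (Real.pi ^ 2 * (h + 1) ^ 2 * δ)) *
      ‖∑ n ∈ Finset.Icc 1 N, e ((h + 1) * x n)‖ := by
  have hs := ET_summable N x δ hδ
  have h1 : HasSum (fun h : ℕ => ∑ n ∈ Finset.Icc 1 N,
      (Real.cos (2 * Real.pi * (h + 1) * (x n + c₁)) / (2 * Real.pi ^ 2 * (h + 1 : ℝ) ^ 2) -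
      Real.cos (2 * Real.pi * (h + 1) * (x n + c₂)) / (2 * Real.pi ^ 2 * (h + 1 : ℝ) ^ 2)))
      (∑ n ∈ Finset.Icc 1 N, ((Int.fract (x n + c₁) ^ 2 - Int.fract (x n + c₁) + 1 / 6) / 2 -
      (Int.fract (x n + c₂) ^ 2 - Int.fract (x n + c₂) + 1 / 6) / 2)) :=
    hasSum_sum fun n _ => (hphi (x n + c₁)).sub (hphi (x n + c₂))
  have h2 := (h1.div_const δ)
  rw [← abs_of_pos hδ, ← abs_div, abs_of_pos hδ]
  rw [← h2.tsum_eq]
  have h3 : ∀ h : ℕ, ‖(∑ n ∈ Finset.Icc 1 N,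
      (Real.cos (2 * Real.pi * (h + 1) * (x n + c₁)) / (2 * Real.pi ^ 2 * (h + 1 : ℝ) ^ 2) -
      Real.cos (2 * Real.pi * (h + 1) * (x n + c₂)) / (2 * Real.pi ^ 2 * (h + 1 : ℝ) ^ 2))) / δ‖ ≤
      min (1 / (Real.pi * (h + 1))) (1 / (Real.pi ^ 2 * (h + 1) ^ 2 * δ)) *
      ‖∑ n ∈ Finset.Icc 1 N, e ((h + 1) * x n)‖ := by
    intro h
    rw [Real.norm_eq_abs, abs_div, abs_of_pos hδ]
    exact ET_term N x c₁ c₂ δ hδ hc h
  have h4 := tsum_of_norm_bounded hs.hasSum h3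
  rwa [Real.norm_eq_abs] at h4

theorem p_ET : T_ET := by
  intro hphi hsaw N x c δ hδ hδ1
  have h1 := ET_diff hphi N x c (c - δ) δ hδ (by rw [sub_sub_cancel]; exact abs_of_pos hδ)
  have h2 := ET_diff hphi N x (c + δ) c δ hδ (by rw [add_sub_cancel_left]; exact abs_of_pos hδ)
  set T : ℝ := ∑' h : ℕ, min (1 / (Real.pi * (h + 1))) (1 / (Real.pi ^ 2 * (h + 1) ^ 2 * δ)) *
      ‖∑ n ∈ Finset.Icc 1 N, e ((h + 1) * x n)‖ with hT
  rw [div_le_iff₀ hδ] at h1 h2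
  have h1' := (abs_le.1 h1).2
  have h2' := (abs_le.1 h2).1
  rw [abs_le]
  constructor
  · have h3 : ∑ n ∈ Finset.Icc 1 N, (((Int.fract (x n + (c + δ)) ^ 2 - Int.fract (x n + (c + δ)) +
        1 / 6) / 2 - (Int.fract (x n + c) ^ 2 - Int.fract (x n + c) + 1 / 6) / 2) / δ - δ / 2) ≤
        ∑ n ∈ Finset.Icc 1 N, psi (x n + c) := by
      refine Finset.sum_le_sum fun n _ => ?_
      have := (hsaw (x n + c) δ hδ hδ1).2
      rwa [add_assoc] at this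
    rw [Finset.sum_sub_distrib, ← Finset.sum_div, Finset.sum_const, Nat.card_Icc,
      Nat.add_sub_cancel, nsmul_eq_mul] at h3
    have h4 : -T ≤ (∑ n ∈ Finset.Icc 1 N, ((Int.fract (x n + (c + δ)) ^ 2 -
        Int.fract (x n + (c + δ)) + 1 / 6) / 2 -
        (Int.fract (x n + c) ^ 2 - Int.fract (x n + c) + 1 / 6) / 2)) / δ := by
      rw [le_div_iff₀ hδ]
      linarith
    linarith
  · have h3 : ∑ n ∈ Finset.Icc 1 N, psi (x n + c) ≤
        ∑ n ∈ Finset.Icc 1 N, (((Int.fract (x n + c) ^ 2 - Int.fract (x n + c) +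
        1 / 6) / 2 - (Int.fract (x n + (c - δ)) ^ 2 - Int.fract (x n + (c - δ)) + 1 / 6) / 2) / δ +
        δ / 2) := by
      refine Finset.sum_le_sum fun n _ => ?_
      have := (hsaw (x n + c) δ hδ hδ1).1
      rwa [add_sub_assoc] at this
    rw [Finset.sum_add_distrib, ← Finset.sum_div, Finset.sum_const, Nat.card_Icc,
      Nat.add_sub_cancel, nsmul_eq_mul] at h3
    have h4 : (∑ n ∈ Finset.Icc 1 N, ((Int.fract (x n + c) ^ 2 -
        Int.fract (x n + c) + 1 / 6) / 2 -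
        (Int.fract (x n + (c - δ)) ^ 2 - Int.fract (x n + (c - δ)) + 1 / 6) / 2)) / δ ≤ T := by
      rw [div_le_iff₀ hδ]
      linarith
    linarith

end Pool.Agent.Ben
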