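import Pool.Agent.Ben.Targets

/-!
# Block EXPS: the Lindelöf hypothesis gives square root bounds for `∑ n^(-iT)`
-/

set_option autoImplicit false

namespace Pool.Agent.Ben

open Complex MeasureTheory Set

private lemma EXPS_low (v : ℝ) : (1 + |v|) / 3 ≤ ‖((1 / 2 : ℝ) + v * I : ℂ)‖ := by
  have h1 : |v| ≤ ‖((1 / 2 : ℝ) + v * I : ℂ)‖ := by
    have := Complex.abs_im_le_norm ((1 / 2 : ℝ) + v * I : ℂ)
    simpa using this
  have h2 : (1 / 2 : ℝ) ≤ ‖((1 / 2 : ℝ) + v * I : ℂ)‖ := by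
    have := Complex.abs_re_le_norm ((1 / 2 : ℝ) + v * I : ℂ)
    have h3 : ((1 / 2 : ℝ) + v * I : ℂ).re = 1 / 2 := by simp
    rw [h3, abs_of_pos (by norm_num)] at this
    exact this
  have h0 := abs_nonneg v
  linarith

private lemma EXPS_low' (v : ℝ) : (1 + |v|) / 3 ≤ ‖((1 / 2 : ℝ) + v * I : ℂ) + 1‖ := by
  have h1 : |v| ≤ ‖((1 / 2 : ℝ) + v * I : ℂ) + 1‖ := by
    have := Complex.abs_im_le_norm (((1 / 2 : ℝ) + v * I : ℂ) + 1)
    simpa using this
  have h2 : (1 / 2 : ℝ) ≤ ‖((1 / 2 : ℝ) + v * I : ℂ) + 1‖ := by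
    have := Complex.abs_re_le_norm (((1 / 2 : ℝ) + v * I : ℂ) + 1)
    have h3 : (((1 / 2 : ℝ) + v * I : ℂ) + 1).re = 1 / 2 + 1 := by simp
    rw [h3, abs_of_pos (by norm_num)] at this
    linarith
  have h0 := abs_nonneg v
  linarith

/-- the bound for `RR N` on the critical line -/
private lemma EXPS_RR (hR : T_RB) {N : ℕ} (hN : 1 ≤ N) (v : ℝ) {θ : ℝ} (h0 : 0 < θ)
    (h1 : θ ≤ 1) :
    ‖RR N ((1 / 2 : ℝ) + v * I)‖ ≤
      3 * (N + 1 : ℝ) ^ (1 / 2 : ℝ) * (6 * (N + 1 : ℝ)) ^ θ * (1 + |v|) ^ (-(1 + θ)) := by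
  have hre : ((1 / 2 : ℝ) + v * I : ℂ).re = 1 / 2 := by simp
  obtain ⟨hb1, hb2⟩ := hR N hN ((1 / 2 : ℝ) + v * I) (by rw [hre]; norm_num)
  rw [hre] at hb1 hb2
  set X := ‖RR N ((1 / 2 : ℝ) + v * I)‖ with hX
  have hs := EXPS_low v
  have hs' := EXPS_low' v
  set a := ‖((1 / 2 : ℝ) + v * I : ℂ)‖ with ha
  set b := ‖((1 / 2 : ℝ) + v * I : ℂ) + 1‖ with hb
  have hv : 0 < 1 + |v| := by have := abs_nonneg v; linarith
  have hapos : 0 < a := lt_of_lt_of_le (by positivity) hs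
  have hbpos : 0 < b := lt_of_lt_of_le (by positivity) hs'
  have hNp : (0 : ℝ) < N + 1 := by positivity
  set p := (N + 1 : ℝ) ^ (1 / 2 : ℝ) with hp
  have hpp : 0 < p := Real.rpow_pos_of_pos hNp _
  set c := 2 * (N + 1 : ℝ) / b with hc
  have hcp : 0 < c := by positivity
  have e1 : 2 * (N + 1 : ℝ) ^ (1 / 2 + 1 : ℝ) / (a * b) = p / a * c := by
    rw [Real.rpow_add hNp, Real.rpow_one, hc, hp]
    field_simp
  rw [e1] at hb1
  have h2 : X ≤ p / a * c ^ θ := by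
    have hpa : 0 ≤ p / a := by positivity
    rcases le_total c 1 with h | h
    · refine hb1.trans (mul_le_mul_of_nonneg_left ?_ hpa)
      have := Real.rpow_le_rpow_of_exponent_ge hcp h h1
      rwa [Real.rpow_one] at this
    · refine hb2.trans ?_
      have := Real.one_le_rpow h h0.le
      calc p / a = p / a * 1 := (mul_one _).symm
        _ ≤ p / a * c ^ θ := mul_le_mul_of_nonneg_left this hpa
  refine h2.trans ?_
  have h3 : p / a ≤ 3 * p * (1 + |v|)⁻¹ := by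
    rw [div_le_iff₀ hapos]
    have h4 : (1 : ℝ) ≤ 3 * (1 + |v|)⁻¹ * a := by
      rw [mul_comm (3 : ℝ), mul_assoc, ← div_eq_inv_mul, le_div_iff₀ hv]
      linarith
    nlinarith
  have h5 : c ^ θ ≤ (6 * (N + 1 : ℝ)) ^ θ * (1 + |v|) ^ (-θ) := by
    rw [Real.rpow_neg hv.le, ← div_eq_mul_inv, ← Real.div_rpow (by positivity) hv.le]
    refine Real.rpow_le_rpow hcp.le ?_ h0.le
    rw [hc, div_le_div_iff₀ hbpos hv]
    nlinarith
  have h6 : 0 ≤ c ^ θ := Real.rpow_nonneg hcp.le _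
  calc p / a * c ^ θ ≤ (3 * p * (1 + |v|)⁻¹) * ((6 * (N + 1 : ℝ)) ^ θ * (1 + |v|) ^ (-θ)) :=
        mul_le_mul h3 h5 h6 (by positivity)
    _ = 3 * p * (6 * (N + 1 : ℝ)) ^ θ * ((1 + |v|) ^ (-1 : ℝ) * (1 + |v|) ^ (-θ)) := by
        rw [Real.rpow_neg_one]
        ring
    _ = 3 * p * (6 * (N + 1 : ℝ)) ^ θ * (1 + |v|) ^ (-(1 + θ)) := by
        rw [← Real.rpow_add hv]
        congr 2
        ring

theorem p_EXPS : T_EXPS := by
  intro hF hS hI hM hR hSh hK hP hLH ε hε K hKpos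
  set ε' := min ε 1 / 8 with hε'def
  have hε' : 0 < ε' := by
    have : 0 < min ε 1 := lt_min hε one_pos
    positivity
  have h81 : 8 * ε' ≤ 1 := by
    rw [hε'def]
    linarith [min_le_right ε 1]
  have h8ε : 8 * ε' ≤ ε := by
    rw [hε'def]
    linarith [min_le_left ε 1]
  obtain ⟨C0, hC0⟩ := hLH ε' hε'
  have hC0n : 0 ≤ C0 := by
    have h := hC0 0
    simp only [abs_zero, add_zero, Real.one_rpow, mul_one] at h
    exact (norm_nonneg _).trans h
  have hint : Integrable (fun v : ℝ => (1 + ‖v‖) ^ (-(1 + ε'))) := by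
    refine integrable_one_add_norm ?_
    simp only [Module.finrank_self, Nat.cast_one]
    linarith
  set J := ∫ v : ℝ, (1 + ‖v‖) ^ (-(1 + ε')) with hJ
  have hJ0 : 0 ≤ J := integral_nonneg fun v => by positivity
  refine ⟨(2 * K + 1) + 12 * (12 * K) ^ (2 * ε') * (C0 + 2) * J, fun T hT N hN hNK => ?_⟩
  have hT0 : 0 < T := by linarith
  have hNr : (1 : ℝ) ≤ N := by exact_mod_cast hN
  have hN2 : (N + 1 : ℝ) ≤ 2 * N := by linarith
  have hN3 : (N + 1 : ℝ) ≤ 2 * K * T := by linarith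
  have hsq : (1 : ℝ) ≤ √(N : ℝ) := by
    rw [show (1 : ℝ) = √1 by simp]
    exact Real.sqrt_le_sqrt hNr
  have hTe : (1 : ℝ) ≤ T ^ ε := Real.one_le_rpow hT hε.le
  rw [hF hS hI hM hR hSh hK N hN T]
  refine (norm_add_le _ _).trans ?_
  have hA : ‖∫ x in (1 : ℝ)..(N + 1), (rho N x : ℂ) * (x : ℂ) ^ (-(T * I) : ℂ)‖ ≤
      (2 * K + 1) * √(N : ℝ) * T ^ ε := by
    refine (hP N hN T hT).trans ?_
    have h1 : (N + 1 : ℝ) / T ≤ 2 * K := by
      rw [div_le_iff₀ hT0]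
      exact hN3
    have h2 : (1 : ℝ) ≤ √(N : ℝ) * T ^ ε := by nlinarith
    have h3 : 0 ≤ 2 * K + 1 := by positivity
    calc (N + 1 : ℝ) / T + 1 ≤ (2 * K + 1) * 1 := by linarith
      _ ≤ (2 * K + 1) * (√(N : ℝ) * T ^ ε) := mul_le_mul_of_nonneg_left h2 h3
      _ = _ := by ring
  have hB : ‖((1 / (2 * Real.pi) : ℝ) : ℂ) * ∫ v : ℝ, RR N (1 / 2 + v * I) *
      (riemannZeta (1 / 2 + (T + v : ℝ) * I) - 1 / (-1 / 2 + (T + v : ℝ) * I))‖ ≤
      12 * (12 * K) ^ (2 * ε') * (C0 + 2) * J * √(N : ℝ) * T ^ ε := by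
    set D := 6 * (N + 1 : ℝ) ^ (1 / 2 : ℝ) * (6 * (N + 1 : ℝ)) ^ (2 * ε') * (C0 + 2) * T ^ ε'
      with hD
    have hD0 : 0 ≤ D := by positivity
    have hpt : ∀ v : ℝ, ‖RR N (1 / 2 + v * I) *
        (riemannZeta (1 / 2 + (T + v : ℝ) * I) - 1 / (-1 / 2 + (T + v : ℝ) * I))‖ ≤
        D * (1 + ‖v‖) ^ (-(1 + ε')) := by
      intro v
      rw [norm_mul]
      have h1 := EXPS_RR hR hN v (θ := 2 * ε') (by positivity) (by linarith)
      have e0 : ((1 / 2 : ℝ) + v * I : ℂ) = 1 / 2 + v * I := by push_cast; ring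
      rw [e0] at h1
      have hv : 0 < 1 + |v| := by have := abs_nonneg v; linarith
      have h2 : ‖riemannZeta (1 / 2 + (T + v : ℝ) * I) - 1 / (-1 / 2 + (T + v : ℝ) * I)‖ ≤
          2 * (C0 + 2) * T ^ ε' * (1 + |v|) ^ ε' := by
        have h3 : ‖(1 : ℂ) / (-1 / 2 + (T + v : ℝ) * I)‖ ≤ 2 := by
          rw [norm_div, norm_one]
          have h4 : (1 / 2 : ℝ) ≤ ‖(-1 / 2 + (T + v : ℝ) * I : ℂ)‖ := by
            have := Complex.abs_re_le_norm (-1 / 2 + (T + v : ℝ) * I : ℂ)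
            have h5 : (-1 / 2 + (T + v : ℝ) * I : ℂ).re = -1 / 2 := by simp
            rw [h5] at this
            have h6 : |(-1 / 2 : ℝ)| = 1 / 2 := by rw [abs_of_neg] <;> norm_num
            rw [h6] at this
            exact this
          rw [div_le_iff₀ (by linarith)]
          linarith
        have h4 := hC0 (T + v)
        have h5 : (1 : ℝ) ≤ (1 + |T + v|) ^ ε' :=
          Real.one_le_rpow (by have := abs_nonneg (T + v); linarith) hε'.le
        have h6 : (1 + |T + v|) ^ ε' ≤ 2 * T ^ ε' * (1 + |v|) ^ ε' := by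
          have h7 : 1 + |T + v| ≤ (2 * T) * (1 + |v|) := by
            have h8 := abs_add_le T v
            rw [abs_of_pos hT0] at h8
            have h9 := abs_nonneg v
            nlinarith
          calc (1 + |T + v|) ^ ε' ≤ ((2 * T) * (1 + |v|)) ^ ε' :=
                Real.rpow_le_rpow (by positivity) h7 hε'.le
            _ = 2 ^ ε' * T ^ ε' * (1 + |v|) ^ ε' := by
                rw [Real.mul_rpow (by positivity) hv.le, Real.mul_rpow (by norm_num) hT0.le]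
            _ ≤ 2 * T ^ ε' * (1 + |v|) ^ ε' := by
                have h8 : (2 : ℝ) ^ ε' ≤ 2 := by
                  have := Real.rpow_le_rpow_of_exponent_le (x := 2) (by norm_num)
                    (show ε' ≤ 1 by linarith)
                  rwa [Real.rpow_one] at this
                have h9 : 0 ≤ T ^ ε' := Real.rpow_nonneg hT0.le _
                have h10 : 0 ≤ (1 + |v|) ^ ε' := Real.rpow_nonneg hv.le _
                gcongr
        calc ‖riemannZeta (1 / 2 + (T + v : ℝ) * I) - 1 / (-1 / 2 + (T + v : ℝ) * I)‖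
            ≤ ‖riemannZeta (1 / 2 + (T + v : ℝ) * I)‖ + ‖(1 : ℂ) / (-1 / 2 + (T + v : ℝ) * I)‖ :=
              norm_sub_le _ _
          _ ≤ C0 * (1 + |T + v|) ^ ε' + 2 := add_le_add h4 h3
          _ ≤ (C0 + 2) * (1 + |T + v|) ^ ε' := by nlinarith
          _ ≤ (C0 + 2) * (2 * T ^ ε' * (1 + |v|) ^ ε') :=
              mul_le_mul_of_nonneg_left h6 (by positivity)
          _ = _ := by ring
      refine (mul_le_mul h1 h2 (norm_nonneg _) (by positivity)).trans (le_of_eq ?_)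
      rw [Real.norm_eq_abs, hD]
      have h3 : (1 + |v|) ^ (-(1 + ε')) = (1 + |v|) ^ (-(1 + 2 * ε')) * (1 + |v|) ^ ε' := by
        rw [← Real.rpow_add hv]
        congr 1
        ring
      rw [h3]
      ring
    have h1 : ‖∫ v : ℝ, RR N (1 / 2 + v * I) *
        (riemannZeta (1 / 2 + (T + v : ℝ) * I) - 1 / (-1 / 2 + (T + v : ℝ) * I))‖ ≤ D * J := by
      have := norm_integral_le_of_norm_le (hint.const_mul D) (Filter.Eventually.of_forall hpt)
      rwa [integral_const_mul] at this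
    rw [norm_mul]
    have h2 : ‖((1 / (2 * Real.pi) : ℝ) : ℂ)‖ ≤ 1 := by
      rw [Complex.norm_real, Real.norm_eq_abs, abs_of_pos (by positivity),
        div_le_one (by positivity)]
      linarith [Real.pi_gt_three]
    have h3 : D ≤ 12 * (12 * K) ^ (2 * ε') * (C0 + 2) * √(N : ℝ) * T ^ ε := by
      have h4 : (N + 1 : ℝ) ^ (1 / 2 : ℝ) ≤ 2 * √(N : ℝ) := by
        rw [← Real.sqrt_eq_rpow]
        calc √(N + 1 : ℝ) ≤ √(4 * N : ℝ) := Real.sqrt_le_sqrt (by linarith)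
          _ = 2 * √(N : ℝ) := by
              rw [Real.sqrt_mul (by norm_num)]
              congr 1
              rw [show (4 : ℝ) = 2 ^ 2 by norm_num]
              exact Real.sqrt_sq (by norm_num)
      have h5 : (6 * (N + 1 : ℝ)) ^ (2 * ε') ≤ (12 * K) ^ (2 * ε') * T ^ (2 * ε') := by
        rw [← Real.mul_rpow (by positivity) hT0.le]
        refine Real.rpow_le_rpow (by positivity) (by linarith) (by positivity)
      have h6 : T ^ (2 * ε') * T ^ ε' ≤ T ^ ε := by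
        rw [← Real.rpow_add hT0]
        exact Real.rpow_le_rpow_of_exponent_le hT (by linarith)
      have h7 : 0 ≤ T ^ ε' := Real.rpow_nonneg hT0.le _
      calc D = 6 * (N + 1 : ℝ) ^ (1 / 2 : ℝ) * (6 * (N + 1 : ℝ)) ^ (2 * ε') * (C0 + 2) *
            T ^ ε' := hD
        _ ≤ 6 * (2 * √(N : ℝ)) * ((12 * K) ^ (2 * ε') * T ^ (2 * ε')) * (C0 + 2) * T ^ ε' := by
            gcongr
        _ = 12 * (12 * K) ^ (2 * ε') * (C0 + 2) * √(N : ℝ) * (T ^ (2 * ε') * T ^ ε') := by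
            ring
        _ ≤ 12 * (12 * K) ^ (2 * ε') * (C0 + 2) * √(N : ℝ) * T ^ ε := by gcongr
    calc ‖((1 / (2 * Real.pi) : ℝ) : ℂ)‖ * ‖∫ v : ℝ, RR N (1 / 2 + v * I) *
          (riemannZeta (1 / 2 + (T + v : ℝ) * I) - 1 / (-1 / 2 + (T + v : ℝ) * I))‖
        ≤ 1 * (D * J) := mul_le_mul h2 h1 (norm_nonneg _) zero_le_one
      _ ≤ 1 * ((12 * (12 * K) ^ (2 * ε') * (C0 + 2) * √(N : ℝ) * T ^ ε) * J) := by gcongr
      _ = _ := by ring
  calc _ ≤ (2 * K + 1) * √(N : ℝ) * T ^ ε +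
        12 * (12 * K) ^ (2 * ε') * (C0 + 2) * J * √(N : ℝ) * T ^ ε := add_le_add hA hB
    _ = _ := by ring

end Pool.Agent.Ben
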