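import Pool.Agent.Ben.Targets

/-!
# Ben: the contour shift assembled (target FORM)
-/

set_option autoImplicit false

namespace Pool.Agent.Ben

open Complex MeasureTheory Set

theorem FORM_norm_ge {c y : ℝ} (hc : 1 / 2 ≤ c) : (1 + |y|) / 3 ≤ ‖((c : ℂ) + y * I)‖ := by
  have h1 : |y| ≤ ‖((c : ℂ) + y * I)‖ := by
    have := Complex.abs_im_le_norm ((c : ℂ) + y * I)
    simpa using this
  have h2 : (1 / 2 : ℝ) ≤ ‖((c : ℂ) + y * I)‖ := by
    have := Complex.abs_re_le_norm ((c : ℂ) + y * I)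
    have h3 : ((c : ℂ) + y * I).re = c := by simp
    rw [h3] at this
    exact hc.trans ((le_abs_self c).trans this)
  linarith

theorem FORM_RR_diff {N : ℕ} (hN : 1 ≤ N) {s : ℂ} (hs : 0 < s.re) :
    DifferentiableAt ℂ (RR N) s := by
  have hN0 : ((N : ℝ) : ℂ) ≠ 0 := by
    have : (N : ℝ) ≠ 0 := by positivity
    exact_mod_cast this
  have hN1 : ((N + 1 : ℝ) : ℂ) ≠ 0 := by
    have : (N + 1 : ℝ) ≠ 0 := by positivity
    exact_mod_cast this
  have hs0 : s ≠ 0 := by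
    rintro rfl
    simp at hs
  have hs1 : s + 1 ≠ 0 := by
    intro h
    have := congrArg Complex.re h
    simp at this
    linarith
  unfold RR
  have h1 : DifferentiableAt ℂ (fun s : ℂ => s + 1) s := by fun_prop
  refine DifferentiableAt.div ?_ (by fun_prop) (mul_ne_zero hs0 hs1)
  exact (h1.const_cpow (Or.inl hN1)).sub (h1.const_cpow (Or.inl hN0))

theorem p_FORM : T_FORM := by
  intro hSUM hINV hMEL hRB hSHF hKB N hN T
  obtain ⟨K, hKd, hKe, C, hKC⟩ := hKB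
  have hC : 0 ≤ C := by
    have h1 := hKC 1 (by norm_num) (by norm_num)
    have h2 : C * (1 + |(1 : ℂ).im|) ^ (1 / 2 : ℝ) = C := by simp
    rw [h2] at h1
    exact (norm_nonneg _).trans h1
  set f : ℂ → ℂ := fun s => RR N s * K (s + T * I) with hf
  have hdiff : ∀ s : ℂ, (1 / 2 : ℝ) ≤ s.re → s.re ≤ (2 : ℝ) → DifferentiableAt ℂ f s := by
    intro s h1 h2
    have hs : 0 < s.re := by linarith
    have h3 : DifferentiableAt ℂ K (s + T * I) := hKd _ (by simpa using hs)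
    have h4 : DifferentiableAt ℂ (fun s : ℂ => K (s + T * I)) s :=
      DifferentiableAt.comp s h3 (by fun_prop)
    exact (FORM_RR_diff hN hs).mul h4
  set M : ℝ := 2 * (N + 1 : ℝ) ^ (3 : ℝ) * 9 * (C * (1 + |T|) ^ (1 / 2 : ℝ)) with hM
  have hbd : ∀ c y : ℝ, (1 / 2 : ℝ) ≤ c → c ≤ (2 : ℝ) →
      ‖f (c + y * I)‖ ≤ M * (1 + |y|) ^ (-(3 / 2) : ℝ) := by
    intro c y h1 h2
    have hy : 0 < 1 + |y| := by positivity
    have hre : ((c : ℂ) + y * I).re = c := by simp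
    have hb := (hRB N hN ((c : ℂ) + y * I) (by rw [hre]; linarith)).1
    rw [hre] at hb
    have hn1 : (1 + |y|) / 3 ≤ ‖((c : ℂ) + y * I)‖ := FORM_norm_ge h1
    have hn2 : (1 + |y|) / 3 ≤ ‖((c : ℂ) + y * I) + 1‖ := by
      have h3 : ((c : ℂ) + y * I) + 1 = (((c + 1 : ℝ) : ℂ) + y * I) := by push_cast; ring
      rw [h3]
      exact FORM_norm_ge (by linarith)
    have hpow : (N + 1 : ℝ) ^ (c + 1) ≤ (N + 1 : ℝ) ^ (3 : ℝ) :=
      Real.rpow_le_rpow_of_exponent_le (by linarith [(Nat.cast_nonneg N : (0 : ℝ) ≤ N)])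
        (by linarith)
    have hR : ‖RR N ((c : ℂ) + y * I)‖ ≤
        2 * (N + 1 : ℝ) ^ (3 : ℝ) * 9 * (1 + |y|) ^ (-2 : ℝ) := by
      refine hb.trans ?_
      have h5 : (0 : ℝ) < (1 + |y|) / 3 * ((1 + |y|) / 3) := by positivity
      have h6 : (1 + |y|) / 3 * ((1 + |y|) / 3) ≤
          ‖((c : ℂ) + y * I)‖ * ‖((c : ℂ) + y * I) + 1‖ :=
        mul_le_mul hn1 hn2 (by positivity) (norm_nonneg _)
      have h7 : 2 * (N + 1 : ℝ) ^ (c + 1) /
          (‖((c : ℂ) + y * I)‖ * ‖((c : ℂ) + y * I) + 1‖) ≤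
          2 * (N + 1 : ℝ) ^ (3 : ℝ) / ((1 + |y|) / 3 * ((1 + |y|) / 3)) :=
        div_le_div₀ (by positivity) (by linarith) h5 h6
      refine h7.trans (le_of_eq ?_)
      have h8 : (1 + |y|) ^ (-2 : ℝ) = ((1 + |y|) ^ 2)⁻¹ := by
        rw [Real.rpow_neg hy.le]
        norm_cast
      rw [h8]
      field_simp
      try ring
    have hKb : ‖K ((c : ℂ) + y * I + T * I)‖ ≤
        C * ((1 + |T|) ^ (1 / 2 : ℝ) * (1 + |y|) ^ (1 / 2 : ℝ)) := by
      have hre2 : ((c : ℂ) + y * I + T * I).re = c := by simp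
      have him2 : ((c : ℂ) + y * I + T * I).im = y + T := by simp
      have h3 := hKC ((c : ℂ) + y * I + T * I) (by rw [hre2]; exact h1)
        (by rw [hre2]; exact h2)
      rw [him2] at h3
      refine h3.trans (mul_le_mul_of_nonneg_left ?_ hC)
      rw [← Real.mul_rpow (by positivity) (by positivity)]
      refine Real.rpow_le_rpow (by positivity) ?_ (by norm_num)
      have h4 := abs_add_le y T
      nlinarith [abs_nonneg y, abs_nonneg T, mul_nonneg (abs_nonneg y) (abs_nonneg T)]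
    have hprod : ‖f (c + y * I)‖ = ‖RR N ((c : ℂ) + y * I)‖ *
        ‖K ((c : ℂ) + y * I + T * I)‖ := by
      simp only [hf, norm_mul]
    rw [hprod]
    refine (mul_le_mul hR hKb (norm_nonneg _) (by positivity)).trans (le_of_eq ?_)
    have h9 : (1 + |y|) ^ (-(3 / 2) : ℝ) = (1 + |y|) ^ (-2 : ℝ) * (1 + |y|) ^ (1 / 2 : ℝ) := by
      rw [← Real.rpow_add hy]
      norm_num
    rw [h9, hM]
    ring
  have hshift := hSHF f (1 / 2) 2 M (by norm_num) hdiff hbd
  have hsum := hSUM hINV hMEL hRB N hN T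
  rw [hsum]
  congr 2
  have e2 : ∀ v : ℝ, RR N (2 + v * I) *
      (riemannZeta (2 + (T + v : ℝ) * I) - 1 / (1 + (T + v : ℝ) * I)) =
      f (((2 : ℝ) : ℂ) + v * I) := by
    intro v
    have h1 : (((2 : ℝ) : ℂ) + v * I) + T * I = 2 + ((T + v : ℝ) : ℂ) * I := by
      push_cast
      ring
    have h2 : (2 + ((T + v : ℝ) : ℂ) * I) ≠ 1 := by
      intro h
      have := congrArg Complex.re h
      simp at this
    simp only [hf]
    rw [h1, hKe _ (by simp) h2]
    have h3 : (2 + ((T + v : ℝ) : ℂ) * I) - 1 = 1 + ((T + v : ℝ) : ℂ) * I := by ring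
    rw [h3]
    norm_num
  have e1 : ∀ v : ℝ, RR N (1 / 2 + v * I) *
      (riemannZeta (1 / 2 + (T + v : ℝ) * I) - 1 / (-1 / 2 + (T + v : ℝ) * I)) =
      f (((1 / 2 : ℝ) : ℂ) + v * I) := by
    intro v
    have h0 : ((1 / 2 : ℝ) : ℂ) = 1 / 2 := by norm_num
    have h1 : (((1 / 2 : ℝ) : ℂ) + v * I) + T * I = 1 / 2 + ((T + v : ℝ) : ℂ) * I := by
      push_cast
      ring
    have h2 : (1 / 2 + ((T + v : ℝ) : ℂ) * I) ≠ 1 := by
      intro h
      have := congrArg Complex.re h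
      norm_num at this
    simp only [hf]
    rw [h1, hKe _ (by norm_num) h2, h0]
    have h3 : (1 / 2 + ((T + v : ℝ) : ℂ) * I) - 1 = -1 / 2 + ((T + v : ℝ) : ℂ) * I := by ring
    rw [h3]
  simp only [e1, e2]
  exact hshift.symm

end Pool.Agent.Ben
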