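import Pool.Agent.Ben.Targets

set_option autoImplicit false

/-!
# LH gives the discrepancy of `t log n` (block FWD)
-/

namespace Pool.Agent.Ben

open Complex MeasureTheory Set

/-- the minimum of the two coefficients -/
lemma FWD_min (H δ θ : ℝ) (hH : 1 ≤ H) (hδ : 0 < δ) (h0 : 0 ≤ θ) (h1 : θ ≤ 1) :
    min (1 / (Real.pi * H)) (1 / (Real.pi ^ 2 * H ^ 2 * δ)) ≤ H ^ (-(1 + θ)) * δ ^ (-θ) := by
  have hH0 : 0 < H := by linarith
  have hpi : 1 ≤ Real.pi := by linarith [Real.pi_gt_three]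
  have hpi0 := Real.pi_pos
  have ha : 1 / (Real.pi * H) ≤ H⁻¹ := by
    rw [one_div]
    exact inv_anti₀ hH0 (by nlinarith)
  have hb : 1 / (Real.pi ^ 2 * H ^ 2 * δ) ≤ (H ^ 2 * δ)⁻¹ := by
    rw [one_div]
    refine inv_anti₀ (by positivity) ?_
    have : 1 ≤ Real.pi ^ 2 := by nlinarith
    nlinarith [mul_pos (pow_pos hH0 2) hδ]
  set m := min (1 / (Real.pi * H)) (1 / (Real.pi ^ 2 * H ^ 2 * δ)) with hm
  have hm0 : 0 < m := lt_min (by positivity) (by positivity)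
  have hma : m ≤ H⁻¹ := (min_le_left _ _).trans ha
  have hmb : m ≤ (H ^ 2 * δ)⁻¹ := (min_le_right _ _).trans hb
  have e1 : m = m ^ (1 - θ) * m ^ θ := by
    rw [← Real.rpow_add hm0]
    simp
  have e2 : m ^ (1 - θ) ≤ H⁻¹ ^ (1 - θ) := Real.rpow_le_rpow hm0.le hma (by linarith)
  have e3 : m ^ θ ≤ (H ^ 2 * δ)⁻¹ ^ θ := Real.rpow_le_rpow hm0.le hmb h0
  have e4 : H⁻¹ ^ (1 - θ) * (H ^ 2 * δ)⁻¹ ^ θ = H ^ (-(1 + θ)) * δ ^ (-θ) := by
    rw [Real.inv_rpow hH0.le, Real.inv_rpow (by positivity),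
      Real.mul_rpow (by positivity) hδ.le, ← Real.rpow_natCast, ← Real.rpow_mul hH0.le,
      mul_inv, ← mul_assoc, ← Real.rpow_neg hH0.le, ← Real.rpow_neg hH0.le,
      ← Real.rpow_neg hδ.le, ← Real.rpow_add hH0]
    congr 2
    push_cast
    ring
  calc m = m ^ (1 - θ) * m ^ θ := e1
    _ ≤ H⁻¹ ^ (1 - θ) * (H ^ 2 * δ)⁻¹ ^ θ :=
      mul_le_mul e2 e3 (Real.rpow_nonneg hm0.le _) (by positivity)
    _ = _ := e4

/-- the exponential sums are zeta sums -/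
lemma FWD_norm (N : ℕ) (H t : ℝ) :
    ‖∑ n ∈ Finset.Icc 1 N, e (H * (t * Real.log n))‖ =
      ‖∑ n ∈ Finset.Icc 1 N, (n : ℂ) ^ (-((2 * Real.pi * H * t : ℝ) * I) : ℂ)‖ := by
  rw [← Complex.norm_conj, map_sum]
  congr 1
  refine Finset.sum_congr rfl fun n hn => ?_
  have hn1 : 1 ≤ n := (Finset.mem_Icc.1 hn).1
  have hn0 : (n : ℂ) ≠ 0 := by
    exact_mod_cast (by omega : n ≠ 0)
  rw [Complex.cpow_def_of_ne_zero hn0, ← Complex.natCast_log]
  unfold e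
  rw [← Complex.exp_conj]
  congr 1
  rw [map_mul, Complex.conj_I, Complex.conj_ofReal]
  push_cast
  ring

theorem p_FWD : T_FWD := by
  intro hET hE _ _ ε hε K hK
  obtain ⟨C, hC⟩ := hE (min ε 1 / 4) (by positivity) K hK
  set η : ℝ := min ε 1 / 4 with hη
  have hη0 : 0 < η := by positivity
  have hη1 : η ≤ 1 / 4 := by
    have := min_le_right ε 1
    rw [hη]
    linarith
  have hηε : 2 * η ≤ ε := by
    have := min_le_left ε 1
    rw [hη]
    have : (0 : ℝ) < min ε 1 := by positivity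
    linarith
  have hsum : Summable (fun h : ℕ => ((h : ℝ) + 1) ^ (-(1 + η))) := by
    have h1 : Summable (fun h : ℕ => (h : ℝ) ^ (-(1 + η))) :=
      Real.summable_nat_rpow.2 (by linarith)
    have h2 := (summable_nat_add_iff 1).2 h1
    refine h2.congr fun h => ?_
    push_cast
    rfl
  set Z : ℝ := ∑' h : ℕ, ((h : ℝ) + 1) ^ (-(1 + η)) with hZ
  have hZ0 : 0 ≤ Z := tsum_nonneg fun h => by positivity
  refine ⟨1 / 2 + |C| * (2 * Real.pi) ^ η * K ^ η * Z, ?_⟩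
  intro t ht N hN hNK c
  have ht0 : 0 < t := by linarith
  have hN0 : (0 : ℝ) < N := by exact_mod_cast hN
  have hN1 : (1 : ℝ) ≤ N := by exact_mod_cast hN
  have hs0 : 0 < √(N : ℝ) := Real.sqrt_pos.2 hN0
  have hs1 : 1 ≤ √(N : ℝ) := Real.one_le_sqrt.2 hN1
  have hpi := Real.pi_gt_three
  have hδ0 : 0 < (√(N : ℝ))⁻¹ := inv_pos.2 hs0
  have hδ1 : (√(N : ℝ))⁻¹ ≤ 1 := inv_le_one_of_one_le₀ hs1
  have key := hET ‹_› ‹_› N (fun n => t * Real.log n) c (√(N : ℝ))⁻¹ hδ0 hδ1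
  have hδN : (N : ℝ) * (√(N : ℝ))⁻¹ / 2 = 1 / 2 * √(N : ℝ) := by
    have : (N : ℝ) = √(N : ℝ) * √(N : ℝ) := (Real.mul_self_sqrt hN0.le).symm
    field_simp
    rw [sq, ← this]
  -- the bound for one frequency
  have hterm : ∀ h : ℕ, min (1 / (Real.pi * (h + 1)))
      (1 / (Real.pi ^ 2 * (h + 1) ^ 2 * (√(N : ℝ))⁻¹)) *
        ‖∑ n ∈ Finset.Icc 1 N, e ((h + 1) * (t * Real.log n))‖ ≤
      (|C| * (2 * Real.pi) ^ η * K ^ η * √(N : ℝ) * t ^ (2 * η)) *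
        ((h : ℝ) + 1) ^ (-(1 + η)) := by
    intro h
    have hH1 : (1 : ℝ) ≤ h + 1 := by
      have : (0 : ℝ) ≤ h := Nat.cast_nonneg h
      linarith
    have hH0 : (0 : ℝ) < h + 1 := by linarith
    have h1 := FWD_min (h + 1) (√(N : ℝ))⁻¹ (2 * η) hH1 hδ0 (by linarith) (by linarith)
    have hT : t ≤ 2 * Real.pi * (h + 1) * t := by
      have : 1 ≤ 2 * Real.pi * ((h : ℝ) + 1) := by nlinarith
      nlinarith
    have h2 := hC (2 * Real.pi * (h + 1) * t) (ht.trans hT) N hN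
      (hNK.trans (mul_le_mul_of_nonneg_left hT hK.le))
    rw [FWD_norm]
    have h3 : ‖∑ n ∈ Finset.Icc 1 N,
        (n : ℂ) ^ (-((2 * Real.pi * (h + 1) * t : ℝ) * I) : ℂ)‖ ≤
        |C| * √(N : ℝ) * ((2 * Real.pi) ^ η * ((h : ℝ) + 1) ^ η * t ^ η) := by
      refine h2.trans ?_
      rw [Real.mul_rpow (by positivity) ht0.le, Real.mul_rpow (by positivity) hH0.le]
      have : C * √(N : ℝ) ≤ |C| * √(N : ℝ) :=
        mul_le_mul_of_nonneg_right (le_abs_self C) hs0.le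
      exact mul_le_mul_of_nonneg_right this (by positivity)
    have h4 : ((√(N : ℝ))⁻¹) ^ (-(2 * η)) ≤ K ^ η * t ^ η := by
      rw [Real.inv_rpow hs0.le, Real.rpow_neg hs0.le, inv_inv, Real.sqrt_eq_rpow,
        ← Real.rpow_mul hN0.le, ← Real.mul_rpow hK.le ht0.le]
      have : (1 / 2 : ℝ) * (2 * η) = η := by ring
      rw [this]
      exact Real.rpow_le_rpow hN0.le hNK hη0.le
    have h5 : (0 : ℝ) ≤ ((h : ℝ) + 1) ^ (-(1 + 2 * η)) := by positivity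
    calc _ ≤ (((h : ℝ) + 1) ^ (-(1 + 2 * η)) * ((√(N : ℝ))⁻¹) ^ (-(2 * η))) *
          (|C| * √(N : ℝ) * ((2 * Real.pi) ^ η * ((h : ℝ) + 1) ^ η * t ^ η)) := by
            refine mul_le_mul h1 h3 (norm_nonneg _) (by positivity)
      _ ≤ (((h : ℝ) + 1) ^ (-(1 + 2 * η)) * (K ^ η * t ^ η)) *
          (|C| * √(N : ℝ) * ((2 * Real.pi) ^ η * ((h : ℝ) + 1) ^ η * t ^ η)) := by
            refine mul_le_mul_of_nonneg_right (mul_le_mul_of_nonneg_left h4 h5) (by positivity)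
      _ = (|C| * (2 * Real.pi) ^ η * K ^ η * √(N : ℝ) * (t ^ η * t ^ η)) *
          (((h : ℝ) + 1) ^ (-(1 + 2 * η)) * ((h : ℝ) + 1) ^ η) := by ring
      _ = _ := by
            rw [← Real.rpow_add ht0, ← Real.rpow_add hH0]
            congr 2
            · congr 1
              ring
            · ring
  have hsum2 := hsum.mul_left (|C| * (2 * Real.pi) ^ η * K ^ η * √(N : ℝ) * t ^ (2 * η))
  have hsum1 : Summable (fun h : ℕ => min (1 / (Real.pi * (h + 1)))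
      (1 / (Real.pi ^ 2 * (h + 1) ^ 2 * (√(N : ℝ))⁻¹)) *
        ‖∑ n ∈ Finset.Icc 1 N, e ((h + 1) * (t * Real.log n))‖) := by
    refine Summable.of_nonneg_of_le (fun h => ?_) hterm hsum2
    have : (0 : ℝ) ≤ h := Nat.cast_nonneg h
    refine mul_nonneg (le_min (by positivity) (by positivity)) (norm_nonneg _)
  have htot := hsum1.tsum_le_tsum hterm hsum2
  rw [tsum_mul_left] at htot
  have ht1 : t ^ (2 * η) ≤ t ^ ε := Real.rpow_le_rpow_of_exponent_le ht hηε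
  have ht2 : 1 ≤ t ^ ε := Real.one_le_rpow ht hε.le
  rw [hδN] at key
  refine key.trans ((add_le_add_right htot _).trans ?_)
  have f1 : 1 / 2 * √(N : ℝ) ≤ 1 / 2 * √(N : ℝ) * t ^ ε :=
    le_mul_of_one_le_right (by positivity) ht2
  have f2 : |C| * (2 * Real.pi) ^ η * K ^ η * √(N : ℝ) * t ^ (2 * η) * Z ≤
      |C| * (2 * Real.pi) ^ η * K ^ η * √(N : ℝ) * t ^ ε * Z :=
    mul_le_mul_of_nonneg_right (mul_le_mul_of_nonneg_left ht1 (by positivity)) hZ0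
  calc _ ≤ 1 / 2 * √(N : ℝ) * t ^ ε +
        |C| * (2 * Real.pi) ^ η * K ^ η * √(N : ℝ) * t ^ ε * Z := add_le_add f1 f2
    _ = _ := by ring

end Pool.Agent.Ben
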