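import Pool.Agent.Ben.Targets

/-!
# LH and Benford's law, block GAU
-/

set_option autoImplicit false

namespace Pool.Agent.Ben

open Complex MeasureTheory Set

theorem p_GAU : T_GAU := by
  intro hMAIN hMEAN hL1 hFOU hERR hERZ G B κ hA hκ hc hU ε hε
  obtain ⟨C₁, hC₁, h₁⟩ := hMAIN hFOU hERR
  obtain ⟨C₂, h₂⟩ := hL1 hMEAN hFOU hERZ G B κ hA hκ hU ε hε
  have hB : 0 ≤ B := (abs_nonneg _).trans (hA.bdd 0)
  have hk : 0 < ‖coef G 1‖ := norm_pos_iff.mpr hc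
  refine ⟨(C₁ * C₂ + C₁ * B * (1 + (κ / 2) ^ ε / ε)) / ‖coef G 1‖, ?_⟩
  intro t ht M hM hMt N hN hNM
  have ht0 : (0 : ℝ) < t := by linarith
  have hN0 : (0 : ℝ) < N := by linarith
  have hlog : 0 ≤ Real.log N := Real.log_nonneg hN
  have hte : 1 ≤ t ^ ε := Real.one_le_rpow ht hε.le
  have hy : 1 + Real.log N ≤ (1 + (κ / 2) ^ ε / ε) * t ^ ε := by
    have e1 : Real.log N ≤ N ^ ε / ε := Real.log_le_rpow_div hN0.le hε
    have e2 : N ^ ε ≤ (κ / 2) ^ ε * t ^ ε := by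
      rw [← Real.mul_rpow (by positivity) ht0.le]
      exact Real.rpow_le_rpow hN0.le (hNM.trans hMt) hε.le
    have e3 : N ^ ε / ε ≤ (κ / 2) ^ ε * t ^ ε / ε := by gcongr
    calc 1 + Real.log N ≤ t ^ ε + (κ / 2) ^ ε * t ^ ε / ε := by linarith
      _ = (1 + (κ / 2) ^ ε / ε) * t ^ ε := by ring
  have hexp : Real.exp (Real.log N / 2) = √N := by
    rw [Real.sqrt_eq_rpow, Real.rpow_def_of_pos hN0]
    congr 1
    ring
  have hsq : √N ≤ √(M : ℝ) := Real.sqrt_le_sqrt hNM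
  have hm := h₁ G B hA t (Real.log N) M hlog
  have hl := h₂ t ht M hM hMt
  rw [hexp] at hm
  have hk2 : 0 ≤ (κ / 2) ^ ε / ε := by positivity
  have h3 : C₁ * (∫ u : ℝ, |∑ n ∈ Finset.Icc 1 M, G ((t + u) * Real.log n)| * w u) ≤
      C₁ * (C₂ * √(M : ℝ) * t ^ ε) := mul_le_mul_of_nonneg_left hl hC₁
  have h4 : C₁ * B * √N * (1 + Real.log N) ≤
      C₁ * B * √(M : ℝ) * ((1 + (κ / 2) ^ ε / ε) * t ^ ε) := by
    gcongr
  rw [div_mul_eq_mul_div, div_mul_eq_mul_div, le_div_iff₀ hk]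
  calc _ = ‖coef G 1‖ * ‖∑ n ∈ Finset.Icc 1 M, e (t * Real.log n) *
        (Real.exp (-(Real.log n - Real.log N) ^ 2 / 4) : ℝ)‖ := by ring
    _ ≤ _ := hm
    _ ≤ C₁ * (C₂ * √(M : ℝ) * t ^ ε) +
      C₁ * B * √(M : ℝ) * ((1 + (κ / 2) ^ ε / ε) * t ^ ε) := add_le_add h3 h4
    _ = _ := by ring

end Pool.Agent.Ben
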