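import Pool.Agent.Ben.Targets7
import Pool.Agent.Ben.P_VDIGB

/-!
# Block GDIGB: one digit, one-sided, exponent `a`, range `N ≤ x ^ β`
-/

set_option autoImplicit false

namespace Pool.Agent.Ben

open Complex MeasureTheory Set

theorem p_GDIGB : G_DIGB := by
  intro j d β a hd hjd h
  rcases h with h | h
  · refine ⟨VDIGB_f j d, VDIGB_meas j d, VDIGB_per j d, VDIGB_bdd j d, ?_, ?_⟩
    · rintro ⟨c, hc⟩
      exact VDIGB_nonconst hd hjd c hc
    · intro ε hε
      obtain ⟨C, hC⟩ := h ε hε
      refine ⟨C, fun x h1 N hN hx => ?_⟩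
      rw [VDIGB_count, VDIGB_integral, ← Real.sqrt_eq_rpow]
      exact hC x h1 N hN hx
  · refine ⟨fun y => - VDIGB_f j d y, (VDIGB_meas j d).neg, ?_, ?_, ?_, ?_⟩
    · intro y
      show - VDIGB_f j d (y + 1) = - VDIGB_f j d y
      rw [VDIGB_per j d y]
    · intro y
      rw [abs_neg]
      exact VDIGB_bdd j d y
    · rintro ⟨c, hc⟩
      refine VDIGB_nonconst hd hjd (-c) ?_
      filter_upwards [hc] with y hy
      rw [← hy, neg_neg]
    · intro ε hε
      obtain ⟨C, hC⟩ := h ε hε
      refine ⟨C, fun x h1 N hN hx => ?_⟩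
      rw [Finset.sum_neg_distrib, VDIGB_count, intervalIntegral.integral_neg, VDIGB_integral,
        ← Real.sqrt_eq_rpow]
      have := hC x h1 N hN hx
      linarith

end Pool.Agent.Ben
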