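import Pool.Agent.Ben.Targets7

/-!
# Ben-GL1: a one-sided bound gives an `L¹` bound
-/

set_option autoImplicit false

namespace Pool.Agent.Ben

open MeasureTheory

private theorem GL1_w_pos (u : ℝ) : 0 < w u := Real.exp_pos _

private theorem GL1_w_int : Integrable w := by
  have h : (0 : ℝ) < 4 * Real.pi ^ 2 := by positivity
  have := integrable_exp_neg_mul_sq h
  refine this.congr (Filter.Eventually.of_forall fun u => ?_)
  unfold w
  ring_nf

private theorem GL1_w2_int : Integrable fun u : ℝ => u ^ 2 * w u := by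
  have h : (0 : ℝ) < 4 * Real.pi ^ 2 := by positivity
  have := integrable_rpow_mul_exp_neg_mul_sq h (s := 2) (by norm_num)
  refine this.congr (Filter.Eventually.of_forall fun u => ?_)
  unfold w
  simp only [Real.rpow_two]
  ring_nf

private theorem GL1_w_cont : Continuous w := by
  unfold w
  fun_prop

theorem p_GL1 : V_MEAN → G_L1 := by
  intro hMEAN m hm G B κ β θ a hG hκ hβ0 hβ1 hθ ha hU ε₀ hε₀
  obtain ⟨C₀, hC₀, hM⟩ := hMEAN m hm
  have hm1 : (1 : ℝ) ≤ m := by exact_mod_cast hm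
  have hmu : ∀ u : ℝ, |u / m| ≤ |u| := by
    intro u
    rw [abs_div, abs_of_pos (by linarith : (0 : ℝ) < m)]
    exact div_le_self (abs_nonneg u) hm1
  obtain ⟨C₁, hC₁⟩ := hU ε₀ hε₀
  have hε : 0 < a + ε₀ := by linarith
  generalize a + ε₀ = ε at *
  have hB : 0 ≤ B := (abs_nonneg _).trans (hG.bdd 0)
  set W0 : ℝ := ∫ u : ℝ, w u with hW0
  set W2 : ℝ := ∫ u : ℝ, u ^ 2 * w u with hW2
  have hW0' : 0 ≤ W0 := integral_nonneg fun u => (GL1_w_pos u).le
  have hW2' : 0 ≤ W2 := integral_nonneg fun u => mul_nonneg (sq_nonneg u) (GL1_w_pos u).le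
  refine ⟨2 * (|C₁| * (3 / 2) ^ ε + B * κ) * W0 + 4 * B * κ * W2 + C₀ * B, ?_⟩
  intro t ht N hN hNtβ
  have hNt : (N : ℝ) ≤ κ / 2 * t := by
    refine hNtβ.trans (mul_le_mul_of_nonneg_left ?_ (by positivity))
    calc t ^ β ≤ t ^ (1 : ℝ) := Real.rpow_le_rpow_of_exponent_le ht hβ1
      _ = t := Real.rpow_one t
  set F : ℝ → ℝ := fun u => ∑ n ∈ Finset.Icc 1 N, G ((t + u / m) * Real.log n) with hF
  have hFm : Measurable F := by
    refine Finset.measurable_sum _ fun n _ => ?_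
    exact hG.meas.comp (by fun_prop)
  have hFb : ∀ u, |F u| ≤ B * N := by
    intro u
    calc |F u| ≤ ∑ n ∈ Finset.Icc 1 N, |G ((t + u / m) * Real.log n)| :=
          Finset.abs_sum_le_sum_abs _ _
      _ ≤ ∑ _n ∈ Finset.Icc 1 N, B := Finset.sum_le_sum fun n _ => hG.bdd _
      _ = B * N := by simp [mul_comm]
  have hFw : Integrable fun u => F u * w u := by
    refine Integrable.bdd_mul (c := B * N) GL1_w_int hFm.aestronglyMeasurable ?_
    exact Filter.Eventually.of_forall fun u => by rw [Real.norm_eq_abs]; exact hFb u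
  have hAw : Integrable fun u => |F u| * w u := by
    refine Integrable.bdd_mul (c := B * N) GL1_w_int hFm.abs.aestronglyMeasurable ?_
    exact Filter.Eventually.of_forall fun u => by
      rw [Real.norm_eq_abs, abs_abs]; exact hFb u
  have hN1 : (1 : ℝ) ≤ N := by exact_mod_cast hN
  have hs1 : 1 ≤ (N : ℝ) ^ θ := Real.one_le_rpow hN1 hθ
  have ht0 : 0 < t := by linarith
  have htε : 1 ≤ t ^ ε := Real.one_le_rpow ht hε.le
  -- the pointwise bound
  have hpt : ∀ u, F u ≤ |C₁| * (3 / 2) ^ ε * ((N : ℝ) ^ θ * t ^ ε) + B * κ + 2 * B * κ * u ^ 2 := by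
    intro u
    have h1 : 0 ≤ |C₁| * (3 / 2) ^ ε * ((N : ℝ) ^ θ * t ^ ε) := by positivity
    have h2 : 0 ≤ B * κ := by positivity
    have h3 : 0 ≤ 2 * B * κ * u ^ 2 := by positivity
    have h4 : F u ≤ B * N := (le_abs_self _).trans (hFb u)
    rcases lt_or_ge t 2 with h5 | h5
    · have h6 : B * N ≤ B * κ := mul_le_mul_of_nonneg_left (by nlinarith) hB
      linarith
    rcases le_or_gt |u| (t / 2) with h6 | h6
    · have h7 := abs_le.1 ((hmu u).trans h6)
      have h8 : (1 : ℝ) ≤ t + u / m := by linarith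
      have h9 : (N : ℝ) ≤ κ * (t + u / m) ^ β := by
        have q1 : (1 / 2 : ℝ) ≤ (1 / 2 : ℝ) ^ β := by
          calc (1 / 2 : ℝ) = (1 / 2 : ℝ) ^ (1 : ℝ) := (Real.rpow_one _).symm
            _ ≤ (1 / 2 : ℝ) ^ β :=
              Real.rpow_le_rpow_of_exponent_ge (by norm_num) (by norm_num) hβ1
        have q2 : (1 / 2 : ℝ) * t ^ β ≤ (t / 2) ^ β := by
          rw [show t / 2 = 1 / 2 * t by ring, Real.mul_rpow (by norm_num) ht0.le]
          exact mul_le_mul_of_nonneg_right q1 (by positivity)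
        have q3 : (t / 2) ^ β ≤ (t + u / m) ^ β :=
          Real.rpow_le_rpow (by positivity) (by linarith) hβ0.le
        calc (N : ℝ) ≤ κ / 2 * t ^ β := hNtβ
          _ = κ * (1 / 2 * t ^ β) := by ring
          _ ≤ κ * (t + u / m) ^ β := mul_le_mul_of_nonneg_left (q2.trans q3) hκ.le
      have h10 := hC₁ (t + u / m) h8 N hN h9
      have h11 : (t + u / m) ^ ε ≤ (3 / 2) ^ ε * t ^ ε := by
        rw [← Real.mul_rpow (by norm_num) ht0.le]
        exact Real.rpow_le_rpow (by linarith) (by linarith) hε.le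
      have h12 : C₁ * (N : ℝ) ^ θ * (t + u / m) ^ ε ≤ |C₁| * (3 / 2) ^ ε * ((N : ℝ) ^ θ * t ^ ε) := by
        calc C₁ * (N : ℝ) ^ θ * (t + u / m) ^ ε ≤ |C₁| * (N : ℝ) ^ θ * (t + u / m) ^ ε := by
              refine mul_le_mul_of_nonneg_right (mul_le_mul_of_nonneg_right (le_abs_self _)
                (Real.rpow_nonneg (by linarith) _)) (Real.rpow_nonneg (by linarith) _)
          _ ≤ |C₁| * (N : ℝ) ^ θ * ((3 / 2) ^ ε * t ^ ε) :=
              mul_le_mul_of_nonneg_left h11 (by positivity)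
          _ = |C₁| * (3 / 2) ^ ε * ((N : ℝ) ^ θ * t ^ ε) := by ring
      have h13 : F u ≤ C₁ * (N : ℝ) ^ θ * (t + u / m) ^ ε := h10
      linarith
    · have h7 : (t / 2) ^ 2 ≤ u ^ 2 := by
        rw [← sq_abs u]
        exact pow_le_pow_left₀ (by positivity) h6.le 2
      have h8 : (N : ℝ) ≤ 2 * κ * u ^ 2 := by
        calc (N : ℝ) ≤ κ / 2 * t := hNt
          _ ≤ κ / 2 * t * t := le_mul_of_one_le_right (by positivity) ht
          _ = 2 * κ * (t / 2) ^ 2 := by ring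
          _ ≤ 2 * κ * u ^ 2 := mul_le_mul_of_nonneg_left h7 (by positivity)
      have h9 : B * N ≤ 2 * B * κ * u ^ 2 := by
        calc B * N ≤ B * (2 * κ * u ^ 2) := mul_le_mul_of_nonneg_left h8 hB
          _ = 2 * B * κ * u ^ 2 := by ring
      linarith
  set D : ℝ := |C₁| * (3 / 2) ^ ε * ((N : ℝ) ^ θ * t ^ ε) + B * κ with hD
  have hD0 : 0 ≤ D := by positivity
  have hle : ∀ u, |F u| * w u ≤ (2 * D) * w u + (4 * B * κ) * (u ^ 2 * w u) - F u * w u := by
    intro u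
    have h1 := hpt u
    have h2 : |F u| ≤ 2 * D + 4 * B * κ * u ^ 2 - F u := by
      have h3 : 0 ≤ 2 * B * κ * u ^ 2 := by positivity
      rcases abs_cases (F u) with ⟨h4, _⟩ | ⟨h4, _⟩
      · rw [h4]; linarith
      · rw [h4]; linarith
    calc |F u| * w u ≤ (2 * D + 4 * B * κ * u ^ 2 - F u) * w u :=
          mul_le_mul_of_nonneg_right h2 (GL1_w_pos u).le
      _ = _ := by ring
  have hint : ∫ u : ℝ, |F u| * w u ≤ (2 * D) * W0 + (4 * B * κ) * W2 - ∫ u : ℝ, F u * w u := by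
    have i1 : Integrable fun u : ℝ => (2 * D) * w u := GL1_w_int.const_mul _
    have i2 : Integrable fun u : ℝ => (4 * B * κ) * (u ^ 2 * w u) := GL1_w2_int.const_mul _
    have i12 : Integrable fun u : ℝ => (2 * D) * w u + (4 * B * κ) * (u ^ 2 * w u) :=
      i1.add i2
    calc ∫ u : ℝ, |F u| * w u ≤
          ∫ u : ℝ, ((2 * D) * w u + (4 * B * κ) * (u ^ 2 * w u) - F u * w u) :=
          integral_mono hAw (i12.sub hFw) hle
      _ = _ := by
          rw [integral_sub i12 hFw, integral_add i1 i2, integral_const_mul,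
            integral_const_mul]
  have hmean := hM G B hG t N
  have h20 : -(∫ u : ℝ, F u * w u) ≤ C₀ * B := (neg_le_abs _).trans hmean
  have hst : 1 ≤ (N : ℝ) ^ θ * t ^ ε := one_le_mul_of_one_le_of_one_le hs1 htε
  have e1 : (2 * D) * W0 ≤ 2 * (|C₁| * (3 / 2) ^ ε + B * κ) * W0 * ((N : ℝ) ^ θ * t ^ ε) := by
    have h1 : D ≤ (|C₁| * (3 / 2) ^ ε + B * κ) * ((N : ℝ) ^ θ * t ^ ε) := by
      rw [hD, add_mul]
      have : B * κ ≤ B * κ * ((N : ℝ) ^ θ * t ^ ε) := le_mul_of_one_le_right (by positivity) hst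
      linarith
    calc (2 * D) * W0 ≤ (2 * ((|C₁| * (3 / 2) ^ ε + B * κ) * ((N : ℝ) ^ θ * t ^ ε))) * W0 :=
          mul_le_mul_of_nonneg_right (by linarith) hW0'
      _ = _ := by ring
  have e2 : (4 * B * κ) * W2 ≤ 4 * B * κ * W2 * ((N : ℝ) ^ θ * t ^ ε) :=
    le_mul_of_one_le_right (by positivity) hst
  have e3 : C₀ * B ≤ C₀ * B * ((N : ℝ) ^ θ * t ^ ε) :=
    le_mul_of_one_le_right (by positivity) hst
  calc ∫ u : ℝ, |F u| * w u ≤ (2 * D) * W0 + (4 * B * κ) * W2 + C₀ * B := by linarith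
    _ ≤ 2 * (|C₁| * (3 / 2) ^ ε + B * κ) * W0 * ((N : ℝ) ^ θ * t ^ ε) +
        4 * B * κ * W2 * ((N : ℝ) ^ θ * t ^ ε) + C₀ * B * ((N : ℝ) ^ θ * t ^ ε) := by linarith
    _ = _ := by ring

end Pool.Agent.Ben
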