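import Pool.Agent.Ben.Targets4
import Pool.Agent.DBN.WinGrow
import Pool.Agent.DBN.Good
import Pool.Agent.DBN.Const
import Pool.Agent.DBN.SumThree

/-!
# Ben, version 3, target `W_LH`: the exponents of all smoothed sums give the growth exponent
-/

set_option autoImplicit false

namespace Pool.Agent.Ben

open Complex MeasureTheory Set

theorem WLH_mono {b a : ℝ} (ha : 0 ≤ a) (h : Pool.Agent.DBN.SumLe b 0) :
    Pool.Agent.DBN.SumLe b a := by
  intro ε hε
  obtain ⟨δ, hδ, C, h1⟩ := h ε hε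
  refine ⟨δ, hδ, |C|, fun T N hT hN hN2 => ?_⟩
  have h2 := h1 T N hT hN hN2
  have hT1 : 1 ≤ T := by linarith
  have h3 : T ^ (0 + ε) ≤ T ^ (a + ε) := Real.rpow_le_rpow_of_exponent_le hT1 (by linarith)
  have h4 : 0 ≤ T ^ (0 + ε) := by positivity
  calc _ ≤ C * T ^ (0 + ε) := h2
    _ ≤ |C| * T ^ (0 + ε) := mul_le_mul_of_nonneg_right (le_abs_self C) h4
    _ ≤ |C| * T ^ (a + ε) := mul_le_mul_of_nonneg_left h3 (abs_nonneg C)

theorem WLH_lind {a : ℝ} (ha : 0 ≤ a) (h : Pool.Agent.DBN.MuLe (1 / 2) a) : Lind a := by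
  intro ε hε
  obtain ⟨C, h1⟩ := h ε hε
  have hcont : Continuous fun t : ℝ => ‖riemannZeta (1 / 2 + t * I)‖ := by
    rw [continuous_iff_continuousAt]
    intro t
    have h2 : ContinuousAt riemannZeta (1 / 2 + t * I) := by
      apply (differentiableAt_riemannZeta _).continuousAt
      intro h3
      have := congrArg Complex.re h3
      norm_num at this
    have h3 : ContinuousAt (fun t : ℝ => (1 / 2 : ℂ) + t * I) t := by fun_prop
    exact (ContinuousAt.comp (f := fun t : ℝ => (1 / 2 : ℂ) + t * I) h2 h3).norm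
  obtain ⟨B, hB⟩ := (isCompact_Icc.image (s := Icc (-2 : ℝ) 2) hcont).bddAbove
  refine ⟨|C| + |B|, fun t => ?_⟩
  have hae : 0 ≤ a + ε := by linarith
  have hp : 1 ≤ (1 + |t|) ^ (a + ε) := Real.one_le_rpow (by linarith [abs_nonneg t]) hae
  have key : ∀ T : ℝ, 2 ≤ T → ‖riemannZeta (1 / 2 + T * I)‖ ≤ |C| * (1 + |T|) ^ (a + ε) := by
    intro T hT
    have h2 := h1 T hT
    have e1 : (((1 / 2 : ℝ) : ℂ) + T * I) = 1 / 2 + T * I := by push_cast; ring
    rw [e1] at h2
    refine h2.trans ?_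
    rw [abs_of_pos (by linarith : 0 < T)]
    have h3 : T ^ (a + ε) ≤ (1 + T) ^ (a + ε) :=
      Real.rpow_le_rpow (by linarith) (by linarith) hae
    have h4 : 0 ≤ T ^ (a + ε) := by positivity
    calc C * T ^ (a + ε) ≤ |C| * T ^ (a + ε) := mul_le_mul_of_nonneg_right (le_abs_self C) h4
      _ ≤ _ := mul_le_mul_of_nonneg_left h3 (abs_nonneg C)
  have hB0 := abs_nonneg B
  have hC0 := abs_nonneg C
  rcases le_total 2 |t| with h2 | h2
  · have h3 : ‖riemannZeta (1 / 2 + t * I)‖ ≤ |C| * (1 + |t|) ^ (a + ε) := by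
      rcases le_total 0 t with h4 | h4
      · rw [abs_of_nonneg h4] at h2
        exact key t h2
      · rw [abs_of_nonpos h4] at h2
        have h5 := key (-t) h2
        have e2 : (1 / 2 + ((-t : ℝ) : ℂ) * I : ℂ) =
            (starRingEnd ℂ) (1 / 2 + (t : ℂ) * I) := by
          apply Complex.ext <;> simp
        rw [e2, riemannZeta_conj, Complex.norm_conj, abs_neg] at h5
        exact h5
    nlinarith
  · have h3 : ‖riemannZeta (1 / 2 + t * I)‖ ≤ B := hB ⟨t, abs_le.mp h2, rfl⟩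
    have h4 := le_abs_self B
    nlinarith

open Pool.Agent.DBN in
theorem p_WLH : W_LH := by
  intro a ha h
  have hg : GrowthLe 0 a := by
    rw [growth_iff_sum]
    intro α h0 h1
    have e1 : a - 0 * (α - 1 / 2) ^ 2 / 4 = a := by ring
    rw [e1]
    rcases eq_or_lt_of_le h1 with h2 | h2
    · subst h2
      have h3 := sumLe_three 1 h0 le_rfl
      have e2 : (3 * ((1 : ℝ) * (1 - 1)) / 4) = 0 := by ring
      rw [e2] at h3
      exact WLH_mono ha h3
    · exact h α h0 h2
  exact WLH_lind ha (growth_zero.mp hg)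

end Pool.Agent.Ben
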