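import Pool.Agent.Ben.Targets7
import Pool.Agent.Ben.P_WLH
import Pool.Agent.DBN.WinSumE

/-!
# Ben, target `G_LH`: sums of length `T ^ b`, `b < β`, `β > 1/2`, are enough
-/

set_option autoImplicit false

namespace Pool.Agent.Ben

open Complex MeasureTheory Set

open Pool.Agent.DBN in
theorem p_GLH : G_LH := by
  intro β a hβ ha h
  have hg : GrowthLe 0 a := by
    rw [growth_iff_sum]
    intro α h0 h1
    have e1 : a - 0 * (α - 1 / 2) ^ 2 / 4 = a := by ring
    rw [e1]
    rcases le_total α (1 / 2) with h2 | h2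
    · exact h α h0 (by linarith)
    · have h3 : SumLe (1 / 2 + (1 / 2 - α)) a := by
        have e2 : 1 / 2 + (1 / 2 - α) = 1 - α := by ring
        rw [e2]
        exact h (1 - α) (by linarith) (by linarith)
      have hy : |1 / 2 - α| ≤ 1 / 2 := abs_le.2 ⟨by linarith, by linarith⟩
      have h4 : WinLe (1 / 2 - α) a := (winLe_iff hy ha).2 h3
      have h5 : WinLe (-(1 / 2 - α)) a := winLe_neg h4
      have hy2 : |-(1 / 2 - α)| ≤ 1 / 2 := by
        rw [abs_neg]
        exact hy
      have h6 := (winLe_iff hy2 ha).1 h5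
      have e3 : 1 / 2 + -(1 / 2 - α) = α := by ring
      rwa [e3] at h6
  exact WLH_lind ha (growth_zero.mp hg)

end Pool.Agent.Ben
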