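import Pool.Agent.Ben.Targets6

/-!
# Y_MS: the mean square of a Dirichlet polynomial
-/

set_option autoImplicit false

namespace Pool.Agent.Ben

open Complex MeasureTheory Set

/-- the weight -/
noncomputable def YMS_w (M n : ℕ) : ℝ := Real.exp (-(Real.log n - Real.log M) ^ 2 / 4)

theorem YMS_w_pos (M n : ℕ) : 0 < YMS_w M n := Real.exp_pos _

theorem YMS_w_le (M n : ℕ) : YMS_w M n ≤ 1 := by
  unfold YMS_w
  rw [Real.exp_le_one_iff]
  have := sq_nonneg (Real.log n - Real.log M)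
  linarith

theorem YMS_normSq (M : ℕ) (t : ℝ) :
    ‖∑ n ∈ Finset.Icc 1 M, e (t * Real.log n) * (YMS_w M n : ℝ)‖ ^ 2 =
      ∑ m ∈ Finset.Icc 1 M, ∑ n ∈ Finset.Icc 1 M, YMS_w M m * YMS_w M n *
        Real.cos (2 * Real.pi * (Real.log m - Real.log n) * t) := by
  have h0 : ∀ n : ℕ, e (t * Real.log n) * (YMS_w M n : ℝ) =
      ((YMS_w M n * Real.cos (2 * Real.pi * (t * Real.log n)) : ℝ) : ℂ) +
      ((YMS_w M n * Real.sin (2 * Real.pi * (t * Real.log n)) : ℝ) : ℂ) * I := by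
    intro n
    unfold e
    rw [Complex.exp_mul_I, ← Complex.ofReal_cos, ← Complex.ofReal_sin]
    push_cast
    ring
  rw [Finset.sum_congr rfl (fun n _ => h0 n), Finset.sum_add_distrib, ← Finset.sum_mul,
    ← Complex.ofReal_sum, ← Complex.ofReal_sum, Complex.sq_norm, Complex.normSq_add_mul_I]
  rw [sq, sq, Finset.sum_mul_sum, Finset.sum_mul_sum, ← Finset.sum_add_distrib]
  refine Finset.sum_congr rfl (fun m _ => ?_)
  rw [← Finset.sum_add_distrib]
  refine Finset.sum_congr rfl (fun n _ => ?_)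
  have h1 : 2 * Real.pi * (Real.log m - Real.log n) * t =
      2 * Real.pi * (t * Real.log m) - 2 * Real.pi * (t * Real.log n) := by ring
  rw [h1, Real.cos_sub]
  ring

theorem YMS_log (M m n : ℕ) (hm : m ∈ Finset.Icc 1 M) (hn : n ∈ Finset.Icc 1 M) (hmn : m ≠ n) :
    1 / (M : ℝ) ≤ |Real.log m - Real.log n| := by
  wlog h : n < m generalizing m n with H
  · rw [abs_sub_comm]
    exact H n m hn hm hmn.symm (by omega)
  rw [Finset.mem_Icc] at hm hn
  have hm0 : (0 : ℝ) < m := by exact_mod_cast hm.1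
  have hn0 : (0 : ℝ) < n := by exact_mod_cast hn.1
  have h1 := Real.one_sub_inv_le_log_of_pos (div_pos hm0 hn0)
  rw [Real.log_div hm0.ne' hn0.ne', inv_div] at h1
  refine le_trans ?_ (le_abs_self _)
  refine le_trans ?_ h1
  have h2 : (1 : ℝ) - n / m = (m - n) / m := by
    field_simp
  rw [h2, div_le_div_iff₀ (by exact_mod_cast (by omega : 0 < M)) hm0]
  have h3 : (n : ℝ) + 1 ≤ m := by exact_mod_cast h
  have h4 : (m : ℝ) ≤ M := by exact_mod_cast hm.2
  have h5 : (0 : ℝ) < M := lt_of_lt_of_le hm0 h4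
  nlinarith

theorem YMS_int (a T U : ℝ) (ha : a ≠ 0) :
    ∫ t in T..U, Real.cos (a * t) = (Real.sin (a * U) - Real.sin (a * T)) / a := by
  rw [intervalIntegral.integral_comp_mul_left (fun x => Real.cos x) ha, integral_cos,
    smul_eq_mul]
  field_simp

theorem YMS_term (M m n : ℕ) (T : ℝ) (hm : m ∈ Finset.Icc 1 M)
    (hn : n ∈ Finset.Icc 1 M) :
    (if m = n then T * YMS_w M m ^ 2 else 0) - M ≤
      ∫ t in T..2 * T, YMS_w M m * YMS_w M n *
        Real.cos (2 * Real.pi * (Real.log m - Real.log n) * t) := by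
  have hM : (0 : ℝ) < M := by
    rw [Finset.mem_Icc] at hm
    exact_mod_cast (by omega : 0 < M)
  rw [intervalIntegral.integral_const_mul]
  by_cases h : m = n
  · subst h
    simp only [sub_self, mul_zero, zero_mul, Real.cos_zero, if_true]
    rw [intervalIntegral.integral_const, smul_eq_mul]
    nlinarith
  · rw [if_neg h]
    have h1 := YMS_log M m n hm hn h
    set d := Real.log m - Real.log n with hd
    have hd0 : d ≠ 0 := by
      intro h0
      rw [h0, abs_zero] at h1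
      have : 0 < 1 / (M : ℝ) := by positivity
      linarith
    have ha : 2 * Real.pi * d ≠ 0 := by
      have := Real.pi_pos
      positivity
    rw [YMS_int _ _ _ ha]
    have h2 : |(Real.sin (2 * Real.pi * d * (2 * T)) - Real.sin (2 * Real.pi * d * T)) /
        (2 * Real.pi * d)| ≤ M := by
      rw [abs_div, div_le_iff₀ (abs_pos.2 ha)]
      have h3 : |Real.sin (2 * Real.pi * d * (2 * T)) - Real.sin (2 * Real.pi * d * T)| ≤ 2 := by
        have a1 := Real.abs_sin_le_one (2 * Real.pi * d * (2 * T))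
        have a2 := Real.abs_sin_le_one (2 * Real.pi * d * T)
        rw [abs_le] at a1 a2 ⊢
        constructor <;> linarith [a1.1, a1.2, a2.1, a2.2]
      refine h3.trans ?_
      rw [abs_mul, abs_of_pos (by positivity : (0 : ℝ) < 2 * Real.pi)]
      have h4 : 1 ≤ (M : ℝ) * |d| := by
        rw [div_le_iff₀ hM] at h1
        linarith
      have h5 := Real.pi_gt_three
      have h6 : (M : ℝ) * (2 * Real.pi * |d|) = 2 * Real.pi * (M * |d|) := by ring
      rw [h6]
      nlinarith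
    have h7 : |YMS_w M m * YMS_w M n * ((Real.sin (2 * Real.pi * d * (2 * T)) -
        Real.sin (2 * Real.pi * d * T)) / (2 * Real.pi * d))| ≤ M := by
      rw [abs_mul, abs_of_pos (mul_pos (YMS_w_pos M m) (YMS_w_pos M n))]
      calc _ ≤ 1 * (M : ℝ) := mul_le_mul
            (mul_le_one₀ (YMS_w_le M m) (YMS_w_pos M n).le (YMS_w_le M n)) h2
            (abs_nonneg _) zero_le_one
        _ = M := one_mul _
    have h8 := (abs_le.1 h7).1
    linarith

theorem YMS_sumw (M : ℕ) (hM : 1 ≤ M) :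
    (M : ℝ) / 4 ≤ ∑ n ∈ Finset.Icc 1 M, YMS_w M n ^ 2 := by
  have hM0 : (0 : ℝ) < M := by exact_mod_cast hM
  have h1 : ∑ n ∈ Finset.Icc (M - M / 2) M, (1 / 2 : ℝ) ≤
      ∑ n ∈ Finset.Icc 1 M, YMS_w M n ^ 2 := by
    refine le_trans (Finset.sum_le_sum (g := fun n => YMS_w M n ^ 2) ?_)
      (Finset.sum_le_sum_of_subset_of_nonneg ?_ (fun _ _ _ => sq_nonneg _))
    · intro n hn
      rw [Finset.mem_Icc] at hn
      have hn1 : M ≤ 2 * n := by omega
      have hn0 : (0 : ℝ) < n := by exact_mod_cast (by omega : 0 < n)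
      have hnM : (n : ℝ) ≤ M := by exact_mod_cast hn.2
      have hMn : (M : ℝ) ≤ 2 * n := by exact_mod_cast hn1
      have hl1 : Real.log n ≤ Real.log M := Real.log_le_log hn0 hnM
      have hl2 : Real.log M ≤ Real.log 2 + Real.log n := by
        rw [← Real.log_mul (by norm_num) hn0.ne']
        exact Real.log_le_log hM0 hMn
      have hl3 := Real.log_two_lt_d9
      have hl4 : (Real.log n - Real.log M) ^ 2 ≤ 1 / 2 := by
        have b1 : 0 ≤ Real.log M - Real.log n := by linarith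
        have b2 : Real.log M - Real.log n ≤ 0.7 := by linarith
        nlinarith
      have h5 : YMS_w M n ^ 2 = Real.exp (-(Real.log n - Real.log M) ^ 2 / 2) := by
        unfold YMS_w
        rw [← Real.exp_nat_mul]
        congr 1
        push_cast
        ring
      show (1 / 2 : ℝ) ≤ YMS_w M n ^ 2
      rw [h5]
      have h6 := Real.add_one_le_exp (-(Real.log n - Real.log M) ^ 2 / 2)
      linarith
    · intro n hn
      rw [Finset.mem_Icc] at hn ⊢
      omega
  refine le_trans ?_ h1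
  rw [Finset.sum_const, nsmul_eq_mul, Nat.card_Icc]
  have h2 : (M : ℝ) ≤ 2 * ((M + 1 - (M - M / 2) : ℕ) : ℝ) := by
    have : M ≤ 2 * (M + 1 - (M - M / 2)) := by omega
    exact_mod_cast this
  linarith

theorem YMS_lower (M : ℕ) (hM : 3 ≤ M) (T : ℝ) (hT : T = (M : ℝ) ^ 4) :
    T * (M / 8) ≤ ∫ t in T..2 * T,
      ‖∑ n ∈ Finset.Icc 1 M, e (t * Real.log n) * (YMS_w M n : ℝ)‖ ^ 2 := by
  have hM0 : (3 : ℝ) ≤ M := by exact_mod_cast hM
  have hT0 : 0 ≤ T := by rw [hT]; positivity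
  simp_rw [YMS_normSq]
  rw [intervalIntegral.integral_finsetSum (fun m _ =>
    (Continuous.intervalIntegrable (by fun_prop) _ _))]
  have h2 : ∑ m ∈ Finset.Icc 1 M, ∑ n ∈ Finset.Icc 1 M,
      ((if m = n then T * YMS_w M m ^ 2 else 0) - (M : ℝ)) ≤
      ∑ m ∈ Finset.Icc 1 M, ∫ t in T..2 * T, ∑ n ∈ Finset.Icc 1 M, YMS_w M m * YMS_w M n *
        Real.cos (2 * Real.pi * (Real.log m - Real.log n) * t) := by
    refine Finset.sum_le_sum (fun m hm => ?_)
    rw [intervalIntegral.integral_finsetSum (fun n _ =>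
      (Continuous.intervalIntegrable (by fun_prop) _ _))]
    exact Finset.sum_le_sum (fun n hn => YMS_term M m n T hm hn)
  refine le_trans ?_ h2
  have h3 : ∑ m ∈ Finset.Icc 1 M, ∑ n ∈ Finset.Icc 1 M,
      ((if m = n then T * YMS_w M m ^ 2 else 0) - (M : ℝ)) =
      T * ∑ m ∈ Finset.Icc 1 M, YMS_w M m ^ 2 - (M : ℝ) ^ 3 := by
    simp_rw [Finset.sum_sub_distrib]
    rw [Finset.mul_sum]
    congr 1
    · refine Finset.sum_congr rfl (fun m hm => ?_)
      rw [Finset.sum_ite_eq, if_pos hm]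
    · simp only [Finset.sum_const, Nat.card_Icc, nsmul_eq_mul, Nat.add_sub_cancel]
      ring
  rw [h3]
  have h4 := mul_le_mul_of_nonneg_left (YMS_sumw M (by omega)) hT0
  have h5 : (M : ℝ) ^ 3 ≤ T * (M / 8) := by
    rw [hT]
    have : (M : ℝ) ^ 4 * (M / 8) = M ^ 3 * (M ^ 2 / 8) := by ring
    rw [this]
    have h6 : (1 : ℝ) ≤ M ^ 2 / 8 := by nlinarith
    exact le_mul_of_one_le_right (by positivity) h6
  linarith

theorem YMS_cont (M : ℕ) : Continuous fun t : ℝ =>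
    ‖∑ n ∈ Finset.Icc 1 M, e (t * Real.log n) * (YMS_w M n : ℝ)‖ ^ 2 := by
  simp_rw [YMS_normSq]
  fun_prop

theorem p_YMS : Y_MS := by
  intro θ κ hθ hκ hGT
  set ε : ℝ := (1 - 2 * θ) / 16 with hε
  have hε0 : 0 < ε := by rw [hε]; linarith
  obtain ⟨C, hC⟩ := hGT ε hε0
  have hx : 0 < (1 - 2 * θ) / 2 := by linarith
  have ht1 : Filter.Tendsto (fun M : ℕ => (M : ℝ) ^ ((1 - 2 * θ) / 2)) Filter.atTop
      Filter.atTop := (tendsto_rpow_atTop hx).comp tendsto_natCast_atTop_atTop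
  have ht2 : Filter.Tendsto (fun M : ℕ => κ * (M : ℝ)) Filter.atTop Filter.atTop :=
    Filter.Tendsto.const_mul_atTop hκ tendsto_natCast_atTop_atTop
  obtain ⟨M, h1, h2, h3⟩ := ((ht1.eventually_gt_atTop (8 * (C ^ 2 * 2 ^ (2 * ε)))).and
    ((ht2.eventually_ge_atTop 1).and (Filter.eventually_ge_atTop 3))).exists
  have hM0 : (3 : ℝ) ≤ M := by exact_mod_cast h3
  have hMp : (0 : ℝ) < M := by linarith
  set T : ℝ := (M : ℝ) ^ 4 with hT
  have hTp : 0 < T := by positivity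
  have hT1 : 1 ≤ T := one_le_pow₀ (by linarith)
  have hlow := YMS_lower M h3 T hT
  set K : ℝ := |C| * (M : ℝ) ^ θ * (2 * T) ^ ε with hK
  have hup : ∀ t ∈ Icc T (2 * T),
      ‖∑ n ∈ Finset.Icc 1 M, e (t * Real.log n) * (YMS_w M n : ℝ)‖ ^ 2 ≤ K ^ 2 := by
    intro t ht
    have hMt : (M : ℝ) ≤ κ * t := by
      have a1 : (M : ℝ) ≤ κ * T := by
        rw [hT]
        have : κ * (M : ℝ) ^ 4 = (κ * M) * (M * (M * M)) := by ring
        rw [this]
        have b1 : (M : ℝ) ≤ M * (M * M) := by nlinarith [mul_pos hMp hMp]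
        calc (M : ℝ) ≤ M * (M * M) := b1
          _ = 1 * (M * (M * M)) := (one_mul _).symm
          _ ≤ _ := mul_le_mul_of_nonneg_right h2 (by positivity)
      exact a1.trans (mul_le_mul_of_nonneg_left ht.1 hκ.le)
    have a2 := hC t (hT1.trans ht.1) M (by omega) hMt M (by linarith) le_rfl
    refine pow_le_pow_left₀ (norm_nonneg _) ?_ 2
    refine le_trans a2 ?_
    rw [hK]
    have a3 : t ^ ε ≤ (2 * T) ^ ε :=
      Real.rpow_le_rpow (hTp.le.trans ht.1) ht.2 hε0.le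
    have a4 : C * (M : ℝ) ^ θ ≤ |C| * (M : ℝ) ^ θ :=
      mul_le_mul_of_nonneg_right (le_abs_self C) (Real.rpow_nonneg hMp.le _)
    exact mul_le_mul a4 a3 (Real.rpow_nonneg (hTp.le.trans ht.1) _)
      (mul_nonneg (abs_nonneg _) (Real.rpow_nonneg hMp.le _))
  have hint : ∫ t in T..2 * T,
      ‖∑ n ∈ Finset.Icc 1 M, e (t * Real.log n) * (YMS_w M n : ℝ)‖ ^ 2 ≤ T * K ^ 2 := by
    have a1 := intervalIntegral.integral_mono_on (μ := volume) (by linarith : T ≤ 2 * T)
      ((YMS_cont M).intervalIntegrable _ _)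
      (continuous_const.intervalIntegrable _ _) hup
    rw [intervalIntegral.integral_const, smul_eq_mul] at a1
    linarith
  have h4 : (M : ℝ) / 8 ≤ K ^ 2 := by
    have := hlow.trans hint
    exact le_of_mul_le_mul_left this hTp
  have h5 : K ^ 2 = C ^ 2 * 2 ^ (2 * ε) * (M : ℝ) ^ (2 * θ + 8 * ε) := by
    rw [hK, mul_pow, mul_pow, sq_abs, Real.mul_rpow (by norm_num) hTp.le, mul_pow,
      ← Real.rpow_natCast ((M : ℝ) ^ θ) 2, ← Real.rpow_natCast ((2 : ℝ) ^ ε) 2,
      ← Real.rpow_natCast (T ^ ε) 2, ← Real.rpow_mul hMp.le, ← Real.rpow_mul (by norm_num),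
      ← Real.rpow_mul hTp.le, hT, ← Real.rpow_natCast (M : ℝ) 4, ← Real.rpow_mul hMp.le,
      Real.rpow_add hMp]
    have e1 : θ * ((2 : ℕ) : ℝ) = 2 * θ := by push_cast; ring
    have e2 : ε * ((2 : ℕ) : ℝ) = 2 * ε := by push_cast; ring
    have e3 : ((4 : ℕ) : ℝ) * (2 * ε) = 8 * ε := by push_cast; ring
    rw [e1, e2, e3]
    ring
  have h6 : (M : ℝ) = (M : ℝ) ^ (2 * θ + 8 * ε) * (M : ℝ) ^ ((1 - 2 * θ) / 2) := by
    rw [← Real.rpow_add hMp]
    have : 2 * θ + 8 * ε + (1 - 2 * θ) / 2 = 1 := by rw [hε]; ring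
    rw [this, Real.rpow_one]
  have h7 : 0 < (M : ℝ) ^ (2 * θ + 8 * ε) := Real.rpow_pos_of_pos hMp _
  rw [h5] at h4
  have h8 : (M : ℝ) ^ (2 * θ + 8 * ε) * (M : ℝ) ^ ((1 - 2 * θ) / 2) ≤
      (M : ℝ) ^ (2 * θ + 8 * ε) * (8 * (C ^ 2 * 2 ^ (2 * ε))) := by
    rw [← h6]
    linarith
  exact absurd (le_of_mul_le_mul_left h8 h7) (not_le.2 h1)

end Pool.Agent.Ben
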