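import Pool.Agent.Ben.Targets7
import Pool.Agent.Ben.P_YMS

/-!
# G_MS: the mean square of a Dirichlet polynomial, short ranges
-/

set_option autoImplicit false

namespace Pool.Agent.Ben

open Complex MeasureTheory Set

theorem GMS_lower (M : ℕ) (hM : 3 ≤ M) (T : ℝ) (hT : (M : ℝ) ^ 4 ≤ T) :
    T * (M / 8) ≤ ∫ t in T..2 * T,
      ‖∑ n ∈ Finset.Icc 1 M, e (t * Real.log n) * (YMS_w M n : ℝ)‖ ^ 2 := by
  have hM0 : (3 : ℝ) ≤ M := by exact_mod_cast hM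
  have hT0 : 0 ≤ T := le_trans (by positivity) hT
  simp_rw [YMS_normSq]
  rw [intervalIntegral.integral_finsetSum (fun m _ =>
    (Continuous.intervalIntegrable (by fun_prop) _ _))]
  have h2 : ∑ m ∈ Finset.Icc 1 M, ∑ n ∈ Finset.Icc 1 M,
      ((if m = n then T * YMS_w M m ^ 2 else 0) - (M : ℝ)) ≤
      ∑ m ∈ Finset.Icc 1 M, ∫ t in T..2 * T, ∑ n ∈ Finset.Icc 1 M, YMS_w M m * YMS_w M n *
        Real.cos (2 * Real.pi * (Real.log m - Real.log n) * t) := by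
    refine Finset.sum_le_sum (fun m hm => ?_)
    rw [intervalIntegral.integral_finsetSum (fun n _ =>
      (Continuous.intervalIntegrable (by fun_prop) _ _))]
    exact Finset.sum_le_sum (fun n hn => YMS_term M m n T hm hn)
  refine le_trans ?_ h2
  have h3 : ∑ m ∈ Finset.Icc 1 M, ∑ n ∈ Finset.Icc 1 M,
      ((if m = n then T * YMS_w M m ^ 2 else 0) - (M : ℝ)) =
      T * ∑ m ∈ Finset.Icc 1 M, YMS_w M m ^ 2 - (M : ℝ) ^ 3 := by
    simp_rw [Finset.sum_sub_distrib]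
    rw [Finset.mul_sum]
    congr 1
    · refine Finset.sum_congr rfl (fun m hm => ?_)
      rw [Finset.sum_ite_eq, if_pos hm]
    · simp only [Finset.sum_const, Nat.card_Icc, nsmul_eq_mul, Nat.add_sub_cancel]
      ring
  rw [h3]
  have h4 := mul_le_mul_of_nonneg_left (YMS_sumw M (by omega)) hT0
  have h5 : (M : ℝ) ^ 3 ≤ T * (M / 8) := by
    refine le_trans ?_ (mul_le_mul_of_nonneg_right hT (by positivity))
    have : (M : ℝ) ^ 4 * (M / 8) = M ^ 3 * (M ^ 2 / 8) := by ring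
    rw [this]
    have h6 : (1 : ℝ) ≤ M ^ 2 / 8 := by nlinarith
    exact le_mul_of_one_le_right (by positivity) h6
  linarith

theorem p_GMS : G_MS := by
  intro p θ₀ κ β hp hθ₀ hκ hβ hGG
  set θ : ℝ := max p θ₀ with hθd
  have hθ : θ < 1 / 2 := max_lt hp hθ₀
  obtain ⟨q, hq⟩ := exists_nat_ge (max 4 (2 / β))
  have hq4 : (4 : ℝ) ≤ q := le_trans (le_max_left _ _) hq
  have hq4' : 4 ≤ q := by exact_mod_cast hq4
  have hq0 : (0 : ℝ) < q := by linarith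
  have hqβ : 2 ≤ (q : ℝ) * β := by
    have := le_trans (le_max_right _ _) hq
    rwa [div_le_iff₀ hβ] at this
  set ε : ℝ := (1 - 2 * θ) / (4 * q) with hε
  have hε0 : 0 < ε := by
    rw [hε]
    exact div_pos (by linarith) (by linarith)
  obtain ⟨C₀, hC₀⟩ := hGG ε hε0
  set C : ℝ := 2 * |C₀| with hCd
  have hC0 : 0 ≤ C := by positivity
  have hC : ∀ t : ℝ, 1 ≤ t → ∀ M : ℕ, 1 ≤ M → (M : ℝ) ≤ κ * t ^ β →
      ‖∑ n ∈ Finset.Icc 1 M, e (t * Real.log n) * (YMS_w M n : ℝ)‖ ≤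
      C * (M : ℝ) ^ θ * t ^ ε := by
    intro t ht M hM hMt
    have hM1 : (1 : ℝ) ≤ M := by exact_mod_cast hM
    have a1 := hC₀ t ht M hM hMt M hM1 le_rfl
    refine le_trans a1 ?_
    have ht0 : (0 : ℝ) ≤ t ^ ε := Real.rpow_nonneg (by linarith) _
    refine mul_le_mul_of_nonneg_right ?_ ht0
    rw [Real.rpow_zero, mul_one]
    have b1 : (M : ℝ) ^ p ≤ (M : ℝ) ^ θ := Real.rpow_le_rpow_of_exponent_le hM1 (le_max_left _ _)
    have b2 : (M : ℝ) ^ θ₀ ≤ (M : ℝ) ^ θ :=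
      Real.rpow_le_rpow_of_exponent_le hM1 (le_max_right _ _)
    have b3 : 0 ≤ (M : ℝ) ^ p := Real.rpow_nonneg (by linarith) _
    have b4 : 0 ≤ (M : ℝ) ^ θ₀ := Real.rpow_nonneg (by linarith) _
    calc C₀ * ((M : ℝ) ^ p + (M : ℝ) ^ θ₀) ≤ |C₀| * ((M : ℝ) ^ p + (M : ℝ) ^ θ₀) :=
          mul_le_mul_of_nonneg_right (le_abs_self _) (by linarith)
      _ ≤ |C₀| * ((M : ℝ) ^ θ + (M : ℝ) ^ θ) :=
          mul_le_mul_of_nonneg_left (by linarith) (abs_nonneg _)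
      _ = C * (M : ℝ) ^ θ := by rw [hCd]; ring
  clear_value C
  have hx : 0 < (1 - 2 * θ) / 2 := by linarith
  have ht1 : Filter.Tendsto (fun M : ℕ => (M : ℝ) ^ ((1 - 2 * θ) / 2)) Filter.atTop
      Filter.atTop := (tendsto_rpow_atTop hx).comp tendsto_natCast_atTop_atTop
  have ht2 : Filter.Tendsto (fun M : ℕ => κ * (M : ℝ)) Filter.atTop Filter.atTop :=
    Filter.Tendsto.const_mul_atTop hκ tendsto_natCast_atTop_atTop
  obtain ⟨M, h1, h2, h3⟩ := ((ht1.eventually_gt_atTop (8 * (C ^ 2 * 2 ^ (2 * ε)))).and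
    ((ht2.eventually_ge_atTop 1).and (Filter.eventually_ge_atTop 3))).exists
  have hM0 : (3 : ℝ) ≤ M := by exact_mod_cast h3
  have hMp : (0 : ℝ) < M := by linarith
  set T : ℝ := (M : ℝ) ^ q with hT
  have hTp : 0 < T := by positivity
  have hT1 : 1 ≤ T := one_le_pow₀ (by linarith)
  have hlow := GMS_lower M h3 T (pow_le_pow_right₀ (by linarith) hq4')
  set K : ℝ := C * (M : ℝ) ^ θ * (2 * T) ^ ε with hK
  have hup : ∀ t ∈ Icc T (2 * T),
      ‖∑ n ∈ Finset.Icc 1 M, e (t * Real.log n) * (YMS_w M n : ℝ)‖ ^ 2 ≤ K ^ 2 := by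
    intro t ht
    have hMt : (M : ℝ) ≤ κ * t ^ β := by
      have a1 : (M : ℝ) ≤ κ * T ^ β := by
        rw [hT, ← Real.rpow_natCast (M : ℝ) q, ← Real.rpow_mul hMp.le]
        have b1 : (M : ℝ) ^ (2 : ℝ) ≤ (M : ℝ) ^ ((q : ℝ) * β) :=
          Real.rpow_le_rpow_of_exponent_le (by linarith) hqβ
        have b2 : (M : ℝ) ^ (2 : ℝ) = M * M := by
          rw [Real.rpow_two]
          ring
        rw [b2] at b1
        calc (M : ℝ) = 1 * M := (one_mul _).symm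
          _ ≤ (κ * M) * M := mul_le_mul_of_nonneg_right h2 hMp.le
          _ = κ * (M * M) := by ring
          _ ≤ _ := mul_le_mul_of_nonneg_left b1 hκ.le
      exact a1.trans (mul_le_mul_of_nonneg_left (Real.rpow_le_rpow hTp.le ht.1 hβ.le) hκ.le)
    have a2 := hC t (hT1.trans ht.1) M (by omega) hMt
    refine pow_le_pow_left₀ (norm_nonneg _) ?_ 2
    refine le_trans a2 ?_
    rw [hK]
    have a3 : t ^ ε ≤ (2 * T) ^ ε :=
      Real.rpow_le_rpow (hTp.le.trans ht.1) ht.2 hε0.le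
    exact mul_le_mul_of_nonneg_left a3 (mul_nonneg hC0 (Real.rpow_nonneg hMp.le _))
  have hint : ∫ t in T..2 * T,
      ‖∑ n ∈ Finset.Icc 1 M, e (t * Real.log n) * (YMS_w M n : ℝ)‖ ^ 2 ≤ T * K ^ 2 := by
    have a1 := intervalIntegral.integral_mono_on (μ := volume) (by linarith : T ≤ 2 * T)
      ((YMS_cont M).intervalIntegrable _ _)
      (continuous_const.intervalIntegrable _ _) hup
    rw [intervalIntegral.integral_const, smul_eq_mul] at a1
    linarith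
  have h4 : (M : ℝ) / 8 ≤ K ^ 2 := by
    have := hlow.trans hint
    exact le_of_mul_le_mul_left this hTp
  have h5 : K ^ 2 = C ^ 2 * 2 ^ (2 * ε) * (M : ℝ) ^ (2 * θ + (1 - 2 * θ) / 2) := by
    rw [hK, mul_pow, mul_pow, Real.mul_rpow (by norm_num) hTp.le, mul_pow,
      ← Real.rpow_natCast ((M : ℝ) ^ θ) 2, ← Real.rpow_natCast ((2 : ℝ) ^ ε) 2,
      ← Real.rpow_natCast (T ^ ε) 2, ← Real.rpow_mul hMp.le, ← Real.rpow_mul (by norm_num),
      ← Real.rpow_mul hTp.le, hT, ← Real.rpow_natCast (M : ℝ) q, ← Real.rpow_mul hMp.le,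
      Real.rpow_add hMp]
    have e1 : θ * ((2 : ℕ) : ℝ) = 2 * θ := by push_cast; ring
    have e2 : ε * ((2 : ℕ) : ℝ) = 2 * ε := by push_cast; ring
    have e3 : (q : ℝ) * (2 * ε) = (1 - 2 * θ) / 2 := by
      rw [hε]
      field_simp
      ring
    rw [e1, e2, e3]
    ring
  have h6 : (M : ℝ) = (M : ℝ) ^ (2 * θ + (1 - 2 * θ) / 2) * (M : ℝ) ^ ((1 - 2 * θ) / 2) := by
    rw [← Real.rpow_add hMp]
    have : 2 * θ + (1 - 2 * θ) / 2 + (1 - 2 * θ) / 2 = 1 := by ring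
    rw [this, Real.rpow_one]
  have h7 : 0 < (M : ℝ) ^ (2 * θ + (1 - 2 * θ) / 2) := Real.rpow_pos_of_pos hMp _
  rw [h5] at h4
  have h8 : (M : ℝ) ^ (2 * θ + (1 - 2 * θ) / 2) * (M : ℝ) ^ ((1 - 2 * θ) / 2) ≤
      (M : ℝ) ^ (2 * θ + (1 - 2 * θ) / 2) * (8 * (C ^ 2 * 2 ^ (2 * ε))) := by
    rw [← h6]
    linarith
  exact absurd (le_of_mul_le_mul_left h8 h7) (not_le.2 h1)

end Pool.Agent.Ben
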