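import Pool.Agent.Ben.Targets7
import Pool.Agent.Ben.P_WONE

/-!
# Ben, target GONE: one bounded measurable statistic, range `N ≤ x ^ β`
-/

set_option autoImplicit false

namespace Pool.Agent.Ben

open Complex MeasureTheory Set

/-- Target GONE. -/
theorem p_GONE : G_ONE := by
  intro g β p a f B hg hβ _ _ _ hf hper hB hU
  have hL : 0 < Real.log g := Real.log_pos hg
  refine ⟨⟨hf.sub_const _, ?_, ?_, ?_⟩, Real.log g ^ β, Real.rpow_pos_of_pos hL β, ?_⟩
  · intro x
    simp only
    rw [hper x]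
  · intro x
    have h1 := abs_sub (f x) (∫ u in (0 : ℝ)..1, f u)
    have h2 := hB x
    have h3 := WONE_le hB
    linarith
  · unfold coef
    have h1 : ∀ x : ℝ, ((f x - ∫ u in (0 : ℝ)..1, f u : ℝ) : ℂ) * e (-(((0 : ℤ) : ℝ) * x)) =
        ((f x - ∫ u in (0 : ℝ)..1, f u : ℝ) : ℂ) := by
      intro x
      simp [e]
    simp only [h1]
    rw [intervalIntegral.integral_ofReal, intervalIntegral.integral_sub (WONE_int hf hB)
      (by simp), intervalIntegral.integral_const]
    simp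
  · intro ε hε
    obtain ⟨C, hC⟩ := hU ε hε
    refine ⟨C * Real.log g ^ (a + ε), ?_⟩
    intro t ht N hN hNt
    have ht0 : 0 < t := by linarith
    have hNx : (N : ℝ) ≤ (t * Real.log g) ^ β := by
      rw [Real.mul_rpow ht0.le hL.le, mul_comm]
      exact hNt
    have hN1 : (1 : ℝ) ≤ N := by exact_mod_cast hN
    have hx : 1 ≤ t * Real.log g := by
      by_contra hcon
      have h := Real.rpow_lt_one (mul_pos ht0 hL).le (not_le.1 hcon) hβ
      linarith
    have h1 := hC (t * Real.log g) hx N hN hNx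
    rw [Real.mul_rpow ht0.le hL.le] at h1
    have h2 : ∑ n ∈ Finset.Icc 1 N, f (Real.logb g ((n : ℝ) ^ (t * Real.log g))) =
        ∑ n ∈ Finset.Icc 1 N, f (t * Real.log n) := by
      refine Finset.sum_congr rfl fun n hn => ?_
      rw [WONE_logb hg (Finset.mem_Icc.1 hn).1]
    rw [h2] at h1
    have h3 : ∑ n ∈ Finset.Icc 1 N, (f (t * Real.log n) - ∫ u in (0 : ℝ)..1, f u) =
        ∑ n ∈ Finset.Icc 1 N, f (t * Real.log n) - N * ∫ u in (0 : ℝ)..1, f u := by
      rw [Finset.sum_sub_distrib, Finset.sum_const, Nat.card_Icc, Nat.add_sub_cancel,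
        nsmul_eq_mul]
    rw [h3]
    calc ∑ n ∈ Finset.Icc 1 N, f (t * Real.log n) - N * ∫ u in (0 : ℝ)..1, f u
        ≤ C * (N : ℝ) ^ p * (t ^ (a + ε) * Real.log g ^ (a + ε)) := h1
      _ = C * Real.log g ^ (a + ε) * (N : ℝ) ^ p * t ^ (a + ε) := by ring

end Pool.Agent.Ben
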