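import Pool.Agent.Ben.Targets7

/-!
# Ben, GSTEP: one step of the iteration
-/

set_option autoImplicit false

namespace Pool.Agent.Ben

open Complex MeasureTheory

private lemma GSTEP_trivial (T N : ℝ) (M : ℕ) :
    ‖∑ n ∈ Finset.Icc 1 M, e (T * Real.log n) *
      (Real.exp (-(Real.log n - Real.log N) ^ 2 / 4) : ℝ)‖ ≤ M := by
  refine (norm_sum_le _ _).trans ?_
  calc ∑ n ∈ Finset.Icc 1 M, ‖e (T * Real.log n) *
        (Real.exp (-(Real.log n - Real.log N) ^ 2 / 4) : ℝ)‖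
      ≤ ∑ _n ∈ Finset.Icc 1 M, (1 : ℝ) := by
        refine Finset.sum_le_sum (fun n _ => ?_)
        rw [norm_mul, e, Complex.norm_exp_ofReal_mul_I, one_mul, Complex.norm_real,
          Real.norm_eq_abs, abs_of_pos (Real.exp_pos _), Real.exp_le_one_iff]
        have := sq_nonneg (Real.log n - Real.log N)
        linarith
    _ = M := by simp

private lemma GSTEP_card (m : ℕ) (x : ℝ) (hx : 0 ≤ x) :
    ((Finset.Ioo m ⌈x⌉₊).card : ℝ) ≤ x := by
  rw [Nat.card_Ioo]
  rcases Nat.lt_or_ge (m + 1) ⌈x⌉₊ with h | h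
  · have h1 : ((⌈x⌉₊ - m - 1 : ℕ) : ℝ) = (⌈x⌉₊ : ℝ) - m - 1 := by
      rw [Nat.cast_sub (by omega), Nat.cast_sub (by omega), Nat.cast_one]
    rw [h1]
    have h2 := Nat.ceil_lt_add_one hx
    have h3 : (0 : ℝ) ≤ m := Nat.cast_nonneg m
    linarith
  · have h1 : ⌈x⌉₊ - m - 1 = 0 := by omega
    rw [h1]
    simpa using hx

theorem p_GSTEP : V_MAIN → G_L1 → G_HIGH → G_STEP := by
  intro hMain hL1 hHigh m hm G B κ₀ β p a hG hκ₀ hβ0 hβ1 hp0 hp1 ha hcm hcj hUp θ κ hθ0 hθ1 hκ hGT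
  obtain ⟨C0, hC0, hmain⟩ := hMain m hm
  have hm0 : (0 : ℝ) < m := by exact_mod_cast hm
  have hm1 : (1 : ℝ) ≤ m := by exact_mod_cast hm
  have hB : 0 ≤ B := (abs_nonneg _).trans (hG.bdd 0)
  have hlog2 : 0 < Real.log 2 := Real.log_pos (by norm_num)
  set κ' : ℝ := min κ₀ κ / (2 * m) with hκ'
  have hmin : 0 < min κ₀ κ := lt_min hκ₀ hκ
  have hκ'0 : 0 < κ' := by positivity
  refine ⟨κ', hκ'0, ?_⟩
  intro ε hε
  obtain ⟨C1, h1⟩ := hL1 m hm G B κ₀ β p a hG hκ₀ hβ0 hβ1 hp0 ha hUp ε hε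
  obtain ⟨C2, h2⟩ := hHigh p a θ κ β hp0 hp1 ha hθ0 hθ1 hκ hβ0 hβ1 hGT m hm (ε / 8) (by linarith)
  set θ' : ℝ := (m : ℝ) / (m + 1) * θ with hθ'
  have hθ'0 : 0 ≤ θ' := by positivity
  have hA : 0 < ‖coef G m‖ := norm_pos_iff.2 hcm
  set η : ℝ := ε / (4 * (a + 1)) with hη
  have hη0 : 0 < η := by positivity
  have hηa : η * a ≤ ε / 4 := by
    rw [hη, div_mul_eq_mul_div, div_le_iff₀ (by positivity)]
    nlinarith
  set K1 : ℝ := 2 * κ' / Real.log 2 with hK1
  have hK1p : 0 < K1 := by positivity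
  set K2 : ℝ := 2 * m / Real.log 2 * (κ' ^ (ε / 2) / (ε / 2)) with hK2
  have hK2p : 0 < K2 := by positivity
  set K3 : ℝ := 2 / Real.log 2 * (κ' ^ η / η) with hK3
  have hK3p : 0 < K3 := by positivity
  set D : ℝ := C0 * |C1| + C0 * B + B * (K2 * (|C2| * ((K3 ^ a + 1) * K1 ^ (ε / 8)))) with hD
  have hDp : 0 ≤ D := by positivity
  refine ⟨κ' * m + D / ‖coef G m‖, ?_⟩
  intro T hT M hM hMTβ N hN hNM
  have hTβ : T ^ β ≤ T := by
    calc T ^ β ≤ T ^ (1 : ℝ) := Real.rpow_le_rpow_of_exponent_le hT hβ1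
      _ = T := Real.rpow_one T
  have hMT : (M : ℝ) ≤ κ' * T := hMTβ.trans (mul_le_mul_of_nonneg_left hTβ hκ'0.le)
  have hT0 : 0 < T := by linarith
  have hM1 : (1 : ℝ) ≤ M := by exact_mod_cast hM
  have hMθ : 1 ≤ (M : ℝ) ^ θ' := Real.one_le_rpow hM1 hθ'0
  have hTε : 1 ≤ T ^ ε := Real.one_le_rpow hT hε.le
  have hTa : 1 ≤ T ^ a := Real.one_le_rpow hT ha
  have hDA : 0 ≤ D / ‖coef G m‖ := by positivity
  have hSM : 0 ≤ (M : ℝ) ^ p * T ^ a := by positivity
  set X : ℝ := ((M : ℝ) ^ p * T ^ a + (M : ℝ) ^ θ') * T ^ ε with hX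
  have hX1 : 1 ≤ X := by
    rw [hX]
    exact one_le_mul_of_one_le_of_one_le (by linarith) hTε
  have hX0 : 0 < X := by linarith
  have hgoal : ∀ c : ℝ, c * ((M : ℝ) ^ p * T ^ a + (M : ℝ) ^ θ') * T ^ ε = c * X := by
    intro c
    rw [hX]
    ring
  rw [hgoal]
  rcases lt_or_ge T m with hTm | hTm
  · have e1 : (M : ℝ) ≤ κ' * m := hMT.trans (mul_le_mul_of_nonneg_left hTm.le hκ'0.le)
    calc _ ≤ (M : ℝ) := GSTEP_trivial T N M
      _ ≤ κ' * m := e1
      _ ≤ κ' * m + D / ‖coef G m‖ := by linarith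
      _ ≤ (κ' * m + D / ‖coef G m‖) * X := by
        have e2 : 0 ≤ κ' * m + D / ‖coef G m‖ := by positivity
        exact le_mul_of_one_le_right e2 hX1
  · set t : ℝ := T / m with ht
    have ht1 : 1 ≤ t := by
      rw [ht, le_div_iff₀ hm0]
      linarith
    have ht0 : 0 < t := by linarith
    have htT : t ≤ T := by
      rw [ht, div_le_iff₀ hm0]
      nlinarith
    have hmt : (m : ℝ) * t = T := by
      rw [ht]
      field_simp
    have e0 : (M : ℝ) ≤ min κ₀ κ / 2 * t ^ β := by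
      have q1 : T ^ β ≤ m * t ^ β := by
        rw [← hmt, Real.mul_rpow hm0.le ht0.le]
        refine mul_le_mul_of_nonneg_right ?_ (by positivity)
        calc (m : ℝ) ^ β ≤ (m : ℝ) ^ (1 : ℝ) := Real.rpow_le_rpow_of_exponent_le hm1 hβ1
          _ = m := Real.rpow_one _
      calc (M : ℝ) ≤ κ' * T ^ β := hMTβ
        _ ≤ κ' * (m * t ^ β) := mul_le_mul_of_nonneg_left q1 hκ'0.le
        _ = min κ₀ κ / 2 * t ^ β := by
          rw [hκ']
          field_simp
    have htβ0 : 0 < t ^ β := Real.rpow_pos_of_pos ht0 β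
    have e1 : (M : ℝ) ≤ κ₀ / 2 * t ^ β := by
      refine e0.trans (mul_le_mul_of_nonneg_right ?_ htβ0.le)
      have := min_le_left κ₀ κ
      linarith
    have e2 : (M : ℝ) ≤ κ / 2 * t ^ β := by
      refine e0.trans (mul_le_mul_of_nonneg_right ?_ htβ0.le)
      have := min_le_right κ₀ κ
      linarith
    have hy0 : 0 ≤ Real.log N := Real.log_nonneg hN
    have hN0 : 0 < N := by linarith
    have hNT : N ≤ κ' * T := hNM.trans hMT
    have main := hmain G B hG hcj t (Real.log N) M hy0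
    have f1 := h1 t ht1 M hM e1
    have hlogle : ∀ δ : ℝ, 0 < δ → Real.log N ≤ κ' ^ δ / δ * T ^ δ := by
      intro δ hδ
      have a2 : Real.log N ≤ N ^ δ / δ := Real.log_le_rpow_div hN0.le hδ
      have a3 : N ^ δ ≤ κ' ^ δ * T ^ δ := by
        rw [← Real.mul_rpow hκ'0.le hT0.le]
        exact Real.rpow_le_rpow hN0.le hNT hδ.le
      refine a2.trans ?_
      rw [div_mul_eq_mul_div]
      exact div_le_div_of_nonneg_right a3 hδ.le
    -- the integral term
    have g1 : ∫ u : ℝ, |∑ n ∈ Finset.Icc 1 M, G ((t + u / m) * Real.log n)| * w u ≤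
        |C1| * X := by
      refine f1.trans ?_
      have a2 : t ^ (a + ε) ≤ T ^ a * T ^ ε := by
        rw [← Real.rpow_add hT0]
        exact Real.rpow_le_rpow ht0.le htT (by linarith)
      have a3 : (M : ℝ) ^ p * t ^ (a + ε) ≤ X := by
        have a4 : (M : ℝ) ^ p * t ^ (a + ε) ≤ (M : ℝ) ^ p * (T ^ a * T ^ ε) :=
          mul_le_mul_of_nonneg_left a2 (by positivity)
        refine a4.trans ?_
        rw [hX, ← mul_assoc]
        refine mul_le_mul_of_nonneg_right ?_ (by positivity)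
        linarith
      calc C1 * (M : ℝ) ^ p * t ^ (a + ε) = C1 * ((M : ℝ) ^ p * t ^ (a + ε)) := by ring
        _ ≤ |C1| * ((M : ℝ) ^ p * t ^ (a + ε)) :=
          mul_le_mul_of_nonneg_right (le_abs_self _) (by positivity)
        _ ≤ _ := mul_le_mul_of_nonneg_left a3 (abs_nonneg _)
    -- one high frequency
    have g2 : ∀ h ∈ Finset.Ioo m ⌈2 * m * Real.log N / Real.log 2⌉₊,
        ‖∑ n ∈ Finset.Icc 1 M, e (h * t * Real.log n) *
          (Real.exp (-(h * Real.log n / m - Real.log N) ^ 2 / 4) : ℝ)‖ ≤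
        |C2| * ((K3 ^ a + 1) * K1 ^ (ε / 8)) *
          (((M : ℝ) ^ p * T ^ a + (M : ℝ) ^ θ') * T ^ (ε / 2)) := by
      intro h hh
      rw [Finset.mem_Ioo] at hh
      have a1 := h2 t ht1 M hM e2 N hN hNM h hh.1
      have a2 : (h : ℝ) < 2 * m * Real.log N / Real.log 2 := Nat.lt_ceil.1 hh.2
      have hmh : (m : ℝ) + 1 ≤ h := by exact_mod_cast hh.1
      have hh0 : (0 : ℝ) < h := by linarith
      have b1 : (h : ℝ) * t ≤ 2 * Real.log N / Real.log 2 * T := by
        have b1 : (h : ℝ) * t ≤ 2 * m * Real.log N / Real.log 2 * t :=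
          mul_le_mul_of_nonneg_right a2.le ht0.le
        have b2 : 2 * m * Real.log N / Real.log 2 * t = 2 * Real.log N / Real.log 2 * T := by
          rw [← hmt]
          ring
        linarith
      have a3 : (h : ℝ) * t ≤ K1 * T ^ 2 := by
        have b3 : Real.log N ≤ κ' * T := by
          have := Real.log_le_sub_one_of_pos hN0
          linarith
        have b4 : 2 * Real.log N / Real.log 2 * T ≤ K1 * T ^ 2 := by
          have b5 : 2 * Real.log N / Real.log 2 ≤ K1 * T := by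
            rw [hK1, div_mul_eq_mul_div]
            exact div_le_div_of_nonneg_right (by linarith) hlog2.le
          calc 2 * Real.log N / Real.log 2 * T ≤ K1 * T * T :=
                mul_le_mul_of_nonneg_right b5 hT0.le
            _ = K1 * T ^ 2 := by ring
        linarith
      have a3' : (h : ℝ) * t ≤ K3 * (T ^ η * T) := by
        have b3 := hlogle η hη0
        calc (h : ℝ) * t ≤ 2 * Real.log N / Real.log 2 * T := b1
          _ = 2 / Real.log 2 * Real.log N * T := by ring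
          _ ≤ 2 / Real.log 2 * (κ' ^ η / η * T ^ η) * T := by gcongr
          _ = K3 * (T ^ η * T) := by
            rw [hK3]
            ring
      have a4 : ((h : ℝ) * t) ^ (ε / 8) ≤ K1 ^ (ε / 8) * T ^ (ε / 4) := by
        have b1 : ((h : ℝ) * t) ^ (ε / 8) ≤ (K1 * T ^ 2) ^ (ε / 8) :=
          Real.rpow_le_rpow (by positivity) a3 (by linarith)
        refine b1.trans (le_of_eq ?_)
        rw [Real.mul_rpow hK1p.le (by positivity), ← Real.rpow_natCast T 2,
          ← Real.rpow_mul hT0.le]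
        congr 2
        push_cast
        ring
      have a4' : ((h : ℝ) * t) ^ a ≤ K3 ^ a * (T ^ a * T ^ (ε / 4)) := by
        have b1 : ((h : ℝ) * t) ^ a ≤ (K3 * (T ^ η * T)) ^ a :=
          Real.rpow_le_rpow (by positivity) a3' ha
        have b2 : (K3 * (T ^ η * T)) ^ a = K3 ^ a * (T ^ a * T ^ (η * a)) := by
          rw [Real.mul_rpow hK3p.le (by positivity), Real.mul_rpow (by positivity) hT0.le,
            ← Real.rpow_mul hT0.le, mul_comm (T ^ (η * a))]
        rw [b2] at b1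
        refine b1.trans ?_
        have b3 : T ^ (η * a) ≤ T ^ (ε / 4) := Real.rpow_le_rpow_of_exponent_le hT hηa
        gcongr
      have a5 : N ^ ((m : ℝ) / h * θ) ≤ (M : ℝ) ^ θ' := by
        have b0 : 0 ≤ (m : ℝ) / h * θ := by positivity
        have b1 : (m : ℝ) / h * θ ≤ θ' := by
          refine mul_le_mul_of_nonneg_right ?_ hθ0
          exact div_le_div_of_nonneg_left hm0.le (by linarith) hmh
        exact (Real.rpow_le_rpow hN0.le hNM b0).trans
          (Real.rpow_le_rpow_of_exponent_le hM1 b1)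
      have a6 : N ^ ((m : ℝ) / h * p) ≤ (M : ℝ) ^ p := by
        have b0 : 0 ≤ (m : ℝ) / h * p := by positivity
        have b1 : (m : ℝ) / h * p ≤ p := by
          have b2 : (m : ℝ) / h ≤ 1 := (div_le_one hh0).2 (by linarith)
          exact mul_le_of_le_one_left hp0 b2
        exact (Real.rpow_le_rpow hN0.le hNM b0).trans
          (Real.rpow_le_rpow_of_exponent_le hM1 b1)
      have hT4 : 1 ≤ T ^ (ε / 4) := Real.one_le_rpow hT (by linarith)
      have hT44 : T ^ (ε / 4) * T ^ (ε / 4) = T ^ (ε / 2) := by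
        rw [← Real.rpow_add hT0]
        congr 1
        ring
      have a7 : N ^ ((m : ℝ) / h * p) * (h * t) ^ a + N ^ ((m : ℝ) / h * θ) ≤
          (K3 ^ a + 1) * ((M : ℝ) ^ p * T ^ a + (M : ℝ) ^ θ') * T ^ (ε / 4) := by
        have c1 : N ^ ((m : ℝ) / h * p) * (h * t) ^ a ≤
            (M : ℝ) ^ p * (K3 ^ a * (T ^ a * T ^ (ε / 4))) :=
          mul_le_mul a6 a4' (by positivity) (by positivity)
        have c2 : (M : ℝ) ^ θ' ≤ (M : ℝ) ^ θ' * T ^ (ε / 4) :=
          le_mul_of_one_le_right (by positivity) hT4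
        have c3 : 0 ≤ K3 ^ a * ((M : ℝ) ^ θ' * T ^ (ε / 4)) := by positivity
        have c4 : 0 ≤ (M : ℝ) ^ p * T ^ a * T ^ (ε / 4) := by positivity
        calc _ ≤ (M : ℝ) ^ p * (K3 ^ a * (T ^ a * T ^ (ε / 4))) + (M : ℝ) ^ θ' * T ^ (ε / 4) :=
              add_le_add c1 (a5.trans c2)
          _ ≤ (M : ℝ) ^ p * (K3 ^ a * (T ^ a * T ^ (ε / 4))) + (M : ℝ) ^ θ' * T ^ (ε / 4) +
              (K3 ^ a * ((M : ℝ) ^ θ' * T ^ (ε / 4)) + (M : ℝ) ^ p * T ^ a * T ^ (ε / 4)) := by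
              linarith
          _ = _ := by ring
      calc _ ≤ C2 * (N ^ ((m : ℝ) / h * p) * (h * t) ^ a + N ^ ((m : ℝ) / h * θ)) *
            (h * t) ^ (ε / 8) := a1
        _ ≤ |C2| * (N ^ ((m : ℝ) / h * p) * (h * t) ^ a + N ^ ((m : ℝ) / h * θ)) *
            (h * t) ^ (ε / 8) := by
          refine mul_le_mul_of_nonneg_right ?_ (by positivity)
          exact mul_le_mul_of_nonneg_right (le_abs_self _) (by positivity)
        _ ≤ |C2| * ((K3 ^ a + 1) * ((M : ℝ) ^ p * T ^ a + (M : ℝ) ^ θ') * T ^ (ε / 4)) *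
            (K1 ^ (ε / 8) * T ^ (ε / 4)) := by
          gcongr
        _ = |C2| * ((K3 ^ a + 1) * K1 ^ (ε / 8)) *
          (((M : ℝ) ^ p * T ^ a + (M : ℝ) ^ θ') * (T ^ (ε / 4) * T ^ (ε / 4))) := by ring
        _ = _ := by rw [hT44]
    -- the number of frequencies
    have g3 : ((Finset.Ioo m ⌈2 * m * Real.log N / Real.log 2⌉₊).card : ℝ) ≤
        K2 * T ^ (ε / 2) := by
      have a1 := GSTEP_card m (2 * m * Real.log N / Real.log 2) (by positivity)
      have a4 := hlogle (ε / 2) (by linarith)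
      calc _ ≤ 2 * m * Real.log N / Real.log 2 := a1
        _ = 2 * m / Real.log 2 * Real.log N := by ring
        _ ≤ 2 * m / Real.log 2 * (κ' ^ (ε / 2) / (ε / 2) * T ^ (ε / 2)) :=
          mul_le_mul_of_nonneg_left a4 (by positivity)
        _ = K2 * T ^ (ε / 2) := by
          rw [hK2]
          ring
    have hTT : T ^ (ε / 2) * T ^ (ε / 2) = T ^ ε := by
      rw [← Real.rpow_add hT0]
      congr 1
      ring
    have g4 : ∑ h ∈ Finset.Ioo m ⌈2 * m * Real.log N / Real.log 2⌉₊,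
        ‖∑ n ∈ Finset.Icc 1 M, e (h * t * Real.log n) *
          (Real.exp (-(h * Real.log n / m - Real.log N) ^ 2 / 4) : ℝ)‖ ≤
        K2 * (|C2| * ((K3 ^ a + 1) * K1 ^ (ε / 8))) * X := by
      refine (Finset.sum_le_sum g2).trans ?_
      rw [Finset.sum_const, nsmul_eq_mul]
      have a0 : 0 ≤ |C2| * ((K3 ^ a + 1) * K1 ^ (ε / 8)) *
          (((M : ℝ) ^ p * T ^ a + (M : ℝ) ^ θ') * T ^ (ε / 2)) := by positivity
      refine (mul_le_mul_of_nonneg_right g3 a0).trans (le_of_eq ?_)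
      rw [hX, ← hTT]
      ring
    have hL : ‖∑ n ∈ Finset.Icc 1 M, e (T * Real.log n) *
        (Real.exp (-(Real.log n - Real.log N) ^ 2 / 4) : ℝ)‖ * ‖coef G m‖ ≤
        D * X := by
      rw [mul_comm]
      rw [hmt] at main
      refine main.trans ?_
      have b1 := mul_le_mul_of_nonneg_left g1 hC0
      have b2 : C0 * B ≤ C0 * B * X :=
        le_mul_of_one_le_right (by positivity) hX1
      have b3 := mul_le_mul_of_nonneg_left g4 hB
      calc _ ≤ C0 * (|C1| * X) + C0 * B * X +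
          B * (K2 * (|C2| * ((K3 ^ a + 1) * K1 ^ (ε / 8))) * X) :=
            add_le_add (add_le_add b1 b2) b3
        _ = D * X := by
          rw [hD]
          ring
    have hL2 : ‖∑ n ∈ Finset.Icc 1 M, e (T * Real.log n) *
        (Real.exp (-(Real.log n - Real.log N) ^ 2 / 4) : ℝ)‖ ≤
        D / ‖coef G m‖ * X := by
      rw [div_mul_eq_mul_div, le_div_iff₀ hA]
      exact hL
    calc _ ≤ D / ‖coef G m‖ * X := hL2
      _ ≤ (κ' * m + D / ‖coef G m‖) * X := by
        refine mul_le_mul_of_nonneg_right ?_ (by positivity)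
        have : 0 < κ' * m := by positivity
        linarith

end Pool.Agent.Ben
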