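import Pool.Agent.Ben.Targets
import Pool.Agent.DBN.WinSumC

set_option autoImplicit false

/-!
# The smoothed zeta sums
-/

namespace Pool.Agent.Ben

open Complex Filter Topology

/-- completing the square -/
theorem SUML_term {N : ℝ} (hN : 0 < N) (T : ℝ) (n : ℕ) :
    Pool.Agent.DBN.Nw.zt N T n =
      ((Real.exp (1 / 4) / √N : ℝ) : ℂ) *
        (starRingEnd ℂ) (e (T / (2 * Real.pi) * Real.log ((n + 1 : ℕ) : ℝ)) *
          (Real.exp (-(Real.log ((n + 1 : ℕ) : ℝ) - Real.log (N / Real.exp 1)) ^ 2 / 4) : ℝ)) := by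
  have hc : (0 : ℝ) < ((n + 1 : ℕ) : ℝ) := by positivity
  have hcc : ((n + 1 : ℕ) : ℂ) ≠ 0 := by
    exact_mod_cast Nat.succ_ne_zero n
  set L : ℝ := Real.log ((n + 1 : ℕ) : ℝ) with hL
  have h1 : ((n + 1 : ℕ) : ℂ) ^ (-(1 / 2 + T * I) : ℂ) =
      ((Real.exp (-(L / 2)) : ℝ) : ℂ) * exp (((-(T * L) : ℝ) : ℂ) * I) := by
    rw [cpow_def_of_ne_zero hcc, Complex.ofReal_exp, ← Complex.exp_add]
    congr 1
    rw [Complex.natCast_log.symm, ← hL]
    push_cast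
    ring
  have h2 : (starRingEnd ℂ) (e (T / (2 * Real.pi) * L)) = exp (((-(T * L) : ℝ) : ℂ) * I) := by
    rw [e, ← Complex.exp_conj]
    congr 1
    rw [map_mul, Complex.conj_I, Complex.conj_ofReal]
    have : (2 * Real.pi * (T / (2 * Real.pi) * L)) = T * L := by
      field_simp
    rw [this]
    push_cast
    ring
  have h3 : Real.exp (-(Real.log (((n + 1 : ℕ) : ℝ) / N)) ^ 2 / 4) * Real.exp (-(L / 2)) =
      Real.exp (1 / 4) / √N * Real.exp (-(L - Real.log (N / Real.exp 1)) ^ 2 / 4) := by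
    have h4 : √N = Real.exp (Real.log N / 2) := by
      rw [Real.exp_half, Real.exp_log hN]
    rw [h4, ← Real.exp_sub, ← Real.exp_add, ← Real.exp_add, Real.log_div hc.ne' hN.ne',
      Real.log_div hN.ne' (Real.exp_pos _).ne', Real.log_exp, ← hL]
    congr 1
    ring
  rw [Pool.Agent.DBN.Nw.zt, map_mul, h1, h2, Complex.conj_ofReal]
  have h5 : ∀ a b c d E : ℂ, a * b = c * d → a * (b * E) = c * (E * d) := by
    intro a b c d E h
    rw [← mul_assoc, h]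
    ring
  apply h5
  exact_mod_cast h3

theorem SUML_norm_e (x : ℝ) : ‖e x‖ = 1 := by
  rw [e, Complex.norm_exp_ofReal_mul_I]

theorem SUML_norm {N : ℝ} (hN : 0 < N) (T : ℝ) (n : ℕ) :
    ‖Pool.Agent.DBN.Nw.zt N T n‖ = Real.exp (1 / 4) / √N *
      Real.exp (-(Real.log ((n + 1 : ℕ) : ℝ) - Real.log (N / Real.exp 1)) ^ 2 / 4) := by
  rw [SUML_term hN, norm_mul, RCLike.norm_conj, norm_mul, SUML_norm_e, one_mul,
    Complex.norm_real, Complex.norm_real, Real.norm_of_nonneg (by positivity),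
    Real.norm_of_nonneg (Real.exp_pos _).le]

/-- head and tail -/
theorem SUML_split {N : ℝ} (hN : 0 < N) (T : ℝ) (M : ℕ) {A B : ℝ}
    (hA : ‖∑ n ∈ Finset.Icc 1 M, e (T / (2 * Real.pi) * Real.log n) *
      (Real.exp (-(Real.log n - Real.log (N / Real.exp 1)) ^ 2 / 4) : ℝ)‖ ≤ A)
    (hs : Summable (fun n : ℕ =>
      Real.exp (-(Real.log ((n : ℝ) + M + 1) - Real.log (N / Real.exp 1)) ^ 2 / 4)))
    (hB : ∑' n : ℕ,
      Real.exp (-(Real.log ((n : ℝ) + M + 1) - Real.log (N / Real.exp 1)) ^ 2 / 4) ≤ B) :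
    ‖Pool.Agent.DBN.zsum N T‖ ≤ Real.exp (1 / 4) / √N * (A + B) := by
  have hz := Pool.Agent.DBN.Nw.summable_zt hN T
  rw [Pool.Agent.DBN.Nw.zsum_eq, ← hz.sum_add_tsum_nat_add M]
  refine (norm_add_le _ _).trans ?_
  rw [mul_add]
  apply add_le_add
  · have h1 : ∑ i ∈ Finset.range M, Pool.Agent.DBN.Nw.zt N T i =
        ((Real.exp (1 / 4) / √N : ℝ) : ℂ) * (starRingEnd ℂ)
          (∑ n ∈ Finset.Icc 1 M, e (T / (2 * Real.pi) * Real.log n) *
            (Real.exp (-(Real.log n - Real.log (N / Real.exp 1)) ^ 2 / 4) : ℝ)) := by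
      rw [map_sum, Finset.mul_sum, Finset.range_eq_Ico,
        show Finset.Icc 1 M = Finset.Ico (0 + 1) (M + 1) by
          ext x; simp only [Finset.mem_Icc, Finset.mem_Ico]; omega,
        ← Finset.sum_Ico_add' (fun n : ℕ => ((Real.exp (1 / 4) / √N : ℝ) : ℂ) *
          (starRingEnd ℂ) (e (T / (2 * Real.pi) * Real.log n) *
            (Real.exp (-(Real.log n - Real.log (N / Real.exp 1)) ^ 2 / 4) : ℝ))) 0 M 1]
      exact Finset.sum_congr rfl fun i _ => SUML_term hN T i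
    rw [h1, norm_mul, RCLike.norm_conj, Complex.norm_real,
      Real.norm_of_nonneg (by positivity)]
    gcongr
  · have h2 : ∀ n : ℕ, ‖Pool.Agent.DBN.Nw.zt N T (n + M)‖ = Real.exp (1 / 4) / √N *
        Real.exp (-(Real.log ((n : ℝ) + M + 1) - Real.log (N / Real.exp 1)) ^ 2 / 4) := by
      intro n
      rw [SUML_norm hN]
      push_cast
      rfl
    have h3 := tsum_of_norm_bounded ((hs.mul_left (Real.exp (1 / 4) / √N)).hasSum)
      (fun n => (h2 n).le)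
    refine h3.trans ?_
    rw [tsum_mul_left]
    gcongr

/-- the smoothed zeta sums -/
theorem p_SUML : T_SUML := by
  intro hT κ hκ hG b hb0 hb1 ε hε
  have hpi := Real.pi_gt_three
  have hpi0 := Real.pi_pos
  set δ : ℝ := min (ε / 2) ((1 - b) / 4) with hδ
  have hδ0 : 0 < δ := lt_min (by positivity) (by linarith)
  have hδ1 : δ ≤ ε / 2 := min_le_left _ _
  have hδ2 : δ ≤ (1 - b) / 4 := min_le_right _ _
  obtain ⟨T₀, hT₀⟩ := hT δ hδ0
  obtain ⟨C₀, hC₀⟩ := hG δ hδ0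
  set T₁ : ℝ := max (max T₀ (2 * Real.pi)) ((2 * Real.pi / κ) ^ (1 / (2 * δ))) with hT₁
  have hT₁a : T₀ ≤ T₁ := (le_max_left _ _).trans (le_max_left _ _)
  have hT₁b : 2 * Real.pi ≤ T₁ := (le_max_right _ _).trans (le_max_left _ _)
  have hT₁c : (2 * Real.pi / κ) ^ (1 / (2 * δ)) ≤ T₁ := le_max_right _ _
  have hS := Pool.Agent.DBN.Nw.S32_nonneg
  have hT₁0 : 0 < T₁ := by linarith
  set C : ℝ := Real.exp 1 * Pool.Agent.DBN.Nw.S32 * T₁ +
    Real.exp 1 * Pool.Agent.DBN.Nw.S32 * Real.exp 1 + Real.exp (1 / 4) * (|C₀| + 1) with hC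
  refine ⟨δ, hδ0, C, fun T N hT2 hN1 hN2 => ?_⟩
  have hT0 : 0 < T := by linarith
  have hT1 : 1 ≤ T := by linarith
  have hN0 : 0 < N := lt_of_lt_of_le (by positivity) hN1
  have hTe : 1 ≤ T ^ (0 + ε) := Real.one_le_rpow hT1 (by linarith)
  have hNT : N ≤ T := by
    calc N ≤ T ^ (b + δ) := hN2
      _ ≤ T ^ (1 : ℝ) := Real.rpow_le_rpow_of_exponent_le hT1 (by linarith)
      _ = T := Real.rpow_one T
  have hz := Pool.Agent.DBN.Nw.norm_zsum_le hN0 T
  have hc1 : 0 ≤ Real.exp 1 * Pool.Agent.DBN.Nw.S32 := by positivity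
  have hc2 : 0 ≤ Real.exp (1 / 4) * (|C₀| + 1) := by positivity
  have hc3 : 0 ≤ Real.exp 1 * Pool.Agent.DBN.Nw.S32 * T₁ := by positivity
  have hc4 : 0 ≤ Real.exp 1 * Pool.Agent.DBN.Nw.S32 * Real.exp 1 := by positivity
  rcases le_total T T₁ with hTT | hTT
  · have h1 : ‖Pool.Agent.DBN.zsum N T‖ ≤ Real.exp 1 * Pool.Agent.DBN.Nw.S32 * T₁ :=
      hz.trans (mul_le_mul_of_nonneg_left (hNT.trans hTT) hc1)
    have h2 : Real.exp 1 * Pool.Agent.DBN.Nw.S32 * T₁ ≤ C := by rw [hC]; linarith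
    calc _ ≤ C := h1.trans h2
      _ = C * 1 := (mul_one C).symm
      _ ≤ _ := mul_le_mul_of_nonneg_left hTe (hc3.trans h2)
  rcases le_total N (Real.exp 1) with hNe | hNe
  · have h1 : ‖Pool.Agent.DBN.zsum N T‖ ≤ Real.exp 1 * Pool.Agent.DBN.Nw.S32 * Real.exp 1 :=
      hz.trans (mul_le_mul_of_nonneg_left hNe hc1)
    have h2 : Real.exp 1 * Pool.Agent.DBN.Nw.S32 * Real.exp 1 ≤ C := by rw [hC]; linarith
    calc _ ≤ C := h1.trans h2
      _ = C * 1 := (mul_one C).symm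
      _ ≤ _ := mul_le_mul_of_nonneg_left hTe (hc4.trans h2)
  set N₁ : ℝ := N / Real.exp 1 with hN₁
  have he1 : (2 : ℝ) ≤ Real.exp 1 := by
    have := Real.add_one_le_exp (1 : ℝ); linarith
  have hN₁1 : 1 ≤ N₁ := by rw [hN₁, le_div_iff₀ (Real.exp_pos _)]; linarith
  have hN₁2 : 2 * N₁ ≤ N := by
    have : N = N₁ * Real.exp 1 := by rw [hN₁]; field_simp
    nlinarith
  have hTd : 1 ≤ T ^ δ := Real.one_le_rpow hT1 hδ0.le
  have hNTd : 1 ≤ N₁ * T ^ δ := by nlinarith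
  set M : ℕ := ⌈N₁ * T ^ δ⌉₊ with hM
  have hM1 : N₁ * T ^ δ ≤ M := Nat.le_ceil _
  have hM2 : (M : ℝ) < N₁ * T ^ δ + 1 := Nat.ceil_lt_add_one (by positivity)
  have hM3 : (M : ℝ) ≤ N * T ^ δ := by nlinarith
  have hM4 : 1 ≤ M := by
    have : (1 : ℝ) ≤ M := hNTd.trans hM1
    exact_mod_cast this
  have hM5 : N₁ ≤ M := by nlinarith
  have hM6 : N₁ * T ^ δ ≤ (M : ℝ) + 1 := by linarith
  set t : ℝ := T / (2 * Real.pi) with ht
  have ht1 : 1 ≤ t := by rw [ht, le_div_iff₀ (by positivity)]; linarith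
  have htT : t ≤ T := by
    rw [ht]
    exact div_le_self hT0.le (by linarith)
  have hMκ : (M : ℝ) ≤ κ * t := by
    have h1 : N * T ^ δ ≤ T ^ (1 - 2 * δ) := by
      calc N * T ^ δ ≤ T ^ (b + δ) * T ^ δ := by gcongr
        _ = T ^ (b + δ + δ) := (Real.rpow_add hT0 _ _).symm
        _ ≤ T ^ (1 - 2 * δ) := Real.rpow_le_rpow_of_exponent_le hT1 (by linarith)
    have h2 : 2 * Real.pi / κ ≤ T ^ (2 * δ) := by
      have h3 : (2 * Real.pi / κ) ^ (1 / (2 * δ)) ≤ T := hT₁c.trans hTT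
      have h4 := Real.rpow_le_rpow (by positivity) h3 (by positivity : (0 : ℝ) ≤ 2 * δ)
      rwa [← Real.rpow_mul (by positivity), one_div_mul_cancel (by positivity),
        Real.rpow_one] at h4
    have h5 : T ^ (1 - 2 * δ) * T ^ (2 * δ) = T := by
      rw [← Real.rpow_add hT0, sub_add_cancel, Real.rpow_one]
    have h6 : T ^ (1 - 2 * δ) * (2 * Real.pi / κ) ≤ T := by
      calc _ ≤ T ^ (1 - 2 * δ) * T ^ (2 * δ) := by gcongr
        _ = T := h5
    have h7 : T ^ (1 - 2 * δ) ≤ κ * t := by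
      rw [ht]
      have h8 : T ^ (1 - 2 * δ) = T ^ (1 - 2 * δ) * (2 * Real.pi / κ) * (κ / (2 * Real.pi)) := by
        field_simp
      rw [h8]
      calc _ ≤ T * (κ / (2 * Real.pi)) := by gcongr
        _ = _ := by ring
    linarith
  have hA := hC₀ t ht1 M hM4 hMκ N₁ hN₁1 hM5
  obtain ⟨hs, hB⟩ := hT₀ T N₁ (hT₁a.trans hTT) hN₁1 M hM6
  have hmain := SUML_split hN0 T M hA hs hB
  refine hmain.trans ?_
  have hsN : 0 < √N := Real.sqrt_pos.2 hN0
  have hN1' : 1 ≤ N := by linarith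
  have h1 : C₀ * √(M : ℝ) * t ^ δ ≤ |C₀| * (√N * T ^ ε) := by
    have h2 : √(M : ℝ) ≤ √N * T ^ (δ / 2) := by
      rw [Real.sqrt_le_left (by positivity), mul_pow, Real.sq_sqrt hN0.le,
        ← Real.rpow_natCast, ← Real.rpow_mul hT0.le]
      simpa using hM3
    have h3 : t ^ δ ≤ T ^ δ := Real.rpow_le_rpow (by positivity) htT hδ0.le
    calc C₀ * √(M : ℝ) * t ^ δ ≤ |C₀| * √(M : ℝ) * t ^ δ := by
          gcongr
          exact le_abs_self _
      _ ≤ |C₀| * (√N * T ^ (δ / 2)) * T ^ δ := by gcongr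
      _ = |C₀| * (√N * T ^ (δ / 2 + δ)) := by rw [Real.rpow_add hT0]; ring
      _ ≤ _ := by
        gcongr
        linarith
  have h4 : N₁ / T ≤ √N * T ^ ε := by
    have h5 : N₁ / T ≤ 1 := by rw [div_le_one hT0]; linarith
    have h6 : 1 ≤ √N := by rw [Real.one_le_sqrt]; exact hN1'
    have h7 : 1 ≤ T ^ ε := by rwa [zero_add] at hTe
    nlinarith
  rw [zero_add] at hTe ⊢
  calc Real.exp (1 / 4) / √N * (C₀ * √(M : ℝ) * t ^ δ + N₁ / T) ≤
        Real.exp (1 / 4) / √N * (|C₀| * (√N * T ^ ε) + √N * T ^ ε) := by gcongr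
    _ = Real.exp (1 / 4) * (|C₀| + 1) * T ^ ε := by
      field_simp
    _ ≤ C * T ^ ε := by
      gcongr
      rw [hC]
      linarith

end Pool.Agent.Ben
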