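import Pool.Agent.Ben.Targets7
import Pool.Agent.Ben.P_SUML

set_option autoImplicit false

/-!
# The smoothed zeta sums, exponent `a`
-/

namespace Pool.Agent.Ben

open Complex Filter Topology

/-- the smoothed zeta sums, with exponent `a` -/
theorem p_GSUML : T_TAIL → G_SUML := by
  intro hT κ β a hκ hβ0 hβ1 ha hG b hb0 hb1 ε hε
  have hpi := Real.pi_gt_three
  have hpi0 := Real.pi_pos
  set δ : ℝ := min (ε / 2) ((β - b) / 4) with hδ
  have hδ0 : 0 < δ := lt_min (by positivity) (by linarith)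
  have hδ1 : δ ≤ ε / 2 := min_le_left _ _
  have hδ2 : δ ≤ (β - b) / 4 := min_le_right _ _
  obtain ⟨T₀, hT₀⟩ := hT δ hδ0
  obtain ⟨C', hC'⟩ := hG δ hδ0
  obtain ⟨C₀, hC₀⟩ : ∃ C : ℝ, ∀ t : ℝ, 1 ≤ t → ∀ M : ℕ, 1 ≤ M →
      (M : ℝ) ≤ κ * t ^ β → ∀ N : ℝ, 1 ≤ N → N ≤ M →
      ‖∑ n ∈ Finset.Icc 1 M, e (t * Real.log n) *
        (Real.exp (-(Real.log n - Real.log N) ^ 2 / 4) : ℝ)‖ ≤
        C * √(M : ℝ) * t ^ (a + δ) := by
    refine ⟨2 * |C'|, fun t ht M hM hMκ N hN hNM => (hC' t ht M hM hMκ N hN hNM).trans ?_⟩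
    have ht0 : 0 < t := by linarith
    have e1 : (M : ℝ) ^ (1 / 2 : ℝ) = √(M : ℝ) := (Real.sqrt_eq_rpow _).symm
    rw [e1, Real.rpow_add ht0]
    have e2 : 1 ≤ t ^ a := Real.one_le_rpow ht ha
    have e3 : √(M : ℝ) ≤ √(M : ℝ) * t ^ a := le_mul_of_one_le_right (Real.sqrt_nonneg _) e2
    have e4 : 0 ≤ √(M : ℝ) * t ^ a + √(M : ℝ) := by positivity
    calc C' * (√(M : ℝ) * t ^ a + √(M : ℝ)) * t ^ δ ≤
          |C'| * (√(M : ℝ) * t ^ a + √(M : ℝ)) * t ^ δ := by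
          gcongr
          exact le_abs_self C'
      _ ≤ |C'| * (√(M : ℝ) * t ^ a + √(M : ℝ) * t ^ a) * t ^ δ := by gcongr
      _ = _ := by ring
  set T₁ : ℝ := max (max T₀ (2 * Real.pi)) ((2 * Real.pi / κ) ^ (1 / (2 * δ))) with hT₁
  have hT₁a : T₀ ≤ T₁ := (le_max_left _ _).trans (le_max_left _ _)
  have hT₁b : 2 * Real.pi ≤ T₁ := (le_max_right _ _).trans (le_max_left _ _)
  have hT₁c : (2 * Real.pi / κ) ^ (1 / (2 * δ)) ≤ T₁ := le_max_right _ _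
  have hS := Pool.Agent.DBN.Nw.S32_nonneg
  have hT₁0 : 0 < T₁ := by linarith
  set C : ℝ := Real.exp 1 * Pool.Agent.DBN.Nw.S32 * T₁ +
    Real.exp 1 * Pool.Agent.DBN.Nw.S32 * Real.exp 1 + Real.exp (1 / 4) * (|C₀| + 1) with hC
  refine ⟨δ, hδ0, C, fun T N hT2 hN1 hN2 => ?_⟩
  have hT0 : 0 < T := by linarith
  have hT1 : 1 ≤ T := by linarith
  have hN0 : 0 < N := lt_of_lt_of_le (by positivity) hN1
  have hTe : 1 ≤ T ^ (a + ε) := Real.one_le_rpow hT1 (by linarith)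
  have hNT : N ≤ T := by
    calc N ≤ T ^ (b + δ) := hN2
      _ ≤ T ^ (1 : ℝ) := Real.rpow_le_rpow_of_exponent_le hT1 (by linarith)
      _ = T := Real.rpow_one T
  have hz := Pool.Agent.DBN.Nw.norm_zsum_le hN0 T
  have hc1 : 0 ≤ Real.exp 1 * Pool.Agent.DBN.Nw.S32 := by positivity
  have hc2 : 0 ≤ Real.exp (1 / 4) * (|C₀| + 1) := by positivity
  have hc3 : 0 ≤ Real.exp 1 * Pool.Agent.DBN.Nw.S32 * T₁ := by positivity
  have hc4 : 0 ≤ Real.exp 1 * Pool.Agent.DBN.Nw.S32 * Real.exp 1 := by positivity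
  rcases le_total T T₁ with hTT | hTT
  · have h1 : ‖Pool.Agent.DBN.zsum N T‖ ≤ Real.exp 1 * Pool.Agent.DBN.Nw.S32 * T₁ :=
      hz.trans (mul_le_mul_of_nonneg_left (hNT.trans hTT) hc1)
    have h2 : Real.exp 1 * Pool.Agent.DBN.Nw.S32 * T₁ ≤ C := by rw [hC]; linarith
    calc _ ≤ C := h1.trans h2
      _ = C * 1 := (mul_one C).symm
      _ ≤ _ := mul_le_mul_of_nonneg_left hTe (hc3.trans h2)
  rcases le_total N (Real.exp 1) with hNe | hNe
  · have h1 : ‖Pool.Agent.DBN.zsum N T‖ ≤ Real.exp 1 * Pool.Agent.DBN.Nw.S32 * Real.exp 1 :=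
      hz.trans (mul_le_mul_of_nonneg_left hNe hc1)
    have h2 : Real.exp 1 * Pool.Agent.DBN.Nw.S32 * Real.exp 1 ≤ C := by rw [hC]; linarith
    calc _ ≤ C := h1.trans h2
      _ = C * 1 := (mul_one C).symm
      _ ≤ _ := mul_le_mul_of_nonneg_left hTe (hc4.trans h2)
  set N₁ : ℝ := N / Real.exp 1 with hN₁
  have he1 : (2 : ℝ) ≤ Real.exp 1 := by
    have := Real.add_one_le_exp (1 : ℝ); linarith
  have hN₁1 : 1 ≤ N₁ := by rw [hN₁, le_div_iff₀ (Real.exp_pos _)]; linarith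
  have hN₁2 : 2 * N₁ ≤ N := by
    have : N = N₁ * Real.exp 1 := by rw [hN₁]; field_simp
    nlinarith
  have hTd : 1 ≤ T ^ δ := Real.one_le_rpow hT1 hδ0.le
  have hNTd : 1 ≤ N₁ * T ^ δ := by nlinarith
  set M : ℕ := ⌈N₁ * T ^ δ⌉₊ with hM
  have hM1 : N₁ * T ^ δ ≤ M := Nat.le_ceil _
  have hM2 : (M : ℝ) < N₁ * T ^ δ + 1 := Nat.ceil_lt_add_one (by positivity)
  have hM3 : (M : ℝ) ≤ N * T ^ δ := by nlinarith
  have hM4 : 1 ≤ M := by
    have : (1 : ℝ) ≤ M := hNTd.trans hM1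
    exact_mod_cast this
  have hM5 : N₁ ≤ M := by nlinarith
  have hM6 : N₁ * T ^ δ ≤ (M : ℝ) + 1 := by linarith
  set t : ℝ := T / (2 * Real.pi) with ht
  have ht1 : 1 ≤ t := by rw [ht, le_div_iff₀ (by positivity)]; linarith
  have htT : t ≤ T := by
    rw [ht]
    exact div_le_self hT0.le (by linarith)
  have hMκ : (M : ℝ) ≤ κ * t ^ β := by
    have h1 : N * T ^ δ ≤ T ^ (β - 2 * δ) := by
      calc N * T ^ δ ≤ T ^ (b + δ) * T ^ δ := by gcongr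
        _ = T ^ (b + δ + δ) := (Real.rpow_add hT0 _ _).symm
        _ ≤ T ^ (β - 2 * δ) := Real.rpow_le_rpow_of_exponent_le hT1 (by linarith)
    have h2 : 2 * Real.pi / κ ≤ T ^ (2 * δ) := by
      have h3 : (2 * Real.pi / κ) ^ (1 / (2 * δ)) ≤ T := hT₁c.trans hTT
      have h4 := Real.rpow_le_rpow (by positivity) h3 (by positivity : (0 : ℝ) ≤ 2 * δ)
      rwa [← Real.rpow_mul (by positivity), one_div_mul_cancel (by positivity),
        Real.rpow_one] at h4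
    have h5 : T ^ (β - 2 * δ) * T ^ (2 * δ) = T ^ β := by
      rw [← Real.rpow_add hT0, sub_add_cancel]
    have h6 : T ^ (β - 2 * δ) * (2 * Real.pi / κ) ≤ T ^ β := by
      calc _ ≤ T ^ (β - 2 * δ) * T ^ (2 * δ) := by gcongr
        _ = T ^ β := h5
    have h9 : T ^ β / (2 * Real.pi) ≤ t ^ β := by
      rw [ht, Real.div_rpow hT0.le (by positivity)]
      refine div_le_div_of_nonneg_left (by positivity) (by positivity) ?_
      calc (2 * Real.pi) ^ β ≤ (2 * Real.pi) ^ (1 : ℝ) :=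
            Real.rpow_le_rpow_of_exponent_le (by linarith) hβ1
        _ = 2 * Real.pi := Real.rpow_one _
    have h7 : T ^ (β - 2 * δ) ≤ κ * t ^ β := by
      have h8 : T ^ (β - 2 * δ) = T ^ (β - 2 * δ) * (2 * Real.pi / κ) * (κ / (2 * Real.pi)) := by
        field_simp
      rw [h8]
      calc _ ≤ T ^ β * (κ / (2 * Real.pi)) := by gcongr
        _ = κ * (T ^ β / (2 * Real.pi)) := by ring
        _ ≤ _ := mul_le_mul_of_nonneg_left h9 hκ.le
    linarith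
  have hA := hC₀ t ht1 M hM4 hMκ N₁ hN₁1 hM5
  obtain ⟨hs, hB⟩ := hT₀ T N₁ (hT₁a.trans hTT) hN₁1 M hM6
  have hmain := SUML_split hN0 T M hA hs hB
  refine hmain.trans ?_
  have hsN : 0 < √N := Real.sqrt_pos.2 hN0
  have hN1' : 1 ≤ N := by linarith
  have h1 : C₀ * √(M : ℝ) * t ^ (a + δ) ≤ |C₀| * (√N * T ^ (a + ε)) := by
    have h2 : √(M : ℝ) ≤ √N * T ^ (δ / 2) := by
      rw [Real.sqrt_le_left (by positivity), mul_pow, Real.sq_sqrt hN0.le,
        ← Real.rpow_natCast, ← Real.rpow_mul hT0.le]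
      simpa using hM3
    have h3 : t ^ (a + δ) ≤ T ^ (a + δ) :=
      Real.rpow_le_rpow (by positivity) htT (by linarith)
    calc C₀ * √(M : ℝ) * t ^ (a + δ) ≤ |C₀| * √(M : ℝ) * t ^ (a + δ) := by
          gcongr
          exact le_abs_self _
      _ ≤ |C₀| * (√N * T ^ (δ / 2)) * T ^ (a + δ) := by gcongr
      _ = |C₀| * (√N * T ^ (δ / 2 + (a + δ))) := by
        rw [Real.rpow_add hT0 (δ / 2) (a + δ)]; ring
      _ ≤ _ := mul_le_mul_of_nonneg_left (mul_le_mul_of_nonneg_left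
        (Real.rpow_le_rpow_of_exponent_le hT1 (by linarith)) (Real.sqrt_nonneg _)) (abs_nonneg _)
  have h4 : N₁ / T ≤ √N * T ^ (a + ε) := by
    have h5 : N₁ / T ≤ 1 := by rw [div_le_one hT0]; linarith
    have h6 : 1 ≤ √N := by rw [Real.one_le_sqrt]; exact hN1'
    nlinarith
  calc Real.exp (1 / 4) / √N * (C₀ * √(M : ℝ) * t ^ (a + δ) + N₁ / T) ≤
        Real.exp (1 / 4) / √N * (|C₀| * (√N * T ^ (a + ε)) + √N * T ^ (a + ε)) := by gcongr
    _ = Real.exp (1 / 4) * (|C₀| + 1) * T ^ (a + ε) := by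
      field_simp
    _ ≤ C * T ^ (a + ε) := by
      gcongr
      rw [hC]
      linarith

end Pool.Agent.Ben
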