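import Pool.Agent.Ben.Targets2
import Pool.Agent.Ben.P_ADMB

/-!
# Ben, target INT: integer exponents and one base
-/

set_option autoImplicit false

namespace Pool.Agent.Ben

open Complex MeasureTheory Set

namespace INT

/-- one term of the Fourier identity -/
theorem four (y : ℝ) : ∫ b in (0 : ℝ)..1, (psi (y - b) : ℂ) * e b =
    e y * (-(1 / (2 * Real.pi * I))) := by
  have h1 : ∀ b : ℝ, (psi (y - b) : ℂ) * e b =
      (fun u : ℝ => (psi u : ℂ) * e (-(((1 : ℤ) : ℝ) * (u + -y)))) (y - b) := by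
    intro b
    simp only
    congr 2
    push_cast
    ring
  simp only [h1]
  rw [intervalIntegral.integral_comp_sub_left
    (fun u : ℝ => (psi u : ℂ) * e (-(((1 : ℤ) : ℝ) * (u + -y)))) y]
  have h2 := (ADMB_per 1 (-y)).intervalIntegral_add_eq (y - 1) 0
  rw [sub_add_cancel, zero_add] at h2
  rw [sub_zero, h2]
  have h3 := ADMB_coef_psi 1
  rw [if_neg one_ne_zero] at h3
  unfold coef at h3
  have h4 : ∀ u : ℝ, (psi u : ℂ) * e (-(((1 : ℤ) : ℝ) * (u + -y))) =
      e y * ((psi u : ℂ) * e (-(((1 : ℤ) : ℝ) * u))) := by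
    intro u
    have : -(((1 : ℤ) : ℝ) * (u + -y)) = y + -(((1 : ℤ) : ℝ) * u) := by push_cast; ring
    rw [this, ADMB_e_add]; ring
  simp only [h4]
  rw [intervalIntegral.integral_const_mul, h3]
  push_cast
  rw [mul_one]

theorem int_e : ∫ b in (0 : ℝ)..1, e b = 0 := by
  have h2 : ∀ x ∈ Set.uIcc (0 : ℝ) 1,
      HasDerivAt (fun y : ℝ => e y / (2 * Real.pi * I)) (e x) x := by
    intro x _
    have h3 : HasDerivAt (fun y : ℝ => (y : ℂ)) 1 x := Complex.ofRealCLM.hasDerivAt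
    have h4 := ((h3.const_mul (2 * Real.pi * I)).cexp).div_const (2 * Real.pi * I)
    have h5 : (fun y : ℝ => e y / (2 * Real.pi * I)) =
        fun y : ℝ => cexp (2 * Real.pi * I * y) / (2 * Real.pi * I) := by
      ext y
      unfold e
      congr 2
      push_cast
      ring
    rw [h5]
    refine HasDerivAt.congr_deriv h4 ?_
    have h6 : (2 * Real.pi * I : ℂ) ≠ 0 := by simp [Real.pi_ne_zero, I_ne_zero]
    unfold e
    rw [mul_one, mul_div_assoc, div_self h6, mul_one]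
    congr 1
    push_cast
    ring
  rw [intervalIntegral.integral_eq_sub_of_hasDerivAt h2 (ADMB_cont_e.intervalIntegrable _ _)]
  have h7 : e 1 = 1 := by
    have := ADMB_e_int 1
    push_cast at this
    exact this
  have h8 : e 0 = 1 := by
    have := ADMB_e_int 0
    push_cast at this
    exact this
  rw [h7, h8, sub_self]

theorem ii_psi (y : ℝ) : IntervalIntegrable (fun b => (psi (y - b) : ℂ) * e b) volume 0 1 := by
  have hm : Measurable (fun b : ℝ => (psi (y - b) : ℂ) * e b) := by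
    apply Measurable.mul
    · exact Complex.measurable_ofReal.comp (ADMB_meas_psi.comp (measurable_const.sub measurable_id))
    · exact ADMB_cont_e.measurable
  rw [intervalIntegrable_iff_integrableOn_Ioc_of_le zero_le_one]
  refine Measure.integrableOn_of_bounded (M := 1) ?_ hm.aestronglyMeasurable ?_
  · simp
  · refine Filter.Eventually.of_forall fun b => ?_
    rw [norm_mul, ADMB_norm_e, mul_one, Complex.norm_real, Real.norm_eq_abs]
    linarith [ADMB_psi_le (y - b)]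

/-- the exponential sum and the discrepancy -/
theorem koksma (N : ℕ) (y : ℕ → ℝ) {A : ℝ} (hA : ∀ b : ℝ, 0 < b → b < 1 →
    |∑ n ∈ Finset.Icc 1 N, (psi (y n - b) - psi (y n))| ≤ A) :
    ‖∑ n ∈ Finset.Icc 1 N, e (y n)‖ ≤ 2 * Real.pi * A := by
  have h1 : ∫ b in (0 : ℝ)..1, ((∑ n ∈ Finset.Icc 1 N, (psi (y n - b) - psi (y n)) : ℝ) : ℂ) * e b
      = (∑ n ∈ Finset.Icc 1 N, e (y n)) * (-(1 / (2 * Real.pi * I))) := by
    have e1 : ∀ b : ℝ, ((∑ n ∈ Finset.Icc 1 N, (psi (y n - b) - psi (y n)) : ℝ) : ℂ) * e b =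
        ∑ n ∈ Finset.Icc 1 N, ((psi (y n - b) : ℂ) * e b - (psi (y n) : ℂ) * e b) := by
      intro b
      push_cast
      rw [Finset.sum_mul]
      exact Finset.sum_congr rfl fun n _ => by ring
    simp only [e1]
    rw [intervalIntegral.integral_finsetSum]
    · rw [Finset.sum_mul]
      refine Finset.sum_congr rfl fun n _ => ?_
      rw [intervalIntegral.integral_sub (ii_psi _)
        ((ADMB_cont_e.intervalIntegrable _ _).const_mul _), four,
        intervalIntegral.integral_const_mul, int_e, mul_zero, sub_zero]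
    · intro n _
      exact (ii_psi _).sub ((ADMB_cont_e.intervalIntegrable _ _).const_mul _)
  have h2 : ‖∫ b in (0 : ℝ)..1,
      ((∑ n ∈ Finset.Icc 1 N, (psi (y n - b) - psi (y n)) : ℝ) : ℂ) * e b‖ ≤ A * |1 - 0| := by
    apply intervalIntegral.norm_integral_le_of_norm_le_const_ae
    have h3 : ∀ᵐ x ∂(volume : Measure ℝ), x ≠ 1 := by
      simp [ae_iff, measure_singleton]
    filter_upwards [h3] with x hx1 hx
    rw [Set.uIoc_of_le zero_le_one] at hx
    rw [norm_mul, ADMB_norm_e, mul_one, Complex.norm_real, Real.norm_eq_abs]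
    exact hA x hx.1 (lt_of_le_of_ne hx.2 hx1)
  rw [h1, norm_mul, norm_neg, norm_div, norm_one] at h2
  have h4 : ‖(2 * Real.pi * I : ℂ)‖ = 2 * Real.pi := by
    rw [norm_mul, norm_mul, Complex.norm_I, Complex.norm_real, Real.norm_eq_abs,
      abs_of_pos Real.pi_pos]
    norm_num
  rw [h4, sub_zero, abs_one, mul_one, mul_one_div, div_le_iff₀ (by positivity)] at h2
  linarith

/-- Abel summation -/
theorem abel (M : ℕ) (hM : 1 ≤ M) (a b : ℕ → ℂ) {A V : ℝ}
    (hA : ∀ m, 1 ≤ m → m ≤ M → ‖∑ n ∈ Finset.Icc 1 m, a n‖ ≤ A)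
    (hb : ‖b M‖ + ∑ i ∈ Finset.range (M - 1), ‖b (i + 2) - b (i + 1)‖ ≤ V) :
    ‖∑ n ∈ Finset.Icc 1 M, a n * b n‖ ≤ A * V := by
  have hsh : ∀ (f : ℕ → ℂ) (m : ℕ), ∑ n ∈ Finset.Icc 1 m, f n =
      ∑ i ∈ Finset.range m, f (i + 1) := by
    intro f m
    have : Finset.Icc 1 m = Finset.Ico 1 (m + 1) := by ext; simp
    rw [this, Finset.sum_Ico_eq_sum_range]
    simp only [add_tsub_cancel_right]
    exact Finset.sum_congr rfl fun i _ => by rw [add_comm]
  have hA0 : 0 ≤ A := le_trans (norm_nonneg _) (hA 1 le_rfl hM)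
  rw [hsh]
  have h1 := Finset.sum_range_by_parts (fun i => b (i + 1)) (fun i => a (i + 1)) M
  simp only [smul_eq_mul] at h1
  have h2 : ∑ i ∈ Finset.range M, a (i + 1) * b (i + 1) =
      ∑ i ∈ Finset.range M, b (i + 1) * a (i + 1) :=
    Finset.sum_congr rfl fun i _ => by ring
  rw [h2, h1]
  have hM' : M - 1 + 1 = M := by omega
  rw [hM']
  refine le_trans (norm_sub_le _ _) ?_
  have e1 : ‖b M * ∑ i ∈ Finset.range M, a (i + 1)‖ ≤ A * ‖b M‖ := by
    rw [norm_mul, mul_comm]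
    refine mul_le_mul_of_nonneg_right ?_ (norm_nonneg _)
    rw [← hsh]; exact hA M hM le_rfl
  have e2 : ‖∑ i ∈ Finset.range (M - 1), (b (i + 1 + 1) - b (i + 1)) *
      ∑ j ∈ Finset.range (i + 1), a (j + 1)‖ ≤
      A * ∑ i ∈ Finset.range (M - 1), ‖b (i + 2) - b (i + 1)‖ := by
    rw [Finset.mul_sum]
    refine le_trans (norm_sum_le _ _) (Finset.sum_le_sum fun i hi => ?_)
    rw [Finset.mem_range] at hi
    rw [norm_mul, mul_comm]
    refine mul_le_mul_of_nonneg_right ?_ (norm_nonneg _)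
    rw [← hsh]; exact hA (i + 1) (by omega) (by omega)
  calc _ ≤ A * ‖b M‖ + A * ∑ i ∈ Finset.range (M - 1), ‖b (i + 2) - b (i + 1)‖ :=
        add_le_add e1 e2
    _ = A * (‖b M‖ + ∑ i ∈ Finset.range (M - 1), ‖b (i + 2) - b (i + 1)‖) := by ring
    _ ≤ A * V := mul_le_mul_of_nonneg_left hb hA0

theorem e_lip (x y : ℝ) : ‖e x - e y‖ ≤ 2 * Real.pi * |x - y| := by
  have h1 : e x - e y = e y * (e (x - y) - 1) := by
    have : x = y + (x - y) := by ring
    conv_lhs => rw [this, ADMB_e_add]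
    ring
  rw [h1, norm_mul, ADMB_norm_e, one_mul]
  have h2 := Real.norm_exp_I_mul_ofReal_sub_one_le (x := 2 * Real.pi * (x - y))
  unfold e
  rw [mul_comm (Complex.ofReal _) I]
  refine le_trans h2 ?_
  rw [Real.norm_eq_abs, abs_mul, abs_of_pos (by positivity)]

theorem gauss_lip (x y : ℝ) : |Real.exp (-x ^ 2 / 4) - Real.exp (-y ^ 2 / 4)| ≤ |x - y| := by
  have h := Convex.norm_image_sub_le_of_norm_hasDerivWithin_le (𝕜 := ℝ)
    (f := fun x : ℝ => Real.exp (-x ^ 2 / 4))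
    (f' := fun x : ℝ => Real.exp (-x ^ 2 / 4) * (-(2 * x) / 4)) (s := Set.univ) (C := 1)
    (x := y) (y := x) (fun z _ => ?_) (fun z _ => ?_) convex_univ (mem_univ _) (mem_univ _)
  · simpa [Real.norm_eq_abs] using h
  · apply HasDerivAt.hasDerivWithinAt
    have h1 : HasDerivAt (fun x : ℝ => -x ^ 2 / 4) (-(2 * z) / 4) z := by
      have := ((hasDerivAt_pow 2 z).neg).div_const 4
      simpa using this
    exact h1.exp
  · rw [Real.norm_eq_abs, abs_mul, abs_of_pos (Real.exp_pos _)]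
    have h1 : |(-(2 * z) / 4)| ≤ Real.exp (z ^ 2 / 4) := by
      have h2 := Real.add_one_le_exp (z ^ 2 / 4)
      have h3 : |(-(2 * z) / 4)| ≤ z ^ 2 / 4 + 1 := by
        rw [abs_le]; constructor <;> nlinarith [sq_nonneg (z - 1), sq_nonneg (z + 1)]
      linarith
    calc Real.exp (-z ^ 2 / 4) * |(-(2 * z) / 4)|
        ≤ Real.exp (-z ^ 2 / 4) * Real.exp (z ^ 2 / 4) :=
          mul_le_mul_of_nonneg_left h1 (Real.exp_pos _).le
      _ = 1 := by rw [← Real.exp_add]; simp [neg_div]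

end INT

open INT in
theorem p_INT : T_INT := by
  intro hM g hg hB ε hε
  have hlg : 0 < Real.log g := Real.log_pos hg
  have hg0 : 0 < g := by linarith
  obtain ⟨C, hC⟩ := hB (ε / 2) (by linarith)
  set κ := Real.log g with hκ
  refine ⟨2 * Real.pi * |C| * (κ + 1) ^ (ε / 2) *
    (1 + (2 * Real.pi / κ + 1) * (κ ^ (ε / 2) / (ε / 2))), ?_⟩
  intro t ht M hM1 hMt N hN1 hNM
  set k : ℕ := ⌈t * κ⌉₊ with hk
  have hk1 : t * κ ≤ k := Nat.le_ceil _
  have hk2 : (k : ℝ) < t * κ + 1 := Nat.ceil_lt_add_one (by positivity)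
  have hMk : M ≤ k := by
    have : (M : ℝ) ≤ k := by linarith
    exact_mod_cast this
  have hk0 : 0 < (k : ℝ) := by
    have : (1 : ℝ) ≤ M := by exact_mod_cast hM1
    have : (M : ℝ) ≤ k := by exact_mod_cast hMk
    linarith
  -- the sums at k / log g
  have hS : ∀ m, 1 ≤ m → m ≤ M → ‖∑ n ∈ Finset.Icc 1 m, e (k / κ * Real.log n)‖ ≤
      2 * Real.pi * (|C| * √(M : ℝ) * ((κ + 1) ^ (ε / 2) * t ^ (ε / 2))) := by
    intro m hm1 hmM
    apply koksma m (fun n => k / κ * Real.log n)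
    intro b hb0 hb1
    have h1 := hM g 1 (g ^ b) hg one_pos
      (by rw [← Real.rpow_zero g]; exact Real.rpow_lt_rpow_of_exponent_lt hg hb0)
      (by rw [mul_one]; nth_rewrite 2 [← Real.rpow_one g];
          exact Real.rpow_lt_rpow_of_exponent_lt hg hb1) k hk0 m
    have h2 := hC k m hm1 (hmM.trans hMk) (g ^ b)
      (by rw [← Real.rpow_zero g]; exact (Real.rpow_lt_rpow_of_exponent_lt hg hb0).le)
      (by nth_rewrite 2 [← Real.rpow_one g];
          exact (Real.rpow_lt_rpow_of_exponent_lt hg hb1).le)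
    rw [div_one] at h1
    rw [h1] at h2
    simp only [Real.logb_one, sub_zero, Real.logb_rpow hg0 hg.ne'] at h2
    refine le_trans h2 ?_
    have h3 : √(m : ℝ) ≤ √(M : ℝ) := Real.sqrt_le_sqrt (by exact_mod_cast hmM)
    have h4 : (k : ℝ) ^ (ε / 2) ≤ (κ + 1) ^ (ε / 2) * t ^ (ε / 2) := by
      rw [← Real.mul_rpow (by linarith) (by linarith)]
      apply Real.rpow_le_rpow hk0.le _ (by linarith)
      nlinarith
    calc C * √(m : ℝ) * (k : ℝ) ^ (ε / 2) ≤ |C| * √(m : ℝ) * (k : ℝ) ^ (ε / 2) := by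
          gcongr
          exact le_abs_self C
      _ ≤ |C| * √(M : ℝ) * ((κ + 1) ^ (ε / 2) * t ^ (ε / 2)) := by gcongr
  set θ : ℝ := t - k / κ with hθ
  have hθ1 : |θ| ≤ 1 / κ := by
    have h1 : k / κ - t = (k - t * κ) / κ := by field_simp
    rw [hθ, abs_sub_comm, h1, abs_of_nonneg (div_nonneg (by linarith) hlg.le)]
    apply div_le_div_of_nonneg_right _ hlg.le
    linarith
  set bb : ℕ → ℂ := fun n => e (θ * Real.log n) *
    (Real.exp (-(Real.log n - Real.log N) ^ 2 / 4) : ℝ) with hbb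
  have hterm : ∀ n ∈ Finset.Icc 1 M, e (t * Real.log n) *
      (Real.exp (-(Real.log n - Real.log N) ^ 2 / 4) : ℝ) =
      e (k / κ * Real.log n) * bb n := by
    intro n _
    have : t * Real.log n = k / κ * Real.log n + θ * Real.log n := by rw [hθ]; ring
    rw [this, ADMB_e_add, hbb]
    ring
  rw [Finset.sum_congr rfl hterm]
  have hVar : ‖bb M‖ + ∑ i ∈ Finset.range (M - 1), ‖bb (i + 2) - bb (i + 1)‖ ≤
      1 + (2 * Real.pi / κ + 1) * Real.log M := by
    have hw : ∀ n : ℕ, Real.exp (-(Real.log n - Real.log N) ^ 2 / 4) ≤ 1 := fun n => by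
      rw [Real.exp_le_one_iff]
      have := sq_nonneg (Real.log n - Real.log N)
      linarith
    have h1 : ‖bb M‖ ≤ 1 := by
      rw [hbb, norm_mul, ADMB_norm_e, one_mul, Complex.norm_real, Real.norm_eq_abs,
        abs_of_pos (Real.exp_pos _)]
      exact hw M
    have h2 : ∀ i ∈ Finset.range (M - 1), ‖bb (i + 2) - bb (i + 1)‖ ≤
        (2 * Real.pi / κ + 1) * (Real.log ((i + 1 : ℕ) + 1 : ℕ) - Real.log ((i + 1 : ℕ) : ℝ)) := by
      intro i _
      have hlog : 0 ≤ Real.log ((i + 1 : ℕ) + 1 : ℕ) - Real.log ((i + 1 : ℕ) : ℝ) := by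
        rw [sub_nonneg]
        apply Real.log_le_log (by positivity)
        push_cast; linarith
      have e1 : bb (i + 2) - bb (i + 1) =
          (e (θ * Real.log ((i + 1 : ℕ) + 1 : ℕ)) - e (θ * Real.log ((i + 1 : ℕ) : ℝ))) *
            (Real.exp (-(Real.log ((i + 1 : ℕ) + 1 : ℕ) - Real.log N) ^ 2 / 4) : ℝ) +
          e (θ * Real.log ((i + 1 : ℕ) : ℝ)) *
            ((Real.exp (-(Real.log ((i + 1 : ℕ) + 1 : ℕ) - Real.log N) ^ 2 / 4) -
              Real.exp (-(Real.log ((i + 1 : ℕ) : ℝ) - Real.log N) ^ 2 / 4) : ℝ) : ℂ) := by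
        rw [hbb]
        simp only [Complex.ofReal_sub]
        ring
      rw [e1]
      refine le_trans (norm_add_le _ _) ?_
      rw [norm_mul, norm_mul, ADMB_norm_e, one_mul, Complex.norm_real, Complex.norm_real,
        Real.norm_eq_abs, Real.norm_eq_abs, abs_of_pos (Real.exp_pos _)]
      have e2 := e_lip (θ * Real.log ((i + 1 : ℕ) + 1 : ℕ)) (θ * Real.log ((i + 1 : ℕ) : ℝ))
      have e3 := gauss_lip (Real.log ((i + 1 : ℕ) + 1 : ℕ) - Real.log N)
        (Real.log ((i + 1 : ℕ) : ℝ) - Real.log N)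
      rw [← mul_sub, abs_mul, abs_of_nonneg hlog] at e2
      rw [sub_sub_sub_cancel_right, abs_of_nonneg hlog] at e3
      have e4 : 2 * Real.pi * (|θ| * (Real.log ((i + 1 : ℕ) + 1 : ℕ) -
          Real.log ((i + 1 : ℕ) : ℝ))) ≤ 2 * Real.pi / κ *
          (Real.log ((i + 1 : ℕ) + 1 : ℕ) - Real.log ((i + 1 : ℕ) : ℝ)) := by
        rw [← mul_assoc]
        apply mul_le_mul_of_nonneg_right _ hlog
        rw [div_eq_mul_one_div]
        exact mul_le_mul_of_nonneg_left hθ1 (by positivity)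
      have e5 := hw ((i + 1) + 1)
      have e6 := norm_nonneg (e (θ * Real.log ((i + 1 : ℕ) + 1 : ℕ)) -
        e (θ * Real.log ((i + 1 : ℕ) : ℝ)))
      have e7 := mul_le_mul_of_nonneg_left e5 e6
      rw [mul_one] at e7
      linarith
    have h3 : ∑ i ∈ Finset.range (M - 1), ‖bb (i + 2) - bb (i + 1)‖ ≤
        (2 * Real.pi / κ + 1) * Real.log M := by
      refine le_trans (Finset.sum_le_sum h2) ?_
      rw [← Finset.mul_sum]
      have h4 := Finset.sum_range_sub (fun i : ℕ => Real.log ((i + 1 : ℕ) : ℝ)) (M - 1)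
      rw [h4]
      have h5 : M - 1 + 1 = M := by omega
      rw [h5]
      simp
    linarith
  have hab := abel M hM1 (fun n => e (k / κ * Real.log n)) bb hS hVar
  refine le_trans hab ?_
  have hlogM : Real.log M ≤ κ ^ (ε / 2) / (ε / 2) * t ^ (ε / 2) := by
    have h1 := Real.log_le_rpow_div (x := (M : ℝ)) (by positivity) (half_pos hε)
    have h2 : (M : ℝ) ^ (ε / 2) ≤ κ ^ (ε / 2) * t ^ (ε / 2) := by
      rw [← Real.mul_rpow hlg.le (by linarith)]
      exact Real.rpow_le_rpow (by positivity) hMt (by linarith)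
    calc Real.log M ≤ (M : ℝ) ^ (ε / 2) / (ε / 2) := h1
      _ ≤ (κ ^ (ε / 2) * t ^ (ε / 2)) / (ε / 2) := by gcongr
      _ = _ := by ring
  have htε : (1 : ℝ) ≤ t ^ (ε / 2) := Real.one_le_rpow ht (by linarith)
  have htt : t ^ ε = t ^ (ε / 2) * t ^ (ε / 2) := by
    rw [← Real.rpow_add (by linarith)]; congr 1; ring
  have hP : 0 ≤ 2 * Real.pi * (|C| * √(M : ℝ) * ((κ + 1) ^ (ε / 2) * t ^ (ε / 2))) := by
    positivity
  calc 2 * Real.pi * (|C| * √(M : ℝ) * ((κ + 1) ^ (ε / 2) * t ^ (ε / 2))) *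
        (1 + (2 * Real.pi / κ + 1) * Real.log M)
      ≤ 2 * Real.pi * (|C| * √(M : ℝ) * ((κ + 1) ^ (ε / 2) * t ^ (ε / 2))) *
        (t ^ (ε / 2) + (2 * Real.pi / κ + 1) * (κ ^ (ε / 2) / (ε / 2) * t ^ (ε / 2))) := by
        gcongr
    _ = _ := by rw [htt]; ring

end Pool.Agent.Ben
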