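import Pool.Agent.Ben.Targets

/-!
# Mellin inversion for the cutoff
-/

set_option autoImplicit false

namespace Pool.Agent.Ben

open Complex MeasureTheory Set

theorem INV_integrable (hRB : T_RB) (N : ℕ) (hN : 1 ≤ N) (σ : ℝ) (hσ : 0 < σ) :
    Integrable (fun v : ℝ => RR N (σ + v * I)) := by
  have hre : ∀ v : ℝ, (σ + v * I : ℂ).re = σ := by
    intro v
    simp
  have him : ∀ v : ℝ, (σ + v * I : ℂ).im = v := by
    intro v
    simp
  obtain ⟨c, hc⟩ : ∃ c, c = min 1 (σ ^ 2) := ⟨_, rfl⟩
  have hc0 : 0 < c := by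
    rw [hc]
    exact lt_min one_pos (by positivity)
  have hcont : Continuous (fun v : ℝ => RR N (σ + v * I)) := by
    unfold RR
    have h1 : Continuous (fun v : ℝ => (σ + v * I : ℂ)) := by fun_prop
    have hN0 : ((N : ℝ) : ℂ) ≠ 0 := by
      exact_mod_cast (by omega : N ≠ 0)
    have hN1 : (((N : ℝ) + 1 : ℝ) : ℂ) ≠ 0 := by
      have : (0 : ℝ) < (N : ℝ) + 1 := by positivity
      exact_mod_cast this.ne'
    refine Continuous.div ?_ (by fun_prop) ?_
    · refine Continuous.sub ?_ ?_
      · exact (h1.add continuous_const).const_cpow (Or.inl hN1)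
      · exact (h1.add continuous_const).const_cpow (Or.inl hN0)
    · intro v h
      rcases mul_eq_zero.1 h with h | h
      · have := congrArg Complex.re h
        rw [hre] at this
        simp at this
        exact hσ.ne' this
      · have := congrArg Complex.re h
        rw [Complex.add_re, hre] at this
        simp at this
        linarith
  refine Integrable.mono' (g := fun v : ℝ => 2 * (N + 1 : ℝ) ^ (σ + 1) / c * (1 + v ^ 2)⁻¹)
    (integrable_inv_one_add_sq.const_mul _) hcont.aestronglyMeasurable ?_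
  refine Filter.Eventually.of_forall fun v => ?_
  have h1 := (hRB N hN (σ + v * I) (by rw [hre]; exact hσ)).1
  rw [hre] at h1
  refine h1.trans ?_
  have h2 : ‖(σ + v * I : ℂ)‖ ^ 2 = σ ^ 2 + v ^ 2 := by
    rw [Complex.sq_norm, Complex.normSq_apply, hre, him]
    ring
  have h3 : ‖(σ + v * I : ℂ)‖ ≤ ‖(σ + v * I : ℂ) + 1‖ := by
    have h4 : ‖(σ + v * I : ℂ)‖ ^ 2 ≤ ‖(σ + v * I : ℂ) + 1‖ ^ 2 := by
      rw [h2, Complex.sq_norm, Complex.normSq_apply, Complex.add_re, Complex.add_im, hre, him]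
      simp
      nlinarith
    exact (sq_le_sq₀ (norm_nonneg _) (norm_nonneg _)).1 h4
  have h4 : c * (1 + v ^ 2) ≤ ‖(σ + v * I : ℂ)‖ * ‖(σ + v * I : ℂ) + 1‖ := by
    have h5 : c ≤ 1 := by
      rw [hc]
      exact min_le_left _ _
    have h6 : c ≤ σ ^ 2 := by
      rw [hc]
      exact min_le_right _ _
    calc c * (1 + v ^ 2) ≤ σ ^ 2 + v ^ 2 := by nlinarith [sq_nonneg v]
      _ = ‖(σ + v * I : ℂ)‖ * ‖(σ + v * I : ℂ)‖ := by rw [← h2, sq]
      _ ≤ _ := mul_le_mul_of_nonneg_left h3 (norm_nonneg _)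
  have h7 : (0 : ℝ) < 1 + v ^ 2 := by positivity
  rw [div_mul_eq_mul_div, ← div_eq_mul_inv, div_div]
  rw [mul_comm (1 + v ^ 2) c]
  exact div_le_div_of_nonneg_left (by positivity) (by positivity) h4

theorem p_INV : T_INV := by
  intro hMEL hRB N hN σ hσ
  have hint := INV_integrable hRB N hN σ hσ
  refine ⟨hint, fun x hx => ?_⟩
  have hre : ∀ v : ℝ, (σ + v * I : ℂ).re = σ := by
    intro v
    simp
  have hm : ∀ v : ℝ, mellin (fun x => (rho N x : ℂ)) (σ + v * I) = RR N (σ + v * I) := by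
    intro v
    exact (hMEL N hN (σ + v * I) (by rw [hre]; exact hσ)).2
  have hcont : Continuous (fun x => (rho N x : ℂ)) := by
    unfold rho
    fun_prop
  have hinv := mellinInv_mellin_eq σ (fun x => (rho N x : ℂ)) hx
    (hMEL N hN σ (by simpa using hσ)).1 (by
      change Integrable (fun v : ℝ => mellin (fun x => (rho N x : ℂ)) (σ + v * I))
      simp only [hm]
      exact hint) hcont.continuousAt
  rw [← hinv]
  unfold mellinInv
  simp only [hm, smul_eq_mul]
  rw [Complex.real_smul]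
  congr 1
  refine integral_congr_ae (Filter.Eventually.of_forall fun v => ?_)
  simp only
  ring

end Pool.Agent.Ben
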