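import Pool.Agent.Ben.Targets
import Pool.Agent.NBL.Mel
import Pool.Agent.DBN.Mu2

/-!
# `ζ(s) - 1/(s-1)` in the strip `1/2 ≤ Re s ≤ 2`
-/

set_option autoImplicit false

namespace Pool.Agent.Ben

open Complex MeasureTheory Set

/-- the continuation of `ζ(s) - 1/(s-1)` to `Re s > 0` -/
private noncomputable def KB_K (s : ℂ) : ℂ := 1 - s * mellin Pool.Agent.NBL.f1 s

private theorem KB_diff {s : ℂ} (hs : 0 < s.re) : DifferentiableAt ℂ KB_K s := by
  have h := Pool.Agent.NBL.f1_diff hs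
  unfold KB_K
  fun_prop

private theorem KB_eq {s : ℂ} (hs : 0 < s.re) (h1 : s ≠ 1) :
    KB_K s = riemannZeta s - 1 / (s - 1) := by
  have h2 := Pool.Agent.NBL.f1_all hs
  have h3 : s - 1 ≠ 0 := sub_ne_zero.2 h1
  rw [riemannZeta_eq_inv_sub_mul h1]
  unfold KB_K
  field_simp
  linear_combination -h2

private noncomputable def KB_a (σ : ℝ) : ℝ := max (|σ - 1 / 2| / 2) (1 / 4) - (σ - 1 / 2) / 2

private theorem KB_mu (σ : ℝ) : Pool.Agent.DBN.MuLe σ (KB_a σ) := by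
  have key : ∀ x : ℝ, Pool.Agent.DBN.MuLe (1 / 2 + x) (max (|x| / 2) (1 / 4) - x / 2) := by
    intro x
    rcases le_total |x| (1 / 2) with h | h
    · rw [max_eq_right (by linarith)]
      exact Pool.Agent.DBN.mu_convexity h
    · rw [max_eq_left (by linarith)]
      rcases le_total 0 x with h1 | h1
      · rw [abs_of_nonneg h1] at h ⊢
        rw [sub_self]
        exact Pool.Agent.DBN.mu_right h
      · rw [abs_of_nonpos h1] at h ⊢
        have e : -x / 2 - x / 2 = -x := by ring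
        rw [e]
        exact Pool.Agent.DBN.mu_left (by linarith)
  have h := key (σ - 1 / 2)
  rw [show 1 / 2 + (σ - 1 / 2) = σ by ring] at h
  exact h

private theorem KB_a_le {σ : ℝ} (h : 1 / 2 ≤ σ) : KB_a σ ≤ 1 / 4 := by
  unfold KB_a
  rw [abs_of_nonneg (by linarith), sub_le_iff_le_add]
  exact max_le (by linarith) (by linarith)

private theorem KB_up : ∃ C : ℝ, 1 ≤ C ∧ ∀ σ T : ℝ, 1 / 2 ≤ σ → σ ≤ 2 → 2 ≤ T →
    ‖riemannZeta (σ + T * I)‖ ≤ C * (1 + T) ^ (1 / 2 : ℝ) := by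
  obtain ⟨C, hC, h⟩ := Pool.Agent.DBN.mu_unif (a := KB_a)
    (by unfold KB_a; fun_prop) KB_mu 2 (ε := 1 / 4) (by norm_num)
  refine ⟨C, hC, fun σ T h1 h2 hT => ?_⟩
  refine (h σ T (abs_le.2 ⟨by linarith, h2⟩) hT).trans ?_
  have h3 : T ^ (KB_a σ + 1 / 4) ≤ (1 + T) ^ (1 / 2 : ℝ) :=
    (Real.rpow_le_rpow_of_exponent_le (by linarith)
      (by linarith [KB_a_le h1] : KB_a σ + 1 / 4 ≤ 1 / 2)).trans
      (Real.rpow_le_rpow (by linarith) (by linarith) (by norm_num))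
  gcongr

private theorem KB_all : ∃ C : ℝ, 1 ≤ C ∧ ∀ s : ℂ, 1 / 2 ≤ s.re → s.re ≤ 2 → 2 ≤ |s.im| →
    ‖riemannZeta s‖ ≤ C * (1 + |s.im|) ^ (1 / 2 : ℝ) := by
  obtain ⟨C, hC, h⟩ := KB_up
  refine ⟨C, hC, fun s h1 h2 h3 => ?_⟩
  rcases le_total 0 s.im with h0 | h0
  · rw [abs_of_nonneg h0] at h3 ⊢
    have := h s.re s.im h1 h2 h3
    rwa [re_add_im] at this
  · rw [abs_of_nonpos h0] at h3 ⊢
    have h4 := h s.re (-s.im) h1 h2 h3
    have e : ((s.re : ℂ) + ((-s.im : ℝ) : ℂ) * I) = (starRingEnd ℂ) s := by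
      apply Complex.ext <;> simp
    rw [e, riemannZeta_conj, Complex.norm_conj] at h4
    exact h4

theorem p_KB : T_KB := by
  refine ⟨KB_K, fun s hs => KB_diff hs, fun s hs h1 => KB_eq hs h1, ?_⟩
  obtain ⟨C, hC, h⟩ := KB_all
  have hcomp : IsCompact (Icc (1 / 2 : ℝ) 2 ×ℂ Icc (-2 : ℝ) 2) :=
    isCompact_Icc.reProdIm isCompact_Icc
  have hcont : ContinuousOn KB_K (Icc (1 / 2 : ℝ) 2 ×ℂ Icc (-2 : ℝ) 2) := by
    intro s hs
    rw [mem_reProdIm] at hs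
    exact (KB_diff (by linarith [hs.1.1] : 0 < s.re)).continuousAt.continuousWithinAt
  obtain ⟨D, hD⟩ := hcomp.exists_bound_of_continuousOn hcont
  refine ⟨C + 1 + |D|, fun s h1 h2 => ?_⟩
  have hone : (1 : ℝ) ≤ (1 + |s.im|) ^ (1 / 2 : ℝ) :=
    Real.one_le_rpow (by linarith [abs_nonneg s.im]) (by norm_num)
  have hDn := abs_nonneg D
  rcases le_total |s.im| 2 with h3 | h3
  · have h4 := hD s (mem_reProdIm.2 ⟨⟨h1, h2⟩, abs_le.1 h3⟩)
    calc ‖KB_K s‖ ≤ D := h4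
      _ ≤ |D| := le_abs_self D
      _ ≤ (C + 1 + |D|) * 1 := by linarith
      _ ≤ _ := by gcongr
  · have hs1 : s ≠ 1 := by
      rintro rfl
      simp at h3
      linarith
    have h5 : ‖1 / (s - 1)‖ ≤ 1 := by
      rw [norm_div, norm_one]
      have h6 : |s.im| ≤ ‖s - 1‖ := by
        have := abs_im_le_norm (s - 1)
        simpa using this
      exact div_le_one_of_le₀ (by linarith) (norm_nonneg _)
    rw [KB_eq (by linarith) hs1]
    calc ‖riemannZeta s - 1 / (s - 1)‖ ≤ ‖riemannZeta s‖ + ‖1 / (s - 1)‖ := norm_sub_le _ _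
      _ ≤ C * (1 + |s.im|) ^ (1 / 2 : ℝ) + 1 * (1 + |s.im|) ^ (1 / 2 : ℝ) := by
          refine add_le_add (h s h1 h2 h3) ?_
          rw [one_mul]
          exact h5.trans hone
      _ = (C + 1) * (1 + |s.im|) ^ (1 / 2 : ℝ) := by ring
      _ ≤ _ := mul_le_mul_of_nonneg_right (by linarith) (by linarith)

end Pool.Agent.Ben
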