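import Pool.Agent.Ben.Targets

/-!
# The number of digits of a power
-/

set_option autoImplicit false

namespace Pool.Agent.Ben

private theorem LEN_one (g k m : ℕ) (hg : 2 ≤ g) (hm : 1 ≤ m) :
    (len g (m ^ k) : ℝ) = k / Real.log g * Real.log m -
      Int.fract (k / Real.log g * Real.log m) + 1 := by
  have h1 : len g (m ^ k) = Nat.log g (m ^ k) + 1 := by
    unfold len
    exact Nat.digits_len g (m ^ k) (by omega) (by positivity)
  have h2 : ((Nat.log g (m ^ k) : ℕ) : ℤ) = ⌊(k / Real.log g * Real.log m : ℝ)⌋ := by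
    rw [← Int.log_natCast (R := ℝ), ← Real.floor_logb_natCast (by positivity)]
    congr 1
    rw [Real.logb, Nat.cast_pow, Real.log_pow]
    ring
  have h3 : ((Nat.log g (m ^ k) : ℕ) : ℝ) = (⌊(k / Real.log g * Real.log m : ℝ)⌋ : ℝ) := by
    exact_mod_cast congrArg (Int.cast : ℤ → ℝ) h2
  rw [h1, Nat.cast_add, h3, Nat.cast_one, ← Int.self_sub_floor]
  ring

private theorem LEN_sum (N : ℕ) :
    ∑ n ∈ Finset.Icc 1 N, Real.log (n : ℝ) = Real.log (N.factorial : ℝ) := by
  induction N with
  | zero => simp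
  | succ N ih =>
    rw [Finset.sum_Icc_succ_top (by omega), ih, Nat.factorial_succ, Nat.cast_mul,
      Real.log_mul (by positivity) (by positivity)]
    ring

theorem p_LEN : T_LEN := by
  intro g k N hg _ _
  have h1 : ∑ n ∈ Finset.Icc 1 N, (len g (n ^ k) : ℝ) =
      ∑ n ∈ Finset.Icc 1 N, (k / Real.log g * Real.log n -
        psi (k / Real.log g * Real.log n) + 1 / 2) := by
    refine Finset.sum_congr rfl fun n hn => ?_
    rw [LEN_one g k n hg (Finset.mem_Icc.1 hn).1, psi]
    ring
  rw [h1, Finset.sum_add_distrib, Finset.sum_sub_distrib, ← Finset.mul_sum, LEN_sum,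
    LEN_one g k N.factorial hg N.factorial_pos, Finset.sum_const, Nat.card_Icc, nsmul_eq_mul,
    Nat.add_sub_cancel]
  ring

end Pool.Agent.Ben
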