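import Pool.Agent.Ben.Targets

/-!
# LH and Benford's law: the number of digits from the discrepancy bound
-/

set_option autoImplicit false

namespace Pool.Agent.Ben

open Complex MeasureTheory Set

theorem p_LENF : T_LENF := by
  intro hLEN hD ε hε
  obtain ⟨C, hC⟩ := hD ε hε 1 one_pos
  refine ⟨|C| * (2 : ℝ) ^ ε + 1, fun g k N hg hk hN hgk => ?_⟩
  have hg' : (2 : ℝ) ≤ g := by exact_mod_cast hg
  have hk' : (1 : ℝ) ≤ k := by exact_mod_cast hk
  have hN' : (1 : ℝ) ≤ N := by exact_mod_cast hN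
  have hlg2 : Real.log 2 ≤ Real.log g := Real.log_le_log two_pos hg'
  have hl2 : (1 / 2 : ℝ) < Real.log 2 := by linarith [Real.log_two_gt_d9]
  have hl2' : Real.log 2 < 1 := by linarith [Real.log_two_lt_d9]
  have hlg : 0 < Real.log g := by linarith
  set t : ℝ := k / Real.log g with ht
  have h1 : (N : ℝ) * Real.log g ≤ k * Real.log 2 := by
    have h2 : ((g : ℝ)) ^ N ≤ 2 ^ k := by exact_mod_cast hgk
    have h3 := Real.log_le_log (by positivity) h2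
    rwa [Real.log_pow, Real.log_pow] at h3
  have h4 : (N : ℝ) ≤ t := by
    rw [ht, le_div_iff₀ hlg]
    nlinarith
  have ht1 : 1 ≤ t := hN'.trans h4
  have ht2 : t ≤ 2 * k := by
    rw [ht, div_le_iff₀ hlg]
    nlinarith
  have h5 := hC t ht1 N hN (by linarith) 0
  simp only [add_zero] at h5
  rw [hLEN g k N hg hk hN]
  have hs1 : (1 : ℝ) ≤ √(N : ℝ) := by
    rw [show (1 : ℝ) = √1 by simp]
    exact Real.sqrt_le_sqrt hN'
  have hke : (1 : ℝ) ≤ (k : ℝ) ^ ε := Real.one_le_rpow hk' hε.le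
  have hte : t ^ ε ≤ (2 : ℝ) ^ ε * (k : ℝ) ^ ε := by
    rw [← Real.mul_rpow two_pos.le (by linarith)]
    exact Real.rpow_le_rpow (by linarith) ht2 hε.le
  have hf0 := Int.fract_nonneg (t * Real.log (N.factorial : ℝ))
  have hf1 := Int.fract_lt_one (t * Real.log (N.factorial : ℝ))
  have h6 : |∑ n ∈ Finset.Icc 1 N, psi (t * Real.log n)| ≤
      |C| * (2 : ℝ) ^ ε * √(N : ℝ) * (k : ℝ) ^ ε := by
    calc |∑ n ∈ Finset.Icc 1 N, psi (t * Real.log n)| ≤ C * √(N : ℝ) * t ^ ε := h5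
      _ ≤ |C| * √(N : ℝ) * t ^ ε := by
          gcongr
          exact le_abs_self C
      _ ≤ |C| * √(N : ℝ) * ((2 : ℝ) ^ ε * (k : ℝ) ^ ε) := by gcongr
      _ = _ := by ring
  have h7 : (1 : ℝ) ≤ √(N : ℝ) * (k : ℝ) ^ ε := by nlinarith
  have h8 := abs_le.1 h6
  rw [abs_le]
  have e1 : (|C| * (2 : ℝ) ^ ε + 1) * √(N : ℝ) * (k : ℝ) ^ ε =
      |C| * (2 : ℝ) ^ ε * √(N : ℝ) * (k : ℝ) ^ ε + √(N : ℝ) * (k : ℝ) ^ ε := by ring
  rw [e1]
  constructor <;> linarith [h8.1, h8.2]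

end Pool.Agent.Ben
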