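import Pool.Agent.Ben.Targets

/-!
# The lower inequality for the lengths of powers and the sums of the sawtooth
-/

set_option autoImplicit false

namespace Pool.Agent.Ben

private theorem LENL_psi (x d : ℝ) (hd : 0 ≤ d) : psi (x + d) ≤ psi x + d := by
  unfold psi
  have h1 : (⌊x⌋ : ℝ) ≤ ⌊x + d⌋ := by
    have : ⌊x⌋ ≤ ⌊x + d⌋ := Int.floor_mono (by linarith)
    exact_mod_cast this
  have h2 := Int.floor_add_fract x
  have h3 := Int.floor_add_fract (x + d)
  linarith

private theorem LENL_logg (N : ℕ) (hN : 1 ≤ N) :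
    ∃ g : ℕ, 2 ≤ g ∧ (N : ℝ) ^ 2 ≤ Real.log g ∧ Real.log g ≤ (N : ℝ) ^ 2 + 2 := by
  have hN1 : (1 : ℝ) ≤ N := by exact_mod_cast hN
  have he1 : (1 : ℝ) ≤ Real.exp ((N : ℝ) ^ 2) := Real.one_le_exp (by positivity)
  refine ⟨⌈Real.exp ((N : ℝ) ^ 2)⌉₊ + 1, ?_, ?_, ?_⟩
  · have : 0 < ⌈Real.exp ((N : ℝ) ^ 2)⌉₊ := Nat.ceil_pos.mpr (by positivity)
    omega
  · have h1 : Real.exp ((N : ℝ) ^ 2) ≤ ((⌈Real.exp ((N : ℝ) ^ 2)⌉₊ + 1 : ℕ) : ℝ) := by
      push_cast
      have := Nat.le_ceil (Real.exp ((N : ℝ) ^ 2))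
      linarith
    have h2 := Real.log_le_log (Real.exp_pos _) h1
    rwa [Real.log_exp] at h2
  · have h1 : ((⌈Real.exp ((N : ℝ) ^ 2)⌉₊ + 1 : ℕ) : ℝ) ≤ Real.exp ((N : ℝ) ^ 2 + 2) := by
      push_cast
      have h2 := Nat.ceil_lt_add_one (le_of_lt (Real.exp_pos ((N : ℝ) ^ 2)))
      have h3 : (3 : ℝ) ≤ Real.exp 2 := by
        have := Real.add_one_le_exp (2 : ℝ)
        linarith
      rw [Real.exp_add]
      nlinarith
    have h0 : (0 : ℝ) < ((⌈Real.exp ((N : ℝ) ^ 2)⌉₊ + 1 : ℕ) : ℝ) := by positivity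
    have h2 := Real.log_le_log h0 h1
    rwa [Real.log_exp] at h2

theorem p_LENL : T_LENL := by
  intro hlen hlow ε hε
  obtain ⟨C, hC⟩ := hlow (ε / 3) (by positivity)
  refine ⟨|C| + 1, ?_⟩
  intro t ht N hN hNt
  obtain ⟨g, hg2, hgl, hgu⟩ := LENL_logg N hN
  have hN1 : (1 : ℝ) ≤ N := by exact_mod_cast hN
  have hN2 : (1 : ℝ) ≤ (N : ℝ) ^ 2 := by nlinarith
  have ht4 : 4 ≤ t := by linarith
  have hL : 0 < Real.log g := by linarith
  have hL1 : 1 ≤ Real.log g := by linarith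
  have htL : 0 ≤ t * Real.log g := by positivity
  set k : ℕ := ⌊t * Real.log g⌋₊ with hk
  have hk1 : (k : ℝ) ≤ t * Real.log g := Nat.floor_le htL
  have hk2 : t * Real.log g - 1 < k := by
    have := Nat.lt_floor_add_one (t * Real.log g)
    linarith
  have hkN : (4 * N) * Real.log g - 1 < k := by
    have : (4 * N) * Real.log g ≤ t * Real.log g :=
      mul_le_mul_of_nonneg_right (by linarith) hL.le
    linarith
  have hNL : 1 ≤ (N : ℝ) * Real.log g := by nlinarith
  have hkpos : 1 ≤ k := by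
    have : (0 : ℝ) < k := by linarith
    exact_mod_cast this
  have hcond : g ^ N ≤ 2 ^ k := by
    have hg0 : (0 : ℝ) < g := by
      have : 0 < g := by omega
      exact_mod_cast this
    have h1 : Real.log ((g : ℝ) ^ N) ≤ Real.log ((2 : ℝ) ^ k) := by
      rw [Real.log_pow, Real.log_pow]
      have h2 : (0.69 : ℝ) ≤ Real.log 2 := by
        have := Real.log_two_gt_d9
        linarith
      have h3 : ((4 * N) * Real.log g - 1) * 0.69 ≤ (k : ℝ) * Real.log 2 := by
        apply mul_le_mul hkN.le h2 (by norm_num) (by positivity)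
      linarith
    have h2 : (g : ℝ) ^ N ≤ (2 : ℝ) ^ k :=
      (Real.log_le_log_iff (by positivity) (by positivity)).mp h1
    exact_mod_cast h2
  have hmain := hC g k N hg2 hkpos hN hcond
  rw [hlen g k N hg2 hkpos hN] at hmain
  have hfr := Int.fract_lt_one ((k : ℝ) / Real.log g * Real.log N.factorial)
  have hkt : (k : ℝ) ≤ t ^ (3 : ℕ) := by
    have h1 : (N : ℝ) ^ 2 ≤ (t / 4) ^ 2 := by
      apply pow_le_pow_left₀ (by positivity)
      linarith
    have h2 : Real.log g ≤ t ^ 2 := by nlinarith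
    calc (k : ℝ) ≤ t * Real.log g := hk1
      _ ≤ t * t ^ 2 := by
          apply mul_le_mul_of_nonneg_left h2 (by linarith)
      _ = t ^ (3 : ℕ) := by ring
  have hkpow : (k : ℝ) ^ (ε / 3) ≤ t ^ ε := by
    calc (k : ℝ) ^ (ε / 3) ≤ (t ^ (3 : ℕ)) ^ (ε / 3) :=
          Real.rpow_le_rpow (by positivity) hkt (by positivity)
      _ = t ^ ε := by
          rw [← Real.rpow_natCast t 3, ← Real.rpow_mul (by linarith)]
          congr 1
          push_cast
          ring
  have hsN : 1 ≤ √(N : ℝ) := by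
    rw [Real.one_le_sqrt]
    exact hN1
  have htε : 1 ≤ t ^ ε := Real.one_le_rpow ht hε.le
  have hb : ∑ n ∈ Finset.Icc 1 N, psi ((k : ℝ) / Real.log g * Real.log n) ≤
      |C| * √(N : ℝ) * t ^ ε := by
    have h1 : C * √(N : ℝ) * (k : ℝ) ^ (ε / 3) ≤ |C| * √(N : ℝ) * t ^ ε := by
      apply mul_le_mul _ hkpow (by positivity) (by positivity)
      apply mul_le_mul_of_nonneg_right (le_abs_self C) (by positivity)
    linarith
  have hstep : ∀ n ∈ Finset.Icc 1 N, psi (t * Real.log n) ≤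
      psi ((k : ℝ) / Real.log g * Real.log n) + 1 / N := by
    intro n hn
    rw [Finset.mem_Icc] at hn
    have hn1 : (1 : ℝ) ≤ n := by exact_mod_cast hn.1
    have hnN : (n : ℝ) ≤ N := by exact_mod_cast hn.2
    have hlog0 : 0 ≤ Real.log n := Real.log_nonneg hn1
    have hlogN : Real.log n ≤ N := by
      have h1 := Real.log_le_sub_one_of_pos (show (0 : ℝ) < n by linarith)
      linarith
    have hd0 : 0 ≤ t - (k : ℝ) / Real.log g := by
      rw [sub_nonneg, div_le_iff₀ hL]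
      exact hk1
    have hd1 : t - (k : ℝ) / Real.log g ≤ 1 / Real.log g := by
      rw [sub_le_iff_le_add, ← add_div, le_div_iff₀ hL]
      linarith
    have hd2 : 1 / Real.log g ≤ 1 / (N : ℝ) ^ 2 :=
      one_div_le_one_div_of_le (by positivity) hgl
    have h1 := LENL_psi ((k : ℝ) / Real.log g * Real.log n)
      ((t - (k : ℝ) / Real.log g) * Real.log n) (mul_nonneg hd0 hlog0)
    have h2 : (k : ℝ) / Real.log g * Real.log n + (t - (k : ℝ) / Real.log g) * Real.log n =
        t * Real.log n := by ring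
    rw [h2] at h1
    have h3 : (t - (k : ℝ) / Real.log g) * Real.log n ≤ 1 / (N : ℝ) ^ 2 * N := by
      apply mul_le_mul (hd1.trans hd2) hlogN hlog0 (by positivity)
    have h4 : 1 / (N : ℝ) ^ 2 * N = 1 / N := by
      field_simp
    linarith
  have hsum : ∑ n ∈ Finset.Icc 1 N, psi (t * Real.log n) ≤
      ∑ n ∈ Finset.Icc 1 N, psi ((k : ℝ) / Real.log g * Real.log n) + 1 := by
    calc ∑ n ∈ Finset.Icc 1 N, psi (t * Real.log n)
        ≤ ∑ n ∈ Finset.Icc 1 N, (psi ((k : ℝ) / Real.log g * Real.log n) + 1 / N) :=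
          Finset.sum_le_sum hstep
      _ = ∑ n ∈ Finset.Icc 1 N, psi ((k : ℝ) / Real.log g * Real.log n) + 1 := by
          rw [Finset.sum_add_distrib]
          congr 1
          rw [Finset.sum_const, Nat.card_Icc, nsmul_eq_mul]
          have : (N : ℝ) ≠ 0 := by positivity
          push_cast [Nat.add_sub_cancel]
          field_simp
  have hone : 1 ≤ √(N : ℝ) * t ^ ε := by
    calc (1 : ℝ) = 1 * 1 := by ring
      _ ≤ √(N : ℝ) * t ^ ε := mul_le_mul hsN htε (by norm_num) (by positivity)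
  calc ∑ n ∈ Finset.Icc 1 N, psi (t * Real.log n)
      ≤ |C| * √(N : ℝ) * t ^ ε + 1 := by linarith
    _ ≤ (|C| + 1) * √(N : ℝ) * t ^ ε := by nlinarith

end Pool.Agent.Ben
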