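import Pool.Agent.Ben.Targets

/-!
# Ben: upper bound for lengths gives the upper bound for the sawtooth sums
-/

set_option autoImplicit false

namespace Pool.Agent.Ben

private lemma LENU_psi (x d : ℝ) (hd : 0 ≤ d) : psi (x + d) ≤ psi x + d := by
  unfold psi
  have h1 : ⌊x⌋ ≤ ⌊x + d⌋ := Int.floor_mono (by linarith)
  have h2 : (⌊x⌋ : ℝ) ≤ ⌊x + d⌋ := by exact_mod_cast h1
  have h3 := Int.self_sub_floor x
  have h4 := Int.self_sub_floor (x + d)
  linarith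

private lemma LENU_sum (t t' : ℝ) (N : ℕ) (hN : 1 ≤ N) (h1 : t ≤ t')
    (h2 : (t' - t) * (N : ℝ) ^ 2 ≤ 1) :
    ∑ n ∈ Finset.Icc 1 N, -psi (t * Real.log n) ≤
      -∑ n ∈ Finset.Icc 1 N, psi (t' * Real.log n) + 1 := by
  have hN' : (1 : ℝ) ≤ N := by exact_mod_cast hN
  have h3 : ∀ n ∈ Finset.Icc 1 N,
      -psi (t * Real.log n) ≤ -psi (t' * Real.log n) + (t' - t) * N := by
    intro n hn
    rw [Finset.mem_Icc] at hn
    have hn1 : (1 : ℝ) ≤ n := by exact_mod_cast hn.1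
    have hn2 : (n : ℝ) ≤ N := by exact_mod_cast hn.2
    have hl0 : 0 ≤ Real.log n := Real.log_nonneg hn1
    have hl1 : Real.log n ≤ N := by
      have := Real.log_le_sub_one_of_pos (by linarith : (0 : ℝ) < n)
      linarith
    have h4 := LENU_psi (t * Real.log n) ((t' - t) * Real.log n)
      (mul_nonneg (by linarith) hl0)
    have h5 : t * Real.log n + (t' - t) * Real.log n = t' * Real.log n := by ring
    rw [h5] at h4
    have h6 : (t' - t) * Real.log n ≤ (t' - t) * N :=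
      mul_le_mul_of_nonneg_left hl1 (by linarith)
    linarith
  have h4 := Finset.sum_le_sum h3
  rw [Finset.sum_add_distrib, Finset.sum_const, Nat.card_Icc, nsmul_eq_mul] at h4
  simp only [Finset.sum_neg_distrib] at h4 ⊢
  have h5 : ((N + 1 - 1 : ℕ) : ℝ) * ((t' - t) * N) = (t' - t) * (N : ℝ) ^ 2 := by
    rw [Nat.add_sub_cancel]
    ring
  rw [h5] at h4
  linarith

private lemma LENU_g (N : ℕ) (hN : 1 ≤ N) : ∃ g : ℕ, 2 ≤ g ∧ (N : ℝ) ^ 2 ≤ Real.log g ∧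
    Real.log g ≤ (N : ℝ) ^ 2 + 1 := by
  have hN' : (1 : ℝ) ≤ N := by exact_mod_cast hN
  have hN2 : (1 : ℝ) ≤ (N : ℝ) ^ 2 := one_le_pow₀ hN'
  have h1 : (1 : ℝ) < Real.exp ((N : ℝ) ^ 2) := by
    have := Real.add_one_le_exp ((N : ℝ) ^ 2)
    linarith
  refine ⟨⌈Real.exp ((N : ℝ) ^ 2)⌉₊, ?_, ?_, ?_⟩
  · have h2 : 1 < ⌈Real.exp ((N : ℝ) ^ 2)⌉₊ := by
      rw [Nat.lt_ceil]
      exact_mod_cast h1
    omega
  · have h2 := Nat.le_ceil (Real.exp ((N : ℝ) ^ 2))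
    have h3 := Real.log_le_log (Real.exp_pos _) h2
    rwa [Real.log_exp] at h3
  · have h2 := Nat.ceil_lt_add_one (Real.exp_pos ((N : ℝ) ^ 2)).le
    have h3 : (2 : ℝ) ≤ Real.exp 1 := by
      have := Real.add_one_le_exp (1 : ℝ)
      linarith
    have h4 : (⌈Real.exp ((N : ℝ) ^ 2)⌉₊ : ℝ) ≤ Real.exp ((N : ℝ) ^ 2 + 1) := by
      rw [Real.exp_add]
      nlinarith
    have h5 : (0 : ℝ) < (⌈Real.exp ((N : ℝ) ^ 2)⌉₊ : ℝ) :=
      lt_of_lt_of_le (Real.exp_pos _) (Nat.le_ceil _)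
    have h6 := Real.log_le_log h5 h4
    rwa [Real.log_exp] at h6

theorem p_LENU : T_LENU := by
  intro hLEN hU ε hε
  obtain ⟨C₀, hC₀⟩ := hU (ε / 3) (by positivity)
  refine ⟨|C₀| * 4 ^ (ε / 3) + 2, ?_⟩
  intro t ht N hN hNt
  have hN' : (1 : ℝ) ≤ N := by exact_mod_cast hN
  have ht4 : 4 ≤ t := by linarith
  obtain ⟨g, hg2, hgl, hgu⟩ := LENU_g N hN
  have hN2 : (1 : ℝ) ≤ (N : ℝ) ^ 2 := one_le_pow₀ hN'
  have hlg : 0 < Real.log g := by linarith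
  set k : ℕ := ⌈t * Real.log g⌉₊ with hk
  have hk1 : t * Real.log g ≤ k := Nat.le_ceil _
  have hk2 : (k : ℝ) < t * Real.log g + 1 := Nat.ceil_lt_add_one (by positivity)
  have hk0 : (1 : ℝ) ≤ k := by nlinarith
  have hk0' : 1 ≤ k := by exact_mod_cast hk0
  have hpow : g ^ N ≤ 2 ^ k := by
    have h1 : ((g : ℝ)) ^ N ≤ 2 ^ k := by
      have hgpos : (0 : ℝ) < g := by
        have : 0 < g := by omega
        exact_mod_cast this
      rw [← Real.log_le_log_iff (by positivity) (by positivity), Real.log_pow, Real.log_pow]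
      have h2 : (N : ℝ) * Real.log g ≤ (1 / 4) * t * Real.log g :=
        mul_le_mul_of_nonneg_right hNt hlg.le
      have h3 := Real.log_two_gt_d9
      have h4 : (1 / 4) * (k : ℝ) ≤ k * Real.log 2 := by nlinarith
      linarith
    exact_mod_cast h1
  have h1 := hC₀ g k N hg2 hk0' hN hpow
  rw [hLEN g k N hg2 hk0' hN] at h1
  have hfr := Int.fract_nonneg ((k : ℝ) / Real.log g * Real.log N.factorial)
  set t' : ℝ := k / Real.log g with ht'
  have htt : t ≤ t' := by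
    rw [ht', le_div_iff₀ hlg]
    exact hk1
  have htt2 : (t' - t) * (N : ℝ) ^ 2 ≤ 1 := by
    have h2 : (t' - t) * Real.log g ≤ 1 := by
      have h3 : t' * Real.log g = k := by
        rw [ht']
        field_simp
      linarith [sub_mul t' t (Real.log g)]
    have h3 : (t' - t) * (N : ℝ) ^ 2 ≤ (t' - t) * Real.log g :=
      mul_le_mul_of_nonneg_left hgl (by linarith)
    linarith
  have h2 := LENU_sum t t' N hN htt htt2
  have hsq : (1 : ℝ) ≤ √(N : ℝ) := by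
    rw [Real.one_le_sqrt]
    exact hN'
  have hte : (1 : ℝ) ≤ t ^ ε := Real.one_le_rpow (by linarith) hε.le
  have hkt : (k : ℝ) ≤ 4 * t ^ 3 := by
    have a1 : (N : ℝ) ^ 2 ≤ t ^ 2 / 16 := by nlinarith
    have a2 : (k : ℝ) ≤ t * ((N : ℝ) ^ 2 + 1) + 1 := by nlinarith
    have a3 : t * ((N : ℝ) ^ 2 + 1) + 1 ≤ t * (t ^ 2 / 16 + 1) + 1 := by nlinarith
    have a4 : t ≤ t ^ 3 := by nlinarith [sq_nonneg (t - 1)]
    have a5 : t * (t ^ 2 / 16 + 1) + 1 = t ^ 3 / 16 + t + 1 := by ring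
    nlinarith
  have hke : (k : ℝ) ^ (ε / 3) ≤ 4 ^ (ε / 3) * t ^ ε := by
    calc (k : ℝ) ^ (ε / 3) ≤ (4 * t ^ 3) ^ (ε / 3) :=
          Real.rpow_le_rpow (by linarith) hkt (by positivity)
      _ = 4 ^ (ε / 3) * (t ^ 3) ^ (ε / 3) := Real.mul_rpow (by norm_num) (by positivity)
      _ = 4 ^ (ε / 3) * t ^ ε := by
          congr 1
          rw [← Real.rpow_natCast t 3, ← Real.rpow_mul (by linarith)]
          congr 1
          push_cast
          ring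
  have h3 : C₀ * √(N : ℝ) * (k : ℝ) ^ (ε / 3) ≤ |C₀| * √(N : ℝ) * (4 ^ (ε / 3) * t ^ ε) := by
    have b1 : C₀ * √(N : ℝ) ≤ |C₀| * √(N : ℝ) :=
      mul_le_mul_of_nonneg_right (le_abs_self _) (by positivity)
    calc C₀ * √(N : ℝ) * (k : ℝ) ^ (ε / 3) ≤ |C₀| * √(N : ℝ) * (k : ℝ) ^ (ε / 3) :=
          mul_le_mul_of_nonneg_right b1 (by positivity)
      _ ≤ _ := mul_le_mul_of_nonneg_left hke (by positivity)
  have h4 : (2 : ℝ) ≤ 2 * √(N : ℝ) * t ^ ε := by nlinarith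
  calc ∑ n ∈ Finset.Icc 1 N, -psi (t * Real.log n)
      ≤ |C₀| * √(N : ℝ) * (4 ^ (ε / 3) * t ^ ε) + 2 := by linarith
    _ ≤ |C₀| * √(N : ℝ) * (4 ^ (ε / 3) * t ^ ε) + 2 * √(N : ℝ) * t ^ ε := by linarith
    _ = (|C₀| * 4 ^ (ε / 3) + 2) * √(N : ℝ) * t ^ ε := by ring

end Pool.Agent.Ben
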