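import Pool.Agent.Ben.Targets10

/-!
# The product criterion: `∏_{1 < n ≤ N} |1 - n ^ (i x)| ≤ exp (C N ^ s x ^ (a + ε))`

Every `def L_XXX : Prop` is a conclusion; the theorem to prove is `p_LXXX` with the hypotheses
named in the docstring (file `Pool/Agent/Ben/P_LXXX.lean`, namespace `Pool.Agent.Ben`, all helper
lemmas private or with the prefix `LXXX_`). The statistic is now `log |1 - e y|`: unbounded, only
integrable, and the hypothesis is only available outside a countable set of `t`. The bounded case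
is proved in the files named in the docstrings: copy them (their lemmas are often private).
-/

set_option autoImplicit false

namespace Pool.Agent.Ben

open Complex MeasureTheory Set

/-- integrable observables: `Obs` without boundedness and without mean zero -/
structure Loc (G : ℝ → ℝ) (B : ℝ) : Prop where
  meas : Measurable G
  per : Function.Periodic G 1
  int : IntervalIntegrable G volume 0 1
  nrm : ∫ x in (0 : ℝ)..1, |G x| ≤ B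
  zero : |G 0| ≤ B

/-- `theorem p_LFOU : L_FOU`. As `P_VFOU.lean` (lemmas of `P_FOU.lean`) with the integral of `|G|`
over a period in place of the bound. New: `g v = G v * FOU_K L t y v` is integrable. `g` is
locally integrable, and `∫ |g| = ∑_n ∫_0^1 |G v| ‖FOU_K L t y (v + n)‖ dv`
`≤ B sup_v ∑_n ‖FOU_K L t y (v + n)‖ < ∞` (e.g. `‖FOU_K L t y (v + n)‖ ≤ C exp (-c n²)` for
`v ∈ [0, 1]`; `integrable_of_summable_norm_restrict` or `integrable_of_summable_norm_Icc`-like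
lemmas, or `integral_iUnion` over the intervals `Ioc n (n + 1)`). In the second exchange the
summand has norm `|G v| exp (-(h L - y)²/4)` and `‖coef G h‖ ≤ B`. The first conclusion is the
case `y = 0` (norms). -/
def L_FOU : Prop := ∀ (G : ℝ → ℝ) (B : ℝ), Loc G B → ∀ L t y : ℝ, 0 < L →
  Integrable (fun u : ℝ => G ((t + u) * L) * w u) ∧
  Summable (fun h : ℤ => ‖coef G h‖ * Real.exp (-(h * L - y) ^ 2 / 4)) ∧
  ∫ u : ℝ, (G ((t + u) * L) : ℂ) * e (-(u * y)) * w u =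
    (1 / (2 * √Real.pi) : ℝ) * ∑' h : ℤ, coef G h * e (h * (t * L)) *
      (Real.exp (-(h * L - y) ^ 2 / 4) : ℝ)

/-- `theorem p_LKER : L_FOU → L_KER`. `(1 + u²) w u ≤ w (u / √2)` (`1 + u² ≤ exp (u²)`,
`w u = exp (-(2π u)²)`), substitute `u = √2 u'`:
`∫ |G ((t + u) L)| w (u/√2) du = √2 ∫ |G ((t/√2 + u') (√2 L))| w u' du'`, and `L_FOU` for `|G|`
(`Loc |G| B`), `y = 0`, gives `≤ B ∑_h exp (-(√2 h L)²/4) ≤ B ∑_h exp (-(h l)²/2)`. Integrability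
by comparison with the same function. -/
def L_KER : Prop := ∀ l : ℝ, 0 < l → ∃ C : ℝ, 0 ≤ C ∧ ∀ (G : ℝ → ℝ) (B : ℝ), Loc G B →
  ∀ L t : ℝ, l ≤ L →
    Integrable (fun u : ℝ => (1 + u ^ 2) * |G ((t + u) * L)| * w u) ∧
    ∫ u : ℝ, (1 + u ^ 2) * |G ((t + u) * L)| * w u ≤ C * B

/-- `theorem p_LMEAN : L_FOU → V_ERZ → L_MEAN`. As `P_VMEAN.lean`. -/
def L_MEAN : Prop := ∀ m : ℕ, 1 ≤ m → ∃ C : ℝ, 0 ≤ C ∧ ∀ (G : ℝ → ℝ) (B : ℝ), Loc G B →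
  coef G 0 = 0 → ∀ (t : ℝ) (M : ℕ),
    |∫ u : ℝ, (∑ n ∈ Finset.Icc 1 M, G ((t + u / m) * Real.log n)) * w u| ≤ C * B

/-- `theorem p_LMAIN : L_FOU → V_ERR → L_MAIN`. As `P_VMAIN.lean` (`‖coef G h‖ ≤ B`; for `n = 1`
the integrand is `G 0 * w u`). -/
def L_MAIN : Prop := ∀ m : ℕ, 1 ≤ m → ∃ C : ℝ, 0 ≤ C ∧ ∀ (G : ℝ → ℝ) (B : ℝ), Loc G B →
  coef G 0 = 0 → (∀ j : ℕ, 0 < j → j < m → coef G j = 0) → ∀ (t y : ℝ) (M : ℕ), 0 ≤ y →
    ‖coef G m‖ * ‖∑ n ∈ Finset.Icc 1 M, e (m * t * Real.log n) *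
        (Real.exp (-(Real.log n - y) ^ 2 / 4) : ℝ)‖ ≤
      C * (∫ u : ℝ, |∑ n ∈ Finset.Icc 1 M, G ((t + u / m) * Real.log n)| * w u) + C * B +
      B * ∑ h ∈ Finset.Ioo m ⌈2 * m * y / Real.log 2⌉₊,
        ‖∑ n ∈ Finset.Icc 1 M, e (h * t * Real.log n) *
          (Real.exp (-(h * Real.log n / m - y) ^ 2 / 4) : ℝ)‖

/-- one-sided bound `N ^ p t ^ (a + ε)` for `N ≤ κ t ^ β`, outside a countable set of `t` -/
def UpperC (G : ℝ → ℝ) (κ β p a : ℝ) : Prop :=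
  ∃ S : Set ℝ, S.Countable ∧ ∀ ε : ℝ, 0 < ε → ∃ C : ℝ, ∀ t : ℝ, t ∉ S → 1 ≤ t → ∀ N : ℕ, 1 ≤ N →
    (N : ℝ) ≤ κ * t ^ β → ∑ n ∈ Finset.Icc 1 N, G (t * Real.log n) ≤ C * (N : ℝ) ^ p * t ^ (a + ε)

/-- `theorem p_LL1 : L_KER → L_MEAN → L_L1`. As `P_GL1.lean`: with
`F u = ∑ G ((t + u/m) log n)`, `|F| = 2 F⁺ - F`, `L_MEAN` for `∫ F w`. For almost all `u` with
`|u| ≤ t/2` (the preimage of a countable set under `u ↦ t + u/m` is countable: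
`Set.Countable.preimage_of_injOn`, `Set.Countable.ae_notMem`) and `t ≥ 2` the hypothesis bounds
`F u`. For the other `u`: `F⁺ ≤ |G 0| + ∑_{n ≥ 2} |G ((t + u/m) log n)|`, and
`1 ≤ (4/t²) u² ≤ (4/t²) (1 + u²)` if `|u| > t/2`, so `L_KER` (with `L = log n / m ≥ log 2 / m`,
`(t + u/m) log n = (m t + u) (log n / m)`) gives
`≤ (4/t²) N C B + B ∫ w ≤ 2 κ C B + B`; for `t < 2` simply `∫ |F| w ≤ N (C + 1) B ≤ κ (C + 1) B`
(all without a pointwise bound for `G`; integrability of all integrands from `L_KER`). -/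
def L_L1 : Prop := ∀ m : ℕ, 1 ≤ m → ∀ (G : ℝ → ℝ) (B κ β p a : ℝ), Loc G B → coef G 0 = 0 →
  0 < κ → 0 < β → β ≤ 1 → 0 ≤ p → 0 ≤ a → UpperC G κ β p a →
  ∀ ε : ℝ, 0 < ε → ∃ C : ℝ, ∀ t : ℝ, 1 ≤ t → ∀ N : ℕ, 1 ≤ N → (N : ℝ) ≤ κ / 2 * t ^ β →
    ∫ u : ℝ, |∑ n ∈ Finset.Icc 1 N, G ((t + u / m) * Real.log n)| * w u ≤
      C * (N : ℝ) ^ p * t ^ (a + ε)

/-- `theorem p_LSTEP : L_MAIN → L_L1 → G_HIGH → L_STEP`. Copy `P_GSTEP.lean`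
(`0 ≤ B` from `Loc.zero`). -/
def L_STEP : Prop := ∀ m : ℕ, 1 ≤ m → ∀ (G : ℝ → ℝ) (B κ₀ β p a : ℝ), Loc G B → coef G 0 = 0 →
  0 < κ₀ → 0 < β → β ≤ 1 → 0 ≤ p → p ≤ 1 → 0 ≤ a →
  coef G m ≠ 0 → (∀ j : ℕ, 0 < j → j < m → coef G j = 0) → UpperC G κ₀ β p a →
  ∀ θ κ : ℝ, 0 ≤ θ → θ ≤ 1 → 0 < κ → GG p a θ κ β →
    ∃ κ' : ℝ, 0 < κ' ∧ GG p a ((m : ℝ) / (m + 1) * θ) κ' β

/-- `theorem p_LITER : L_STEP → L_ITER`. Copy `P_GITER.lean`. -/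
def L_ITER : Prop := ∀ m : ℕ, 1 ≤ m → ∀ (G : ℝ → ℝ) (B κ₀ β p a : ℝ), Loc G B → coef G 0 = 0 →
  0 < κ₀ → 0 < β → β ≤ 1 → 0 ≤ p → p ≤ 1 → 0 ≤ a →
  coef G m ≠ 0 → (∀ j : ℕ, 0 < j → j < m → coef G j = 0) → UpperC G κ₀ β p a →
    ∀ θ : ℝ, 0 < θ → ∃ κ : ℝ, 0 < κ ∧ GG p a θ κ β

/-- the statistic `log |1 - e y| = log |2 sin (π y)|` (in Lean `0` at the integers) -/
noncomputable def G0 (y : ℝ) : ℝ := Real.log ‖1 - e y‖

/-- `theorem p_LGA : L_GA`. `‖1 - e y‖ = |2 sin (π y)|`, `Real.log_abs`,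
`intervalIntegrable_log_sin` (`comp_mul_left`), `log |2 sin| = log 2 + log sin` where
`sin ≠ 0` (almost everywhere), `integral_log_sin_zero_pi : ∫ x in 0..π, log (sin x) = -log 2 * π`;
`G0 0 = log 0 = 0`; `B = ∫ |G0|`. -/
def L_GA : Prop := (∃ B : ℝ, Loc G0 B) ∧ coef G0 0 = 0

/-- `theorem p_LGB : L_GB` (the value is `-1/2`). The real part of `coef G0 1` is
`∫_0^1 log |2 sin π x| cos 2πx dx`. Primitive
`F x = log |2 sin π x| sin (2πx) / (2π) - x/2 - sin (2πx) / (4π)`: on `(0, 1)` its derivative is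
`log |2 sin π x| cos 2πx + π cot (πx) sin (2πx) / (2π) - 1/2 - cos (2πx)/2`, and
`cot (πx) sin (2πx) / 2 = cos² (πx) = 1/2 + cos (2πx)/2`. `F` is continuous on `[0, 1]`
(`sin 2πx = 2 sin πx cos πx`, `Real.continuous_mul_log`), the integrand is integrable
(`intervalIntegrable_log_sin`), so
`intervalIntegral.integral_eq_sub_of_hasDerivAt_of_le`-like lemmas
(`integral_eq_sub_of_hasDerivAt_of_le` : continuous on `[a, b]`, derivative on `(a, b)`) give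
`F 1 - F 0 = -1/2`. -/
def L_GB : Prop := coef G0 1 ≠ 0

/-- the product bound -/
def PB (β s a : ℝ) : Prop := ∀ ε : ℝ, 0 < ε → ∃ C : ℝ, ∀ x : ℝ, 1 ≤ x → ∀ N : ℕ, 1 ≤ N →
  (N : ℝ) ≤ x ^ β →
    ∏ n ∈ Finset.Icc 2 N, ‖1 - (n : ℂ) ^ (x * I : ℂ)‖ ≤ Real.exp (C * (N : ℝ) ^ s * x ^ (a + ε))

/-- `theorem p_LONE : L_ONE`. `x = 2 π t ≥ 1`, `N ≤ t ^ β ≤ x ^ β`, `n ^ (i x) = e (t log n)` for
`n ≥ 2`. `S = ⋃_{n ≥ 2} {t | ∃ k : ℤ, t log n = k}` is countable. For `t ∉ S` no factor vanishes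
(`e y = 1` iff `y` is an integer, `Complex.exp_eq_one_iff`), so the sum is the logarithm of the
product (`Real.log_prod`; the term `n = 1` is `log 0 = 0`), constant `|C| (2 π) ^ (a + ε)`. -/
def L_ONE : Prop := ∀ β s a : ℝ, 0 < β → 0 ≤ a → PB β s a → UpperC G0 1 β s a

/-- `theorem p_LFWD : L_FWD`. Let `r = 1 - N^(s-1)` (`N ≥ 2`), `‖z‖ = 1`. Then
`‖1 - z‖ ≤ (2 / (1 + r)) ‖1 - r z‖`: the difference of the squares, times `(1 + r)²`, is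
`-2 (1 - r)² (1 + Re z) ≤ 0`. With `z = n^(i x)`, `log (2/(1 + r)) ≤ 1 - r` and
`log ‖1 - r z‖ = -Re ∑_{h ≥ 1} r^h z^h / h` (`Complex.hasSum_taylorSeries_neg_log`,
`Complex.log_re`): the logarithm of the product (if it is not `0`) is at most
`N (1 - r) + ∑_h (r^h / h) ‖∑_{n=2}^N n^(i h x)‖`. `N (1 - r) = N^s`. The inner sum is the
conjugate of that of `n^(-i h x)`, so by `EP s 0` with `T = h x`, `K = 1`, it is
`≤ 1 + C N^s (h x)^ε' ≤ C' N^s (h x)^ε'`. Finally `r^h ≤ exp (-h (1 - r)) ≤ (h (1 - r))^(-2ε')`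
(`2 ε' ≤ 1`, `z^(2ε') ≤ 1 + z ≤ exp z`), so
`∑_h r^h h^(ε' - 1) ≤ (1 - r)^(-2ε') ∑_h h^(-1-ε') ≤ C'' N^(2 ε') ≤ C'' x^(2 ε')`;
`ε' = min (ε/3) (1/2)`. -/
def L_FWD : Prop := ∀ s : ℝ, 1 / 2 ≤ s → s < 1 → EP s 0 → PB 1 s 0

end Pool.Agent.Ben
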