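import Pool.Agent.Ben.P_FOU
import Pool.Agent.Ben.Targets11

/-!
# Ben, target `L_FOU`: Fourier series of the windowed function, for integrable observables
-/

set_option autoImplicit false

namespace Pool.Agent.Ben

open Complex MeasureTheory Set

theorem LFOU_coef_le {G : ℝ → ℝ} {B : ℝ} (hG : Loc G B) (h : ℤ) : ‖coef G h‖ ≤ B := by
  unfold coef
  refine (intervalIntegral.norm_integral_le_integral_norm zero_le_one).trans
    (le_trans (le_of_eq ?_) hG.nrm)
  refine intervalIntegral.integral_congr fun x _ => ?_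
  simp only [norm_mul, FOU_norm_e, mul_one, Complex.norm_real, Real.norm_eq_abs]

/-- bound for the periodized window -/
noncomputable def LFOU_M (L : ℝ) : ℝ :=
  (L / (2 * √Real.pi)) * ∑' h : ℤ, Real.exp (-(h * L - 0) ^ 2 / 4)

theorem LFOU_sumw (L t v : ℝ) (hL : 0 < L) :
    Summable (fun n : ℤ => w ((v + n) / L - t)) := by
  have hpi := Real.pi_pos
  refine (FOU_summable (4 * Real.pi / L) (-(4 * Real.pi * (v / L - t))) (by positivity)).congr
    fun n => ?_
  unfold w
  congr 1
  field_simp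
  ring

theorem LFOU_per_le (L t v : ℝ) (hL : 0 < L) :
    ∑' n : ℤ, ENNReal.ofReal (w ((v + n) / L - t)) ≤ ENNReal.ofReal (LFOU_M L) := by
  rw [← ENNReal.ofReal_tsum_of_nonneg (fun n => (FOU_w_pos _).le) (LFOU_sumw L t v hL)]
  refine ENNReal.ofReal_le_ofReal ?_
  have h1 : ((∑' n : ℤ, w ((v + n) / L - t) : ℝ) : ℂ) = ∑' n : ℤ, FOU_K L t 0 (v + n) := by
    rw [Complex.ofReal_tsum]
    refine tsum_congr fun n => ?_
    unfold FOU_K
    have : e (-(((v + n) / L - t) * 0)) = 1 := by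
      unfold e
      simp
    rw [this, one_mul]
  have h2 : ‖((∑' n : ℤ, w ((v + n) / L - t) : ℝ) : ℂ)‖ ≤ LFOU_M L := by
    rw [h1, FOU_poisson L t 0 hL v, norm_mul, Complex.norm_real,
      Real.norm_of_nonneg (by positivity)]
    unfold LFOU_M
    refine mul_le_mul_of_nonneg_left ?_ (by positivity)
    have hn : ∀ h : ℤ, ‖((Real.exp (-(h * L - 0) ^ 2 / 4) : ℝ) : ℂ) * e (h * (t * L - v))‖ =
        Real.exp (-(h * L - 0) ^ 2 / 4) := by
      intro h
      rw [norm_mul, FOU_norm_e, mul_one, Complex.norm_real,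
        Real.norm_of_nonneg (Real.exp_pos _).le]
    refine (norm_tsum_le_tsum_norm ?_).trans (le_of_eq (tsum_congr hn))
    simp only [hn]
    exact FOU_summable L 0 hL
  rw [Complex.norm_real] at h2
  exact (le_abs_self _).trans h2

/-- the integral over the line is the sum of the integrals over `(0, 1]` of the translates -/
theorem LFOU_tile (f : ℝ → ENNReal) :
    ∫⁻ v, f v = ∑' n : ℤ, ∫⁻ v in Ioc (0 : ℝ) 1, f (v + n) := by
  have h1 : ∫⁻ v, f v = ∫⁻ v in ⋃ n : ℤ, Ioc (n : ℝ) (n + 1), f v := by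
    rw [iUnion_Ioc_intCast, Measure.restrict_univ]
  rw [h1, lintegral_iUnion (fun n => measurableSet_Ioc) (pairwise_disjoint_Ioc_intCast ℝ)]
  refine tsum_congr fun n => ?_
  rw [← lintegral_indicator measurableSet_Ioc, ← lintegral_indicator measurableSet_Ioc,
    ← lintegral_add_right_eq_self _ (n : ℝ)]
  refine lintegral_congr fun v => ?_
  by_cases hv : v ∈ Ioc (0 : ℝ) 1
  · have h2 : v + n ∈ Ioc (n : ℝ) (n + 1) := ⟨by linarith [hv.1], by linarith [hv.2]⟩
    rw [indicator_of_mem hv, indicator_of_mem h2]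
  · have h2 : v + n ∉ Ioc (n : ℝ) (n + 1) := fun h3 =>
      hv ⟨by linarith [h3.1], by linarith [h3.2]⟩
    rw [indicator_of_notMem hv, indicator_of_notMem h2]

theorem LFOU_int {G : ℝ → ℝ} {B : ℝ} (hG : Loc G B) (L t : ℝ) (hL : 0 < L) :
    Integrable (fun v : ℝ => G v * w (v / L - t)) := by
  have hwm : Measurable (fun v : ℝ => w (v / L - t)) :=
    (FOU_continuous_w.comp (by fun_prop)).measurable
  refine ⟨(hG.meas.mul hwm).aestronglyMeasurable, ?_⟩
  have hper : ∀ (v : ℝ) (n : ℤ), G (v + n) = G v := by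
    intro v n
    have := (hG.per.int_mul n) v
    simpa using this
  have hGi : IntegrableOn G (Ioc 0 1) :=
    (intervalIntegrable_iff_integrableOn_Ioc_of_le zero_le_one).1 hG.int
  have h0 : ∀ (v : ℝ) (n : ℤ), ‖G (v + n) * w ((v + n) / L - t)‖ₑ =
      ‖G v‖ₑ * ENNReal.ofReal (w ((v + n) / L - t)) := by
    intro v n
    rw [hper, enorm_mul, Real.enorm_of_nonneg (FOU_w_pos _).le]
  unfold HasFiniteIntegral
  calc ∫⁻ v, ‖G v * w (v / L - t)‖ₑ
      = ∑' n : ℤ, ∫⁻ v in Ioc (0 : ℝ) 1, ‖G v‖ₑ * ENNReal.ofReal (w ((v + n) / L - t)) := by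
        rw [LFOU_tile (fun v => ‖G v * w (v / L - t)‖ₑ)]
        simp only [h0]
    _ = ∫⁻ v in Ioc (0 : ℝ) 1, ∑' n : ℤ, ‖G v‖ₑ * ENNReal.ofReal (w ((v + n) / L - t)) := by
        refine (lintegral_tsum fun n => ?_).symm
        refine (Measurable.mul hG.meas.enorm ?_).aemeasurable
        exact (FOU_continuous_w.comp (by fun_prop)).measurable.ennreal_ofReal
    _ ≤ ∫⁻ v in Ioc (0 : ℝ) 1, ‖G v‖ₑ * ENNReal.ofReal (LFOU_M L) := by
        refine lintegral_mono fun v => ?_
        rw [ENNReal.tsum_mul_left]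
        exact mul_le_mul_right (LFOU_per_le L t v hL) _
    _ = (∫⁻ v in Ioc (0 : ℝ) 1, ‖G v‖ₑ) * ENNReal.ofReal (LFOU_M L) :=
        lintegral_mul_const' _ _ ENNReal.ofReal_ne_top
    _ < ⊤ := ENNReal.mul_lt_top hGi.2 ENNReal.ofReal_lt_top

theorem p_LFOU : L_FOU := by
  intro G B hG L t y hL
  have hB : 0 ≤ B := (abs_nonneg (G 0)).trans hG.zero
  have hsum := FOU_summable L y hL
  have hint := LFOU_int hG L t hL
  have hGi : IntegrableOn G (Ioc 0 1) :=
    (intervalIntegrable_iff_integrableOn_Ioc_of_le zero_le_one).1 hG.int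
  have eL : ∀ u : ℝ, (t + u) * L / L - t = u := by
    intro u
    field_simp
    ring
  refine ⟨?_, ?_, ?_⟩
  · have h1 := (hint.comp_mul_right' hL.ne').comp_add_left t
    refine h1.congr ?_
    filter_upwards with u
    rw [eL]
  · refine Summable.of_nonneg_of_le (fun h => by positivity) (fun h => ?_) (hsum.mul_left B)
    exact mul_le_mul_of_nonneg_right (LFOU_coef_le hG h) (Real.exp_pos _).le
  set g : ℝ → ℂ := fun v => (G v : ℂ) * FOU_K L t y v with hg
  have hGm : Measurable (fun v => (G v : ℂ)) := Complex.measurable_ofReal.comp hG.meas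
  have hgm : Measurable g := hGm.mul (FOU_continuous_K L t y).measurable
  have hgi : Integrable g := by
    apply hint.norm.mono' hgm.aestronglyMeasurable
    filter_upwards with v
    rw [hg]
    show ‖(G v : ℂ) * FOU_K L t y v‖ ≤ _
    rw [norm_mul, FOU_norm_K, Complex.norm_real, norm_mul,
      Real.norm_of_nonneg (FOU_w_pos (v / L - t)).le]
  have hper : ∀ (v : ℝ) (n : ℤ), G (v + n) = G v := by
    intro v n
    have := (hG.per.int_mul n) v
    simpa using this
  -- change of variables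
  have s1 : ∫ u : ℝ, (G ((t + u) * L) : ℂ) * e (-(u * y)) * w u = ((L⁻¹ : ℝ) : ℂ) * ∫ v, g v := by
    have e1 : ∀ u : ℝ, (G ((t + u) * L) : ℂ) * e (-(u * y)) * w u = g ((t + u) * L) := by
      intro u
      rw [hg]
      show _ = (G ((t + u) * L) : ℂ) * FOU_K L t y ((t + u) * L)
      unfold FOU_K
      rw [eL, mul_assoc]
    simp_rw [e1]
    rw [integral_add_left_eq_self (fun x => g (x * L)) t, Measure.integral_comp_mul_right,
      abs_of_pos (inv_pos.mpr hL), Complex.real_smul]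
  -- first exchange
  have s2 : ∫ v, g v = ∫ v in Set.Ioc (0 : ℝ) 1, ∑' n : ℤ, g (v + n) := by
    have e1 := hgi.hasSum_intervalIntegral_comp_add_int
    have e2 := hgi.norm.hasSum_intervalIntegral_comp_add_int
    simp_rw [intervalIntegral.integral_of_le (zero_le_one (α := ℝ))] at e1 e2
    have e3 := hasSum_integral_of_summable_integral_norm
      (μ := volume.restrict (Set.Ioc (0 : ℝ) 1)) (F := fun (n : ℤ) (x : ℝ) => g (x + n))
      (fun n => (hgi.comp_add_right (n : ℝ)).restrict) e2.summable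
    exact e1.unique e3
  have s3 : ∀ v : ℝ, ∑' n : ℤ, g (v + n) = ((L / (2 * √Real.pi) : ℝ) : ℂ) *
      ∑' h : ℤ, (G v : ℂ) * (((Real.exp (-(h * L - y) ^ 2 / 4) : ℝ) : ℂ) *
        e (h * (t * L - v))) := by
    intro v
    have e1 : ∀ n : ℤ, g (v + n) = (G v : ℂ) * FOU_K L t y (v + n) := by
      intro n
      show (G (v + n) : ℂ) * FOU_K L t y (v + n) = _
      rw [hper]
    simp_rw [e1]
    rw [tsum_mul_left, tsum_mul_left, FOU_poisson L t y hL v]
    ring
  -- second exchange
  have s4 : ∫ v in Set.Ioc (0 : ℝ) 1, ∑' h : ℤ, (G v : ℂ) *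
      (((Real.exp (-(h * L - y) ^ 2 / 4) : ℝ) : ℂ) * e (h * (t * L - v))) =
      ∑' h : ℤ, ∫ v in Set.Ioc (0 : ℝ) 1, (G v : ℂ) *
      (((Real.exp (-(h * L - y) ^ 2 / 4) : ℝ) : ℂ) * e (h * (t * L - v))) := by
    have hn : ∀ (h : ℤ) (v : ℝ), ‖(G v : ℂ) *
        (((Real.exp (-(h * L - y) ^ 2 / 4) : ℝ) : ℂ) * e (h * (t * L - v)))‖ =
        |G v| * Real.exp (-(h * L - y) ^ 2 / 4) := by
      intro h v
      rw [norm_mul, norm_mul, FOU_norm_e, mul_one, Complex.norm_real, Complex.norm_real,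
        Real.norm_of_nonneg (Real.exp_pos _).le, Real.norm_eq_abs]
    have hm : ∀ h : ℤ, AEStronglyMeasurable (fun v : ℝ => (G v : ℂ) *
        (((Real.exp (-(h * L - y) ^ 2 / 4) : ℝ) : ℂ) * e (h * (t * L - v))))
        (volume.restrict (Set.Ioc (0 : ℝ) 1)) := by
      intro h
      have hc : Continuous (fun v : ℝ => ((Real.exp (-(h * L - y) ^ 2 / 4) : ℝ) : ℂ) *
          e (h * (t * L - v))) :=
        continuous_const.mul (FOU_continuous_e.comp (by fun_prop))
      exact (hGm.mul hc.measurable).aestronglyMeasurable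
    have hi : ∀ h : ℤ, Integrable (fun v : ℝ => (G v : ℂ) *
        (((Real.exp (-(h * L - y) ^ 2 / 4) : ℝ) : ℂ) * e (h * (t * L - v))))
        (volume.restrict (Set.Ioc (0 : ℝ) 1)) := by
      intro h
      have h1 : Integrable (fun v : ℝ => |G v| * Real.exp (-(h * L - y) ^ 2 / 4))
          (volume.restrict (Set.Ioc (0 : ℝ) 1)) := (hGi.abs).mul_const _
      apply h1.mono' (hm h)
      filter_upwards with v using (hn h v).le
    refine (hasSum_integral_of_summable_integral_norm hi ?_).tsum_eq.symm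
    refine Summable.of_nonneg_of_le (fun h => integral_nonneg fun v => norm_nonneg _)
      (fun h => ?_) (hsum.mul_left B)
    simp only [hn]
    rw [integral_mul_const]
    refine mul_le_mul_of_nonneg_right ?_ (Real.exp_pos _).le
    have := hG.nrm
    rwa [intervalIntegral.integral_of_le zero_le_one] at this
  have s5 : ∀ h : ℤ, ∫ v in Set.Ioc (0 : ℝ) 1, (G v : ℂ) *
      (((Real.exp (-(h * L - y) ^ 2 / 4) : ℝ) : ℂ) * e (h * (t * L - v))) =
      coef G h * e (h * (t * L)) * (Real.exp (-(h * L - y) ^ 2 / 4) : ℝ) := by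
    intro h
    unfold coef
    rw [intervalIntegral.integral_of_le (zero_le_one (α := ℝ)), mul_assoc,
      ← integral_mul_const]
    congr 1
    funext v
    rw [show (h : ℝ) * (t * L - v) = -(h * v) + h * (t * L) by ring, FOU_e_add]
    ring
  rw [s1, s2]
  simp_rw [s3]
  rw [integral_const_mul, s4, ← mul_assoc, ← Complex.ofReal_mul]
  simp_rw [s5]
  congr 2
  field_simp

end Pool.Agent.Ben
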