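import Pool.Agent.Ben.Targets11

set_option autoImplicit false

namespace Pool.Agent.Ben

open Complex MeasureTheory Set

private theorem LGA_norm (y : ℝ) : ‖1 - e y‖ = |2 * Real.sin (Real.pi * y)| := by
  have h := Complex.norm_exp_I_mul_ofReal_sub_one (2 * Real.pi * y)
  rw [norm_sub_rev]
  unfold e
  rw [mul_comm ((2 * Real.pi * y : ℝ) : ℂ) I, h, Real.norm_eq_abs]
  congr 3
  ring

private theorem LGA_G0 (y : ℝ) : G0 y = Real.log (2 * Real.sin (Real.pi * y)) := by
  unfold G0
  rw [LGA_norm, Real.log_abs]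

private theorem LGA_cont : Continuous fun y : ℝ => ‖1 - e y‖ := by
  have : (fun y : ℝ => ‖1 - e y‖) = fun y => |2 * Real.sin (Real.pi * y)| := by
    funext y
    exact LGA_norm y
  rw [this]
  fun_prop

private theorem LGA_meas : Measurable G0 := by
  unfold G0
  exact Real.measurable_log.comp LGA_cont.measurable

private theorem LGA_e_add (y : ℝ) : e (y + 1) = e y := by
  unfold e
  have : ((2 * Real.pi * (y + 1) : ℝ) : ℂ) * I =
      ((2 * Real.pi * y : ℝ) : ℂ) * I + 2 * Real.pi * I := by
    push_cast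
    ring
  rw [this, Complex.exp_add, Complex.exp_two_pi_mul_I, mul_one]

private theorem LGA_eq {x : ℝ} (h0 : 0 < x) (h1 : x < 1) :
    G0 x = Real.log 2 + Real.log (Real.sin (Real.pi * x)) := by
  have h : 0 < Real.sin (Real.pi * x) := by
    apply Real.sin_pos_of_pos_of_lt_pi
    · positivity
    · nlinarith [Real.pi_pos]
  rw [LGA_G0, Real.log_mul (by norm_num) h.ne']

private theorem LGA_ae : ∀ᵐ x : ℝ ∂volume, x ∈ Set.uIoc (0 : ℝ) 1 →
    G0 x = Real.log 2 + Real.log (Real.sin (Real.pi * x)) := by
  have h : ∀ᵐ x : ℝ ∂volume, x ≠ 1 := by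
    simp [ae_iff, measure_singleton]
  filter_upwards [h] with x hx hx2
  rw [Set.uIoc_of_le zero_le_one] at hx2
  exact LGA_eq hx2.1 (lt_of_le_of_ne hx2.2 hx)

private theorem LGA_ii : IntervalIntegrable
    (fun x : ℝ => Real.log 2 + Real.log (Real.sin (Real.pi * x))) volume 0 1 := by
  have h : IntervalIntegrable (Real.log ∘ Real.sin) volume 0 Real.pi := by
    apply intervalIntegrable_log_sin
  have h2 := h.comp_mul_left (c := Real.pi)
  have h3 : IntervalIntegrable (fun x : ℝ => Real.log (Real.sin (Real.pi * x))) volume 0 1 := by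
    simpa [Function.comp, Real.pi_ne_zero] using h2
  exact (_root_.intervalIntegrable_const).add h3

private theorem LGA_int : IntervalIntegrable G0 volume 0 1 := by
  have h := LGA_ii
  rw [intervalIntegrable_iff] at h ⊢
  refine h.congr_fun_ae ?_
  rw [Filter.EventuallyEq, ae_restrict_iff' measurableSet_uIoc]
  filter_upwards [LGA_ae] with x hx hx2
  exact (hx hx2).symm

private theorem LGA_val : ∫ x in (0 : ℝ)..1, G0 x = 0 := by
  rw [intervalIntegral.integral_congr_ae LGA_ae]
  have h : IntervalIntegrable (Real.log ∘ Real.sin) volume 0 Real.pi := by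
    apply intervalIntegrable_log_sin
  have h2 := h.comp_mul_left (c := Real.pi)
  have h3 : IntervalIntegrable (fun x : ℝ => Real.log (Real.sin (Real.pi * x))) volume 0 1 := by
    simpa [Function.comp, Real.pi_ne_zero] using h2
  rw [intervalIntegral.integral_add (_root_.intervalIntegrable_const) h3]
  have h4 := intervalIntegral.integral_comp_mul_left (fun x => Real.log (Real.sin x))
    Real.pi_ne_zero (a := 0) (b := 1)
  simp only [mul_zero, mul_one, smul_eq_mul] at h4
  rw [h4, integral_log_sin_zero_pi, intervalIntegral.integral_const]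
  field_simp
  simp

theorem p_LGA : L_GA := by
  refine ⟨⟨∫ x in (0 : ℝ)..1, |G0 x|, ⟨LGA_meas, ?_, LGA_int, le_rfl, ?_⟩⟩, ?_⟩
  · intro y
    unfold G0
    rw [LGA_e_add]
  · have : G0 0 = 0 := by
      rw [LGA_G0]
      simp
    rw [this, abs_zero]
    exact intervalIntegral.integral_nonneg zero_le_one fun x _ => abs_nonneg _
  · unfold coef
    have h : ∀ x : ℝ, (G0 x : ℂ) * e (-(((0 : ℤ) : ℝ) * x)) = (G0 x : ℂ) := by
      intro x
      unfold e
      simp
    simp only [h]
    rw [intervalIntegral.integral_ofReal, LGA_val]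
    simp

end Pool.Agent.Ben
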