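import Pool.Agent.Ben.Targets11

/-!
# The first Fourier coefficient of `log |2 sin (π y)|`
-/

set_option autoImplicit false

namespace Pool.Agent.Ben

open Complex MeasureTheory Set

private lemma LGB_norm (y : ℝ) : ‖1 - e y‖ = |2 * Real.sin (Real.pi * y)| := by
  have h := Complex.norm_exp_I_mul_ofReal_sub_one (2 * Real.pi * y)
  have e1 : ‖1 - e y‖ = ‖Complex.exp (I * ((2 * Real.pi * y : ℝ) : ℂ)) - 1‖ := by
    rw [norm_sub_rev]
    unfold e
    rw [mul_comm]
  rw [e1, h, Real.norm_eq_abs]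
  congr 3
  ring

private lemma LGB_G0 (y : ℝ) (hy : y ∈ Ioo (0 : ℝ) 1) :
    G0 y = Real.log 2 + Real.log (Real.sin (Real.pi * y)) ∧
      G0 y = Real.log (2 * Real.sin (Real.pi * y)) ∧ 0 < Real.sin (Real.pi * y) := by
  have hs : 0 < Real.sin (Real.pi * y) := by
    apply Real.sin_pos_of_pos_of_lt_pi
    · exact mul_pos Real.pi_pos hy.1
    · have := mul_lt_mul_of_pos_left hy.2 Real.pi_pos
      linarith
  have h2 : G0 y = Real.log (2 * Real.sin (Real.pi * y)) := by
    unfold G0
    rw [LGB_norm, Real.log_abs]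
  refine ⟨?_, h2, hs⟩
  rw [h2, Real.log_mul (by norm_num) hs.ne']

private lemma LGB_int : IntervalIntegrable G0 volume 0 1 := by
  have h1 : IntervalIntegrable (fun x : ℝ => Real.log (Real.sin (Real.pi * x))) volume 0 1 := by
    have h := (intervalIntegrable_log_sin (a := 0) (b := Real.pi)).comp_mul_left (c := Real.pi)
    simpa using h
  have h2 : IntervalIntegrable (fun x : ℝ => Real.log 2 + Real.log (Real.sin (Real.pi * x)))
      volume 0 1 := (intervalIntegrable_const (c := Real.log 2)).add h1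
  rw [intervalIntegrable_iff_integrableOn_Ioo_of_le zero_le_one] at h2 ⊢
  exact h2.congr_fun (fun x hx => ((LGB_G0 x hx).1).symm) measurableSet_Ioo

private noncomputable def LGB_F (x : ℝ) : ℝ :=
  (2 * Real.sin (Real.pi * x)) * Real.log (2 * Real.sin (Real.pi * x)) *
    Real.cos (Real.pi * x) / (2 * Real.pi) - x / 2 - Real.sin (2 * Real.pi * x) / (4 * Real.pi)

private lemma LGB_cont : Continuous LGB_F := by
  unfold LGB_F
  have h : Continuous (fun x : ℝ => (2 * Real.sin (Real.pi * x)) *
      Real.log (2 * Real.sin (Real.pi * x))) :=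
    Real.continuous_mul_log.comp (f := fun x : ℝ => 2 * Real.sin (Real.pi * x)) (by fun_prop)
  have h2 : Continuous (fun x : ℝ => Real.cos (Real.pi * x)) := by fun_prop
  have h3 : Continuous (fun x : ℝ => Real.sin (2 * Real.pi * x) / (4 * Real.pi)) := by fun_prop
  exact (((h.mul h2).div_const _).sub (continuous_id.div_const 2)).sub h3

private lemma LGB_deriv (x : ℝ) (hx : x ∈ Ioo (0 : ℝ) 1) :
    HasDerivAt LGB_F (G0 x * Real.cos (2 * Real.pi * x)) x := by
  obtain ⟨-, hG, hs⟩ := LGB_G0 x hx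
  have hpi : Real.pi ≠ 0 := Real.pi_ne_zero
  have hl : HasDerivAt (fun x : ℝ => Real.pi * x) Real.pi x := by
    simpa using (hasDerivAt_id x).const_mul Real.pi
  have hl2 : HasDerivAt (fun x : ℝ => 2 * Real.pi * x) (2 * Real.pi) x := by
    simpa using (hasDerivAt_id x).const_mul (2 * Real.pi)
  have h1 : HasDerivAt (fun x : ℝ => 2 * Real.sin (Real.pi * x))
      (2 * (Real.cos (Real.pi * x) * Real.pi)) x := (hl.sin).const_mul 2
  have hne : 2 * Real.sin (Real.pi * x) ≠ 0 := by positivity
  have h2 := h1.mul (h1.log hne)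
  have h3 : HasDerivAt (fun x : ℝ => Real.cos (Real.pi * x))
      (-Real.sin (Real.pi * x) * Real.pi) x := hl.cos
  have h4 := (h2.mul h3).div_const (2 * Real.pi)
  have h5 : HasDerivAt (fun x : ℝ => x / 2) (1 / 2) x := (hasDerivAt_id x).div_const 2
  have h6 := (hl2.sin).div_const (4 * Real.pi)
  have h7 := (h4.sub h5).sub h6
  refine h7.congr_deriv ?_
  rw [hG]
  have hc : Real.cos (2 * Real.pi * x) = 2 * Real.cos (Real.pi * x) ^ 2 - 1 := by
    rw [← Real.cos_two_mul]
    congr 1
    ring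
  have hss : Real.sin (Real.pi * x) ^ 2 = 1 - Real.cos (Real.pi * x) ^ 2 :=
    Real.sin_sq _
  rw [hc]
  set s := Real.sin (Real.pi * x) with hsdef
  set c := Real.cos (Real.pi * x) with hcdef
  set l := Real.log (2 * s) with hldef
  have hs0 : s ≠ 0 := hs.ne'
  simp only [Pi.mul_apply]
  field_simp
  linear_combination (-(8 * l)) * hss

theorem p_LGB : L_GB := by
  intro h0
  have hcont : Continuous (fun x : ℝ => e (-(((1 : ℤ) : ℝ) * x))) := by
    unfold e
    fun_prop
  have hint : IntervalIntegrable (fun x : ℝ => (G0 x : ℂ) * e (-(((1 : ℤ) : ℝ) * x)))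
      volume 0 1 := by
    have h1 : IntervalIntegrable (fun x : ℝ => (G0 x : ℂ)) volume 0 1 :=
      ⟨LGB_int.1.ofReal, LGB_int.2.ofReal⟩
    exact h1.mul_continuousOn hcont.continuousOn
  have hre := Complex.reCLM.intervalIntegral_comp_comm hint
  have hval : ∫ x in (0 : ℝ)..1, G0 x * Real.cos (2 * Real.pi * x) = -(1 / 2) := by
    rw [intervalIntegral.integral_eq_sub_of_hasDerivAt_of_le zero_le_one
      LGB_cont.continuousOn LGB_deriv
      (LGB_int.mul_continuousOn (Continuous.continuousOn (by fun_prop)))]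
    unfold LGB_F
    have e1 : 2 * Real.pi * 1 = 2 * Real.pi := by ring
    rw [e1]
    simp
  have e2 : ∀ x : ℝ, Complex.reCLM ((G0 x : ℂ) * e (-(((1 : ℤ) : ℝ) * x))) =
      G0 x * Real.cos (2 * Real.pi * x) := by
    intro x
    rw [Complex.reCLM_apply, Complex.re_ofReal_mul]
    unfold e
    rw [Complex.exp_ofReal_mul_I_re]
    congr 1
    rw [← Real.cos_neg]
    congr 1
    push_cast
    ring
  simp only [e2] at hre
  rw [hval] at hre
  unfold coef at h0
  rw [h0] at hre
  simp at hre

end Pool.Agent.Ben
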