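import Pool.Agent.Ben.Targets
import Pool.Agent.DBN.WinGrow
import Pool.Agent.DBN.Good
import Pool.Agent.DBN.Const
import Pool.Agent.DBN.SumThree

/-!
# LH and Benford's law: the exponents of all smoothed sums give the Lindelöf hypothesis
-/

set_option autoImplicit false

namespace Pool.Agent.Ben

open Pool.Agent.DBN in
theorem p_LH : T_LH := by
  intro h
  have hg : GrowthLe 0 0 := by
    rw [growth_iff_sum]
    intro α h0 h1
    have e1 : (0 : ℝ) - 0 * (α - 1 / 2) ^ 2 / 4 = 0 := by ring
    rw [e1]
    rcases eq_or_lt_of_le h1 with h2 | h2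
    · subst h2
      have h3 := sumLe_three 1 h0 le_rfl
      have e2 : (3 * ((1 : ℝ) * (1 - 1)) / 4) = 0 := by ring
      rwa [e2] at h3
    · exact h α h0 h2
  exact Pool.Agent.DBN.lh_iff.mpr (growth_zero.mp hg)

end Pool.Agent.Ben
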