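import Pool.Agent.Ben.Targets11

/-!
# Block LITER: iteration of the step, integrable observables
-/

set_option autoImplicit false

namespace Pool.Agent.Ben

open Complex MeasureTheory Set

private lemma LITER_norm_e (x : ℝ) : ‖e x‖ = 1 := by
  unfold e
  exact Complex.norm_exp_ofReal_mul_I _

/-- the trivial bound -/
private lemma LITER_triv (p a κ β : ℝ) : GG p a 1 κ β := by
  intro ε hε
  refine ⟨1, fun t ht M hM _ N _ _ => ?_⟩
  have h1 : ‖∑ n ∈ Finset.Icc 1 M, e (t * Real.log n) *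
      (Real.exp (-(Real.log n - Real.log N) ^ 2 / 4) : ℝ)‖ ≤ M := by
    refine (norm_sum_le _ _).trans ?_
    have h2 : ∀ n ∈ Finset.Icc 1 M, ‖e (t * Real.log n) *
        ((Real.exp (-(Real.log n - Real.log N) ^ 2 / 4) : ℝ) : ℂ)‖ ≤ 1 := by
      intro n _
      rw [norm_mul, LITER_norm_e, one_mul, Complex.norm_real,
        Real.norm_of_nonneg (Real.exp_pos _).le]
      apply Real.exp_le_one_iff.mpr
      nlinarith [sq_nonneg (Real.log n - Real.log N)]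
    refine (Finset.sum_le_sum h2).trans ?_
    rw [Finset.sum_const, Nat.card_Icc, nsmul_eq_mul, mul_one, Nat.add_sub_cancel]
  refine h1.trans ?_
  rw [Real.rpow_one, one_mul]
  have hM0 : (0 : ℝ) ≤ M := Nat.cast_nonneg _
  have h2 : 1 ≤ t ^ ε := Real.one_le_rpow ht hε.le
  have h3 : 0 ≤ (M : ℝ) ^ p * t ^ a := by positivity
  have h4 : (M : ℝ) ≤ (M : ℝ) ^ p * t ^ a + M := by linarith
  calc (M : ℝ) ≤ (M : ℝ) ^ p * t ^ a + M := h4
    _ = ((M : ℝ) ^ p * t ^ a + M) * 1 := (mul_one _).symm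
    _ ≤ ((M : ℝ) ^ p * t ^ a + M) * t ^ ε := mul_le_mul_of_nonneg_left h2 (by linarith)

theorem p_LITER : L_STEP → L_ITER := by
  intro hS m hm G B κ₀ β p a hO hc0 hκ₀ hβ0 hβ1 hp0 hp1 ha hc hz hU θ hθ
  have hm0 : (0 : ℝ) < m := by exact_mod_cast hm
  set r : ℝ := (m : ℝ) / (m + 1) with hr
  have hr0 : 0 ≤ r := by positivity
  have hr1 : r < 1 := by
    rw [hr, div_lt_one (by positivity)]
    linarith
  have hall : ∀ j : ℕ, ∃ κ : ℝ, 0 < κ ∧ GG p a (r ^ j) κ β := by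
    intro j
    induction j with
    | zero =>
      refine ⟨1, one_pos, ?_⟩
      rw [pow_zero]
      exact LITER_triv p a 1 β
    | succ j ih =>
      obtain ⟨κ, hκ, hGA⟩ := ih
      obtain ⟨κ', hκ', hGA'⟩ := hS m hm G B κ₀ β p a hO hc0 hκ₀ hβ0 hβ1 hp0 hp1 ha hc hz hU
        (r ^ j) κ (pow_nonneg hr0 j) (pow_le_one₀ hr0 hr1.le) hκ hGA
      refine ⟨κ', hκ', ?_⟩
      rw [pow_succ']
      exact hGA'
  obtain ⟨j, hj⟩ := exists_pow_lt_of_lt_one hθ hr1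
  obtain ⟨κ, hκ, hGA⟩ := hall j
  refine ⟨κ, hκ, fun ε hε => ?_⟩
  obtain ⟨C, hC⟩ := hGA ε hε
  refine ⟨|C|, fun t ht M hM hMκ N hN hNM => ?_⟩
  refine (hC t ht M hM hMκ N hN hNM).trans ?_
  have ht0 : 0 < t := by linarith
  have hM1 : (1 : ℝ) ≤ M := by exact_mod_cast hM
  have h1 : (M : ℝ) ^ (r ^ j) ≤ (M : ℝ) ^ θ := Real.rpow_le_rpow_of_exponent_le hM1 hj.le
  have h5 : 0 ≤ (M : ℝ) ^ p * t ^ a + (M : ℝ) ^ (r ^ j) := by positivity
  calc C * ((M : ℝ) ^ p * t ^ a + (M : ℝ) ^ (r ^ j)) * t ^ ε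
      ≤ |C| * ((M : ℝ) ^ p * t ^ a + (M : ℝ) ^ (r ^ j)) * t ^ ε := by
        gcongr
        exact le_abs_self C
    _ ≤ |C| * ((M : ℝ) ^ p * t ^ a + (M : ℝ) ^ θ) * t ^ ε := by gcongr

end Pool.Agent.Ben
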