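import Pool.Agent.Ben.Targets11

/-!
# The product criterion, LKER: window integrals of `|G|` with a quadratic weight
-/

set_option autoImplicit false

namespace Pool.Agent.Ben

open Complex MeasureTheory Set

private lemma LKER_sum_exp {l : ℝ} (hl : 0 < l) :
    Summable (fun h : ℤ => Real.exp (-((h : ℝ) * l) ^ 2 / 2)) := by
  have hp := Real.pi_pos
  have h1 : 0 < l ^ 2 / (2 * Real.pi) := by positivity
  have h2 := summable_pow_mul_jacobiTheta₂_term_bound 0 h1 0
  refine h2.congr (fun n => ?_)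
  rw [pow_zero, one_mul]
  congr 1
  field_simp
  ring

private lemma LKER_loc {G : ℝ → ℝ} {B : ℝ} (hG : Loc G B) : Loc (fun x => |G x|) B where
  meas := hG.meas.abs
  per := fun x => by
    show |G (x + 1)| = |G x|
    rw [hG.per x]
  int := hG.int.abs
  nrm := by simpa only [abs_abs] using hG.nrm
  zero := by simpa only [abs_abs] using hG.zero

private lemma LKER_coef_le {G : ℝ → ℝ} {B : ℝ} (hG : Loc G B) (h : ℤ) : ‖coef G h‖ ≤ B := by
  unfold coef
  refine (intervalIntegral.norm_integral_le_integral_norm zero_le_one).trans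
    (le_trans (le_of_eq ?_) hG.nrm)
  refine intervalIntegral.integral_congr (fun x _ => ?_)
  show ‖(G x : ℂ) * e (-(h * x))‖ = |G x|
  rw [norm_mul, e, Complex.norm_exp_ofReal_mul_I, mul_one, Complex.norm_real, Real.norm_eq_abs]

private lemma LKER_mass (hF : L_FOU) {G : ℝ → ℝ} {B : ℝ} (hG : Loc G B) (t L l : ℝ)
    (hl : 0 < l) (hL : √2 * l ≤ L) :
    Integrable (fun u : ℝ => |G ((t + u) * L)| * w u) ∧
    ∫ u : ℝ, |G ((t + u) * L)| * w u ≤ B * ∑' h : ℤ, Real.exp (-((h : ℝ) * l) ^ 2 / 2) := by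
  have hB : 0 ≤ B := (abs_nonneg _).trans hG.zero
  have hL0 : 0 < L := lt_of_lt_of_le (by positivity) hL
  have hA := LKER_loc hG
  obtain ⟨h0, h1, h2⟩ := hF _ B hA L t 0 hL0
  refine ⟨h0, ?_⟩
  have h3 : ∫ u : ℝ, ((|G ((t + u) * L)| : ℝ) : ℂ) * e (-(u * 0)) * w u =
      ((∫ u : ℝ, |G ((t + u) * L)| * w u : ℝ) : ℂ) := by
    rw [← integral_complex_ofReal]
    refine integral_congr_ae (Filter.Eventually.of_forall (fun u => ?_))
    simp [e]
  rw [h3] at h2
  have h4 : ∫ u : ℝ, |G ((t + u) * L)| * w u ≤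
      ‖((∫ u : ℝ, |G ((t + u) * L)| * w u : ℝ) : ℂ)‖ := by
    rw [Complex.norm_real, Real.norm_eq_abs]
    exact le_abs_self _
  refine h4.trans ?_
  rw [h2, norm_mul]
  have h5 : ‖((1 / (2 * √Real.pi) : ℝ) : ℂ)‖ ≤ 1 := by
    rw [Complex.norm_real, Real.norm_eq_abs, abs_of_nonneg (by positivity)]
    have h6 : (1 : ℝ) ≤ √Real.pi := by
      rw [Real.one_le_sqrt]
      linarith [Real.pi_gt_three]
    rw [div_le_one (by positivity)]
    linarith
  have h7 : ∀ h : ℤ, ‖coef (fun x => |G x|) h * e (h * (t * L)) *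
      (Real.exp (-(h * L - 0) ^ 2 / 4) : ℝ)‖ =
      ‖coef (fun x => |G x|) h‖ * Real.exp (-(h * L - 0) ^ 2 / 4) := by
    intro h
    rw [norm_mul, norm_mul, Complex.norm_real, Real.norm_eq_abs, abs_of_pos (Real.exp_pos _), e,
      Complex.norm_exp_ofReal_mul_I, mul_one]
  have h8 : ‖∑' h : ℤ, coef (fun x => |G x|) h * e (h * (t * L)) *
      (Real.exp (-(h * L - 0) ^ 2 / 4) : ℝ)‖ ≤
      ∑' h : ℤ, ‖coef (fun x => |G x|) h‖ * Real.exp (-(h * L - 0) ^ 2 / 4) := by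
    have h9 : Summable (fun h : ℤ => ‖coef (fun x => |G x|) h * e (h * (t * L)) *
        (Real.exp (-(h * L - 0) ^ 2 / 4) : ℝ)‖) :=
      h1.congr (fun h => (h7 h).symm)
    refine (norm_tsum_le_tsum_norm h9).trans (le_of_eq ?_)
    exact tsum_congr h7
  have h10 : ∑' h : ℤ, ‖coef (fun x => |G x|) h‖ * Real.exp (-(h * L - 0) ^ 2 / 4) ≤
      ∑' h : ℤ, B * Real.exp (-((h : ℝ) * l) ^ 2 / 2) := by
    refine h1.tsum_le_tsum (fun h => ?_) ((LKER_sum_exp hl).mul_left B)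
    refine mul_le_mul (LKER_coef_le hA h) ?_ (Real.exp_pos _).le hB
    refine Real.exp_le_exp.2 ?_
    have h11 : 2 * l ^ 2 ≤ L ^ 2 := by
      have h12 : (√2 * l) ^ 2 ≤ L ^ 2 := by gcongr
      rwa [mul_pow, Real.sq_sqrt (by norm_num)] at h12
    have h13 : (0 : ℝ) ≤ (h : ℝ) ^ 2 := sq_nonneg _
    rw [sub_zero, mul_pow, mul_pow]
    nlinarith
  rw [tsum_mul_left] at h10
  have h12 := norm_nonneg (∑' h : ℤ, coef (fun x => |G x|) h * e (h * (t * L)) *
      (Real.exp (-(h * L - 0) ^ 2 / 4) : ℝ))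
  calc _ ≤ 1 * ‖∑' h : ℤ, coef (fun x => |G x|) h * e (h * (t * L)) *
        (Real.exp (-(h * L - 0) ^ 2 / 4) : ℝ)‖ := mul_le_mul_of_nonneg_right h5 h12
    _ ≤ _ := by
      rw [one_mul]
      exact h8.trans h10

private lemma LKER_w (u : ℝ) : (1 + u ^ 2) * w u ≤ w (u / √2) := by
  unfold w
  have h1 : (u / √2) ^ 2 = u ^ 2 / 2 := by
    rw [div_pow, Real.sq_sqrt (by norm_num)]
  rw [h1]
  have h2 : 1 + u ^ 2 ≤ Real.exp (u ^ 2) := by
    have := Real.add_one_le_exp (u ^ 2)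
    linarith
  calc (1 + u ^ 2) * Real.exp (-(4 * Real.pi ^ 2 * u ^ 2))
      ≤ Real.exp (u ^ 2) * Real.exp (-(4 * Real.pi ^ 2 * u ^ 2)) :=
        mul_le_mul_of_nonneg_right h2 (Real.exp_pos _).le
    _ = Real.exp (u ^ 2 + -(4 * Real.pi ^ 2 * u ^ 2)) := (Real.exp_add _ _).symm
    _ ≤ _ := by
        refine Real.exp_le_exp.2 ?_
        have h3 := Real.pi_gt_three
        have h4 : (0 : ℝ) ≤ u ^ 2 := sq_nonneg u
        have h5 : 1 ≤ 2 * Real.pi ^ 2 := by nlinarith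
        nlinarith

theorem p_LKER : L_FOU → L_KER := by
  intro hF l hl
  refine ⟨√2 * ∑' h : ℤ, Real.exp (-((h : ℝ) * l) ^ 2 / 2), by positivity, ?_⟩
  intro G B hG L t hL
  have h2 : (0 : ℝ) < √2 := by positivity
  obtain ⟨hi, hb⟩ := LKER_mass hF hG (t / √2) (√2 * L) l hl
    (mul_le_mul_of_nonneg_left hL h2.le)
  have h3 : ∀ u : ℝ, |G ((t / √2 + u) * (√2 * L))| * w u =
      (fun v : ℝ => |G ((t + v) * L)| * w (v / √2)) (√2 * u) := by
    intro u
    show _ = |G ((t + √2 * u) * L)| * w (√2 * u / √2)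
    have h4 : (t / √2 + u) * (√2 * L) = (t + √2 * u) * L := by
      field_simp
    have h5 : √2 * u / √2 = u := by field_simp
    rw [h4, h5]
  simp only [h3] at hi hb
  have hg : Integrable (fun v : ℝ => |G ((t + v) * L)| * w (v / √2)) :=
    (integrable_comp_mul_left_iff _ h2.ne').1 hi
  have hmeas : Measurable (fun u : ℝ => G ((t + u) * L)) :=
    hG.meas.comp ((measurable_const.add measurable_id).mul_const L)
  have hwc : Continuous w := by unfold w; fun_prop
  have hle : ∀ u : ℝ, (1 + u ^ 2) * |G ((t + u) * L)| * w u ≤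
      |G ((t + u) * L)| * w (u / √2) := by
    intro u
    calc (1 + u ^ 2) * |G ((t + u) * L)| * w u = |G ((t + u) * L)| * ((1 + u ^ 2) * w u) := by
          ring
      _ ≤ _ := mul_le_mul_of_nonneg_left (LKER_w u) (abs_nonneg _)
  have hint : Integrable (fun u : ℝ => (1 + u ^ 2) * |G ((t + u) * L)| * w u) := by
    refine hg.mono' ?_ (Filter.Eventually.of_forall (fun u => ?_))
    · have h6 : Measurable (fun u : ℝ => 1 + u ^ 2) := by fun_prop
      exact ((h6.mul hmeas.abs).mul hwc.measurable).aestronglyMeasurable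
    · rw [Real.norm_eq_abs, abs_of_nonneg]
      · exact hle u
      · have h7 : 0 < w u := Real.exp_pos _
        positivity
  refine ⟨hint, ?_⟩
  have hc := Measure.integral_comp_mul_left (fun v : ℝ => |G ((t + v) * L)| * w (v / √2)) (√2)
  rw [abs_of_pos (inv_pos.2 h2), smul_eq_mul] at hc
  replace hb := hc.symm.le.trans hb
  rw [inv_mul_le_iff₀ h2] at hb
  calc ∫ u : ℝ, (1 + u ^ 2) * |G ((t + u) * L)| * w u
      ≤ ∫ v : ℝ, |G ((t + v) * L)| * w (v / √2) := integral_mono hint hg hle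
    _ ≤ √2 * (B * ∑' h : ℤ, Real.exp (-((h : ℝ) * l) ^ 2 / 2)) := hb
    _ = _ := by ring

end Pool.Agent.Ben
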