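import Pool.Agent.Ben.Targets11

/-!
# Ben-LL1: a one-sided bound outside a countable set gives an `L¹` bound
-/

set_option autoImplicit false

namespace Pool.Agent.Ben

open MeasureTheory

private theorem LL1_w_pos (u : ℝ) : 0 < w u := Real.exp_pos _

private theorem LL1_w_int : Integrable w := by
  have h : (0 : ℝ) < 4 * Real.pi ^ 2 := by positivity
  have := integrable_exp_neg_mul_sq h
  refine this.congr (Filter.Eventually.of_forall fun u => ?_)
  unfold w
  ring_nf

private theorem LL1_w2_int : Integrable fun u : ℝ => u ^ 2 * w u := by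
  have h : (0 : ℝ) < 4 * Real.pi ^ 2 := by positivity
  have := integrable_rpow_mul_exp_neg_mul_sq h (s := 2) (by norm_num)
  refine this.congr (Filter.Eventually.of_forall fun u => ?_)
  unfold w
  simp only [Real.rpow_two]
  ring_nf

private theorem LL1_w12_int : Integrable fun u : ℝ => (1 + u ^ 2) * w u := by
  refine (LL1_w_int.add LL1_w2_int).congr (Filter.Eventually.of_forall fun u => ?_)
  simp only [Pi.add_apply]
  ring

private theorem LL1_w_cont : Continuous w := by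
  unfold w
  fun_prop

theorem p_LL1 : L_KER → L_MEAN → L_L1 := by
  intro hKER hMEAN m hm G B κ β p a hG hG0 hκ hβ0 hβ1 hp ha hU ε₀ hε₀
  obtain ⟨C₀, hC₀, hM⟩ := hMEAN m hm
  have hm1 : (1 : ℝ) ≤ m := by exact_mod_cast hm
  have hm0 : (0 : ℝ) < m := by linarith
  have hl : 0 < Real.log 2 / m := div_pos (Real.log_pos (by norm_num)) hm0
  obtain ⟨C₂, hC₂, hK⟩ := hKER (Real.log 2 / m) hl
  have hmu : ∀ u : ℝ, |u / m| ≤ |u| := by
    intro u
    rw [abs_div, abs_of_pos hm0]
    exact div_le_self (abs_nonneg u) hm1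
  obtain ⟨S, hS, hU'⟩ := hU
  obtain ⟨C₁, hC₁⟩ := hU' ε₀ hε₀
  have hε : 0 < a + ε₀ := by linarith
  clear hU'
  generalize a + ε₀ = ε at *
  have hB : 0 ≤ B := (abs_nonneg _).trans hG.zero
  obtain ⟨W0, hW0⟩ : ∃ W0 : ℝ, W0 = ∫ u : ℝ, w u := ⟨_, rfl⟩
  obtain ⟨W1, hW1⟩ : ∃ W1 : ℝ, W1 = ∫ u : ℝ, (1 + u ^ 2) * w u := ⟨_, rfl⟩
  have hW0' : 0 ≤ W0 := by
    rw [hW0]
    exact integral_nonneg fun u => (LL1_w_pos u).le
  have hW1' : 0 ≤ W1 := by
    rw [hW1]
    exact integral_nonneg fun u => mul_nonneg (by positivity) (LL1_w_pos u).le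
  obtain ⟨Q, hQ⟩ : ∃ Q : ℝ, Q = C₂ * B + B * W1 := ⟨_, rfl⟩
  have hQ0 : 0 ≤ Q := by rw [hQ]; positivity
  refine ⟨2 * (|C₁| * (3 / 2) ^ ε) * W0 + 4 * κ * Q + C₀ * B, ?_⟩
  intro t ht N hN hNtβ
  have ht0 : 0 < t := by linarith
  have hNt : (N : ℝ) ≤ κ / 2 * t := by
    refine hNtβ.trans (mul_le_mul_of_nonneg_left ?_ (by positivity))
    calc t ^ β ≤ t ^ (1 : ℝ) := Real.rpow_le_rpow_of_exponent_le ht hβ1
      _ = t := Real.rpow_one t
  set F : ℝ → ℝ := fun u => ∑ n ∈ Finset.Icc 1 N, G ((t + u / m) * Real.log n) with hF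
  set E : ℝ → ℝ := fun u => ∑ n ∈ Finset.Icc 1 N, |G ((t + u / m) * Real.log n)| with hE
  have hE0 : ∀ u, 0 ≤ E u := fun u => Finset.sum_nonneg fun n _ => abs_nonneg _
  have hFE : ∀ u, |F u| ≤ E u := fun u => Finset.abs_sum_le_sum_abs _ _
  have hFm : Measurable F := by
    refine Finset.measurable_sum _ fun n _ => ?_
    exact hG.meas.comp (by fun_prop)
  -- one term
  have hterm : ∀ n ∈ Finset.Icc 1 N,
      Integrable (fun u : ℝ => (1 + u ^ 2) * |G ((t + u / m) * Real.log n)| * w u) ∧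
      ∫ u : ℝ, (1 + u ^ 2) * |G ((t + u / m) * Real.log n)| * w u ≤ Q := by
    intro n hn
    have hn1 : 1 ≤ n := (Finset.mem_Icc.1 hn).1
    rcases hn1.eq_or_lt with h1 | h1
    · subst h1
      have e1 : (fun u : ℝ => (1 + u ^ 2) * |G ((t + u / m) * Real.log (1 : ℕ))| * w u) =
          fun u : ℝ => |G 0| * ((1 + u ^ 2) * w u) := by
        funext u
        rw [Nat.cast_one, Real.log_one, mul_zero]
        ring
      rw [e1]
      refine ⟨LL1_w12_int.const_mul _, ?_⟩
      rw [integral_const_mul, ← hW1, hQ]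
      have h2 : |G 0| * W1 ≤ B * W1 := mul_le_mul_of_nonneg_right hG.zero hW1'
      have h3 : 0 ≤ C₂ * B := mul_nonneg hC₂ hB
      linarith
    · have hle : Real.log 2 / m ≤ Real.log n / m := by
        refine div_le_div_of_nonneg_right ?_ hm0.le
        exact Real.log_le_log (by norm_num) (by exact_mod_cast h1)
      have h2 := hK G B hG (Real.log n / m) (m * t) hle
      have harg : ∀ u : ℝ, (m * t + u) * (Real.log n / m) = (t + u / m) * Real.log n := by
        intro u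
        field_simp
      simp only [harg] at h2
      refine ⟨h2.1, h2.2.trans ?_⟩
      rw [hQ]
      have h3 : 0 ≤ B * W1 := mul_nonneg hB hW1'
      linarith
  have hHeq : (fun u : ℝ => (1 + u ^ 2) * E u * w u) =
      fun u : ℝ => ∑ n ∈ Finset.Icc 1 N, (1 + u ^ 2) * |G ((t + u / m) * Real.log n)| * w u := by
    funext u
    rw [hE, Finset.mul_sum, Finset.sum_mul]
  have hHint : Integrable fun u : ℝ => (1 + u ^ 2) * E u * w u := by
    rw [hHeq]
    exact integrable_finsetSum _ fun n hn => (hterm n hn).1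
  have hHle : ∫ u : ℝ, (1 + u ^ 2) * E u * w u ≤ N * Q := by
    rw [hHeq, integral_finsetSum _ fun n hn => (hterm n hn).1]
    calc _ ≤ ∑ _n ∈ Finset.Icc 1 N, Q := Finset.sum_le_sum fun n hn => (hterm n hn).2
      _ = N * Q := by simp
  have hmono : ∀ u, |F u * w u| ≤ (1 + u ^ 2) * E u * w u := by
    intro u
    rw [abs_mul, abs_of_pos (LL1_w_pos u)]
    refine mul_le_mul_of_nonneg_right ?_ (LL1_w_pos u).le
    have h1 := hE0 u
    have h2 := hFE u
    nlinarith [sq_nonneg u, mul_nonneg (sq_nonneg u) h1]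
  have hFw : Integrable fun u => F u * w u := by
    refine Integrable.mono' hHint ?_ (Filter.Eventually.of_forall fun u => ?_)
    · exact (hFm.mul LL1_w_cont.measurable).aestronglyMeasurable
    · rw [Real.norm_eq_abs]
      exact hmono u
  have hAw : Integrable fun u => |F u| * w u := by
    refine hFw.abs.congr (Filter.Eventually.of_forall fun u => ?_)
    change |F u * w u| = |F u| * w u
    rw [abs_mul, abs_of_pos (LL1_w_pos u)]
  have hN1 : (1 : ℝ) ≤ N := by exact_mod_cast hN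
  have hs1 : 1 ≤ (N : ℝ) ^ p := Real.one_le_rpow hN1 hp
  have htε : 1 ≤ t ^ ε := Real.one_le_rpow ht hε.le
  obtain ⟨D, hD⟩ : ∃ D : ℝ, D = |C₁| * (3 / 2) ^ ε * ((N : ℝ) ^ p * t ^ ε) := ⟨_, rfl⟩
  have hD0 : 0 ≤ D := by rw [hD]; positivity
  have hae : ∀ᵐ u : ℝ, t + u / m ∉ S := by
    have h1 : ((fun u : ℝ => t + u / m) ⁻¹' S).Countable := by
      refine hS.preimage_of_injOn ?_
      intro x _ y _ hxy
      have h2 : x / m = y / m := add_left_cancel hxy
      exact (div_left_inj' hm0.ne').1 h2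
    exact h1.ae_notMem volume
  have hct : 0 ≤ 4 / t ^ 2 := by positivity
  -- the pointwise bound
  have hpt : ∀ᵐ u : ℝ, F u ≤ D + 4 / t ^ 2 * ((1 + u ^ 2) * E u) := by
    filter_upwards [hae] with u hu
    have h0 : 0 ≤ 4 / t ^ 2 * ((1 + u ^ 2) * E u) :=
      mul_nonneg hct (mul_nonneg (by positivity) (hE0 u))
    by_cases hcase : 2 ≤ t ∧ |u| ≤ t / 2
    · obtain ⟨h5, h6⟩ := hcase
      have h7 := abs_le.1 ((hmu u).trans h6)
      have h8 : (1 : ℝ) ≤ t + u / m := by linarith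
      have h9 : (N : ℝ) ≤ κ * (t + u / m) ^ β := by
        have q1 : (1 / 2 : ℝ) ≤ (1 / 2 : ℝ) ^ β := by
          calc (1 / 2 : ℝ) = (1 / 2 : ℝ) ^ (1 : ℝ) := (Real.rpow_one _).symm
            _ ≤ (1 / 2 : ℝ) ^ β :=
              Real.rpow_le_rpow_of_exponent_ge (by norm_num) (by norm_num) hβ1
        have q2 : (1 / 2 : ℝ) * t ^ β ≤ (t / 2) ^ β := by
          rw [show t / 2 = 1 / 2 * t by ring, Real.mul_rpow (by norm_num) ht0.le]
          exact mul_le_mul_of_nonneg_right q1 (by positivity)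
        have q3 : (t / 2) ^ β ≤ (t + u / m) ^ β :=
          Real.rpow_le_rpow (by positivity) (by linarith) hβ0.le
        calc (N : ℝ) ≤ κ / 2 * t ^ β := hNtβ
          _ = κ * (1 / 2 * t ^ β) := by ring
          _ ≤ κ * (t + u / m) ^ β := mul_le_mul_of_nonneg_left (q2.trans q3) hκ.le
      have h10 := hC₁ (t + u / m) hu h8 N hN h9
      have h11 : (t + u / m) ^ ε ≤ (3 / 2) ^ ε * t ^ ε := by
        rw [← Real.mul_rpow (by norm_num) ht0.le]
        exact Real.rpow_le_rpow (by linarith) (by linarith) hε.le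
      have h12 : C₁ * (N : ℝ) ^ p * (t + u / m) ^ ε ≤ D := by
        rw [hD]
        calc C₁ * (N : ℝ) ^ p * (t + u / m) ^ ε ≤ |C₁| * (N : ℝ) ^ p * (t + u / m) ^ ε := by
              refine mul_le_mul_of_nonneg_right (mul_le_mul_of_nonneg_right (le_abs_self _)
                (Real.rpow_nonneg (by linarith) _)) (Real.rpow_nonneg (by linarith) _)
          _ ≤ |C₁| * (N : ℝ) ^ p * ((3 / 2) ^ ε * t ^ ε) :=
              mul_le_mul_of_nonneg_left h11 (by positivity)
          _ = |C₁| * (3 / 2) ^ ε * ((N : ℝ) ^ p * t ^ ε) := by ring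
      have h13 : F u ≤ C₁ * (N : ℝ) ^ p * (t + u / m) ^ ε := h10
      linarith
    · have h1 : 1 ≤ 4 / t ^ 2 * (1 + u ^ 2) := by
        rw [div_mul_eq_mul_div, le_div_iff₀ (by positivity), one_mul]
        rcases lt_or_ge t 2 with h5 | h5
        · nlinarith [sq_nonneg u]
        · have h6 : t / 2 < |u| := by
            by_contra h7
            exact hcase ⟨h5, not_lt.1 h7⟩
          have h7 : (t / 2) ^ 2 ≤ u ^ 2 := by
            rw [← sq_abs u]
            exact pow_le_pow_left₀ (by positivity) h6.le 2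
          nlinarith
      have h2 : F u ≤ E u := (le_abs_self _).trans (hFE u)
      have h3 : E u ≤ 4 / t ^ 2 * ((1 + u ^ 2) * E u) := by
        rw [← mul_assoc]
        exact le_mul_of_one_le_left (hE0 u) h1
      linarith
  have hle : ∀ᵐ u : ℝ, |F u| * w u ≤ (2 * D) * w u +
      (2 * (4 / t ^ 2)) * ((1 + u ^ 2) * E u * w u) - F u * w u := by
    filter_upwards [hpt] with u h1
    have h0 : 0 ≤ 4 / t ^ 2 * ((1 + u ^ 2) * E u) :=
      mul_nonneg hct (mul_nonneg (by positivity) (hE0 u))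
    have h2 : |F u| ≤ 2 * D + 2 * (4 / t ^ 2 * ((1 + u ^ 2) * E u)) - F u := by
      rcases abs_cases (F u) with ⟨h4, _⟩ | ⟨h4, _⟩
      · rw [h4]; linarith
      · rw [h4]; linarith
    calc |F u| * w u ≤ (2 * D + 2 * (4 / t ^ 2 * ((1 + u ^ 2) * E u)) - F u) * w u :=
          mul_le_mul_of_nonneg_right h2 (LL1_w_pos u).le
      _ = _ := by ring
  have hint : ∫ u : ℝ, |F u| * w u ≤ (2 * D) * W0 +
      (2 * (4 / t ^ 2)) * (∫ u : ℝ, (1 + u ^ 2) * E u * w u) - ∫ u : ℝ, F u * w u := by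
    have i1 : Integrable fun u : ℝ => (2 * D) * w u := LL1_w_int.const_mul _
    have i2 : Integrable fun u : ℝ => (2 * (4 / t ^ 2)) * ((1 + u ^ 2) * E u * w u) :=
      hHint.const_mul _
    have i12 : Integrable fun u : ℝ => (2 * D) * w u +
        (2 * (4 / t ^ 2)) * ((1 + u ^ 2) * E u * w u) := i1.add i2
    calc ∫ u : ℝ, |F u| * w u ≤ ∫ u : ℝ, ((2 * D) * w u +
          (2 * (4 / t ^ 2)) * ((1 + u ^ 2) * E u * w u) - F u * w u) :=
          integral_mono_ae hAw (i12.sub hFw) hle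
      _ = _ := by
          rw [integral_sub i12 hFw, integral_add i1 i2, integral_const_mul,
            integral_const_mul, hW0]
  have hmean := hM G B hG hG0 t N
  have h20 : -(∫ u : ℝ, F u * w u) ≤ C₀ * B := (neg_le_abs _).trans hmean
  have h21 : (2 * (4 / t ^ 2)) * (∫ u : ℝ, (1 + u ^ 2) * E u * w u) ≤ 4 * κ * Q := by
    have h22 : 4 / t ^ 2 * N ≤ 2 * κ := by
      rw [div_mul_eq_mul_div, div_le_iff₀ (by positivity)]
      have h23 : κ * t ≤ κ * t ^ 2 := by
        refine mul_le_mul_of_nonneg_left ?_ hκ.le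
        nlinarith
      nlinarith
    calc (2 * (4 / t ^ 2)) * (∫ u : ℝ, (1 + u ^ 2) * E u * w u) ≤
          (2 * (4 / t ^ 2)) * (N * Q) := mul_le_mul_of_nonneg_left hHle (by positivity)
      _ = 2 * (4 / t ^ 2 * N) * Q := by ring
      _ ≤ 2 * (2 * κ) * Q := mul_le_mul_of_nonneg_right (by linarith) hQ0
      _ = 4 * κ * Q := by ring
  have hst : 1 ≤ (N : ℝ) ^ p * t ^ ε := one_le_mul_of_one_le_of_one_le hs1 htε
  have e2 : 4 * κ * Q ≤ 4 * κ * Q * ((N : ℝ) ^ p * t ^ ε) :=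
    le_mul_of_one_le_right (by positivity) hst
  have e3 : C₀ * B ≤ C₀ * B * ((N : ℝ) ^ p * t ^ ε) :=
    le_mul_of_one_le_right (by positivity) hst
  calc ∫ u : ℝ, |F u| * w u ≤ (2 * D) * W0 + 4 * κ * Q + C₀ * B := by linarith
    _ ≤ (2 * D) * W0 + 4 * κ * Q * ((N : ℝ) ^ p * t ^ ε) +
        C₀ * B * ((N : ℝ) ^ p * t ^ ε) := by linarith
    _ = _ := by rw [hD]; ring

end Pool.Agent.Ben
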