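import Pool.Agent.Ben.Targets11
import Pool.Agent.Ben.P_FOU

/-!
# Ben, target `L_MAIN`: the frequency `m` is isolated (integrable observables)
-/

set_option autoImplicit false

namespace Pool.Agent.Ben

open Complex MeasureTheory

private lemma LMAIN_coef_le {G : ℝ → ℝ} {B : ℝ} (hG : Loc G B) (h : ℤ) : ‖coef G h‖ ≤ B := by
  unfold coef
  refine (intervalIntegral.norm_integral_le_integral_norm (zero_le_one)).trans ?_
  refine le_trans (le_of_eq ?_) hG.nrm
  congr 1
  ext x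
  rw [norm_mul, FOU_norm_e, mul_one, Complex.norm_real, Real.norm_eq_abs]

private lemma LMAIN_int {G : ℝ → ℝ} {B : ℝ} (hF : L_FOU) (hG : Loc G B) (m : ℕ) (hm : 1 ≤ m)
    (t L y : ℝ) (hL0 : 0 ≤ L) :
    Integrable (fun u : ℝ => (G ((t + u / m) * L) : ℂ) * e (-(u * y)) * (w u : ℂ)) := by
  have hm0 : (0 : ℝ) < m := by exact_mod_cast hm
  have h1 : Measurable (fun u : ℝ => (G ((t + u / m) * L) : ℂ)) :=
    Complex.measurable_ofReal.comp (hG.meas.comp (by fun_prop))
  have h2 : Measurable (fun u : ℝ => e (-(u * y))) :=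
    (FOU_continuous_e.comp (by fun_prop)).measurable
  have h3 : Measurable (fun u : ℝ => (w u : ℂ)) :=
    Complex.measurable_ofReal.comp FOU_continuous_w.measurable
  have h4 : Integrable (fun u : ℝ => G ((t + u / m) * L) * w u) := by
    rcases eq_or_lt_of_le hL0 with h | h
    · rw [← h]
      simp only [mul_zero]
      exact FOU_integrable_w.const_mul _
    · have h5 := (hF G B hG (L / m) (m * t) 0 (div_pos h hm0)).1
      refine h5.congr (Filter.Eventually.of_forall fun u => ?_)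
      have : (m * t + u) * (L / m) = (t + u / m) * L := by
        field_simp
      simp only [this]
  refine h4.norm.mono' ((h1.mul h2).mul h3).aestronglyMeasurable ?_
  refine Filter.Eventually.of_forall fun u => ?_
  rw [norm_mul, norm_mul, FOU_norm_e, mul_one, Complex.norm_real, Complex.norm_real, norm_mul]

private lemma LMAIN_intle {G : ℝ → ℝ} {B : ℝ} (hG : Loc G B) (m : ℕ) (t y : ℝ) :
    ‖∫ u : ℝ, (G ((t + u / m) * 0) : ℂ) * e (-(u * y)) * (w u : ℂ)‖ ≤ B * ∫ u : ℝ, w u := by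
  rw [← integral_const_mul]
  refine norm_integral_le_of_norm_le (FOU_integrable_w.const_mul B) ?_
  refine Filter.Eventually.of_forall fun u => ?_
  rw [norm_mul, norm_mul, FOU_norm_e, mul_one, Complex.norm_real, Complex.norm_real,
    Real.norm_of_nonneg (FOU_w_pos u).le, mul_zero]
  exact mul_le_mul_of_nonneg_right hG.zero (FOU_w_pos u).le

/-- the terms of the frequency `h` -/
private noncomputable def LMAIN_b (m : ℕ) (t y : ℝ) (h n : ℕ) : ℂ :=
  e (h * t * Real.log n) * (Real.exp (-(h * Real.log n / m - y) ^ 2 / 4) : ℝ)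

private lemma LMAIN_b_le (m : ℕ) (t y : ℝ) (h n : ℕ) : ‖LMAIN_b m t y h n‖ ≤ 1 := by
  unfold LMAIN_b
  rw [norm_mul, FOU_norm_e, one_mul, Complex.norm_real, Real.norm_of_nonneg (Real.exp_pos _).le]
  apply Real.exp_le_one_iff.mpr
  nlinarith [sq_nonneg (h * Real.log n / m - y)]

private lemma LMAIN_b_one (m : ℕ) (t y : ℝ) (h : ℕ) :
    ‖LMAIN_b m t y h 1‖ = Real.exp (-y ^ 2 / 4) := by
  unfold LMAIN_b
  rw [norm_mul, FOU_norm_e, one_mul, Complex.norm_real, Real.norm_of_nonneg (Real.exp_pos _).le]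
  congr 1
  simp

/-- the error term of one frequency sum -/
private noncomputable def LMAIN_S (m : ℕ) (y : ℝ) (n : ℕ) : ℝ :=
  ∑' h : ℤ, (if h < 0 ∨ (0 < h ∧ 2 * m * y ≤ h * Real.log 2) then
    Real.exp (-(h * Real.log n / m - y) ^ 2 / 4) else 0)

private lemma LMAIN_one {G : ℝ → ℝ} {B : ℝ} (hF : L_FOU) (hG : Loc G B) (hmean : coef G 0 = 0)
    (m : ℕ) (hm : 1 ≤ m) (hz : ∀ j : ℕ, 0 < j → j < m → coef G j = 0) (t y : ℝ) (n : ℕ)
    (hn : 2 ≤ n) :
    ‖((1 / (2 * √Real.pi) : ℝ) : ℂ) *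
        (∑ h ∈ insert m (Finset.Ioo m ⌈2 * m * y / Real.log 2⌉₊),
          coef G (h : ℕ) * LMAIN_b m t y h n) -
      ∫ u : ℝ, (G ((t + u / m) * Real.log n) : ℂ) * e (-(u * y)) * (w u : ℂ)‖ ≤
      (1 / (2 * √Real.pi)) * (B * LMAIN_S m y n) := by
  have hm0 : (0 : ℝ) < m := by exact_mod_cast hm
  have hlog : 0 < Real.log n := Real.log_pos (by exact_mod_cast hn)
  have hL : 0 < Real.log n / m := div_pos hlog hm0
  have hc : (0 : ℝ) < 1 / (2 * √Real.pi) := by
    have := Real.pi_pos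
    positivity
  have hB : 0 ≤ B := (abs_nonneg _).trans hG.zero
  obtain ⟨-, hs, hI⟩ := hF G B hG (Real.log n / m) (m * t) y hL
  have hIeq : (∫ u : ℝ, (G ((t + u / m) * Real.log n) : ℂ) * e (-(u * y)) * (w u : ℂ)) =
      ∫ u : ℝ, (G ((m * t + u) * (Real.log n / m)) : ℂ) * e (-(u * y)) * (w u : ℂ) := by
    congr 1
    ext u
    have : (m * t + u) * (Real.log n / m) = (t + u / m) * Real.log n := by
      field_simp
    rw [this]
  set L := Real.log n / m with hLdef
  set a : ℤ → ℂ := fun h => coef G h * e (h * (m * t * L)) *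
      (Real.exp (-(h * L - y) ^ 2 / 4) : ℝ) with ha
  have hna : ∀ h : ℤ, ‖a h‖ = ‖coef G h‖ * Real.exp (-(h * L - y) ^ 2 / 4) := by
    intro h
    simp only [ha]
    rw [norm_mul, norm_mul, FOU_norm_e, mul_one, Complex.norm_real,
      Real.norm_of_nonneg (Real.exp_pos _).le]
  have hsa : Summable (fun h => ‖a h‖) := by
    simpa only [hna] using hs
  have hsa' : Summable a := hsa.of_norm
  set H : ℕ := ⌈2 * m * y / Real.log 2⌉₊ with hHdef
  set A : Finset ℤ := (insert m (Finset.Ioo m H)).image (fun k : ℕ => (k : ℤ)) with hA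
  have hak : ∀ k : ℕ, a (k : ℤ) = coef G (k : ℕ) * LMAIN_b m t y k n := by
    intro k
    simp only [ha]
    unfold LMAIN_b
    have e1 : ((k : ℤ) : ℝ) * (m * t * L) = k * t * Real.log n := by
      rw [hLdef]
      push_cast
      field_simp
    have e2 : ((k : ℤ) : ℝ) * L = k * Real.log n / m := by
      rw [hLdef]
      push_cast
      ring
    rw [e1, e2, mul_assoc]
  have hsumA : ∑ h ∈ A, a h = ∑ h ∈ insert m (Finset.Ioo m H),
      coef G (h : ℕ) * LMAIN_b m t y h n := by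
    rw [hA, Finset.sum_image (fun x _ z _ hxz => by exact_mod_cast hxz)]
    exact Finset.sum_congr rfl (fun k _ => hak k)
  have hsplit : ∑' h : ℤ, a h = ∑ h ∈ A, a h + ∑' h : ℤ, (if h ∈ A then 0 else a h) := by
    have h1 : HasSum (fun h : ℤ => if h ∈ A then a h else 0)
        (∑ h ∈ A, (if h ∈ A then a h else 0)) :=
      hasSum_sum_of_ne_finset_zero (fun h hh => if_neg hh)
    have h2 := (hsa'.hasSum.sub h1).tsum_eq
    have h3 : ∑ h ∈ A, (if h ∈ A then a h else 0) = ∑ h ∈ A, a h :=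
      Finset.sum_congr rfl (fun h hh => if_pos hh)
    have h4 : (fun h : ℤ => a h - (if h ∈ A then a h else 0)) =
        fun h : ℤ => (if h ∈ A then 0 else a h) := by
      ext h
      by_cases hh : h ∈ A
      · rw [if_pos hh, if_pos hh, sub_self]
      · rw [if_neg hh, if_neg hh, sub_zero]
    rw [h4, h3] at h2
    rw [h2]
    ring
  have hE : Summable (fun h : ℤ => (if h < 0 ∨ (0 < h ∧ 2 * m * y ≤ h * Real.log 2) then
      Real.exp (-(h * L - y) ^ 2 / 4) else 0)) := by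
    refine Summable.of_nonneg_of_le (fun h => ?_) (fun h => ?_) (FOU_summable L y hL)
    · split_ifs
      · exact (Real.exp_pos _).le
      · exact le_rfl
    · split_ifs
      · exact le_rfl
      · exact (Real.exp_pos _).le
  have hSeq : LMAIN_S m y n = ∑' h : ℤ, (if h < 0 ∨ (0 < h ∧ 2 * m * y ≤ h * Real.log 2) then
      Real.exp (-(h * L - y) ^ 2 / 4) else 0) := by
    unfold LMAIN_S
    congr 1
    ext h
    rw [hLdef, mul_div_assoc]
  have hR : ‖∑' h : ℤ, (if h ∈ A then 0 else a h)‖ ≤ B * LMAIN_S m y n := by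
    rw [hSeq, ← tsum_mul_left]
    refine tsum_of_norm_bounded (hE.mul_left B).hasSum (fun h => ?_)
    by_cases hhA : h ∈ A
    · rw [if_pos hhA, norm_zero]
      apply mul_nonneg hB
      split_ifs
      · exact (Real.exp_pos _).le
      · exact le_rfl
    · rw [if_neg hhA, hna]
      by_cases hcond : h < 0 ∨ (0 < h ∧ 2 * m * y ≤ h * Real.log 2)
      · rw [if_pos hcond]
        exact mul_le_mul_of_nonneg_right (LMAIN_coef_le hG h) (Real.exp_pos _).le
      · rw [if_neg hcond, mul_zero]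
        push Not at hcond
        obtain ⟨hc1, hc2⟩ := hcond
        obtain ⟨k, rfl⟩ := Int.eq_ofNat_of_zero_le hc1
        have hk : coef G ((k : ℕ) : ℤ) = 0 := by
          rcases Nat.eq_zero_or_pos k with hk0 | hk0
          · subst hk0
            exact_mod_cast hmean
          · have h3 := hc2 (by exact_mod_cast hk0)
            rcases lt_trichotomy k m with h4 | h4 | h4
            · exact hz k hk0 h4
            · exfalso
              apply hhA
              rw [hA, Finset.mem_image]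
              exact ⟨k, by rw [h4]; exact Finset.mem_insert_self _ _, rfl⟩
            · exfalso
              apply hhA
              rw [hA, Finset.mem_image]
              refine ⟨k, Finset.mem_insert_of_mem (Finset.mem_Ioo.mpr ⟨h4, ?_⟩), rfl⟩
              rw [hHdef, Nat.lt_ceil, lt_div_iff₀ (Real.log_pos (by norm_num))]
              exact_mod_cast h3
        rw [hk, norm_zero, zero_mul]
  rw [hIeq, hI]
  have e1 : tsum a = ∑ h ∈ A, a h + ∑' h : ℤ, (if h ∈ A then 0 else a h) := hsplit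
  rw [e1, ← hsumA]
  have e2 : ∀ (x z r : ℂ), x * z - x * (z + r) = -(x * r) := fun x z r => by ring
  rw [e2, norm_neg, norm_mul, Complex.norm_real, Real.norm_of_nonneg hc.le]
  exact mul_le_mul_of_nonneg_left hR hc.le

theorem p_LMAIN : L_FOU → V_ERR → L_MAIN := by
  intro hF hErr m hm
  obtain ⟨C₀, hC₀⟩ := hErr m hm
  have hm0 : (0 : ℝ) < m := by exact_mod_cast hm
  have hlog2 : 0 < Real.log 2 := Real.log_pos (by norm_num)
  have hc : (0 : ℝ) < 1 / (2 * √Real.pi) := by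
    have := Real.pi_pos
    positivity
  set c : ℝ := 1 / (2 * √Real.pi) with hcdef
  have hW : 0 ≤ ∫ u : ℝ, w u := integral_nonneg fun u => (FOU_w_pos u).le
  set W : ℝ := ∫ u : ℝ, w u with hWdef
  set D : ℝ := 2 * m / Real.log 2 + 1 with hDdef
  have hD : 0 ≤ D := by positivity
  refine ⟨1 / c + W / c + 1 + |C₀| + D, by positivity, ?_⟩
  intro G B hG hmean hz t y M hy
  have hB : 0 ≤ B := (abs_nonneg _).trans hG.zero
  have hJ : 0 ≤ ∫ u : ℝ, |∑ n ∈ Finset.Icc 1 M, G ((t + u / m) * Real.log n)| * w u :=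
    integral_nonneg fun u => mul_nonneg (abs_nonneg _) (FOU_w_pos u).le
  rcases Nat.eq_zero_or_pos M with hM | hM
  · subst hM
    have h0 : (Finset.Icc 1 0 : Finset ℕ) = ∅ := rfl
    rw [h0]
    simp only [Finset.sum_empty, norm_zero, mul_zero, abs_zero, zero_mul, integral_zero, zero_add,
      Finset.sum_const_zero, add_zero]
    positivity
  have hIcc : (Finset.Icc 1 M : Finset ℕ) = insert 1 (Finset.Icc 2 M) := by
    ext x
    simp only [Finset.mem_Icc, Finset.mem_insert]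
    omega
  have hnot : (1 : ℕ) ∉ Finset.Icc 2 M := by simp
  set J : ℝ := ∫ u : ℝ, |∑ n ∈ Finset.Icc 1 M, G ((t + u / m) * Real.log n)| * w u with hJdef
  set I : ℕ → ℂ := fun n =>
    ∫ u : ℝ, (G ((t + u / m) * Real.log n) : ℂ) * e (-(u * y)) * (w u : ℂ) with hIdef
  set H : ℕ := ⌈2 * m * y / Real.log 2⌉₊ with hHdef
  -- the whole integral
  have hsum : ‖∑ n ∈ Finset.Icc 1 M, I n‖ ≤ J := by
    have h1 : ∑ n ∈ Finset.Icc 1 M, I n = ∫ u : ℝ, ∑ n ∈ Finset.Icc 1 M,
        (G ((t + u / m) * Real.log n) : ℂ) * e (-(u * y)) * (w u : ℂ) :=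
      (integral_finsetSum (f := fun (n : ℕ) (u : ℝ) =>
        (G ((t + u / m) * Real.log n) : ℂ) * e (-(u * y)) * (w u : ℂ)) (Finset.Icc 1 M)
        fun n _ => LMAIN_int hF hG m hm t (Real.log n) y (Real.log_natCast_nonneg n)).symm
    rw [h1]
    refine (norm_integral_le_integral_norm _).trans (le_of_eq ?_)
    rw [hJdef]
    congr 1
    ext u
    rw [← Finset.sum_mul, ← Finset.sum_mul, norm_mul, norm_mul, FOU_norm_e, mul_one,
      Complex.norm_real, Real.norm_of_nonneg (FOU_w_pos u).le, ← Complex.ofReal_sum,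
      Complex.norm_real, Real.norm_eq_abs]
  have hI1 : ‖I 1‖ ≤ B * W := by
    have h1 := LMAIN_intle hG m t y
    simp only [hIdef, Nat.cast_one, Real.log_one]
    exact h1
  have hI2 : ‖∑ n ∈ Finset.Icc 2 M, I n‖ ≤ J + B * W := by
    have h1 : ∑ n ∈ Finset.Icc 2 M, I n = ∑ n ∈ Finset.Icc 1 M, I n - I 1 := by
      rw [hIcc, Finset.sum_insert hnot]
      ring
    rw [h1]
    exact (norm_sub_le _ _).trans (add_le_add hsum hI1)
  have hS : ∑ n ∈ Finset.Icc 2 M, LMAIN_S m y n ≤ |C₀| := (hC₀ y hy M).trans (le_abs_self _)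
  -- the sum over `2 ≤ n ≤ M`
  set T : ℕ → ℂ := fun h => ∑ n ∈ Finset.Icc 2 M, LMAIN_b m t y h n with hTdef
  have hswap : ∑ n ∈ Finset.Icc 2 M, ∑ h ∈ insert m (Finset.Ioo m H),
      coef G (h : ℕ) * LMAIN_b m t y h n =
      coef G (m : ℕ) * T m + ∑ h ∈ Finset.Ioo m H, coef G (h : ℕ) * T h := by
    rw [Finset.sum_comm, Finset.sum_insert (by simp)]
    simp only [hTdef, Finset.mul_sum]
  have hdiff : ‖(c : ℂ) * (coef G (m : ℕ) * T m + ∑ h ∈ Finset.Ioo m H, coef G (h : ℕ) * T h) -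
      ∑ n ∈ Finset.Icc 2 M, I n‖ ≤ c * (B * |C₀|) := by
    rw [← hswap, Finset.mul_sum, ← Finset.sum_sub_distrib]
    have h1 : c * (B * ∑ n ∈ Finset.Icc 2 M, LMAIN_S m y n) ≤ c * (B * |C₀|) :=
      mul_le_mul_of_nonneg_left (mul_le_mul_of_nonneg_left hS hB) hc.le
    refine le_trans ?_ h1
    rw [Finset.mul_sum, Finset.mul_sum]
    refine (norm_sum_le _ _).trans (Finset.sum_le_sum fun n hn => ?_)
    exact LMAIN_one hF hG hmean m hm hz t y n (Finset.mem_Icc.mp hn).1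
  have hother : ‖∑ h ∈ Finset.Ioo m H, coef G (h : ℕ) * T h‖ ≤
      B * ∑ h ∈ Finset.Ioo m H, ‖T h‖ := by
    rw [Finset.mul_sum]
    refine (norm_sum_le _ _).trans (Finset.sum_le_sum fun h _ => ?_)
    rw [norm_mul]
    exact mul_le_mul_of_nonneg_right (LMAIN_coef_le hG _) (norm_nonneg _)
  have hmain : c * (‖coef G (m : ℕ)‖ * ‖T m‖) ≤
      J + B * W + c * (B * |C₀|) + c * (B * ∑ h ∈ Finset.Ioo m H, ‖T h‖) := by
    set U : ℂ := ∑ h ∈ Finset.Ioo m H, coef G (h : ℕ) * T h with hU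
    have h1 : c * (‖coef G (m : ℕ)‖ * ‖T m‖) = ‖(c : ℂ) * (coef G (m : ℕ) * T m)‖ := by
      rw [norm_mul, norm_mul, Complex.norm_real, Real.norm_of_nonneg hc.le]
    have h2 : (c : ℂ) * (coef G (m : ℕ) * T m) =
        ((c : ℂ) * (coef G (m : ℕ) * T m + U) - ∑ n ∈ Finset.Icc 2 M, I n) +
          ∑ n ∈ Finset.Icc 2 M, I n - (c : ℂ) * U := by ring
    have h3 : ‖(c : ℂ) * U‖ ≤ c * (B * ∑ h ∈ Finset.Ioo m H, ‖T h‖) := by
      rw [norm_mul, Complex.norm_real, Real.norm_of_nonneg hc.le]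
      exact mul_le_mul_of_nonneg_left hother hc.le
    rw [h1, h2]
    refine (norm_sub_le _ _).trans ?_
    have h4 := norm_add_le ((c : ℂ) * (coef G (m : ℕ) * T m + U) - ∑ n ∈ Finset.Icc 2 M, I n)
      (∑ n ∈ Finset.Icc 2 M, I n)
    linarith
  have hmain2 : ‖coef G (m : ℕ)‖ * ‖T m‖ ≤
      1 / c * J + W / c * B + B * |C₀| + B * ∑ h ∈ Finset.Ioo m H, ‖T h‖ := by
    rw [← mul_le_mul_iff_right₀ hc]
    refine hmain.trans (le_of_eq ?_)
    field_simp
  -- the terms with `n = 1`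
  have hTle : ∀ h : ℕ, ‖T h‖ ≤ ‖∑ n ∈ Finset.Icc 1 M, LMAIN_b m t y h n‖ +
      Real.exp (-y ^ 2 / 4) := by
    intro h
    have h1 : T h = ∑ n ∈ Finset.Icc 1 M, LMAIN_b m t y h n - LMAIN_b m t y h 1 := by
      rw [hIcc, Finset.sum_insert hnot, hTdef]
      ring
    rw [h1, ← LMAIN_b_one m t y h]
    exact norm_sub_le _ _
  have hHle : ((Finset.Ioo m H).card : ℝ) * Real.exp (-y ^ 2 / 4) ≤ D := by
    have h1 : ((Finset.Ioo m H).card : ℝ) ≤ H := by
      have : (Finset.Ioo m H).card ≤ H := by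
        rw [Nat.card_Ioo]
        omega
      exact_mod_cast this
    have h2 : (H : ℝ) ≤ 2 * m * y / Real.log 2 + 1 := by
      rw [hHdef]
      exact (Nat.ceil_lt_add_one (by positivity)).le
    have h3 : y * Real.exp (-y ^ 2 / 4) ≤ 1 := by
      have h4 : y ≤ Real.exp (y ^ 2 / 4) := by
        have h5 := Real.add_one_le_exp (y ^ 2 / 4)
        nlinarith [sq_nonneg (y / 2 - 1)]
      have h6 : Real.exp (-y ^ 2 / 4) * Real.exp (y ^ 2 / 4) = 1 := by
        rw [← Real.exp_add]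
        have : -y ^ 2 / 4 + y ^ 2 / 4 = 0 := by ring
        rw [this, Real.exp_zero]
      have h7 := mul_le_mul_of_nonneg_right h4 (Real.exp_pos (-y ^ 2 / 4)).le
      linarith [mul_comm (Real.exp (-y ^ 2 / 4)) (Real.exp (y ^ 2 / 4))]
    have h4 : Real.exp (-y ^ 2 / 4) ≤ 1 := by
      apply Real.exp_le_one_iff.mpr
      nlinarith [sq_nonneg y]
    have h5 : ((Finset.Ioo m H).card : ℝ) * Real.exp (-y ^ 2 / 4) ≤
        (2 * m * y / Real.log 2 + 1) * Real.exp (-y ^ 2 / 4) :=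
      mul_le_mul_of_nonneg_right (h1.trans h2) (Real.exp_pos _).le
    refine h5.trans ?_
    have h6 : (2 * m * y / Real.log 2 + 1) * Real.exp (-y ^ 2 / 4) =
        2 * m / Real.log 2 * (y * Real.exp (-y ^ 2 / 4)) + Real.exp (-y ^ 2 / 4) := by ring
    rw [h6, hDdef]
    have h7 : 2 * m / Real.log 2 * (y * Real.exp (-y ^ 2 / 4)) ≤ 2 * m / Real.log 2 * 1 :=
      mul_le_mul_of_nonneg_left h3 (by positivity)
    linarith
  have hrest : ∑ h ∈ Finset.Ioo m H, ‖T h‖ ≤
      ∑ h ∈ Finset.Ioo m H, ‖∑ n ∈ Finset.Icc 1 M, LMAIN_b m t y h n‖ + D := by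
    have h1 := Finset.sum_le_sum (fun h (_ : h ∈ Finset.Ioo m H) => hTle h)
    rw [Finset.sum_add_distrib, Finset.sum_const, nsmul_eq_mul] at h1
    linarith
  have hfull : ‖coef G (m : ℕ)‖ * ‖∑ n ∈ Finset.Icc 1 M, LMAIN_b m t y m n‖ ≤
      B + ‖coef G (m : ℕ)‖ * ‖T m‖ := by
    rw [hIcc, Finset.sum_insert hnot]
    have h1 : ‖LMAIN_b m t y m 1 + ∑ n ∈ Finset.Icc 2 M, LMAIN_b m t y m n‖ ≤ 1 + ‖T m‖ :=
      (norm_add_le _ _).trans (add_le_add_left (LMAIN_b_le m t y m 1) _)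
    have h2 := LMAIN_coef_le hG (m : ℕ)
    have h3 := norm_nonneg (coef G (m : ℕ))
    nlinarith [mul_le_mul_of_nonneg_left h1 h3]
  have hlhs : ∑ n ∈ Finset.Icc 1 M, e (m * t * Real.log n) *
        (Real.exp (-(Real.log n - y) ^ 2 / 4) : ℝ) =
      ∑ n ∈ Finset.Icc 1 M, LMAIN_b m t y m n := by
    apply Finset.sum_congr rfl
    intro n _
    unfold LMAIN_b
    rw [mul_div_cancel_left₀ _ hm0.ne']
  have hrhs : ∑ h ∈ Finset.Ioo m H, ‖∑ n ∈ Finset.Icc 1 M, e (h * t * Real.log n) *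
        (Real.exp (-(h * Real.log n / m - y) ^ 2 / 4) : ℝ)‖ =
      ∑ h ∈ Finset.Ioo m H, ‖∑ n ∈ Finset.Icc 1 M, LMAIN_b m t y h n‖ := rfl
  rw [hlhs, hrhs]
  set Z : ℝ := ∑ h ∈ Finset.Ioo m H, ‖∑ n ∈ Finset.Icc 1 M, LMAIN_b m t y h n‖ with hZ
  have hBrest : B * ∑ h ∈ Finset.Ioo m H, ‖T h‖ ≤ B * (Z + D) :=
    mul_le_mul_of_nonneg_left hrest hB
  have hWc : 0 ≤ W / c := by positivity
  have hc1 : 0 ≤ 1 / c := by positivity
  have hfin : B + (1 / c * J + W / c * B + B * |C₀| + B * (Z + D)) ≤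
      (1 / c + W / c + 1 + |C₀| + D) * J + (1 / c + W / c + 1 + |C₀| + D) * B + B * Z := by
    have h1 : 0 ≤ (W / c + 1 + |C₀| + D) * J := by positivity
    have h2 : 0 ≤ 1 / c * B := by positivity
    nlinarith
  linarith

end Pool.Agent.Ben
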