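import Pool.Agent.Ben.Targets11

/-!
# LMEAN: the mean over the window is bounded (integrable statistics)
-/

set_option autoImplicit false

namespace Pool.Agent.Ben

open Complex MeasureTheory

private lemma LMEAN_w_eq : w = fun u : ℝ => Real.exp (-(4 * Real.pi ^ 2) * u ^ 2) := by
  funext u
  rw [w]
  congr 1
  ring

private lemma LMEAN_w_int : Integrable w := by
  rw [LMEAN_w_eq]
  exact integrable_exp_neg_mul_sq (by positivity)

private lemma LMEAN_w_pos (u : ℝ) : 0 < w u := Real.exp_pos _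

private lemma LMEAN_w_mass : ∫ u : ℝ, w u ≤ 1 := by
  rw [LMEAN_w_eq, integral_gaussian]
  refine Real.sqrt_le_one.2 ?_
  have h1 := Real.pi_gt_three
  rw [div_le_one (by positivity)]
  nlinarith

private lemma LMEAN_w_mass0 : 0 ≤ ∫ u : ℝ, w u := integral_nonneg (fun u => (LMEAN_w_pos u).le)

private lemma LMEAN_Bnn {G : ℝ → ℝ} {B : ℝ} (hG : Loc G B) : 0 ≤ B :=
  (abs_nonneg _).trans hG.zero

private lemma LMEAN_coef_le {G : ℝ → ℝ} {B : ℝ} (hG : Loc G B) (h : ℤ) : ‖coef G h‖ ≤ B := by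
  unfold coef
  refine (intervalIntegral.norm_integral_le_integral_norm zero_le_one).trans ?_
  have h1 : ∀ x : ℝ, ‖(G x : ℂ) * e (-(h * x))‖ = |G x| := by
    intro x
    rw [norm_mul, e, Complex.norm_exp_ofReal_mul_I, mul_one, Complex.norm_real, Real.norm_eq_abs]
  simp only [h1]
  exact hG.nrm

private lemma LMEAN_term_int (hF : L_FOU) {G : ℝ → ℝ} {B : ℝ} (hG : Loc G B) (t L : ℝ)
    (hL : 0 ≤ L) : Integrable (fun u : ℝ => G ((t + u) * L) * w u) := by
  rcases hL.eq_or_lt with h | h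
  · subst h
    simp only [mul_zero]
    exact LMEAN_w_int.const_mul (G 0)
  · exact (hF G B hG L t 0 h).1

private lemma LMEAN_sum_exp {L : ℝ} (hL : 0 < L) :
    Summable (fun h : ℤ => Real.exp (-((h : ℝ) * L) ^ 2 / 4)) := by
  have hp := Real.pi_pos
  have h1 : 0 < L ^ 2 / (4 * Real.pi) := by positivity
  have h2 := summable_pow_mul_jacobiTheta₂_term_bound 0 h1 0
  refine h2.congr (fun n => ?_)
  rw [pow_zero, one_mul]
  congr 1
  field_simp
  ring

private lemma LMEAN_sum_if {L : ℝ} (hL : 0 < L) :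
    Summable (fun h : ℤ => if h = 0 then (0 : ℝ) else
      Real.exp (-((h : ℝ) * L) ^ 2 / 4)) := by
  refine Summable.of_nonneg_of_le (fun h => ?_) (fun h => ?_) (LMEAN_sum_exp hL)
  · split_ifs
    · exact le_refl 0
    · positivity
  · split_ifs with h0
    · positivity
    · exact le_refl _

/-- One frequency. -/
private lemma LMEAN_one_term (hF : L_FOU) {G : ℝ → ℝ} {B : ℝ} (hG : Loc G B)
    (hG0 : coef G 0 = 0) (t L : ℝ) (hL : 0 < L) :
    |∫ u : ℝ, G ((t + u) * L) * w u| ≤ B * ∑' h : ℤ, (if h = 0 then (0 : ℝ) else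
      Real.exp (-((h : ℝ) * L) ^ 2 / 4)) := by
  have hB := LMEAN_Bnn hG
  obtain ⟨-, h1, h2⟩ := hF G B hG L t 0 hL
  have h3 : ∫ u : ℝ, (G ((t + u) * L) : ℂ) * e (-(u * 0)) * w u =
      ((∫ u : ℝ, G ((t + u) * L) * w u : ℝ) : ℂ) := by
    rw [← integral_complex_ofReal]
    refine integral_congr_ae (Filter.Eventually.of_forall (fun u => ?_))
    simp [e]
  rw [h3] at h2
  have h4 : |∫ u : ℝ, G ((t + u) * L) * w u| =
      ‖((∫ u : ℝ, G ((t + u) * L) * w u : ℝ) : ℂ)‖ := by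
    rw [Complex.norm_real, Real.norm_eq_abs]
  rw [h4, h2, norm_mul]
  have h5 : ‖((1 / (2 * √Real.pi) : ℝ) : ℂ)‖ ≤ 1 := by
    rw [Complex.norm_real, Real.norm_eq_abs, abs_of_nonneg (by positivity)]
    have h6 : (1 : ℝ) ≤ √Real.pi := by
      rw [Real.one_le_sqrt]
      linarith [Real.pi_gt_three]
    rw [div_le_one (by positivity)]
    linarith
  have h7 : ∀ h : ℤ, ‖coef G h * e (h * (t * L)) * (Real.exp (-(h * L - 0) ^ 2 / 4) : ℝ)‖ =
      ‖coef G h‖ * Real.exp (-(h * L - 0) ^ 2 / 4) := by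
    intro h
    rw [norm_mul, norm_mul, Complex.norm_real, Real.norm_eq_abs, abs_of_pos (Real.exp_pos _), e,
      Complex.norm_exp_ofReal_mul_I, mul_one]
  have h8 : ‖∑' h : ℤ, coef G h * e (h * (t * L)) * (Real.exp (-(h * L - 0) ^ 2 / 4) : ℝ)‖ ≤
      ∑' h : ℤ, ‖coef G h‖ * Real.exp (-(h * L - 0) ^ 2 / 4) := by
    have h9 : Summable (fun h : ℤ =>
        ‖coef G h * e (h * (t * L)) * (Real.exp (-(h * L - 0) ^ 2 / 4) : ℝ)‖) :=
      h1.congr (fun h => (h7 h).symm)
    refine (norm_tsum_le_tsum_norm h9).trans (le_of_eq ?_)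
    exact tsum_congr h7
  have h10 : ∑' h : ℤ, ‖coef G h‖ * Real.exp (-(h * L - 0) ^ 2 / 4) ≤
      ∑' h : ℤ, B * (if h = 0 then (0 : ℝ) else
        Real.exp (-((h : ℝ) * L) ^ 2 / 4)) := by
    refine h1.tsum_le_tsum (fun h => ?_) ((LMEAN_sum_if hL).mul_left B)
    by_cases h0 : h = 0
    · rw [if_pos h0, h0, hG0, norm_zero, zero_mul, mul_zero]
    · rw [if_neg h0, sub_zero]
      exact mul_le_mul_of_nonneg_right (LMEAN_coef_le hG h)
        (Real.exp_pos (-((h : ℝ) * L) ^ 2 / 4)).le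
  rw [tsum_mul_left] at h10
  have h12 := norm_nonneg
    (∑' h : ℤ, coef G h * e (h * (t * L)) * (Real.exp (-(h * L - 0) ^ 2 / 4) : ℝ))
  calc _ ≤ 1 * ‖∑' h : ℤ, coef G h * e (h * (t * L)) *
        (Real.exp (-(h * L - 0) ^ 2 / 4) : ℝ)‖ := mul_le_mul_of_nonneg_right h5 h12
    _ ≤ _ := by
      rw [one_mul]
      exact h8.trans h10

theorem p_LMEAN : L_FOU → V_ERZ → L_MEAN := by
  intro hF hZ m hm
  obtain ⟨C₀, hC₀⟩ := hZ m hm
  have hm0 : (0 : ℝ) < m := by exact_mod_cast hm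
  have hC : 0 ≤ C₀ := by
    have h := (hC₀ 0).2
    simpa using h
  refine ⟨1 + C₀, by linarith, ?_⟩
  intro G B hG hG0 t M
  have hB := LMEAN_Bnn hG
  rcases Nat.eq_zero_or_pos M with hM | hM
  · subst hM
    simp only [show Finset.Icc 1 0 = (∅ : Finset ℕ) from rfl, Finset.sum_empty, zero_mul,
      integral_zero, abs_zero]
    exact mul_nonneg (by linarith) hB
  have h1 : ∀ u : ℝ, (∑ n ∈ Finset.Icc 1 M, G ((t + u / m) * Real.log n)) * w u =
      ∑ n ∈ Finset.Icc 1 M, G ((m * t + u) * (Real.log n / m)) * w u := by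
    intro u
    rw [Finset.sum_mul]
    refine Finset.sum_congr rfl (fun n _ => ?_)
    congr 2
    field_simp
  simp only [h1]
  rw [integral_finsetSum (Finset.Icc 1 M)
    (f := fun n u => G ((m * t + u) * (Real.log (n : ℕ) / m)) * w u)
    (fun n _ => LMEAN_term_int hF hG (m * t) (Real.log n / m)
      (div_nonneg (Real.log_natCast_nonneg n) hm0.le))]
  have h2 : Finset.Icc 1 M = insert 1 (Finset.Icc 2 M) := by
    ext n
    simp only [Finset.mem_Icc, Finset.mem_insert]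
    omega
  rw [h2, Finset.sum_insert (by simp)]
  refine (abs_add_le _ _).trans ?_
  have h3 : |∫ u : ℝ, G ((m * t + u) * (Real.log (1 : ℕ) / m)) * w u| ≤ B := by
    have h4 : ∀ u : ℝ, G ((m * t + u) * (Real.log (1 : ℕ) / m)) * w u = G 0 * w u := by
      intro u
      rw [Nat.cast_one, Real.log_one, zero_div, mul_zero]
    simp only [h4]
    rw [integral_const_mul, abs_mul, abs_of_nonneg LMEAN_w_mass0]
    calc _ ≤ B * 1 := mul_le_mul hG.zero LMEAN_w_mass LMEAN_w_mass0 hB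
      _ = B := mul_one B
  have h5 : |∑ n ∈ Finset.Icc 2 M, ∫ u : ℝ, G ((m * t + u) * (Real.log n / m)) * w u| ≤
      B * C₀ := by
    refine (Finset.abs_sum_le_sum_abs _ _).trans ?_
    calc _ ≤ ∑ n ∈ Finset.Icc 2 M, B * ∑' h : ℤ, (if h = 0 then (0 : ℝ) else
          Real.exp (-((h : ℝ) * (Real.log n / m)) ^ 2 / 4)) := by
          refine Finset.sum_le_sum (fun n hn => ?_)
          have h6 := (Finset.mem_Icc.1 hn).1
          have h7 : 0 < Real.log n := Real.log_pos (by exact_mod_cast h6)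
          exact LMEAN_one_term hF hG hG0 (m * t) (Real.log n / m) (div_pos h7 hm0)
      _ = B * ∑ n ∈ Finset.Icc 2 M, ∑' h : ℤ, (if h = 0 then (0 : ℝ) else
          Real.exp (-((h : ℝ) * Real.log n / m) ^ 2 / 4)) := by
          rw [Finset.mul_sum]
          refine Finset.sum_congr rfl (fun n _ => ?_)
          congr 1
          refine tsum_congr (fun h => ?_)
          rw [mul_div_assoc]
      _ ≤ B * C₀ := mul_le_mul_of_nonneg_left (hC₀ M).2 hB
  linarith

end Pool.Agent.Ben
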