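import Pool.Agent.Ben.Targets11

/-!
# Ben, target LONE: the logarithm of the product
-/

set_option autoImplicit false

namespace Pool.Agent.Ben

open Complex MeasureTheory Set

private theorem LONE_e (n : ℕ) (hn : 1 ≤ n) (t : ℝ) :
    ((n : ℂ) ^ (((2 * Real.pi * t : ℝ) : ℂ) * I)) = e (t * Real.log n) := by
  have hn0 : (n : ℂ) ≠ 0 := by exact_mod_cast (by omega : n ≠ 0)
  rw [Complex.cpow_def_of_ne_zero hn0, e, ← Complex.natCast_log]
  congr 1
  push_cast
  ring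

private theorem LONE_ne {y : ℝ} (h : ∀ k : ℤ, y ≠ k) : 1 - e y ≠ 0 := by
  intro h0
  have h1 : e y = 1 := (sub_eq_zero.1 h0).symm
  rw [e, Complex.exp_eq_one_iff] at h1
  obtain ⟨k, hk⟩ := h1
  apply h k
  have h2 : ((2 * Real.pi * y : ℝ) : ℂ) * I = ((2 * Real.pi * k : ℝ) : ℂ) * I := by
    rw [hk]
    push_cast
    ring
  have h3 : ((2 * Real.pi * y : ℝ) : ℂ) = ((2 * Real.pi * k : ℝ) : ℂ) :=
    mul_right_cancel₀ I_ne_zero h2
  have h4 : 2 * Real.pi * y = 2 * Real.pi * k := by exact_mod_cast h3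
  exact mul_left_cancel₀ (by positivity) h4

/-- Target LONE. -/
theorem p_LONE : L_ONE := by
  intro β s a hβ ha hPB
  refine ⟨{t : ℝ | ∃ n : ℕ, 2 ≤ n ∧ ∃ k : ℤ, t * Real.log n = k}, ?_, ?_⟩
  · refine (Set.countable_range (fun p : ℕ × ℤ => (p.2 : ℝ) / Real.log p.1)).mono ?_
    rintro t ⟨n, hn, k, hk⟩
    refine ⟨(n, k), ?_⟩
    have hlog : 0 < Real.log n := Real.log_pos (by exact_mod_cast hn)
    simp only
    rw [← hk]
    field_simp
  · intro ε hε
    obtain ⟨C, hC⟩ := hPB ε hε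
    refine ⟨C * (2 * Real.pi) ^ (a + ε), ?_⟩
    intro t htS ht N hN hNt
    rw [one_mul] at hNt
    have hpi : 1 ≤ 2 * Real.pi := by linarith [Real.pi_gt_three]
    have ht0 : 0 ≤ t := by linarith
    have hx : 1 ≤ 2 * Real.pi * t := by nlinarith
    have hNx : (N : ℝ) ≤ (2 * Real.pi * t) ^ β :=
      hNt.trans (Real.rpow_le_rpow ht0 (by nlinarith) hβ.le)
    have h1 := hC (2 * Real.pi * t) hx N hN hNx
    have hne : ∀ n ∈ Finset.Icc 2 N, ‖1 - e (t * Real.log n)‖ ≠ 0 := by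
      intro n hn
      rw [norm_ne_zero_iff]
      refine LONE_ne fun k hk => htS ⟨n, (Finset.mem_Icc.1 hn).1, k, hk⟩
    have h2 : ∏ n ∈ Finset.Icc 2 N, ‖1 - (n : ℂ) ^ (((2 * Real.pi * t : ℝ) : ℂ) * I)‖ =
        ∏ n ∈ Finset.Icc 2 N, ‖1 - e (t * Real.log n)‖ := by
      refine Finset.prod_congr rfl fun n hn => ?_
      rw [LONE_e n (by have := (Finset.mem_Icc.1 hn).1; omega)]
    rw [h2] at h1
    have hpos : 0 < ∏ n ∈ Finset.Icc 2 N, ‖1 - e (t * Real.log n)‖ :=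
      Finset.prod_pos fun n hn => lt_of_le_of_ne (norm_nonneg _) (Ne.symm (hne n hn))
    have h3 := (Real.log_le_iff_le_exp hpos).2 h1
    rw [Real.log_prod hne] at h3
    have h4 : ∑ n ∈ Finset.Icc 1 N, G0 (t * Real.log n) =
        ∑ n ∈ Finset.Icc 2 N, Real.log ‖1 - e (t * Real.log n)‖ := by
      have h5 : Finset.Icc 1 N = insert 1 (Finset.Icc 2 N) := by
        ext n
        simp only [Finset.mem_insert, Finset.mem_Icc]
        omega
      rw [h5, Finset.sum_insert (by simp)]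
      simp [G0, e]
    rw [h4]
    refine h3.trans (le_of_eq ?_)
    rw [Real.mul_rpow (by positivity) ht0]
    ring

end Pool.Agent.Ben
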