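import Pool.Agent.Ben.P_FOU

/-!
# Ben, target `T_MAIN`: the frequency one is isolated
-/

set_option autoImplicit false

namespace Pool.Agent.Ben

open Complex MeasureTheory

private lemma MAIN_int {G : ℝ → ℝ} {B : ℝ} (hG : Adm G B) (t L y : ℝ) :
    Integrable (fun u : ℝ => (G ((t + u) * L) : ℂ) * e (-(u * y)) * (w u : ℂ)) := by
  refine Integrable.bdd_mul (c := B) FOU_integrable_w.ofReal ?_ ?_
  · have h1 : Measurable (fun u : ℝ => (G ((t + u) * L) : ℂ)) :=
      Complex.measurable_ofReal.comp (hG.meas.comp (by fun_prop))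
    have h2 : Measurable (fun u : ℝ => e (-(u * y))) :=
      (FOU_continuous_e.comp (by fun_prop)).measurable
    exact (h1.mul h2).aestronglyMeasurable
  · refine Filter.Eventually.of_forall fun u => ?_
    rw [norm_mul, FOU_norm_e, mul_one, Complex.norm_real]
    exact hG.bdd _

private lemma MAIN_intle {G : ℝ → ℝ} {B : ℝ} (hG : Adm G B) (t L y : ℝ) :
    ‖∫ u : ℝ, (G ((t + u) * L) : ℂ) * e (-(u * y)) * (w u : ℂ)‖ ≤ B * ∫ u : ℝ, w u := by
  rw [← integral_const_mul]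
  refine norm_integral_le_of_norm_le (FOU_integrable_w.const_mul B) ?_
  refine Filter.Eventually.of_forall fun u => ?_
  rw [norm_mul, norm_mul, FOU_norm_e, mul_one, Complex.norm_real, Complex.norm_real,
    Real.norm_of_nonneg (FOU_w_pos u).le]
  exact mul_le_mul_of_nonneg_right (hG.bdd _) (FOU_w_pos u).le

/-- the error term of one frequency sum -/
private noncomputable def MAIN_S (n : ℕ) (y : ℝ) : ℝ :=
  ∑' h : ℤ, (if h = 0 ∨ h = 1 then 0 else
    Real.exp (-(h * Real.log n - y) ^ 2 / 4) / |(h : ℝ)|)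

private lemma MAIN_one {G : ℝ → ℝ} {B : ℝ} (hF : T_FOU) (hG : Adm G B) (t y : ℝ) (n : ℕ)
    (hn : 2 ≤ n) :
    ‖(1 / (2 * √Real.pi) : ℝ) * (coef G 1 * (e (t * Real.log n) *
      (Real.exp (-(Real.log n - y) ^ 2 / 4) : ℝ))) -
      ∫ u : ℝ, (G ((t + u) * Real.log n) : ℂ) * e (-(u * y)) * (w u : ℂ)‖ ≤
      (1 / (2 * √Real.pi)) * (B * MAIN_S n y) := by
  have hL : 0 < Real.log n := Real.log_pos (by exact_mod_cast hn)
  have hc : (0 : ℝ) < 1 / (2 * √Real.pi) := by
    have := Real.pi_pos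
    positivity
  have hB : 0 ≤ B := (abs_nonneg _).trans (hG.bdd 0)
  obtain ⟨hs, hI⟩ := hF G B hG (Real.log n) t y hL
  set L := Real.log n with hLdef
  set a : ℤ → ℂ := fun h => coef G h * e (h * (t * L)) *
      (Real.exp (-(h * L - y) ^ 2 / 4) : ℝ) with ha
  have hna : ∀ h : ℤ, ‖a h‖ = ‖coef G h‖ * Real.exp (-(h * L - y) ^ 2 / 4) := by
    intro h
    simp only [ha]
    rw [norm_mul, norm_mul, FOU_norm_e, mul_one, Complex.norm_real,
      Real.norm_of_nonneg (Real.exp_pos _).le]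
  have hsa : Summable (fun h => ‖a h‖) := by
    simpa only [hna] using hs
  have hsa' : Summable a := hsa.of_norm
  have hsplit := hsa'.tsum_eq_add_tsum_ite 1
  have ha1 : a 1 = coef G 1 * (e (t * L) * (Real.exp (-(L - y) ^ 2 / 4) : ℝ)) := by
    simp only [ha]
    push_cast
    simp only [one_mul]
    ring
  have hE : Summable (fun h : ℤ => (if h = 0 ∨ h = 1 then (0 : ℝ) else
      Real.exp (-(h * L - y) ^ 2 / 4) / |(h : ℝ)|)) := by
    refine Summable.of_nonneg_of_le (fun h => ?_) (fun h => ?_) (FOU_summable L y hL)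
    · split_ifs
      · exact le_rfl
      · positivity
    · split_ifs with h0
      · exact (Real.exp_pos _).le
      · push Not at h0
        have h1 : (1 : ℝ) ≤ |(h : ℝ)| := by
          have := Int.one_le_abs h0.1
          exact_mod_cast this
        exact div_le_self (Real.exp_pos _).le h1
  have hR : ‖∑' h : ℤ, (if h = 1 then 0 else a h)‖ ≤ B * MAIN_S n y := by
    unfold MAIN_S
    rw [← hLdef, ← tsum_mul_left]
    refine tsum_of_norm_bounded (hE.mul_left B).hasSum (fun h => ?_)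
    by_cases h1 : h = 1
    · simp [h1]
    · rw [if_neg h1, hna]
      by_cases h0 : h = 0
      · subst h0
        rw [hG.mean]
        simp
      · rw [if_neg (by tauto)]
        have := mul_le_mul_of_nonneg_right (hG.dec h h0)
          (Real.exp_pos (-(h * L - y) ^ 2 / 4)).le
        calc _ ≤ _ := this
          _ = _ := by ring
  rw [hI]
  have e1 : ∑' h : ℤ, coef G h * e (h * (t * L)) *
      (Real.exp (-(h * L - y) ^ 2 / 4) : ℝ) = a 1 + ∑' h : ℤ, (if h = 1 then 0 else a h) :=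
    hsplit
  rw [e1, ha1]
  have e2 : ∀ (x z r : ℂ), x * z - x * (z + r) = -(x * r) := fun x z r => by ring
  rw [e2, norm_neg, norm_mul, Complex.norm_real, Real.norm_of_nonneg hc.le]
  exact mul_le_mul_of_nonneg_left hR hc.le

theorem p_MAIN : T_MAIN := by
  intro hF hErr
  obtain ⟨C₀, hC₀⟩ := hErr
  have hc : (0 : ℝ) < 1 / (2 * √Real.pi) := by
    have := Real.pi_pos
    positivity
  set c : ℝ := 1 / (2 * √Real.pi) with hcdef
  have hW : 0 ≤ ∫ u : ℝ, w u := integral_nonneg fun u => (FOU_w_pos u).le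
  set W : ℝ := ∫ u : ℝ, w u with hWdef
  refine ⟨1 / c + W / c + 1 + |C₀|, by positivity, ?_⟩
  intro G B hG t y M hy
  have hB : 0 ≤ B := (abs_nonneg _).trans (hG.bdd 0)
  have hJ : 0 ≤ ∫ u : ℝ, |∑ n ∈ Finset.Icc 1 M, G ((t + u) * Real.log n)| * w u :=
    integral_nonneg fun u => mul_nonneg (abs_nonneg _) (FOU_w_pos u).le
  rcases Nat.eq_zero_or_pos M with hM | hM
  · subst hM
    have h0 : (Finset.Icc 1 0 : Finset ℕ) = ∅ := rfl
    rw [h0]
    simp only [Finset.sum_empty, norm_zero, mul_zero, abs_zero, zero_mul, integral_zero, zero_add]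
    positivity
  have hIcc : (Finset.Icc 1 M : Finset ℕ) = insert 1 (Finset.Icc 2 M) := by
    ext x
    simp only [Finset.mem_Icc, Finset.mem_insert]
    omega
  have hnot : (1 : ℕ) ∉ Finset.Icc 2 M := by simp
  set J : ℝ := ∫ u : ℝ, |∑ n ∈ Finset.Icc 1 M, G ((t + u) * Real.log n)| * w u with hJdef
  set I : ℕ → ℂ := fun n => ∫ u : ℝ, (G ((t + u) * Real.log n) : ℂ) * e (-(u * y)) * (w u : ℂ)
    with hIdef
  set b : ℕ → ℂ := fun n => e (t * Real.log n) *
      (Real.exp (-(Real.log n - y) ^ 2 / 4) : ℝ) with hbdef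
  have hbn : ∀ n, ‖b n‖ ≤ 1 := by
    intro n
    simp only [hbdef]
    rw [norm_mul, FOU_norm_e, one_mul, Complex.norm_real, Real.norm_of_nonneg (Real.exp_pos _).le]
    apply Real.exp_le_one_iff.mpr
    nlinarith [sq_nonneg (Real.log n - y)]
  -- the whole integral
  have hsum : ‖∑ n ∈ Finset.Icc 1 M, I n‖ ≤ J := by
    have h1 : ∑ n ∈ Finset.Icc 1 M, I n = ∫ u : ℝ, ∑ n ∈ Finset.Icc 1 M,
        (G ((t + u) * Real.log n) : ℂ) * e (-(u * y)) * (w u : ℂ) :=
      (integral_finsetSum (f := fun (n : ℕ) (u : ℝ) =>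
        (G ((t + u) * Real.log n) : ℂ) * e (-(u * y)) * (w u : ℂ)) (Finset.Icc 1 M)
        fun n _ => MAIN_int hG t (Real.log n) y).symm
    rw [h1]
    refine (norm_integral_le_integral_norm _).trans (le_of_eq ?_)
    rw [hJdef]
    congr 1
    ext u
    rw [← Finset.sum_mul, ← Finset.sum_mul, norm_mul, norm_mul, FOU_norm_e, mul_one,
      Complex.norm_real, Real.norm_of_nonneg (FOU_w_pos u).le, ← Complex.ofReal_sum,
      Complex.norm_real, Real.norm_eq_abs]
  have hI1 : ‖I 1‖ ≤ B * W := MAIN_intle hG t _ y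
  have hS : ∑ n ∈ Finset.Icc 2 M, MAIN_S n y ≤ |C₀| * Real.exp (y / 2) * (1 + y) := by
    refine (hC₀ y hy M).trans ?_
    have h1 : C₀ ≤ |C₀| := le_abs_self _
    gcongr
  have hdiff : ‖(c : ℂ) * (coef G 1 * ∑ n ∈ Finset.Icc 2 M, b n) -
      ∑ n ∈ Finset.Icc 2 M, I n‖ ≤ c * (B * ∑ n ∈ Finset.Icc 2 M, MAIN_S n y) := by
    rw [Finset.mul_sum, Finset.mul_sum, ← Finset.sum_sub_distrib, Finset.mul_sum, Finset.mul_sum]
    refine (norm_sum_le _ _).trans (Finset.sum_le_sum fun n hn => ?_)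
    exact MAIN_one hF hG t y n (Finset.mem_Icc.mp hn).1
  have hI2 : ‖∑ n ∈ Finset.Icc 2 M, I n‖ ≤ J + B * W := by
    have h1 : ∑ n ∈ Finset.Icc 2 M, I n = ∑ n ∈ Finset.Icc 1 M, I n - I 1 := by
      rw [hIcc, Finset.sum_insert hnot]
      ring
    rw [h1]
    exact (norm_sub_le _ _).trans (add_le_add hsum hI1)
  have hmain : c * (‖coef G 1‖ * ‖∑ n ∈ Finset.Icc 2 M, b n‖) ≤
      J + B * W + c * (B * ∑ n ∈ Finset.Icc 2 M, MAIN_S n y) := by
    have h1 : c * (‖coef G 1‖ * ‖∑ n ∈ Finset.Icc 2 M, b n‖) =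
        ‖(c : ℂ) * (coef G 1 * ∑ n ∈ Finset.Icc 2 M, b n)‖ := by
      rw [norm_mul, norm_mul, Complex.norm_real, Real.norm_of_nonneg hc.le]
    rw [h1]
    have h2 := norm_le_norm_add_norm_sub (∑ n ∈ Finset.Icc 2 M, I n)
      ((c : ℂ) * (coef G 1 * ∑ n ∈ Finset.Icc 2 M, b n))
    rw [norm_sub_rev] at h2
    linarith
  have hmain2 : ‖coef G 1‖ * ‖∑ n ∈ Finset.Icc 2 M, b n‖ ≤
      1 / c * J + W / c * B + B * ∑ n ∈ Finset.Icc 2 M, MAIN_S n y := by
    rw [← mul_le_mul_iff_right₀ hc]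
    refine hmain.trans (le_of_eq ?_)
    field_simp
  have hE1 : 1 ≤ Real.exp (y / 2) * (1 + y) := by
    have h1 : 1 ≤ Real.exp (y / 2) := Real.one_le_exp (by linarith)
    nlinarith
  have hfull : ‖coef G 1‖ * ‖∑ n ∈ Finset.Icc 1 M, b n‖ ≤
      B + ‖coef G 1‖ * ‖∑ n ∈ Finset.Icc 2 M, b n‖ := by
    rw [hIcc, Finset.sum_insert hnot]
    have h1 : ‖b 1 + ∑ n ∈ Finset.Icc 2 M, b n‖ ≤ 1 + ‖∑ n ∈ Finset.Icc 2 M, b n‖ :=
      (norm_add_le _ _).trans (add_le_add_left (hbn 1) _)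
    have h2 := FOU_coef_le hG 1
    have h3 := norm_nonneg (coef G 1)
    nlinarith [mul_le_mul_of_nonneg_left h1 h3]
  have hBS : B * ∑ n ∈ Finset.Icc 2 M, MAIN_S n y ≤
      B * (|C₀| * Real.exp (y / 2) * (1 + y)) := mul_le_mul_of_nonneg_left hS hB
  set E : ℝ := Real.exp (y / 2) * (1 + y) with hEdef
  have hWc : 0 ≤ W / c := by positivity
  have hc1 : 0 ≤ 1 / c := by positivity
  have hfin : B + (1 / c * J + W / c * B + B * (|C₀| * E)) ≤
      (1 / c + W / c + 1 + |C₀|) * J + (1 / c + W / c + 1 + |C₀|) * B * E := by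
    have h1 : 0 ≤ (W / c + 1 + |C₀|) * J := by positivity
    have h2 : 0 ≤ 1 / c * B * E := by positivity
    have h3 : B ≤ B * E := by nlinarith
    have h4 : W / c * B ≤ W / c * (B * E) := mul_le_mul_of_nonneg_left h3 hWc
    nlinarith
  have hBS' : B * ∑ n ∈ Finset.Icc 2 M, MAIN_S n y ≤ B * (|C₀| * E) := by
    rw [hEdef, ← mul_assoc |C₀|]
    exact hBS
  have hgoal : (1 / c + W / c + 1 + |C₀|) * B * Real.exp (y / 2) * (1 + y) =
      (1 / c + W / c + 1 + |C₀|) * B * E := by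
    rw [hEdef]
    ring
  rw [hgoal]
  linarith

end Pool.Agent.Ben
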