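import Pool.Agent.Ben.Targets

/-!
# Block MANT: mantissas and fractional parts
-/

set_option autoImplicit false

namespace Pool.Agent.Ben

open Complex MeasureTheory Set

private theorem MANT_fract_lt {z β : ℝ} (h1 : β < 1) (h : Int.fract z < β) :
    Int.fract (z - β) = Int.fract z - β + 1 := by
  rw [Int.fract_eq_iff]
  refine ⟨by linarith [Int.fract_nonneg z], by linarith, ⌊z⌋ - 1, ?_⟩
  have := Int.floor_add_fract z
  push_cast
  linarith

private theorem MANT_fract_ge {z β : ℝ} (h0 : 0 < β) (h : β ≤ Int.fract z) :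
    Int.fract (z - β) = Int.fract z - β := by
  rw [Int.fract_eq_iff]
  refine ⟨by linarith, by linarith [Int.fract_lt_one z], ⌊z⌋, ?_⟩
  have := Int.floor_add_fract z
  linarith

private theorem MANT_ex {z β : ℝ} (h1 : β < 1) :
    (∃ m : ℤ, (m : ℝ) ≤ z ∧ z < m + β) ↔ Int.fract z < β := by
  constructor
  · rintro ⟨m, hm, hz⟩
    have hf : ⌊z⌋ = m := by
      rw [Int.floor_eq_iff]
      exact ⟨hm, by linarith⟩
    have := Int.floor_add_fract z
    rw [hf] at this
    linarith
  · intro h
    refine ⟨⌊z⌋, Int.floor_le z, ?_⟩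
    have := Int.floor_add_fract z
    linarith

private theorem MANT_mant {g a b y : ℝ} (hg : 1 < g) (ha : 0 < a) (hb : 0 < b) {X : ℝ}
    (hX : 0 < X) (hy : Real.logb g X = y) :
    Mant g a b X ↔ ∃ m : ℤ, (m : ℝ) ≤ y - Real.logb g a ∧
      y - Real.logb g a < m + (Real.logb g b - Real.logb g a) := by
  have hg0 : 0 < g := by linarith
  have key : ∀ c : ℝ, 0 < c → ∀ m : ℤ, Real.logb g (c * g ^ m) = Real.logb g c + m := by
    intro c hc m
    have hlg : Real.log g ≠ 0 := (Real.log_pos hg).ne'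
    rw [Real.logb_mul hc.ne' (zpow_pos hg0 m).ne']
    congr 1
    rw [Real.logb, Real.log_zpow]
    field_simp
  unfold Mant
  refine exists_congr fun m => ?_
  have h1 : a * g ^ m ≤ X ↔ Real.logb g a + m ≤ y := by
    rw [← key a ha m, ← hy]
    exact (Real.logb_le_logb hg (mul_pos ha (zpow_pos hg0 m)) hX).symm
  have h2 : X < b * g ^ m ↔ y < Real.logb g b + m := by
    rw [← key b hb m, ← hy]
    exact (Real.logb_lt_logb_iff hg hX (mul_pos hb (zpow_pos hg0 m))).symm
  rw [h1, h2]
  constructor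
  · rintro ⟨h, h'⟩
    exact ⟨by linarith, by linarith⟩
  · rintro ⟨h, h'⟩
    exact ⟨by linarith, by linarith⟩

open Classical in
private theorem MANT_term {g a b : ℝ} (hg : 1 < g) (ha : 0 < a) (hab : a < b) (hb : b < g * a)
    (x : ℝ) (n : ℕ) (hn : 1 ≤ n) :
    (if Mant g a b ((n : ℝ) ^ x) then (1 : ℝ) else 0) - Real.logb g (b / a) =
      psi (x / Real.log g * Real.log n - Real.logb g b) -
        psi (x / Real.log g * Real.log n - Real.logb g a) := by
  have hg0 : 0 < g := by linarith
  have hb0 : 0 < b := by linarith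
  have hn0 : (0 : ℝ) < n := by exact_mod_cast hn
  have hX : 0 < (n : ℝ) ^ x := Real.rpow_pos_of_pos hn0 x
  have hy : Real.logb g ((n : ℝ) ^ x) = x / Real.log g * Real.log n := by
    rw [Real.logb, Real.log_rpow hn0]
    ring
  have hβ : Real.logb g (b / a) = Real.logb g b - Real.logb g a :=
    Real.logb_div hb0.ne' ha.ne'
  have hβ0 : 0 < Real.logb g b - Real.logb g a := by
    have := Real.logb_lt_logb hg ha hab
    linarith
  have hβ1 : Real.logb g b - Real.logb g a < 1 := by
    have h := Real.logb_lt_logb hg hb0 hb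
    rw [Real.logb_mul hg0.ne' ha.ne', Real.logb_self_eq_one hg] at h
    linarith
  have hiff := (MANT_mant (a := a) (b := b) hg ha hb0 hX hy).trans (MANT_ex hβ1)
  set y := x / Real.log g * Real.log n with hyd
  have hz : y - Real.logb g b = (y - Real.logb g a) - (Real.logb g b - Real.logb g a) := by ring
  unfold psi
  rw [hz, hβ]
  by_cases h : Int.fract (y - Real.logb g a) < Real.logb g b - Real.logb g a
  · rw [if_pos (hiff.mpr h), MANT_fract_lt hβ1 h]
    ring
  · rw [if_neg (fun h' => h (hiff.mp h')), MANT_fract_ge hβ0 (not_lt.mp h)]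
    ring

theorem p_MANT : T_MANT := by
  classical
  intro g a b hg ha hab hb x _ N
  have hc : (count g a b x N : ℝ) =
      ∑ n ∈ Finset.Icc 1 N, (if Mant g a b ((n : ℝ) ^ x) then (1 : ℝ) else 0) := by
    have hset : {n : ℕ | 1 ≤ n ∧ n ≤ N ∧ Mant g a b ((n : ℝ) ^ x)} =
        (((Finset.Icc 1 N).filter (fun n : ℕ => Mant g a b ((n : ℝ) ^ x)) : Finset ℕ) :
          Set ℕ) := by
      ext n
      simp [and_assoc]
    rw [count, hset, Set.ncard_coe_finset, Finset.sum_boole]
  have hN : (N : ℝ) * Real.logb g (b / a) =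
      ∑ n ∈ Finset.Icc 1 N, Real.logb g (b / a) := by
    rw [Finset.sum_const, Nat.card_Icc, nsmul_eq_mul]
    simp
  rw [hc, hN, ← Finset.sum_sub_distrib]
  refine Finset.sum_congr rfl fun n hn => ?_
  exact MANT_term hg ha hab hb x n (Finset.mem_Icc.mp hn).1

end Pool.Agent.Ben
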