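import Pool.Agent.Ben.Targets8

set_option autoImplicit false

namespace Pool.Agent.Ben

open Complex MeasureTheory Set

private lemma MAVG_cont : Continuous fun t : ℝ => ‖riemannZeta (1 / 2 + t * I)‖ := by
  refine Continuous.norm (continuous_iff_continuousAt.mpr fun t => ?_)
  have h : (1 / 2 + t * I : ℂ) ≠ 1 := by
    intro h
    have := congrArg Complex.re h
    norm_num at this
  have h1 : ContinuousAt (fun t : ℝ => (1 / 2 + t * I : ℂ)) t := by fun_prop
  exact ContinuousAt.comp (f := fun t : ℝ => (1 / 2 + t * I : ℂ))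
    (differentiableAt_riemannZeta h).continuousAt h1

private lemma MAVG_even (t : ℝ) :
    ‖riemannZeta (1 / 2 + ((-t : ℝ) : ℂ) * I)‖ = ‖riemannZeta (1 / 2 + t * I)‖ := by
  have h : (1 / 2 + ((-t : ℝ) : ℂ) * I : ℂ) = (starRingEnd ℂ) (1 / 2 + t * I) := by
    have h2 : (starRingEnd ℂ) (1 / 2 : ℂ) = 1 / 2 := by
      rw [show (1 / 2 : ℂ) = ((1 / 2 : ℝ) : ℂ) by push_cast; ring, Complex.conj_ofReal]
    rw [map_add, map_mul, h2, Complex.conj_ofReal, Complex.conj_I]
    push_cast
    ring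
  rw [h, riemannZeta_conj, Complex.norm_conj]

/-- dyadic sum -/
private lemma MAVG_dyadic (g : ℝ → ℝ) (hg : Continuous g) (s A : ℝ)
    (hs : 1 ≤ s) (hA : 0 ≤ A) (hg0 : ∀ t, 0 ≤ g t)
    (h : ∀ T : ℝ, 1 ≤ T → ∫ t in T..(2 * T), g t ≤ A * T ^ s) (n : ℕ) :
    ∀ Y : ℝ, 1 ≤ Y → Y ≤ 2 ^ n → ∫ t in (1 : ℝ)..Y, g t ≤ A * Y ^ s := by
  induction n with
  | zero =>
    intro Y h1 h2
    have : Y = 1 := by
      rw [pow_zero] at h2
      linarith
    rw [this, intervalIntegral.integral_same]
    positivity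
  | succ n ih =>
    intro Y h1 h2
    rcases le_total Y 2 with hY | hY
    · have e1 : ∫ t in (1 : ℝ)..Y, g t ≤ ∫ t in (1 : ℝ)..(2 * 1), g t :=
        intervalIntegral.integral_mono_interval le_rfl h1 (by linarith)
          (Filter.Eventually.of_forall fun t => hg0 t) (hg.intervalIntegrable _ _)
      have e2 := h 1 le_rfl
      have e3 : (1 : ℝ) ^ s ≤ Y ^ s := Real.rpow_le_rpow (by norm_num) h1 (by linarith)
      calc _ ≤ _ := e1
        _ ≤ A * (1 : ℝ) ^ s := e2
        _ ≤ _ := by gcongr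
    · have h3 : 1 ≤ Y / 2 := by linarith
      have e1 := ih (Y / 2) h3 (by rw [pow_succ] at h2; linarith)
      have e2 := h (Y / 2) h3
      rw [show 2 * (Y / 2) = Y by ring] at e2
      have e3 : ∫ t in (1 : ℝ)..Y, g t =
          (∫ t in (1 : ℝ)..(Y / 2), g t) + ∫ t in (Y / 2)..Y, g t :=
        (intervalIntegral.integral_add_adjacent_intervals (hg.intervalIntegrable _ _)
          (hg.intervalIntegrable _ _)).symm
      have e4 : (Y / 2) ^ s ≤ Y ^ s / 2 := by
        rw [Real.div_rpow (by linarith) (by norm_num)]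
        have : (2 : ℝ) ≤ 2 ^ s := by
          calc (2 : ℝ) = 2 ^ (1 : ℝ) := (Real.rpow_one 2).symm
            _ ≤ 2 ^ s := Real.rpow_le_rpow_of_exponent_le (by norm_num) hs
        gcongr
      rw [e3]
      have e5 : A * (Y / 2) ^ s ≤ A * (Y ^ s / 2) := by gcongr
      linarith

theorem p_MAVG : M_AVG := by
  intro q a hq ha hZ ε hε
  obtain ⟨C₀, hC₀⟩ := hZ ε hε
  set f : ℝ → ℝ := fun t => ‖riemannZeta (1 / 2 + t * I)‖ with hf
  have hfc : Continuous f := MAVG_cont
  have hf0 : ∀ t, 0 ≤ f t := fun t => norm_nonneg _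
  set g : ℝ → ℝ := fun t => f t ^ q with hg
  have hgc : Continuous g := hfc.rpow_const fun t => Or.inr (by linarith)
  have hg0 : ∀ t, 0 ≤ g t := fun t => Real.rpow_nonneg (hf0 t) q
  have hge : ∀ t, g (-t) = g t := by
    intro t
    simp only [hg, hf]
    rw [MAVG_even]
  set s : ℝ := 1 + q * (a + ε) with hs
  have hs1 : 1 ≤ s := by
    rw [hs]
    have : 0 ≤ q * (a + ε) := by positivity
    linarith
  set A : ℝ := max C₀ 0 with hA
  have hA0 : 0 ≤ A := le_max_right _ _
  have hd : ∀ T : ℝ, 1 ≤ T → ∫ t in T..(2 * T), g t ≤ A * T ^ s := by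
    intro T hT
    refine (hC₀ T hT).trans ?_
    have : C₀ ≤ A := le_max_left _ _
    gcongr
  set K : ℝ := ∫ t in (0 : ℝ)..1, g t with hK
  have hK0 : 0 ≤ K := intervalIntegral.integral_nonneg (by norm_num) fun t _ => hg0 t
  have hmain : ∀ Y : ℝ, 1 ≤ Y → ∫ t in (-Y)..Y, g t ≤ 2 * (K + A) * Y ^ s := by
    intro Y hY
    obtain ⟨n, hn⟩ := pow_unbounded_of_one_lt Y (one_lt_two (α := ℝ))
    have e1 := MAVG_dyadic g hgc s A hs1 hA0 hg0 hd n Y hY hn.le
    have e2 : ∫ t in (-Y)..Y, g t = (∫ t in (-Y)..0, g t) + ∫ t in (0 : ℝ)..Y, g t :=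
      (intervalIntegral.integral_add_adjacent_intervals (hgc.intervalIntegrable _ _)
        (hgc.intervalIntegrable _ _)).symm
    have e3 : ∫ t in (-Y)..0, g t = ∫ t in (0 : ℝ)..Y, g t := by
      have := intervalIntegral.integral_comp_neg (a := 0) (b := Y) g
      rw [neg_zero] at this
      rw [← this]
      simp only [hge]
    have e4 : ∫ t in (0 : ℝ)..Y, g t = K + ∫ t in (1 : ℝ)..Y, g t :=
      (intervalIntegral.integral_add_adjacent_intervals (hgc.intervalIntegrable _ _)
        (hgc.intervalIntegrable _ _)).symm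
    have e5 : K ≤ K * Y ^ s := le_mul_of_one_le_right hK0 (Real.one_le_rpow hY (by linarith))
    rw [e2, e3, e4]
    calc _ ≤ 2 * (K * Y ^ s + A * Y ^ s) := by linarith
      _ = _ := by ring
  refine ⟨2 * (K + A) + 2, by positivity, fun Y hY => ⟨?_, ?_⟩⟩
  · refine (hmain Y hY).trans ?_
    have : 0 ≤ Y ^ s := by positivity
    nlinarith
  · have hY0 : 0 < Y := by linarith
    set l : ℝ := Y ^ (a + ε) with hl
    have hl0 : 0 < l := by positivity
    have hpt : ∀ t, f t ≤ l + l ^ (1 - q) * g t := by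
      intro t
      rcases le_total (f t) l with h | h
      · have : 0 ≤ l ^ (1 - q) * g t := mul_nonneg (by positivity) (hg0 t)
        linarith
      · have hft : 0 < f t := lt_of_lt_of_le hl0 h
        have e1 : f t = f t ^ (1 - q) * f t ^ q := by
          rw [← Real.rpow_add hft]
          simp
        have e2 : f t ^ (1 - q) ≤ l ^ (1 - q) :=
          Real.rpow_le_rpow_of_nonpos hl0 h (by linarith)
        calc f t = f t ^ (1 - q) * f t ^ q := e1
          _ ≤ l ^ (1 - q) * f t ^ q := by gcongr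
          _ ≤ l + l ^ (1 - q) * g t := by
            simp only [hg]
            linarith
    have e1 : ∫ t in (-Y)..Y, f t ≤ ∫ t in (-Y)..Y, (l + l ^ (1 - q) * g t) :=
      intervalIntegral.integral_mono_on (by linarith) (hfc.intervalIntegrable _ _)
        ((continuous_const.add (continuous_const.mul hgc)).intervalIntegrable _ _)
        fun t _ => hpt t
    have e2 : ∫ t in (-Y)..Y, (l + l ^ (1 - q) * g t) =
        2 * Y * l + l ^ (1 - q) * ∫ t in (-Y)..Y, g t := by
      have i1 : IntervalIntegrable (fun _ : ℝ => l) volume (-Y) Y :=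
        continuous_const.intervalIntegrable _ _
      have i2 : IntervalIntegrable (fun t : ℝ => l ^ (1 - q) * g t) volume (-Y) Y :=
        (continuous_const.mul hgc).intervalIntegrable _ _
      rw [intervalIntegral.integral_add i1 i2, intervalIntegral.integral_const,
        intervalIntegral.integral_const_mul, smul_eq_mul]
      ring
    have e3 := hmain Y hY
    have e4 : l ^ (1 - q) * Y ^ s = Y ^ (1 + (a + ε)) := by
      rw [hl, ← Real.rpow_mul hY0.le, ← Real.rpow_add hY0]
      congr 1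
      rw [hs]
      ring
    have e5 : Y * l = Y ^ (1 + (a + ε)) := by
      rw [hl, Real.rpow_add hY0 1 (a + ε), Real.rpow_one]
    have e6 : l ^ (1 - q) * (2 * (K + A) * Y ^ s) = 2 * (K + A) * Y ^ (1 + (a + ε)) := by
      rw [← e4]
      ring
    calc ∫ t in (-Y)..Y, f t ≤ _ := e1
      _ = _ := e2
      _ ≤ 2 * Y * l + l ^ (1 - q) * (2 * (K + A) * Y ^ s) := by gcongr
      _ = (2 * (K + A) + 2) * Y ^ (1 + (a + ε)) := by
        rw [e6, ← e5]
        ring

end Pool.Agent.Ben
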