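import Pool.Agent.Ben.Targets9

/-!
# Benford's law for one digit in the mean of order `q`, block MDGQ
-/

set_option autoImplicit false

namespace Pool.Agent.Ben

open Complex MeasureTheory Set

/-- the mantissa of `y` in base ten -/
private noncomputable def MDGQ_F (y : ℝ) : ℝ := (10 : ℝ) ^ Int.fract (Real.logb 10 y)

private theorem MDGQ_one_le (y : ℝ) : 1 ≤ MDGQ_F y :=
  Real.one_le_rpow (by norm_num) (Int.fract_nonneg _)

private theorem MDGQ_lt (y : ℝ) : MDGQ_F y < 10 := by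
  have h := Real.rpow_lt_rpow_of_exponent_lt (x := (10 : ℝ)) (by norm_num)
    (Int.fract_lt_one (Real.logb 10 y))
  rwa [Real.rpow_one] at h

private theorem MDGQ_eq {y : ℝ} (hy : 0 < y) :
    y = MDGQ_F y * (10 : ℝ) ^ ⌊Real.logb 10 y⌋ := by
  unfold MDGQ_F
  rw [← Real.rpow_intCast, ← Real.rpow_add (by norm_num), Int.fract_add_floor,
    Real.rpow_logb (by norm_num) (by norm_num) hy]

private theorem MDGQ_mant {y : ℝ} (hy : 0 < y) {j m : ℕ} (h1 : 10 ^ j ≤ m)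
    (h2 : m < 10 ^ (j + 1)) :
    Mant 10 ((m : ℝ) / 10 ^ j) (((m + 1 : ℕ) : ℝ) / 10 ^ j) y ↔ ⌊MDGQ_F y * 10 ^ j⌋₊ = m := by
  have hp : (0 : ℝ) < 10 ^ j := by positivity
  have hF1 := MDGQ_one_le y
  have hFy := MDGQ_eq hy
  have h1R : (10 : ℝ) ^ j ≤ m := by exact_mod_cast h1
  have h2R : ((m + 1 : ℕ) : ℝ) ≤ 10 ^ (j + 1) := by exact_mod_cast h2
  have hnn : 0 ≤ MDGQ_F y * 10 ^ j := by positivity
  have hma : 1 ≤ (m : ℝ) / 10 ^ j := by rw [le_div_iff₀ hp]; linarith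
  have hmb : ((m + 1 : ℕ) : ℝ) / 10 ^ j ≤ 10 := by
    rw [div_le_iff₀ hp]
    calc ((m + 1 : ℕ) : ℝ) ≤ 10 ^ (j + 1) := h2R
      _ = 10 * 10 ^ j := by ring
  rw [Nat.floor_eq_iff hnn]
  have key : ((m : ℝ) ≤ MDGQ_F y * 10 ^ j ∧ MDGQ_F y * 10 ^ j < (m : ℝ) + 1) ↔
      ((m : ℝ) / 10 ^ j ≤ MDGQ_F y ∧ MDGQ_F y < ((m + 1 : ℕ) : ℝ) / 10 ^ j) := by
    rw [div_le_iff₀ hp, lt_div_iff₀ hp]
    push_cast
    exact Iff.rfl
  rw [key]
  constructor
  · rintro ⟨k, hk1, hk2⟩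
    have hkp : (0 : ℝ) < 10 ^ k := zpow_pos (by norm_num) k
    have hlo : (10 : ℝ) ^ k ≤ y := by
      refine le_trans ?_ hk1
      calc (10 : ℝ) ^ k = 1 * 10 ^ k := (one_mul _).symm
        _ ≤ _ := mul_le_mul_of_nonneg_right hma hkp.le
    have hhi : y < (10 : ℝ) ^ (k + 1) := by
      refine lt_of_lt_of_le hk2 ?_
      calc ((m + 1 : ℕ) : ℝ) / 10 ^ j * 10 ^ k ≤ 10 * 10 ^ k :=
            mul_le_mul_of_nonneg_right hmb hkp.le
        _ = 10 ^ (k + 1) := by rw [zpow_add₀ (by norm_num), zpow_one]; ring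
    have hfl : ⌊Real.logb 10 y⌋ = k := by
      rw [Int.floor_eq_iff]
      constructor
      · rw [Real.le_logb_iff_rpow_le (by norm_num) hy, Real.rpow_intCast]
        exact hlo
      · rw [Real.logb_lt_iff_lt_rpow (by norm_num) hy]
        have : ((k : ℝ) + 1) = ((k + 1 : ℤ) : ℝ) := by push_cast; ring
        rw [this, Real.rpow_intCast]
        exact hhi
    rw [hfl] at hFy
    rw [hFy] at hk1 hk2
    exact ⟨le_of_mul_le_mul_right hk1 hkp, lt_of_mul_lt_mul_right hk2 hkp.le⟩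
  · rintro ⟨ha, hb⟩
    have hkp : (0 : ℝ) < 10 ^ ⌊Real.logb 10 y⌋ := zpow_pos (by norm_num) _
    refine ⟨⌊Real.logb 10 y⌋, ?_, ?_⟩
    · calc (m : ℝ) / 10 ^ j * 10 ^ ⌊Real.logb 10 y⌋
          ≤ MDGQ_F y * 10 ^ ⌊Real.logb 10 y⌋ := mul_le_mul_of_nonneg_right ha hkp.le
        _ = y := hFy.symm
    · calc y = MDGQ_F y * 10 ^ ⌊Real.logb 10 y⌋ := hFy
        _ < _ := mul_lt_mul_of_pos_right hb hkp

private theorem MDGQ_range (y : ℝ) (j : ℕ) :
    10 ^ j ≤ ⌊MDGQ_F y * 10 ^ j⌋₊ ∧ ⌊MDGQ_F y * 10 ^ j⌋₊ < 10 ^ (j + 1) := by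
  have hp : (0 : ℝ) < 10 ^ j := by positivity
  have hF1 := MDGQ_one_le y
  have hF2 := MDGQ_lt y
  constructor
  · apply Nat.le_floor
    push_cast
    calc (10 : ℝ) ^ j = 1 * 10 ^ j := (one_mul _).symm
      _ ≤ _ := mul_le_mul_of_nonneg_right hF1 hp.le
  · rw [Nat.floor_lt (by positivity)]
    push_cast
    calc MDGQ_F y * 10 ^ j < 10 * 10 ^ j := mul_lt_mul_of_pos_right hF2 hp
      _ = 10 ^ (j + 1) := by ring

private theorem MDGQ_ncard (P : ℕ → Prop) [DecidablePred P] (N : ℕ) :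
    {n : ℕ | 1 ≤ n ∧ n ≤ N ∧ P n}.ncard = ((Finset.Icc 1 N).filter P).card := by
  rw [← Set.ncard_coe_finset]
  congr 1
  ext n
  simp [and_assoc]

open Classical in
private theorem MDGQ_sum (j d : ℕ) (x : ℝ) (N : ℕ) :
    dcount j d x N = ∑ m ∈ Finset.Ico (10 ^ j) (10 ^ (j + 1)) with m % 10 = d,
      count 10 ((m : ℝ) / 10 ^ j) (((m + 1 : ℕ) : ℝ) / 10 ^ j) x N := by
  unfold dcount count
  rw [MDGQ_ncard (fun n => digit j ((n : ℝ) ^ x) = d)]
  rw [Finset.card_eq_sum_card_fiberwise (f := fun n : ℕ => ⌊MDGQ_F ((n : ℝ) ^ x) * 10 ^ j⌋₊)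
    (t := (Finset.Ico (10 ^ j) (10 ^ (j + 1))).filter fun m => m % 10 = d)]
  · refine Finset.sum_congr rfl fun m hm => ?_
    rw [MDGQ_ncard (fun n => Mant 10 ((m : ℝ) / 10 ^ j) (((m + 1 : ℕ) : ℝ) / 10 ^ j)
      ((n : ℝ) ^ x))]
    rw [Finset.mem_filter, Finset.mem_Ico] at hm
    congr 1
    ext n
    simp only [Finset.mem_filter, Finset.mem_Icc]
    constructor
    · rintro ⟨⟨hn, hd⟩, hf⟩
      refine ⟨hn, ?_⟩
      have hy : (0 : ℝ) < (n : ℝ) ^ x := Real.rpow_pos_of_pos (by exact_mod_cast hn.1) x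
      exact (MDGQ_mant hy hm.1.1 hm.1.2).mpr hf
    · rintro ⟨hn, hf⟩
      have hy : (0 : ℝ) < (n : ℝ) ^ x := Real.rpow_pos_of_pos (by exact_mod_cast hn.1) x
      have h := (MDGQ_mant hy hm.1.1 hm.1.2).mp hf
      refine ⟨⟨hn, ?_⟩, h⟩
      show ⌊MDGQ_F ((n : ℝ) ^ x) * 10 ^ j⌋₊ % 10 = d
      rw [h]
      exact hm.2
  · intro n hn
    have hn' := (Finset.mem_filter.mp (Finset.mem_coe.mp hn)).2
    refine Finset.mem_coe.mpr (Finset.mem_filter.mpr ⟨Finset.mem_Ico.mpr (MDGQ_range _ j), ?_⟩)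
    exact hn'

private theorem MDGQ_point (hM : T_MANT) (j d : ℕ) {x e : ℝ} (hx : 0 < x) (N : ℕ)
    (hE : ∀ c : ℝ, |∑ n ∈ Finset.Icc 1 N, psi (x / Real.log 10 * Real.log n + c)| ≤ e) :
    |(dcount j d x N : ℝ) - N * benf j d| ≤
      (((Finset.Ico (10 ^ j) (10 ^ (j + 1))).filter fun m => m % 10 = d).card : ℝ) * (2 * e) := by
  set T := (Finset.Ico (10 ^ j) (10 ^ (j + 1))).filter fun m => m % 10 = d with hT
  rw [MDGQ_sum, benf]
  push_cast
  rw [Finset.mul_sum, ← Finset.sum_sub_distrib]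
  refine (Finset.abs_sum_le_sum_abs _ _).trans ?_
  have hterm : ∀ m ∈ T, |(count 10 ((m : ℝ) / 10 ^ j) (((m : ℝ) + 1) / 10 ^ j) x N : ℝ) -
      N * Real.logb 10 (1 + 1 / m)| ≤ 2 * e := by
    intro m hm
    rw [hT, Finset.mem_filter, Finset.mem_Ico] at hm
    have hp : (0 : ℝ) < 10 ^ j := by positivity
    have hm1 : (1 : ℝ) ≤ m := by
      have : 1 ≤ m := le_trans (Nat.one_le_pow _ _ (by norm_num)) hm.1.1
      exact_mod_cast this
    have hm0 : (0 : ℝ) < m := by linarith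
    have h := hM 10 ((m : ℝ) / 10 ^ j) (((m : ℝ) + 1) / 10 ^ j) (by norm_num) (by positivity)
      (by gcongr; linarith) (by
        rw [← mul_div_assoc]
        gcongr
        linarith) x hx N
    have hr : (((m : ℝ) + 1) / 10 ^ j) / ((m : ℝ) / 10 ^ j) = 1 + 1 / m := by
      field_simp
    rw [hr] at h
    rw [h, Finset.sum_sub_distrib]
    have h1 := hE (-Real.logb 10 (((m : ℝ) + 1) / 10 ^ j))
    have h2 := hE (-Real.logb 10 ((m : ℝ) / 10 ^ j))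
    simp only [← sub_eq_add_neg] at h1 h2
    refine (abs_sub _ _).trans ?_
    linarith
  refine (Finset.sum_le_sum hterm).trans (le_of_eq ?_)
  rw [Finset.sum_const, nsmul_eq_mul]

theorem p_MDGQ (hM : T_MANT) : M_DGQ := by
  intro q hq hD j d ε hε
  obtain ⟨C, hC⟩ := hD 10 (by norm_num) ε hε
  set K : ℝ := (((Finset.Ico (10 ^ j) (10 ^ (j + 1))).filter fun m => m % 10 = d).card : ℝ) * 2
    with hK
  have hK0 : 0 ≤ K := by positivity
  refine ⟨K ^ q * C, fun X hX N hN hNX => ?_⟩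
  obtain ⟨E, hEc, hE, hI⟩ := hC X hX N hN hNX
  have hE0 : ∀ x, 0 ≤ E x := fun x => (abs_nonneg _).trans (hE x 0)
  have hq0 : 0 ≤ q := by linarith
  have hle : X ≤ 2 * X := by linarith
  have hcont : Continuous fun x => K ^ q * E x ^ q :=
    continuous_const.mul (hEc.rpow_const fun x => Or.inr hq0)
  have h1 : ∫ x in X..(2 * X), |(dcount j d x N : ℝ) - N * benf j d| ^ q ≤
      ∫ x in X..(2 * X), K ^ q * E x ^ q := by
    rw [intervalIntegral.integral_of_le hle, intervalIntegral.integral_of_le hle]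
    refine integral_mono_of_nonneg ?_ ?_ ?_
    · exact Filter.Eventually.of_forall fun x => Real.rpow_nonneg (abs_nonneg _) _
    · exact (hcont.intervalIntegrable X (2 * X)).1
    · refine ae_restrict_of_forall_mem measurableSet_Ioc fun x hx => ?_
      have hx0 : 0 < x := by linarith [hx.1]
      have h2 := MDGQ_point hM j d hx0 N (hE x)
      simp only
      rw [← Real.mul_rpow hK0 (hE0 x)]
      refine Real.rpow_le_rpow (abs_nonneg _) (h2.trans (le_of_eq ?_)) hq0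
      rw [hK]
      ring
  refine h1.trans ?_
  rw [intervalIntegral.integral_const_mul]
  calc K ^ q * ∫ x in X..(2 * X), E x ^ q
      ≤ K ^ q * (C * √(N : ℝ) ^ q * X ^ (1 + q * ε)) :=
        mul_le_mul_of_nonneg_left hI (Real.rpow_nonneg hK0 q)
    _ = K ^ q * C * √(N : ℝ) ^ q * X ^ (1 + q * ε) := by ring

end Pool.Agent.Ben
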