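import Pool.Agent.Ben.Targets8
import Pool.Agent.Ben.P_VDIGB

/-!
# Block MDIGB: one digit, one-sided, in the mean of order `q`
-/

set_option autoImplicit false

namespace Pool.Agent.Ben

open Complex MeasureTheory Set

lemma MDIGB_sqrt (N : ℕ) (q : ℝ) : √(N : ℝ) ^ q = (N : ℝ) ^ (1 / 2 * q) := by
  rw [Real.sqrt_eq_rpow, ← Real.rpow_mul (Nat.cast_nonneg N)]

theorem p_MDIGB : M_DIGB := by
  intro j d β q a hd hjd h
  rcases h with h | h
  · refine ⟨VDIGB_f j d, VDIGB_meas j d, VDIGB_per j d, VDIGB_bdd j d, ?_, ?_⟩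
    · rintro ⟨c, hc⟩
      exact VDIGB_nonconst hd hjd c hc
    · intro ε hε
      obtain ⟨C, hC⟩ := h ε hε
      refine ⟨C, fun X h1 N hN hX => ?_⟩
      have e : (fun x : ℝ => (max (∑ n ∈ Finset.Icc 1 N, VDIGB_f j d (Real.logb 10 ((n : ℝ) ^ x)) -
          N * ∫ u in (0 : ℝ)..1, VDIGB_f j d u) 0) ^ q) =
          fun x : ℝ => (max ((dcount j d x N : ℝ) - N * benf j d) 0) ^ q := by
        funext x
        rw [VDIGB_count, VDIGB_integral]
      rw [e, ← MDIGB_sqrt]
      exact hC X h1 N hN hX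
  · refine ⟨fun y => - VDIGB_f j d y, (VDIGB_meas j d).neg, ?_, ?_, ?_, ?_⟩
    · intro y
      show - VDIGB_f j d (y + 1) = - VDIGB_f j d y
      rw [VDIGB_per j d y]
    · intro y
      rw [abs_neg]
      exact VDIGB_bdd j d y
    · rintro ⟨c, hc⟩
      refine VDIGB_nonconst hd hjd (-c) ?_
      filter_upwards [hc] with y hy
      rw [← hy, neg_neg]
    · intro ε hε
      obtain ⟨C, hC⟩ := h ε hε
      refine ⟨C, fun X h1 N hN hX => ?_⟩
      have e : (fun x : ℝ => (max (∑ n ∈ Finset.Icc 1 N,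
          (fun y => - VDIGB_f j d y) (Real.logb 10 ((n : ℝ) ^ x)) -
          N * ∫ u in (0 : ℝ)..1, (fun y => - VDIGB_f j d y) u) 0) ^ q) =
          fun x : ℝ => (max (N * benf j d - (dcount j d x N : ℝ)) 0) ^ q := by
        funext x
        simp only
        rw [Finset.sum_neg_distrib, VDIGB_count, intervalIntegral.integral_neg, VDIGB_integral]
        congr 2
        ring
      rw [e, ← MDIGB_sqrt]
      exact hC X h1 N hN hX

end Pool.Agent.Ben
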