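import Pool.Agent.Ben.Targets

/-!
# The Mellin transform of the cutoff
-/

set_option autoImplicit false

namespace Pool.Agent.Ben

open Complex MeasureTheory Set

/-- the function `a - x` cut off at `a` -/
private noncomputable def MEL_g (a : ℝ) : ℝ → ℂ := indicator (Ioc 0 a) (fun x => (a : ℂ) - x)

private theorem MEL_cut (a : ℝ) (ha : 0 < a) (s : ℂ) (hs : 0 < s.re) :
    MellinConvergent (MEL_g a) s ∧ mellin (MEL_g a) s = (a : ℂ) ^ (s + 1) / (s * (s + 1)) := by
  have h1 : IntervalIntegrable (fun x : ℝ => (x : ℂ) ^ (s - 1)) volume 0 a :=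
    intervalIntegral.intervalIntegrable_cpow' (by simpa using hs)
  have h2 : IntervalIntegrable (fun x : ℝ => (x : ℂ) ^ s) volume 0 a :=
    intervalIntegral.intervalIntegrable_cpow' (by linarith)
  have h3 : IntervalIntegrable (fun x : ℝ => (a : ℂ) * (x : ℂ) ^ (s - 1) - (x : ℂ) ^ s)
      volume 0 a := (h1.const_mul _).sub h2
  have key : ∀ x ∈ Ioi (0 : ℝ), (x : ℂ) ^ (s - 1) • MEL_g a x =
      indicator (Ioc 0 a) (fun x : ℝ => (a : ℂ) * (x : ℂ) ^ (s - 1) - (x : ℂ) ^ s) x := by
    intro x hx
    have hx0 : (x : ℂ) ≠ 0 := by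
      exact_mod_cast (ne_of_gt hx)
    unfold MEL_g
    by_cases hxa : x ∈ Ioc 0 a
    · rw [indicator_of_mem hxa, indicator_of_mem hxa, smul_eq_mul]
      have h4 : (x : ℂ) ^ s = (x : ℂ) ^ (s - 1) * x := by
        have h5 := cpow_add (s - 1) 1 hx0
        rw [sub_add_cancel, cpow_one] at h5
        exact h5
      rw [h4]
      ring
    · rw [indicator_of_notMem hxa, indicator_of_notMem hxa, smul_zero]
  have h5 : IntegrableOn (fun x : ℝ => (a : ℂ) * (x : ℂ) ^ (s - 1) - (x : ℂ) ^ s) (Ioc 0 a) :=
    (intervalIntegrable_iff_integrableOn_Ioc_of_le ha.le).1 h3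
  have hs0 : s ≠ 0 := by
    rintro rfl
    simp at hs
  have hs1 : s + 1 ≠ 0 := by
    intro h
    have := congrArg Complex.re h
    simp at this
    linarith
  constructor
  · unfold MellinConvergent
    rw [integrableOn_congr_fun key measurableSet_Ioi]
    refine IntegrableOn.integrable_indicator ?_ measurableSet_Ioc |>.integrableOn
    exact h5
  · unfold mellin
    rw [setIntegral_congr_fun measurableSet_Ioi key, setIntegral_indicator measurableSet_Ioc,
      inter_eq_right.2 (show Ioc 0 a ⊆ Ioi 0 from fun x hx => hx.1),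
      ← intervalIntegral.integral_of_le ha.le,
      intervalIntegral.integral_sub (h1.const_mul _) h2, intervalIntegral.integral_const_mul,
      integral_cpow (Or.inl (by simpa using hs)), integral_cpow (Or.inl (by linarith))]
    have ha0 : (a : ℂ) ≠ 0 := by exact_mod_cast ha.ne'
    rw [sub_add_cancel, ofReal_zero, zero_cpow hs0, zero_cpow hs1, cpow_add _ _ ha0, cpow_one]
    field_simp
    ring

/-- T_MEL. -/
theorem p_MEL : T_MEL := by
  intro N hN s hs
  have hN0 : (0 : ℝ) < N := by exact_mod_cast hN
  have h1 := MEL_cut (N + 1 : ℝ) (by linarith) s hs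
  have h2 := MEL_cut (N : ℝ) hN0 s hs
  have h3 := hasMellin_sub h1.1 h2.1
  have key : ∀ x ∈ Ioi (0 : ℝ), (rho N x : ℂ) = MEL_g (N + 1 : ℝ) x - MEL_g (N : ℝ) x := by
    intro x hx
    have hx' : (0 : ℝ) < x := hx
    unfold MEL_g rho
    rcases le_or_gt x N with h | h
    · rw [indicator_of_mem (by exact ⟨hx', by linarith⟩), indicator_of_mem (by exact ⟨hx', h⟩),
        min_eq_left (by linarith), max_eq_right (by norm_num)]
      push_cast
      ring
    · rw [indicator_of_notMem (s := Ioc 0 (N : ℝ)) (fun h' => absurd h'.2 (not_le.2 h)), sub_zero]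
      rcases le_or_gt x (N + 1) with h' | h'
      · rw [indicator_of_mem (by exact ⟨hx', h'⟩), min_eq_right (by linarith),
          max_eq_right (by linarith)]
        push_cast
        ring
      · rw [indicator_of_notMem (fun h'' => absurd h''.2 (not_le.2 h')),
          max_eq_left ((min_le_right _ _).trans (by linarith))]
        simp
  constructor
  · have h4 := h3.1
    unfold MellinConvergent at h4 ⊢
    refine (integrableOn_congr_fun ?_ measurableSet_Ioi).1 h4
    intro x hx
    dsimp only
    rw [key x hx]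
  · have h4 := h3.2
    rw [h1.2, h2.2] at h4
    unfold RR
    rw [sub_div]
    have h5 : mellin (fun x => (rho N x : ℂ)) s =
        mellin (fun x => MEL_g (N + 1 : ℝ) x - MEL_g (N : ℝ) x) s := by
      unfold mellin
      refine setIntegral_congr_fun measurableSet_Ioi ?_
      intro x hx
      dsimp only
      rw [key x hx]
    rw [h5, h4]

end Pool.Agent.Ben
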