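import Pool.Agent.Ben.Targets8

/-!
# Block MEXPS: means of zeta bound the means of the sums `∑ n^(-it)`
-/

set_option autoImplicit false

namespace Pool.Agent.Ben

open Complex MeasureTheory Set

private lemma MEXPS_low (v : ℝ) : (1 + |v|) / 3 ≤ ‖((1 / 2 : ℝ) + v * I : ℂ)‖ := by
  have h1 : |v| ≤ ‖((1 / 2 : ℝ) + v * I : ℂ)‖ := by
    have := Complex.abs_im_le_norm ((1 / 2 : ℝ) + v * I : ℂ)
    simpa using this
  have h2 : (1 / 2 : ℝ) ≤ ‖((1 / 2 : ℝ) + v * I : ℂ)‖ := by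
    have := Complex.abs_re_le_norm ((1 / 2 : ℝ) + v * I : ℂ)
    have h3 : ((1 / 2 : ℝ) + v * I : ℂ).re = 1 / 2 := by simp
    rw [h3, abs_of_pos (by norm_num)] at this
    exact this
  have h0 := abs_nonneg v
  linarith

private lemma MEXPS_low' (v : ℝ) : (1 + |v|) / 3 ≤ ‖((1 / 2 : ℝ) + v * I : ℂ) + 1‖ := by
  have h1 : |v| ≤ ‖((1 / 2 : ℝ) + v * I : ℂ) + 1‖ := by
    have := Complex.abs_im_le_norm (((1 / 2 : ℝ) + v * I : ℂ) + 1)
    simpa using this
  have h2 : (1 / 2 : ℝ) ≤ ‖((1 / 2 : ℝ) + v * I : ℂ) + 1‖ := by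
    have := Complex.abs_re_le_norm (((1 / 2 : ℝ) + v * I : ℂ) + 1)
    have h3 : (((1 / 2 : ℝ) + v * I : ℂ) + 1).re = 1 / 2 + 1 := by simp
    rw [h3, abs_of_pos (by norm_num)] at this
    linarith
  have h0 := abs_nonneg v
  linarith

/-- the bound for `RR N` on the critical line -/
private lemma MEXPS_RR0 (hR : T_RB) {N : ℕ} (hN : 1 ≤ N) (v : ℝ) {θ : ℝ} (h0 : 0 < θ)
    (h1 : θ ≤ 1) :
    ‖RR N ((1 / 2 : ℝ) + v * I)‖ ≤
      3 * (N + 1 : ℝ) ^ (1 / 2 : ℝ) * (6 * (N + 1 : ℝ)) ^ θ * (1 + |v|) ^ (-(1 + θ)) := by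
  have hre : ((1 / 2 : ℝ) + v * I : ℂ).re = 1 / 2 := by simp
  obtain ⟨hb1, hb2⟩ := hR N hN ((1 / 2 : ℝ) + v * I) (by rw [hre]; norm_num)
  rw [hre] at hb1 hb2
  set X := ‖RR N ((1 / 2 : ℝ) + v * I)‖ with hX
  have hs := MEXPS_low v
  have hs' := MEXPS_low' v
  set a := ‖((1 / 2 : ℝ) + v * I : ℂ)‖ with ha
  set b := ‖((1 / 2 : ℝ) + v * I : ℂ) + 1‖ with hb
  have hv : 0 < 1 + |v| := by have := abs_nonneg v; linarith
  have hapos : 0 < a := lt_of_lt_of_le (by positivity) hs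
  have hbpos : 0 < b := lt_of_lt_of_le (by positivity) hs'
  have hNp : (0 : ℝ) < N + 1 := by positivity
  set p := (N + 1 : ℝ) ^ (1 / 2 : ℝ) with hp
  have hpp : 0 < p := Real.rpow_pos_of_pos hNp _
  set c := 2 * (N + 1 : ℝ) / b with hc
  have hcp : 0 < c := by positivity
  have e1 : 2 * (N + 1 : ℝ) ^ (1 / 2 + 1 : ℝ) / (a * b) = p / a * c := by
    rw [Real.rpow_add hNp, Real.rpow_one, hc, hp]
    field_simp
  rw [e1] at hb1
  have h2 : X ≤ p / a * c ^ θ := by
    have hpa : 0 ≤ p / a := by positivity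
    rcases le_total c 1 with h | h
    · refine hb1.trans (mul_le_mul_of_nonneg_left ?_ hpa)
      have := Real.rpow_le_rpow_of_exponent_ge hcp h h1
      rwa [Real.rpow_one] at this
    · refine hb2.trans ?_
      have := Real.one_le_rpow h h0.le
      calc p / a = p / a * 1 := (mul_one _).symm
        _ ≤ p / a * c ^ θ := mul_le_mul_of_nonneg_left this hpa
  refine h2.trans ?_
  have h3 : p / a ≤ 3 * p * (1 + |v|)⁻¹ := by
    rw [div_le_iff₀ hapos]
    have h4 : (1 : ℝ) ≤ 3 * (1 + |v|)⁻¹ * a := by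
      rw [mul_comm (3 : ℝ), mul_assoc, ← div_eq_inv_mul, le_div_iff₀ hv]
      linarith
    nlinarith
  have h5 : c ^ θ ≤ (6 * (N + 1 : ℝ)) ^ θ * (1 + |v|) ^ (-θ) := by
    rw [Real.rpow_neg hv.le, ← div_eq_mul_inv, ← Real.div_rpow (by positivity) hv.le]
    refine Real.rpow_le_rpow hcp.le ?_ h0.le
    rw [hc, div_le_div_iff₀ hbpos hv]
    nlinarith
  have h6 : 0 ≤ c ^ θ := Real.rpow_nonneg hcp.le _
  calc p / a * c ^ θ ≤ (3 * p * (1 + |v|)⁻¹) * ((6 * (N + 1 : ℝ)) ^ θ * (1 + |v|) ^ (-θ)) :=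
        mul_le_mul h3 h5 h6 (by positivity)
    _ = 3 * p * (6 * (N + 1 : ℝ)) ^ θ * ((1 + |v|) ^ (-1 : ℝ) * (1 + |v|) ^ (-θ)) := by
        rw [Real.rpow_neg_one]
        ring
    _ = 3 * p * (6 * (N + 1 : ℝ)) ^ θ * (1 + |v|) ^ (-(1 + θ)) := by
        rw [← Real.rpow_add hv]
        congr 2
        ring

private lemma MEXPS_RR (hR : T_RB) {N : ℕ} (hN : 1 ≤ N) {K T : ℝ} (hT : 1 ≤ T)
    (hK : 0 < K) (hNK : (N : ℝ) ≤ K * T) (v : ℝ) {θ : ℝ} (h0 : 0 < θ) (h1 : θ ≤ 1) :
    ‖RR N ((1 / 2 : ℝ) + v * I)‖ ≤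
      √(N : ℝ) * (6 * (12 * K) ^ θ * T ^ θ) * (1 + ‖v‖) ^ (-(1 + θ)) := by
  have hT0 : 0 < T := by linarith
  have hNr : (1 : ℝ) ≤ N := by exact_mod_cast hN
  have h2 := MEXPS_RR0 hR hN v h0 h1
  have h3 : (N + 1 : ℝ) ^ (1 / 2 : ℝ) ≤ 2 * √(N : ℝ) := by
    rw [← Real.sqrt_eq_rpow]
    calc √(N + 1 : ℝ) ≤ √(4 * N : ℝ) := Real.sqrt_le_sqrt (by linarith)
      _ = 2 * √(N : ℝ) := by
          rw [Real.sqrt_mul (by norm_num)]
          congr 1
          rw [show (4 : ℝ) = 2 ^ 2 by norm_num]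
          exact Real.sqrt_sq (by norm_num)
  have h4 : (6 * (N + 1 : ℝ)) ^ θ ≤ (12 * K) ^ θ * T ^ θ := by
    rw [← Real.mul_rpow (by positivity) hT0.le]
    exact Real.rpow_le_rpow (by positivity) (by linarith) h0.le
  have h5 : 0 ≤ (1 + |v|) ^ (-(1 + θ)) := by positivity
  calc ‖RR N ((1 / 2 : ℝ) + v * I)‖
      ≤ 3 * (N + 1 : ℝ) ^ (1 / 2 : ℝ) * (6 * (N + 1 : ℝ)) ^ θ * (1 + |v|) ^ (-(1 + θ)) := h2
    _ ≤ 3 * (2 * √(N : ℝ)) * ((12 * K) ^ θ * T ^ θ) * (1 + |v|) ^ (-(1 + θ)) := by gcongr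
    _ = _ := by
        rw [Real.norm_eq_abs]
        ring

/-- Jensen -/
private lemma MEXPS_jensen {α : Type*} [MeasurableSpace α] {μ : Measure α} {k y : α → ℝ} {q : ℝ}
    (hq : 1 ≤ q) (hk : ∀ x, 0 ≤ k x) (hy : ∀ x, 0 ≤ y x) (hki : Integrable k μ)
    (h1 : Integrable (fun x => k x * y x) μ) (h2 : Integrable (fun x => k x * y x ^ q) μ) :
    (∫ x, k x * y x ∂μ) ^ q ≤ (∫ x, k x ∂μ) ^ (q - 1) * ∫ x, k x * y x ^ q ∂μ := by
  set J := ∫ x, k x ∂μ with hJ
  set A := ∫ x, k x * y x ∂μ with hA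
  have hJ0 : 0 ≤ J := integral_nonneg hk
  have hA0 : 0 ≤ A := integral_nonneg fun x => mul_nonneg (hk x) (hy x)
  have hB0 : 0 ≤ ∫ x, k x * y x ^ q ∂μ :=
    integral_nonneg fun x => mul_nonneg (hk x) (Real.rpow_nonneg (hy x) q)
  have hR0 : 0 ≤ J ^ (q - 1) * ∫ x, k x * y x ^ q ∂μ :=
    mul_nonneg (Real.rpow_nonneg hJ0 _) hB0
  rcases hA0.eq_or_lt with hA1 | hA1
  · rw [← hA1, Real.zero_rpow (by linarith)]
    exact hR0
  have hJ1 : 0 < J := by
    rcases hJ0.eq_or_lt with h | h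
    · exfalso
      have h3 : k =ᵐ[μ] 0 := (integral_eq_zero_iff_of_nonneg hk hki).mp h.symm
      have h4 : A = 0 := by
        rw [hA]
        have h5 : (fun x => k x * y x) =ᵐ[μ] 0 := by
          filter_upwards [h3] with x hx
          simp [hx]
        rw [integral_congr_ae h5]
        simp
      linarith
    · exact h
  set m := A / J with hm
  have hm0 : 0 < m := div_pos hA1 hJ1
  have h5 : m ^ q = m ^ (q - 1) * m := by
    rw [← Real.rpow_add_one hm0.ne']
    congr 1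
    ring
  have hpt : ∀ x, m ^ q * k x + (q * m ^ (q - 1)) * (k x * y x - m * k x) ≤ k x * y x ^ q := by
    intro x
    have h3 := one_add_mul_self_le_rpow_one_add (s := y x / m - 1)
      (by have : 0 ≤ y x / m := div_nonneg (hy x) hm0.le
          linarith) hq
    have h4 : (1 + (y x / m - 1)) ^ q = y x ^ q / m ^ q := by
      rw [show 1 + (y x / m - 1) = y x / m by ring, Real.div_rpow (hy x) hm0.le]
    rw [h4, le_div_iff₀ (Real.rpow_pos_of_pos hm0 q)] at h3
    have h6 : (1 + q * (y x / m - 1)) * m ^ q = m ^ q + q * m ^ (q - 1) * (y x - m) := by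
      rw [h5]
      field_simp
    rw [h6] at h3
    calc m ^ q * k x + (q * m ^ (q - 1)) * (k x * y x - m * k x)
        = k x * (m ^ q + q * m ^ (q - 1) * (y x - m)) := by ring
      _ ≤ k x * y x ^ q := mul_le_mul_of_nonneg_left h3 (hk x)
  have h7 : Integrable (fun x => m ^ q * k x) μ := hki.const_mul _
  have h8 : Integrable (fun x => (q * m ^ (q - 1)) * (k x * y x - m * k x)) μ :=
    (h1.sub (hki.const_mul m)).const_mul _
  have h9 := integral_mono (h7.add h8) h2 hpt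
  have h10 : ∫ x, (m ^ q * k x + (q * m ^ (q - 1)) * (k x * y x - m * k x)) ∂μ =
      m ^ q * J := by
    rw [integral_add h7 h8, integral_const_mul, integral_const_mul,
      integral_sub h1 (hki.const_mul m), integral_const_mul, ← hJ, ← hA]
    have : m * J = A := by
      rw [hm]
      field_simp
    rw [this]
    ring
  have h11 : m ^ q * J ≤ ∫ x, k x * y x ^ q ∂μ := by
    rw [← h10]
    exact h9
  have h12 : A ^ q = J ^ (q - 1) * (m ^ q * J) := by
    have e1 : A = J * m := by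
      rw [hm]
      field_simp
    have e2 : J ^ q = J ^ (q - 1) * J := by
      rw [← Real.rpow_add_one hJ1.ne']
      congr 1
      ring
    rw [e1, Real.mul_rpow hJ0 hm0.le, e2]
    ring
  rw [h12]
  exact mul_le_mul_of_nonneg_left h11 (Real.rpow_nonneg hJ0 _)

private lemma MEXPS_two {x y q : ℝ} (hx : 0 ≤ x) (hy : 0 ≤ y) (hq : 0 ≤ q) :
    (x + y) ^ q ≤ 2 ^ q * (x ^ q + y ^ q) := by
  have hx' := Real.rpow_nonneg hx q
  have hy' := Real.rpow_nonneg hy q
  have h2 : (0 : ℝ) ≤ 2 ^ q := by positivity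
  rcases le_total x y with h | h
  · calc (x + y) ^ q ≤ (2 * y) ^ q := Real.rpow_le_rpow (by linarith) (by linarith) hq
      _ = 2 ^ q * y ^ q := Real.mul_rpow (by norm_num) hy
      _ ≤ _ := mul_le_mul_of_nonneg_left (by linarith) h2
  · calc (x + y) ^ q ≤ (2 * x) ^ q := Real.rpow_le_rpow (by linarith) (by linarith) hq
      _ = 2 ^ q * x ^ q := Real.mul_rpow (by norm_num) hx
      _ ≤ _ := mul_le_mul_of_nonneg_left (by linarith) h2

private lemma MEXPS_cont : Continuous fun t : ℝ => ‖riemannZeta (1 / 2 + t * I)‖ := by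
  rw [continuous_iff_continuousAt]
  intro t
  have h2 : ContinuousAt riemannZeta (1 / 2 + t * I) := by
    apply (differentiableAt_riemannZeta _).continuousAt
    intro h3
    have := congrArg Complex.re h3
    norm_num at this
  have h3 : ContinuousAt (fun t : ℝ => (1 / 2 : ℂ) + t * I) t := by fun_prop
  exact (ContinuousAt.comp (f := fun t : ℝ => (1 / 2 : ℂ) + t * I) h2 h3).norm

/-- the pointwise bound -/
private lemma MEXPS_sum (hF : Form) (hR : T_RB) (hP : T_POLE) {φ : ℝ → ℝ}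
    (hφ : ∀ t : ℝ, φ t = ‖riemannZeta (1 / 2 + t * I)‖) (hc : Continuous φ) {N : ℕ} (hN : 1 ≤ N)
    {K T θ : ℝ} (hT : 1 ≤ T) (hK : 0 < K) (hNK : (N : ℝ) ≤ K * T) (h0 : 0 < θ) (h1 : θ ≤ 1)
    (hfar : IntegrableOn (fun v => φ v / v ^ 2) {v : ℝ | 2 * T ≤ |v|}) {t : ℝ}
    (ht : t ∈ Icc T (2 * T)) :
    ‖∑ n ∈ Finset.Icc 1 N, (n : ℂ) ^ (-(t * I) : ℂ)‖ ≤ √(N : ℝ) * ((2 * K + 1) +
      (6 * (12 * K) ^ θ * T ^ θ) *
        (∫ v in (-(4 * T))..(4 * T), (1 + ‖v‖) ^ (-(1 + θ)) * φ (t + v)) +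
      (162 * K * T) * (∫ v in {v : ℝ | 2 * T ≤ |v|}, φ v / v ^ 2) +
      2 * (6 * (12 * K) ^ θ * T ^ θ) * ∫ v : ℝ, (1 + ‖v‖) ^ (-(1 + θ))) := by
  have hT0 : 0 < T := by linarith
  have hNr : (1 : ℝ) ≤ N := by exact_mod_cast hN
  have htT := ht.1
  have ht2 := ht.2
  have ht1 : 1 ≤ t := hT.trans htT
  have ht0 : 0 < t := by linarith
  have hsq : (1 : ℝ) ≤ √(N : ℝ) := by
    rw [show (1 : ℝ) = √1 by simp]
    exact Real.sqrt_le_sqrt hNr
  have hint : Integrable (fun v : ℝ => (1 + ‖v‖) ^ (-(1 + θ))) := by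
    refine integrable_one_add_norm ?_
    simp only [Module.finrank_self, Nat.cast_one]
    linarith
  have hφ0 : ∀ u, 0 ≤ φ u := fun u => by rw [hφ]; exact norm_nonneg _
  set E := 6 * (12 * K) ^ θ * T ^ θ with hE
  have hE0 : 0 ≤ E := by positivity
  set S : Set ℝ := {v : ℝ | 2 * T ≤ |v|} with hS
  have hSm : MeasurableSet S := measurableSet_le measurable_const measurable_id.abs
  -- the majorant
  set g1 : ℝ → ℝ := (Ioc (-(4 * T)) (4 * T)).indicator
    (fun v => (1 + ‖v‖) ^ (-(1 + θ)) * φ (t + v)) with hg1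
  set g2 : ℝ → ℝ := S.indicator (fun v => φ v / v ^ 2) with hg2
  have hkc : Continuous fun v : ℝ => (1 + ‖v‖) ^ (-(1 + θ)) := by
    refine Continuous.rpow_const (by fun_prop) fun v => Or.inl ?_
    have := norm_nonneg v
    positivity
  have hg1i : Integrable g1 := by
    rw [hg1, integrable_indicator_iff measurableSet_Ioc]
    have h2 : Continuous fun v : ℝ => (1 + ‖v‖) ^ (-(1 + θ)) * φ (t + v) :=
      hkc.mul (hc.comp (by fun_prop))
    exact (h2.integrableOn_Icc).mono_set Ioc_subset_Icc_self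
  have hg2i : Integrable g2 := by
    rw [hg2, integrable_indicator_iff hSm]
    exact hfar
  have hg2i' : Integrable fun v => g2 (t + v) := hg2i.comp_add_left t
  have hgi : Integrable fun v => (√(N : ℝ) * E) * g1 v +
      (√(N : ℝ) * (162 * K * T)) * g2 (t + v) +
      (2 * (√(N : ℝ) * E)) * (1 + ‖v‖) ^ (-(1 + θ)) :=
    ((hg1i.const_mul _).add (hg2i'.const_mul _)).add (hint.const_mul _)
  have hI1 : ∫ v, g1 v =
      ∫ v in (-(4 * T))..(4 * T), (1 + ‖v‖) ^ (-(1 + θ)) * φ (t + v) := by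
    rw [hg1, integral_indicator measurableSet_Ioc,
      intervalIntegral.integral_of_le (by linarith)]
  have hI2 : ∫ v, g2 (t + v) = ∫ v in S, φ v / v ^ 2 := by
    rw [integral_add_left_eq_self g2 t, hg2, integral_indicator hSm]
  have hIg : ∫ v, ((√(N : ℝ) * E) * g1 v +
      (√(N : ℝ) * (162 * K * T)) * g2 (t + v) +
      (2 * (√(N : ℝ) * E)) * (1 + ‖v‖) ^ (-(1 + θ))) =
      √(N : ℝ) * (E * (∫ v in (-(4 * T))..(4 * T), (1 + ‖v‖) ^ (-(1 + θ)) * φ (t + v)) +
      (162 * K * T) * (∫ v in S, φ v / v ^ 2) +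
      2 * E * ∫ v : ℝ, (1 + ‖v‖) ^ (-(1 + θ))) := by
    have hsum : Integrable fun v => (√(N : ℝ) * E) * g1 v +
        (√(N : ℝ) * (162 * K * T)) * g2 (t + v) :=
      (hg1i.const_mul _).add (hg2i'.const_mul _)
    rw [integral_add hsum (hint.const_mul _),
      integral_add (hg1i.const_mul _) (hg2i'.const_mul _), integral_const_mul,
      integral_const_mul, integral_const_mul, hI1, hI2]
    ring
  have hg1n : ∀ v, 0 ≤ g1 v := fun v => by
    refine indicator_nonneg (fun v _ => ?_) v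
    have := hφ0 (t + v)
    positivity
  have hg2n : ∀ v, 0 ≤ g2 v := fun v => by
    refine indicator_nonneg (fun v _ => ?_) v
    have := hφ0 v
    positivity
  have hpt : ∀ v : ℝ, ‖RR N (1 / 2 + v * I) *
      (riemannZeta (1 / 2 + (t + v : ℝ) * I) - 1 / (-1 / 2 + (t + v : ℝ) * I))‖ ≤
      (√(N : ℝ) * E) * g1 v + (√(N : ℝ) * (162 * K * T)) * g2 (t + v) +
      (2 * (√(N : ℝ) * E)) * (1 + ‖v‖) ^ (-(1 + θ)) := by
    intro v
    rw [norm_mul]
    have e0 : ((1 / 2 : ℝ) + v * I : ℂ) = 1 / 2 + v * I := by push_cast; ring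
    have h2 : ‖riemannZeta (1 / 2 + (t + v : ℝ) * I) - 1 / (-1 / 2 + (t + v : ℝ) * I)‖ ≤
        φ (t + v) + 2 := by
      have h3 : ‖(1 : ℂ) / (-1 / 2 + (t + v : ℝ) * I)‖ ≤ 2 := by
        rw [norm_div, norm_one]
        have h4 : (1 / 2 : ℝ) ≤ ‖(-1 / 2 + (t + v : ℝ) * I : ℂ)‖ := by
          have := Complex.abs_re_le_norm (-1 / 2 + (t + v : ℝ) * I : ℂ)
          have h5 : (-1 / 2 + (t + v : ℝ) * I : ℂ).re = -1 / 2 := by simp
          rw [h5] at this
          have h6 : |(-1 / 2 : ℝ)| = 1 / 2 := by rw [abs_of_neg] <;> norm_num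
          rw [h6] at this
          exact this
        rw [div_le_iff₀ (by linarith)]
        linarith
      calc ‖riemannZeta (1 / 2 + (t + v : ℝ) * I) - 1 / (-1 / 2 + (t + v : ℝ) * I)‖
          ≤ ‖riemannZeta (1 / 2 + (t + v : ℝ) * I)‖ + ‖(1 : ℂ) / (-1 / 2 + (t + v : ℝ) * I)‖ :=
            norm_sub_le _ _
        _ ≤ φ (t + v) + 2 := by
            rw [hφ]
            exact add_le_add le_rfl h3
    have hA := MEXPS_RR hR hN hT hK hNK v h0 h1
    have hB := MEXPS_RR hR hN hT hK hNK v (θ := 1) one_pos le_rfl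
    rw [e0] at hA hB
    set X := ‖RR N (1 / 2 + v * I)‖ with hX
    have hX0 : 0 ≤ X := norm_nonneg _
    have h3 : X * ‖riemannZeta (1 / 2 + (t + v : ℝ) * I) - 1 / (-1 / 2 + (t + v : ℝ) * I)‖ ≤
        X * φ (t + v) + 2 * X := by
      calc _ ≤ X * (φ (t + v) + 2) := mul_le_mul_of_nonneg_left h2 hX0
        _ = _ := by ring
    have h4 : 2 * X ≤ (2 * (√(N : ℝ) * E)) * (1 + ‖v‖) ^ (-(1 + θ)) := by
      calc 2 * X ≤ 2 * (√(N : ℝ) * E * (1 + ‖v‖) ^ (-(1 + θ))) := by linarith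
        _ = _ := by ring
    have h5 : X * φ (t + v) ≤ (√(N : ℝ) * E) * g1 v +
        (√(N : ℝ) * (162 * K * T)) * g2 (t + v) := by
      have hg1v := hg1n v
      have hg2v := hg2n (t + v)
      by_cases hv : v ∈ Ioc (-(4 * T)) (4 * T)
      · have e1 : g1 v = (1 + ‖v‖) ^ (-(1 + θ)) * φ (t + v) := indicator_of_mem hv _
        have h6 : X * φ (t + v) ≤ (√(N : ℝ) * E) * g1 v := by
          rw [e1]
          calc X * φ (t + v) ≤ (√(N : ℝ) * E * (1 + ‖v‖) ^ (-(1 + θ))) * φ (t + v) :=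
                mul_le_mul_of_nonneg_right hA (hφ0 _)
            _ = _ := by ring
        have h7 : 0 ≤ (√(N : ℝ) * (162 * K * T)) * g2 (t + v) := by positivity
        linarith
      · have hv4 : 4 * T ≤ |v| := by
          rw [mem_Ioc, not_and_or, not_lt, not_le] at hv
          rcases hv with hv | hv
          · rw [abs_of_nonpos (by linarith)]
            linarith
          · rw [abs_of_pos (by linarith)]
            exact hv.le
        have h6 : |v| ≤ |t + v| + t := by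
          have h7 := abs_sub_abs_le_abs_sub v (-t)
          rw [abs_neg, abs_of_pos ht0, sub_neg_eq_add, add_comm v t] at h7
          linarith
        have h7 : |t + v| ≤ t + |v| := by
          have h8 := abs_add_le t v
          rwa [abs_of_pos ht0] at h8
        have hmem : t + v ∈ S := by
          rw [hS, mem_ofPred_eq]
          linarith
        have e2 : g2 (t + v) = φ (t + v) / (t + v) ^ 2 := indicator_of_mem hmem _
        have h8 : 0 < |t + v| := by linarith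
        have h9 : |t + v| ≤ 3 / 2 * (1 + |v|) := by linarith
        have h10 : (1 + ‖v‖) ^ (-(1 + 1) : ℝ) ≤ (9 / 4) / (t + v) ^ 2 := by
          rw [Real.norm_eq_abs]
          have hv0 : 0 < 1 + |v| := by have := abs_nonneg v; linarith
          have e3 : (1 + |v|) ^ (-(1 + 1) : ℝ) = ((1 + |v|) ^ 2)⁻¹ := by
            rw [Real.rpow_neg hv0.le]
            norm_num
          rw [e3, ← sq_abs (t + v), inv_eq_one_div, div_le_div_iff₀ (by positivity)
            (by positivity)]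
          have : |t + v| ^ 2 ≤ (3 / 2 * (1 + |v|)) ^ 2 := by
            gcongr
          linarith
        rw [e2]
        have h11 : 0 ≤ (√(N : ℝ) * E) * g1 v := by positivity
        have h12 : X * φ (t + v) ≤
            (√(N : ℝ) * (162 * K * T)) * (φ (t + v) / (t + v) ^ 2) := by
          have h13 : X ≤ √(N : ℝ) * (162 * K * T) / (t + v) ^ 2 := by
            calc X ≤ √(N : ℝ) * (6 * (12 * K) ^ (1 : ℝ) * T ^ (1 : ℝ)) *
                  (1 + ‖v‖) ^ (-(1 + 1) : ℝ) := hB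
              _ ≤ √(N : ℝ) * (6 * (12 * K) ^ (1 : ℝ) * T ^ (1 : ℝ)) *
                  ((9 / 4) / (t + v) ^ 2) := mul_le_mul_of_nonneg_left h10 (by positivity)
              _ = _ := by
                  rw [Real.rpow_one, Real.rpow_one]
                  ring
          calc X * φ (t + v) ≤ (√(N : ℝ) * (162 * K * T) / (t + v) ^ 2) * φ (t + v) :=
                mul_le_mul_of_nonneg_right h13 (hφ0 _)
            _ = _ := by ring
        linarith
    linarith
  rw [hF N hN t]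
  refine (norm_add_le _ _).trans ?_
  have hA : ‖∫ x in (1 : ℝ)..(N + 1), (rho N x : ℂ) * (x : ℂ) ^ (-(t * I) : ℂ)‖ ≤
      √(N : ℝ) * (2 * K + 1) := by
    refine (hP N hN t ht1).trans ?_
    have h2 : (N + 1 : ℝ) / t ≤ 2 * K := by
      rw [div_le_iff₀ ht0]
      have : K * T ≤ K * t := mul_le_mul_of_nonneg_left htT hK.le
      linarith
    nlinarith
  have hB : ‖((1 / (2 * Real.pi) : ℝ) : ℂ) * ∫ v : ℝ, RR N (1 / 2 + v * I) *
      (riemannZeta (1 / 2 + (t + v : ℝ) * I) - 1 / (-1 / 2 + (t + v : ℝ) * I))‖ ≤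
      √(N : ℝ) * (E * (∫ v in (-(4 * T))..(4 * T), (1 + ‖v‖) ^ (-(1 + θ)) * φ (t + v)) +
      (162 * K * T) * (∫ v in S, φ v / v ^ 2) +
      2 * E * ∫ v : ℝ, (1 + ‖v‖) ^ (-(1 + θ))) := by
    rw [norm_mul, ← hIg]
    have h2 : ‖((1 / (2 * Real.pi) : ℝ) : ℂ)‖ ≤ 1 := by
      rw [Complex.norm_real, Real.norm_eq_abs, abs_of_pos (by positivity),
        div_le_one (by positivity)]
      linarith [Real.pi_gt_three]
    have h3 := norm_integral_le_of_norm_le hgi (Filter.Eventually.of_forall hpt)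
    calc _ ≤ 1 * _ := mul_le_mul h2 h3 (norm_nonneg _) zero_le_one
      _ = _ := one_mul _
  calc _ ≤ √(N : ℝ) * (2 * K + 1) + √(N : ℝ) *
        (E * (∫ v in (-(4 * T))..(4 * T), (1 + ‖v‖) ^ (-(1 + θ)) * φ (t + v)) +
      (162 * K * T) * (∫ v in S, φ v / v ^ 2) +
      2 * E * ∫ v : ℝ, (1 + ‖v‖) ^ (-(1 + θ))) := add_le_add hA hB
    _ = _ := by ring

/-- the double integral -/
private lemma MEXPS_dbl {φ : ℝ → ℝ} (hc : Continuous φ) (hφ0 : ∀ u, 0 ≤ φ u) {q T θ M : ℝ}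
    (hq : 1 ≤ q) (hT : 1 ≤ T) (h0 : 0 < θ)
    (hM : ∫ u in (-(6 * T))..(6 * T), φ u ^ q ≤ M) :
    ∫ t in T..(2 * T), ∫ v in (-(4 * T))..(4 * T), (1 + ‖v‖) ^ (-(1 + θ)) * φ (t + v) ^ q ≤
      (∫ v : ℝ, (1 + ‖v‖) ^ (-(1 + θ))) * M := by
  have hT0 : 0 < T := by linarith
  have hint : Integrable (fun v : ℝ => (1 + ‖v‖) ^ (-(1 + θ))) := by
    refine integrable_one_add_norm ?_
    simp only [Module.finrank_self, Nat.cast_one]
    linarith
  have hkc : Continuous fun v : ℝ => (1 + ‖v‖) ^ (-(1 + θ)) := by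
    refine Continuous.rpow_const (by fun_prop) fun v => Or.inl ?_
    have := norm_nonneg v
    positivity
  have hcq : Continuous fun u => φ u ^ q :=
    Continuous.rpow_const hc fun u => Or.inr (by linarith)
  have hM0 : 0 ≤ M := le_trans (intervalIntegral.integral_nonneg (by linarith)
    fun u _ => Real.rpow_nonneg (hφ0 u) q) hM
  rw [intervalIntegral_intervalIntegral_swap]
  swap
  · have h2 : Continuous (Function.uncurry fun t v : ℝ =>
        (1 + ‖v‖) ^ (-(1 + θ)) * φ (t + v) ^ q) := by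
      have e : (Function.uncurry fun t v : ℝ => (1 + ‖v‖) ^ (-(1 + θ)) * φ (t + v) ^ q) =
          fun p : ℝ × ℝ => (1 + ‖p.2‖) ^ (-(1 + θ)) * φ (p.1 + p.2) ^ q := by
        funext p
        rfl
      rw [e]
      exact (hkc.comp continuous_snd).mul (hcq.comp (continuous_fst.add continuous_snd))
    refine (h2.continuousOn.integrableOn_compact
      ((isCompact_uIcc (a := T) (b := 2 * T)).prod
        (isCompact_uIcc (a := -(4 * T)) (b := 4 * T)))).mono_set ?_
    exact prod_mono uIoc_subset_uIcc uIoc_subset_uIcc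
  have h3 : ∀ v ∈ Icc (-(4 * T)) (4 * T),
      ∫ t in T..(2 * T), (1 + ‖v‖) ^ (-(1 + θ)) * φ (t + v) ^ q ≤
      (1 + ‖v‖) ^ (-(1 + θ)) * M := by
    intro v hv
    rw [intervalIntegral.integral_const_mul]
    refine mul_le_mul_of_nonneg_left ?_ (by positivity)
    rw [intervalIntegral.integral_comp_add_right (fun u => φ u ^ q) v]
    refine le_trans ?_ hM
    refine intervalIntegral.integral_mono_interval ?_ ?_ ?_ ?_ ?_
    · linarith [hv.1]
    · linarith
    · linarith [hv.2]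
    · exact Filter.Eventually.of_forall fun u => Real.rpow_nonneg (hφ0 u) q
    · exact hcq.intervalIntegrable _ _
  have h4 : Continuous fun v : ℝ => ∫ t in T..(2 * T), (1 + ‖v‖) ^ (-(1 + θ)) * φ (t + v) ^ q := by
    refine intervalIntegral.continuous_parametric_intervalIntegral_of_continuous' ?_ _ _
    have e : (Function.uncurry fun v t : ℝ => (1 + ‖v‖) ^ (-(1 + θ)) * φ (t + v) ^ q) =
        fun p : ℝ × ℝ => (1 + ‖p.1‖) ^ (-(1 + θ)) * φ (p.2 + p.1) ^ q := by
      funext p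
      rfl
    rw [e]
    exact (hkc.comp continuous_fst).mul (hcq.comp (continuous_snd.add continuous_fst))
  calc ∫ v in (-(4 * T))..(4 * T), ∫ t in T..(2 * T), (1 + ‖v‖) ^ (-(1 + θ)) * φ (t + v) ^ q
      ≤ ∫ v in (-(4 * T))..(4 * T), (1 + ‖v‖) ^ (-(1 + θ)) * M :=
        intervalIntegral.integral_mono_on (by linarith) (h4.intervalIntegrable _ _)
          ((hkc.mul continuous_const).intervalIntegrable _ _) h3
    _ = (∫ v in (-(4 * T))..(4 * T), (1 + ‖v‖) ^ (-(1 + θ))) * M :=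
        intervalIntegral.integral_mul_const _ _
    _ ≤ (∫ v : ℝ, (1 + ‖v‖) ^ (-(1 + θ))) * M := by
        refine mul_le_mul_of_nonneg_right ?_ hM0
        rw [intervalIntegral.integral_of_le (by linarith)]
        exact setIntegral_le_integral hint
          (Filter.Eventually.of_forall fun v => by positivity)

theorem p_MEXPS : Form → T_RB → T_POLE → M_AVG → M_FAR → M_EXPS := by
  intro hF hR hP hAvg hFar q a hq ha ha1 hZ ε hε K hK
  set ε' := min ε (1 - a) / 4 with hε'def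
  have hε' : 0 < ε' := by
    have : 0 < min ε (1 - a) := lt_min hε (by linarith)
    positivity
  have hae : a + ε' < 1 := by
    rw [hε'def]
    have := min_le_right ε (1 - a)
    linarith
  have h1e : ε' ≤ 1 := by linarith
  have h2e : 2 * ε' ≤ ε := by
    rw [hε'def]
    have := min_le_left ε (1 - a)
    linarith
  obtain ⟨C, hC0, hC⟩ := hAvg q a hq ha hZ ε' hε'
  set φ : ℝ → ℝ := fun t => ‖riemannZeta (1 / 2 + t * I)‖ with hφ
  have hc : Continuous φ := MEXPS_cont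
  have hφ0 : ∀ u, 0 ≤ φ u := fun u => norm_nonneg _
  have hfar := hFar φ hc hφ0 (1 + (a + ε')) C (by positivity) (by linarith) hC0
    (fun Y hY => (hC Y hY).2)
  set J := ∫ v : ℝ, (1 + ‖v‖) ^ (-(1 + ε')) with hJ
  have hJ0 : 0 ≤ J := integral_nonneg fun v => by positivity
  have hint : Integrable (fun v : ℝ => (1 + ‖v‖) ^ (-(1 + ε'))) := by
    refine integrable_one_add_norm ?_
    simp only [Module.finrank_self, Nat.cast_one]
    linarith
  have hkc : Continuous fun v : ℝ => (1 + ‖v‖) ^ (-(1 + ε')) := by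
    refine Continuous.rpow_const (by fun_prop) fun v => Or.inl ?_
    have := norm_nonneg v
    positivity
  have hcq : Continuous fun u => φ u ^ q :=
    Continuous.rpow_const hc fun u => Or.inr (by linarith)
  set cb := 4 / (1 - 2 ^ (1 + (a + ε') - 2) : ℝ) with hcb
  have hcb0 : 0 ≤ cb := by
    rw [hcb]
    have : (2 : ℝ) ^ (1 + (a + ε') - 2) ≤ 1 :=
      Real.rpow_le_one_of_one_le_of_nonpos (by norm_num) (by linarith)
    have h3 : (0 : ℝ) ≤ 1 - 2 ^ (1 + (a + ε') - 2) := by linarith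
    positivity
  set E := 6 * (12 * K) ^ ε' with hE
  have hE0 : 0 ≤ E := by positivity
  set D := (2 * K + 1) + 162 * K * (C * cb) + 2 * E * J with hD
  have hD0 : 0 ≤ D := by positivity
  refine ⟨2 ^ q * (E ^ q * J ^ (q - 1) * (J * (C * 6 ^ (1 + q * (a + ε')))) + D ^ q),
    fun T hT N hN hNK => ?_⟩
  have hT0 : 0 < T := by linarith
  have hNr : (1 : ℝ) ≤ N := by exact_mod_cast hN
  have hs0 : 0 ≤ √(N : ℝ) := Real.sqrt_nonneg _
  obtain ⟨hf1, hf2⟩ := hfar (2 * T) (by linarith)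
  have hq0 : 0 ≤ q := by linarith
  -- the pointwise bound
  have hpt : ∀ t ∈ Icc T (2 * T), ‖∑ n ∈ Finset.Icc 1 N, (n : ℂ) ^ (-(t * I) : ℂ)‖ ^ q ≤
      (√(N : ℝ) ^ q * 2 ^ q * (E ^ q * T ^ (q * ε') * J ^ (q - 1))) *
        (∫ v in (-(4 * T))..(4 * T), (1 + ‖v‖) ^ (-(1 + ε')) * φ (t + v) ^ q) +
      √(N : ℝ) ^ q * 2 ^ q * (D ^ q * T ^ (q * (a + 2 * ε'))) := by
    intro t ht
    have h1 := MEXPS_sum hF hR hP (fun t => rfl) hc hN hT hK hNK hε' h1e hf1 ht
    set A := ∫ v in (-(4 * T))..(4 * T), (1 + ‖v‖) ^ (-(1 + ε')) * φ (t + v) with hA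
    have hA0 : 0 ≤ A := intervalIntegral.integral_nonneg (by linarith) fun v _ => by
      have := hφ0 (t + v)
      positivity
    set Te := T ^ (a + 2 * ε') with hTe
    have hTe1 : 1 ≤ Te := Real.one_le_rpow hT (by positivity)
    have h2 : (162 * K * T) * (∫ v in {v : ℝ | 2 * T ≤ |v|}, φ v / v ^ 2) ≤
        162 * K * (C * cb) * Te := by
      have h3 : (2 * T) ^ (1 + (a + ε') - 2) ≤ T ^ (1 + (a + ε') - 2) :=
        Real.rpow_le_rpow_of_nonpos hT0 (by linarith) (by linarith)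
      have h4 : T * T ^ (1 + (a + ε') - 2) ≤ Te := by
        have e1 : T * T ^ (1 + (a + ε') - 2) = T ^ (a + ε') := by
          conv_lhs => rw [← Real.rpow_one T]
          rw [← Real.rpow_mul hT0.le, ← Real.rpow_add hT0]
          congr 1
          ring
        rw [e1, hTe]
        exact Real.rpow_le_rpow_of_exponent_le hT (by linarith)
      calc (162 * K * T) * (∫ v in {v : ℝ | 2 * T ≤ |v|}, φ v / v ^ 2)
          ≤ (162 * K * T) * (C * cb * (2 * T) ^ (1 + (a + ε') - 2)) :=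
            mul_le_mul_of_nonneg_left hf2 (by positivity)
        _ ≤ (162 * K * T) * (C * cb * T ^ (1 + (a + ε') - 2)) := by gcongr
        _ = 162 * K * (C * cb) * (T * T ^ (1 + (a + ε') - 2)) := by ring
        _ ≤ 162 * K * (C * cb) * Te := mul_le_mul_of_nonneg_left h4 (by positivity)
    have h3 : T ^ ε' ≤ Te := Real.rpow_le_rpow_of_exponent_le hT (by linarith)
    have h4 : 2 * (6 * (12 * K) ^ ε' * T ^ ε') * J ≤ 2 * E * J * Te := by
      calc 2 * (6 * (12 * K) ^ ε' * T ^ ε') * J = 2 * E * J * T ^ ε' := by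
            rw [hE]
            ring
        _ ≤ 2 * E * J * Te := mul_le_mul_of_nonneg_left h3 (by positivity)
    have h5 : 2 * K + 1 ≤ (2 * K + 1) * Te := by
      have : 0 ≤ 2 * K + 1 := by positivity
      nlinarith
    have h6 : ‖∑ n ∈ Finset.Icc 1 N, (n : ℂ) ^ (-(t * I) : ℂ)‖ ≤
        √(N : ℝ) * (E * T ^ ε' * A + D * Te) := by
      refine h1.trans (mul_le_mul_of_nonneg_left ?_ hs0)
      have e1 : D * Te = (2 * K + 1) * Te + 162 * K * (C * cb) * Te + 2 * E * J * Te := by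
        rw [hD]
        ring
      rw [e1]
      have e2 : 6 * (12 * K) ^ ε' * T ^ ε' * A = E * T ^ ε' * A := by rw [hE]
      linarith
    -- Jensen
    have h7 : A ^ q ≤ J ^ (q - 1) *
        ∫ v in (-(4 * T))..(4 * T), (1 + ‖v‖) ^ (-(1 + ε')) * φ (t + v) ^ q := by
      have hle : -(4 * T) ≤ 4 * T := by linarith
      rw [hA, intervalIntegral.integral_of_le hle, intervalIntegral.integral_of_le hle]
      have hct : Continuous fun v => φ (t + v) := hc.comp (by fun_prop)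
      have hctq : Continuous fun v => φ (t + v) ^ q := hcq.comp (by fun_prop)
      have h8 := MEXPS_jensen (μ := volume.restrict (Ioc (-(4 * T)) (4 * T)))
        (k := fun v : ℝ => (1 + ‖v‖) ^ (-(1 + ε'))) (y := fun v => φ (t + v)) hq
        (fun v => by positivity) (fun v => hφ0 _) hint.restrict
        (((hkc.mul hct).integrableOn_Icc).mono_set Ioc_subset_Icc_self)
        (((hkc.mul hctq).integrableOn_Icc).mono_set Ioc_subset_Icc_self)
      refine h8.trans (mul_le_mul_of_nonneg_right ?_ ?_)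
      · refine Real.rpow_le_rpow (integral_nonneg fun v => by positivity) ?_ (by linarith)
        exact setIntegral_le_integral hint
          (Filter.Eventually.of_forall fun v => by positivity)
      · exact integral_nonneg fun v => by
          have := hφ0 (t + v)
          positivity
    set B := ∫ v in (-(4 * T))..(4 * T), (1 + ‖v‖) ^ (-(1 + ε')) * φ (t + v) ^ q with hB
    have hx : 0 ≤ E * T ^ ε' * A := by positivity
    have hy : 0 ≤ D * Te := by positivity
    calc ‖∑ n ∈ Finset.Icc 1 N, (n : ℂ) ^ (-(t * I) : ℂ)‖ ^ q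
        ≤ (√(N : ℝ) * (E * T ^ ε' * A + D * Te)) ^ q :=
          Real.rpow_le_rpow (norm_nonneg _) h6 hq0
      _ = √(N : ℝ) ^ q * (E * T ^ ε' * A + D * Te) ^ q :=
          Real.mul_rpow hs0 (by positivity)
      _ ≤ √(N : ℝ) ^ q * (2 ^ q * ((E * T ^ ε' * A) ^ q + (D * Te) ^ q)) :=
          mul_le_mul_of_nonneg_left (MEXPS_two hx hy hq0) (by positivity)
      _ = √(N : ℝ) ^ q * (2 ^ q * (E ^ q * T ^ (q * ε') * A ^ q +
            D ^ q * T ^ (q * (a + 2 * ε')))) := by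
          rw [Real.mul_rpow (by positivity) hA0, Real.mul_rpow hE0 (by positivity),
            Real.mul_rpow hD0 (by positivity), hTe, ← Real.rpow_mul hT0.le,
            ← Real.rpow_mul hT0.le, mul_comm ε' q, mul_comm (a + 2 * ε') q]
      _ ≤ √(N : ℝ) ^ q * (2 ^ q * (E ^ q * T ^ (q * ε') * (J ^ (q - 1) * B) +
            D ^ q * T ^ (q * (a + 2 * ε')))) := by gcongr
      _ = _ := by ring
  -- integrate
  have hScont : Continuous fun t : ℝ =>
      ‖∑ n ∈ Finset.Icc 1 N, (n : ℂ) ^ (-(t * I) : ℂ)‖ ^ q := by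
    refine Continuous.rpow_const ?_ fun t => Or.inr hq0
    refine Continuous.norm (continuous_finsetSum _ fun n hn => ?_)
    have hn1 : (n : ℂ) ≠ 0 := by
      have := (Finset.mem_Icc.mp hn).1
      exact_mod_cast (show n ≠ 0 by omega)
    refine Continuous.const_cpow (by fun_prop) (Or.inl hn1)
  have hBcont : Continuous fun t : ℝ =>
      ∫ v in (-(4 * T))..(4 * T), (1 + ‖v‖) ^ (-(1 + ε')) * φ (t + v) ^ q := by
    refine intervalIntegral.continuous_parametric_intervalIntegral_of_continuous' ?_ _ _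
    have e : (Function.uncurry fun t v : ℝ => (1 + ‖v‖) ^ (-(1 + ε')) * φ (t + v) ^ q) =
        fun p : ℝ × ℝ => (1 + ‖p.2‖) ^ (-(1 + ε')) * φ (p.1 + p.2) ^ q := by
      funext p
      rfl
    rw [e]
    exact (hkc.comp continuous_snd).mul (hcq.comp (continuous_fst.add continuous_snd))
  set c1 := √(N : ℝ) ^ q * 2 ^ q * (E ^ q * T ^ (q * ε') * J ^ (q - 1)) with hc1
  set c2 := √(N : ℝ) ^ q * 2 ^ q * (D ^ q * T ^ (q * (a + 2 * ε'))) with hc2
  have hc10 : 0 ≤ c1 := by positivity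
  have hdbl := MEXPS_dbl hc hφ0 hq hT hε' (M := C * (6 * T) ^ (1 + q * (a + ε')))
    (hC (6 * T) (by linarith)).1
  have hTT : T ^ (q * ε') * T ^ (1 + q * (a + ε')) ≤ T ^ (1 + q * (a + ε)) := by
    rw [← Real.rpow_add hT0]
    refine Real.rpow_le_rpow_of_exponent_le hT ?_
    nlinarith
  have hTT2 : T * T ^ (q * (a + 2 * ε')) ≤ T ^ (1 + q * (a + ε)) := by
    conv_lhs => rw [← Real.rpow_one T]
    rw [← Real.rpow_mul hT0.le, ← Real.rpow_add hT0]
    refine Real.rpow_le_rpow_of_exponent_le hT ?_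
    nlinarith
  calc ∫ t in T..(2 * T), ‖∑ n ∈ Finset.Icc 1 N, (n : ℂ) ^ (-(t * I) : ℂ)‖ ^ q
      ≤ ∫ t in T..(2 * T), (c1 *
        (∫ v in (-(4 * T))..(4 * T), (1 + ‖v‖) ^ (-(1 + ε')) * φ (t + v) ^ q) + c2) :=
        intervalIntegral.integral_mono_on (by linarith) (hScont.intervalIntegrable _ _)
          (((continuous_const.mul hBcont).add continuous_const).intervalIntegrable _ _) hpt
    _ = c1 * (∫ t in T..(2 * T),
        ∫ v in (-(4 * T))..(4 * T), (1 + ‖v‖) ^ (-(1 + ε')) * φ (t + v) ^ q) + c2 * T := by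
        rw [intervalIntegral.integral_add
          (f := fun t => c1 * ∫ v in (-(4 * T))..(4 * T),
            (1 + ‖v‖) ^ (-(1 + ε')) * φ (t + v) ^ q) (g := fun _ => c2)
          ((continuous_const.mul hBcont).intervalIntegrable _ _)
          (continuous_const.intervalIntegrable _ _), intervalIntegral.integral_const_mul,
          intervalIntegral.integral_const, smul_eq_mul]
        ring
    _ ≤ c1 * (J * (C * (6 * T) ^ (1 + q * (a + ε')))) + c2 * T := by
        gcongr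
    _ = √(N : ℝ) ^ q * 2 ^ q * (E ^ q * J ^ (q - 1) * (J * (C * 6 ^ (1 + q * (a + ε')))) *
          (T ^ (q * ε') * T ^ (1 + q * (a + ε'))) +
          D ^ q * (T * T ^ (q * (a + 2 * ε')))) := by
        rw [hc1, hc2, Real.mul_rpow (by norm_num) hT0.le]
        ring
    _ ≤ √(N : ℝ) ^ q * 2 ^ q * (E ^ q * J ^ (q - 1) * (J * (C * 6 ^ (1 + q * (a + ε')))) *
          T ^ (1 + q * (a + ε)) + D ^ q * T ^ (1 + q * (a + ε))) := by
        gcongr
    _ = _ := by ring

end Pool.Agent.Ben
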