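import Pool.Agent.Ben.Targets8

/-!
# Ben, target MFAR: the tail of an integral by dyadic decomposition
-/

set_option autoImplicit false

namespace Pool.Agent.Ben

open Complex MeasureTheory Set

/-- the dyadic shells cover the tail -/
theorem MFAR_cover (X : ℝ) (hX : 1 ≤ X) : {v : ℝ | X ≤ |v|} ⊆
    ⋃ j : ℕ, {v : ℝ | 2 ^ j * X ≤ |v| ∧ |v| < 2 ^ (j + 1) * X} := by
  intro v hv
  have hX0 : 0 < X := by linarith
  have h1 : 1 ≤ |v| / X := (one_le_div hX0).mpr hv
  obtain ⟨n, hn1, hn2⟩ := exists_nat_pow_near h1 (by norm_num : (1 : ℝ) < 2)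
  rw [mem_iUnion]
  refine ⟨n, ?_, ?_⟩
  · exact (le_div_iff₀ hX0).mp hn1
  · exact (div_lt_iff₀ hX0).mp hn2

/-- one shell -/
theorem MFAR_shell (φ : ℝ → ℝ) (hφ : Continuous φ) (h0 : ∀ v, 0 ≤ φ v) (b C : ℝ)
    (hI : ∀ Y : ℝ, 1 ≤ Y → ∫ v in (-Y)..Y, φ v ≤ C * Y ^ b) (D : ℝ) (hD : 1 ≤ D) :
    ∫⁻ v in {v : ℝ | D ≤ |v| ∧ |v| < 2 * D}, ENNReal.ofReal (φ v / v ^ 2) ≤
      ENNReal.ofReal (C * 2 ^ b * D ^ (b - 2)) := by
  have hD0 : 0 < D := by linarith
  have hms : MeasurableSet {v : ℝ | D ≤ |v| ∧ |v| < 2 * D} :=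
    (measurableSet_le measurable_const continuous_abs.measurable).inter
      (measurableSet_lt continuous_abs.measurable measurable_const)
  have hc : Continuous (fun v => φ v / D ^ 2) := hφ.div_const _
  have hint : IntegrableOn (fun v => φ v / D ^ 2) (Ioc (-(2 * D)) (2 * D)) :=
    (hc.integrableOn_Icc).mono_set Ioc_subset_Icc_self
  calc ∫⁻ v in {v : ℝ | D ≤ |v| ∧ |v| < 2 * D}, ENNReal.ofReal (φ v / v ^ 2)
      ≤ ∫⁻ v in {v : ℝ | D ≤ |v| ∧ |v| < 2 * D}, ENNReal.ofReal (φ v / D ^ 2) := by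
        refine setLIntegral_mono' hms fun v hv => ENNReal.ofReal_le_ofReal ?_
        apply div_le_div_of_nonneg_left (h0 v) (by positivity)
        rw [← sq_abs v]
        exact pow_le_pow_left₀ hD0.le hv.1 2
    _ ≤ ∫⁻ v in Ioc (-(2 * D)) (2 * D), ENNReal.ofReal (φ v / D ^ 2) := by
        apply lintegral_mono_set
        intro v hv
        have h := abs_lt.mp hv.2
        exact ⟨h.1, h.2.le⟩
    _ = ENNReal.ofReal (∫ v in Ioc (-(2 * D)) (2 * D), φ v / D ^ 2) := by
        rw [ofReal_integral_eq_lintegral_ofReal hint]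
        exact Filter.Eventually.of_forall fun v => div_nonneg (h0 v) (by positivity)
    _ ≤ ENNReal.ofReal (C * 2 ^ b * D ^ (b - 2)) := by
        apply ENNReal.ofReal_le_ofReal
        rw [← intervalIntegral.integral_of_le (by linarith), intervalIntegral.integral_div]
        have h1 := hI (2 * D) (by linarith)
        have e1 : (2 * D) ^ b = 2 ^ b * D ^ b := Real.mul_rpow (by norm_num) hD0.le
        have e2 : D ^ (b - 2) = D ^ b / D ^ 2 := by
          rw [Real.rpow_sub hD0, Real.rpow_two]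
        rw [e1] at h1
        rw [e2, ← mul_div_assoc]
        apply div_le_div_of_nonneg_right _ (by positivity)
        linarith

theorem p_MFAR : M_FAR := by
  intro φ hφ h0 b C hb hb2 hC hI X hX
  have hX0 : 0 < X := by linarith
  set q : ℝ := 2 ^ (b - 2) with hq
  have hq0 : 0 < q := Real.rpow_pos_of_pos (by norm_num) _
  have hq1 : q < 1 := Real.rpow_lt_one_of_one_lt_of_neg (by norm_num) (by linarith)
  have hA : 0 ≤ C * 2 ^ b * X ^ (b - 2) := by positivity
  have hsum : Summable (fun j : ℕ => C * 2 ^ b * X ^ (b - 2) * q ^ j) :=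
    (summable_geometric_of_lt_one hq0.le hq1).mul_left _
  have hbound : ∫⁻ v in {v : ℝ | X ≤ |v|}, ENNReal.ofReal (φ v / v ^ 2) ≤
      ENNReal.ofReal (C * (4 / (1 - q)) * X ^ (b - 2)) := by
    calc ∫⁻ v in {v : ℝ | X ≤ |v|}, ENNReal.ofReal (φ v / v ^ 2)
        ≤ ∫⁻ v in ⋃ j : ℕ, {v : ℝ | 2 ^ j * X ≤ |v| ∧ |v| < 2 ^ (j + 1) * X},
            ENNReal.ofReal (φ v / v ^ 2) := lintegral_mono_set (MFAR_cover X hX)
      _ ≤ ∑' j : ℕ, ∫⁻ v in {v : ℝ | 2 ^ j * X ≤ |v| ∧ |v| < 2 ^ (j + 1) * X},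
            ENNReal.ofReal (φ v / v ^ 2) := lintegral_iUnion_le _ _
      _ ≤ ∑' j : ℕ, ENNReal.ofReal (C * 2 ^ b * X ^ (b - 2) * q ^ j) := by
          refine ENNReal.tsum_le_tsum fun j => ?_
          have h2 : (1 : ℝ) ≤ 2 ^ j := one_le_pow₀ (by norm_num)
          have hD : 1 ≤ 2 ^ j * X := by nlinarith
          have h := MFAR_shell φ hφ h0 b C hI (2 ^ j * X) hD
          have e1 : 2 ^ (j + 1) * X = 2 * (2 ^ j * X) := by ring
          have e2 : C * 2 ^ b * (2 ^ j * X) ^ (b - 2) = C * 2 ^ b * X ^ (b - 2) * q ^ j := by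
            rw [Real.mul_rpow (by positivity) hX0.le, hq, ← Real.rpow_natCast 2 j,
              ← Real.rpow_natCast (2 ^ (b - 2)) j, ← Real.rpow_mul (by norm_num),
              ← Real.rpow_mul (by norm_num), mul_comm (j : ℝ) (b - 2)]
            ring
          rw [e1, ← e2]
          exact h
      _ = ENNReal.ofReal (∑' j : ℕ, C * 2 ^ b * X ^ (b - 2) * q ^ j) :=
          (ENNReal.ofReal_tsum_of_nonneg (fun j => by positivity) hsum).symm
      _ ≤ ENNReal.ofReal (C * (4 / (1 - q)) * X ^ (b - 2)) := by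
          apply ENNReal.ofReal_le_ofReal
          rw [tsum_mul_left, tsum_geometric_of_lt_one hq0.le hq1]
          have h4 : (2 : ℝ) ^ b ≤ 4 := by
            calc (2 : ℝ) ^ b ≤ 2 ^ (2 : ℝ) :=
                  Real.rpow_le_rpow_of_exponent_le (by norm_num) hb2.le
              _ = 4 := by norm_num
          have h5 : 0 ≤ C * X ^ (b - 2) * (1 - q)⁻¹ := by
            have : 0 < 1 - q := by linarith
            positivity
          calc C * 2 ^ b * X ^ (b - 2) * (1 - q)⁻¹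
              = 2 ^ b * (C * X ^ (b - 2) * (1 - q)⁻¹) := by ring
            _ ≤ 4 * (C * X ^ (b - 2) * (1 - q)⁻¹) := mul_le_mul_of_nonneg_right h4 h5
            _ = C * (4 / (1 - q)) * X ^ (b - 2) := by
                rw [div_eq_mul_inv]
                ring
  have hnn : ∀ v, 0 ≤ φ v / v ^ 2 := fun v => div_nonneg (h0 v) (sq_nonneg v)
  have hmeas : AEStronglyMeasurable (fun v => φ v / v ^ 2)
      (volume.restrict {v : ℝ | X ≤ |v|}) :=
    (hφ.measurable.div (measurable_id.pow_const 2)).aestronglyMeasurable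
  have hint : IntegrableOn (fun v => φ v / v ^ 2) {v : ℝ | X ≤ |v|} := by
    refine ⟨hmeas, ?_⟩
    rw [hasFiniteIntegral_iff_ofReal (Filter.Eventually.of_forall hnn)]
    exact lt_of_le_of_lt hbound ENNReal.ofReal_lt_top
  refine ⟨hint, ?_⟩
  rw [integral_eq_lintegral_of_nonneg_ae (Filter.Eventually.of_forall hnn) hmeas]
  have hR : 0 ≤ C * (4 / (1 - q)) * X ^ (b - 2) := by
    have : 0 < 1 - q := by linarith
    positivity
  exact ENNReal.toReal_le_of_le_ofReal hR hbound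

end Pool.Agent.Ben
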