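import Pool.Agent.Ben.Targets8
import Pool.Agent.Ben.P_YMS

/-!
# Ben: the mean square, unconditionally
-/

set_option autoImplicit false

namespace Pool.Agent.Ben

open Complex MeasureTheory Set

theorem MTWO_normSq (M : ℕ) (a : ℕ → ℝ) (t : ℝ) :
    ‖∑ n ∈ Finset.Icc 1 M, e (t * Real.log n) * (a n : ℝ)‖ ^ 2 =
      ∑ m ∈ Finset.Icc 1 M, ∑ n ∈ Finset.Icc 1 M, a m * a n *
        Real.cos (2 * Real.pi * (Real.log m - Real.log n) * t) := by
  have h0 : ∀ n : ℕ, e (t * Real.log n) * (a n : ℝ) =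
      ((a n * Real.cos (2 * Real.pi * (t * Real.log n)) : ℝ) : ℂ) +
      ((a n * Real.sin (2 * Real.pi * (t * Real.log n)) : ℝ) : ℂ) * I := by
    intro n
    unfold e
    rw [Complex.exp_mul_I, ← Complex.ofReal_cos, ← Complex.ofReal_sin]
    push_cast
    ring
  rw [Finset.sum_congr rfl (fun n _ => h0 n), Finset.sum_add_distrib, ← Finset.sum_mul,
    ← Complex.ofReal_sum, ← Complex.ofReal_sum, Complex.sq_norm, Complex.normSq_add_mul_I]
  rw [sq, sq, Finset.sum_mul_sum, Finset.sum_mul_sum, ← Finset.sum_add_distrib]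
  refine Finset.sum_congr rfl (fun m _ => ?_)
  rw [← Finset.sum_add_distrib]
  refine Finset.sum_congr rfl (fun n _ => ?_)
  have h1 : 2 * Real.pi * (Real.log m - Real.log n) * t =
      2 * Real.pi * (t * Real.log m) - 2 * Real.pi * (t * Real.log n) := by ring
  rw [h1, Real.cos_sub]
  ring

theorem MTWO_log (M m n : ℕ) (hm : m ∈ Finset.Icc 1 M) (hn : n ∈ Finset.Icc 1 M) :
    |(m : ℝ) - n| / M ≤ |Real.log m - Real.log n| := by
  wlog h : n ≤ m generalizing m n with H
  · rw [abs_sub_comm, abs_sub_comm (Real.log m)]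
    exact H n m hn hm (by omega)
  rw [Finset.mem_Icc] at hm hn
  have hm0 : (0 : ℝ) < m := by exact_mod_cast hm.1
  have hn0 : (0 : ℝ) < n := by exact_mod_cast hn.1
  have h3 : (n : ℝ) ≤ m := by exact_mod_cast h
  have h1 := Real.one_sub_inv_le_log_of_pos (div_pos hm0 hn0)
  rw [Real.log_div hm0.ne' hn0.ne', inv_div] at h1
  refine le_trans ?_ (le_abs_self _)
  refine le_trans ?_ h1
  have h2 : (1 : ℝ) - n / m = (m - n) / m := by
    field_simp
  have h4 : (m : ℝ) ≤ M := by exact_mod_cast hm.2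
  rw [h2, abs_of_nonneg (by linarith)]
  exact div_le_div_of_nonneg_left (by linarith) hm0 h4

theorem MTWO_term (M m n : ℕ) (T x : ℝ) (hT : 0 ≤ T) (hx : |x| ≤ 1) (hm : m ∈ Finset.Icc 1 M)
    (hn : n ∈ Finset.Icc 1 M) :
    ∫ t in T..2 * T, x * Real.cos (2 * Real.pi * (Real.log m - Real.log n) * t) ≤
      if m = n then T else M / |(m : ℝ) - n| := by
  have hM : (0 : ℝ) < M := by
    rw [Finset.mem_Icc] at hm
    exact_mod_cast (by omega : 0 < M)
  rw [intervalIntegral.integral_const_mul]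
  by_cases h : m = n
  · subst h
    simp only [sub_self, mul_zero, zero_mul, Real.cos_zero, if_true]
    rw [intervalIntegral.integral_const, smul_eq_mul]
    have := (abs_le.1 hx).2
    nlinarith
  · rw [if_neg h]
    have h1 := MTWO_log M m n hm hn
    have hmn : 0 < |(m : ℝ) - n| := by
      rw [abs_pos, sub_ne_zero]
      exact_mod_cast h
    set d := Real.log m - Real.log n with hd
    have hd1 : 0 < |d| := lt_of_lt_of_le (by positivity) h1
    have hd0 : d ≠ 0 := abs_pos.1 hd1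
    have ha : 2 * Real.pi * d ≠ 0 := by
      have := Real.pi_pos
      positivity
    rw [YMS_int _ _ _ ha]
    have h2 : |(Real.sin (2 * Real.pi * d * (2 * T)) - Real.sin (2 * Real.pi * d * T)) /
        (2 * Real.pi * d)| ≤ M / |(m : ℝ) - n| := by
      rw [abs_div, div_le_div_iff₀ (abs_pos.2 ha) hmn]
      have h3 : |Real.sin (2 * Real.pi * d * (2 * T)) - Real.sin (2 * Real.pi * d * T)| ≤ 2 := by
        have a1 := Real.abs_sin_le_one (2 * Real.pi * d * (2 * T))
        have a2 := Real.abs_sin_le_one (2 * Real.pi * d * T)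
        rw [abs_le] at a1 a2 ⊢
        constructor <;> linarith [a1.1, a1.2, a2.1, a2.2]
      have h4 : |(m : ℝ) - n| ≤ |d| * M := by
        rwa [div_le_iff₀ hM] at h1
      have h5 := Real.pi_gt_three
      rw [abs_mul, abs_of_pos (by positivity : (0 : ℝ) < 2 * Real.pi)]
      calc |Real.sin (2 * Real.pi * d * (2 * T)) - Real.sin (2 * Real.pi * d * T)| *
            |(m : ℝ) - n| ≤ 2 * (|d| * M) := by gcongr
        _ ≤ M * (2 * Real.pi * |d|) := by nlinarith [mul_pos hd1 hM]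
    calc x * ((Real.sin (2 * Real.pi * d * (2 * T)) -
          Real.sin (2 * Real.pi * d * T)) / (2 * Real.pi * d)) ≤
          |x * ((Real.sin (2 * Real.pi * d * (2 * T)) -
          Real.sin (2 * Real.pi * d * T)) / (2 * Real.pi * d))| := le_abs_self _
      _ ≤ 1 * (M / |(m : ℝ) - n|) := by
          rw [abs_mul]
          gcongr
      _ = _ := one_mul _

theorem MTWO_harm (M : ℕ) : ∑ k ∈ Finset.Icc 1 M, 1 / (k : ℝ) ≤ 1 + Real.log M := by
  have h := harmonic_le_one_add_log M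
  have e : (harmonic M : ℝ) = ∑ n ∈ Finset.Icc 1 M, 1 / (n : ℝ) := by
    rw [harmonic_eq_sum_Icc]
    push_cast
    simp
  rw [← e]
  exact h

theorem MTWO_row (M m : ℕ) (hm : m ∈ Finset.Icc 1 M) (T : ℝ) (hT : 0 ≤ T) :
    ∑ n ∈ Finset.Icc 1 M, (if m = n then T else M / |(m : ℝ) - n|) ≤
      T + 2 * M * (1 + Real.log M) := by
  classical
  have hH := MTWO_harm M
  have h1 : ∑ n ∈ Finset.Icc 1 M, (if m = n then T else M / |(m : ℝ) - n|) ≤
      ∑ n ∈ Finset.Icc 1 M, ((if m = n then T else 0) +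
        ((if n < m then M * (1 / ((m - n : ℕ) : ℝ)) else 0) +
          (if m < n then M * (1 / ((n - m : ℕ) : ℝ)) else 0))) := by
    refine Finset.sum_le_sum fun n _ => ?_
    rcases lt_trichotomy n m with h | h | h
    · rw [if_neg h.ne', if_neg h.ne', if_pos h, if_neg (by omega), Nat.cast_sub h.le]
      have : (n : ℝ) < m := by exact_mod_cast h
      rw [abs_of_pos (by linarith)]
      simp [div_eq_mul_inv]
    · subst h
      simp
    · rw [if_neg h.ne, if_neg h.ne, if_neg (by omega), if_pos h, Nat.cast_sub h.le]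
      have : (m : ℝ) < n := by exact_mod_cast h
      rw [abs_of_neg (by linarith), neg_sub]
      simp [div_eq_mul_inv]
  refine h1.trans ?_
  rw [Finset.sum_add_distrib, Finset.sum_add_distrib, Finset.sum_ite_eq, if_pos hm,
    ← Finset.sum_filter, ← Finset.sum_filter, ← Finset.mul_sum, ← Finset.mul_sum]
  have h2 : ∑ n ∈ Finset.Icc 1 M with n < m, 1 / ((m - n : ℕ) : ℝ) ≤ 1 + Real.log M := by
    have e1 : ∑ n ∈ Finset.Icc 1 M with n < m, 1 / ((m - n : ℕ) : ℝ) =
        ∑ k ∈ (Finset.filter (fun n => n < m) (Finset.Icc 1 M)).image (fun n => m - n),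
          1 / (k : ℝ) := by
      rw [Finset.sum_image]
      intro a ha b hb hab
      simp only [Finset.coe_filter, Finset.mem_Icc, Set.mem_setOf_eq] at ha hb
      simp only at hab
      omega
    rw [e1]
    refine (Finset.sum_le_sum_of_subset_of_nonneg ?_ fun _ _ _ => by positivity).trans hH
    intro k hk
    rw [Finset.mem_image] at hk
    obtain ⟨n, hn, rfl⟩ := hk
    rw [Finset.mem_filter, Finset.mem_Icc] at hn
    rw [Finset.mem_Icc] at hm ⊢
    omega
  have h3 : ∑ n ∈ Finset.Icc 1 M with m < n, 1 / ((n - m : ℕ) : ℝ) ≤ 1 + Real.log M := by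
    have e1 : ∑ n ∈ Finset.Icc 1 M with m < n, 1 / ((n - m : ℕ) : ℝ) =
        ∑ k ∈ (Finset.filter (fun n => m < n) (Finset.Icc 1 M)).image (fun n => n - m),
          1 / (k : ℝ) := by
      rw [Finset.sum_image]
      intro a ha b hb hab
      simp only [Finset.coe_filter, Finset.mem_Icc, Set.mem_setOf_eq] at ha hb
      simp only at hab
      omega
    rw [e1]
    refine (Finset.sum_le_sum_of_subset_of_nonneg ?_ fun _ _ _ => by positivity).trans hH
    intro k hk
    rw [Finset.mem_image] at hk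
    obtain ⟨n, hn, rfl⟩ := hk
    rw [Finset.mem_filter, Finset.mem_Icc] at hn
    rw [Finset.mem_Icc] at hm ⊢
    omega
  have hM : (0 : ℝ) ≤ M := by positivity
  have h4 := mul_le_mul_of_nonneg_left h2 hM
  have h5 := mul_le_mul_of_nonneg_left h3 hM
  linarith

theorem MTWO_upper (M : ℕ) (a : ℕ → ℝ) (ha : ∀ n, |a n| ≤ 1) (T : ℝ) (hT : 0 ≤ T) :
    ∫ t in T..2 * T, ‖∑ n ∈ Finset.Icc 1 M, e (t * Real.log n) * (a n : ℝ)‖ ^ 2 ≤
      M * (T + 2 * M * (1 + Real.log M)) := by
  simp_rw [MTWO_normSq]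
  rw [intervalIntegral.integral_finsetSum (fun m _ =>
    (Continuous.intervalIntegrable (by fun_prop) _ _))]
  have h1 : ∀ m ∈ Finset.Icc 1 M, ∫ t in T..2 * T, ∑ n ∈ Finset.Icc 1 M, a m * a n *
      Real.cos (2 * Real.pi * (Real.log m - Real.log n) * t) ≤ T + 2 * M * (1 + Real.log M) := by
    intro m hm
    rw [intervalIntegral.integral_finsetSum (fun n _ =>
      (Continuous.intervalIntegrable (by fun_prop) _ _))]
    refine le_trans (Finset.sum_le_sum fun n hn => ?_) (MTWO_row M m hm T hT)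
    refine MTWO_term M m n T (a m * a n) hT ?_ hm hn
    rw [abs_mul]
    exact mul_le_one₀ (ha m) (abs_nonneg _) (ha n)
  calc _ ≤ ∑ m ∈ Finset.Icc 1 M, (T + 2 * M * (1 + Real.log M)) := Finset.sum_le_sum h1
    _ = _ := by
      rw [Finset.sum_const, Nat.card_Icc, Nat.add_sub_cancel, nsmul_eq_mul]

/-- the mean square of the Gaussian sums -/
theorem MTWO_gm : GM 2 (1 / 2) 0 (1 / 2) 1 (3 / 4) := by
  intro ε hε
  refine ⟨15, fun T hT M hM hMT N hN hNM => ?_⟩
  have hT0 : 0 < T := by linarith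
  have hM1 : (1 : ℝ) ≤ M := by exact_mod_cast hM
  have h1 := MTWO_upper M (fun n => Real.exp (-(Real.log n - Real.log N) ^ 2 / 4)) (fun n => by
    rw [abs_of_pos (Real.exp_pos _), Real.exp_le_one_iff]
    have := sq_nonneg (Real.log n - Real.log N)
    linarith) T hT0.le
  have e1 : ∀ t : ℝ, ‖gs M t (Real.log N)‖ ^ (2 : ℝ) = ‖∑ n ∈ Finset.Icc 1 M,
      e (t * Real.log n) * (Real.exp (-(Real.log n - Real.log N) ^ 2 / 4) : ℝ)‖ ^ 2 := by
    intro t
    rw [Real.rpow_two]
    rfl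
  simp_rw [e1]
  refine h1.trans ?_
  have e2 : (1 / 2 : ℝ) * 2 = 1 := by norm_num
  have e3 : (2 : ℝ) * 0 = 0 := by norm_num
  rw [e2, e3, Real.rpow_zero, Real.rpow_one, mul_one]
  have h2 : T ≤ T ^ (1 + ε) := by
    calc T = T ^ (1 : ℝ) := (Real.rpow_one T).symm
      _ ≤ T ^ (1 + ε) := Real.rpow_le_rpow_of_exponent_le hT (by linarith)
  have hMT' : (M : ℝ) ≤ T ^ (3 / 4 : ℝ) := by simpa using hMT
  have h3 : 1 + Real.log M ≤ 5 * T ^ (1 / 4 : ℝ) := by
    have h4 : Real.log M ≤ Real.log T := by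
      refine Real.log_le_log (by linarith) (hMT'.trans ?_)
      calc T ^ (3 / 4 : ℝ) ≤ T ^ (1 : ℝ) :=
            Real.rpow_le_rpow_of_exponent_le hT (by norm_num)
        _ = T := Real.rpow_one T
    have h5 := Real.log_le_rpow_div hT0.le (by norm_num : (0 : ℝ) < 1 / 4)
    have h6 : 1 ≤ T ^ (1 / 4 : ℝ) := Real.one_le_rpow hT (by norm_num)
    have h7 : T ^ (1 / 4 : ℝ) / (1 / 4) = 4 * T ^ (1 / 4 : ℝ) := by ring
    rw [h7] at h5
    linarith
  have h4 : (M : ℝ) * (1 + Real.log M) ≤ 5 * T := by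
    have h5 : 0 ≤ Real.log M := Real.log_nonneg hM1
    calc (M : ℝ) * (1 + Real.log M) ≤ T ^ (3 / 4 : ℝ) * (5 * T ^ (1 / 4 : ℝ)) := by gcongr
      _ = 5 * (T ^ (3 / 4 : ℝ) * T ^ (1 / 4 : ℝ)) := by ring
      _ = 5 * T := by
        rw [← Real.rpow_add hT0]
        norm_num
  nlinarith

/-- the mean square of zeta, from `M_Z` -/
theorem MTWO_zm (hZ : M_Z) : ZM 2 0 :=
  hZ 2 0 1 (3 / 4) (by norm_num) le_rfl one_pos (by norm_num) (by norm_num) MTWO_gm

end Pool.Agent.Ben
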