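import Pool.Agent.Ben.Targets9
import Pool.Agent.Ben.P_MTWO

/-!
# Ben: the fourth moment of the Gaussian sums
-/

set_option autoImplicit false

namespace Pool.Agent.Ben

open Complex MeasureTheory Set

private theorem MGF_two_pow_ge (k : ℕ) : ((k + 1 : ℕ) : ℝ) ≤ 2 ^ k := by
  have h : k + 1 ≤ 2 ^ k := Nat.lt_two_pow_self
  exact_mod_cast h

private theorem MGF_small (ε : ℝ) (hε : 0 < ε) : ∃ K : ℝ, 1 ≤ K ∧ ∀ k : ℕ,
    ((k + 1 : ℕ) : ℝ) ≤ K * ((2 : ℝ) ^ k) ^ ε := by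
  have hl : 0 < Real.log 2 := Real.log_pos one_lt_two
  refine ⟨max 1 (1 / (ε * Real.log 2)), le_max_left _ _, fun k => ?_⟩
  set K := max 1 (1 / (ε * Real.log 2)) with hK
  have h1 : ((2 : ℝ) ^ k) ^ ε = Real.exp (k * (ε * Real.log 2)) := by
    rw [Real.rpow_def_of_pos (by positivity), Real.log_pow]
    congr 1
    ring
  have h2 : (k : ℝ) * (ε * Real.log 2) + 1 ≤ Real.exp (k * (ε * Real.log 2)) :=
    Real.add_one_le_exp _
  have h3 : 1 ≤ K := le_max_left _ _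
  have h4 : 1 ≤ K * (ε * Real.log 2) := by
    have h5 : 1 / (ε * Real.log 2) ≤ K := le_max_right _ _
    rwa [div_le_iff₀ (by positivity)] at h5
  rw [h1]
  have h5 : K * ((k : ℝ) * (ε * Real.log 2) + 1) ≤ K * Real.exp (k * (ε * Real.log 2)) :=
    mul_le_mul_of_nonneg_left h2 (by linarith)
  have h6 : (k : ℝ) ≤ k * (K * (ε * Real.log 2)) := by
    have hk : (0 : ℝ) ≤ k := Nat.cast_nonneg k
    nlinarith
  push_cast
  nlinarith

private theorem MGF_tau (ε : ℝ) (hε : 0 < ε) : ∃ C : ℝ, 0 < C ∧ ∀ n : ℕ, 1 ≤ n →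
    (n.divisors.card : ℝ) ≤ C * (n : ℝ) ^ ε := by
  classical
  obtain ⟨K, hK1, hK⟩ := MGF_small ε hε
  obtain ⟨N, hN⟩ := exists_nat_ge ((2 : ℝ) ^ (1 / ε))
  refine ⟨K ^ N, by positivity, fun n hn => ?_⟩
  have hn0 : n ≠ 0 := by omega
  have key : ∀ p ∈ n.primeFactors, ((n.factorization p + 1 : ℕ) : ℝ) ≤
      (if p < N then K else 1) * ((p : ℝ) ^ (n.factorization p)) ^ ε := by
    intro p hp
    have hp2 : 2 ≤ p := (Nat.prime_of_mem_primeFactors hp).two_le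
    have hp2' : (2 : ℝ) ≤ p := by exact_mod_cast hp2
    set k := n.factorization p
    by_cases h : p < N
    · rw [if_pos h]
      refine (hK k).trans ?_
      gcongr
    · rw [if_neg h, one_mul]
      push Not at h
      have h1 : (2 : ℝ) ^ (1 / ε) ≤ p := hN.trans (by exact_mod_cast h)
      have h2 : (2 : ℝ) ≤ (p : ℝ) ^ ε := by
        calc (2 : ℝ) = ((2 : ℝ) ^ (1 / ε)) ^ ε := by
              rw [← Real.rpow_mul (by norm_num), one_div, inv_mul_cancel₀ hε.ne', Real.rpow_one]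
          _ ≤ _ := Real.rpow_le_rpow (by positivity) h1 hε.le
      calc ((k + 1 : ℕ) : ℝ) ≤ 2 ^ k := MGF_two_pow_ge k
        _ ≤ ((p : ℝ) ^ ε) ^ k := pow_le_pow_left₀ (by norm_num) h2 k
        _ = _ := by
            rw [← Real.rpow_natCast, ← Real.rpow_mul (by positivity), ← Real.rpow_natCast,
              ← Real.rpow_mul (by positivity), mul_comm]
  have hcard : (n.divisors.card : ℝ) =
      ∏ p ∈ n.primeFactors, ((n.factorization p + 1 : ℕ) : ℝ) := by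
    rw [Nat.card_divisors hn0]
    push_cast
    rfl
  have hprod : ∏ p ∈ n.primeFactors, ((p : ℝ) ^ (n.factorization p)) ^ ε = (n : ℝ) ^ ε := by
    rw [Real.finsetProd_rpow _ _ (fun p _ => by positivity)]
    congr 1
    have h := Nat.prod_factorization_pow_eq_self hn0
    have h' : ((∏ p ∈ n.primeFactors, p ^ n.factorization p : ℕ) : ℝ) = n := by
      exact_mod_cast congrArg (Nat.cast (R := ℝ)) h
    rw [← h']
    push_cast
    rfl
  have hK' : ∏ p ∈ n.primeFactors, (if p < N then K else 1) ≤ K ^ N := by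
    rw [← Finset.prod_filter, Finset.prod_const]
    refine pow_le_pow_right₀ hK1 ?_
    calc (n.primeFactors.filter (fun p => p < N)).card ≤ (Finset.range N).card := by
          refine Finset.card_le_card ?_
          intro p hp
          exact Finset.mem_range.2 (Finset.mem_filter.1 hp).2
      _ = N := Finset.card_range N
  rw [hcard]
  calc ∏ p ∈ n.primeFactors, ((n.factorization p + 1 : ℕ) : ℝ)
      ≤ ∏ p ∈ n.primeFactors, ((if p < N then K else 1) * ((p : ℝ) ^ (n.factorization p)) ^ ε) :=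
        Finset.prod_le_prod (fun p _ => by positivity) key
    _ = (∏ p ∈ n.primeFactors, (if p < N then K else 1)) * (n : ℝ) ^ ε := by
        rw [Finset.prod_mul_distrib, hprod]
    _ ≤ K ^ N * (n : ℝ) ^ ε := mul_le_mul_of_nonneg_right hK' (by positivity)

/-- the coefficients of the square -/
private noncomputable def MGF_c (M : ℕ) (w : ℕ → ℝ) (k : ℕ) : ℝ :=
  ∑ p ∈ Finset.filter (fun p : ℕ × ℕ => p.1 * p.2 = k) (Finset.Icc 1 M ×ˢ Finset.Icc 1 M),
    w p.1 * w p.2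

private theorem MGF_sq (M : ℕ) (w : ℕ → ℝ) (t : ℝ) :
    (∑ n ∈ Finset.Icc 1 M, e (t * Real.log n) * (w n : ℝ)) ^ 2 =
      ∑ k ∈ Finset.Icc 1 (M * M), e (t * Real.log k) * (MGF_c M w k : ℝ) := by
  rw [sq, Finset.sum_mul_sum, ← Finset.sum_product']
  rw [← Finset.sum_fiberwise_of_maps_to (g := fun p : ℕ × ℕ => p.1 * p.2)
    (t := Finset.Icc 1 (M * M))]
  · refine Finset.sum_congr rfl fun k hk => ?_
    unfold MGF_c
    push_cast
    rw [Finset.mul_sum]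
    refine Finset.sum_congr rfl fun p hp => ?_
    rw [Finset.mem_filter, Finset.mem_product, Finset.mem_Icc, Finset.mem_Icc] at hp
    obtain ⟨⟨h1, h2⟩, h3⟩ := hp
    have h4 : (p.1 : ℝ) ≠ 0 := by
      have : p.1 ≠ 0 := by omega
      exact_mod_cast this
    have h5 : (p.2 : ℝ) ≠ 0 := by
      have : p.2 ≠ 0 := by omega
      exact_mod_cast this
    have h6 : e (t * Real.log k) = e (t * Real.log p.1) * e (t * Real.log p.2) := by
      rw [← h3]
      unfold e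
      rw [← Complex.exp_add]
      congr 1
      push_cast
      rw [← Nat.cast_mul, Nat.cast_mul, Real.log_mul h4 h5]
      push_cast
      ring
    rw [h6]
    ring
  · intro p hp
    rw [Finset.mem_product, Finset.mem_Icc, Finset.mem_Icc] at hp
    rw [Finset.mem_Icc]
    exact ⟨Nat.mul_pos hp.1.1 hp.2.1, Nat.mul_le_mul hp.1.2 hp.2.2⟩

private theorem MGF_bound (M : ℕ) (w : ℕ → ℝ) (hw0 : ∀ n, 0 ≤ w n) (hw1 : ∀ n, w n ≤ 1)
    (ε K : ℝ) (hε : 0 < ε) (hK : 0 < K)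
    (hd : ∀ n : ℕ, 1 ≤ n → (n.divisors.card : ℝ) ≤ K * (n : ℝ) ^ ε) (k : ℕ) :
    |MGF_c M w k| ≤ K * ((M : ℝ) * M) ^ ε := by
  have h0 : 0 ≤ MGF_c M w k := Finset.sum_nonneg fun p _ => mul_nonneg (hw0 _) (hw0 _)
  rw [abs_of_nonneg h0]
  by_cases hk : 1 ≤ k ∧ k ≤ M * M
  · have h1 : MGF_c M w k ≤ (Finset.filter (fun p : ℕ × ℕ => p.1 * p.2 = k)
        (Finset.Icc 1 M ×ˢ Finset.Icc 1 M)).card := by
      unfold MGF_c
      refine (Finset.sum_le_card_nsmul _ _ 1 fun p _ => ?_).trans (by simp)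
      exact mul_le_one₀ (hw1 _) (hw0 _) (hw1 _)
    have h2 : (Finset.filter (fun p : ℕ × ℕ => p.1 * p.2 = k)
        (Finset.Icc 1 M ×ˢ Finset.Icc 1 M)).card ≤ k.divisors.card := by
      refine Finset.card_le_card_of_injOn (fun p => p.1) ?_ ?_
      · intro p hp
        have hp' := Finset.mem_filter.1 (Finset.mem_coe.1 hp)
        refine Finset.mem_coe.2 (Nat.mem_divisors.2 ⟨⟨p.2, hp'.2.symm⟩, by omega⟩)
      · intro p hp q hq hpq
        have hp' := Finset.mem_filter.1 (Finset.mem_coe.1 hp)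
        have hq' := Finset.mem_filter.1 (Finset.mem_coe.1 hq)
        have h3 := (Finset.mem_Icc.1 (Finset.mem_product.1 hp'.1).1).1
        simp only at hpq
        have h4 : p.1 * p.2 = p.1 * q.2 := by rw [hp'.2, hpq, hq'.2]
        exact Prod.ext hpq (Nat.eq_of_mul_eq_mul_left h3 h4)
    have h3 : (k.divisors.card : ℝ) ≤ K * (k : ℝ) ^ ε := hd k hk.1
    have h4 : (k : ℝ) ^ ε ≤ ((M : ℝ) * M) ^ ε := by
      refine Real.rpow_le_rpow (by positivity) ?_ hε.le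
      exact_mod_cast hk.2
    have h5 : ((Finset.filter (fun p : ℕ × ℕ => p.1 * p.2 = k)
        (Finset.Icc 1 M ×ˢ Finset.Icc 1 M)).card : ℝ) ≤ k.divisors.card := by exact_mod_cast h2
    exact h1.trans (h5.trans (h3.trans (mul_le_mul_of_nonneg_left h4 hK.le)))
  · have h1 : MGF_c M w k = 0 := by
      unfold MGF_c
      rw [Finset.sum_eq_zero]
      intro p hp
      exfalso
      rw [Finset.mem_filter, Finset.mem_product, Finset.mem_Icc, Finset.mem_Icc] at hp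
      obtain ⟨⟨h1, h2⟩, h3⟩ := hp
      apply hk
      rw [← h3]
      exact ⟨Nat.mul_pos h1.1 h2.1, Nat.mul_le_mul h1.2 h2.2⟩
    rw [h1]
    positivity

private theorem MGF_int (M : ℕ) (w : ℕ → ℝ) (hw0 : ∀ n, 0 ≤ w n) (hw1 : ∀ n, w n ≤ 1)
    (ε K : ℝ) (hε : 0 < ε) (hK : 0 < K) (hM : 1 ≤ M)
    (hd : ∀ n : ℕ, 1 ≤ n → (n.divisors.card : ℝ) ≤ K * (n : ℝ) ^ ε) (T : ℝ) (hT : 0 ≤ T) :
    ∫ t in T..2 * T, ‖∑ n ∈ Finset.Icc 1 M, e (t * Real.log n) * (w n : ℝ)‖ ^ 4 ≤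
      (K * ((M : ℝ) * M) ^ ε) ^ 2 * (((M : ℝ) * M) * (T + 2 * ((M : ℝ) * M) *
        (1 + Real.log ((M : ℝ) * M)))) := by
  set D : ℝ := K * ((M : ℝ) * M) ^ ε with hD
  have hM0 : (0 : ℝ) < M := by exact_mod_cast hM
  have hD0 : 0 < D := by positivity
  have h1 := MTWO_upper (M * M) (fun k => MGF_c M w k / D) (fun k => by
    rw [abs_div, abs_of_pos hD0, div_le_one hD0]
    exact MGF_bound M w hw0 hw1 ε K hε hK hd k) T hT
  have h2 : ∀ t : ℝ, ‖∑ n ∈ Finset.Icc 1 M, e (t * Real.log n) * (w n : ℝ)‖ ^ 4 =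
      D ^ 2 * ‖∑ n ∈ Finset.Icc 1 (M * M), e (t * Real.log n) *
        ((MGF_c M w n / D : ℝ) : ℂ)‖ ^ 2 := by
    intro t
    have h3 : ∑ k ∈ Finset.Icc 1 (M * M), e (t * Real.log k) * (MGF_c M w k : ℝ) =
        (D : ℂ) * ∑ n ∈ Finset.Icc 1 (M * M), e (t * Real.log n) *
        ((MGF_c M w n / D : ℝ) : ℂ) := by
      rw [Finset.mul_sum]
      refine Finset.sum_congr rfl fun k _ => ?_
      have hD1 : (D : ℂ) ≠ 0 := by exact_mod_cast hD0.ne'
      push_cast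
      field_simp
    have h4 : ‖∑ n ∈ Finset.Icc 1 M, e (t * Real.log n) * (w n : ℝ)‖ ^ 4 =
        ‖(∑ n ∈ Finset.Icc 1 M, e (t * Real.log n) * (w n : ℝ)) ^ 2‖ ^ 2 := by
      rw [norm_pow]
      ring
    rw [h4, MGF_sq, h3, norm_mul, mul_pow, Complex.norm_real, Real.norm_eq_abs, sq_abs]
  simp_rw [h2]
  rw [intervalIntegral.integral_const_mul]
  have h3 : ((M * M : ℕ) : ℝ) = (M : ℝ) * M := by push_cast; ring
  rw [h3] at h1
  exact mul_le_mul_of_nonneg_left h1 (by positivity)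

theorem p_MGF : M_GF := by
  intro β hβ0 hβ1 ε hε
  obtain ⟨K, hK, hd⟩ := MGF_tau (ε / 8) (by positivity)
  refine ⟨K ^ 2 * (1 + 2 * (1 + 2 / (ε / 2))), fun T hT M hM hMT N hN hNM => ?_⟩
  have hT0 : 0 < T := by linarith
  have hM1 : (1 : ℝ) ≤ M := by exact_mod_cast hM
  have hMT' : (M : ℝ) ≤ T ^ β := by simpa using hMT
  have hMT1 : (M : ℝ) ≤ T := hMT'.trans (by
    calc T ^ β ≤ T ^ (1 : ℝ) := Real.rpow_le_rpow_of_exponent_le hT hβ1
      _ = T := Real.rpow_one T)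
  have h1 := MGF_int M (fun n => Real.exp (-(Real.log n - Real.log N) ^ 2 / 4))
    (fun n => (Real.exp_pos _).le) (fun n => by
      rw [Real.exp_le_one_iff]
      have := sq_nonneg (Real.log n - Real.log N)
      linarith) (ε / 8) K (by positivity) hK hM hd T hT0.le
  have e1 : ∀ t : ℝ, ‖gs M t (Real.log N)‖ ^ (4 : ℝ) = ‖∑ n ∈ Finset.Icc 1 M,
      e (t * Real.log n) * (Real.exp (-(Real.log n - Real.log N) ^ 2 / 4) : ℝ)‖ ^ 4 := by
    intro t
    rw [show (4 : ℝ) = ((4 : ℕ) : ℝ) by norm_num, Real.rpow_natCast]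
    rfl
  simp_rw [e1]
  refine h1.trans ?_
  set a : ℝ := max 0 ((2 * β - 1) / 4) with ha
  have ha0 : 0 ≤ a := le_max_left _ _
  have ha1 : (2 * β - 1) / 4 ≤ a := le_max_right _ _
  have e2 : (1 / 2 : ℝ) * 4 = 2 := by norm_num
  rw [e2, Real.rpow_two]
  -- the factor of the divisor bound
  have h2 : (K * ((M : ℝ) * M) ^ (ε / 8)) ^ 2 ≤ K ^ 2 * T ^ (ε / 2) := by
    rw [mul_pow]
    refine mul_le_mul_of_nonneg_left ?_ (by positivity)
    calc (((M : ℝ) * M) ^ (ε / 8)) ^ 2 ≤ ((T * T) ^ (ε / 8)) ^ 2 := by gcongr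
      _ = T ^ (ε / 2) := by
        rw [Real.mul_rpow hT0.le hT0.le, ← Real.rpow_add hT0, ← Real.rpow_natCast,
          ← Real.rpow_mul hT0.le]
        congr 1
        push_cast
        ring
  have h3 : (M : ℝ) * M ≤ T ^ (1 + 4 * a) := by
    calc (M : ℝ) * M ≤ T ^ β * T ^ β := by gcongr
      _ = T ^ (β + β) := (Real.rpow_add hT0 _ _).symm
      _ ≤ T ^ (1 + 4 * a) := Real.rpow_le_rpow_of_exponent_le hT (by linarith)
  have h4 : 1 + Real.log ((M : ℝ) * M) ≤ (1 + 2 / (ε / 2)) * T ^ (ε / 2) := by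
    have h5 : Real.log ((M : ℝ) * M) ≤ 2 * Real.log T := by
      rw [Real.log_mul (by linarith) (by linarith)]
      have := Real.log_le_log (by linarith) hMT1
      linarith
    have h6 := Real.log_le_rpow_div hT0.le (by positivity : (0 : ℝ) < ε / 2)
    have h7 : 1 ≤ T ^ (ε / 2) := Real.one_le_rpow hT (by positivity)
    have h8 : (1 + 2 / (ε / 2)) * T ^ (ε / 2) = T ^ (ε / 2) + 2 * (T ^ (ε / 2) / (ε / 2)) := by
      ring
    rw [h8]
    linarith
  have h5 : T ≤ T ^ (1 + 4 * a) * T ^ (ε / 2) := by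
    rw [← Real.rpow_add hT0]
    calc T = T ^ (1 : ℝ) := (Real.rpow_one T).symm
      _ ≤ _ := Real.rpow_le_rpow_of_exponent_le hT (by linarith)
  have h6 : 0 ≤ Real.log ((M : ℝ) * M) := Real.log_nonneg (by nlinarith)
  have hc : 0 < 2 / (ε / 2) := by positivity
  have h7 : T + 2 * ((M : ℝ) * M) * (1 + Real.log ((M : ℝ) * M)) ≤
      (1 + 2 * (1 + 2 / (ε / 2))) * (T ^ (1 + 4 * a) * T ^ (ε / 2)) := by
    have h8 : ((M : ℝ) * M) * (1 + Real.log ((M : ℝ) * M)) ≤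
        T ^ (1 + 4 * a) * ((1 + 2 / (ε / 2)) * T ^ (ε / 2)) := by
      refine mul_le_mul h3 h4 (by positivity) (by positivity)
    nlinarith [h8, h5]
  have h8 : T ^ (ε / 2) * (T ^ (1 + 4 * a) * T ^ (ε / 2)) = T ^ (4 * a) * T ^ (1 + ε) := by
    rw [← Real.rpow_add hT0, ← Real.rpow_add hT0, ← Real.rpow_add hT0]
    congr 1
    ring
  calc (K * ((M : ℝ) * M) ^ (ε / 8)) ^ 2 * (((M : ℝ) * M) * (T + 2 * ((M : ℝ) * M) *
        (1 + Real.log ((M : ℝ) * M)))) ≤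
      (K ^ 2 * T ^ (ε / 2)) * (((M : ℝ) * M) *
        ((1 + 2 * (1 + 2 / (ε / 2))) * (T ^ (1 + 4 * a) * T ^ (ε / 2)))) := by
        have : 0 ≤ T + 2 * ((M : ℝ) * M) * (1 + Real.log ((M : ℝ) * M)) := by positivity
        gcongr
    _ = K ^ 2 * (1 + 2 * (1 + 2 / (ε / 2))) * ((M : ℝ) ^ 2 *
          (T ^ (ε / 2) * (T ^ (1 + 4 * a) * T ^ (ε / 2)))) := by ring
    _ = K ^ 2 * (1 + 2 * (1 + 2 / (ε / 2))) * ((M : ℝ) ^ 2 * T ^ (4 * a)) * T ^ (1 + ε) := by
        rw [h8]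
        ring
    _ ≤ _ := by
        have h9 : (M : ℝ) ^ 2 * T ^ (4 * a) ≤ (M : ℝ) ^ 2 * T ^ (4 * a) + (M : ℝ) ^ 2 := by
          have := sq_nonneg (M : ℝ)
          linarith
        gcongr

end Pool.Agent.Ben
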