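import Pool.Agent.Ben.Targets8

/-!
# Ben-MHIGH: the frequencies above the lowest one, in the mean of order `q`
-/

set_option autoImplicit false

namespace Pool.Agent.Ben

open MeasureTheory Set

private theorem MHIGH_w_pos (u : ℝ) : 0 < w u := Real.exp_pos _

private theorem MHIGH_w_int : Integrable w := by
  have h : (0 : ℝ) < 4 * Real.pi ^ 2 := by positivity
  have := integrable_exp_neg_mul_sq h
  refine this.congr (Filter.Eventually.of_forall fun u => ?_)
  unfold w
  ring_nf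

private theorem MHIGH_wk_int (k : ℕ) : Integrable fun u : ℝ => u ^ (2 * k) * w u := by
  have h : (0 : ℝ) < 4 * Real.pi ^ 2 := by positivity
  have h2 : (-1 : ℝ) < ((2 * k : ℕ) : ℝ) := by
    have : (0 : ℝ) ≤ ((2 * k : ℕ) : ℝ) := Nat.cast_nonneg _
    linarith
  have := integrable_rpow_mul_exp_neg_mul_sq h (s := ((2 * k : ℕ) : ℝ)) h2
  refine this.congr (Filter.Eventually.of_forall fun u => ?_)
  unfold w
  simp only [Real.rpow_natCast]
  ring_nf

private theorem MHIGH_w_mass : 2 * √Real.pi * ∫ u : ℝ, w u = 1 := by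
  have hpi := Real.pi_pos
  have h1 : ∫ u : ℝ, w u = √(Real.pi / (4 * Real.pi ^ 2)) := by
    rw [← integral_gaussian]
    refine integral_congr_ae (Filter.Eventually.of_forall fun u => ?_)
    simp only [w]
    ring_nf
  have h2 : Real.pi / (4 * Real.pi ^ 2) = 1 / (4 * Real.pi) := by
    field_simp
  rw [h1, h2]
  have h3 : 2 * √Real.pi = √(4 * Real.pi) := by
    rw [Real.sqrt_mul (by norm_num), show (4 : ℝ) = 2 ^ 2 by norm_num,
      Real.sqrt_sq (by norm_num)]
  rw [h3, ← Real.sqrt_mul (by positivity), mul_one_div_cancel (by positivity), Real.sqrt_one]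

/-- Jensen's inequality for the weight `w` -/
private theorem MHIGH_jensen {q : ℝ} (hq : 1 ≤ q) {f : ℝ → ℝ} (hf : ∀ u, 0 ≤ f u)
    (h1 : Integrable fun u => f u * w u) (h2 : Integrable fun u => f u ^ q * w u) :
    (2 * √Real.pi * ∫ u : ℝ, f u * w u) ^ q ≤ 2 * √Real.pi * ∫ u : ℝ, f u ^ q * w u := by
  have hw := MHIGH_w_mass
  set y : ℝ := 2 * √Real.pi * ∫ u : ℝ, f u * w u with hy
  have hy0 : 0 ≤ y := by
    have : 0 ≤ ∫ u : ℝ, f u * w u := integral_nonneg fun u => mul_nonneg (hf u) (MHIGH_w_pos u).le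
    positivity
  have hr0 : 0 ≤ ∫ u : ℝ, f u ^ q * w u := integral_nonneg fun u =>
    mul_nonneg (Real.rpow_nonneg (hf u) _) (MHIGH_w_pos u).le
  rcases hy0.eq_or_lt with h0 | h0
  · rw [← h0, Real.zero_rpow (by linarith)]
    positivity
  have key : ∀ u, y ^ q * ((1 - q) + q / y * f u) * w u ≤ f u ^ q * w u := by
    intro u
    refine mul_le_mul_of_nonneg_right ?_ (MHIGH_w_pos u).le
    have hb := one_add_mul_self_le_rpow_one_add (s := f u / y - 1) (by
      have : 0 ≤ f u / y := div_nonneg (hf u) h0.le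
      linarith) hq
    rw [add_sub_cancel, Real.div_rpow (hf u) h0.le, le_div_iff₀ (Real.rpow_pos_of_pos h0 _)] at hb
    calc y ^ q * ((1 - q) + q / y * f u) = (1 + q * (f u / y - 1)) * y ^ q := by ring
      _ ≤ f u ^ q := hb
  have hi : Integrable fun u : ℝ => y ^ q * ((1 - q) + q / y * f u) * w u := by
    have e1 := (MHIGH_w_int.const_mul (y ^ q * (1 - q))).add (h1.const_mul (y ^ q * (q / y)))
    refine e1.congr (Filter.Eventually.of_forall fun u => ?_)
    simp only [Pi.add_apply]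
    ring
  have hm := integral_mono hi h2 key
  have hI : ∫ u : ℝ, y ^ q * ((1 - q) + q / y * f u) * w u =
      y ^ q * (1 - q) * (∫ u : ℝ, w u) + y ^ q * (q / y) * ∫ u : ℝ, f u * w u := by
    rw [← integral_const_mul, ← integral_const_mul, ← integral_add
      (MHIGH_w_int.const_mul _) (h1.const_mul _)]
    refine integral_congr_ae (Filter.Eventually.of_forall fun u => ?_)
    simp only
    ring
  have hpi : 0 < 2 * √Real.pi := by
    have := Real.pi_pos
    positivity
  have hfin : 2 * √Real.pi * ∫ u : ℝ, y ^ q * ((1 - q) + q / y * f u) * w u = y ^ q := by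
    rw [hI]
    calc 2 * √Real.pi * (y ^ q * (1 - q) * (∫ u : ℝ, w u) +
          y ^ q * (q / y) * ∫ u : ℝ, f u * w u) =
          y ^ q * (1 - q) * (2 * √Real.pi * ∫ u : ℝ, w u) +
            y ^ q * (q / y) * (2 * √Real.pi * ∫ u : ℝ, f u * w u) := by ring
      _ = y ^ q * (1 - q) * 1 + y ^ q * (q / y) * y := by rw [hw, ← hy]
      _ = y ^ q := by
          field_simp
          ring
  rw [← hfin]
  exact mul_le_mul_of_nonneg_left hm hpi.le

/-- exchange of the integrals -/
private theorem MHIGH_swap {g : ℝ → ℝ} (hg : Continuous g) {B : ℝ} (hB : ∀ s, |g s| ≤ B)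
    (h c T : ℝ) (hT : 0 ≤ T) :
    IntervalIntegrable (fun t => ∫ u : ℝ, g (h * t + c * u) * w u) volume T (2 * T) ∧
    (Integrable fun u : ℝ => (∫ t in T..(2 * T), g (h * t + c * u)) * w u) ∧
    ∫ t in T..(2 * T), (∫ u : ℝ, g (h * t + c * u) * w u) =
      ∫ u : ℝ, (∫ t in T..(2 * T), g (h * t + c * u)) * w u := by
  have hle : T ≤ 2 * T := by linarith
  have hcw : Continuous w := by
    unfold w
    fun_prop
  have hI : Integrable (Function.uncurry fun t u : ℝ => g (h * t + c * u) * w u)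
      ((volume.restrict (Ioc T (2 * T))).prod volume) := by
    have h1 : Integrable (fun z : ℝ × ℝ => (1 : ℝ) * w z.2)
        ((volume.restrict (Ioc T (2 * T))).prod volume) := by
      refine Integrable.mul_prod (f := fun _ : ℝ => (1 : ℝ)) (g := w) ?_ MHIGH_w_int
      exact integrable_const _
    have h2 : Integrable (fun z : ℝ × ℝ => g (h * z.1 + c * z.2) * ((1 : ℝ) * w z.2))
        ((volume.restrict (Ioc T (2 * T))).prod volume) := by
      refine Integrable.bdd_mul (c := B) h1 ?_ (Filter.Eventually.of_forall fun z => hB _)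
      exact (hg.comp (by fun_prop)).aestronglyMeasurable
    refine h2.congr (Filter.Eventually.of_forall fun z => ?_)
    simp only [Function.uncurry, one_mul]
  refine ⟨?_, ?_, ?_⟩
  · rw [intervalIntegrable_iff_integrableOn_Ioc_of_le hle]
    exact hI.integral_prod_left
  · have h3 := hI.integral_prod_right
    refine h3.congr (Filter.Eventually.of_forall fun u => ?_)
    simp only [Function.uncurry]
    rw [intervalIntegral.integral_of_le hle, integral_mul_const]
  · rw [intervalIntegral.integral_of_le hle, integral_integral_swap hI]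
    refine integral_congr_ae (Filter.Eventually.of_forall fun u => ?_)
    simp only
    rw [intervalIntegral.integral_of_le hle, integral_mul_const]

private theorem MHIGH_norm_e (x : ℝ) : ‖e x‖ = 1 := by
  unfold e
  exact Complex.norm_exp_ofReal_mul_I _

private theorem MHIGH_cont_e : Continuous e := by
  unfold e
  fun_prop

/-- the terms beyond `N₀ t ^ d` contribute at most `N₀ / t` -/
private theorem MHIGH_cut (hT : T_TAIL) (d : ℝ) (hd : 0 < d) :
    ∃ T₀ : ℝ, ∀ t N₀ α : ℝ, T₀ ≤ t → 1 ≤ t → 1 ≤ N₀ → 1 ≤ α → ∀ c : ℕ → ℂ,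
      (∀ n, ‖c n‖ = 1) → ∀ M : ℕ,
      ‖∑ n ∈ Finset.Icc 1 M, c n *
          (Real.exp (-(α * (Real.log n - Real.log N₀)) ^ 2 / 4) : ℝ)‖ ≤
        ‖∑ n ∈ Finset.Icc 1 (min M ⌈N₀ * t ^ d⌉₊), c n *
          (Real.exp (-(α * (Real.log n - Real.log N₀)) ^ 2 / 4) : ℝ)‖ + N₀ / t := by
  obtain ⟨T₀, hT₀⟩ := hT d hd
  refine ⟨T₀, fun t N₀ α htT ht hN hα c hc M => ?_⟩
  set K : ℕ := ⌈N₀ * t ^ d⌉₊ with hK
  have hNt : 0 ≤ N₀ / t := by positivity
  rcases le_total M K with h | h
  · rw [min_eq_left h]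
    linarith
  rw [min_eq_right h]
  have hle : N₀ * t ^ d ≤ (K : ℝ) + 1 := (Nat.le_ceil _).trans (by linarith)
  obtain ⟨hs, hb⟩ := hT₀ t N₀ htT hN K hle
  set f : ℕ → ℂ := fun n => c n *
    (Real.exp (-(α * (Real.log n - Real.log N₀)) ^ 2 / 4) : ℝ) with hf
  have h1 : ∑ n ∈ Finset.Icc 1 M, f n =
      ∑ n ∈ Finset.Icc 1 K, f n + ∑ i ∈ Finset.range (M - K), f (K + 1 + i) := by
    have e1 : ∀ L : ℕ, Finset.Icc 1 L = Finset.Ioc 0 L := fun L => by
      ext n
      simp only [Finset.mem_Icc, Finset.mem_Ioc]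
      omega
    have e2 : Finset.Ioc K M = Finset.Ico (K + 1) (M + 1) := by
      ext n
      simp only [Finset.mem_Ico, Finset.mem_Ioc]
      omega
    rw [e1, e1, ← Finset.sum_Ioc_consecutive f (Nat.zero_le K) h, e2,
      Finset.sum_Ico_eq_sum_range, Nat.add_sub_add_right]
  rw [h1]
  refine (norm_add_le _ _).trans (add_le_add le_rfl ?_)
  calc ‖∑ i ∈ Finset.range (M - K), f (K + 1 + i)‖
      ≤ ∑ i ∈ Finset.range (M - K), ‖f (K + 1 + i)‖ := norm_sum_le _ _
    _ ≤ ∑ i ∈ Finset.range (M - K),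
        Real.exp (-(Real.log ((i : ℝ) + K + 1) - Real.log N₀) ^ 2 / 4) := by
        refine Finset.sum_le_sum fun i _ => ?_
        simp only [hf]
        rw [norm_mul, hc, one_mul, Complex.norm_real, Real.norm_of_nonneg (Real.exp_pos _).le]
        refine Real.exp_le_exp.2 ?_
        have e3 : (((K + 1 + i : ℕ) : ℝ)) = (i : ℝ) + K + 1 := by
          push_cast
          ring
        rw [e3]
        have h2 : (Real.log ((i : ℝ) + K + 1) - Real.log N₀) ^ 2 ≤
            (α * (Real.log ((i : ℝ) + K + 1) - Real.log N₀)) ^ 2 := by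
          rw [mul_pow]
          exact le_mul_of_one_le_left (sq_nonneg _) (one_le_pow₀ hα)
        linarith
    _ ≤ ∑' i : ℕ, Real.exp (-(Real.log ((i : ℝ) + K + 1) - Real.log N₀) ^ 2 / 4) :=
        hs.sum_le_tsum _ fun i _ => (Real.exp_pos _).le
    _ ≤ N₀ / t := hb

/-- `M' ^ (s q) ≤ 2 ^ q N₀ ^ (s q) X ^ (ε / 2)` -/
private theorem MHIGH_pow {s q ε d T X N₀ K : ℝ} (hs0 : 0 ≤ s) (hs1 : s ≤ 1) (hq : 1 ≤ q)
    (hd0 : 0 < d) (hd : d * q = ε / 2) (hT : 1 ≤ T) (hX : T ≤ X) (hN : 1 ≤ N₀) (hK0 : 0 ≤ K)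
    (hK : K ≤ 2 * (N₀ * T ^ d)) : K ^ (s * q) ≤ 2 ^ q * N₀ ^ (s * q) * X ^ (ε / 2) := by
  have hT0 : 0 < T := by linarith
  have hX1 : 1 ≤ X := by linarith
  have hsq : 0 ≤ s * q := by positivity
  have hsq1 : s * q ≤ q := by nlinarith
  have h1 : K ^ (s * q) ≤ (2 * (N₀ * T ^ d)) ^ (s * q) := Real.rpow_le_rpow hK0 hK hsq
  have h2 : (2 * (N₀ * T ^ d)) ^ (s * q) = 2 ^ (s * q) * (N₀ ^ (s * q) * (T ^ d) ^ (s * q)) := by
    rw [Real.mul_rpow (by norm_num) (by positivity), Real.mul_rpow (by positivity)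
      (by positivity)]
  have h3 : (2 : ℝ) ^ (s * q) ≤ 2 ^ q := Real.rpow_le_rpow_of_exponent_le (by norm_num) hsq1
  have h4 : (T ^ d) ^ (s * q) ≤ X ^ (ε / 2) := by
    rw [← Real.rpow_mul hT0.le]
    calc T ^ (d * (s * q)) ≤ X ^ (d * (s * q)) := Real.rpow_le_rpow hT0.le hX (by positivity)
      _ ≤ X ^ (ε / 2) := Real.rpow_le_rpow_of_exponent_le hX1 (by
          rw [← hd]
          exact mul_le_mul_of_nonneg_left hsq1 hd0.le)
  calc K ^ (s * q) ≤ 2 ^ (s * q) * (N₀ ^ (s * q) * (T ^ d) ^ (s * q)) := h1.trans h2.le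
    _ ≤ 2 ^ q * (N₀ ^ (s * q) * X ^ (ε / 2)) :=
        mul_le_mul h3 (mul_le_mul_of_nonneg_left h4 (by positivity)) (by positivity)
          (by positivity)
    _ = _ := by ring

theorem p_MHIGH : T_TAIL → V_NAR → M_HIGH := by
  intro hT hNAR q p a η κ β hq hp0 hp1 ha hη0 hη1 hκ hβ0 hβ1 hGM m hm ε hε
  have hpi := Real.pi_pos
  have hq0 : 0 < q := by linarith
  have hd0 : 0 < ε / (2 * q) := by positivity
  have hdq : ε / (2 * q) * q = ε / 2 := by field_simp
  obtain ⟨T₀, hT₀⟩ := MHIGH_cut hT (ε / (2 * q)) hd0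
  obtain ⟨C₁, hC₁⟩ := hGM (ε / 2) (by positivity)
  have hm1 : (1 : ℝ) ≤ m := by exact_mod_cast hm
  obtain ⟨k, hk⟩ := exists_nat_ge q
  have hw1 := MHIGH_w_mass
  set W0 : ℝ := ∫ u : ℝ, w u with hW0
  set Wk : ℝ := ∫ u : ℝ, (w u + u ^ (2 * k) * w u) with hWk
  have hW0' : 0 ≤ W0 := integral_nonneg fun u => (MHIGH_w_pos u).le
  have hu2 : ∀ u : ℝ, 0 ≤ u ^ (2 * k) := fun u => by
    rw [pow_mul]
    positivity
  have hWk' : 0 ≤ Wk := integral_nonneg fun u => by
    have := MHIGH_w_pos u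
    have := hu2 u
    positivity
  set D : ℝ := 3 * (|C₁| * (2 ^ q * 2 ^ (q * a) * 2 ^ (1 + ε / 2))) with hD
  have hD0 : 0 ≤ D := by positivity
  refine ⟨(κ * |T₀| / 2) ^ q + 2 ^ q * (2 * √Real.pi * (D * W0 + κ ^ q * Wk) + (κ / 2) ^ q), ?_⟩
  intro T hT1 M hM hMtβ N hN hNM h hmh
  have hTβ : T ^ β ≤ T := by
    calc T ^ β ≤ T ^ (1 : ℝ) := Real.rpow_le_rpow_of_exponent_le hT1 hβ1
      _ = T := Real.rpow_one T
  have hMt : (M : ℝ) ≤ κ / 2 * T :=
    hMtβ.trans (mul_le_mul_of_nonneg_left hTβ (by positivity))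
  have hT0 : 0 < T := by linarith
  have hTle : T ≤ 2 * T := by linarith
  have hmh' : (m : ℝ) < h := by exact_mod_cast hmh
  have hh0 : (0 : ℝ) < h := by linarith
  have hh1 : (1 : ℝ) ≤ h := by linarith
  have hh2 : (2 : ℝ) ≤ h := by
    have : 2 ≤ h := by omega
    exact_mod_cast this
  have hm0 : (0 : ℝ) < m := by linarith
  set X : ℝ := h * T with hX
  have hTX : T ≤ X := le_mul_of_one_le_left hT0.le hh1
  have hTX2 : T ≤ X / 2 := by
    rw [hX]
    nlinarith
  have hX1 : 1 ≤ X := by linarith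
  have hX0 : 0 < X := by linarith
  set N₀ : ℝ := N ^ ((m : ℝ) / h) with hN₀
  have hr0 : 0 ≤ (m : ℝ) / h := by positivity
  have hr1 : (m : ℝ) / h ≤ 1 := (div_le_one hh0).2 hmh'.le
  have hN₀1 : 1 ≤ N₀ := Real.one_le_rpow hN hr0
  have hN₀N : N₀ ≤ N := by
    calc N₀ ≤ N ^ (1 : ℝ) := Real.rpow_le_rpow_of_exponent_le hN hr1
      _ = N := Real.rpow_one N
  have hlog : Real.log N₀ = (m : ℝ) / h * Real.log N := Real.log_rpow (by linarith) _
  set α : ℝ := (h : ℝ) / m with hα
  have hα1 : 1 ≤ α := (one_le_div hm0).2 hmh'.le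
  have hαh : α ≤ h := div_le_self hh0.le hm1
  set γ : ℝ := √(α ^ 2 - 1) with hγ
  have hγ0 : 0 ≤ γ := Real.sqrt_nonneg _
  have hγh : γ ≤ h := by
    refine Real.sqrt_le_iff.2 ⟨hh0.le, ?_⟩
    nlinarith
  have hN0 : 0 ≤ N := by linarith
  have hq1 : N ^ ((m : ℝ) / h * (p * q)) = N₀ ^ (p * q) := Real.rpow_mul hN0 _ _
  have hq2 : N ^ ((m : ℝ) / h * (η * q)) = N₀ ^ (η * q) := Real.rpow_mul hN0 _ _
  rw [hq1, hq2]
  set P : ℝ := N₀ ^ (p * q) * X ^ (q * a) + N₀ ^ (η * q) with hP
  have hP1 : 1 ≤ P := by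
    have h1 : 1 ≤ N₀ ^ (η * q) := Real.one_le_rpow hN₀1 (by positivity)
    have h2 : 0 ≤ N₀ ^ (p * q) * X ^ (q * a) := by positivity
    linarith
  have hQ1 : 1 ≤ X ^ ε := Real.one_le_rpow hX1 hε.le
  have hTQ : T ≤ P * T * X ^ ε := by
    have h1 : 1 ≤ P * X ^ ε := one_le_mul_of_one_le_of_one_le hP1 hQ1
    calc T = T * 1 := (mul_one T).symm
      _ ≤ T * (P * X ^ ε) := mul_le_mul_of_nonneg_left h1 hT0.le
      _ = _ := by ring
  set Q : ℝ := P * T * X ^ ε with hQ
  have hQ0 : 0 ≤ Q := hT0.le.trans hTQ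
  have hterm : ∀ n : ℕ, (h * Real.log n / m - Real.log N) =
      α * (Real.log n - Real.log N₀) := by
    intro n
    rw [hlog, hα]
    field_simp
  -- trivial bound
  have htriv : ∀ (L : ℕ) (c : ℕ → ℂ) (g : ℕ → ℝ), (∀ n, ‖c n‖ = 1) → (∀ n, 0 ≤ g n) →
      ‖∑ n ∈ Finset.Icc 1 L, c n * (Real.exp (-(g n) / 4) : ℝ)‖ ≤ L := by
    intro L c g hc hg
    calc ‖∑ n ∈ Finset.Icc 1 L, c n * (Real.exp (-(g n) / 4) : ℝ)‖
        ≤ ∑ n ∈ Finset.Icc 1 L, ‖c n * (Real.exp (-(g n) / 4) : ℝ)‖ := norm_sum_le _ _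
      _ ≤ ∑ _n ∈ Finset.Icc 1 L, (1 : ℝ) := by
          refine Finset.sum_le_sum fun n _ => ?_
          rw [norm_mul, hc, one_mul, Complex.norm_real, Real.norm_of_nonneg (Real.exp_pos _).le]
          have := hg n
          exact Real.exp_le_one_iff.2 (by linarith)
      _ = L := by simp
  -- the function of `t`
  set A : ℝ → ℝ := fun t => ‖∑ n ∈ Finset.Icc 1 M, e (h * t * Real.log n) *
    (Real.exp (-(h * Real.log n / m - Real.log N) ^ 2 / 4) : ℝ)‖ with hA
  have hA0 : ∀ t, 0 ≤ A t := fun t => norm_nonneg _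
  have hAc : Continuous A := by
    refine Continuous.norm (continuous_finsetSum _ fun n _ => ?_)
    exact (MHIGH_cont_e.comp (by fun_prop)).mul continuous_const
  have hAqc : Continuous fun t => A t ^ q :=
    hAc.rpow_const fun t => Or.inr hq0.le
  have hAsum : ∀ t, A t = ‖∑ n ∈ Finset.Icc 1 M, e (h * t * Real.log n) *
      (Real.exp (-(α * (Real.log n - Real.log N₀)) ^ 2 / 4) : ℝ)‖ := by
    intro t
    simp only [hA]
    congr 1
    exact Finset.sum_congr rfl fun n _ => by rw [hterm n]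
  have hAM : ∀ t, A t ≤ M := fun t => by
    rw [hAsum]
    exact htriv M (fun n => e (h * t * Real.log n))
      (fun n => (α * (Real.log n - Real.log N₀)) ^ 2) (fun n => MHIGH_norm_e _)
      (fun n => sq_nonneg _)
  have hconst : ∀ c : ℝ, ∫ _t in T..(2 * T), c = T * c := fun c => by
    rw [intervalIntegral.integral_const, smul_eq_mul]
    ring
  have hrest : 0 ≤ 2 ^ q * (2 * √Real.pi * (D * W0 + κ ^ q * Wk) + (κ / 2) ^ q) := by
    positivity
  have hlow : 0 ≤ (κ * |T₀| / 2) ^ q := by positivity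
  have hgoal : ∫ t in T..(2 * T), A t ^ q ≤ ((κ * |T₀| / 2) ^ q +
      2 ^ q * (2 * √Real.pi * (D * W0 + κ ^ q * Wk) + (κ / 2) ^ q)) * Q := by
    rcases lt_or_ge T T₀ with hlt | hge
    · have h2 : (M : ℝ) ≤ κ * |T₀| / 2 := by
        have h3 : T ≤ |T₀| := hlt.le.trans (le_abs_self _)
        calc (M : ℝ) ≤ κ / 2 * T := hMt
          _ ≤ κ / 2 * |T₀| := mul_le_mul_of_nonneg_left h3 (by positivity)
          _ = _ := by ring
      have h4 : ∫ t in T..(2 * T), A t ^ q ≤ ∫ _t in T..(2 * T), (κ * |T₀| / 2) ^ q := by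
        refine intervalIntegral.integral_mono_on hTle (hAqc.intervalIntegrable _ _)
          (continuous_const.intervalIntegrable _ _) fun t _ => ?_
        exact Real.rpow_le_rpow (hA0 t) ((hAM t).trans h2) hq0.le
      rw [hconst] at h4
      calc _ ≤ T * (κ * |T₀| / 2) ^ q := h4
        _ ≤ Q * (κ * |T₀| / 2) ^ q := mul_le_mul_of_nonneg_right hTQ hlow
        _ ≤ Q * ((κ * |T₀| / 2) ^ q +
            2 ^ q * (2 * √Real.pi * (D * W0 + κ ^ q * Wk) + (κ / 2) ^ q)) :=
            mul_le_mul_of_nonneg_left (by linarith) hQ0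
        _ = _ := mul_comm _ _
    -- the main case
    set M' : ℕ := min M ⌈N₀ * T ^ (ε / (2 * q))⌉₊ with hM'
    have htd : 1 ≤ T ^ (ε / (2 * q)) := Real.one_le_rpow hT1 hd0.le
    have hNt1 : N₀ ≤ N₀ * T ^ (ε / (2 * q)) := le_mul_of_one_le_right (by linarith) htd
    have hM'1 : 1 ≤ M' := by
      refine le_min hM ?_
      exact Nat.one_le_ceil_iff.2 (by linarith)
    have hM'N : N₀ ≤ (M' : ℝ) := by
      rw [hM', Nat.cast_min]
      exact le_min (hN₀N.trans hNM) (hNt1.trans (Nat.le_ceil _))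
    have hM'M : (M' : ℝ) ≤ M := by exact_mod_cast min_le_left _ _
    have hM'2 : (M' : ℝ) ≤ 2 * (N₀ * T ^ (ε / (2 * q))) := by
      have h1 : (M' : ℝ) ≤ ⌈N₀ * T ^ (ε / (2 * q))⌉₊ := by exact_mod_cast min_le_right _ _
      have h2 : (⌈N₀ * T ^ (ε / (2 * q))⌉₊ : ℝ) < N₀ * T ^ (ε / (2 * q)) + 1 :=
        Nat.ceil_lt_add_one (by positivity)
      linarith
    have hM'0 : (0 : ℝ) ≤ M' := Nat.cast_nonneg _
    have hMt2 : (M' : ℝ) ≤ κ / 2 * T := hM'M.trans hMt
    have hN₀t : N₀ / T ≤ κ / 2 := by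
      rw [div_le_iff₀ hT0]
      linarith
    set S : ℝ → ℝ := fun s => ‖gs M' s (Real.log N₀)‖ with hS
    have hS0 : ∀ s, 0 ≤ S s := fun s => norm_nonneg _
    have hSM : ∀ s, S s ≤ M' := fun s =>
      htriv M' (fun n => e (s * Real.log n)) (fun n => (Real.log n - Real.log N₀) ^ 2)
        (fun n => MHIGH_norm_e _) (fun n => sq_nonneg _)
    have hSc : Continuous S := by
      refine Continuous.norm (continuous_finsetSum _ fun n _ => ?_)
      exact (MHIGH_cont_e.comp (by fun_prop)).mul continuous_const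
    have hSqc : Continuous fun s => S s ^ q := hSc.rpow_const fun t => Or.inr hq0.le
    have hSq0 : ∀ s, 0 ≤ S s ^ q := fun s => Real.rpow_nonneg (hS0 s) _
    have hSqM : ∀ s, S s ^ q ≤ (M' : ℝ) ^ q := fun s => Real.rpow_le_rpow (hS0 s) (hSM s) hq0.le
    -- pointwise in `t`
    have hAt : ∀ t, A t ^ q ≤
        2 ^ q * (2 * √Real.pi * (∫ u : ℝ, S (h * t + γ * u) ^ q * w u) + (κ / 2) ^ q) := by
      intro t
      have hcut := hT₀ T N₀ α hge hT1 hN₀1 hα1 (fun n => e (h * t * Real.log n))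
        (fun n => MHIGH_norm_e _) M
      rw [← hAsum t] at hcut
      have hnar := hNAR α hα1 (Real.log N₀) (h * t) M'
      have hj1 : Integrable fun u : ℝ => S (h * t + γ * u) * w u := by
        refine Integrable.bdd_mul (c := M') MHIGH_w_int
          (hSc.comp (by fun_prop)).aestronglyMeasurable
          (Filter.Eventually.of_forall fun u => ?_)
        rw [Real.norm_of_nonneg (hS0 _)]
        exact hSM _
      have hj2 : Integrable fun u : ℝ => S (h * t + γ * u) ^ q * w u := by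
        refine Integrable.bdd_mul (c := (M' : ℝ) ^ q) MHIGH_w_int
          (hSqc.comp (by fun_prop)).aestronglyMeasurable
          (Filter.Eventually.of_forall fun u => ?_)
        rw [Real.norm_of_nonneg (hSq0 _)]
        exact hSqM _
      have hjen := MHIGH_jensen hq (f := fun u => S (h * t + γ * u)) (fun u => hS0 _) hj1 hj2
      have hnar' : ‖∑ n ∈ Finset.Icc 1 M', e (h * t * Real.log n) *
          (Real.exp (-(α * (Real.log n - Real.log N₀)) ^ 2 / 4) : ℝ)‖ ≤
          2 * √Real.pi * ∫ u : ℝ, S (h * t + γ * u) * w u := hnar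
      set x : ℝ := 2 * √Real.pi * ∫ u : ℝ, S (h * t + γ * u) * w u with hx
      have hx0 : 0 ≤ x := (norm_nonneg _).trans hnar'
      have hAx : A t ≤ x + κ / 2 := hcut.trans (add_le_add hnar' hN₀t)
      have h5 : A t ^ q ≤ (x + κ / 2) ^ q := Real.rpow_le_rpow (hA0 t) hAx hq0.le
      have hκ2 : 0 ≤ κ / 2 := by positivity
      have h6 : (x + κ / 2) ^ q ≤ 2 ^ q * (x ^ q + (κ / 2) ^ q) := by
        have hx1 : 0 ≤ x ^ q := Real.rpow_nonneg hx0 _
        have hx2 : 0 ≤ (κ / 2) ^ q := Real.rpow_nonneg hκ2 _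
        have h2q : (0 : ℝ) < 2 ^ q := by positivity
        rcases le_total x (κ / 2) with hc | hc
        · calc (x + κ / 2) ^ q ≤ (2 * (κ / 2)) ^ q :=
                Real.rpow_le_rpow (by positivity) (by linarith) hq0.le
            _ = 2 ^ q * (κ / 2) ^ q := Real.mul_rpow (by norm_num) hκ2
            _ ≤ _ := mul_le_mul_of_nonneg_left (by linarith) h2q.le
        · calc (x + κ / 2) ^ q ≤ (2 * x) ^ q :=
                Real.rpow_le_rpow (by positivity) (by linarith) hq0.le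
            _ = 2 ^ q * x ^ q := Real.mul_rpow (by norm_num) hx0
            _ ≤ _ := mul_le_mul_of_nonneg_left (by linarith) h2q.le
      refine h5.trans (h6.trans (mul_le_mul_of_nonneg_left ?_ (by positivity)))
      linarith
    -- the exchange
    obtain ⟨hsw1, hsw2, hsw3⟩ := MHIGH_swap (g := fun s => S s ^ q) hSqc (B := (M' : ℝ) ^ q)
      (fun s => by rw [abs_of_nonneg (hSq0 s)]; exact hSqM s) h γ T hT0.le
    -- the inner integral
    have hI : ∀ Y : ℝ, 1 ≤ Y → X / 2 ≤ Y → Y ≤ 2 * X → ∫ s in Y..(2 * Y), S s ^ q ≤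
        |C₁| * (2 ^ q * 2 ^ (q * a) * 2 ^ (1 + ε / 2)) * (P * X ^ ε) * X := by
      intro Y hY1 hYX hY2
      have hY0 : 0 < Y := by linarith
      have hMY : (M' : ℝ) ≤ κ * Y ^ β := by
        have e7 : T ^ β ≤ Y ^ β := Real.rpow_le_rpow hT0.le (hTX2.trans hYX) hβ0.le
        calc (M' : ℝ) ≤ κ / 2 * T ^ β := hM'M.trans hMtβ
          _ ≤ κ * T ^ β := by
            have : 0 ≤ T ^ β := Real.rpow_nonneg hT0.le _
            nlinarith
          _ ≤ κ * Y ^ β := mul_le_mul_of_nonneg_left e7 hκ.le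
      have h10 := hC₁ Y hY1 M' hM'1 hMY N₀ hN₀1 hM'N
      have q1 : (M' : ℝ) ^ (p * q) ≤ 2 ^ q * N₀ ^ (p * q) * X ^ (ε / 2) :=
        MHIGH_pow hp0 hp1 hq hd0 hdq hT1 hTX hN₀1 hM'0 hM'2
      have q2 : (M' : ℝ) ^ (η * q) ≤ 2 ^ q * N₀ ^ (η * q) * X ^ (ε / 2) :=
        MHIGH_pow hη0 hη1 hq hd0 hdq hT1 hTX hN₀1 hM'0 hM'2
      have q3 : Y ^ (q * a) ≤ 2 ^ (q * a) * X ^ (q * a) := by
        rw [← Real.mul_rpow (by norm_num) hX0.le]
        exact Real.rpow_le_rpow hY0.le hY2 (by positivity)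
      have q4 : Y ^ (1 + ε / 2) ≤ 2 ^ (1 + ε / 2) * (X * X ^ (ε / 2)) := by
        calc Y ^ (1 + ε / 2) ≤ (2 * X) ^ (1 + ε / 2) :=
              Real.rpow_le_rpow hY0.le hY2 (by positivity)
          _ = 2 ^ (1 + ε / 2) * X ^ (1 + ε / 2) := Real.mul_rpow (by norm_num) hX0.le
          _ = _ := by rw [Real.rpow_add hX0, Real.rpow_one]
      have q5 : (1 : ℝ) ≤ 2 ^ (q * a) := Real.one_le_rpow (by norm_num) (by positivity)
      have q6 : X ^ ε = X ^ (ε / 2) * X ^ (ε / 2) := by
        rw [← Real.rpow_add hX0]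
        congr 1
        ring
      have q7 : (M' : ℝ) ^ (p * q) * Y ^ (q * a) + (M' : ℝ) ^ (η * q) ≤
          2 ^ q * 2 ^ (q * a) * X ^ (ε / 2) * P := by
        have r1 : (M' : ℝ) ^ (p * q) * Y ^ (q * a) ≤
            (2 ^ q * N₀ ^ (p * q) * X ^ (ε / 2)) * (2 ^ (q * a) * X ^ (q * a)) :=
          mul_le_mul q1 q3 (Real.rpow_nonneg hY0.le _) (by positivity)
        have r2 : 2 ^ q * N₀ ^ (η * q) * X ^ (ε / 2) ≤
            2 ^ (q * a) * (2 ^ q * N₀ ^ (η * q) * X ^ (ε / 2)) :=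
          le_mul_of_one_le_left (by positivity) q5
        rw [hP]
        calc _ ≤ (2 ^ q * N₀ ^ (p * q) * X ^ (ε / 2)) * (2 ^ (q * a) * X ^ (q * a)) +
              2 ^ (q * a) * (2 ^ q * N₀ ^ (η * q) * X ^ (ε / 2)) := add_le_add r1 (q2.trans r2)
          _ = _ := by ring
      have hpos : 0 ≤ (M' : ℝ) ^ (p * q) * Y ^ (q * a) + (M' : ℝ) ^ (η * q) := by positivity
      calc ∫ s in Y..(2 * Y), S s ^ q ≤
            C₁ * ((M' : ℝ) ^ (p * q) * Y ^ (q * a) + (M' : ℝ) ^ (η * q)) * Y ^ (1 + ε / 2) := h10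
        _ ≤ |C₁| * ((M' : ℝ) ^ (p * q) * Y ^ (q * a) + (M' : ℝ) ^ (η * q)) *
            Y ^ (1 + ε / 2) :=
            mul_le_mul_of_nonneg_right (mul_le_mul_of_nonneg_right (le_abs_self _) hpos)
              (Real.rpow_nonneg hY0.le _)
        _ ≤ |C₁| * (2 ^ q * 2 ^ (q * a) * X ^ (ε / 2) * P) *
            (2 ^ (1 + ε / 2) * (X * X ^ (ε / 2))) := by
            refine mul_le_mul (mul_le_mul_of_nonneg_left q7 (abs_nonneg _)) q4
              (Real.rpow_nonneg hY0.le _) (by positivity)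
        _ = _ := by
            rw [q6]
            ring
    have hJ : ∀ u : ℝ, ∫ t in T..(2 * T), S (h * t + γ * u) ^ q ≤
        D * Q + T * κ ^ q * (1 + u ^ (2 * k)) := by
      intro u
      have hk1 : 0 ≤ T * κ ^ q * (1 + u ^ (2 * k)) := by
        have := hu2 u
        positivity
      have hk2 : 0 ≤ D * Q := mul_nonneg hD0 hQ0
      rcases le_or_gt |u| (T / 2) with h6 | h6
      · have hbu : |γ * u| ≤ X / 2 := by
          rw [abs_mul, abs_of_nonneg hγ0]
          calc γ * |u| ≤ h * (T / 2) := mul_le_mul hγh h6 (abs_nonneg _) hh0.le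
            _ = X / 2 := by rw [hX]; ring
        obtain ⟨hb1, hb2⟩ := abs_le.1 hbu
        have e1 : ∫ t in T..(2 * T), S (h * t + γ * u) ^ q =
            (h : ℝ)⁻¹ * ∫ s in (h * T + γ * u)..(h * (2 * T) + γ * u), S s ^ q := by
          have := intervalIntegral.integral_comp_mul_add (a := T) (b := 2 * T)
            (fun s => S s ^ q) hh0.ne' (γ * u)
          simpa only [smul_eq_mul] using this
        have hii : ∀ x y : ℝ, IntervalIntegrable (fun s => S s ^ q) volume x y :=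
          fun x y => hSqc.intervalIntegrable x y
        have e2 : ∫ s in (h * T + γ * u)..(h * (2 * T) + γ * u), S s ^ q ≤
            ∫ s in (X / 2)..(2 * (2 * X)), S s ^ q := by
          refine intervalIntegral.integral_mono_interval ?_ ?_ ?_
            (Filter.Eventually.of_forall fun s => hSq0 s) (hii _ _)
          · rw [← hX]; linarith
          · nlinarith
          · have : h * (2 * T) = 2 * X := by rw [hX]; ring
            rw [this]
            linarith
        have e3 : ∫ s in (X / 2)..(2 * (2 * X)), S s ^ q =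
            (∫ s in (X / 2)..(2 * (X / 2)), S s ^ q) + (∫ s in X..(2 * X), S s ^ q) +
              ∫ s in (2 * X)..(2 * (2 * X)), S s ^ q := by
          have hx : 2 * (X / 2) = X := by ring
          rw [hx, intervalIntegral.integral_add_adjacent_intervals (hii _ _) (hii _ _),
            intervalIntegral.integral_add_adjacent_intervals (hii _ _) (hii _ _)]
        have g1 := hI (X / 2) (by linarith) le_rfl (by linarith)
        have g2 := hI X hX1 (by linarith) (by linarith)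
        have g3 := hI (2 * X) (by linarith) (by linarith) le_rfl
        have e4 : ∫ s in (h * T + γ * u)..(h * (2 * T) + γ * u), S s ^ q ≤
            D * (P * X ^ ε) * X := by
          calc _ ≤ _ := e2
            _ = _ := e3
            _ ≤ |C₁| * (2 ^ q * 2 ^ (q * a) * 2 ^ (1 + ε / 2)) * (P * X ^ ε) * X +
                |C₁| * (2 ^ q * 2 ^ (q * a) * 2 ^ (1 + ε / 2)) * (P * X ^ ε) * X +
                |C₁| * (2 ^ q * 2 ^ (q * a) * 2 ^ (1 + ε / 2)) * (P * X ^ ε) * X :=
                add_le_add (add_le_add g1 g2) g3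
            _ = _ := by
                rw [hD]
                ring
        have e5 : ∫ t in T..(2 * T), S (h * t + γ * u) ^ q ≤ D * Q := by
          rw [e1]
          calc (h : ℝ)⁻¹ * ∫ s in (h * T + γ * u)..(h * (2 * T) + γ * u), S s ^ q ≤
                (h : ℝ)⁻¹ * (D * (P * X ^ ε) * X) :=
                mul_le_mul_of_nonneg_left e4 (by positivity)
            _ = D * Q := by
                rw [hQ, hX]
                field_simp
        linarith
      · have h7 : (M' : ℝ) ≤ κ * |u| := by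
          calc (M' : ℝ) ≤ κ / 2 * T := hMt2
            _ = κ * (T / 2) := by ring
            _ ≤ κ * |u| := mul_le_mul_of_nonneg_left h6.le hκ.le
        have h8 : |u| ^ q ≤ 1 + u ^ (2 * k) := by
          rcases le_total |u| 1 with hu | hu
          · have : |u| ^ q ≤ 1 := Real.rpow_le_one (abs_nonneg _) hu hq0.le
            have := hu2 u
            linarith
          · have h9 : |u| ^ q ≤ |u| ^ ((2 * k : ℕ) : ℝ) := by
              refine Real.rpow_le_rpow_of_exponent_le hu ?_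
              push_cast
              have : (0 : ℝ) ≤ k := Nat.cast_nonneg _
              linarith
            rw [Real.rpow_natCast, pow_mul, sq_abs, ← pow_mul] at h9
            linarith
        have h9 : ∫ t in T..(2 * T), S (h * t + γ * u) ^ q ≤
            ∫ _t in T..(2 * T), κ ^ q * (1 + u ^ (2 * k)) := by
          refine intervalIntegral.integral_mono_on hTle
            ((hSqc.comp (by fun_prop)).intervalIntegrable _ _)
            (continuous_const.intervalIntegrable _ _) fun t _ => ?_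
          calc S (h * t + γ * u) ^ q ≤ (M' : ℝ) ^ q := hSqM _
            _ ≤ (κ * |u|) ^ q := Real.rpow_le_rpow hM'0 h7 hq0.le
            _ = κ ^ q * |u| ^ q := Real.mul_rpow hκ.le (abs_nonneg _)
            _ ≤ κ ^ q * (1 + u ^ (2 * k)) := mul_le_mul_of_nonneg_left h8 (by positivity)
        rw [hconst] at h9
        linarith
    have hWint : Integrable fun u : ℝ => w u + u ^ (2 * k) * w u :=
      MHIGH_w_int.add (MHIGH_wk_int k)
    have hfin : ∫ u : ℝ, (∫ t in T..(2 * T), S (h * t + γ * u) ^ q) * w u ≤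
        D * Q * W0 + T * κ ^ q * Wk := by
      calc ∫ u : ℝ, (∫ t in T..(2 * T), S (h * t + γ * u) ^ q) * w u ≤
            ∫ u : ℝ, (D * Q * w u + T * κ ^ q * (w u + u ^ (2 * k) * w u)) := by
            refine integral_mono hsw2
              ((MHIGH_w_int.const_mul _).add (hWint.const_mul _)) fun u => ?_
            have := mul_le_mul_of_nonneg_right (hJ u) (MHIGH_w_pos u).le
            calc (∫ t in T..(2 * T), S (h * t + γ * u) ^ q) * w u ≤
                  (D * Q + T * κ ^ q * (1 + u ^ (2 * k))) * w u := this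
              _ = _ := by ring
        _ = _ := by
            rw [integral_add (MHIGH_w_int.const_mul _) (hWint.const_mul _),
              integral_const_mul, integral_const_mul]
    -- conclusion
    have hint1 : IntervalIntegrable (fun t => 2 ^ q * (2 * √Real.pi *
        (∫ u : ℝ, S (h * t + γ * u) ^ q * w u) + (κ / 2) ^ q)) volume T (2 * T) :=
      ((hsw1.const_mul _).add (continuous_const.intervalIntegrable _ _)).const_mul _
    have c1 : ∫ t in T..(2 * T), A t ^ q ≤ ∫ t in T..(2 * T), 2 ^ q * (2 * √Real.pi *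
        (∫ u : ℝ, S (h * t + γ * u) ^ q * w u) + (κ / 2) ^ q) :=
      intervalIntegral.integral_mono_on hTle (hAqc.intervalIntegrable _ _) hint1
        fun t _ => hAt t
    have c2 : ∫ t in T..(2 * T), 2 ^ q * (2 * √Real.pi *
        (∫ u : ℝ, S (h * t + γ * u) ^ q * w u) + (κ / 2) ^ q) =
        2 ^ q * (2 * √Real.pi * (∫ u : ℝ, (∫ t in T..(2 * T), S (h * t + γ * u) ^ q) * w u) +
          T * (κ / 2) ^ q) := by
      rw [intervalIntegral.integral_const_mul, intervalIntegral.integral_add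
        (hsw1.const_mul _) (continuous_const.intervalIntegrable _ _),
        intervalIntegral.integral_const_mul, hsw3, hconst]
    have c3 : 2 * √Real.pi * (∫ u : ℝ, (∫ t in T..(2 * T), S (h * t + γ * u) ^ q) * w u) +
        T * (κ / 2) ^ q ≤ (2 * √Real.pi * (D * W0 + κ ^ q * Wk) + (κ / 2) ^ q) * Q := by
      have d1 : T * κ ^ q * Wk ≤ Q * κ ^ q * Wk :=
        mul_le_mul_of_nonneg_right (mul_le_mul_of_nonneg_right hTQ (by positivity)) hWk'
      have d2 : T * (κ / 2) ^ q ≤ Q * (κ / 2) ^ q :=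
        mul_le_mul_of_nonneg_right hTQ (by positivity)
      have d3 : 2 * √Real.pi *
          (∫ u : ℝ, (∫ t in T..(2 * T), S (h * t + γ * u) ^ q) * w u) ≤
          2 * √Real.pi * (D * Q * W0 + Q * κ ^ q * Wk) :=
        mul_le_mul_of_nonneg_left (by linarith) (by positivity)
      calc _ ≤ 2 * √Real.pi * (D * Q * W0 + Q * κ ^ q * Wk) + Q * (κ / 2) ^ q :=
            add_le_add d3 d2
        _ = _ := by ring
    calc ∫ t in T..(2 * T), A t ^ q ≤ _ := c1
      _ = _ := c2
      _ ≤ 2 ^ q * ((2 * √Real.pi * (D * W0 + κ ^ q * Wk) + (κ / 2) ^ q) * Q) :=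
          mul_le_mul_of_nonneg_left c3 (by positivity)
      _ ≤ ((κ * |T₀| / 2) ^ q +
          2 ^ q * (2 * √Real.pi * (D * W0 + κ ^ q * Wk) + (κ / 2) ^ q)) * Q := by
          have : 0 ≤ (κ * |T₀| / 2) ^ q * Q := mul_nonneg hlow hQ0
          nlinarith
  calc _ ≤ _ := hgoal
    _ = _ := by
        rw [hQ]
        ring

end Pool.Agent.Ben
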