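import Pool.Agent.Ben.Targets9

/-!
# Ben, moments, target `M_HOL`: Hoelder between the means
-/

set_option autoImplicit false

namespace Pool.Agent.Ben

open Complex MeasureTheory Set

private theorem MHOL_cont : Continuous fun t : ℝ => ‖riemannZeta (1 / 2 + t * I)‖ := by
  rw [continuous_iff_continuousAt]
  intro t
  have h2 : ContinuousAt riemannZeta (1 / 2 + t * I) := by
    apply (differentiableAt_riemannZeta _).continuousAt
    intro h3
    have := congrArg Complex.re h3
    norm_num at this
  have h3 : ContinuousAt (fun t : ℝ => (1 / 2 : ℂ) + t * I) t := by fun_prop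
  exact (ContinuousAt.comp (f := fun t : ℝ => (1 / 2 : ℂ) + t * I) h2 h3).norm

/-- a form of the inequality of Young -/
private theorem MHOL_young {f l q r : ℝ} (hf : 0 ≤ f) (hl : 0 < l) (hq : 0 ≤ q) (hqr : q ≤ r) :
    f ^ q ≤ l ^ q + l ^ (q - r) * f ^ r := by
  rcases le_total f l with h | h
  · have h1 : 0 ≤ l ^ (q - r) * f ^ r := by positivity
    have h2 : f ^ q ≤ l ^ q := Real.rpow_le_rpow hf h hq
    linarith
  · have hf0 : 0 < f := lt_of_lt_of_le hl h
    have e1 : f ^ (q - r) * f ^ r = f ^ q := by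
      rw [← Real.rpow_add hf0]
      congr 1
      ring
    have h2 : f ^ (q - r) ≤ l ^ (q - r) :=
      Real.rpow_le_rpow_of_nonpos hl h (by linarith)
    have h3 : f ^ (q - r) * f ^ r ≤ l ^ (q - r) * f ^ r :=
      mul_le_mul_of_nonneg_right h2 (by positivity)
    have h4 : 0 ≤ l ^ q := by positivity
    linarith

theorem p_MHOL : M_HOL := by
  intro q r a hq hqr ha hZ ε hε
  obtain ⟨C, hC⟩ := hZ ε hε
  refine ⟨1 + |C|, fun T hT => ?_⟩
  have hT0 : 0 < T := by linarith
  set f : ℝ → ℝ := fun t => ‖riemannZeta (1 / 2 + (t : ℂ) * I)‖ with hf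
  have hfc : Continuous f := MHOL_cont
  have hf0 : ∀ t, 0 ≤ f t := fun t => norm_nonneg _
  have hfq : Continuous fun t => f t ^ q := hfc.rpow_const fun t => Or.inr (by linarith)
  have hfr : Continuous fun t => f t ^ r := hfc.rpow_const fun t => Or.inr (by linarith)
  set l : ℝ := T ^ (a + ε) with hl
  have hl0 : 0 < l := by positivity
  have h1 : ∫ t in T..(2 * T), f t ^ q ≤
      ∫ t in T..(2 * T), (l ^ q + l ^ (q - r) * f t ^ r) := by
    refine intervalIntegral.integral_mono_on (by linarith) (hfq.intervalIntegrable _ _)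
      ((continuous_const.add (continuous_const.mul hfr)).intervalIntegrable _ _) ?_
    intro t _
    exact MHOL_young (hf0 t) hl0 (by linarith) hqr
  have h2 : ∫ t in T..(2 * T), (l ^ q + l ^ (q - r) * f t ^ r) =
      T * l ^ q + l ^ (q - r) * ∫ t in T..(2 * T), f t ^ r := by
    have i1 : IntervalIntegrable (fun _ : ℝ => l ^ q) volume T (2 * T) :=
      continuous_const.intervalIntegrable _ _
    have i2 : IntervalIntegrable (fun t => l ^ (q - r) * f t ^ r) volume T (2 * T) :=
      (continuous_const.mul hfr).intervalIntegrable _ _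
    rw [intervalIntegral.integral_add i1 i2, intervalIntegral.integral_const,
      intervalIntegral.integral_const_mul, smul_eq_mul]
    ring
  have h3 : ∫ t in T..(2 * T), f t ^ r ≤ |C| * T ^ (1 + r * (a + ε)) :=
    (hC T hT).trans (mul_le_mul_of_nonneg_right (le_abs_self _) (by positivity))
  have e1 : T * l ^ q = T ^ (1 + q * (a + ε)) := by
    rw [hl, ← Real.rpow_mul hT0.le, Real.rpow_add hT0, Real.rpow_one, mul_comm (a + ε) q]
  have e2 : l ^ (q - r) * T ^ (1 + r * (a + ε)) = T ^ (1 + q * (a + ε)) := by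
    rw [hl, ← Real.rpow_mul hT0.le, ← Real.rpow_add hT0]
    congr 1
    ring
  calc ∫ t in T..(2 * T), f t ^ q
      ≤ T * l ^ q + l ^ (q - r) * ∫ t in T..(2 * T), f t ^ r := h1.trans_eq h2
    _ ≤ T * l ^ q + l ^ (q - r) * (|C| * T ^ (1 + r * (a + ε))) := by
        have : 0 ≤ l ^ (q - r) := by positivity
        gcongr
    _ = T * l ^ q + |C| * (l ^ (q - r) * T ^ (1 + r * (a + ε))) := by ring
    _ = (1 + |C|) * T ^ (1 + q * (a + ε)) := by
        rw [e1, e2]
        ring

end Pool.Agent.Ben
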