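import Pool.Agent.Ben.Targets8

/-!
# Block MITER: iteration of the step, means of order `q`
-/

set_option autoImplicit false

namespace Pool.Agent.Ben

open Complex MeasureTheory Set

private lemma MITER_norm_e (x : ℝ) : ‖e x‖ = 1 := by
  unfold e
  exact Complex.norm_exp_ofReal_mul_I _

private lemma MITER_gs (M : ℕ) (t y : ℝ) : ‖gs M t y‖ ≤ M := by
  unfold gs
  refine (norm_sum_le _ _).trans ?_
  have h2 : ∀ n ∈ Finset.Icc 1 M, ‖e (t * Real.log n) *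
      ((Real.exp (-(Real.log n - y) ^ 2 / 4) : ℝ) : ℂ)‖ ≤ 1 := by
    intro n _
    rw [norm_mul, MITER_norm_e, one_mul, Complex.norm_real,
      Real.norm_of_nonneg (Real.exp_pos _).le]
    apply Real.exp_le_one_iff.mpr
    nlinarith [sq_nonneg (Real.log n - y)]
  refine (Finset.sum_le_sum h2).trans ?_
  rw [Finset.sum_const, Nat.card_Icc, nsmul_eq_mul, mul_one, Nat.add_sub_cancel]

/-- the trivial bound -/
private lemma MITER_triv (q p a κ β : ℝ) (hq : 1 ≤ q) : GM q p a 1 κ β := by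
  intro ε hε
  refine ⟨1, fun T hT M hM _ N _ _ => ?_⟩
  have hT0 : 0 < T := by linarith
  have hM0 : (0 : ℝ) ≤ M := Nat.cast_nonneg _
  have h1 : ‖∫ t in T..(2 * T), ‖gs M t (Real.log N)‖ ^ q‖ ≤ (M : ℝ) ^ q * |2 * T - T| := by
    refine intervalIntegral.norm_integral_le_of_norm_le_const fun t _ => ?_
    rw [Real.norm_of_nonneg (by positivity)]
    exact Real.rpow_le_rpow (norm_nonneg _) (MITER_gs M t _) (by linarith)
  have h2 : |2 * T - T| = T := by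
    rw [abs_of_pos (by linarith)]
    ring
  rw [h2] at h1
  refine (Real.le_norm_self _).trans (h1.trans ?_)
  have h3 : T ≤ T ^ (1 + ε) := by
    conv_lhs => rw [← Real.rpow_one T]
    exact Real.rpow_le_rpow_of_exponent_le hT (by linarith)
  have h4 : 0 ≤ (M : ℝ) ^ (p * q) * T ^ (q * a) := by positivity
  have h5 : 0 ≤ (M : ℝ) ^ q := by positivity
  rw [one_mul, one_mul]
  exact mul_le_mul (by linarith) h3 hT0.le (by linarith)

theorem p_MITER : M_STEP → M_ITER := by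
  intro hS m hm G B κ₀ β p q a hO hκ₀ hβ0 hβ1 hp0 hp1 hq ha hc hz hU θ hθ
  have hm0 : (0 : ℝ) < m := by exact_mod_cast hm
  set r : ℝ := (m : ℝ) / (m + 1) with hr
  have hr0 : 0 ≤ r := by positivity
  have hr1 : r < 1 := by
    rw [hr, div_lt_one (by positivity)]
    linarith
  have hall : ∀ j : ℕ, ∃ κ : ℝ, 0 < κ ∧ GM q p a (r ^ j) κ β := by
    intro j
    induction j with
    | zero =>
      refine ⟨1, one_pos, ?_⟩
      rw [pow_zero]
      exact MITER_triv q p a 1 β hq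
    | succ j ih =>
      obtain ⟨κ, hκ, hGA⟩ := ih
      obtain ⟨κ', hκ', hGA'⟩ := hS m hm G B κ₀ β p q a hO hκ₀ hβ0 hβ1 hp0 hp1 hq ha hc hz hU
        (r ^ j) κ (pow_nonneg hr0 j) (pow_le_one₀ hr0 hr1.le) hκ hGA
      refine ⟨κ', hκ', ?_⟩
      rw [pow_succ']
      exact hGA'
  obtain ⟨j, hj⟩ := exists_pow_lt_of_lt_one hθ hr1
  obtain ⟨κ, hκ, hGA⟩ := hall j
  refine ⟨κ, hκ, fun ε hε => ?_⟩
  obtain ⟨C, hC⟩ := hGA ε hε
  refine ⟨|C|, fun T hT M hM hMκ N hN hNM => ?_⟩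
  refine (hC T hT M hM hMκ N hN hNM).trans ?_
  have hT0 : 0 < T := by linarith
  have hM1 : (1 : ℝ) ≤ M := by exact_mod_cast hM
  have h1 : (M : ℝ) ^ (r ^ j * q) ≤ (M : ℝ) ^ (θ * q) :=
    Real.rpow_le_rpow_of_exponent_le hM1 (mul_le_mul_of_nonneg_right hj.le (by linarith))
  have h5 : 0 ≤ (M : ℝ) ^ (p * q) * T ^ (q * a) + (M : ℝ) ^ (r ^ j * q) := by positivity
  calc C * ((M : ℝ) ^ (p * q) * T ^ (q * a) + (M : ℝ) ^ (r ^ j * q)) * T ^ (1 + ε)
      ≤ |C| * ((M : ℝ) ^ (p * q) * T ^ (q * a) + (M : ℝ) ^ (r ^ j * q)) * T ^ (1 + ε) := by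
        gcongr
        exact le_abs_self C
    _ ≤ |C| * ((M : ℝ) ^ (p * q) * T ^ (q * a) + (M : ℝ) ^ (θ * q)) * T ^ (1 + ε) := by gcongr

end Pool.Agent.Ben
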