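import Pool.Agent.Ben.Targets8

/-!
# Ben-ML1: a one-sided bound in the mean of order `q` gives a bound for the `L¹` norm
-/

set_option autoImplicit false

namespace Pool.Agent.Ben

open MeasureTheory Set

private theorem ML1_w_pos (u : ℝ) : 0 < w u := Real.exp_pos _

private theorem ML1_w_int : Integrable w := by
  have h : (0 : ℝ) < 4 * Real.pi ^ 2 := by positivity
  have := integrable_exp_neg_mul_sq h
  refine this.congr (Filter.Eventually.of_forall fun u => ?_)
  unfold w
  ring_nf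

private theorem ML1_wk_int (K : ℕ) : Integrable fun u : ℝ => u ^ K * w u := by
  have h : (0 : ℝ) < 4 * Real.pi ^ 2 := by positivity
  have hK : (-1 : ℝ) < (K : ℝ) := by
    have : (0 : ℝ) ≤ K := K.cast_nonneg
    linarith
  have := integrable_rpow_mul_exp_neg_mul_sq h (s := (K : ℝ)) hK
  refine this.congr (Filter.Eventually.of_forall fun u => ?_)
  unfold w
  simp only [Real.rpow_natCast]
  ring_nf

private theorem ML1_w_meas : Measurable w := by
  unfold w
  fun_prop

private theorem ML1_w_int_pos : 0 < ∫ u : ℝ, w u := by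
  have h := ML1_w_int
  unfold w at h ⊢
  exact integral_exp_pos h

/-- the tangent line of `y ^ q` -/
private theorem ML1_tangent {q : ℝ} (hq : 1 ≤ q) {c y : ℝ} (hc : 0 ≤ c) (hy : 0 ≤ y) :
    c ^ q + q * c ^ (q - 1) * (y - c) ≤ y ^ q := by
  rcases hc.eq_or_lt with h | h
  · subst h
    rcases hq.eq_or_lt with h1 | h1
    · subst h1
      simp
    · rw [Real.zero_rpow (by linarith), Real.zero_rpow (by linarith)]
      have : 0 ≤ y ^ q := Real.rpow_nonneg hy q
      linarith
  · have h0 : 0 ≤ y / c := div_nonneg hy hc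
    have h1 := one_add_mul_self_le_rpow_one_add (s := y / c - 1) (by linarith) hq
    have h2 : y ^ q = c ^ q * (1 + (y / c - 1)) ^ q := by
      rw [← Real.mul_rpow hc (by linarith)]
      congr 1
      field_simp
      ring
    have h3 : c ^ q = c ^ (q - 1) * c := by
      rw [← Real.rpow_add_one h.ne']
      ring_nf
    rw [h2]
    calc c ^ q + q * c ^ (q - 1) * (y - c) = c ^ q * (1 + q * (y / c - 1)) := by
          rw [h3]
          field_simp
      _ ≤ _ := mul_le_mul_of_nonneg_left h1 (by positivity)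

/-- Jensen's inequality -/
private theorem ML1_jensen {q : ℝ} (hq : 1 ≤ q) {k y : ℝ → ℝ} (hk : ∀ u, 0 ≤ k u)
    (hy : ∀ u, 0 ≤ y u) (hki : Integrable k) (h1 : Integrable fun u => y u * k u)
    (h2 : Integrable fun u => y u ^ q * k u) (hW : 0 < ∫ u, k u) :
    (∫ u, y u * k u) ^ q ≤ (∫ u, k u) ^ (q - 1) * ∫ u, y u ^ q * k u := by
  set W := ∫ u, k u with hWd
  set A := ∫ u, y u * k u with hA
  have hA0 : 0 ≤ A := integral_nonneg fun u => mul_nonneg (hy u) (hk u)
  obtain ⟨c, hc⟩ : ∃ c, c = A / W := ⟨_, rfl⟩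
  have hc0 : 0 ≤ c := by
    rw [hc]
    exact div_nonneg hA0 hW.le
  have hAc : A = c * W := by
    rw [hc]
    field_simp
  have key : c ^ q * W ≤ ∫ u, y u ^ q * k u := by
    have i3 : Integrable fun u => (c ^ q - q * c ^ (q - 1) * c) * k u := hki.const_mul _
    have i4 : Integrable fun u => (q * c ^ (q - 1)) * (y u * k u) := h1.const_mul _
    calc c ^ q * W = (c ^ q - q * c ^ (q - 1) * c) * W + (q * c ^ (q - 1)) * A := by
          rw [hAc]
          ring
      _ = ∫ u, ((c ^ q - q * c ^ (q - 1) * c) * k u + (q * c ^ (q - 1)) * (y u * k u)) := by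
          rw [integral_add i3 i4, integral_const_mul, integral_const_mul]
      _ ≤ _ := integral_mono (i3.add i4) h2 fun u => by
          have h := mul_le_mul_of_nonneg_right (ML1_tangent hq hc0 (hy u)) (hk u)
          simp only
          linarith
  calc A ^ q = c ^ q * W ^ q := by rw [hAc, Real.mul_rpow hc0 hW.le]
    _ = W ^ (q - 1) * (c ^ q * W) := by
        have h3 : W ^ q = W ^ (q - 1) * W := by
          rw [← Real.rpow_add_one hW.ne']
          ring_nf
        rw [h3]
        ring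
    _ ≤ _ := mul_le_mul_of_nonneg_left key (by positivity)

private theorem ML1_add {q x y : ℝ} (hq : 1 ≤ q) (hx : 0 ≤ x) (hy : 0 ≤ y) :
    (x + y) ^ q ≤ 2 ^ q * (x ^ q + y ^ q) := by
  have hx' : 0 ≤ x ^ q := Real.rpow_nonneg hx q
  have hy' : 0 ≤ y ^ q := Real.rpow_nonneg hy q
  have h2 : (0 : ℝ) ≤ 2 ^ q := by positivity
  rcases le_total x y with h | h
  · calc (x + y) ^ q ≤ (2 * y) ^ q := Real.rpow_le_rpow (by linarith) (by linarith) (by linarith)
      _ = 2 ^ q * y ^ q := Real.mul_rpow (by norm_num) hy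
      _ ≤ _ := mul_le_mul_of_nonneg_left (by linarith) h2
  · calc (x + y) ^ q ≤ (2 * x) ^ q := Real.rpow_le_rpow (by linarith) (by linarith) (by linarith)
      _ = 2 ^ q * x ^ q := Real.mul_rpow (by norm_num) hx
      _ ≤ _ := mul_le_mul_of_nonneg_left (by linarith) h2

/-- the pointwise step -/
private theorem ML1_point {m : ℕ} {q Φ L t : ℝ} {F : ℝ → ℝ} (hq : 1 ≤ q) (hF : Measurable F)
    (hFb : ∀ t, |F t| ≤ Φ) (hL0 : 0 ≤ L)
    (hL : |∫ u : ℝ, F (t + u / m) * w u| ≤ L) :
    (∫ u : ℝ, |F (t + u / m)| * w u) ^ q ≤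
      2 ^ q * (2 ^ q * (∫ u, w u) ^ (q - 1) * ∫ u : ℝ, (max (F (t + u / m)) 0) ^ q * w u) +
        2 ^ q * L ^ q := by
  have hF' : Measurable fun u : ℝ => F (t + u / m) := hF.comp (by fun_prop)
  have hΦ : 0 ≤ Φ := (abs_nonneg _).trans (hFb 0)
  have i1 : Integrable fun u : ℝ => F (t + u / m) * w u := by
    refine Integrable.bdd_mul (c := Φ) ML1_w_int hF'.aestronglyMeasurable ?_
    exact Filter.Eventually.of_forall fun u => by rw [Real.norm_eq_abs]; exact hFb _
  have i2 : Integrable fun u : ℝ => max (F (t + u / m)) 0 * w u := by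
    refine Integrable.bdd_mul (c := Φ) ML1_w_int (hF'.max measurable_const).aestronglyMeasurable ?_
    refine Filter.Eventually.of_forall fun u => ?_
    rw [Real.norm_eq_abs, abs_of_nonneg (le_max_right _ _)]
    exact max_le ((le_abs_self _).trans (hFb _)) hΦ
  have i3 : Integrable fun u : ℝ => (max (F (t + u / m)) 0) ^ q * w u := by
    refine Integrable.bdd_mul (c := Φ ^ q) ML1_w_int
      ((hF'.max measurable_const).pow_const q).aestronglyMeasurable ?_
    refine Filter.Eventually.of_forall fun u => ?_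
    have h0 : (0 : ℝ) ≤ max (F (t + u / m)) 0 := le_max_right _ _
    rw [Real.norm_eq_abs, abs_of_nonneg (Real.rpow_nonneg h0 _)]
    exact Real.rpow_le_rpow h0 (max_le ((le_abs_self _).trans (hFb _)) hΦ) (by linarith)
  have e1 : ∫ u : ℝ, |F (t + u / m)| * w u =
      2 * (∫ u : ℝ, max (F (t + u / m)) 0 * w u) - ∫ u : ℝ, F (t + u / m) * w u := by
    rw [← integral_const_mul, ← integral_sub (i2.const_mul 2) i1]
    refine integral_congr_ae (Filter.Eventually.of_forall fun u => ?_)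
    simp only
    rcases le_total (F (t + u / m)) 0 with h | h
    · rw [abs_of_nonpos h, max_eq_right h]
      ring
    · rw [abs_of_nonneg h, max_eq_left h]
      ring
  set A := ∫ u : ℝ, max (F (t + u / m)) 0 * w u with hA
  have hA0 : 0 ≤ A := integral_nonneg fun u => mul_nonneg (le_max_right _ _) (ML1_w_pos u).le
  have hJ := ML1_jensen hq (fun u => (ML1_w_pos u).le)
    (fun u => le_max_right (F (t + u / m)) 0) ML1_w_int i2 i3 ML1_w_int_pos
  have e2 : ∫ u : ℝ, |F (t + u / m)| * w u ≤ 2 * A + L := by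
    rw [e1]
    have := neg_abs_le (∫ u : ℝ, F (t + u / m) * w u)
    linarith
  calc (∫ u : ℝ, |F (t + u / m)| * w u) ^ q ≤ (2 * A + L) ^ q :=
        Real.rpow_le_rpow (integral_nonneg fun u => mul_nonneg (abs_nonneg _) (ML1_w_pos u).le)
          e2 (by linarith)
    _ ≤ 2 ^ q * ((2 * A) ^ q + L ^ q) := ML1_add hq (by linarith) hL0
    _ = 2 ^ q * (2 ^ q * A ^ q) + 2 ^ q * L ^ q := by
        rw [Real.mul_rpow (by norm_num) hA0]
        ring
    _ ≤ 2 ^ q * (2 ^ q * ((∫ u, w u) ^ (q - 1) *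
          ∫ u : ℝ, (max (F (t + u / m)) 0) ^ q * w u)) + 2 ^ q * L ^ q := by
        have h2 : (0 : ℝ) ≤ 2 ^ q := by positivity
        have := mul_le_mul_of_nonneg_left (mul_le_mul_of_nonneg_left hJ h2) h2
        linarith
    _ = _ := by ring

/-- the exchange of the integrals -/
private theorem ML1_swap {m : ℕ} {T Φ : ℝ} {φ : ℝ → ℝ} (hφm : Measurable φ)
    (hφb : ∀ t, |φ t| ≤ Φ) :
    Integrable (fun t => ∫ u : ℝ, φ (t + u / m) * w u) (volume.restrict (Ioc T (2 * T))) ∧
    ∫ t in Ioc T (2 * T), (∫ u : ℝ, φ (t + u / m) * w u) =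
      ∫ u : ℝ, (∫ t in Ioc T (2 * T), φ (t + u / m)) * w u ∧
    Integrable (fun u => (∫ t in Ioc T (2 * T), φ (t + u / m)) * w u) := by
  have hi : Integrable (fun z : ℝ × ℝ => φ (z.1 + z.2 / m) * w z.2)
      ((volume.restrict (Ioc T (2 * T))).prod volume) := by
    have h1 : Integrable (fun z : ℝ × ℝ => (1 : ℝ) * w z.2)
        ((volume.restrict (Ioc T (2 * T))).prod volume) :=
      Integrable.mul_prod (f := fun _ : ℝ => (1 : ℝ)) (integrable_const 1) ML1_w_int
    simp only [one_mul] at h1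
    refine Integrable.bdd_mul (c := Φ) h1 ?_ ?_
    · exact (hφm.comp (by fun_prop)).aestronglyMeasurable
    · exact Filter.Eventually.of_forall fun z => by rw [Real.norm_eq_abs]; exact hφb _
  have e : (fun u => (∫ t in Ioc T (2 * T), φ (t + u / m)) * w u) =
      fun u => ∫ t in Ioc T (2 * T), φ (t + u / m) * w u := by
    funext u
    rw [integral_mul_const]
  refine ⟨hi.integral_prod_left, ?_, ?_⟩
  · rw [e]
    exact integral_integral_swap hi
  · rw [e]
    exact hi.integral_prod_right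

theorem p_ML1 : V_MEAN → M_L1 := by
  intro hMEAN m hm G B κ β p q a hG hκ hβ0 hβ1 hp hq ha hU ε₀ hε₀
  obtain ⟨C₀, hC₀, hM⟩ := hMEAN m hm
  have hm1 : (1 : ℝ) ≤ m := by exact_mod_cast hm
  have hmu : ∀ u : ℝ, |u / m| ≤ |u| := by
    intro u
    rw [abs_div, abs_of_pos (by linarith : (0 : ℝ) < m)]
    exact div_le_self (abs_nonneg u) hm1
  obtain ⟨C₁, hC₁⟩ := hU ε₀ hε₀
  have hs : 0 ≤ q * (a + ε₀) := mul_nonneg (by linarith) (by linarith)
  generalize q * (a + ε₀) = s at *
  have hq0 : 0 < q := by linarith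
  have hB : 0 ≤ B := (abs_nonneg _).trans (hG.bdd 0)
  obtain ⟨W0, hW0⟩ : ∃ W0 : ℝ, W0 = ∫ u : ℝ, w u := ⟨_, rfl⟩
  obtain ⟨K, hK⟩ : ∃ K : ℕ, K = ⌈q⌉₊ := ⟨_, rfl⟩
  obtain ⟨WK, hWK⟩ : ∃ WK : ℝ, WK = ∫ u : ℝ, u ^ (2 * K) * w u := ⟨_, rfl⟩
  have hqK : q ≤ K := by
    rw [hK]
    exact Nat.le_ceil q
  have hW0' : 0 ≤ W0 := by
    rw [hW0]
    exact ML1_w_int_pos.le
  have hWK' : 0 ≤ WK := by
    rw [hWK]
    refine integral_nonneg fun u => mul_nonneg ?_ (ML1_w_pos u).le
    rw [pow_mul]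
    positivity
  obtain ⟨D, hD⟩ : ∃ D : ℝ, D = |C₁| * (1 + 1 + 2 ^ (1 + s)) := ⟨_, rfl⟩
  have hD0 : 0 ≤ D := by
    rw [hD]
    positivity
  obtain ⟨E, hE⟩ : ∃ E : ℝ, E = (B * κ) ^ q := ⟨_, rfl⟩
  have hE0 : 0 ≤ E := by
    rw [hE]
    positivity
  refine ⟨2 ^ q * (2 ^ q * W0 ^ (q - 1) * ((D + 2 * E) * W0 + E * WK)) +
    2 ^ q * (C₀ * B) ^ q, ?_⟩
  intro T hT N hN hNTβ
  have hT0 : 0 < T := by linarith
  have hNT : (N : ℝ) ≤ κ / 2 * T := by
    refine hNTβ.trans (mul_le_mul_of_nonneg_left ?_ (by positivity))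
    calc T ^ β ≤ T ^ (1 : ℝ) := Real.rpow_le_rpow_of_exponent_le hT hβ1
      _ = T := Real.rpow_one T
  have hN1 : (1 : ℝ) ≤ N := by exact_mod_cast hN
  have hNp : 1 ≤ (N : ℝ) ^ (p * q) := Real.one_le_rpow hN1 (by positivity)
  have hTs : T ≤ T ^ (1 + s) := by
    calc T = T ^ (1 : ℝ) := (Real.rpow_one T).symm
      _ ≤ T ^ (1 + s) := Real.rpow_le_rpow_of_exponent_le hT (by linarith)
  have hTN : T ≤ (N : ℝ) ^ (p * q) * T ^ (1 + s) := by
    calc T ≤ T ^ (1 + s) := hTs
      _ ≤ _ := le_mul_of_one_le_left (by positivity) hNp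
  set F : ℝ → ℝ := fun t => ∑ n ∈ Finset.Icc 1 N, G (t * Real.log n) with hF
  have hFm : Measurable F := by
    refine Finset.measurable_sum _ fun n _ => ?_
    exact hG.meas.comp (by fun_prop)
  have hFb : ∀ u, |F u| ≤ B * N := by
    intro u
    calc |F u| ≤ ∑ n ∈ Finset.Icc 1 N, |G (u * Real.log n)| :=
          Finset.abs_sum_le_sum_abs _ _
      _ ≤ ∑ _n ∈ Finset.Icc 1 N, B := Finset.sum_le_sum fun n _ => hG.bdd _
      _ = B * N := by simp [mul_comm]
  have hBN : 0 ≤ B * N := by positivity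
  set φ : ℝ → ℝ := fun t => (max (F t) 0) ^ q with hφ
  have hφ0 : ∀ t, 0 ≤ φ t := fun t => Real.rpow_nonneg (le_max_right _ _) _
  have hφm : Measurable φ := (hFm.max measurable_const).pow_const q
  have hφb : ∀ t, φ t ≤ (B * N) ^ q := fun t =>
    Real.rpow_le_rpow (le_max_right _ _) (max_le ((le_abs_self _).trans (hFb _)) hBN) hq0.le
  have hφb' : ∀ t, |φ t| ≤ (B * N) ^ q := fun t => by
    rw [abs_of_nonneg (hφ0 t)]
    exact hφb t
  have hφi : ∀ x y : ℝ, IntervalIntegrable φ volume x y := by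
    intro x y
    rw [intervalIntegrable_iff]
    refine Measure.integrableOn_of_bounded (M := (B * N) ^ q) ?_ hφm.aestronglyMeasurable ?_
    · rw [uIoc]
      simp
    · exact Filter.Eventually.of_forall fun t => by rw [Real.norm_eq_abs]; exact hφb' t
  -- the inner integral
  have hin : ∀ u : ℝ, ∫ t in Ioc T (2 * T), φ (t + u / m) ≤
      D * ((N : ℝ) ^ (p * q) * T ^ (1 + s)) + E * (2 + u ^ (2 * K)) * T := by
    intro u
    have hu2 : 0 ≤ u ^ (2 * K) := by
      rw [pow_mul]
      positivity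
    have z1 : 0 ≤ D * ((N : ℝ) ^ (p * q) * T ^ (1 + s)) := by positivity
    rw [← intervalIntegral.integral_of_le (by linarith)]
    have hsub : ∫ t in T..(2 * T), φ (t + u / m) = ∫ t in (T + u / m)..(2 * T + u / m), φ t :=
      intervalIntegral.integral_comp_add_right φ (u / m)
    have htriv : ∫ t in T..(2 * T), φ (t + u / m) ≤ (B * N) ^ q * T := by
      have h := intervalIntegral.norm_integral_le_of_norm_le_const (a := T) (b := 2 * T)
        (f := fun t => φ (t + u / m)) (C := (B * N) ^ q)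
        (fun t _ => by rw [Real.norm_eq_abs]; exact hφb' _)
      rw [Real.norm_eq_abs, show 2 * T - T = T by ring, abs_of_pos hT0] at h
      exact (le_abs_self _).trans h
    rcases lt_or_ge T 2 with h5 | h5
    · have h6 : (B * N) ^ q ≤ E := by
        rw [hE]
        exact Real.rpow_le_rpow hBN (mul_le_mul_of_nonneg_left (by nlinarith) hB) hq0.le
      have h7 : (B * N) ^ q * T ≤ E * T := mul_le_mul_of_nonneg_right h6 hT0.le
      have h8 : E * T ≤ E * (2 + u ^ (2 * K)) * T := by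
        refine mul_le_mul_of_nonneg_right ?_ hT0.le
        nlinarith
      linarith
    rcases le_or_gt |u| (T / 2) with h6 | h6
    · have h7 := abs_le.1 ((hmu u).trans h6)
      have hmono : ∫ t in (T + u / m)..(2 * T + u / m), φ t ≤ ∫ t in (T / 2)..(4 * T), φ t := by
        refine intervalIntegral.integral_mono_interval (by linarith) (by linarith) (by linarith)
          (Filter.Eventually.of_forall hφ0) (hφi _ _)
      have hsplit : ∫ t in (T / 2)..(4 * T), φ t = (∫ t in (T / 2)..T, φ t) +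
          (∫ t in T..(2 * T), φ t) + ∫ t in (2 * T)..(4 * T), φ t := by
        rw [intervalIntegral.integral_add_adjacent_intervals (hφi _ _) (hφi _ _),
          intervalIntegral.integral_add_adjacent_intervals (hφi _ _) (hφi _ _)]
      have q0 : (N : ℝ) ≤ κ * (T / 2) ^ β := by
        have q1 : (1 / 2 : ℝ) ≤ (1 / 2 : ℝ) ^ β := by
          calc (1 / 2 : ℝ) = (1 / 2 : ℝ) ^ (1 : ℝ) := (Real.rpow_one _).symm
            _ ≤ (1 / 2 : ℝ) ^ β :=
              Real.rpow_le_rpow_of_exponent_ge (by norm_num) (by norm_num) hβ1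
        have q2 : (1 / 2 : ℝ) * T ^ β ≤ (T / 2) ^ β := by
          rw [show T / 2 = 1 / 2 * T by ring, Real.mul_rpow (by norm_num) hT0.le]
          exact mul_le_mul_of_nonneg_right q1 (by positivity)
        calc (N : ℝ) ≤ κ / 2 * T ^ β := hNTβ
          _ = κ * (1 / 2 * T ^ β) := by ring
          _ ≤ κ * (T / 2) ^ β := mul_le_mul_of_nonneg_left q2 hκ.le
      have q3 : ∀ S : ℝ, T / 2 ≤ S → (N : ℝ) ≤ κ * S ^ β := fun S hS =>
        q0.trans (mul_le_mul_of_nonneg_left
          (Real.rpow_le_rpow (by positivity) hS hβ0.le) hκ.le)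
      have b1 := hC₁ (T / 2) (by linarith) N hN (q3 _ le_rfl)
      have b2 := hC₁ T hT N hN (q3 _ (by linarith))
      have b3 := hC₁ (2 * T) (by linarith) N hN (q3 _ (by linarith))
      rw [show 2 * (T / 2) = T by ring] at b1
      rw [show 2 * (2 * T) = 4 * T by ring] at b3
      have c1 : C₁ * (N : ℝ) ^ (p * q) * (T / 2) ^ (1 + s) ≤
          |C₁| * ((N : ℝ) ^ (p * q) * T ^ (1 + s)) := by
        have r1 : (T / 2) ^ (1 + s) ≤ T ^ (1 + s) :=
          Real.rpow_le_rpow (by positivity) (by linarith) (by linarith)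
        calc C₁ * (N : ℝ) ^ (p * q) * (T / 2) ^ (1 + s) ≤
            |C₁| * (N : ℝ) ^ (p * q) * (T / 2) ^ (1 + s) :=
              mul_le_mul_of_nonneg_right (mul_le_mul_of_nonneg_right (le_abs_self _)
                (by positivity)) (by positivity)
          _ ≤ |C₁| * (N : ℝ) ^ (p * q) * T ^ (1 + s) :=
              mul_le_mul_of_nonneg_left r1 (by positivity)
          _ = _ := by ring
      have c2 : C₁ * (N : ℝ) ^ (p * q) * T ^ (1 + s) ≤
          |C₁| * ((N : ℝ) ^ (p * q) * T ^ (1 + s)) := by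
        calc C₁ * (N : ℝ) ^ (p * q) * T ^ (1 + s) ≤
            |C₁| * (N : ℝ) ^ (p * q) * T ^ (1 + s) :=
              mul_le_mul_of_nonneg_right (mul_le_mul_of_nonneg_right (le_abs_self _)
                (by positivity)) (by positivity)
          _ = _ := by ring
      have c3 : C₁ * (N : ℝ) ^ (p * q) * (2 * T) ^ (1 + s) ≤
          |C₁| * 2 ^ (1 + s) * ((N : ℝ) ^ (p * q) * T ^ (1 + s)) := by
        rw [Real.mul_rpow (by norm_num) hT0.le]
        calc C₁ * (N : ℝ) ^ (p * q) * (2 ^ (1 + s) * T ^ (1 + s)) ≤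
            |C₁| * (N : ℝ) ^ (p * q) * (2 ^ (1 + s) * T ^ (1 + s)) :=
              mul_le_mul_of_nonneg_right (mul_le_mul_of_nonneg_right (le_abs_self _)
                (by positivity)) (by positivity)
          _ = _ := by ring
      have d1 : ∫ t in (T / 2)..T, φ t ≤ C₁ * (N : ℝ) ^ (p * q) * (T / 2) ^ (1 + s) := b1
      have d2 : ∫ t in T..(2 * T), φ t ≤ C₁ * (N : ℝ) ^ (p * q) * T ^ (1 + s) := b2
      have d3 : ∫ t in (2 * T)..(4 * T), φ t ≤ C₁ * (N : ℝ) ^ (p * q) * (2 * T) ^ (1 + s) := b3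
      have z2 : 0 ≤ E * (2 + u ^ (2 * K)) * T := by positivity
      calc ∫ t in T..(2 * T), φ (t + u / m) ≤ ∫ t in (T / 2)..(4 * T), φ t := by
            rw [hsub]
            exact hmono
        _ ≤ |C₁| * ((N : ℝ) ^ (p * q) * T ^ (1 + s)) +
            |C₁| * ((N : ℝ) ^ (p * q) * T ^ (1 + s)) +
            |C₁| * 2 ^ (1 + s) * ((N : ℝ) ^ (p * q) * T ^ (1 + s)) := by
            rw [hsplit]
            linarith
        _ = D * ((N : ℝ) ^ (p * q) * T ^ (1 + s)) := by
            rw [hD]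
            ring
        _ ≤ _ := by linarith
    · have h8 : (N : ℝ) ≤ κ * |u| := by nlinarith
      have h9 : (B * N) ^ q ≤ E * |u| ^ q := by
        rw [hE, ← Real.mul_rpow (by positivity) (abs_nonneg u)]
        refine Real.rpow_le_rpow hBN ?_ hq0.le
        calc B * N ≤ B * (κ * |u|) := mul_le_mul_of_nonneg_left h8 hB
          _ = B * κ * |u| := by ring
      have h10 : |u| ^ q ≤ 2 + u ^ (2 * K) := by
        have h11 : 1 ≤ |u| := by linarith
        have h12 : |u| ^ q ≤ u ^ (2 * K) := by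
          calc |u| ^ q ≤ |u| ^ ((2 * K : ℕ) : ℝ) := by
                refine Real.rpow_le_rpow_of_exponent_le h11 ?_
                push_cast
                linarith
            _ = |u| ^ (2 * K) := Real.rpow_natCast _ _
            _ = u ^ (2 * K) := by rw [pow_mul, sq_abs, pow_mul]
        linarith
      have h11 : E * |u| ^ q ≤ E * (2 + u ^ (2 * K)) := mul_le_mul_of_nonneg_left h10 hE0
      have h12 : (B * N) ^ q * T ≤ E * (2 + u ^ (2 * K)) * T :=
        mul_le_mul_of_nonneg_right (h9.trans h11) hT0.le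
      linarith
  obtain ⟨s1, s2, s3⟩ := ML1_swap (m := m) (T := T) hφm hφb'
  have hPint : ∫ t in Ioc T (2 * T), (∫ u : ℝ, φ (t + u / m) * w u) ≤
      ((D + 2 * E) * W0 + E * WK) * ((N : ℝ) ^ (p * q) * T ^ (1 + s)) := by
    rw [s2]
    have j1 : Integrable fun u : ℝ =>
        (D * ((N : ℝ) ^ (p * q) * T ^ (1 + s)) + 2 * E * T) * w u := ML1_w_int.const_mul _
    have j2 : Integrable fun u : ℝ => (E * T) * (u ^ (2 * K) * w u) :=
      (ML1_wk_int (2 * K)).const_mul _
    calc ∫ u : ℝ, (∫ t in Ioc T (2 * T), φ (t + u / m)) * w u ≤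
          ∫ u : ℝ, ((D * ((N : ℝ) ^ (p * q) * T ^ (1 + s)) + 2 * E * T) * w u +
            (E * T) * (u ^ (2 * K) * w u)) := by
          refine integral_mono s3 (j1.add j2) fun u => ?_
          have h := mul_le_mul_of_nonneg_right (hin u) (ML1_w_pos u).le
          simp only
          calc _ ≤ _ := h
            _ = _ := by ring
      _ = (D * ((N : ℝ) ^ (p * q) * T ^ (1 + s)) + 2 * E * T) * W0 + (E * T) * WK := by
          rw [integral_add j1 j2, integral_const_mul, integral_const_mul, ← hW0, ← hWK]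
      _ = D * W0 * ((N : ℝ) ^ (p * q) * T ^ (1 + s)) + (2 * E * W0 + E * WK) * T := by ring
      _ ≤ D * W0 * ((N : ℝ) ^ (p * q) * T ^ (1 + s)) +
          (2 * E * W0 + E * WK) * ((N : ℝ) ^ (p * q) * T ^ (1 + s)) := by
          have := mul_le_mul_of_nonneg_left hTN (by positivity : 0 ≤ 2 * E * W0 + E * WK)
          linarith
      _ = _ := by ring
  have hLq : 0 ≤ (C₀ * B) ^ q := Real.rpow_nonneg (by positivity) _
  have h2q : (0 : ℝ) ≤ 2 ^ q := by positivity
  have hW0q : 0 ≤ W0 ^ (q - 1) := by positivity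
  have hpt : ∀ t : ℝ, (∫ u : ℝ, |∑ n ∈ Finset.Icc 1 N, G ((t + u / m) * Real.log n)| * w u) ^ q ≤
      2 ^ q * (2 ^ q * W0 ^ (q - 1) * ∫ u : ℝ, φ (t + u / m) * w u) + 2 ^ q * (C₀ * B) ^ q := by
    intro t
    have h := ML1_point (m := m) (t := t) (L := C₀ * B) hq hFm hFb (by positivity) (hM G B hG t N)
    rw [← hW0] at h
    exact h
  rw [intervalIntegral.integral_of_le (by linarith)]
  have k1 : Integrable (fun t : ℝ => 2 ^ q * (2 ^ q * W0 ^ (q - 1) *
      ∫ u : ℝ, φ (t + u / m) * w u)) (volume.restrict (Ioc T (2 * T))) :=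
    (s1.const_mul _).const_mul _
  have k2 : Integrable (fun _ : ℝ => 2 ^ q * (C₀ * B) ^ q) (volume.restrict (Ioc T (2 * T))) :=
    integrable_const _
  calc ∫ t in Ioc T (2 * T),
        (∫ u : ℝ, |∑ n ∈ Finset.Icc 1 N, G ((t + u / m) * Real.log n)| * w u) ^ q ≤
        ∫ t in Ioc T (2 * T), (2 ^ q * (2 ^ q * W0 ^ (q - 1) * ∫ u : ℝ, φ (t + u / m) * w u) +
          2 ^ q * (C₀ * B) ^ q) := by
        refine integral_mono_of_nonneg (Filter.Eventually.of_forall fun t => ?_) (k1.add k2)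
          (Filter.Eventually.of_forall hpt)
        exact Real.rpow_nonneg
          (integral_nonneg fun u => mul_nonneg (abs_nonneg _) (ML1_w_pos u).le) _
    _ = 2 ^ q * (2 ^ q * W0 ^ (q - 1) * ∫ t in Ioc T (2 * T),
          (∫ u : ℝ, φ (t + u / m) * w u)) + 2 ^ q * (C₀ * B) ^ q * T := by
        rw [integral_add k1 k2, integral_const_mul, integral_const_mul, setIntegral_const]
        simp only [Measure.real, Real.volume_Ioc, smul_eq_mul]
        rw [show 2 * T - T = T by ring, ENNReal.toReal_ofReal hT0.le]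
        ring
    _ ≤ 2 ^ q * (2 ^ q * W0 ^ (q - 1) *
          (((D + 2 * E) * W0 + E * WK) * ((N : ℝ) ^ (p * q) * T ^ (1 + s)))) +
          2 ^ q * (C₀ * B) ^ q * ((N : ℝ) ^ (p * q) * T ^ (1 + s)) := by
        have l1 := mul_le_mul_of_nonneg_left (mul_le_mul_of_nonneg_left hPint
          (by positivity : 0 ≤ 2 ^ q * W0 ^ (q - 1))) h2q
        have l2 := mul_le_mul_of_nonneg_left hTN (by positivity : 0 ≤ 2 ^ q * (C₀ * B) ^ q)
        linarith
    _ = _ := by ring

end Pool.Agent.Ben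

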