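import Pool.Agent.Ben.Targets8
import Pool.Agent.Ben.P_WLH

/-!
# Ben, moments, target `M_LHK`: all means give the pointwise bound
-/

set_option autoImplicit false

namespace Pool.Agent.Ben

open Complex MeasureTheory Set Filter Topology

private theorem MLHK_cont : Continuous fun t : ℝ => ‖riemannZeta (1 / 2 + t * I)‖ := by
  rw [continuous_iff_continuousAt]
  intro t
  have h2 : ContinuousAt riemannZeta (1 / 2 + t * I) := by
    apply (differentiableAt_riemannZeta _).continuousAt
    intro h3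
    have := congrArg Complex.re h3
    norm_num at this
  have h3 : ContinuousAt (fun t : ℝ => (1 / 2 : ℂ) + t * I) t := by fun_prop
  exact (ContinuousAt.comp (f := fun t : ℝ => (1 / 2 : ℂ) + t * I) h2 h3).norm

/-- a form of the inequality of Young -/
private theorem MLHK_young {f l q : ℝ} (hf : 0 ≤ f) (hl : 0 < l) (hq : 1 ≤ q) :
    f ≤ l + l ^ (1 - q) * f ^ q := by
  rcases le_total f l with h | h
  · have : 0 ≤ l ^ (1 - q) * f ^ q := by positivity
    linarith
  · have hf0 : 0 < f := lt_of_lt_of_le hl h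
    have e1 : f ^ (1 - q) * f ^ q = f := by
      rw [← Real.rpow_add hf0]
      simp
    have h2 : f ^ (1 - q) ≤ l ^ (1 - q) :=
      Real.rpow_le_rpow_of_nonpos hl h (by linarith)
    have h3 : f ^ (1 - q) * f ^ q ≤ l ^ (1 - q) * f ^ q :=
      mul_le_mul_of_nonneg_right h2 (by positivity)
    linarith

/-- local `L¹` means over intervals of length `2 log T` -/
private theorem MLHK_local {a : ℝ} (ha : 0 ≤ a) (h : ∀ q : ℝ, 1 ≤ q → ZM q a) {ε : ℝ}
    (hε : 0 < ε) : ∃ C T₁ : ℝ, 0 ≤ C ∧ 2 ≤ T₁ ∧ ∀ T : ℝ, T₁ ≤ T →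
      ∫ v in (-Real.log T)..(Real.log T), ‖riemannZeta (1 / 2 + ((T + v : ℝ) : ℂ) * I)‖ ≤
        C * T ^ (a + ε) := by
  set q : ℝ := max 1 (4 / ε) with hq
  have hq1 : 1 ≤ q := le_max_left _ _
  have hq0 : 0 < q := by linarith
  have hqε : 1 / q ≤ ε / 4 := by
    have h1 : 4 / ε ≤ q := le_max_right _ _
    rw [div_le_iff₀ hε] at h1
    rw [div_le_iff₀ hq0]
    linarith
  obtain ⟨C0, h0⟩ := h q hq1 (ε / 4) (by positivity)
  obtain ⟨T4, hT4, hnear⟩ := Pool.Agent.DBN.log_near
  refine ⟨2 * (4 / ε) + 2 * |C0|, T4, by positivity, hT4, fun T hT => ?_⟩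
  have hT2 : 2 ≤ T := hT4.trans hT
  have hT0 : 0 < T := by linarith
  have hT1 : 1 ≤ T := by linarith
  have hL : 0 < Real.log T := Real.log_pos (by linarith)
  set L := Real.log T with hLd
  set f : ℝ → ℝ := fun t => ‖riemannZeta (1 / 2 + (t : ℂ) * I)‖ with hf
  have hfc : Continuous f := MLHK_cont
  have hf0 : ∀ t, 0 ≤ f t := fun t => norm_nonneg _
  have hfq : Continuous fun t => f t ^ q := hfc.rpow_const fun t => Or.inr hq0.le
  have hfq0 : ∀ t, 0 ≤ f t ^ q := fun t => Real.rpow_nonneg (hf0 t) q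
  obtain ⟨-, hlo, -, -⟩ := hnear T (T - L) hT (by
    rw [sub_sub_cancel_left, abs_neg, abs_of_pos hL])
  obtain ⟨-, -, hhi, -⟩ := hnear T (T + L) hT (by
    rw [add_sub_cancel_left, abs_of_pos hL])
  have e1 : ∫ v in (-L)..L, ‖riemannZeta (1 / 2 + ((T + v : ℝ) : ℂ) * I)‖ =
      ∫ t in (T - L)..(T + L), f t := by
    have := intervalIntegral.integral_comp_add_left (a := -L) (b := L) f T
    rw [← sub_eq_add_neg] at this
    exact this
  rw [e1]
  set b : ℝ := a + ε / 4 with hb
  set l : ℝ := T ^ (1 / q + b) with hl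
  have hl0 : 0 < l := by positivity
  -- the mean of order q
  have hI : ∫ t in (T - L)..(T + L), f t ^ q ≤ 2 * |C0| * T ^ (1 + q * b) := by
    have h1 : ∫ t in (T - L)..(T + L), f t ^ q ≤ ∫ t in (T / 2)..(2 * T), f t ^ q :=
      intervalIntegral.integral_mono_interval hlo (by linarith) hhi
        (Eventually.of_forall hfq0) (hfq.intervalIntegrable _ _)
    have h2 : ∫ t in (T / 2)..(2 * T), f t ^ q =
        (∫ t in (T / 2)..T, f t ^ q) + ∫ t in T..(2 * T), f t ^ q :=
      (intervalIntegral.integral_add_adjacent_intervals (hfq.intervalIntegrable _ _)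
        (hfq.intervalIntegrable _ _)).symm
    have h3 := h0 (T / 2) (by linarith)
    rw [mul_div_cancel₀ T (by norm_num : (2 : ℝ) ≠ 0)] at h3
    have h4 := h0 T hT1
    have hb0 : 0 ≤ 1 + q * b := by positivity
    have h5 : (T / 2) ^ (1 + q * b) ≤ T ^ (1 + q * b) :=
      Real.rpow_le_rpow (by positivity) (by linarith) hb0
    have h6 : C0 * (T / 2) ^ (1 + q * b) ≤ |C0| * T ^ (1 + q * b) :=
      mul_le_mul (le_abs_self _) h5 (by positivity) (abs_nonneg _)
    have h7 : C0 * T ^ (1 + q * b) ≤ |C0| * T ^ (1 + q * b) :=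
      mul_le_mul_of_nonneg_right (le_abs_self _) (by positivity)
    calc ∫ t in (T - L)..(T + L), f t ^ q ≤
        (∫ t in (T / 2)..T, f t ^ q) + ∫ t in T..(2 * T), f t ^ q := h1.trans_eq h2
      _ ≤ C0 * (T / 2) ^ (1 + q * b) + C0 * T ^ (1 + q * b) := add_le_add h3 h4
      _ ≤ _ := by linarith
  have hY : ∫ t in (T - L)..(T + L), f t ≤
      ∫ t in (T - L)..(T + L), (l + l ^ (1 - q) * f t ^ q) := by
    refine intervalIntegral.integral_mono_on (by linarith) (hfc.intervalIntegrable _ _)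
      ((continuous_const.add (continuous_const.mul hfq)).intervalIntegrable _ _) ?_
    intro t _
    exact MLHK_young (hf0 t) hl0 hq1
  have hE : ∫ t in (T - L)..(T + L), (l + l ^ (1 - q) * f t ^ q) =
      2 * L * l + l ^ (1 - q) * ∫ t in (T - L)..(T + L), f t ^ q := by
    have i1 : IntervalIntegrable (fun _ : ℝ => l) volume (T - L) (T + L) :=
      continuous_const.intervalIntegrable _ _
    have i2 : IntervalIntegrable (fun t => l ^ (1 - q) * f t ^ q) volume (T - L) (T + L) :=
      (continuous_const.mul hfq).intervalIntegrable _ _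
    rw [intervalIntegral.integral_add i1 i2, intervalIntegral.integral_const,
      intervalIntegral.integral_const_mul, smul_eq_mul]
    ring
  have hP : l ^ (1 - q) * (2 * |C0| * T ^ (1 + q * b)) = 2 * |C0| * l := by
    have h1 : l ^ (1 - q) * T ^ (1 + q * b) = l := by
      rw [hl, ← Real.rpow_mul hT0.le, ← Real.rpow_add hT0]
      congr 1
      field_simp
      ring
    calc l ^ (1 - q) * (2 * |C0| * T ^ (1 + q * b)) =
        2 * |C0| * (l ^ (1 - q) * T ^ (1 + q * b)) := by ring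
      _ = _ := by rw [h1]
  have hLT : L ≤ 4 / ε * T ^ (ε / 4) := by
    have := Real.log_le_rpow_div hT0.le (by positivity : 0 < ε / 4)
    calc L ≤ T ^ (ε / 4) / (ε / 4) := this
      _ = 4 / ε * T ^ (ε / 4) := by field_simp
  have h1T : 1 ≤ T ^ (ε / 4) := Real.one_le_rpow hT1 (by positivity)
  have hlT : T ^ (ε / 4) * l ≤ T ^ (a + ε) := by
    rw [hl, ← Real.rpow_add hT0]
    exact Real.rpow_le_rpow_of_exponent_le hT1 (by rw [hb]; linarith)
  calc ∫ t in (T - L)..(T + L), f t ≤
      2 * L * l + l ^ (1 - q) * ∫ t in (T - L)..(T + L), f t ^ q := hY.trans_eq hE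
    _ ≤ 2 * L * l + l ^ (1 - q) * (2 * |C0| * T ^ (1 + q * b)) := by gcongr
    _ = 2 * L * l + 2 * |C0| * l := by rw [hP]
    _ ≤ 2 * (4 / ε * T ^ (ε / 4)) * l + 2 * |C0| * (T ^ (ε / 4) * l) := by
        have : l ≤ T ^ (ε / 4) * l := le_mul_of_one_le_left hl0.le h1T
        gcongr
    _ = (2 * (4 / ε) + 2 * |C0|) * (T ^ (ε / 4) * l) := by ring
    _ ≤ _ := by gcongr

open Pool.Agent.DBN in
/-- the windowed transform at large heights -/
private theorem MLHK_win {a : ℝ} (ha : 0 ≤ a) (h : ∀ q : ℝ, 1 ≤ q → ZM q a) {ε : ℝ}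
    (hε : 0 < ε) : ∃ C T₁ : ℝ, 0 ≤ C ∧ 2 ≤ T₁ ∧ ∀ T ω : ℝ, T₁ ≤ T →
      ‖win ω T‖ ≤ C * T ^ (a + ε) * size T := by
  obtain ⟨C₁, T₁, hC₁, hT₁, h1⟩ := MLHK_local ha h hε
  obtain ⟨C₃, K, T₃, hC₃, hK, hT₃, h3⟩ := flow_near 0
  obtain ⟨T₄, hT₄, hnear⟩ := log_near
  obtain ⟨C₀, hC₀, h0⟩ := xi_two (1 / 2)
  have hlog : ∀ᶠ T : ℝ in atTop, 4 * K ≤ Real.log T :=
    Real.tendsto_log_atTop.eventually_ge_atTop _
  obtain ⟨T₅, hT₅⟩ := eventually_atTop.mp hlog
  set K1 : ℝ := C₀ * (2 ^ (7 / 4 : ℝ) * Real.exp 1) with hK1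
  have hC₀0 : 0 ≤ C₀ := by linarith
  have hK10 : 0 ≤ K1 := by positivity
  refine ⟨K1 * C₁ + C₃ * √(Real.pi / (1 / 2)), max (max T₁ T₃) (max T₄ T₅), by positivity,
    hT₁.trans ((le_max_left _ _).trans (le_max_left _ _)), fun T ω hT => ?_⟩
  have hTa : T₁ ≤ T := ((le_max_left _ _).trans (le_max_left _ _)).trans hT
  have hTb : T₃ ≤ T := ((le_max_right _ _).trans (le_max_left _ _)).trans hT
  have hTc : T₄ ≤ T := ((le_max_left _ _).trans (le_max_right _ _)).trans hT
  have hTd : T₅ ≤ T := ((le_max_right _ _).trans (le_max_right _ _)).trans hT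
  have hT2 : 2 ≤ T := hT₁.trans hTa
  have hT0 : 0 < T := by linarith
  have hs0 := size_pos hT0
  have hL := log_pos_of hT2
  have h4K := hT₅ T hTd
  have hI := h1 T hTa
  set L := Real.log T with hLd
  have hp1 : 1 ≤ T ^ (a + ε) := Real.one_le_rpow (by linarith) (by linarith)
  have hπ := Real.pi_pos
  have hπ4 := Real.pi_lt_four
  -- the majorant
  set f : ℝ → ℝ := fun v => ‖riemannZeta (1 / 2 + ((T + v : ℝ) : ℂ) * I)‖ with hf
  have hfc : Continuous f := by
    have h5 : Continuous fun v : ℝ => T + v := by fun_prop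
    exact MLHK_cont.comp h5
  have hf0 : ∀ v, 0 ≤ f v := fun v => norm_nonneg _
  set g : ℝ → ℝ := fun v => (Icc (-L) L).indicator (fun v => K1 * size T * f v) v +
    C₃ * (T ^ (a + ε) * size T) * Real.exp (-(1 / 2) * v ^ 2) with hg
  have hgi1 : Integrable ((Icc (-L) L).indicator fun v => K1 * size T * f v) := by
    rw [integrable_indicator_iff measurableSet_Icc]
    exact (continuous_const.mul hfc).continuousOn.integrableOn_compact isCompact_Icc
  have hgi2 : Integrable fun v : ℝ => C₃ * (T ^ (a + ε) * size T) *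
      Real.exp (-(1 / 2) * v ^ 2) :=
    (integrable_exp_neg_mul_sq (by norm_num)).const_mul _
  have hgi : Integrable g := hgi1.add hgi2
  have hbound : ∀ v : ℝ, ‖exp (-(v : ℂ) ^ 2 + ω * v * I) * xi (1 / 2 + (T + v) * I)‖ ≤
      g v := by
    intro v
    rw [norm_mul, Complex.norm_exp]
    have e1 : (-(v : ℂ) ^ 2 + ω * v * I).re = -v ^ 2 := by
      have : (-(v : ℂ) ^ 2 + ω * v * I) = ((-v ^ 2 : ℝ) : ℂ) + ((ω * v : ℝ) : ℂ) * I := by
        push_cast; ring
      rw [this]
      simp [-Complex.ofReal_neg, -Complex.ofReal_pow, -Complex.ofReal_mul]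
    rw [e1]
    rcases le_or_gt |v| L with hv | hv
    · have hTT : |(T + v) - T| ≤ L := by simpa using hv
      obtain ⟨hT'2, hlow, hup, -⟩ := hnear T (T + v) hTc hTT
      have hT'0 : 0 < T + v := by linarith
      have hs0' := size_pos hT'0
      have h5 : ‖xi (1 / 2 + (T + v) * I)‖ ≤ C₀ * (size (T + v) * f v) := by
        have h6 := (h0 (1 / 2) (T + v) (by rw [abs_of_pos (by norm_num)]) hT'2).1
        have e2 : ((1 / 2 : ℝ) - 1 / 2) / 2 = 0 := by norm_num
        rw [e2, Real.rpow_zero, one_mul] at h6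
        have e3 : (((1 / 2 : ℝ) : ℂ) + ((T + v : ℝ) : ℂ) * I) =
            1 / 2 + ((T + v : ℝ) : ℂ) * I := by push_cast; ring
        rw [e3] at h6
        have e4 : (1 / 2 + ((T : ℂ) + v) * I : ℂ) = 1 / 2 + ((T + v : ℝ) : ℂ) * I := by
          push_cast; ring
        rw [e4]
        exact h6
      have h7 : size (T + v) ≤ 2 ^ (7 / 4 : ℝ) * size T * Real.exp |v| := by
        unfold size
        have h8 := rpow_shift_le hT0 hlow hup (7 / 4)
        rw [abs_of_pos (by norm_num : (0 : ℝ) < 7 / 4)] at h8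
        have h9 : Real.exp (-(Real.pi * (T + v) / 4)) ≤
            Real.exp (-(Real.pi * T / 4)) * Real.exp |v| := by
          rw [← Real.exp_add, Real.exp_le_exp]
          have h10 := neg_abs_le v
          have h11 := abs_nonneg v
          nlinarith
        calc (T + v) ^ (7 / 4 : ℝ) * Real.exp (-(Real.pi * (T + v) / 4))
            ≤ (2 ^ (7 / 4 : ℝ) * T ^ (7 / 4 : ℝ)) * (Real.exp (-(Real.pi * T / 4)) *
              Real.exp |v|) := by gcongr
          _ = _ := by ring
      have h8 : Real.exp (-v ^ 2) * Real.exp |v| ≤ Real.exp 1 := by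
        rw [← Real.exp_add, Real.exp_le_exp, ← sq_abs v]
        nlinarith [sq_nonneg (|v| - 1), abs_nonneg v]
      have hmem : v ∈ Icc (-L) L := abs_le.mp hv
      have hg1 : K1 * size T * f v ≤ g v := by
        simp only [hg]
        rw [indicator_of_mem hmem]
        have : 0 ≤ C₃ * (T ^ (a + ε) * size T) * Real.exp (-(1 / 2) * v ^ 2) := by positivity
        linarith
      refine le_trans ?_ hg1
      calc Real.exp (-v ^ 2) * ‖xi (1 / 2 + (T + v) * I)‖
          ≤ Real.exp (-v ^ 2) * (C₀ * ((2 ^ (7 / 4 : ℝ) * size T * Real.exp |v|) * f v)) := by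
            have := hf0 v
            gcongr
            exact h5.trans (by gcongr)
        _ = C₀ * 2 ^ (7 / 4 : ℝ) * size T * f v * (Real.exp (-v ^ 2) * Real.exp |v|) := by
            ring
        _ ≤ C₀ * 2 ^ (7 / 4 : ℝ) * size T * f v * Real.exp 1 := by
            have := hf0 v
            gcongr
        _ = K1 * size T * f v := by rw [hK1]; ring
    · have h4 := h3 T v hTb
      rw [zero_div, flow_zero] at h4
      have h5 : Real.exp (-v ^ 2) * (T ^ K * Real.exp (K * |v|)) ≤
          Real.exp (-(1 / 2) * v ^ 2) := by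
        rw [Real.rpow_def_of_pos hT0, ← Real.exp_add, ← Real.exp_add, Real.exp_le_exp, ← hLd]
        have h7 : L * K ≤ K * |v| := by nlinarith
        have h8 : 4 * K * |v| ≤ v ^ 2 := by
          rw [← sq_abs v, sq]
          gcongr
          linarith
        nlinarith
      have hg1 : C₃ * (T ^ (a + ε) * size T) * Real.exp (-(1 / 2) * v ^ 2) ≤ g v := by
        simp only [hg]
        have : 0 ≤ (Icc (-L) L).indicator (fun v => K1 * size T * f v) v :=
          indicator_nonneg (fun x _ => by have := hf0 x; positivity) v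
        linarith
      refine le_trans ?_ hg1
      calc Real.exp (-v ^ 2) * ‖xi (1 / 2 + (T + v) * I)‖
          ≤ Real.exp (-v ^ 2) * (C₃ * size T * T ^ K * Real.exp (K * |v|)) := by gcongr
        _ = C₃ * (1 * size T) * (Real.exp (-v ^ 2) * (T ^ K * Real.exp (K * |v|))) := by ring
        _ ≤ C₃ * (T ^ (a + ε) * size T) * Real.exp (-(1 / 2) * v ^ 2) := by gcongr
  have hint : ∫ v, g v = K1 * size T * (∫ v in (-L)..L, f v) +
      C₃ * (T ^ (a + ε) * size T) * √(Real.pi / (1 / 2)) := by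
    simp only [hg]
    rw [integral_add hgi1 hgi2, integral_indicator measurableSet_Icc, integral_const_mul,
      integral_const_mul, integral_gaussian, intervalIntegral.integral_of_le (by linarith),
      integral_Icc_eq_integral_Ioc]
  unfold win
  refine (norm_integral_le_of_norm_le hgi (Eventually.of_forall hbound)).trans ?_
  rw [hint]
  calc K1 * size T * (∫ v in (-L)..L, f v) +
      C₃ * (T ^ (a + ε) * size T) * √(Real.pi / (1 / 2)) ≤
      K1 * size T * (C₁ * T ^ (a + ε)) +
      C₃ * (T ^ (a + ε) * size T) * √(Real.pi / (1 / 2)) := by gcongr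
    _ = _ := by ring

open Pool.Agent.DBN in
private theorem MLHK_winLe {a : ℝ} (ha : 0 ≤ a) (h : ∀ q : ℝ, 1 ≤ q → ZM q a) (y : ℝ) :
    WinLe y a := by
  intro ε hε
  obtain ⟨C₁, T₀, hC₁, hT₀, h1⟩ := MLHK_win ha h hε
  obtain ⟨B, hB⟩ := win_small T₀
  obtain ⟨m, hm0, hm⟩ : ∃ m : ℝ, 0 < m ∧ ∀ T : ℝ, 2 ≤ T → T ≤ T₀ →
      m ≤ T ^ (a + ε) * size T := by
    have hcont : ContinuousOn (fun T : ℝ => T ^ (a + ε) * size T) (Icc 2 T₀) := by
      intro T hT
      apply ContinuousAt.continuousWithinAt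
      unfold size
      have h3 := Real.continuousAt_rpow_const T (a + ε) (Or.inl (by linarith [hT.1]))
      have h4 := Real.continuousAt_rpow_const T (7 / 4) (Or.inl (by linarith [hT.1]))
      have h5 : ContinuousAt (fun T : ℝ => Real.exp (-(Real.pi * T / 4))) T := by fun_prop
      exact h3.mul (h4.mul h5)
    obtain ⟨T', hT', hmin⟩ := isCompact_Icc.exists_isMinOn (nonempty_Icc.mpr hT₀) hcont
    have hpos : 0 < T' := by linarith [hT'.1]
    have hs := size_pos hpos
    exact ⟨T' ^ (a + ε) * size T', by positivity, fun T hT hT2 => hmin ⟨hT, hT2⟩⟩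
  refine ⟨1, one_pos, max C₁ (|B| / m), fun T ω hT _ => ?_⟩
  have hT0 : 0 < T := by linarith
  have hs0 := size_pos hT0
  have hp : 0 < T ^ (a + ε) := by positivity
  rcases le_total T T₀ with h3 | h3
  · have h4 := hm T hT h3
    calc ‖win ω T‖ ≤ |B| := (hB T ω hT h3).trans (le_abs_self _)
      _ = |B| / m * m := by field_simp
      _ ≤ |B| / m * (T ^ (a + ε) * size T) := by gcongr
      _ ≤ max C₁ (|B| / m) * (T ^ (a + ε) * size T) := by
          gcongr
          exact le_max_right _ _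
      _ = _ := by ring
  · refine (h1 T ω h3).trans ?_
    gcongr
    exact le_max_left _ _

open Pool.Agent.DBN in
theorem p_MLHK : M_LHK := by
  intro a ha h
  have hg : GrowthLe 0 a := by
    apply growth_of_win
    intro y _
    have e1 : a - 0 * y ^ 2 / 4 = a := by ring
    rw [e1]
    exact MLHK_winLe ha h y
  exact WLH_lind ha (growth_zero.mp hg)

end Pool.Agent.Ben
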