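import Pool.Agent.Ben.Targets8
import Pool.Agent.Ben.P_GMS

/-!
# M_MS: the mean square of a Dirichlet polynomial, in the mean
-/

set_option autoImplicit false

namespace Pool.Agent.Ben

open Complex MeasureTheory Set

theorem p_MMS : M_MS := by
  intro p η κ β hp hη hκ hβ hGM
  set θ : ℝ := max p η with hθd
  have hθ : θ < 1 / 2 := max_lt hp hη
  obtain ⟨q, hq⟩ := exists_nat_ge (max 4 (2 / β))
  have hq4 : (4 : ℝ) ≤ q := le_trans (le_max_left _ _) hq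
  have hq4' : 4 ≤ q := by exact_mod_cast hq4
  have hq0 : (0 : ℝ) < q := by linarith
  have hqβ : 2 ≤ (q : ℝ) * β := by
    have := le_trans (le_max_right _ _) hq
    rwa [div_le_iff₀ hβ] at this
  set ε : ℝ := (1 - 2 * θ) / (2 * q) with hε
  have hε0 : 0 < ε := by
    rw [hε]
    exact div_pos (by linarith) (by linarith)
  obtain ⟨C, hC⟩ := hGM ε hε0
  have hx : 0 < (1 - 2 * θ) / 2 := by linarith
  have ht1 : Filter.Tendsto (fun M : ℕ => (M : ℝ) ^ ((1 - 2 * θ) / 2)) Filter.atTop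
      Filter.atTop := (tendsto_rpow_atTop hx).comp tendsto_natCast_atTop_atTop
  have ht2 : Filter.Tendsto (fun M : ℕ => κ * (M : ℝ)) Filter.atTop Filter.atTop :=
    Filter.Tendsto.const_mul_atTop hκ tendsto_natCast_atTop_atTop
  obtain ⟨M, h1, h2, h3⟩ := ((ht1.eventually_gt_atTop (16 * |C|)).and
    ((ht2.eventually_ge_atTop 1).and (Filter.eventually_ge_atTop 3))).exists
  have hM0 : (3 : ℝ) ≤ M := by exact_mod_cast h3
  have hM1 : (1 : ℝ) ≤ M := by linarith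
  have hMp : (0 : ℝ) < M := by linarith
  set T : ℝ := (M : ℝ) ^ q with hT
  have hTp : 0 < T := by positivity
  have hT1 : 1 ≤ T := one_le_pow₀ (by linarith)
  have hlow := GMS_lower M h3 T (pow_le_pow_right₀ (by linarith) hq4')
  have hMT : (M : ℝ) ≤ κ * T ^ β := by
    rw [hT, ← Real.rpow_natCast (M : ℝ) q, ← Real.rpow_mul hMp.le]
    have b1 : (M : ℝ) ^ (2 : ℝ) ≤ (M : ℝ) ^ ((q : ℝ) * β) :=
      Real.rpow_le_rpow_of_exponent_le (by linarith) hqβ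
    have b2 : (M : ℝ) ^ (2 : ℝ) = M * M := by
      rw [Real.rpow_two]
      ring
    rw [b2] at b1
    calc (M : ℝ) = 1 * M := (one_mul _).symm
      _ ≤ (κ * M) * M := mul_le_mul_of_nonneg_right h2 hMp.le
      _ = κ * (M * M) := by ring
      _ ≤ _ := mul_le_mul_of_nonneg_left b1 hκ.le
  have hup := hC T hT1 M (by omega) hMT M hM1 le_rfl
  have heq : ∫ t in T..(2 * T), ‖gs M t (Real.log (M : ℝ))‖ ^ (2 : ℝ) =
      ∫ t in T..2 * T, ‖∑ n ∈ Finset.Icc 1 M, e (t * Real.log n) * (YMS_w M n : ℝ)‖ ^ 2 := by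
    congr 1
    ext t
    rw [Real.rpow_two]
    rfl
  rw [heq] at hup
  have h4 := hlow.trans hup
  have b1 : (M : ℝ) ^ (p * 2) * T ^ ((2 : ℝ) * 0) ≤ (M : ℝ) ^ (2 * θ) := by
    rw [mul_zero, Real.rpow_zero, mul_one]
    refine Real.rpow_le_rpow_of_exponent_le hM1 ?_
    have := le_max_left p η
    linarith
  have b2 : (M : ℝ) ^ (η * 2) ≤ (M : ℝ) ^ (2 * θ) := by
    refine Real.rpow_le_rpow_of_exponent_le hM1 ?_
    have := le_max_right p η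
    linarith
  have b3 : 0 < (M : ℝ) ^ (2 * θ) := Real.rpow_pos_of_pos hMp _
  have b4 : (0 : ℝ) ≤ (M : ℝ) ^ (p * 2) * T ^ ((2 : ℝ) * 0) + (M : ℝ) ^ (η * 2) :=
    add_nonneg (mul_nonneg (Real.rpow_nonneg hMp.le _) (Real.rpow_nonneg hTp.le _))
      (Real.rpow_nonneg hMp.le _)
  have b5 : 0 < T ^ (1 + ε) := Real.rpow_pos_of_pos hTp _
  have h5 : C * ((M : ℝ) ^ (p * 2) * T ^ ((2 : ℝ) * 0) + (M : ℝ) ^ (η * 2)) * T ^ (1 + ε) ≤
      |C| * (2 * (M : ℝ) ^ (2 * θ)) * T ^ (1 + ε) := by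
    refine mul_le_mul_of_nonneg_right ?_ b5.le
    calc C * ((M : ℝ) ^ (p * 2) * T ^ ((2 : ℝ) * 0) + (M : ℝ) ^ (η * 2))
        ≤ |C| * ((M : ℝ) ^ (p * 2) * T ^ ((2 : ℝ) * 0) + (M : ℝ) ^ (η * 2)) :=
          mul_le_mul_of_nonneg_right (le_abs_self _) b4
      _ ≤ |C| * (2 * (M : ℝ) ^ (2 * θ)) :=
          mul_le_mul_of_nonneg_left (by linarith) (abs_nonneg _)
  have h6 : T ^ (1 + ε) = T * (M : ℝ) ^ ((1 - 2 * θ) / 2) := by
    rw [Real.rpow_add hTp, Real.rpow_one]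
    congr 1
    rw [hT, ← Real.rpow_natCast (M : ℝ) q, ← Real.rpow_mul hMp.le]
    congr 1
    rw [hε]
    field_simp
  rw [h6] at h5
  rw [h6] at h4
  have h7 : T * (M / 8 : ℝ) ≤
      T * (|C| * (2 * (M : ℝ) ^ (2 * θ)) * (M : ℝ) ^ ((1 - 2 * θ) / 2)) := by
    refine h4.trans (h5.trans (le_of_eq ?_))
    ring
  have h8 := le_of_mul_le_mul_left h7 hTp
  have h9 : (M : ℝ) = (M : ℝ) ^ (2 * θ) * (M : ℝ) ^ ((1 - 2 * θ) / 2) *
      (M : ℝ) ^ ((1 - 2 * θ) / 2) := by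
    rw [← Real.rpow_add hMp, ← Real.rpow_add hMp]
    have : 2 * θ + (1 - 2 * θ) / 2 + (1 - 2 * θ) / 2 = 1 := by ring
    rw [this, Real.rpow_one]
  have b6 : 0 < (M : ℝ) ^ ((1 - 2 * θ) / 2) := Real.rpow_pos_of_pos hMp _
  have h10 : (M : ℝ) ^ (2 * θ) * (M : ℝ) ^ ((1 - 2 * θ) / 2) *
      (M : ℝ) ^ ((1 - 2 * θ) / 2) ≤
      (M : ℝ) ^ (2 * θ) * (M : ℝ) ^ ((1 - 2 * θ) / 2) * (16 * |C|) := by
    rw [← h9]
    linarith
  exact absurd (le_of_mul_le_mul_left h10 (mul_pos b3 b6)) (not_le.2 h1)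

end Pool.Agent.Ben
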