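import Pool.Agent.Ben.Targets9

/-!
# Ben, moments, target `M_MSA`: no better exponent in the mean of order one
-/

set_option autoImplicit false

namespace Pool.Agent.Ben

open Complex MeasureTheory Set

private theorem MMSA_cont (M : ℕ) (y : ℝ) : Continuous fun t : ℝ => ‖gs M t y‖ := by
  unfold gs e
  fun_prop

private theorem MMSA_young {f l : ℝ} (hf : 0 ≤ f) (hl : 0 < l) :
    f ^ 2 ≤ l * f + (l ^ 2)⁻¹ * f ^ 4 := by
  rcases le_total f l with h | h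
  · have h1 : 0 ≤ (l ^ 2)⁻¹ * f ^ 4 := by positivity
    nlinarith
  · have h1 : f ^ 2 ≤ (l ^ 2)⁻¹ * f ^ 4 := by
      rw [inv_mul_eq_div, le_div_iff₀ (by positivity)]
      have h2 : l ^ 2 ≤ f ^ 2 := pow_le_pow_left₀ hl.le h 2
      calc f ^ 2 * l ^ 2 ≤ f ^ 2 * f ^ 2 := mul_le_mul_of_nonneg_left h2 (by positivity)
        _ = f ^ 4 := by ring
    have h2 : 0 ≤ l * f := by positivity
    linarith

theorem p_MMSA : M_GF → M_MS → M_MSA := by
  intro hG hM p η κ β hp hη hκ hβ h1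
  set θ : ℝ := max (max p η) 0 with hθ
  have hθ0 : 0 ≤ θ := le_max_right _ _
  have hpθ : p ≤ θ := (le_max_left _ _).trans (le_max_left _ _)
  have hηθ : η ≤ θ := (le_max_right _ _).trans (le_max_left _ _)
  have hθ1 : θ < 1 / 2 := max_lt (max_lt hp hη) (by norm_num)
  set κ' : ℝ := min κ 1 with hκ'
  set β' : ℝ := min β (1 / 2) with hβ'
  have hκ0 : 0 < κ' := lt_min hκ one_pos
  have hβ0 : 0 < β' := lt_min hβ (by norm_num)
  have hβ2 : β' ≤ 1 / 2 := min_le_right _ _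
  have h4 := hG β' hβ0 (by linarith)
  have hmax : max 0 ((2 * β' - 1) / 4) = 0 := max_eq_left (by linarith)
  rw [hmax] at h4
  set p' : ℝ := (θ + 1) / 3 with hp'
  have hp'1 : p' < 1 / 2 := by rw [hp']; linarith
  apply hM p' p' κ' β' hp'1 hp'1 hκ0 hβ0
  intro ε hε
  obtain ⟨C₁, hC₁⟩ := h1 ε hε
  obtain ⟨C₂, hC₂⟩ := h4 ε hε
  refine ⟨|C₁| + |C₂|, ?_⟩
  intro T hT M hM1 hMT N hN hNM
  have hT0 : 0 < T := by linarith
  have hM1' : (1 : ℝ) ≤ M := by exact_mod_cast hM1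
  have hM0 : (0 : ℝ) < M := by linarith
  have hTβ : T ^ β' ≤ T ^ β := Real.rpow_le_rpow_of_exponent_le hT (min_le_left _ _)
  have hTβ0 : 0 < T ^ β' := by positivity
  have g1 : (M : ℝ) ≤ κ * T ^ β := hMT.trans
    (mul_le_mul (min_le_left _ _) hTβ hTβ0.le hκ.le)
  have g2 : (M : ℝ) ≤ 1 * T ^ β' := hMT.trans
    (mul_le_mul_of_nonneg_right (min_le_right _ _) hTβ0.le)
  have b1 := hC₁ T hT M hM1 g1 N hN hNM
  have b2 := hC₂ T hT M hM1 g2 N hN hNM
  set f : ℝ → ℝ := fun t => ‖gs M t (Real.log N)‖ with hf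
  have hfc : Continuous f := MMSA_cont M _
  have hf0 : ∀ t, 0 ≤ f t := fun t => norm_nonneg _
  have r1 : ∀ t, f t ^ (1 : ℝ) = f t := fun t => Real.rpow_one _
  have r2 : ∀ t, f t ^ (2 : ℝ) = f t ^ 2 := fun t => by
    rw [show (2 : ℝ) = ((2 : ℕ) : ℝ) by norm_num, Real.rpow_natCast]
  have r4 : ∀ t, f t ^ (4 : ℝ) = f t ^ 4 := fun t => by
    rw [show (4 : ℝ) = ((4 : ℕ) : ℝ) by norm_num, Real.rpow_natCast]
  have b1' : ∫ t in T..(2 * T), f t ≤ |C₁| * (2 * (M : ℝ) ^ θ) * T ^ (1 + ε) := by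
    have e0 : ∫ t in T..(2 * T), f t = ∫ t in T..(2 * T), f t ^ (1 : ℝ) := by
      simp only [r1]
    rw [e0]
    refine b1.trans ?_
    rw [mul_zero, Real.rpow_zero, mul_one, mul_one, mul_one]
    have m1 : (M : ℝ) ^ p ≤ (M : ℝ) ^ θ := Real.rpow_le_rpow_of_exponent_le hM1' hpθ
    have m2 : (M : ℝ) ^ η ≤ (M : ℝ) ^ θ := Real.rpow_le_rpow_of_exponent_le hM1' hηθ
    have m3 : 0 ≤ (M : ℝ) ^ p := by positivity
    have m4 : 0 ≤ (M : ℝ) ^ η := by positivity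
    apply mul_le_mul_of_nonneg_right _ (by positivity)
    exact mul_le_mul (le_abs_self _) (by linarith) (by linarith) (abs_nonneg _)
  have b2' : ∫ t in T..(2 * T), f t ^ 4 ≤ |C₂| * (2 * (M : ℝ) ^ (2 : ℝ)) * T ^ (1 + ε) := by
    have e0 : ∫ t in T..(2 * T), f t ^ 4 = ∫ t in T..(2 * T), f t ^ (4 : ℝ) := by
      simp only [r4]
    rw [e0]
    refine b2.trans ?_
    rw [mul_zero, Real.rpow_zero, mul_one, show (1 / 2 * 4 : ℝ) = 2 by norm_num]
    have m3 : 0 ≤ (M : ℝ) ^ (2 : ℝ) := by positivity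
    apply mul_le_mul_of_nonneg_right _ (by positivity)
    exact mul_le_mul (le_abs_self _) (by linarith) (by linarith) (abs_nonneg _)
  -- interpolation
  set l : ℝ := (M : ℝ) ^ ((2 - θ) / 3) with hl
  have hl0 : 0 < l := by positivity
  have c2 : Continuous fun t => f t ^ 2 := hfc.pow 2
  have c4 : Continuous fun t => f t ^ 4 := hfc.pow 4
  have s1 : ∫ t in T..(2 * T), f t ^ 2 ≤
      ∫ t in T..(2 * T), (l * f t + (l ^ 2)⁻¹ * f t ^ 4) := by
    refine intervalIntegral.integral_mono_on (by linarith) (c2.intervalIntegrable _ _)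
      (((continuous_const.mul hfc).add (continuous_const.mul c4)).intervalIntegrable _ _) ?_
    intro t _
    exact MMSA_young (hf0 t) hl0
  have s2 : ∫ t in T..(2 * T), (l * f t + (l ^ 2)⁻¹ * f t ^ 4) =
      l * (∫ t in T..(2 * T), f t) + (l ^ 2)⁻¹ * ∫ t in T..(2 * T), f t ^ 4 := by
    have i1 : IntervalIntegrable (fun t => l * f t) volume T (2 * T) :=
      (continuous_const.mul hfc).intervalIntegrable _ _
    have i2 : IntervalIntegrable (fun t => (l ^ 2)⁻¹ * f t ^ 4) volume T (2 * T) :=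
      (continuous_const.mul c4).intervalIntegrable _ _
    rw [intervalIntegral.integral_add i1 i2, intervalIntegral.integral_const_mul,
      intervalIntegral.integral_const_mul]
  have x1 : l * (M : ℝ) ^ θ = (M : ℝ) ^ (p' * 2) := by
    rw [hl, ← Real.rpow_add hM0, hp']
    congr 1
    ring
  have x2 : (l ^ 2)⁻¹ * (M : ℝ) ^ (2 : ℝ) = (M : ℝ) ^ (p' * 2) := by
    rw [hl, ← Real.rpow_natCast, ← Real.rpow_mul hM0.le, ← Real.rpow_neg hM0.le,
      ← Real.rpow_add hM0, hp']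
    congr 1
    push_cast
    ring
  have hgoal : ∫ t in T..(2 * T), f t ^ (2 : ℝ) = ∫ t in T..(2 * T), f t ^ 2 := by
    simp only [r2]
  rw [hgoal]
  calc ∫ t in T..(2 * T), f t ^ 2
      ≤ l * (∫ t in T..(2 * T), f t) + (l ^ 2)⁻¹ * ∫ t in T..(2 * T), f t ^ 4 := s1.trans_eq s2
    _ ≤ l * (|C₁| * (2 * (M : ℝ) ^ θ) * T ^ (1 + ε)) +
        (l ^ 2)⁻¹ * (|C₂| * (2 * (M : ℝ) ^ (2 : ℝ)) * T ^ (1 + ε)) := by
        have : 0 ≤ (l ^ 2)⁻¹ := by positivity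
        gcongr
    _ = |C₁| * (2 * (l * (M : ℝ) ^ θ)) * T ^ (1 + ε) +
        |C₂| * (2 * ((l ^ 2)⁻¹ * (M : ℝ) ^ (2 : ℝ))) * T ^ (1 + ε) := by ring
    _ = (|C₁| + |C₂|) * ((M : ℝ) ^ (p' * 2) * T ^ ((2 : ℝ) * 0) + (M : ℝ) ^ (p' * 2)) *
        T ^ (1 + ε) := by
        rw [x1, x2, mul_zero, Real.rpow_zero]
        ring

end Pool.Agent.Ben
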