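import Pool.Agent.Ben.Targets8
import Pool.Agent.Ben.P_WONE

/-!
# Ben, target MONE: one bounded measurable statistic in the mean of order `q`
-/

set_option autoImplicit false

namespace Pool.Agent.Ben

open Complex MeasureTheory Set

/-- Target MONE. -/
theorem p_MONE : M_ONE := by
  intro g β p q a f B hg hβ _ _ _ _ hf hper hB hU
  have hL : 0 < Real.log g := Real.log_pos hg
  refine ⟨⟨hf.sub_const _, ?_, ?_, ?_⟩, Real.log g ^ β, Real.rpow_pos_of_pos hL β, ?_⟩
  · intro x
    simp only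
    rw [hper x]
  · intro x
    have h1 := abs_sub (f x) (∫ u in (0 : ℝ)..1, f u)
    have h2 := hB x
    have h3 := WONE_le hB
    linarith
  · unfold coef
    have h1 : ∀ x : ℝ, ((f x - ∫ u in (0 : ℝ)..1, f u : ℝ) : ℂ) * e (-(((0 : ℤ) : ℝ) * x)) =
        ((f x - ∫ u in (0 : ℝ)..1, f u : ℝ) : ℂ) := by
      intro x
      simp [e]
    simp only [h1]
    rw [intervalIntegral.integral_ofReal, intervalIntegral.integral_sub (WONE_int hf hB)
      (by simp), intervalIntegral.integral_const]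
    simp
  · intro ε hε
    obtain ⟨C, hC⟩ := hU ε hε
    refine ⟨C * Real.log g ^ (1 + q * (a + ε)) / Real.log g, ?_⟩
    intro T hT N hN hNT
    have hT0 : 0 < T := by linarith
    have hNx : (N : ℝ) ≤ (T * Real.log g) ^ β := by
      rw [Real.mul_rpow hT0.le hL.le, mul_comm]
      exact hNT
    have hN1 : (1 : ℝ) ≤ N := by exact_mod_cast hN
    have hx : 1 ≤ T * Real.log g := by
      by_contra hcon
      have h := Real.rpow_lt_one (mul_pos hT0 hL).le (not_le.1 hcon) hβ
      linarith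
    have h1 := hC (T * Real.log g) hx N hN hNx
    rw [Real.mul_rpow hT0.le hL.le] at h1
    have h2 : ∀ t : ℝ, ∑ n ∈ Finset.Icc 1 N, (f (t * Real.log n) - ∫ u in (0 : ℝ)..1, f u) =
        ∑ n ∈ Finset.Icc 1 N, f (Real.logb g ((n : ℝ) ^ (t * Real.log g))) -
          N * ∫ u in (0 : ℝ)..1, f u := by
      intro t
      rw [Finset.sum_sub_distrib, Finset.sum_const, Nat.card_Icc, Nat.add_sub_cancel,
        nsmul_eq_mul]
      congr 1
      refine Finset.sum_congr rfl fun n hn => ?_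
      rw [WONE_logb hg (Finset.mem_Icc.1 hn).1]
    have h3 : ∫ t in T..(2 * T), (max (∑ n ∈ Finset.Icc 1 N,
        (f (t * Real.log n) - ∫ u in (0 : ℝ)..1, f u)) 0) ^ q =
        (Real.log g)⁻¹ * ∫ x in (T * Real.log g)..(2 * (T * Real.log g)),
          (max (∑ n ∈ Finset.Icc 1 N, f (Real.logb g ((n : ℝ) ^ x)) -
            N * ∫ u in (0 : ℝ)..1, f u) 0) ^ q := by
      simp only [h2]
      have h4 := intervalIntegral.integral_comp_mul_right (a := T) (b := 2 * T)
        (fun x : ℝ => (max (∑ n ∈ Finset.Icc 1 N, f (Real.logb g ((n : ℝ) ^ x)) -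
            N * ∫ u in (0 : ℝ)..1, f u) 0) ^ q) hL.ne'
      rw [smul_eq_mul, mul_assoc 2 T] at h4
      exact h4
    rw [h3]
    calc (Real.log g)⁻¹ * ∫ x in (T * Real.log g)..(2 * (T * Real.log g)),
          (max (∑ n ∈ Finset.Icc 1 N, f (Real.logb g ((n : ℝ) ^ x)) -
            N * ∫ u in (0 : ℝ)..1, f u) 0) ^ q
        ≤ (Real.log g)⁻¹ * (C * (N : ℝ) ^ (p * q) *
          (T ^ (1 + q * (a + ε)) * Real.log g ^ (1 + q * (a + ε)))) :=
          mul_le_mul_of_nonneg_left h1 (inv_nonneg.2 hL.le)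
      _ = C * Real.log g ^ (1 + q * (a + ε)) / Real.log g * (N : ℝ) ^ (p * q) *
          T ^ (1 + q * (a + ε)) := by ring

end Pool.Agent.Ben
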