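import Pool.Agent.Ben.Targets8
import Pool.Agent.DBN.WinUp
import Pool.Agent.DBN.WinSumE
import Pool.Agent.DBN.WinFar
import Pool.Agent.DBN.Good

/-!
# Target M_PT: zeta on the critical line is bounded by the mean of the smoothed sums
-/

set_option autoImplicit false

namespace Pool.Agent.Ben

open Complex MeasureTheory Set Filter Topology
open Pool.Agent.DBN

lemma MPT_cont_zt (T : ℝ) (n : ℕ) : Continuous fun v : ℝ => Nw.zt (Real.exp v) T n := by
  unfold Nw.zt
  have h : ∀ v : ℝ, ((n + 1 : ℕ) : ℝ) / Real.exp v ≠ 0 := fun v => by positivity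
  have h1 : Continuous fun v : ℝ => Real.log (((n + 1 : ℕ) : ℝ) / Real.exp v) :=
    (continuous_const.div Real.continuous_exp fun v => (Real.exp_pos v).ne').log h
  have h2 : Continuous fun v : ℝ =>
      Real.exp (-(Real.log (((n + 1 : ℕ) : ℝ) / Real.exp v)) ^ 2 / 4) := by fun_prop
  exact (Complex.continuous_ofReal.comp h2).mul continuous_const

lemma MPT_cont (T : ℝ) : Continuous fun v : ℝ => zsum (Real.exp v) T := by
  rw [continuous_iff_continuousAt]
  intro v
  have h : ContinuousOn (fun v : ℝ => ∑' n, Nw.zt (Real.exp v) T n) (Iic (v + 1)) := by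
    refine continuousOn_tsum (fun n => (MPT_cont_zt T n).continuousOn)
      (Nw.summable_32.mul_left (Real.exp 1 * Real.exp (v + 1))) fun n u hu => ?_
    refine (Nw.norm_zt_le (Real.exp_pos u) T n).trans ?_
    have : Real.exp u ≤ Real.exp (v + 1) := Real.exp_le_exp.mpr hu
    gcongr
  exact h.continuousAt (Iic_mem_nhds (by linarith))

lemma MPT_dom (Z : ℝ → ℝ) (hZ : Continuous Z) (hZ0 : ∀ v, 0 ≤ Z v) (K : ℝ)
    (hK : ∀ v, Z v ≤ K * Real.exp v) (l L : ℝ) (h0 : 0 ≤ l) (h1 : l ≤ L / 2) (hL : 0 ≤ L) :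
    ∫ ω in (-(11 / 20 * L))..(11 / 20 * L), (Z (l - |ω|) + 1) ≤
      2 * (K + L + ∫ v in (0 : ℝ)..(L / 2), Z v) := by
  set B : ℝ := 11 / 20 * L with hB
  have hB0 : 0 ≤ B := by positivity
  have hK0 : 0 ≤ K := by
    have := (hZ0 0).trans (hK 0)
    simpa using this
  have hi : ∀ a b : ℝ, IntervalIntegrable Z volume a b := fun a b => hZ.intervalIntegrable a b
  have hF : Continuous fun ω : ℝ => Z (l - |ω|) + 1 := by fun_prop
  have e1 : ∫ ω in (0 : ℝ)..B, (Z (l - |ω|) + 1) = ∫ ω in (0 : ℝ)..B, (Z (l - ω) + 1) := by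
    refine intervalIntegral.integral_congr fun ω hω => ?_
    rw [uIcc_of_le hB0] at hω
    rw [abs_of_nonneg hω.1]
  have e2 : ∫ ω in (-B)..0, (Z (l - |ω|) + 1) = ∫ ω in (0 : ℝ)..B, (Z (l - ω) + 1) := by
    rw [← e1]
    have h3 := intervalIntegral.integral_comp_neg (a := 0) (b := B)
      (fun ω : ℝ => Z (l - |ω|) + 1)
    rw [neg_zero] at h3
    rw [← h3]
    refine intervalIntegral.integral_congr fun ω _ => ?_
    simp only [abs_neg]
  have e3 : ∫ ω in (0 : ℝ)..B, (Z (l - ω) + 1) = (∫ v in (l - B)..l, Z v) + B := by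
    have h3 : Continuous fun ω : ℝ => Z (l - ω) := by fun_prop
    rw [intervalIntegral.integral_add (f := fun ω : ℝ => Z (l - ω)) (g := fun _ => (1 : ℝ))
      (h3.intervalIntegrable _ _) intervalIntegrable_const,
      intervalIntegral.integral_comp_sub_left Z l]
    simp
  have e4 : ∫ ω in (-B)..B, (Z (l - |ω|) + 1) = 2 * ((∫ v in (l - B)..l, Z v) + B) := by
    rw [← intervalIntegral.integral_add_adjacent_intervals (hF.intervalIntegrable (-B) 0)
      (hF.intervalIntegrable 0 B), e2, e1, e3]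
    ring
  rw [e4]
  have h4 : ∫ v in (l - B)..l, Z v = (∫ v in (l - B)..0, Z v) + ∫ v in (0 : ℝ)..l, Z v :=
    (intervalIntegral.integral_add_adjacent_intervals (hi _ _) (hi _ _)).symm
  have h5 : ∫ v in (l - B)..0, Z v ≤ K := by
    have hle : l - B ≤ 0 := by linarith
    calc ∫ v in (l - B)..0, Z v ≤ ∫ v in (l - B)..0, K * Real.exp v :=
          intervalIntegral.integral_mono_on hle (hi _ _)
            ((continuous_const.mul Real.continuous_exp).intervalIntegrable _ _)
            fun v _ => hK v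
      _ = K * (1 - Real.exp (l - B)) := by
          rw [intervalIntegral.integral_const_mul, integral_exp, Real.exp_zero]
      _ ≤ K := by
          have := Real.exp_pos (l - B)
          nlinarith
  have h6 : ∫ v in (0 : ℝ)..l, Z v ≤ ∫ v in (0 : ℝ)..(L / 2), Z v := by
    rw [← intervalIntegral.integral_add_adjacent_intervals (hi 0 l) (hi l (L / 2))]
    have : 0 ≤ ∫ v in l..(L / 2), Z v :=
      intervalIntegral.integral_nonneg h1 fun v _ => hZ0 v
    linarith
  have h7 : B ≤ L := by rw [hB]; linarith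
  linarith

theorem p_MPT : M_PT := by
  obtain ⟨Cx, hCx, hx⟩ := xi_two (1 / 2)
  obtain ⟨C₂, T₂, hC₂, hT₂, hfar⟩ := win_far (c := 1) (δ := 1 / 20) one_pos (by norm_num) 1
  obtain ⟨C₁, T₁, hC₁, hT₁, hz⟩ := win_zsum
  set K : ℝ := Real.exp 1 * Nw.S32 with hK
  have hK0 : 0 ≤ K := mul_nonneg (Real.exp_pos 1).le Nw.S32_nonneg
  refine ⟨Cx * (4 * C₂ + 2 * C₁ * (K + 1)), max (max T₁ T₂) 7, by positivity,
    le_trans (by norm_num) (le_max_right _ _), fun T hT => ?_⟩
  have hTa : T₁ ≤ T := (le_max_left T₁ T₂).trans ((le_max_left _ _).trans hT)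
  have hTb : T₂ ≤ T := (le_max_right T₁ T₂).trans ((le_max_left _ _).trans hT)
  have hT7 : 7 ≤ T := (le_max_right _ _).trans hT
  have hT2 : 2 ≤ T := by linarith
  have hT1 : 1 ≤ T := by linarith
  have hT0 : 0 < T := by linarith
  have hs0 := size_pos hT0
  have hπ := Real.pi_pos
  have hL : 0 < Real.log T := Real.log_pos (by linarith)
  set L : ℝ := Real.log T with hLd
  set Z : ℝ → ℝ := fun v => ‖zsum (Real.exp v) (T - Real.pi / 8)‖ with hZd
  have hZc : Continuous Z := (MPT_cont _).norm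
  set l : ℝ := Real.log (√(T / (2 * Real.pi))) with hl
  have hl2 : l = Real.log (T / (2 * Real.pi)) / 2 := by
    rw [hl, Real.log_sqrt (by positivity)]
  have h2π : 2 * Real.pi ≤ T := by
    have := Real.pi_lt_d2
    linarith
  have hl0 : 0 ≤ l := by
    rw [hl2]
    have : 0 ≤ Real.log (T / (2 * Real.pi)) :=
      Real.log_nonneg ((one_le_div (by positivity)).mpr h2π)
    linarith
  have hl1 : l ≤ L / 2 := by
    rw [hl2, hLd]
    have h3 : T / (2 * Real.pi) ≤ T := by
      apply div_le_self hT0.le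
      have := Real.pi_gt_three
      linarith
    have := Real.log_le_log (by positivity) h3
    linarith
  have hdom := MPT_dom Z hZc (fun v => norm_nonneg _) K
    (fun v => Nw.norm_zsum_le (Real.exp_pos v) _) l L hl0 hl1 hL.le
  set B : ℝ := 11 / 20 * L with hB
  have hB0 : 0 ≤ B := by positivity
  set g : ℝ → ℝ := fun ω => C₂ * size T * Real.exp (-(1 / (4 * L)) * ω ^ 2) +
    (Icc (-B) B).indicator (fun ω => C₁ * size T * (Z (l - |ω|) + 1)) ω with hg
  have hpt : ∀ ω : ℝ, ‖win ω T‖ ≤ g ω := by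
    intro ω
    simp only [hg]
    rcases le_or_gt |ω| B with h | h
    · have hm : ω ∈ Icc (-B) B := abs_le.mp h
      rw [indicator_of_mem hm]
      have h3 : ‖win ω T‖ = ‖win (-|ω|) T‖ := by
        rcases le_total 0 ω with h4 | h4
        · rw [abs_of_nonneg h4, norm_win_neg]
        · rw [abs_of_nonpos h4, neg_neg]
      have h5 := (hz T (-|ω|) hTa (by rw [abs_neg, abs_abs]; exact h)).1
      have h6 : Real.exp (-|ω|) * √(T / (2 * Real.pi)) = Real.exp (l - |ω|) := by
        rw [hl, sub_eq_neg_add, Real.exp_add, Real.exp_log (by positivity)]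
      rw [h6] at h5
      have h7 : T ^ (-(1 / 20) : ℝ) ≤ 1 := Real.rpow_le_one_of_one_le_of_nonpos hT1 (by norm_num)
      rw [h3]
      have h8 : 0 ≤ C₂ * size T * Real.exp (-(1 / (4 * L)) * ω ^ 2) := by positivity
      have h9 : C₁ * size T * (‖zsum (Real.exp (l - |ω|)) (T - Real.pi / 8)‖ +
          T ^ (-(1 / 20) : ℝ)) ≤ C₁ * size T * (Z (l - |ω|) + 1) := by
        simp only [hZd]
        gcongr
      linarith
    · have hm : ω ∉ Icc (-B) B := fun hm => absurd (abs_le.mpr hm) (not_le.mpr h)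
      rw [indicator_of_notMem hm, add_zero]
      have h5 := hfar T ω hTb (by
        have : (1 / 2 + 1 / 20 : ℝ) * Real.log T = B := by rw [hB, ← hLd]; ring
        rw [this]; exact h.le)
      refine h5.trans ?_
      have h7 : T ^ (-(1 : ℝ)) ≤ 1 := Real.rpow_le_one_of_one_le_of_nonpos hT1 (by norm_num)
      have e1 : -(1 * ω ^ 2 / (4 * Real.log T)) = -(1 / (4 * L)) * ω ^ 2 := by
        rw [← hLd]; ring
      rw [e1]
      calc C₂ * size T * T ^ (-(1 : ℝ)) * Real.exp (-(1 / (4 * L)) * ω ^ 2)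
          ≤ C₂ * size T * 1 * Real.exp (-(1 / (4 * L)) * ω ^ 2) := by gcongr
        _ = _ := by rw [mul_one]
  have hi1 : Integrable fun ω : ℝ => C₂ * size T * Real.exp (-(1 / (4 * L)) * ω ^ 2) :=
    (integrable_exp_neg_mul_sq (by positivity)).const_mul _
  have hF : Continuous fun ω : ℝ => C₁ * size T * (Z (l - |ω|) + 1) := by fun_prop
  have hi2 : Integrable ((Icc (-B) B).indicator
      (fun ω : ℝ => C₁ * size T * (Z (l - |ω|) + 1))) :=
    (hF.integrableOn_Icc).integrable_indicator measurableSet_Icc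
  have hint : ‖∫ ω : ℝ, win ω T‖ ≤ ∫ ω : ℝ, g ω :=
    norm_integral_le_of_norm_le (hi1.add hi2) (Eventually.of_forall hpt)
  have hg1 : ∫ ω : ℝ, g ω = C₂ * size T * √(Real.pi / (1 / (4 * L))) +
      C₁ * size T * ∫ ω in (-B)..B, (Z (l - |ω|) + 1) := by
    simp only [hg]
    rw [integral_add hi1 hi2, integral_const_mul, integral_gaussian,
      integral_indicator measurableSet_Icc, integral_Icc_eq_integral_Ioc,
      ← intervalIntegral.integral_of_le (by linarith), intervalIntegral.integral_const_mul]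
  have hsq : √(Real.pi / (1 / (4 * L))) ≤ 4 * (1 + L) := by
    apply Real.sqrt_le_iff.mpr
    refine ⟨by positivity, ?_⟩
    have e1 : Real.pi / (1 / (4 * L)) = 4 * Real.pi * L := by field_simp
    rw [e1]
    have := Real.pi_lt_d2
    nlinarith [mul_pos hπ hL]
  have hflow : ‖xi (1 / 2 + T * I)‖ ≤ ‖∫ ω : ℝ, win ω T‖ := by
    have h3 := flow_eq_win (t := 0) (by norm_num) T
    rw [flow_zero] at h3
    have e1 : ∀ ω : ℝ, (Real.exp (0 * ω ^ 2 / (4 * (1 + 0))) : ℂ) * win ω T = win ω T := by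
      intro ω
      simp
    simp_rw [e1] at h3
    rw [h3, norm_mul, Complex.norm_real, Real.norm_eq_abs, add_zero, Real.sqrt_one, inv_one,
      mul_one, abs_of_pos (by positivity)]
    have h4 : (2 * Real.pi)⁻¹ ≤ 1 := inv_le_one_of_one_le₀ (by
      have := Real.pi_gt_three
      linarith)
    calc (2 * Real.pi)⁻¹ * ‖∫ ω : ℝ, win ω T‖ ≤ 1 * ‖∫ ω : ℝ, win ω T‖ := by gcongr
      _ = _ := one_mul _
  have hxi := (hx (1 / 2) T (by norm_num) hT2).2
  have hc : (((1 / 2 : ℝ) : ℂ)) = 1 / 2 := by push_cast; ring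
  rw [hc, sub_self, zero_div, Real.rpow_zero, one_mul] at hxi
  set J : ℝ := ∫ v in (0 : ℝ)..(L / 2), Z v with hJ
  have hJ0 : 0 ≤ J := intervalIntegral.integral_nonneg (by positivity) fun v _ => norm_nonneg _
  have hfin : size T * ‖riemannZeta (1 / 2 + T * I)‖ ≤
      size T * (Cx * (4 * C₂ + 2 * C₁ * (K + 1)) * (1 + L + J)) := by
    refine hxi.trans ?_
    have h3 : ‖xi (1 / 2 + T * I)‖ ≤ C₂ * size T * (4 * (1 + L)) +
        C₁ * size T * (2 * (K + L + J)) := by
      refine (hflow.trans hint).trans ?_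
      rw [hg1]
      exact add_le_add (mul_le_mul_of_nonneg_left hsq (by positivity))
        (mul_le_mul_of_nonneg_left hdom (by positivity))
    have h4 : C₂ * size T * (4 * (1 + L)) + C₁ * size T * (2 * (K + L + J)) ≤
        size T * ((4 * C₂ + 2 * C₁ * (K + 1)) * (1 + L + J)) := by
      have e1 : C₂ * size T * (4 * (1 + L)) + C₁ * size T * (2 * (K + L + J)) =
          size T * (4 * C₂ * (1 + L) + 2 * C₁ * (K + L + J)) := by ring
      rw [e1]
      apply mul_le_mul_of_nonneg_left _ hs0.le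
      have h5 : 4 * C₂ * (1 + L) ≤ 4 * C₂ * (1 + L + J) :=
        mul_le_mul_of_nonneg_left (by linarith) (by positivity)
      have h6 : 2 * C₁ * (K + L + J) ≤ 2 * C₁ * ((K + 1) * (1 + L + J)) :=
        mul_le_mul_of_nonneg_left
          (by nlinarith [mul_nonneg hK0 hL.le, mul_nonneg hK0 hJ0]) (by positivity)
      calc 4 * C₂ * (1 + L) + 2 * C₁ * (K + L + J)
          ≤ 4 * C₂ * (1 + L + J) + 2 * C₁ * ((K + 1) * (1 + L + J)) := add_le_add h5 h6
        _ = _ := by ring
    calc Cx * ‖xi (1 / 2 + T * I)‖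
        ≤ Cx * (size T * ((4 * C₂ + 2 * C₁ * (K + 1)) * (1 + L + J))) := by
          gcongr
          exact h3.trans h4
      _ = _ := by ring
  exact le_of_mul_le_mul_left hfin hs0

end Pool.Agent.Ben
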