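import Pool.Agent.Ben.Targets8
import Pool.Agent.Ben.P_FWD

/-!
# Ben, means of order `q`, target `M_SMO`: smooth statistics
-/

set_option autoImplicit false

namespace Pool.Agent.Ben

open Complex MeasureTheory Set
open scoped ENNReal

private lemma MSMO_dev {f : ℝ → ℝ} {M : ℝ} (hf : ContDiff ℝ 1 f) (hper : Function.Periodic f 1)
    (hM : ∀ y, |deriv f y| ≤ M) (y : ℝ) : |f y - ∫ u in (0 : ℝ)..1, f u| ≤ M := by
  have hM0 : 0 ≤ M := (abs_nonneg _).trans (hM 0)
  have hint : IntervalIntegrable f volume 0 1 := hf.continuous.intervalIntegrable _ _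
  have h1 : f y = f (Int.fract y) := by
    have := hper.sub_int_mul_eq ⌊y⌋ (x := y)
    rw [mul_one] at this
    rw [Int.fract]
    exact this.symm
  have h2 : f y - ∫ u in (0 : ℝ)..1, f u = ∫ u in (0 : ℝ)..1, (f y - f u) := by
    rw [intervalIntegral.integral_sub (by simp) hint]
    simp
  have hfr : Int.fract y ∈ Icc (0 : ℝ) 1 :=
    ⟨Int.fract_nonneg y, (Int.fract_lt_one y).le⟩
  rw [h2, ← Real.norm_eq_abs]
  have h3 : ∀ u ∈ Set.uIoc (0 : ℝ) 1, ‖f y - f u‖ ≤ M := by
    intro u hu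
    rw [uIoc_of_le zero_le_one] at hu
    rw [h1]
    have h4 := Convex.norm_image_sub_le_of_norm_deriv_le (f := f) (C := M) (s := Set.univ)
      (x := u) (y := Int.fract y)
      (fun z _ => (hf.differentiable (by norm_num)).differentiableAt)
      (fun z _ => by rw [Real.norm_eq_abs]; exact hM z) convex_univ (mem_univ _) (mem_univ _)
    refine h4.trans ?_
    have h5 : ‖Int.fract y - u‖ ≤ 1 := by
      rw [Real.norm_eq_abs, abs_le]
      constructor <;> linarith [hfr.1, hfr.2, hu.1, hu.2]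
    calc M * ‖Int.fract y - u‖ ≤ M * 1 := mul_le_mul_of_nonneg_left h5 hM0
      _ = M := mul_one M
  have h4 := intervalIntegral.norm_integral_le_of_norm_le_const h3
  simpa using h4

private lemma MSMO_norm_neg (N : ℕ) (z : ℕ → ℝ) :
    ‖∑ n ∈ Finset.Icc 1 N, e (-(z n))‖ = ‖∑ n ∈ Finset.Icc 1 N, e (z n)‖ := by
  rw [← Complex.norm_conj, map_sum]
  congr 1
  refine Finset.sum_congr rfl fun n _ => ?_
  unfold e
  rw [← Complex.exp_conj, map_mul, Complex.conj_I, Complex.conj_ofReal]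
  congr 1
  push_cast
  ring

private lemma MSMO_norm_abs (N : ℕ) (h : ℤ) (t : ℝ) :
    ‖∑ n ∈ Finset.Icc 1 N, e (h * (t * Real.log n))‖ =
      ‖∑ n ∈ Finset.Icc 1 N, e (|(h : ℝ)| * (t * Real.log n))‖ := by
  rcases abs_cases (h : ℝ) with ⟨h1, _⟩ | ⟨h1, _⟩
  · rw [h1]
  · rw [h1, ← MSMO_norm_neg]
    simp only [neg_mul]

private lemma MSMO_e_cont : Continuous e := by
  unfold e
  fun_prop

/-- Jensen's inequality -/
private lemma MSMO_jensen {q : ℝ} (hq : 1 ≤ q) (w y : ℤ → ℝ≥0∞) :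
    (∑' h, w h * y h) ^ q ≤ (∑' h, w h) ^ (q - 1) * ∑' h, w h * y h ^ q := by
  have hq0 : 0 < q := by linarith
  have h1 : ∑' h, w h * y h ≤ (∑' h, w h) ^ (1 - q⁻¹) * (∑' h, w h * y h ^ q) ^ q⁻¹ := by
    rw [ENNReal.tsum_eq_iSup_sum]
    refine iSup_le fun s => ?_
    refine (ENNReal.inner_le_weight_mul_Lp_of_nonneg s hq w y).trans ?_
    have h2 : 0 ≤ 1 - q⁻¹ := by
      have := inv_le_one_of_one_le₀ hq
      linarith
    gcongr
    · exact ENNReal.sum_le_tsum s
    · exact ENNReal.sum_le_tsum s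
  calc (∑' h, w h * y h) ^ q
      ≤ ((∑' h, w h) ^ (1 - q⁻¹) * (∑' h, w h * y h ^ q) ^ q⁻¹) ^ q := by gcongr
    _ = _ := by
        rw [ENNReal.mul_rpow_of_nonneg _ _ hq0.le, ← ENNReal.rpow_mul, ← ENNReal.rpow_mul]
        congr 1
        · congr 1
          field_simp
        · rw [inv_mul_cancel₀ hq0.ne', ENNReal.rpow_one]

private lemma MSMO_lint {φ : ℝ → ℝ} (hφ : Continuous φ) (h0 : ∀ x, 0 ≤ φ x) {X Y : ℝ}
    (h : X ≤ Y) :
    ENNReal.ofReal (∫ x in X..Y, φ x) = ∫⁻ x in Ioc X Y, ENNReal.ofReal (φ x) := by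
  rw [intervalIntegral.integral_of_le h, ofReal_integral_eq_lintegral_ofReal]
  · exact (hφ.integrableOn_Icc (a := X) (b := Y)).mono_set Ioc_subset_Icc_self
  · exact Filter.Eventually.of_forall h0

/-- one frequency -/
private lemma MSMO_freq {q b C₁ g X : ℝ} {N : ℕ} (hg : 0 < Real.log g)
    (hX : Real.log g ≤ X) (hX1 : 1 ≤ X) (hN : 1 ≤ N) (hNX : (N : ℝ) ≤ X)
    (hE : ∀ T : ℝ, 1 ≤ T → ∀ N : ℕ, 1 ≤ N → (N : ℝ) ≤ Real.log g * T →
      ∫ t in T..(2 * T), ‖∑ n ∈ Finset.Icc 1 N, (n : ℂ) ^ (-(t * I) : ℂ)‖ ^ q ≤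
        C₁ * √(N : ℝ) ^ q * T ^ (1 + q * b)) {h : ℤ} (h0 : h ≠ 0) :
    ∫ x in X..(2 * X), (|(h : ℝ)| ^ (-b) *
      ‖∑ n ∈ Finset.Icc 1 N, e (h * (x / Real.log g * Real.log n))‖) ^ q ≤
      |C₁| * ((2 * Real.pi / Real.log g) ^ b) ^ q * √(N : ℝ) ^ q * X ^ (1 + q * b) := by
  have hpi := Real.pi_pos
  have hh1 : (1 : ℝ) ≤ |(h : ℝ)| := by
    have := Int.one_le_abs h0
    exact_mod_cast this
  have hh0 : 0 < |(h : ℝ)| := by linarith
  set l : ℝ := 2 * Real.pi * |(h : ℝ)| / Real.log g with hl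
  have hl0 : 0 < l := by positivity
  set F : ℝ → ℝ := fun t => ‖∑ n ∈ Finset.Icc 1 N, (n : ℂ) ^ (-(t * I) : ℂ)‖ ^ q with hF
  have h1 : ∀ x : ℝ, (|(h : ℝ)| ^ (-b) *
      ‖∑ n ∈ Finset.Icc 1 N, e (h * (x / Real.log g * Real.log n))‖) ^ q =
      |(h : ℝ)| ^ (-(b * q)) * F (l * x) := by
    intro x
    rw [Real.mul_rpow (by positivity) (norm_nonneg _), ← Real.rpow_mul hh0.le, MSMO_norm_abs,
      FWD_norm, hF]
    congr 1
    · congr 1
      ring
    · have : 2 * Real.pi * |(h : ℝ)| * (x / Real.log g) = l * x := by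
        rw [hl]
        ring
      rw [this]
  simp_rw [h1]
  rw [intervalIntegral.integral_const_mul, intervalIntegral.integral_comp_mul_left F hl0.ne']
  have hT : X ≤ l * X * Real.log g := by
    have h3 : (3 : ℝ) < Real.pi := Real.pi_gt_three
    have h4 : 1 ≤ 2 * Real.pi * |(h : ℝ)| := by nlinarith
    have h5 : l * X * Real.log g = 2 * Real.pi * |(h : ℝ)| * X := by
      rw [hl]
      field_simp
    rw [h5]
    nlinarith
  have hT1 : 1 ≤ l * X := by
    by_contra hlt
    push Not at hlt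
    have : l * X * Real.log g < 1 * Real.log g := by gcongr
    linarith
  have h2 := hE (l * X) hT1 N hN (by linarith)
  have h3 : l * (2 * X) = 2 * (l * X) := by ring
  rw [h3, smul_eq_mul]
  have h4 : |(h : ℝ)| ^ (-(b * q)) * (l⁻¹ * (C₁ * √(N : ℝ) ^ q * (l * X) ^ (1 + q * b))) =
      C₁ * (((2 * Real.pi / Real.log g) ^ b) ^ q * √(N : ℝ) ^ q * X ^ (1 + q * b)) := by
    have h5 : (l * X) ^ (1 + q * b) = l * (l ^ (q * b)) * X ^ (1 + q * b) := by
      rw [Real.mul_rpow hl0.le (by linarith), Real.rpow_add hl0, Real.rpow_one]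
    have h6 : l ^ (q * b) = ((2 * Real.pi / Real.log g) ^ b) ^ q * |(h : ℝ)| ^ (b * q) := by
      rw [← Real.rpow_mul (by positivity), mul_comm q b, ← Real.mul_rpow (by positivity) hh0.le]
      congr 1
      rw [hl]
      ring
    have h7 : |(h : ℝ)| ^ (-(b * q)) * |(h : ℝ)| ^ (b * q) = 1 := by
      rw [← Real.rpow_add hh0]
      simp
    rw [h5, h6]
    calc _ = (|(h : ℝ)| ^ (-(b * q)) * |(h : ℝ)| ^ (b * q)) * (l⁻¹ * l) *
          (C₁ * (((2 * Real.pi / Real.log g) ^ b) ^ q * √(N : ℝ) ^ q * X ^ (1 + q * b))) := by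
            ring
      _ = _ := by rw [h7, inv_mul_cancel₀ hl0.ne', one_mul, one_mul]
  calc |(h : ℝ)| ^ (-(b * q)) * (l⁻¹ * ∫ x in (l * X)..(2 * (l * X)), F x)
      ≤ |(h : ℝ)| ^ (-(b * q)) * (l⁻¹ * (C₁ * √(N : ℝ) ^ q * (l * X) ^ (1 + q * b))) := by
        gcongr
    _ = C₁ * (((2 * Real.pi / Real.log g) ^ b) ^ q * √(N : ℝ) ^ q * X ^ (1 + q * b)) := h4
    _ ≤ |C₁| * (((2 * Real.pi / Real.log g) ^ b) ^ q * √(N : ℝ) ^ q * X ^ (1 + q * b)) := by
        gcongr
        exact le_abs_self _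
    _ = _ := by ring

theorem p_MSMO : W_COEF → M_SMO := by
  intro hCo q a hq ha ha2 hE g hg ε hε
  set η : ℝ := min ε ((1 / 2 - a) / 2) with hη
  have hη0 : 0 < η := lt_min hε (by linarith)
  have hηε : η ≤ ε := min_le_left _ _
  have hη2 : η ≤ (1 / 2 - a) / 2 := min_le_right _ _
  set b : ℝ := a + η with hb
  have hb0 : 0 ≤ b := by linarith
  have hb2 : b < 1 / 2 := by linarith
  have hq0 : 0 < q := by linarith
  have hlg : 0 < Real.log g := Real.log_pos hg
  obtain ⟨C₀, hC₀⟩ := hCo b hb0 hb2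
  obtain ⟨C₁, hC₁⟩ := hE η hη0 (Real.log g) hlg
  rw [← hb] at hC₁
  have hpi := Real.pi_pos
  set D : ℝ := (2 * Real.pi / Real.log g) ^ b with hD
  have hD0 : 0 ≤ D := by positivity
  refine ⟨|C₀| ^ q * |C₁| * D ^ q + √(Real.log g) ^ q, ?_⟩
  intro f M hf hper hM X hX1 N hN hNX
  have hM0 : 0 ≤ M := (abs_nonneg _).trans (hM 0)
  have hN1 : (1 : ℝ) ≤ (N : ℝ) := by exact_mod_cast hN
  have hX0 : 0 < X := by linarith
  have hsN : 0 ≤ √(N : ℝ) := Real.sqrt_nonneg _
  set A : ℝ := ∫ u in (0 : ℝ)..1, f u with hA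
  set Δ : ℝ → ℝ := fun x => ∑ n ∈ Finset.Icc 1 N, (f (x / Real.log g * Real.log n) - A) with hΔ
  have hdiff : ∀ x : ℝ, ∑ n ∈ Finset.Icc 1 N, f (Real.logb g ((n : ℝ) ^ x)) - N * A = Δ x := by
    intro x
    have hlog : ∀ n ∈ Finset.Icc 1 N,
        f (Real.logb g ((n : ℝ) ^ x)) = f (x / Real.log g * Real.log n) := by
      intro n hn
      have hn1 : 0 < (n : ℝ) := by
        have := (Finset.mem_Icc.1 hn).1
        exact_mod_cast this
      congr 1
      rw [Real.logb, Real.log_rpow hn1]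
      ring
    rw [Finset.sum_congr rfl hlog, hΔ]
    simp only
    rw [Finset.sum_sub_distrib, Finset.sum_const, Nat.card_Icc, Nat.add_sub_cancel,
      nsmul_eq_mul]
  simp_rw [hdiff]
  have hΔc : Continuous Δ := by
    have := hf.continuous
    rw [hΔ]
    fun_prop
  have hXe : X ^ (1 + q * b) ≤ X ^ (1 + q * (a + ε)) :=
    Real.rpow_le_rpow_of_exponent_le hX1 (by
      have : q * b ≤ q * (a + ε) := mul_le_mul_of_nonneg_left (by linarith) hq0.le
      linarith)
  by_cases hXg : Real.log g ≤ X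
  · obtain ⟨c, hc, hc0, hs, hle⟩ := hC₀ f M hf hper hM
    set d : ℤ → ℂ := fun h => if h = 0 then 0 else c h with hd
    have hone : ∀ y : ℝ, HasSum (fun h : ℤ => d h * e (h * y)) ((f y - A : ℝ) : ℂ) := by
      intro y
      have h1 := (hc y).update 0 0
      have h2 : (fun h : ℤ => d h * e (h * y)) =
          Function.update (fun h : ℤ => c h * e (h * y)) 0 0 := by
        funext h
        by_cases h0 : h = 0
        · subst h0
          simp [hd]
        · rw [Function.update_of_ne h0]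
          simp [hd, h0]
      have h3 : e (((0 : ℤ) : ℝ) * y) = 1 := by
        unfold e
        simp
      have h4 : ((f y - A : ℝ) : ℂ) = 0 - c 0 * e (((0 : ℤ) : ℝ) * y) + (f y : ℂ) := by
        rw [h3, hc0]
        push_cast
        ring
      rw [h2, h4]
      exact h1
    set S : ℤ → ℝ → ℂ := fun h x => ∑ n ∈ Finset.Icc 1 N, e (h * (x / Real.log g * Real.log n))
      with hS
    have hSc : ∀ h, Continuous (S h) := by
      intro h
      have := MSMO_e_cont
      rw [hS]
      fun_prop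
    have hsumN : ∀ x, HasSum (fun h : ℤ => d h * S h x) ((Δ x : ℝ) : ℂ) := by
      intro x
      have h1 : HasSum (fun h : ℤ => ∑ n ∈ Finset.Icc 1 N,
          d h * e (h * (x / Real.log g * Real.log n)))
          (∑ n ∈ Finset.Icc 1 N, ((f (x / Real.log g * Real.log n) - A : ℝ) : ℂ)) :=
        hasSum_sum fun n _ => hone _
      have h2 : ((Δ x : ℝ) : ℂ) =
          ∑ n ∈ Finset.Icc 1 N, ((f (x / Real.log g * Real.log n) - A : ℝ) : ℂ) := by
        rw [hΔ]
        push_cast
        rfl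
      rw [h2]
      simpa only [hS, Finset.mul_sum] using h1
    set w : ℤ → ℝ≥0∞ := fun h => ENNReal.ofReal (if h = 0 then 0 else ‖c h‖ * |(h : ℝ)| ^ b)
      with hw
    set Y : ℤ → ℝ → ℝ≥0∞ := fun h x => ENNReal.ofReal (|(h : ℝ)| ^ (-b) * ‖S h x‖) with hY
    have hwsum : ∑' h, w h ≤ ENNReal.ofReal (|C₀| * M) := by
      rw [hw, ← ENNReal.ofReal_tsum_of_nonneg _ hs]
      · refine ENNReal.ofReal_le_ofReal (hle.trans ?_)
        exact mul_le_mul_of_nonneg_right (le_abs_self _) hM0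
      · intro h
        split_ifs <;> positivity
    have hpt : ∀ x, ENNReal.ofReal |Δ x| ≤ ∑' h, w h * Y h x := by
      intro x
      have h1 : ENNReal.ofReal |Δ x| = ‖∑' h, d h * S h x‖ₑ := by
        rw [(hsumN x).tsum_eq, ← ofReal_norm, Complex.norm_real, Real.norm_eq_abs]
      rw [h1]
      refine enorm_tsum_le_tsum_enorm.trans (ENNReal.tsum_le_tsum fun h => ?_)
      by_cases h0 : h = 0
      · simp [hd, h0]
      · have hh0 : 0 < |(h : ℝ)| := by positivity
        rw [hw, hY, ← ofReal_norm, norm_mul]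
        simp only [hd, h0, if_false]
        rw [← ENNReal.ofReal_mul (by positivity)]
        refine ENNReal.ofReal_le_ofReal (le_of_eq ?_)
        have h7 : |(h : ℝ)| ^ b * |(h : ℝ)| ^ (-b) = 1 := by
          rw [← Real.rpow_add hh0]
          simp
        calc ‖c h‖ * ‖S h x‖ = ‖c h‖ * (|(h : ℝ)| ^ b * |(h : ℝ)| ^ (-b)) * ‖S h x‖ := by
              rw [h7, mul_one]
          _ = _ := by ring
    have hYm : ∀ h, Measurable (Y h) := by
      intro h
      have := hSc h
      rw [hY]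
      exact ENNReal.measurable_ofReal.comp (by fun_prop)
    set B : ℝ := |C₁| * D ^ q * √(N : ℝ) ^ q * X ^ (1 + q * b) with hB
    have hB0 : 0 ≤ B := by positivity
    have hfreq : ∀ h, w h * ∫⁻ x in Ioc X (2 * X), Y h x ^ q ≤ w h * ENNReal.ofReal B := by
      intro h
      by_cases h0 : h = 0
      · simp [hw, h0]
      · gcongr
        have h1 := MSMO_freq hlg hXg hX1 hN hNX hC₁ h0
        have h2 : ∀ x, Y h x ^ q = ENNReal.ofReal ((|(h : ℝ)| ^ (-b) * ‖S h x‖) ^ q) := by
          intro x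
          rw [hY]
          exact ENNReal.ofReal_rpow_of_nonneg (by positivity) hq0.le
        simp_rw [h2]
        rw [← MSMO_lint _ (fun x => by positivity) (by linarith)]
        · exact ENNReal.ofReal_le_ofReal h1
        · have := hSc h
          exact (continuous_const.mul this.norm).rpow_const fun x => Or.inr hq0.le
    have htot : ENNReal.ofReal (∫ x in X..(2 * X), |Δ x| ^ q) ≤
        ENNReal.ofReal ((|C₀| * M) ^ q * B) := by
      rw [MSMO_lint (hΔc.abs.rpow_const fun x => Or.inr hq0.le) (fun x => by positivity)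
        (by linarith)]
      have hmeas : Measurable fun x => ∑' h, w h * Y h x ^ q :=
        Measurable.ennreal_tsum fun h => ((hYm h).pow_const q).const_mul _
      calc ∫⁻ x in Ioc X (2 * X), ENNReal.ofReal (|Δ x| ^ q)
          ≤ ∫⁻ x in Ioc X (2 * X), (∑' h, w h) ^ (q - 1) * ∑' h, w h * Y h x ^ q := by
            refine lintegral_mono fun x => ?_
            rw [← ENNReal.ofReal_rpow_of_nonneg (abs_nonneg _) hq0.le]
            exact (ENNReal.rpow_le_rpow (hpt x) hq0.le).trans (MSMO_jensen hq _ _)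
        _ = (∑' h, w h) ^ (q - 1) * ∑' h, w h * ∫⁻ x in Ioc X (2 * X), Y h x ^ q := by
            rw [lintegral_const_mul _ hmeas, lintegral_tsum fun h =>
              (((hYm h).pow_const q).const_mul _).aemeasurable]
            congr 1
            refine tsum_congr fun h => ?_
            rw [lintegral_const_mul _ ((hYm h).pow_const q)]
        _ ≤ (∑' h, w h) ^ (q - 1) * ∑' h, w h * ENNReal.ofReal B := by
            exact mul_le_mul' le_rfl (ENNReal.tsum_le_tsum fun h => hfreq h)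
        _ = (∑' h, w h) ^ q * ENNReal.ofReal B := by
            rw [ENNReal.tsum_mul_right, ← mul_assoc]
            congr 1
            conv_lhs => rw [← ENNReal.rpow_one (∑' h, w h), ← ENNReal.rpow_mul]
            rw [← ENNReal.rpow_add_of_nonneg _ _ (by linarith) (by norm_num)]
            congr 1
            ring
        _ ≤ ENNReal.ofReal (|C₀| * M) ^ q * ENNReal.ofReal B := by gcongr
        _ = _ := by
            rw [ENNReal.ofReal_rpow_of_nonneg (by positivity) hq0.le,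
              ← ENNReal.ofReal_mul (by positivity)]
    rw [ENNReal.ofReal_le_ofReal_iff (by positivity)] at htot
    refine htot.trans ?_
    calc (|C₀| * M) ^ q * B = |C₀| ^ q * |C₁| * D ^ q * (M * √(N : ℝ)) ^ q *
          X ^ (1 + q * b) := by
          rw [hB, Real.mul_rpow (abs_nonneg _) hM0, Real.mul_rpow hM0 hsN]
          ring
      _ ≤ |C₀| ^ q * |C₁| * D ^ q * (M * √(N : ℝ)) ^ q * X ^ (1 + q * (a + ε)) := by
          gcongr
      _ ≤ _ := by
          gcongr
          have : 0 ≤ √(Real.log g) ^ q := by positivity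
          linarith
  · push Not at hXg
    have h1 : ∀ x, |Δ x| ≤ M * √(N : ℝ) * √(Real.log g) := by
      intro x
      have h2 : |Δ x| ≤ N * M := by
        rw [hΔ]
        refine (Finset.abs_sum_le_sum_abs _ _).trans ?_
        have h0 : ∑ n ∈ Finset.Icc 1 N, |f (x / Real.log g * Real.log n) - A| ≤
            ∑ n ∈ Finset.Icc 1 N, M :=
          Finset.sum_le_sum fun n _ => MSMO_dev hf hper hM _
        refine h0.trans (le_of_eq ?_)
        rw [Finset.sum_const, Nat.card_Icc, Nat.add_sub_cancel, nsmul_eq_mul]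
      have h3 : √(N : ℝ) ≤ √(Real.log g) := Real.sqrt_le_sqrt (hNX.trans hXg.le)
      have h4 : (N : ℝ) = √(N : ℝ) * √(N : ℝ) := (Real.mul_self_sqrt (by positivity)).symm
      calc |Δ x| ≤ N * M := h2
        _ = M * √(N : ℝ) * √(N : ℝ) := by
            conv_lhs => rw [h4]
            ring
        _ ≤ M * √(N : ℝ) * √(Real.log g) := by gcongr
    have h2 : ∫ x in X..(2 * X), |Δ x| ^ q ≤
        ∫ x in X..(2 * X), (M * √(N : ℝ) * √(Real.log g)) ^ q := by
      refine intervalIntegral.integral_mono_on (by linarith)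
        (Continuous.intervalIntegrable (hΔc.abs.rpow_const fun x => Or.inr hq0.le) _ _)
        (by simp) fun x _ => ?_
      gcongr
      exact h1 x
    rw [intervalIntegral.integral_const, smul_eq_mul] at h2
    refine h2.trans ?_
    have h3 : X ≤ X ^ (1 + q * (a + ε)) := by
      calc X = X ^ (1 : ℝ) := (Real.rpow_one X).symm
        _ ≤ _ := Real.rpow_le_rpow_of_exponent_le hX1 (by
            have : 0 ≤ q * (a + ε) := by positivity
            linarith)
    calc (2 * X - X) * (M * √(N : ℝ) * √(Real.log g)) ^ q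
        = √(Real.log g) ^ q * (M * √(N : ℝ)) ^ q * X := by
          rw [Real.mul_rpow (by positivity) (Real.sqrt_nonneg _)]
          ring
      _ ≤ √(Real.log g) ^ q * (M * √(N : ℝ)) ^ q * X ^ (1 + q * (a + ε)) := by gcongr
      _ ≤ _ := by
          gcongr
          have : 0 ≤ |C₀| ^ q * |C₁| * D ^ q := by positivity
          linarith

end Pool.Agent.Ben
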