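import Pool.Agent.Ben.Targets8

/-!
# Ben, MSTEP: one step of the iteration in the mean of order `q`
-/

set_option autoImplicit false

namespace Pool.Agent.Ben

open Complex MeasureTheory Set

private lemma MSTEP_trivial (M : ℕ) (t y : ℝ) : ‖gs M t y‖ ≤ M := by
  unfold gs
  refine (norm_sum_le _ _).trans ?_
  calc ∑ n ∈ Finset.Icc 1 M, ‖e (t * Real.log n) *
        (Real.exp (-(Real.log n - y) ^ 2 / 4) : ℝ)‖
      ≤ ∑ _n ∈ Finset.Icc 1 M, (1 : ℝ) := by
        refine Finset.sum_le_sum (fun n _ => ?_)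
        rw [norm_mul, e, Complex.norm_exp_ofReal_mul_I, one_mul, Complex.norm_real,
          Real.norm_eq_abs, abs_of_pos (Real.exp_pos _), Real.exp_le_one_iff]
        have := sq_nonneg (Real.log n - y)
        linarith
    _ = M := by simp

private lemma MSTEP_e_cont : Continuous e := by
  unfold e
  fun_prop

private lemma MSTEP_gs_cont (M : ℕ) (y : ℝ) : Continuous fun t => gs M t y := by
  unfold gs
  refine continuous_finsetSum _ fun n _ => ?_
  exact (MSTEP_e_cont.comp (by fun_prop)).mul continuous_const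

private lemma MSTEP_card (m : ℕ) (x : ℝ) (hx : 0 ≤ x) :
    ((Finset.Ioo m ⌈x⌉₊).card : ℝ) ≤ x := by
  rw [Nat.card_Ioo]
  rcases Nat.lt_or_ge (m + 1) ⌈x⌉₊ with h | h
  · have h1 : ((⌈x⌉₊ - m - 1 : ℕ) : ℝ) = (⌈x⌉₊ : ℝ) - m - 1 := by
      rw [Nat.cast_sub (by omega), Nat.cast_sub (by omega), Nat.cast_one]
    rw [h1]
    have h2 := Nat.ceil_lt_add_one hx
    have h3 : (0 : ℝ) ≤ m := Nat.cast_nonneg m
    linarith
  · have h1 : ⌈x⌉₊ - m - 1 = 0 := by omega
    rw [h1]
    simpa using hx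

/-- power of a sum of three terms -/
private lemma MSTEP_three {x y z q : ℝ} (hx : 0 ≤ x) (hy : 0 ≤ y) (hz : 0 ≤ z) (hq : 0 ≤ q) :
    (x + y + z) ^ q ≤ 3 ^ q * (x ^ q + y ^ q + z ^ q) := by
  have h1 : ∀ u : ℝ, 0 ≤ u → x ≤ u → y ≤ u → z ≤ u → u ^ q ≤ x ^ q + y ^ q + z ^ q →
      (x + y + z) ^ q ≤ 3 ^ q * (x ^ q + y ^ q + z ^ q) := by
    intro u hu h1 h2 h3 h4
    calc (x + y + z) ^ q ≤ (3 * u) ^ q :=
          Real.rpow_le_rpow (by positivity) (by linarith) hq
      _ = 3 ^ q * u ^ q := Real.mul_rpow (by norm_num) hu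
      _ ≤ _ := mul_le_mul_of_nonneg_left h4 (by positivity)
  have hxq : 0 ≤ x ^ q := by positivity
  have hyq : 0 ≤ y ^ q := by positivity
  have hzq : 0 ≤ z ^ q := by positivity
  rcases le_total x y with hxy | hxy
  · rcases le_total y z with hyz | hyz
    · exact h1 z hz (hxy.trans hyz) hyz le_rfl (by linarith)
    · exact h1 y hy hxy le_rfl hyz (by linarith)
  · rcases le_total x z with hxz | hxz
    · exact h1 z hz hxz (hxy.trans hxz) le_rfl (by linarith)
    · exact h1 x hx le_rfl hxy hxz (by linarith)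

/-- power of a sum -/
private lemma MSTEP_sum {ι : Type} (s : Finset ι) (f : ι → ℝ) (hf : ∀ i, 0 ≤ f i) {q : ℝ}
    (hq : 1 ≤ q) : (∑ i ∈ s, f i) ^ q ≤ (s.card : ℝ) ^ (q - 1) * ∑ i ∈ s, f i ^ q := by
  have h := Real.rpow_sum_le_const_mul_sum_rpow s f hq
  simpa only [abs_of_nonneg (hf _)] using h

private lemma MSTEP_w_int : Integrable w := by
  have h : (0 : ℝ) < 4 * Real.pi ^ 2 := by positivity
  have := integrable_exp_neg_mul_sq h
  refine this.congr (Filter.Eventually.of_forall fun u => ?_)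
  unfold w
  ring_nf

private lemma MSTEP_w_pos (u : ℝ) : 0 < w u := Real.exp_pos _

/-- the integral term -/
private noncomputable def MSTEP_I (G : ℝ → ℝ) (m M : ℕ) (s : ℝ) : ℝ :=
  ∫ u : ℝ, |∑ n ∈ Finset.Icc 1 M, G ((s + u / m) * Real.log n)| * w u

private lemma MSTEP_I_nonneg (G : ℝ → ℝ) (m M : ℕ) (s : ℝ) : 0 ≤ MSTEP_I G m M s :=
  integral_nonneg fun u => mul_nonneg (abs_nonneg _) (MSTEP_w_pos u).le

private lemma MSTEP_I_int {G : ℝ → ℝ} {B : ℝ} (hG : Obs G B) (m M : ℕ) {q : ℝ} (hq : 0 ≤ q)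
    (a b : ℝ) : IntervalIntegrable (fun s => MSTEP_I G m M s ^ q) volume a b := by
  have hm : Measurable fun p : ℝ × ℝ =>
      |∑ n ∈ Finset.Icc 1 M, G ((p.1 + p.2 / m) * Real.log n)| * w p.2 := by
    refine Measurable.mul ?_ ?_
    · refine Measurable.abs (Finset.measurable_fun_sum _ fun n _ => ?_)
      exact hG.meas.comp (by fun_prop)
    · unfold w
      fun_prop
  have hI : Measurable fun s => MSTEP_I G m M s :=
    (hm.stronglyMeasurable.integral_prod_right' (ν := volume)).measurable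
  have hb : ∀ s, MSTEP_I G m M s ≤ B * M * ∫ u, w u := by
    intro s
    rw [← integral_const_mul]
    have hF : ∀ u, |∑ n ∈ Finset.Icc 1 M, G ((s + u / m) * Real.log n)| ≤ B * M := by
      intro u
      calc |∑ n ∈ Finset.Icc 1 M, G ((s + u / m) * Real.log n)|
          ≤ ∑ n ∈ Finset.Icc 1 M, |G ((s + u / m) * Real.log n)| :=
            Finset.abs_sum_le_sum_abs _ _
        _ ≤ ∑ _n ∈ Finset.Icc 1 M, B := Finset.sum_le_sum fun n _ => hG.bdd _
        _ = B * M := by simp [mul_comm]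
    refine integral_mono_of_nonneg (ae_of_all _ fun u =>
      mul_nonneg (abs_nonneg _) (MSTEP_w_pos u).le) (MSTEP_w_int.const_mul _)
      (ae_of_all _ fun u => ?_)
    exact mul_le_mul_of_nonneg_right (hF u) (MSTEP_w_pos u).le
  have hon : ∀ a b : ℝ, IntegrableOn (fun s => MSTEP_I G m M s ^ q) (Ioc a b) := by
    intro a b
    refine Measure.integrableOn_of_bounded (M := (B * M * ∫ u, w u) ^ q) ?_
      (hI.pow_const q).aestronglyMeasurable (ae_of_all _ fun s => ?_)
    · rw [Real.volume_Ioc]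
      exact ENNReal.ofReal_ne_top
    · rw [Real.norm_of_nonneg (Real.rpow_nonneg (MSTEP_I_nonneg _ _ _ _) _)]
      exact Real.rpow_le_rpow (MSTEP_I_nonneg _ _ _ _) (hb s) hq
  exact ⟨hon a b, hon b a⟩

/-- one high frequency -/
private noncomputable def MSTEP_H (m M : ℕ) (y : ℝ) (h : ℕ) (s : ℝ) : ℝ :=
  ‖∑ n ∈ Finset.Icc 1 M, e (h * s * Real.log n) *
    (Real.exp (-(h * Real.log n / m - y) ^ 2 / 4) : ℝ)‖

private lemma MSTEP_H_cont (m M : ℕ) (y : ℝ) (h : ℕ) : Continuous (MSTEP_H m M y h) := by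
  unfold MSTEP_H
  refine Continuous.norm (continuous_finsetSum _ fun n _ => ?_)
  exact (MSTEP_e_cont.comp (by fun_prop)).mul continuous_const

/-- the integrated inequality -/
private lemma MSTEP_main {m M : ℕ} {G : ℝ → ℝ} {B C0 A y q T1 : ℝ} (hG : Obs G B) (hC0 : 0 ≤ C0)
    (hB : 0 ≤ B) (hA : 0 < A) (hq : 1 ≤ q) (hT1 : 0 ≤ T1) (S : Finset ℕ)
    (hmain : ∀ s : ℝ, A * ‖gs M (m * s) y‖ ≤ C0 * MSTEP_I G m M s + C0 * B +
      B * ∑ h ∈ S, MSTEP_H m M y h s) :
    A ^ q * ∫ s in T1..(2 * T1), ‖gs M (m * s) y‖ ^ q ≤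
      3 ^ q * (C0 ^ q * (∫ s in T1..(2 * T1), MSTEP_I G m M s ^ q) + (C0 * B) ^ q * T1 +
        B ^ q * ((S.card : ℝ) ^ (q - 1) *
          ∑ h ∈ S, ∫ s in T1..(2 * T1), MSTEP_H m M y h s ^ q)) := by
  have hq0 : 0 ≤ q := by linarith
  have hH : ∀ h s, 0 ≤ MSTEP_H m M y h s := fun h s => norm_nonneg _
  have i0 : IntervalIntegrable (fun s => A ^ q * ‖gs M (m * s) y‖ ^ q) volume T1 (2 * T1) := by
    refine Continuous.intervalIntegrable ?_ _ _
    have h1 : Continuous fun s : ℝ => ‖gs M (m * s) y‖ :=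
      ((MSTEP_gs_cont M y).comp (continuous_const.mul continuous_id)).norm
    exact continuous_const.mul (h1.rpow_const fun s => Or.inr hq0)
  have i1 := MSTEP_I_int hG m M hq0 T1 (2 * T1)
  have i2 : ∀ h ∈ S, IntervalIntegrable (fun s => MSTEP_H m M y h s ^ q) volume T1 (2 * T1) :=
    fun h _ => ((MSTEP_H_cont m M y h).rpow_const fun s => Or.inr hq0).intervalIntegrable _ _
  have i3 : IntervalIntegrable (fun s => ∑ h ∈ S, MSTEP_H m M y h s ^ q) volume T1 (2 * T1) := by
    have := IntervalIntegrable.sum S i2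
    refine this.congr fun s _ => ?_
    rw [Finset.sum_apply]
  have hp : ∀ s, A ^ q * ‖gs M (m * s) y‖ ^ q ≤ 3 ^ q * (C0 ^ q * MSTEP_I G m M s ^ q +
      (C0 * B) ^ q + B ^ q * ((S.card : ℝ) ^ (q - 1) * ∑ h ∈ S, MSTEP_H m M y h s ^ q)) := by
    intro s
    have hI0 := MSTEP_I_nonneg G m M s
    have hS0 : 0 ≤ ∑ h ∈ S, MSTEP_H m M y h s := Finset.sum_nonneg fun h _ => hH h s
    calc A ^ q * ‖gs M (m * s) y‖ ^ q = (A * ‖gs M (m * s) y‖) ^ q :=
          (Real.mul_rpow hA.le (norm_nonneg _)).symm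
      _ ≤ (C0 * MSTEP_I G m M s + C0 * B + B * ∑ h ∈ S, MSTEP_H m M y h s) ^ q :=
          Real.rpow_le_rpow (by positivity) (hmain s) hq0
      _ ≤ 3 ^ q * ((C0 * MSTEP_I G m M s) ^ q + (C0 * B) ^ q +
          (B * ∑ h ∈ S, MSTEP_H m M y h s) ^ q) :=
          MSTEP_three (by positivity) (by positivity) (by positivity) hq0
      _ ≤ _ := by
          rw [Real.mul_rpow hC0 hI0, Real.mul_rpow hB hS0]
          gcongr
          exact MSTEP_sum S (fun h => MSTEP_H m M y h s) (fun h => hH h s) hq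
  have hle : T1 ≤ 2 * T1 := by linarith
  have key := intervalIntegral.integral_mono_on hle i0
    ((((i1.const_mul (C0 ^ q)).add (intervalIntegrable_const (c := (C0 * B) ^ q))).add
      ((i3.const_mul ((S.card : ℝ) ^ (q - 1))).const_mul (B ^ q))).const_mul (3 ^ q))
    (fun s _ => hp s)
  rw [intervalIntegral.integral_const_mul, intervalIntegral.integral_const_mul,
    intervalIntegral.integral_add ((i1.const_mul _).add intervalIntegrable_const)
      ((i3.const_mul _).const_mul _),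
    intervalIntegral.integral_add (i1.const_mul _) intervalIntegrable_const,
    intervalIntegral.integral_const_mul, intervalIntegral.integral_const_mul,
    intervalIntegral.integral_const_mul, intervalIntegral.integral_const,
    intervalIntegral.integral_finsetSum i2] at key
  refine key.trans (le_of_eq ?_)
  simp only [smul_eq_mul]
  ring

theorem p_MSTEP : V_MAIN → M_L1 → M_HIGH → M_STEP := by
  intro hMain hL1 hHigh m hm G B κ₀ β p q a hG hκ₀ hβ0 hβ1 hp0 hp1 hq ha hcm hcj hUp θ κ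
    hθ0 hθ1 hκ hGT
  obtain ⟨C0, hC0, hmain⟩ := hMain m hm
  have hq0 : 0 < q := by linarith
  have hm0 : (0 : ℝ) < m := by exact_mod_cast hm
  have hm1 : (1 : ℝ) ≤ m := by exact_mod_cast hm
  have hB : 0 ≤ B := (abs_nonneg _).trans (hG.bdd 0)
  have hlog2 : 0 < Real.log 2 := Real.log_pos (by norm_num)
  set κ' : ℝ := min κ₀ κ / (2 * m) with hκ'
  have hmin : 0 < min κ₀ κ := lt_min hκ₀ hκ
  have hκ'0 : 0 < κ' := by positivity
  refine ⟨κ', hκ'0, ?_⟩
  intro ε hε
  obtain ⟨C1, h1⟩ := hL1 m hm G B κ₀ β p q a hG hκ₀ hβ0 hβ1 hp0 hq ha hUp (ε / q) (by positivity)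
  obtain ⟨C2, h2⟩ := hHigh q p a θ κ β hq hp0 hp1 ha hθ0 hθ1 hκ hβ0 hβ1 hGT m hm (ε / 8)
    (by linarith)
  set θ' : ℝ := (m : ℝ) / (m + 1) * θ with hθ'
  have hθ'0 : 0 ≤ θ' := by positivity
  have hA : 0 < ‖coef G m‖ := norm_pos_iff.2 hcm
  have hqa : 0 ≤ q * a := by positivity
  set η : ℝ := ε / (4 * (q * a + 1)) with hη
  have hη0 : 0 < η := by positivity
  have hηa : η * (q * a) ≤ ε / 4 := by
    rw [hη, div_mul_eq_mul_div, div_le_iff₀ (by positivity)]
    nlinarith
  set δ : ℝ := ε / (2 * q) with hδ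
  have hδ0 : 0 < δ := by positivity
  have hδq : δ * q = ε / 2 := by
    rw [hδ]
    field_simp
  set K1 : ℝ := 2 * κ' / Real.log 2 with hK1
  have hK1p : 0 < K1 := by positivity
  set K2 : ℝ := 2 * m / Real.log 2 * (κ' ^ δ / δ) with hK2
  have hK2p : 0 < K2 := by positivity
  set K3 : ℝ := 2 / Real.log 2 * (κ' ^ η / η) with hK3
  have hK3p : 0 < K3 := by positivity
  set D : ℝ := 3 ^ q * (C0 ^ q * |C1| + (C0 * B) ^ q + B ^ q * (K2 ^ q *
    (|C2| * ((K3 ^ (q * a) + 1) * K1 ^ (ε / 8))))) with hD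
  have hDp : 0 ≤ D := by positivity
  refine ⟨(κ' * m) ^ q + m * (D / ‖coef G m‖ ^ q), ?_⟩
  intro T hT M hM hMTβ N hN hNM
  have hTβ : T ^ β ≤ T := by
    calc T ^ β ≤ T ^ (1 : ℝ) := Real.rpow_le_rpow_of_exponent_le hT hβ1
      _ = T := Real.rpow_one T
  have hMT : (M : ℝ) ≤ κ' * T := hMTβ.trans (mul_le_mul_of_nonneg_left hTβ hκ'0.le)
  have hT0 : 0 < T := by linarith
  have hM1 : (1 : ℝ) ≤ M := by exact_mod_cast hM
  have hMθ : 1 ≤ (M : ℝ) ^ (θ' * q) := Real.one_le_rpow hM1 (by positivity)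
  have hTε : 1 ≤ T ^ ε := Real.one_le_rpow hT hε.le
  have hTa : 1 ≤ T ^ (q * a) := Real.one_le_rpow hT hqa
  have hAq : 0 < ‖coef G m‖ ^ q := Real.rpow_pos_of_pos hA q
  have hDA : 0 ≤ D / ‖coef G m‖ ^ q := by positivity
  have hSM : 0 ≤ (M : ℝ) ^ (p * q) * T ^ (q * a) := by positivity
  have hTT1 : T ^ (1 + ε) = T * T ^ ε := by
    rw [Real.rpow_add hT0, Real.rpow_one]
  set X : ℝ := ((M : ℝ) ^ (p * q) * T ^ (q * a) + (M : ℝ) ^ (θ' * q)) * T ^ (1 + ε) with hX
  have hXT : T ≤ X := by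
    rw [hX, hTT1]
    calc T = 1 * (T * 1) := by ring
      _ ≤ _ := by
        refine mul_le_mul (by linarith) ?_ (by positivity) (by positivity)
        exact mul_le_mul_of_nonneg_left hTε hT0.le
  have hX0 : 0 < X := by linarith
  have hgoal : ∀ c : ℝ, c * ((M : ℝ) ^ (p * q) * T ^ (q * a) + (M : ℝ) ^ (θ' * q)) *
      T ^ (1 + ε) = c * X := by
    intro c
    rw [hX]
    ring
  rw [hgoal]
  rcases lt_or_ge T m with hTm | hTm
  · have e1 : (M : ℝ) ≤ κ' * m := hMT.trans (mul_le_mul_of_nonneg_left hTm.le hκ'0.le)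
    have e2 : ∫ t in T..(2 * T), ‖gs M t (Real.log N)‖ ^ q ≤ (κ' * m) ^ q * T := by
      have hle : T ≤ 2 * T := by linarith
      have hc : Continuous fun t => ‖gs M t (Real.log N)‖ ^ q :=
        (MSTEP_gs_cont M _).norm.rpow_const fun s => Or.inr hq0.le
      have := intervalIntegral.integral_mono_on (μ := volume) hle
        (hc.intervalIntegrable T (2 * T)) (intervalIntegrable_const (c := (κ' * m) ^ q)) fun t _ =>
        Real.rpow_le_rpow (norm_nonneg _) ((MSTEP_trivial M t (Real.log N)).trans e1) hq0.le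
      rw [intervalIntegral.integral_const, smul_eq_mul] at this
      refine this.trans (le_of_eq ?_)
      ring
    calc _ ≤ (κ' * m) ^ q * T := e2
      _ ≤ (κ' * m) ^ q * X := mul_le_mul_of_nonneg_left hXT (by positivity)
      _ ≤ ((κ' * m) ^ q + m * (D / ‖coef G m‖ ^ q)) * X := by
        refine mul_le_mul_of_nonneg_right ?_ hX0.le
        have : 0 ≤ m * (D / ‖coef G m‖ ^ q) := by positivity
        linarith
  · set t : ℝ := T / m with ht
    have ht1 : 1 ≤ t := by
      rw [ht, le_div_iff₀ hm0]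
      linarith
    have ht0 : 0 < t := by linarith
    have htT : t ≤ T := by
      rw [ht, div_le_iff₀ hm0]
      nlinarith
    have hmt : (m : ℝ) * t = T := by
      rw [ht]
      field_simp
    have e0 : (M : ℝ) ≤ min κ₀ κ / 2 * t ^ β := by
      have q1 : T ^ β ≤ m * t ^ β := by
        rw [← hmt, Real.mul_rpow hm0.le ht0.le]
        refine mul_le_mul_of_nonneg_right ?_ (by positivity)
        calc (m : ℝ) ^ β ≤ (m : ℝ) ^ (1 : ℝ) := Real.rpow_le_rpow_of_exponent_le hm1 hβ1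
          _ = m := Real.rpow_one _
      calc (M : ℝ) ≤ κ' * T ^ β := hMTβ
        _ ≤ κ' * (m * t ^ β) := mul_le_mul_of_nonneg_left q1 hκ'0.le
        _ = min κ₀ κ / 2 * t ^ β := by
          rw [hκ']
          field_simp
    have htβ0 : 0 < t ^ β := Real.rpow_pos_of_pos ht0 β
    have e1 : (M : ℝ) ≤ κ₀ / 2 * t ^ β := by
      refine e0.trans (mul_le_mul_of_nonneg_right ?_ htβ0.le)
      have := min_le_left κ₀ κ
      linarith
    have e2 : (M : ℝ) ≤ κ / 2 * t ^ β := by
      refine e0.trans (mul_le_mul_of_nonneg_right ?_ htβ0.le)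
      have := min_le_right κ₀ κ
      linarith
    have hy0 : 0 ≤ Real.log N := Real.log_nonneg hN
    have hN0 : 0 < N := by linarith
    have hNT : N ≤ κ' * T := hNM.trans hMT
    have hlogle : ∀ δ : ℝ, 0 < δ → Real.log N ≤ κ' ^ δ / δ * T ^ δ := by
      intro δ hδ
      have a2 : Real.log N ≤ N ^ δ / δ := Real.log_le_rpow_div hN0.le hδ
      have a3 : N ^ δ ≤ κ' ^ δ * T ^ δ := by
        rw [← Real.mul_rpow hκ'0.le hT0.le]
        exact Real.rpow_le_rpow hN0.le hNT hδ.le
      refine a2.trans ?_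
      rw [div_mul_eq_mul_div]
      exact div_le_div_of_nonneg_right a3 hδ.le
    set S : Finset ℕ := Finset.Ioo m ⌈2 * m * Real.log N / Real.log 2⌉₊ with hS
    have main := MSTEP_main (m := m) (M := M) (y := Real.log N) hG hC0 hB hA hq ht0.le S
      (fun s => hmain G B hG hcj s (Real.log N) M hy0)
    -- the integral term
    have g1 : ∫ s in t..(2 * t), MSTEP_I G m M s ^ q ≤ |C1| * X := by
      refine (h1 t ht1 M hM e1).trans ?_
      have a2 : t ^ (1 + q * (a + ε / q)) ≤ T ^ (q * a) * T ^ (1 + ε) := by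
        rw [← Real.rpow_add hT0]
        have a3 : 1 + q * (a + ε / q) = q * a + (1 + ε) := by
          field_simp
          ring
        rw [a3]
        exact Real.rpow_le_rpow ht0.le htT (by linarith)
      have a3 : (M : ℝ) ^ (p * q) * t ^ (1 + q * (a + ε / q)) ≤ X := by
        have a4 : (M : ℝ) ^ (p * q) * t ^ (1 + q * (a + ε / q)) ≤
            (M : ℝ) ^ (p * q) * (T ^ (q * a) * T ^ (1 + ε)) :=
          mul_le_mul_of_nonneg_left a2 (by positivity)
        refine a4.trans ?_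
        rw [hX, ← mul_assoc]
        refine mul_le_mul_of_nonneg_right ?_ (by positivity)
        linarith
      calc C1 * (M : ℝ) ^ (p * q) * t ^ (1 + q * (a + ε / q))
          = C1 * ((M : ℝ) ^ (p * q) * t ^ (1 + q * (a + ε / q))) := by ring
        _ ≤ |C1| * ((M : ℝ) ^ (p * q) * t ^ (1 + q * (a + ε / q))) :=
          mul_le_mul_of_nonneg_right (le_abs_self _) (by positivity)
        _ ≤ _ := mul_le_mul_of_nonneg_left a3 (abs_nonneg _)
    -- one high frequency
    have g2 : ∀ h ∈ S, ∫ s in t..(2 * t), MSTEP_H m M (Real.log N) h s ^ q ≤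
        |C2| * ((K3 ^ (q * a) + 1) * K1 ^ (ε / 8)) *
          (((M : ℝ) ^ (p * q) * T ^ (q * a) + (M : ℝ) ^ (θ' * q)) * (T * T ^ (ε / 2))) := by
      intro h hh
      rw [hS, Finset.mem_Ioo] at hh
      have a1 := h2 t ht1 M hM e2 N hN hNM h hh.1
      have a2 : (h : ℝ) < 2 * m * Real.log N / Real.log 2 := Nat.lt_ceil.1 hh.2
      have hmh : (m : ℝ) + 1 ≤ h := by exact_mod_cast hh.1
      have hh0 : (0 : ℝ) < h := by linarith
      have b1 : (h : ℝ) * t ≤ 2 * Real.log N / Real.log 2 * T := by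
        have b1 : (h : ℝ) * t ≤ 2 * m * Real.log N / Real.log 2 * t :=
          mul_le_mul_of_nonneg_right a2.le ht0.le
        have b2 : 2 * m * Real.log N / Real.log 2 * t = 2 * Real.log N / Real.log 2 * T := by
          rw [← hmt]
          ring
        linarith
      have a3 : (h : ℝ) * t ≤ K1 * T ^ 2 := by
        have b3 : Real.log N ≤ κ' * T := by
          have := Real.log_le_sub_one_of_pos hN0
          linarith
        have b4 : 2 * Real.log N / Real.log 2 * T ≤ K1 * T ^ 2 := by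
          have b5 : 2 * Real.log N / Real.log 2 ≤ K1 * T := by
            rw [hK1, div_mul_eq_mul_div]
            exact div_le_div_of_nonneg_right (by linarith) hlog2.le
          calc 2 * Real.log N / Real.log 2 * T ≤ K1 * T * T :=
                mul_le_mul_of_nonneg_right b5 hT0.le
            _ = K1 * T ^ 2 := by ring
        linarith
      have a3' : (h : ℝ) * t ≤ K3 * (T ^ η * T) := by
        have b3 := hlogle η hη0
        calc (h : ℝ) * t ≤ 2 * Real.log N / Real.log 2 * T := b1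
          _ = 2 / Real.log 2 * Real.log N * T := by ring
          _ ≤ 2 / Real.log 2 * (κ' ^ η / η * T ^ η) * T := by gcongr
          _ = K3 * (T ^ η * T) := by
            rw [hK3]
            ring
      have a4 : ((h : ℝ) * t) ^ (ε / 8) ≤ K1 ^ (ε / 8) * T ^ (ε / 4) := by
        have b1 : ((h : ℝ) * t) ^ (ε / 8) ≤ (K1 * T ^ 2) ^ (ε / 8) :=
          Real.rpow_le_rpow (by positivity) a3 (by linarith)
        refine b1.trans (le_of_eq ?_)
        rw [Real.mul_rpow hK1p.le (by positivity), ← Real.rpow_natCast T 2,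
          ← Real.rpow_mul hT0.le]
        congr 2
        push_cast
        ring
      have a4' : ((h : ℝ) * t) ^ (q * a) ≤ K3 ^ (q * a) * (T ^ (q * a) * T ^ (ε / 4)) := by
        have b1 : ((h : ℝ) * t) ^ (q * a) ≤ (K3 * (T ^ η * T)) ^ (q * a) :=
          Real.rpow_le_rpow (by positivity) a3' hqa
        have b2 : (K3 * (T ^ η * T)) ^ (q * a) =
            K3 ^ (q * a) * (T ^ (q * a) * T ^ (η * (q * a))) := by
          rw [Real.mul_rpow hK3p.le (by positivity), Real.mul_rpow (by positivity) hT0.le,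
            ← Real.rpow_mul hT0.le, mul_comm (T ^ (η * (q * a)))]
        rw [b2] at b1
        refine b1.trans ?_
        have b3 : T ^ (η * (q * a)) ≤ T ^ (ε / 4) := Real.rpow_le_rpow_of_exponent_le hT hηa
        gcongr
      have a5 : N ^ ((m : ℝ) / h * (θ * q)) ≤ (M : ℝ) ^ (θ' * q) := by
        have b0 : 0 ≤ (m : ℝ) / h * (θ * q) := by positivity
        have b1 : (m : ℝ) / h * (θ * q) ≤ θ' * q := by
          rw [← mul_assoc]
          refine mul_le_mul_of_nonneg_right ?_ hq0.le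
          refine mul_le_mul_of_nonneg_right ?_ hθ0
          exact div_le_div_of_nonneg_left hm0.le (by linarith) hmh
        exact (Real.rpow_le_rpow hN0.le hNM b0).trans
          (Real.rpow_le_rpow_of_exponent_le hM1 b1)
      have a6 : N ^ ((m : ℝ) / h * (p * q)) ≤ (M : ℝ) ^ (p * q) := by
        have b0 : 0 ≤ (m : ℝ) / h * (p * q) := by positivity
        have b1 : (m : ℝ) / h * (p * q) ≤ p * q := by
          have b2 : (m : ℝ) / h ≤ 1 := (div_le_one hh0).2 (by linarith)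
          exact mul_le_of_le_one_left (by positivity) b2
        exact (Real.rpow_le_rpow hN0.le hNM b0).trans
          (Real.rpow_le_rpow_of_exponent_le hM1 b1)
      have hT4 : 1 ≤ T ^ (ε / 4) := Real.one_le_rpow hT (by linarith)
      have hT44 : T ^ (ε / 4) * T ^ (ε / 4) = T ^ (ε / 2) := by
        rw [← Real.rpow_add hT0]
        congr 1
        ring
      have a7 : N ^ ((m : ℝ) / h * (p * q)) * (h * t) ^ (q * a) + N ^ ((m : ℝ) / h * (θ * q)) ≤
          (K3 ^ (q * a) + 1) * ((M : ℝ) ^ (p * q) * T ^ (q * a) + (M : ℝ) ^ (θ' * q)) *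
            T ^ (ε / 4) := by
        have c1 : N ^ ((m : ℝ) / h * (p * q)) * (h * t) ^ (q * a) ≤
            (M : ℝ) ^ (p * q) * (K3 ^ (q * a) * (T ^ (q * a) * T ^ (ε / 4))) :=
          mul_le_mul a6 a4' (by positivity) (by positivity)
        have c2 : (M : ℝ) ^ (θ' * q) ≤ (M : ℝ) ^ (θ' * q) * T ^ (ε / 4) :=
          le_mul_of_one_le_right (by positivity) hT4
        have c3 : 0 ≤ K3 ^ (q * a) * ((M : ℝ) ^ (θ' * q) * T ^ (ε / 4)) := by positivity
        have c4 : 0 ≤ (M : ℝ) ^ (p * q) * T ^ (q * a) * T ^ (ε / 4) := by positivity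
        calc _ ≤ (M : ℝ) ^ (p * q) * (K3 ^ (q * a) * (T ^ (q * a) * T ^ (ε / 4))) +
              (M : ℝ) ^ (θ' * q) * T ^ (ε / 4) := add_le_add c1 (a5.trans c2)
          _ ≤ (M : ℝ) ^ (p * q) * (K3 ^ (q * a) * (T ^ (q * a) * T ^ (ε / 4))) +
              (M : ℝ) ^ (θ' * q) * T ^ (ε / 4) +
              (K3 ^ (q * a) * ((M : ℝ) ^ (θ' * q) * T ^ (ε / 4)) +
                (M : ℝ) ^ (p * q) * T ^ (q * a) * T ^ (ε / 4)) := by
              linarith
          _ = _ := by ring
      calc _ ≤ C2 * (N ^ ((m : ℝ) / h * (p * q)) * (h * t) ^ (q * a) +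
            N ^ ((m : ℝ) / h * (θ * q))) * t * (h * t) ^ (ε / 8) := a1
        _ ≤ |C2| * (N ^ ((m : ℝ) / h * (p * q)) * (h * t) ^ (q * a) +
            N ^ ((m : ℝ) / h * (θ * q))) * t * (h * t) ^ (ε / 8) := by
          refine mul_le_mul_of_nonneg_right ?_ (by positivity)
          refine mul_le_mul_of_nonneg_right ?_ (by positivity)
          exact mul_le_mul_of_nonneg_right (le_abs_self _) (by positivity)
        _ ≤ |C2| * ((K3 ^ (q * a) + 1) * ((M : ℝ) ^ (p * q) * T ^ (q * a) +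
            (M : ℝ) ^ (θ' * q)) * T ^ (ε / 4)) * T * (K1 ^ (ε / 8) * T ^ (ε / 4)) := by
          gcongr
        _ = |C2| * ((K3 ^ (q * a) + 1) * K1 ^ (ε / 8)) *
          (((M : ℝ) ^ (p * q) * T ^ (q * a) + (M : ℝ) ^ (θ' * q)) *
            (T * (T ^ (ε / 4) * T ^ (ε / 4)))) := by ring
        _ = _ := by rw [hT44]
    -- the number of frequencies
    have g3 : (S.card : ℝ) ≤ K2 * T ^ δ := by
      have a1 := MSTEP_card m (2 * m * Real.log N / Real.log 2) (by positivity)
      have a4 := hlogle δ hδ0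
      calc _ ≤ 2 * m * Real.log N / Real.log 2 := a1
        _ = 2 * m / Real.log 2 * Real.log N := by ring
        _ ≤ 2 * m / Real.log 2 * (κ' ^ δ / δ * T ^ δ) :=
          mul_le_mul_of_nonneg_left a4 (by positivity)
        _ = K2 * T ^ δ := by
          rw [hK2]
          ring
    have hTT : T ^ (ε / 2) * T ^ (ε / 2) = T ^ ε := by
      rw [← Real.rpow_add hT0]
      congr 1
      ring
    have g3' : (S.card : ℝ) ^ (q - 1) * S.card ≤ K2 ^ q * T ^ (ε / 2) := by
      have a1 : (S.card : ℝ) ^ (q - 1) * S.card ≤ (S.card : ℝ) ^ q := by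
        rcases (Nat.cast_nonneg (α := ℝ) S.card).eq_or_lt with h0 | h0
        · rw [← h0, mul_zero]
          positivity
        · rw [Real.rpow_sub_one h0.ne', div_mul_cancel₀ _ h0.ne']
      refine a1.trans ?_
      have a2 : (S.card : ℝ) ^ q ≤ (K2 * T ^ δ) ^ q :=
        Real.rpow_le_rpow (Nat.cast_nonneg _) g3 hq0.le
      rwa [Real.mul_rpow hK2p.le (by positivity), ← Real.rpow_mul hT0.le, hδq] at a2
    have g4 : (S.card : ℝ) ^ (q - 1) *
        ∑ h ∈ S, ∫ s in t..(2 * t), MSTEP_H m M (Real.log N) h s ^ q ≤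
        K2 ^ q * (|C2| * ((K3 ^ (q * a) + 1) * K1 ^ (ε / 8))) * X := by
      have a0 : 0 ≤ |C2| * ((K3 ^ (q * a) + 1) * K1 ^ (ε / 8)) *
          (((M : ℝ) ^ (p * q) * T ^ (q * a) + (M : ℝ) ^ (θ' * q)) * (T * T ^ (ε / 2))) := by
        positivity
      calc (S.card : ℝ) ^ (q - 1) *
            ∑ h ∈ S, ∫ s in t..(2 * t), MSTEP_H m M (Real.log N) h s ^ q
          ≤ (S.card : ℝ) ^ (q - 1) * (S.card * (|C2| * ((K3 ^ (q * a) + 1) * K1 ^ (ε / 8)) *
          (((M : ℝ) ^ (p * q) * T ^ (q * a) + (M : ℝ) ^ (θ' * q)) * (T * T ^ (ε / 2))))) := by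
            refine mul_le_mul_of_nonneg_left ?_ (by positivity)
            refine (Finset.sum_le_sum g2).trans (le_of_eq ?_)
            rw [Finset.sum_const, nsmul_eq_mul]
        _ = ((S.card : ℝ) ^ (q - 1) * S.card) * (|C2| * ((K3 ^ (q * a) + 1) * K1 ^ (ε / 8)) *
          (((M : ℝ) ^ (p * q) * T ^ (q * a) + (M : ℝ) ^ (θ' * q)) * (T * T ^ (ε / 2)))) := by
            ring
        _ ≤ (K2 ^ q * T ^ (ε / 2)) * (|C2| * ((K3 ^ (q * a) + 1) * K1 ^ (ε / 8)) *
          (((M : ℝ) ^ (p * q) * T ^ (q * a) + (M : ℝ) ^ (θ' * q)) * (T * T ^ (ε / 2)))) :=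
            mul_le_mul_of_nonneg_right g3' a0
        _ = _ := by
            rw [hX, hTT1, ← hTT]
            ring
    have htX : t ≤ X := htT.trans hXT
    have hL : ‖coef G m‖ ^ q * ∫ s in t..(2 * t), ‖gs M (m * s) (Real.log N)‖ ^ q ≤ D * X := by
      refine main.trans ?_
      have b1 := mul_le_mul_of_nonneg_left g1 (show 0 ≤ C0 ^ q by positivity)
      have b2 := mul_le_mul_of_nonneg_left htX (show 0 ≤ (C0 * B) ^ q by positivity)
      have b3 := mul_le_mul_of_nonneg_left g4 (show 0 ≤ B ^ q by positivity)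
      calc _ ≤ 3 ^ q * (C0 ^ q * (|C1| * X) + (C0 * B) ^ q * X +
          B ^ q * (K2 ^ q * (|C2| * ((K3 ^ (q * a) + 1) * K1 ^ (ε / 8))) * X)) :=
            mul_le_mul_of_nonneg_left (add_le_add (add_le_add b1 b2) b3) (by positivity)
        _ = D * X := by
          rw [hD]
          ring
    have hL2 : ∫ s in t..(2 * t), ‖gs M (m * s) (Real.log N)‖ ^ q ≤
        D / ‖coef G m‖ ^ q * X := by
      rw [div_mul_eq_mul_div, le_div_iff₀ hAq, mul_comm]
      exact hL
    have hsub : ∫ u in T..(2 * T), ‖gs M u (Real.log N)‖ ^ q =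
        m * ∫ s in t..(2 * t), ‖gs M (m * s) (Real.log N)‖ ^ q := by
      have := intervalIntegral.integral_comp_mul_left (a := t) (b := 2 * t)
        (fun u => ‖gs M u (Real.log N)‖ ^ q) hm0.ne'
      rw [this, hmt, show (m : ℝ) * (2 * t) = 2 * T by rw [← hmt]; ring, smul_eq_mul]
      field_simp
    rw [hsub]
    calc _ ≤ m * (D / ‖coef G m‖ ^ q * X) := mul_le_mul_of_nonneg_left hL2 hm0.le
      _ = m * (D / ‖coef G m‖ ^ q) * X := by ring
      _ ≤ ((κ' * m) ^ q + m * (D / ‖coef G m‖ ^ q)) * X := by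
        refine mul_le_mul_of_nonneg_right ?_ hX0.le
        have : 0 < (κ' * m) ^ q := by positivity
        linarith


end Pool.Agent.Ben
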