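import Pool.Agent.Ben.Targets8

/-!
# Ben, MTRIV: the trivial range of exponents, means of order `q`
-/

set_option autoImplicit false

namespace Pool.Agent.Ben

open MeasureTheory

private lemma MTRIV_dist (f : ℝ → ℝ) (M : ℝ) (hf : ContDiff ℝ 1 f)
    (hp : Function.Periodic f 1) (hM : ∀ y, |deriv f y| ≤ M) (y : ℝ) :
    |f y - ∫ u in (0 : ℝ)..1, f u| ≤ M := by
  have hdiff : Differentiable ℝ f := hf.differentiable (by norm_num)
  have hlip : ∀ a b : ℝ, |f a - f b| ≤ M * |a - b| := by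
    intro a b
    have := Convex.norm_image_sub_le_of_norm_deriv_le (f := f) (C := M) (s := Set.univ)
      (fun x _ => hdiff x) (fun x _ => by simpa using hM x) convex_univ
      (Set.mem_univ b) (Set.mem_univ a)
    simpa using this
  have hM0 : 0 ≤ M := (abs_nonneg _).trans (hM 0)
  have hfr : f y = f (Int.fract y) := by
    have := hp.sub_int_mul_eq (x := y) ⌊y⌋
    rw [mul_one] at this
    exact this.symm
  have hint : IntervalIntegrable f volume 0 1 := hf.continuous.intervalIntegrable _ _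
  have hconst : f (Int.fract y) = ∫ _u in (0 : ℝ)..1, f (Int.fract y) := by simp
  rw [hfr]
  have e1 : f (Int.fract y) - ∫ u in (0 : ℝ)..1, f u =
      ∫ u in (0 : ℝ)..1, (f (Int.fract y) - f u) := by
    rw [intervalIntegral.integral_sub intervalIntegrable_const hint, ← hconst]
  rw [e1]
  have e2 : ‖∫ u in (0 : ℝ)..1, (f (Int.fract y) - f u)‖ ≤ M * |1 - 0| := by
    refine intervalIntegral.norm_integral_le_of_norm_le_const ?_
    intro u hu
    rw [Set.uIoc_of_le zero_le_one] at hu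
    have h0 := Int.fract_nonneg y
    have h1 := Int.fract_lt_one y
    have h3 : |Int.fract y - u| ≤ 1 := by
      rw [abs_le]
      constructor <;> linarith [hu.1, hu.2]
    calc ‖f (Int.fract y) - f u‖ ≤ M * |Int.fract y - u| := hlip _ _
      _ ≤ M * 1 := mul_le_mul_of_nonneg_left h3 hM0
      _ = M := mul_one M
  simpa using e2

private lemma MTRIV_sum (f : ℝ → ℝ) (M : ℝ) (hf : ContDiff ℝ 1 f)
    (hp : Function.Periodic f 1) (hM : ∀ y, |deriv f y| ≤ M) (g x : ℝ) (N : ℕ) :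
    |∑ n ∈ Finset.Icc 1 N, f (Real.logb g ((n : ℝ) ^ x)) -
      N * ∫ u in (0 : ℝ)..1, f u| ≤ N * M := by
  have e1 : ∑ n ∈ Finset.Icc 1 N, f (Real.logb g ((n : ℝ) ^ x)) -
      N * ∫ u in (0 : ℝ)..1, f u =
      ∑ n ∈ Finset.Icc 1 N, (f (Real.logb g ((n : ℝ) ^ x)) - ∫ u in (0 : ℝ)..1, f u) := by
    rw [Finset.sum_sub_distrib]
    simp
  rw [e1]
  refine (Finset.abs_sum_le_sum_abs _ _).trans ?_
  refine (Finset.sum_le_sum (fun n _ => MTRIV_dist f M hf hp hM _)).trans ?_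
  simp

theorem p_MTRIV : M_TRIV := by
  intro q a hq ha g _ ε hε
  refine ⟨1, ?_⟩
  intro f M hf hp hM X hX N hN hNX
  have hq0 : 0 ≤ q := by linarith
  have hM0 : 0 ≤ M := (abs_nonneg _).trans (hM 0)
  have hX0 : 0 < X := by linarith
  have e3 : √(N : ℝ) ≤ X ^ (a + ε) := by
    rw [Real.sqrt_eq_rpow]
    calc (N : ℝ) ^ (1 / 2 : ℝ) ≤ X ^ (1 / 2 : ℝ) :=
          Real.rpow_le_rpow (by positivity) hNX (by norm_num)
      _ ≤ X ^ (a + ε) := Real.rpow_le_rpow_of_exponent_le hX (by linarith)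
  have e4 : (N : ℝ) = √(N : ℝ) * √(N : ℝ) := (Real.mul_self_sqrt (by positivity)).symm
  have e5 : (N : ℝ) * M ≤ M * √(N : ℝ) * X ^ (a + ε) := by
    calc (N : ℝ) * M = M * √(N : ℝ) * √(N : ℝ) := by
          rw [mul_assoc, ← e4, mul_comm]
      _ ≤ M * √(N : ℝ) * X ^ (a + ε) := mul_le_mul_of_nonneg_left e3 (by positivity)
  have e6 : ∀ x : ℝ, |∑ n ∈ Finset.Icc 1 N, f (Real.logb g ((n : ℝ) ^ x)) -
      N * ∫ u in (0 : ℝ)..1, f u| ^ q ≤ (M * √(N : ℝ)) ^ q * X ^ (q * (a + ε)) := by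
    intro x
    calc |∑ n ∈ Finset.Icc 1 N, f (Real.logb g ((n : ℝ) ^ x)) -
          N * ∫ u in (0 : ℝ)..1, f u| ^ q ≤ (M * √(N : ℝ) * X ^ (a + ε)) ^ q :=
          Real.rpow_le_rpow (abs_nonneg _) ((MTRIV_sum f M hf hp hM g x N).trans e5) hq0
      _ = (M * √(N : ℝ)) ^ q * X ^ (q * (a + ε)) := by
          rw [Real.mul_rpow (by positivity) (by positivity), ← Real.rpow_mul hX0.le,
            mul_comm (a + ε) q]
  have e7 : ‖∫ x in X..(2 * X), |∑ n ∈ Finset.Icc 1 N, f (Real.logb g ((n : ℝ) ^ x)) -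
      N * ∫ u in (0 : ℝ)..1, f u| ^ q‖ ≤
      (M * √(N : ℝ)) ^ q * X ^ (q * (a + ε)) * |2 * X - X| := by
    refine intervalIntegral.norm_integral_le_of_norm_le_const ?_
    intro x _
    rw [Real.norm_of_nonneg (Real.rpow_nonneg (abs_nonneg _) _)]
    exact e6 x
  refine (le_trans (le_abs_self _) e7).trans ?_
  have e8 : |2 * X - X| = X := by
    rw [abs_of_nonneg (by linarith)]
    ring
  rw [e8, Real.rpow_add hX0, Real.rpow_one]
  apply le_of_eq
  ring

end Pool.Agent.Ben
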