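import Pool.Agent.Ben.Targets8
import Pool.Agent.Ben.P_SUML

/-!
# Means of order `q`: the moments of zeta from the moments of the Gaussian sums
-/

set_option autoImplicit false

namespace Pool.Agent.Ben

open Complex MeasureTheory Set

/-- Jensen -/
private theorem MZ_jensen {q L : ℝ} (hq : 1 ≤ q) (hL : 0 < L) {z : ℝ → ℝ} (hz : Continuous z)
    (h0 : ∀ v, 0 ≤ z v) :
    (∫ v in (0 : ℝ)..L, z v) ^ q ≤ L ^ (q - 1) * ∫ v in (0 : ℝ)..L, z v ^ q := by
  set J : ℝ := ∫ v in (0 : ℝ)..L, z v with hJ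
  have hJ0 : 0 ≤ J := intervalIntegral.integral_nonneg hL.le fun v _ => h0 v
  have hzq : Continuous fun v => z v ^ q := hz.rpow_const fun v => Or.inr (by linarith)
  rcases hJ0.eq_or_lt with h | h
  · rw [← h, Real.zero_rpow (by linarith)]
    have h1 : 0 ≤ ∫ v in (0 : ℝ)..L, z v ^ q :=
      intervalIntegral.integral_nonneg hL.le fun v _ => Real.rpow_nonneg (h0 v) q
    positivity
  · set m : ℝ := J / L with hm
    have hm0 : 0 < m := by positivity
    have hpt : ∀ v, m ^ q * (1 + q * (z v / m - 1)) ≤ z v ^ q := by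
      intro v
      have h2 : 0 ≤ z v / m := div_nonneg (h0 v) hm0.le
      have h1 := one_add_mul_self_le_rpow_one_add (s := z v / m - 1) (by linarith) hq
      rw [add_sub_cancel, Real.div_rpow (h0 v) hm0.le, le_div_iff₀ (by positivity)] at h1
      linarith
    have hc : Continuous fun v => m ^ q * (1 + q * (z v / m - 1)) := by fun_prop
    have h2 : ∫ v in (0 : ℝ)..L, m ^ q * (1 + q * (z v / m - 1)) ≤
        ∫ v in (0 : ℝ)..L, z v ^ q :=
      intervalIntegral.integral_mono_on hL.le (hc.intervalIntegrable _ _)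
        (hzq.intervalIntegrable _ _) fun v _ => hpt v
    have h3 : ∫ v in (0 : ℝ)..L, m ^ q * (1 + q * (z v / m - 1)) = m ^ q * L := by
      have e1 : (fun v => m ^ q * (1 + q * (z v / m - 1))) =
          fun v => m ^ q * (1 - q) + (m ^ q * q / m) * z v := by
        funext v
        field_simp
        ring
      have i1 : IntervalIntegrable (fun _ : ℝ => m ^ q * (1 - q)) volume 0 L :=
        continuous_const.intervalIntegrable _ _
      have i2 : IntervalIntegrable (fun v : ℝ => m ^ q * q / m * z v) volume 0 L :=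
        (continuous_const.mul hz).intervalIntegrable _ _
      rw [e1, intervalIntegral.integral_add i1 i2, intervalIntegral.integral_const,
        intervalIntegral.integral_const_mul, smul_eq_mul, ← hJ]
      have e2 : J = m * L := by
        rw [hm]
        field_simp
      rw [e2]
      field_simp
      ring
    have h4 : J ^ q = L ^ (q - 1) * (m ^ q * L) := by
      have e2 : J = m * L := by
        rw [hm]
        field_simp
      rw [e2, Real.mul_rpow hm0.le hL.le, Real.rpow_sub hL, Real.rpow_one]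
      field_simp
    rw [h4]
    rw [h3] at h2
    gcongr

private theorem MZ_two {x y q : ℝ} (hq : 1 ≤ q) (hx : 0 ≤ x) (hy : 0 ≤ y) :
    (x + y) ^ q ≤ 2 ^ q * (x ^ q + y ^ q) := by
  rcases le_total x y with h | h
  · calc (x + y) ^ q ≤ (2 * y) ^ q := by
          apply Real.rpow_le_rpow (by positivity) (by linarith) (by linarith)
      _ = 2 ^ q * y ^ q := Real.mul_rpow (by norm_num) hy
      _ ≤ _ := by
        have : 0 ≤ x ^ q := Real.rpow_nonneg hx q
        gcongr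
        linarith
  · calc (x + y) ^ q ≤ (2 * x) ^ q := by
          apply Real.rpow_le_rpow (by positivity) (by linarith) (by linarith)
      _ = 2 ^ q * x ^ q := Real.mul_rpow (by norm_num) hx
      _ ≤ _ := by
        have : 0 ≤ y ^ q := Real.rpow_nonneg hy q
        gcongr
        linarith

private theorem MZ_log {η T : ℝ} (hη : 0 < η) (hT : 1 ≤ T) :
    1 + Real.log (2 * T) ≤ (1 + 2 ^ η / η) * T ^ η := by
  have h1 : Real.log (2 * T) ≤ (2 * T) ^ η / η := Real.log_le_rpow_div (by linarith) hη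
  have h2 : (2 * T) ^ η = 2 ^ η * T ^ η := Real.mul_rpow (by norm_num) (by linarith)
  have h3 : 1 ≤ T ^ η := Real.one_le_rpow hT hη.le
  rw [h2] at h1
  calc 1 + Real.log (2 * T) ≤ T ^ η + 2 ^ η * T ^ η / η := by linarith
    _ = _ := by ring

private theorem MZ_zeta_cont : Continuous fun t : ℝ => ‖riemannZeta (1 / 2 + t * I)‖ := by
  refine Continuous.norm (continuous_iff_continuousAt.mpr fun t => ?_)
  have h : (1 / 2 + t * I : ℂ) ≠ 1 := by
    intro h
    have := congrArg Complex.re h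
    norm_num at this
  have h1 : ContinuousAt (fun t : ℝ => (1 / 2 + t * I : ℂ)) t := by fun_prop
  exact ContinuousAt.comp (f := fun t : ℝ => (1 / 2 + t * I : ℂ))
    (differentiableAt_riemannZeta h).continuousAt h1

private theorem MZ_gs_cont (M : ℕ) (y : ℝ) : Continuous fun s : ℝ => gs M s y := by
  unfold gs e
  fun_prop

/-- joint continuity -/
private theorem MZ_cont :
    Continuous fun p : ℝ × ℝ => Pool.Agent.DBN.zsum (Real.exp p.1) p.2 := by
  rw [continuous_iff_continuousAt]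
  intro p₀
  have hopen : IsOpen {p : ℝ × ℝ | p.1 < p₀.1 + 1} := isOpen_lt continuous_fst continuous_const
  have hc : ContinuousOn (fun p : ℝ × ℝ => ∑' n, Pool.Agent.DBN.Nw.zt (Real.exp p.1) p.2 n)
      {p : ℝ × ℝ | p.1 < p₀.1 + 1} := by
    refine continuousOn_tsum (fun n => ?_)
      (Pool.Agent.DBN.Nw.summable_32.mul_left (Real.exp 1 * Real.exp (p₀.1 + 1)))
      (fun n p hp => ?_)
    · apply Continuous.continuousOn
      unfold Pool.Agent.DBN.Nw.zt
      have h : ((n + 1 : ℕ) : ℂ) ≠ 0 := by exact_mod_cast Nat.succ_ne_zero n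
      refine Continuous.mul ?_ (Continuous.const_cpow (by fun_prop) (Or.inl h))
      have e1 : ∀ p : ℝ × ℝ, Real.log (((n + 1 : ℕ) : ℝ) / Real.exp p.1) =
          Real.log ((n + 1 : ℕ) : ℝ) - p.1 := by
        intro p
        rw [Real.log_div (by positivity) (Real.exp_pos _).ne', Real.log_exp]
      simp only [e1]
      fun_prop
    · refine (Pool.Agent.DBN.Nw.norm_zt_le (Real.exp_pos _) _ _).trans ?_
      have hp' : p.1 ≤ p₀.1 + 1 := le_of_lt hp
      gcongr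
  have h2 : (fun p : ℝ × ℝ => Pool.Agent.DBN.zsum (Real.exp p.1) p.2) =
      fun p : ℝ × ℝ => ∑' n, Pool.Agent.DBN.Nw.zt (Real.exp p.1) p.2 n := by
    funext p
    rfl
  rw [h2]
  exact hc.continuousAt (hopen.mem_nhds (by simp))

/-- the size of `M` -/
private theorem MZ_size {κ β d : ℝ} (hκ : 0 < κ) (hβ : 1 / 2 < β) (hβ1 : β ≤ 1)
    (hd : d ≤ (β - 1 / 2) / 4) : ∃ T₁ : ℝ, ∀ T : ℝ, T₁ ≤ T → 1 ≤ T → ∀ N : ℝ, 0 ≤ N →
      N ≤ √(2 * T) → N * T ^ d ≤ κ * (T / (4 * Real.pi)) ^ β := by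
  have hpi0 := Real.pi_pos
  have hpi := Real.pi_gt_three
  have hev := (tendsto_rpow_atTop (y := (β - 1 / 2) / 2) (by linarith)).eventually_ge_atTop
    (√2 * (4 * Real.pi) / κ)
  obtain ⟨T₁, hT₁⟩ := Filter.eventually_atTop.1 hev
  refine ⟨T₁, fun T hT hT1 N hN0 hN => ?_⟩
  have hT0 : 0 < T := by linarith
  have h1 := hT₁ T hT
  have h2 : √(2 * T) = √2 * T ^ (1 / 2 : ℝ) := by
    rw [Real.sqrt_mul (by norm_num), Real.sqrt_eq_rpow T]
  have h3 : T ^ (1 / 2 + d) * T ^ ((β - 1 / 2) / 2) ≤ T ^ β := by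
    rw [← Real.rpow_add hT0]
    exact Real.rpow_le_rpow_of_exponent_le hT1 (by linarith)
  have h4 : T ^ β / (4 * Real.pi) ≤ (T / (4 * Real.pi)) ^ β := by
    rw [Real.div_rpow hT0.le (by positivity)]
    refine div_le_div_of_nonneg_left (by positivity) (by positivity) ?_
    calc (4 * Real.pi) ^ β ≤ (4 * Real.pi) ^ (1 : ℝ) :=
          Real.rpow_le_rpow_of_exponent_le (by linarith) hβ1
      _ = 4 * Real.pi := Real.rpow_one _
  calc N * T ^ d ≤ √(2 * T) * T ^ d := by gcongr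
    _ = √2 * T ^ (1 / 2 + d) := by
      rw [h2, Real.rpow_add hT0]
      ring
    _ = κ / (4 * Real.pi) * (T ^ (1 / 2 + d) * (√2 * (4 * Real.pi) / κ)) := by
      field_simp
    _ ≤ κ / (4 * Real.pi) * (T ^ (1 / 2 + d) * T ^ ((β - 1 / 2) / 2)) := by gcongr
    _ ≤ κ / (4 * Real.pi) * T ^ β := by gcongr
    _ = κ * (T ^ β / (4 * Real.pi)) := by ring
    _ ≤ _ := by gcongr

/-- the integral of the Gaussian sum -/
private theorem MZ_int {q a κ β C₀ ε₁ T : ℝ} {M : ℕ} (hq : 1 ≤ q) (ha : 0 ≤ a) (hκ : 0 < κ)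
    (hβ0 : 0 < β) (hε : 0 < ε₁)
    (hC₀ : ∀ T : ℝ, 1 ≤ T → ∀ M : ℕ, 1 ≤ M → (M : ℝ) ≤ κ * T ^ β → ∀ N : ℝ, 1 ≤ N → N ≤ M →
      ∫ t in T..(2 * T), ‖gs M t (Real.log N)‖ ^ q ≤
        C₀ * ((M : ℝ) ^ ((1 / 2 : ℝ) * q) * T ^ (q * a) + (M : ℝ) ^ ((1 / 2 : ℝ) * q)) *
          T ^ (1 + ε₁))
    (hT : 4 * Real.pi ≤ T) (hM : 1 ≤ M) (hM2 : (M : ℝ) ≤ κ * (T / (4 * Real.pi)) ^ β) {N : ℝ}
    (hN : 1 ≤ N) (hNM : N ≤ M) :
    ∫ t in T..(2 * T), ‖gs M ((t - Real.pi / 8) / (2 * Real.pi)) (Real.log N)‖ ^ q ≤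
      2 * Real.pi * (4 * |C₀| * ((M : ℝ) ^ (q / 2) * T ^ (1 + q * a + ε₁))) := by
  have hpi0 := Real.pi_pos
  have hpi := Real.pi_gt_three
  have hT0 : 0 < T := by linarith
  set S : ℝ := T / (4 * Real.pi) with hS
  have hTS : T = 4 * Real.pi * S := by
    rw [hS]
    field_simp
  have hS1 : 1 ≤ S := by
    rw [hS, le_div_iff₀ (by positivity)]
    linarith
  have hST : 2 * S ≤ T := by
    rw [hTS]
    nlinarith
  set h : ℝ → ℝ := fun s => ‖gs M s (Real.log N)‖ ^ q with hh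
  have hhc : Continuous h :=
    (MZ_gs_cont M (Real.log N)).norm.rpow_const fun t => Or.inr (by linarith)
  have hh0 : ∀ s, 0 ≤ h s := fun s => Real.rpow_nonneg (norm_nonneg _) q
  have key : ∀ S' : ℝ, S ≤ S' → S' ≤ T → ∫ s in S'..(2 * S'), h s ≤
      2 * |C₀| * ((M : ℝ) ^ (q / 2) * T ^ (1 + q * a + ε₁)) := by
    intro S' h1 h2
    have hS' : 1 ≤ S' := hS1.trans h1
    have hS'0 : 0 < S' := by linarith
    have h3 : (M : ℝ) ≤ κ * S' ^ β := by
      refine hM2.trans ?_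
      gcongr
    refine (hC₀ S' hS' M hM h3 N hN hNM).trans ?_
    have e1 : (1 / 2 : ℝ) * q = q / 2 := by ring
    rw [e1]
    have e2 : S' ^ (q * a) ≤ T ^ (q * a) := Real.rpow_le_rpow hS'0.le h2 (by positivity)
    have e3 : S' ^ (1 + ε₁) ≤ T ^ (1 + ε₁) := Real.rpow_le_rpow hS'0.le h2 (by positivity)
    have e4 : 1 ≤ T ^ (q * a) := Real.one_le_rpow (hS'.trans h2) (by positivity)
    have e5 : T ^ (1 + q * a + ε₁) = T ^ (q * a) * T ^ (1 + ε₁) := by
      rw [← Real.rpow_add hT0]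
      congr 1
      ring
    have e6 : (M : ℝ) ^ (q / 2) ≤ (M : ℝ) ^ (q / 2) * T ^ (q * a) :=
      le_mul_of_one_le_right (by positivity) e4
    calc C₀ * ((M : ℝ) ^ (q / 2) * S' ^ (q * a) + (M : ℝ) ^ (q / 2)) * S' ^ (1 + ε₁) ≤
          |C₀| * ((M : ℝ) ^ (q / 2) * S' ^ (q * a) + (M : ℝ) ^ (q / 2)) * S' ^ (1 + ε₁) := by
          gcongr
          exact le_abs_self _
      _ ≤ |C₀| * ((M : ℝ) ^ (q / 2) * T ^ (q * a) + (M : ℝ) ^ (q / 2) * T ^ (q * a)) *
            T ^ (1 + ε₁) := by gcongr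
      _ = _ := by
        rw [e5]
        ring
  have e1 : ∫ t in T..(2 * T), ‖gs M ((t - Real.pi / 8) / (2 * Real.pi)) (Real.log N)‖ ^ q =
      2 * Real.pi * ∫ s in (2 * S - 1 / 16)..(2 * (2 * S) - 1 / 16), h s := by
    have h1 := intervalIntegral.integral_comp_div_sub (a := T) (b := 2 * T) h
      (c := 2 * Real.pi) (by positivity) (1 / 16)
    have h2 : ∀ t : ℝ, (t - Real.pi / 8) / (2 * Real.pi) = t / (2 * Real.pi) - 1 / 16 := by
      intro t
      field_simp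
      ring
    have h3 : T / (2 * Real.pi) = 2 * S := by
      rw [hTS]
      field_simp
      ring
    have h4 : 2 * T / (2 * Real.pi) = 2 * (2 * S) := by
      rw [hTS]
      field_simp
      ring
    rw [h3, h4, smul_eq_mul] at h1
    rw [← h1]
    simp only [h2, hh]
  have e2 : ∫ s in (2 * S - 1 / 16)..(2 * (2 * S) - 1 / 16), h s ≤
      ∫ s in S..(2 * (2 * S)), h s :=
    intervalIntegral.integral_mono_interval (by linarith) (by linarith) (by linarith)
      (Filter.Eventually.of_forall hh0) (hhc.intervalIntegrable _ _)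
  have e3 : ∫ s in S..(2 * (2 * S)), h s =
      (∫ s in S..(2 * S), h s) + ∫ s in (2 * S)..(2 * (2 * S)), h s :=
    (intervalIntegral.integral_add_adjacent_intervals (hhc.intervalIntegrable _ _)
      (hhc.intervalIntegrable _ _)).symm
  have e4 := key S le_rfl (by linarith)
  have e5 := key (2 * S) (by linarith) hST
  rw [e1]
  apply mul_le_mul_of_nonneg_left _ (by positivity)
  rw [e3] at e2
  linarith

/-- fixed `v` -/
private theorem MZ_fix (hT : T_TAIL) {q a κ β : ℝ} (hq : 1 ≤ q) (ha : 0 ≤ a) (hκ : 0 < κ)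
    (hβ : 1 / 2 < β) (hβ1 : β ≤ 1) (hG : GM q (1 / 2) a (1 / 2) κ β) {ε : ℝ} (hε : 0 < ε) :
    ∃ C T₁ : ℝ, 0 ≤ C ∧ ∀ T : ℝ, T₁ ≤ T → ∀ v : ℝ, 0 ≤ v →
      v ≤ Real.log (2 * T) / 2 →
      ∫ t in T..(2 * T), ‖Pool.Agent.DBN.zsum (Real.exp v) (t - Real.pi / 8)‖ ^ q ≤
        C * T ^ (1 + q * (a + ε)) := by
  have hpi0 := Real.pi_pos
  have hpi := Real.pi_gt_three
  have hq0 : 0 < q := by linarith
  set d : ℝ := min (ε / 2) ((β - 1 / 2) / 4) with hd
  have hd0 : 0 < d := lt_min (by positivity) (by linarith)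
  have hd1 : d ≤ ε / 2 := min_le_left _ _
  have hd2 : d ≤ (β - 1 / 2) / 4 := min_le_right _ _
  obtain ⟨T₀, hT₀⟩ := hT d hd0
  obtain ⟨C₀, hC₀⟩ := hG (q * ε / 2) (by positivity)
  obtain ⟨T₂, hT₂⟩ := MZ_size hκ hβ hβ1 hd2
  have hS := Pool.Agent.DBN.Nw.S32_nonneg
  set B : ℝ := Real.exp 1 * Pool.Agent.DBN.Nw.S32 * Real.exp 1 with hB
  have hB0 : 0 ≤ B := by positivity
  set D : ℝ := Real.exp (1 / 4) ^ q * 2 ^ q with hD
  have hD0 : 0 ≤ D := by positivity
  refine ⟨B ^ q + D * (8 * Real.pi * |C₀| + 1), max (max T₀ T₂) (4 * Real.pi), by positivity,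
    fun T hT' v hv0 hv => ?_⟩
  have ht0 : T₀ ≤ T := ((le_max_left _ _).trans (le_max_left _ _)).trans hT'
  have ht2 : T₂ ≤ T := ((le_max_right _ _).trans (le_max_left _ _)).trans hT'
  have htp : 4 * Real.pi ≤ T := (le_max_right _ _).trans hT'
  have hTpos : 0 < T := by linarith
  have hT1 : 1 ≤ T := by linarith
  set N : ℝ := Real.exp v with hN
  have hN0 : 0 < N := Real.exp_pos _
  have hN1 : 1 ≤ N := Real.one_le_exp hv0
  set s : ℝ := 1 + q * (a + ε) with hs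
  have hs1 : T ≤ T ^ s := by
    calc T = T ^ (1 : ℝ) := (Real.rpow_one T).symm
      _ ≤ T ^ s := Real.rpow_le_rpow_of_exponent_le hT1 (by
          rw [hs]
          have : 0 ≤ q * (a + ε) := by positivity
          linarith)
  set z : ℝ → ℝ := fun t => ‖Pool.Agent.DBN.zsum N (t - Real.pi / 8)‖ with hz
  have hz0 : ∀ t, 0 ≤ z t := fun t => norm_nonneg _
  have hzc : Continuous z := by
    have h1 : Continuous fun t : ℝ => ((v, t - Real.pi / 8) : ℝ × ℝ) := by fun_prop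
    exact (MZ_cont.comp h1).norm
  have hzqc : Continuous fun t => z t ^ q := hzc.rpow_const fun t => Or.inr hq0.le
  have hTT : T ≤ 2 * T := by linarith
  have hD1 : 0 ≤ D * (8 * Real.pi * |C₀| + 1) := by positivity
  have hBq : 0 ≤ B ^ q := by positivity
  rcases le_total v 1 with hv1 | hv1
  · have h1 : ∀ t, z t ^ q ≤ B ^ q := by
      intro t
      refine Real.rpow_le_rpow (hz0 t) ?_ hq0.le
      refine (Pool.Agent.DBN.Nw.norm_zsum_le hN0 _).trans ?_
      have : N ≤ Real.exp 1 := Real.exp_le_exp.2 hv1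
      rw [hB]
      gcongr
    have h2 : ∫ t in T..(2 * T), z t ^ q ≤ ∫ t in T..(2 * T), B ^ q :=
      intervalIntegral.integral_mono_on hTT (hzqc.intervalIntegrable _ _)
        (continuous_const.intervalIntegrable _ _) fun t _ => h1 t
    rw [intervalIntegral.integral_const, smul_eq_mul] at h2
    calc _ ≤ (2 * T - T) * B ^ q := h2
      _ = B ^ q * T := by ring
      _ ≤ (B ^ q + D * (8 * Real.pi * |C₀| + 1)) * T ^ s := by
        gcongr
        linarith
  set N₁ : ℝ := N / Real.exp 1 with hN₁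
  have he1 : (2 : ℝ) ≤ Real.exp 1 := by
    have := Real.add_one_le_exp (1 : ℝ); linarith
  have hNe : Real.exp 1 ≤ N := Real.exp_le_exp.2 hv1
  have hN₁1 : 1 ≤ N₁ := by rw [hN₁, le_div_iff₀ (Real.exp_pos _)]; linarith
  have hN₁2 : 2 * N₁ ≤ N := by
    have : N = N₁ * Real.exp 1 := by rw [hN₁]; field_simp
    nlinarith
  have hNs : N ≤ √(2 * T) := by
    rw [hN, Real.sqrt_eq_rpow, Real.rpow_def_of_pos (by positivity)]
    apply Real.exp_le_exp.2
    linarith
  have hNT : N ≤ T := by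
    refine hNs.trans ?_
    rw [Real.sqrt_le_left hTpos.le]
    nlinarith
  have hTd : 1 ≤ T ^ d := Real.one_le_rpow hT1 hd0.le
  have hNTd : 1 ≤ N₁ * T ^ d := by nlinarith
  set M : ℕ := ⌈N₁ * T ^ d⌉₊ with hM
  have hM1 : N₁ * T ^ d ≤ M := Nat.le_ceil _
  have hM2 : (M : ℝ) < N₁ * T ^ d + 1 := Nat.ceil_lt_add_one (by positivity)
  have hM3 : (M : ℝ) ≤ N * T ^ d := by nlinarith
  have hM4 : 1 ≤ M := by
    have : (1 : ℝ) ≤ M := hNTd.trans hM1
    exact_mod_cast this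
  have hM5 : N₁ ≤ M := by nlinarith
  have hM6 : N₁ * T ^ d ≤ (M : ℝ) + 1 := by linarith
  have hMκ : (M : ℝ) ≤ κ * (T / (4 * Real.pi)) ^ β :=
    hM3.trans (hT₂ T ht2 hT1 N hN0.le hNs)
  have hI := MZ_int hq ha hκ (by linarith) (by positivity) hC₀ htp hM4 hMκ hN₁1 hM5
  obtain ⟨hsum, htail⟩ := hT₀ T N₁ ht0 hN₁1 M hM6
  set g : ℝ → ℝ := fun t => ‖gs M ((t - Real.pi / 8) / (2 * Real.pi)) (Real.log N₁)‖ with hg
  have hg0 : ∀ t, 0 ≤ g t := fun t => norm_nonneg _
  have hgc : Continuous g := by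
    have h1 : Continuous fun t : ℝ => (t - Real.pi / 8) / (2 * Real.pi) := by fun_prop
    exact ((MZ_gs_cont M (Real.log N₁)).comp h1).norm
  have hgqc : Continuous fun t => g t ^ q := hgc.rpow_const fun t => Or.inr hq0.le
  have hN₁T : N₁ / T ≤ 1 := by rw [div_le_one hTpos]; linarith
  have hsN : 0 < √N := Real.sqrt_pos.2 hN0
  set P : ℝ := (Real.exp (1 / 4) / √N) ^ q * 2 ^ q with hP
  have hP0 : 0 ≤ P := by positivity
  have hpt : ∀ t, z t ^ q ≤ P * (g t ^ q + 1) := by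
    intro t
    have h1 : z t ≤ Real.exp (1 / 4) / √N * (g t + N₁ / T) :=
      SUML_split hN0 (t - Real.pi / 8) M le_rfl hsum htail
    have h2 : z t ≤ Real.exp (1 / 4) / √N * (g t + 1) := by
      refine h1.trans ?_
      gcongr
    calc z t ^ q ≤ (Real.exp (1 / 4) / √N * (g t + 1)) ^ q :=
          Real.rpow_le_rpow (hz0 t) h2 hq0.le
      _ = (Real.exp (1 / 4) / √N) ^ q * (g t + 1) ^ q :=
        Real.mul_rpow (by positivity) (by have := hg0 t; linarith)
      _ ≤ (Real.exp (1 / 4) / √N) ^ q * (2 ^ q * (g t ^ q + 1 ^ q)) := by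
        gcongr
        exact MZ_two hq (hg0 t) zero_le_one
      _ = _ := by
        rw [Real.one_rpow, hP]
        ring
  have i1 : IntervalIntegrable (fun t => g t ^ q) volume T (2 * T) :=
    hgqc.intervalIntegrable _ _
  have i2 : IntervalIntegrable (fun _ : ℝ => (1 : ℝ)) volume T (2 * T) :=
    continuous_const.intervalIntegrable _ _
  have hz1 : ∫ t in T..(2 * T), z t ^ q ≤ P * ((∫ t in T..(2 * T), g t ^ q) + T) := by
    have h1 : ∫ t in T..(2 * T), z t ^ q ≤ ∫ t in T..(2 * T), P * (g t ^ q + 1) :=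
      intervalIntegral.integral_mono_on hTT (hzqc.intervalIntegrable _ _)
        ((i1.add i2).const_mul P) fun t _ => hpt t
    rw [intervalIntegral.integral_const_mul, intervalIntegral.integral_add i1 i2,
      intervalIntegral.integral_const, smul_eq_mul] at h1
    have h2 : (2 * T - T) * 1 = T := by ring
    rwa [h2] at h1
  have hsq : √N ^ q = N ^ (q / 2) := by
    rw [Real.sqrt_eq_rpow, ← Real.rpow_mul hN0.le]
    congr 1
    ring
  have hPe : P = D / N ^ (q / 2) := by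
    rw [hP, Real.div_rpow (Real.exp_pos _).le hsN.le, hsq, hD]
    ring
  have hNq : 1 ≤ N ^ (q / 2) := Real.one_le_rpow hN1 (by positivity)
  have hPD : P ≤ D := by
    rw [hPe]
    exact div_le_self hD0 hNq
  have hMq : (M : ℝ) ^ (q / 2) ≤ N ^ (q / 2) * T ^ (d * (q / 2)) := by
    calc (M : ℝ) ^ (q / 2) ≤ (N * T ^ d) ^ (q / 2) :=
          Real.rpow_le_rpow (by positivity) hM3 (by positivity)
      _ = _ := by
        rw [Real.mul_rpow hN0.le (by positivity), ← Real.rpow_mul hTpos.le]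
  have hexp : T ^ (d * (q / 2)) * T ^ (1 + q * a + q * ε / 2) ≤ T ^ s := by
    rw [← Real.rpow_add hTpos]
    apply Real.rpow_le_rpow_of_exponent_le hT1
    rw [hs]
    have : d * (q / 2) ≤ ε / 2 * (q / 2) := by gcongr
    nlinarith [mul_pos hq0 hε]
  calc ∫ t in T..(2 * T), z t ^ q ≤ P * ((∫ t in T..(2 * T), g t ^ q) + T) := hz1
    _ ≤ P * (2 * Real.pi * (4 * |C₀| * ((M : ℝ) ^ (q / 2) * T ^ (1 + q * a + q * ε / 2))) + T) := by
      gcongr
    _ ≤ P * (2 * Real.pi * (4 * |C₀| * (N ^ (q / 2) * T ^ (d * (q / 2)) *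
          T ^ (1 + q * a + q * ε / 2))) + T) := by gcongr
    _ = D * (8 * Real.pi * |C₀|) * (T ^ (d * (q / 2)) * T ^ (1 + q * a + q * ε / 2)) + P * T := by
      rw [hPe]
      field_simp
      ring
    _ ≤ D * (8 * Real.pi * |C₀|) * T ^ s + D * T ^ s := by gcongr
    _ = D * (8 * Real.pi * |C₀| + 1) * T ^ s := by ring
    _ ≤ _ := by
      have : 0 ≤ T ^ s := by positivity
      nlinarith

/-- Jensen and Fubini -/
private theorem MZ_abs {q C₁ Λ L T K : ℝ} {f : ℝ → ℝ} {Z : ℝ → ℝ → ℝ} (hq : 1 ≤ q)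
    (hC₁ : 0 ≤ C₁) (hL0 : 0 < L) (hΛ0 : 0 < Λ) (hT0 : 0 < T) (hfc : Continuous f)
    (hf0 : ∀ t, 0 ≤ f t) (hZ0 : ∀ t v, 0 ≤ Z t v)
    (hZc : Continuous fun p : ℝ × ℝ => Z p.1 p.2)
    (h : ∀ t, T ≤ t → t ≤ 2 * T → f t ≤ C₁ * (Λ + ∫ v in (0 : ℝ)..L, Z t v))
    (hK : ∀ v, 0 ≤ v → v ≤ L → ∫ t in T..(2 * T), Z t v ^ q ≤ K) :
    ∫ t in T..(2 * T), f t ^ q ≤ C₁ ^ q * 2 ^ q * (T * Λ ^ q + L ^ q * K) := by
  have hq0 : 0 < q := by linarith
  have hTT : T ≤ 2 * T := by linarith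
  have hfqc : Continuous fun t => f t ^ q := hfc.rpow_const fun t => Or.inr hq0.le
  have hZqc : Continuous fun p : ℝ × ℝ => Z p.1 p.2 ^ q :=
    hZc.rpow_const fun t => Or.inr hq0.le
  have hZv : ∀ t, Continuous (Z t) := fun t =>
    hZc.comp (by fun_prop : Continuous fun v : ℝ => ((t, v) : ℝ × ℝ))
  have hpt : ∀ t, T ≤ t → t ≤ 2 * T →
      f t ^ q ≤ C₁ ^ q * 2 ^ q * (Λ ^ q + L ^ (q - 1) * ∫ v in (0 : ℝ)..L, Z t v ^ q) := by
    intro t ht1 ht2
    have h5 : 0 ≤ ∫ v in (0 : ℝ)..L, Z t v :=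
      intervalIntegral.integral_nonneg hL0.le fun v _ => hZ0 t v
    have h6 := h t ht1 ht2
    have h7 := MZ_jensen hq hL0 (hZv t) (hZ0 t)
    have h8 := MZ_two hq hΛ0.le h5
    have h9 : 0 ≤ C₁ ^ q := by positivity
    have h10 : (0 : ℝ) ≤ 2 ^ q := by positivity
    calc f t ^ q ≤ (C₁ * (Λ + ∫ v in (0 : ℝ)..L, Z t v)) ^ q :=
          Real.rpow_le_rpow (hf0 t) h6 hq0.le
      _ = C₁ ^ q * (Λ + ∫ v in (0 : ℝ)..L, Z t v) ^ q :=
        Real.mul_rpow hC₁ (by linarith)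
      _ ≤ C₁ ^ q * (2 ^ q * (Λ ^ q + (∫ v in (0 : ℝ)..L, Z t v) ^ q)) :=
        mul_le_mul_of_nonneg_left h8 h9
      _ ≤ C₁ ^ q * (2 ^ q * (Λ ^ q + L ^ (q - 1) * ∫ v in (0 : ℝ)..L, Z t v ^ q)) :=
        mul_le_mul_of_nonneg_left
          (mul_le_mul_of_nonneg_left (add_le_add_right h7 _) h10) h9
      _ = _ := by ring
  have hWc : Continuous fun t : ℝ => ∫ v in (0 : ℝ)..L, Z t v ^ q :=
    intervalIntegral.continuous_parametric_intervalIntegral_of_continuous' hZqc 0 L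
  have i1 : IntervalIntegrable (fun _ : ℝ => Λ ^ q) volume T (2 * T) :=
    continuous_const.intervalIntegrable _ _
  have i2 : IntervalIntegrable (fun t : ℝ => L ^ (q - 1) * ∫ v in (0 : ℝ)..L, Z t v ^ q)
      volume T (2 * T) := (continuous_const.mul hWc).intervalIntegrable _ _
  have h1 : ∫ t in T..(2 * T), f t ^ q ≤ ∫ t in T..(2 * T),
      C₁ ^ q * 2 ^ q * (Λ ^ q + L ^ (q - 1) * ∫ v in (0 : ℝ)..L, Z t v ^ q) :=
    intervalIntegral.integral_mono_on hTT (hfqc.intervalIntegrable _ _)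
      ((i1.add i2).const_mul _) fun t ht => hpt t ht.1 ht.2
  rw [intervalIntegral.integral_const_mul, intervalIntegral.integral_add i1 i2,
    intervalIntegral.integral_const, intervalIntegral.integral_const_mul, smul_eq_mul] at h1
  have hswap : ∫ t in T..(2 * T), ∫ v in (0 : ℝ)..L, Z t v ^ q =
      ∫ v in (0 : ℝ)..L, ∫ t in T..(2 * T), Z t v ^ q := by
    refine intervalIntegral_intervalIntegral_swap (F := fun t v => Z t v ^ q) ?_
    have h2 : IsCompact (uIcc T (2 * T) ×ˢ uIcc (0 : ℝ) L) := isCompact_uIcc.prod isCompact_uIcc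
    refine (ContinuousOn.integrableOn_compact h2 hZqc.continuousOn).mono_set ?_
    exact prod_mono uIoc_subset_uIcc uIoc_subset_uIcc
  have hin : ∫ v in (0 : ℝ)..L, ∫ t in T..(2 * T), Z t v ^ q ≤ L * K := by
    have hVc : Continuous fun v : ℝ => ∫ t in T..(2 * T), Z t v ^ q :=
      intervalIntegral.continuous_parametric_intervalIntegral_of_continuous'
        (f := fun v t => Z t v ^ q)
        (hZqc.comp (by fun_prop : Continuous fun p : ℝ × ℝ => ((p.2, p.1) : ℝ × ℝ))) T (2 * T)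
    have h2 : ∫ v in (0 : ℝ)..L, ∫ t in T..(2 * T), Z t v ^ q ≤ ∫ v in (0 : ℝ)..L, K :=
      intervalIntegral.integral_mono_on hL0.le (hVc.intervalIntegrable _ _)
        (continuous_const.intervalIntegrable _ _) fun v hv => hK v hv.1 hv.2
    rw [intervalIntegral.integral_const, smul_eq_mul, sub_zero] at h2
    exact h2
  have hLq : L ^ q = L ^ (q - 1) * L := by
    rw [Real.rpow_sub hL0, Real.rpow_one]
    field_simp
  refine h1.trans ?_
  apply mul_le_mul_of_nonneg_left _ (by positivity)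
  rw [hLq, hswap, mul_assoc]
  have h3 : 2 * T - T = T := by ring
  rw [h3]
  exact add_le_add_right (mul_le_mul_of_nonneg_left hin (by positivity)) _

/-- the exponents -/
private theorem MZ_num {q ε a T C₁ C₂ Λ L A : ℝ} (hq0 : 0 < q) (ha : 0 ≤ a) (hε : 0 < ε)
    (hC₁ : 0 ≤ C₁) (hC₂ : 0 ≤ C₂) (hL0 : 0 < L) (hA0 : 0 ≤ A) (hLΛ : L ≤ Λ) (hT1 : 1 ≤ T)
    (hΛA : Λ ≤ A * T ^ (ε / 4)) :
    C₁ ^ q * 2 ^ q * (T * Λ ^ q + L ^ q * (C₂ * T ^ (1 + q * (a + ε / 4)))) ≤
      C₁ ^ q * 2 ^ q * (1 + C₂) * A ^ q * T ^ (1 + q * (a + ε)) := by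
  have hT0 : 0 < T := by linarith
  have hΛ0 : 0 < Λ := hL0.trans_le hLΛ
  have hTe : T ≤ T ^ (1 + q * (a + ε / 4)) := by
    calc T = T ^ (1 : ℝ) := (Real.rpow_one T).symm
      _ ≤ _ := Real.rpow_le_rpow_of_exponent_le hT1 (by
          have : 0 ≤ q * (a + ε / 4) := by positivity
          linarith)
  have hLΛq : L ^ q ≤ Λ ^ q := Real.rpow_le_rpow hL0.le hLΛ hq0.le
  have hΛq : Λ ^ q ≤ A ^ q * T ^ (q * ε / 4) := by
    calc Λ ^ q ≤ (A * T ^ (ε / 4)) ^ q := Real.rpow_le_rpow hΛ0.le hΛA hq0.le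
      _ = A ^ q * T ^ (q * ε / 4) := by
        rw [Real.mul_rpow hA0 (by positivity), ← Real.rpow_mul hT0.le]
        congr 2
        ring
  have hexp : T ^ (q * ε / 4) * T ^ (1 + q * (a + ε / 4)) ≤ T ^ (1 + q * (a + ε)) := by
    rw [← Real.rpow_add hT0]
    apply Real.rpow_le_rpow_of_exponent_le hT1
    nlinarith [mul_pos hq0 hε]
  set X : ℝ := T ^ (1 + q * (a + ε / 4)) with hX
  have hX0 : 0 < X := by positivity
  calc C₁ ^ q * 2 ^ q * (T * Λ ^ q + L ^ q * (C₂ * X))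
    _ ≤ C₁ ^ q * 2 ^ q * (X * Λ ^ q + Λ ^ q * (C₂ * X)) := by gcongr
    _ = C₁ ^ q * 2 ^ q * (1 + C₂) * (Λ ^ q * X) := by ring
    _ ≤ C₁ ^ q * 2 ^ q * (1 + C₂) * (A ^ q * T ^ (q * ε / 4) * X) := by gcongr
    _ = C₁ ^ q * 2 ^ q * (1 + C₂) * A ^ q * (T ^ (q * ε / 4) * X) := by ring
    _ ≤ _ := by gcongr

/-- the moments of zeta from the moments of the Gaussian sums -/
theorem p_MZ : T_TAIL → M_PT → M_Z := by
  intro hT hP q a κ β hq ha hκ hβ hβ1 hG ε hε
  have hq0 : 0 < q := by linarith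
  obtain ⟨C₁, T₁, hC₁, hT₁, hζ⟩ := hP
  obtain ⟨C₂, T₂, hC₂, hZ⟩ := MZ_fix hT hq ha hκ hβ hβ1 hG (ε := ε / 4) (by positivity)
  have hfc : Continuous fun t : ℝ => ‖riemannZeta (1 / 2 + t * I)‖ := MZ_zeta_cont
  have hfqc : Continuous fun t : ℝ => ‖riemannZeta (1 / 2 + t * I)‖ ^ q :=
    hfc.rpow_const fun t => Or.inr hq0.le
  have hs0 : 0 ≤ 1 + q * (a + ε) := by positivity
  obtain ⟨B, hB⟩ := (isCompact_Icc (a := (1 : ℝ))
    (b := 2 * max T₁ T₂)).exists_bound_of_continuousOn hfqc.continuousOn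
  have hT₃2 : 2 ≤ max T₁ T₂ := hT₁.trans (le_max_left _ _)
  have hA0 : 0 ≤ 1 + (2 : ℝ) ^ (ε / 4) / (ε / 4) := by positivity
  have hK0 : 0 ≤ C₁ ^ q * 2 ^ q * (1 + C₂) * (1 + (2 : ℝ) ^ (ε / 4) / (ε / 4)) ^ q := by
    positivity
  refine ⟨|B| * max T₁ T₂ +
    C₁ ^ q * 2 ^ q * (1 + C₂) * (1 + (2 : ℝ) ^ (ε / 4) / (ε / 4)) ^ q, fun T hT1 => ?_⟩
  have hT0 : 0 < T := by linarith
  have hTT : T ≤ 2 * T := by linarith
  have hTs : 1 ≤ T ^ (1 + q * (a + ε)) := Real.one_le_rpow hT1 hs0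
  have hX : 0 ≤ |B| * max T₁ T₂ := mul_nonneg (abs_nonneg _) (by linarith)
  rcases le_total T (max T₁ T₂) with hTT₃ | hTT₃
  · have h1 : ∫ t in T..(2 * T), ‖riemannZeta (1 / 2 + t * I)‖ ^ q ≤ ∫ t in T..(2 * T), |B| :=
      intervalIntegral.integral_mono_on hTT (hfqc.intervalIntegrable _ _)
        (continuous_const.intervalIntegrable _ _) fun t ht => by
          have h2 := hB t ⟨hT1.trans ht.1, ht.2.trans (by linarith)⟩
          rw [Real.norm_of_nonneg (Real.rpow_nonneg (norm_nonneg _) q)] at h2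
          exact h2.trans (le_abs_self _)
    rw [intervalIntegral.integral_const, smul_eq_mul] at h1
    have h2 : (2 * T - T) * |B| ≤ |B| * max T₁ T₂ := by
      rw [show (2 * T - T) * |B| = |B| * T by ring]
      exact mul_le_mul_of_nonneg_left hTT₃ (abs_nonneg _)
    exact (h1.trans (h2.trans (le_add_of_nonneg_right hK0))).trans
      (le_mul_of_one_le_right (add_nonneg hX hK0) hTs)
  · have hTa : T₁ ≤ T := (le_max_left _ _).trans hTT₃
    have hTb : T₂ ≤ T := (le_max_right _ _).trans hTT₃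
    have hlog : 0 < Real.log (2 * T) := Real.log_pos (by linarith)
    have hL0 : 0 < Real.log (2 * T) / 2 := by linarith
    have hLΛ : Real.log (2 * T) / 2 ≤ 1 + Real.log (2 * T) := by linarith
    have hΛ0 : 0 < 1 + Real.log (2 * T) := by linarith
    have hε4 : 0 < ε / 4 := by linarith
    have hΛA := MZ_log hε4 hT1
    have hZc : Continuous fun p : ℝ × ℝ =>
        ‖Pool.Agent.DBN.zsum (Real.exp p.2) (p.1 - Real.pi / 8)‖ := by
      have h1 : Continuous fun p : ℝ × ℝ => ((p.2, p.1 - Real.pi / 8) : ℝ × ℝ) := by fun_prop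
      exact (MZ_cont.comp h1).norm
    have hpt : ∀ t, T ≤ t → t ≤ 2 * T → ‖riemannZeta (1 / 2 + t * I)‖ ≤
        C₁ * (1 + Real.log (2 * T) + ∫ v in (0 : ℝ)..(Real.log (2 * T) / 2),
          ‖Pool.Agent.DBN.zsum (Real.exp v) (t - Real.pi / 8)‖) := by
      intro t ht1 ht2
      have ht0 : 0 < t := by linarith
      have h1 := hζ t (hTa.trans ht1)
      have h2 : Real.log t ≤ Real.log (2 * T) := Real.log_le_log ht0 ht2
      have h3 : 0 ≤ Real.log t := Real.log_nonneg (by linarith)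
      have hZv : Continuous fun v : ℝ =>
          ‖Pool.Agent.DBN.zsum (Real.exp v) (t - Real.pi / 8)‖ := by
        have h5 : Continuous fun v : ℝ => ((v, t - Real.pi / 8) : ℝ × ℝ) := by fun_prop
        exact (MZ_cont.comp h5).norm
      have h4 : ∫ v in (0 : ℝ)..(Real.log t / 2),
          ‖Pool.Agent.DBN.zsum (Real.exp v) (t - Real.pi / 8)‖ ≤
          ∫ v in (0 : ℝ)..(Real.log (2 * T) / 2),
            ‖Pool.Agent.DBN.zsum (Real.exp v) (t - Real.pi / 8)‖ :=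
        intervalIntegral.integral_mono_interval le_rfl (by linarith) (by linarith)
          (Filter.Eventually.of_forall fun v => norm_nonneg _)
          (hZv.intervalIntegrable _ _)
      refine h1.trans (mul_le_mul_of_nonneg_left ?_ hC₁)
      linarith
    have hmain := MZ_abs (Z := fun t v =>
      ‖Pool.Agent.DBN.zsum (Real.exp v) (t - Real.pi / 8)‖) hq hC₁ hL0 hΛ0 hT0 hfc
      (fun t => norm_nonneg _) (fun t v => norm_nonneg _) hZc hpt
      (fun v h1 h2 => hZ T hTb v h1 h2)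
    refine hmain.trans ((MZ_num hq0 ha hε hC₁ hC₂ hL0 hA0 hLΛ hT1 hΛA).trans ?_)
    exact mul_le_mul_of_nonneg_right (le_add_of_nonneg_left hX) (by linarith)

end Pool.Agent.Ben
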