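import Pool.Agent.Ben.Targets9

/-!
# Ben, moments, target `M_ZF`: the fourth moment of zeta
-/

set_option autoImplicit false

namespace Pool.Agent.Ben

open Complex MeasureTheory Set

theorem p_MZF : M_Z → M_GF → M_ZF := by
  intro hZ hG ε hε
  set ε' : ℝ := min (ε / 2) (1 / 8) with hε'
  have h0 : 0 < ε' := lt_min (by linarith) (by norm_num)
  have h1 : ε' ≤ ε / 2 := min_le_left _ _
  have h2 : ε' ≤ 1 / 8 := min_le_right _ _
  have h3 := hG (1 / 2 + 2 * ε') (by linarith) (by linarith)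
  have h4 : max 0 ((2 * (1 / 2 + 2 * ε') - 1) / 4) = ε' := by
    have : (2 * (1 / 2 + 2 * ε') - 1) / 4 = ε' := by ring
    rw [this]
    exact max_eq_right h0.le
  rw [h4] at h3
  obtain ⟨C, hC⟩ := hZ 4 ε' 1 (1 / 2 + 2 * ε') (by norm_num) h0.le one_pos (by linarith)
    (by linarith) h3 (ε / 2) (by linarith)
  refine ⟨|C|, fun T hT => (hC T hT).trans ?_⟩
  have hT0 : 0 < T := by linarith
  calc C * T ^ (1 + 4 * (ε' + ε / 2)) ≤ |C| * T ^ (1 + 4 * (ε' + ε / 2)) :=
        mul_le_mul_of_nonneg_right (le_abs_self _) (by positivity)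
    _ ≤ |C| * T ^ (1 + 4 * (0 + ε)) := by
        apply mul_le_mul_of_nonneg_left _ (abs_nonneg _)
        exact Real.rpow_le_rpow_of_exponent_le hT (by linarith)

end Pool.Agent.Ben
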