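import Pool.Agent.Ben.Targets12
import Pool.Agent.Ben.P_LFWD

set_option autoImplicit false

/-!
# Exponential sums give the product bound on the closed unit disc (block NFWD)
-/

namespace Pool.Agent.Ben

open Complex MeasureTheory Set

/-- comparison of the factor with the one at the point `r z` -/
lemma NFWD_fac {r : ℝ} (hr0 : 0 ≤ r) (hr1 : r ≤ 1) {z : ℂ} (hz : ‖z‖ ≤ 1) :
    (1 + r) * ‖1 - z‖ ≤ 2 * ‖1 - r * z‖ := by
  have h1 : z.re ^ 2 + z.im ^ 2 ≤ 1 := by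
    have h2 : ‖z‖ ^ 2 = z.re ^ 2 + z.im ^ 2 := by
      rw [Complex.sq_norm, Complex.normSq_apply]
      ring
    rw [← h2]
    exact pow_le_one₀ (norm_nonneg _) hz
  have e1 : ‖1 - z‖ ^ 2 = (1 - z.re) ^ 2 + z.im ^ 2 := by
    rw [Complex.sq_norm, Complex.normSq_apply]
    simp only [Complex.sub_re, Complex.sub_im, Complex.one_re, Complex.one_im]
    ring
  have e2 : ‖1 - r * z‖ ^ 2 = (1 - r * z.re) ^ 2 + (r * z.im) ^ 2 := by
    rw [Complex.sq_norm, Complex.normSq_apply]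
    simp only [Complex.sub_re, Complex.sub_im, Complex.one_re, Complex.one_im, Complex.mul_re,
      Complex.mul_im, Complex.ofReal_re, Complex.ofReal_im]
    ring
  refine le_of_sq_le_sq ?_ (by positivity)
  rw [mul_pow, mul_pow, e1, e2]
  have h3 : 0 ≤ (1 - r) ^ 2 * ((1 + z.re) ^ 2 + z.im ^ 2) := by positivity
  have h4 : 0 ≤ 2 * (1 - r ^ 2) * (1 - (z.re ^ 2 + z.im ^ 2)) := by
    have : r ^ 2 ≤ 1 := pow_le_one₀ hr0 hr1
    exact mul_nonneg (mul_nonneg (by norm_num) (by linarith)) (by linarith)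
  nlinarith

/-- the power sums at the point `z` -/
lemma NFWD_sum {z : ℂ} (hz : ‖z‖ ≤ 1) (N h : ℕ) (x : ℝ) (hN : 1 ≤ N) :
    ‖∑ n ∈ Finset.Icc 2 N, (z * (n : ℂ) ^ (x * I : ℂ)) ^ h‖ ≤
      1 + ‖∑ n ∈ Finset.Icc 1 N, (n : ℂ) ^ (-((h * x : ℝ) * I) : ℂ)‖ := by
  have e : ∑ n ∈ Finset.Icc 2 N, (z * (n : ℂ) ^ (x * I : ℂ)) ^ h =
      z ^ h * ∑ n ∈ Finset.Icc 2 N, ((n : ℂ) ^ (x * I : ℂ)) ^ h := by
    rw [Finset.mul_sum]
    exact Finset.sum_congr rfl fun n _ => mul_pow _ _ _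
  rw [e, norm_mul, norm_pow]
  refine le_trans ?_ (LFWD_sum N h x hN)
  exact mul_le_of_le_one_left (norm_nonneg _) (pow_le_one₀ (norm_nonneg _) hz)

theorem p_NFWD : N_FWD := by
  intro s hs hs1 hEP ε hε
  set η : ℝ := min (ε / 3) (1 / 2) with hη
  have hη0 : 0 < η := by positivity
  have hη1 : η ≤ 1 / 2 := min_le_right _ _
  have hηε : 3 * η ≤ ε := by
    have := min_le_left (ε / 3) (1 / 2)
    linarith
  obtain ⟨C, hC⟩ := hEP η hη0 1 one_pos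
  have hsum : Summable (fun h : ℕ => (h : ℝ) ^ (-(1 + η))) :=
    Real.summable_nat_rpow.2 (by linarith)
  set Z : ℝ := ∑' h : ℕ, (h : ℝ) ^ (-(1 + η)) with hZ
  have hZ0 : 0 ≤ Z := tsum_nonneg fun h => by positivity
  refine ⟨1 + (1 + |C|) * Z, ?_⟩
  intro w hw x hx N hN hNx
  have hx0 : 0 < x := by linarith
  have hN0 : (0 : ℝ) < N := by exact_mod_cast hN
  have hN1 : (1 : ℝ) ≤ N := by exact_mod_cast hN
  have hNs : 1 ≤ (N : ℝ) ^ s := Real.one_le_rpow hN1 (by linarith)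
  have hC0 : 0 ≤ 1 + (1 + |C|) * Z := by positivity
  rcases Nat.lt_or_ge N 2 with hN2 | hN2
  · have : N = 1 := by omega
    subst this
    simp only [Finset.Icc_eq_empty (by norm_num : ¬ (2 ≤ 1)), Finset.prod_empty]
    exact Real.one_le_exp (by positivity)
  -- the radius
  have hN2' : (1 : ℝ) < N := by exact_mod_cast (by omega : 1 < N)
  set d : ℝ := (N : ℝ) ^ (s - 1) with hd
  have hd0 : 0 < d := Real.rpow_pos_of_pos hN0 _
  have hd1 : d < 1 := Real.rpow_lt_one_of_one_lt_of_neg hN2' (by linarith)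
  set r : ℝ := 1 - d with hr
  have hr0 : 0 < r := by linarith
  have hr1 : r < 1 := by linarith
  have hNd : N * d = (N : ℝ) ^ s := by
    rw [hd]
    nth_rewrite 1 [← Real.rpow_one (N : ℝ)]
    rw [← Real.rpow_add hN0]
    congr 1
    ring
  have hz : ∀ n ∈ Finset.Icc 2 N, ‖w * (n : ℂ) ^ (x * I : ℂ)‖ ≤ 1 := by
    intro n hn
    have hn1 : 2 ≤ n := (Finset.mem_Icc.1 hn).1
    rw [norm_mul, Complex.norm_natCast_cpow_of_pos (by omega)]
    simpa using hw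
  have hrz : ∀ n ∈ Finset.Icc 2 N, ‖(r : ℂ) * (w * (n : ℂ) ^ (x * I : ℂ))‖ < 1 := by
    intro n hn
    rw [norm_mul, Complex.norm_real, Real.norm_eq_abs, abs_of_pos hr0]
    exact (mul_le_of_le_one_right hr0.le (hz n hn)).trans_lt hr1
  have hne : ∀ n ∈ Finset.Icc 2 N, 1 - (r : ℂ) * (w * (n : ℂ) ^ (x * I : ℂ)) ≠ 0 := by
    intro n hn h
    have h1 := hrz n hn
    rw [sub_eq_zero] at h
    rw [← h, norm_one] at h1
    exact lt_irrefl _ h1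
  -- one factor
  have hfac : ∀ n ∈ Finset.Icc 2 N, ‖1 - w * (n : ℂ) ^ (x * I : ℂ)‖ ≤
      Real.exp (d + Real.log ‖1 - (r : ℂ) * (w * (n : ℂ) ^ (x * I : ℂ))‖) := by
    intro n hn
    rw [Real.exp_add, Real.exp_log (norm_pos_iff.2 (hne n hn))]
    have h1 := NFWD_fac hr0.le hr1.le (hz n hn)
    have h2 : 2 ≤ (1 + r) * Real.exp d := by
      have h3 := Real.add_one_le_exp d
      nlinarith
    have h4 : 0 ≤ ‖1 - (r : ℂ) * (w * (n : ℂ) ^ (x * I : ℂ))‖ := norm_nonneg _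
    have h5 : (1 + r) * ‖1 - w * (n : ℂ) ^ (x * I : ℂ)‖ ≤
        (1 + r) * (Real.exp d * ‖1 - (r : ℂ) * (w * (n : ℂ) ^ (x * I : ℂ))‖) := by
      refine h1.trans ?_
      rw [← mul_assoc (1 + r)]
      exact mul_le_mul_of_nonneg_right h2 h4
    exact le_of_mul_le_mul_left h5 (by linarith)
  have hprod : ∏ n ∈ Finset.Icc 2 N, ‖1 - w * (n : ℂ) ^ (x * I : ℂ)‖ ≤
      Real.exp (∑ n ∈ Finset.Icc 2 N,
        (d + Real.log ‖1 - (r : ℂ) * (w * (n : ℂ) ^ (x * I : ℂ))‖)) := by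
    rw [Real.exp_sum]
    exact Finset.prod_le_prod (fun n _ => norm_nonneg _) hfac
  refine hprod.trans (Real.exp_le_exp.2 ?_)
  rw [Finset.sum_add_distrib, Finset.sum_const, Nat.card_Icc, nsmul_eq_mul]
  -- the power series
  have hser : HasSum (fun h : ℕ => ∑ n ∈ Finset.Icc 2 N,
      ((r : ℂ) * (w * (n : ℂ) ^ (x * I : ℂ))) ^ h / h)
      (∑ n ∈ Finset.Icc 2 N, -Complex.log (1 - (r : ℂ) * (w * (n : ℂ) ^ (x * I : ℂ)))) :=
    hasSum_sum fun n hn => Complex.hasSum_taylorSeries_neg_log (hrz n hn)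
  have hbd : ∀ h : ℕ, ‖∑ n ∈ Finset.Icc 2 N,
      ((r : ℂ) * (w * (n : ℂ) ^ (x * I : ℂ))) ^ h / h‖ ≤
      ((1 + |C|) * (N : ℝ) ^ s * x ^ ε) * (h : ℝ) ^ (-(1 + η)) := by
    intro h
    rcases Nat.eq_zero_or_pos h with h0 | h0
    · subst h0
      simp only [pow_zero, Nat.cast_zero, div_zero, Finset.sum_const_zero, norm_zero]
      positivity
    have hh0 : (0 : ℝ) < h := by exact_mod_cast h0
    have hh1 : (1 : ℝ) ≤ h := by exact_mod_cast h0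
    have e1 : ∑ n ∈ Finset.Icc 2 N, ((r : ℂ) * (w * (n : ℂ) ^ (x * I : ℂ))) ^ h / h =
        ((r ^ h / h : ℝ) : ℂ) * ∑ n ∈ Finset.Icc 2 N, (w * (n : ℂ) ^ (x * I : ℂ)) ^ h := by
      rw [Finset.mul_sum]
      refine Finset.sum_congr rfl fun n _ => ?_
      push_cast
      ring
    rw [e1, norm_mul, Complex.norm_real, Real.norm_eq_abs, abs_of_nonneg (by positivity)]
    have hT : x ≤ h * x := le_mul_of_one_le_left hx0.le hh1
    have h2 := hC (h * x) (hx.trans hT) N hN (by rw [one_mul]; exact hNx.trans hT)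
    rw [zero_add] at h2
    have h3 : 1 ≤ ((h : ℝ) * x) ^ η := Real.one_le_rpow (hx.trans hT) hη0.le
    have h4 : ‖∑ n ∈ Finset.Icc 2 N, (w * (n : ℂ) ^ (x * I : ℂ)) ^ h‖ ≤
        (1 + |C|) * (N : ℝ) ^ s * ((h : ℝ) ^ η * x ^ η) := by
      refine (NFWD_sum hw N h x hN).trans ?_
      rw [← Real.mul_rpow hh0.le hx0.le]
      have h5 : C * (N : ℝ) ^ s * ((h : ℝ) * x) ^ η ≤ |C| * (N : ℝ) ^ s * ((h : ℝ) * x) ^ η := by
        gcongr
        exact le_abs_self C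
      have h6 : 1 ≤ (N : ℝ) ^ s * ((h : ℝ) * x) ^ η := one_le_mul_of_one_le_of_one_le hNs h3
      nlinarith
    have h7 := LFWD_pow hr0 hr1 hη0 hη1 h h0
    have h8 : (1 - r) ^ (-(2 * η)) ≤ x ^ (2 * η) := by
      have e2 : 1 - r = d := by rw [hr]; ring
      rw [e2, hd, ← Real.rpow_mul hN0.le]
      calc (N : ℝ) ^ ((s - 1) * -(2 * η)) ≤ (N : ℝ) ^ (2 * η) :=
            Real.rpow_le_rpow_of_exponent_le hN1 (by nlinarith)
        _ ≤ x ^ (2 * η) := Real.rpow_le_rpow hN0.le hNx (by linarith)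
    have h9 : x ^ (2 * η) * x ^ η ≤ x ^ ε := by
      rw [← Real.rpow_add hx0]
      exact Real.rpow_le_rpow_of_exponent_le hx (by linarith)
    calc r ^ h / h * ‖∑ n ∈ Finset.Icc 2 N, (w * (n : ℂ) ^ (x * I : ℂ)) ^ h‖
        ≤ r ^ h / h * ((1 + |C|) * (N : ℝ) ^ s * ((h : ℝ) ^ η * x ^ η)) := by
          gcongr
      _ = (1 + |C|) * (N : ℝ) ^ s * x ^ η * (r ^ h * (h : ℝ) ^ (η - 1)) := by
          rw [Real.rpow_sub_one hh0.ne']
          ring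
      _ ≤ (1 + |C|) * (N : ℝ) ^ s * x ^ η *
          ((1 - r) ^ (-(2 * η)) * (h : ℝ) ^ (-(1 + η))) := by
          gcongr
      _ ≤ (1 + |C|) * (N : ℝ) ^ s * x ^ η *
          (x ^ (2 * η) * (h : ℝ) ^ (-(1 + η))) := by
          gcongr
      _ = (1 + |C|) * (N : ℝ) ^ s * (x ^ (2 * η) * x ^ η) * (h : ℝ) ^ (-(1 + η)) := by ring
      _ ≤ (1 + |C|) * (N : ℝ) ^ s * x ^ ε * (h : ℝ) ^ (-(1 + η)) := by
          gcongr
  have hnorm := hser.norm_le_of_bounded (hsum.hasSum.mul_left _) hbd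
  have hlog : ∑ n ∈ Finset.Icc 2 N, Real.log ‖1 - (r : ℂ) * (w * (n : ℂ) ^ (x * I : ℂ))‖ ≤
      (1 + |C|) * (N : ℝ) ^ s * x ^ ε * Z := by
    refine le_trans ?_ hnorm
    have e3 : ∑ n ∈ Finset.Icc 2 N, Real.log ‖1 - (r : ℂ) * (w * (n : ℂ) ^ (x * I : ℂ))‖ =
        -(∑ n ∈ Finset.Icc 2 N, -Complex.log (1 - (r : ℂ) * (w * (n : ℂ) ^ (x * I : ℂ)))).re := by
      rw [Complex.re_sum, ← Finset.sum_neg_distrib]
      refine Finset.sum_congr rfl fun n _ => ?_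
      rw [Complex.neg_re, Complex.log_re, neg_neg]
    rw [e3]
    exact (neg_le_abs _).trans (Complex.abs_re_le_norm _)
  have hcard : ((N + 1 - 2 : ℕ) : ℝ) * d ≤ (N : ℝ) ^ s * x ^ ε := by
    have h1 : ((N + 1 - 2 : ℕ) : ℝ) ≤ N := by
      exact_mod_cast (by omega : N + 1 - 2 ≤ N)
    have h2 : 1 ≤ x ^ ε := Real.one_le_rpow hx hε.le
    calc ((N + 1 - 2 : ℕ) : ℝ) * d ≤ N * d := by gcongr
      _ = (N : ℝ) ^ s := hNd
      _ ≤ (N : ℝ) ^ s * x ^ ε := le_mul_of_one_le_right (by positivity) h2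
  calc ((N + 1 - 2 : ℕ) : ℝ) * d +
      ∑ n ∈ Finset.Icc 2 N, Real.log ‖1 - (r : ℂ) * (w * (n : ℂ) ^ (x * I : ℂ))‖
      ≤ (N : ℝ) ^ s * x ^ ε + (1 + |C|) * (N : ℝ) ^ s * x ^ ε * Z := add_le_add hcard hlog
    _ = _ := by ring

end Pool.Agent.Ben
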