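import Pool.Agent.Ben.Targets12

/-!
# Ben, target NONE: the logarithm of the product at the point `z`
-/

set_option autoImplicit false

namespace Pool.Agent.Ben

open Complex MeasureTheory Set

private theorem NONE_e (n : ℕ) (hn : 1 ≤ n) (t : ℝ) :
    ((n : ℂ) ^ (((2 * Real.pi * t : ℝ) : ℂ) * I)) = e (t * Real.log n) := by
  have hn0 : (n : ℂ) ≠ 0 := by exact_mod_cast (by omega : n ≠ 0)
  rw [Complex.cpow_def_of_ne_zero hn0, e, ← Complex.natCast_log]
  congr 1
  push_cast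
  ring

private theorem NONE_cnt (z : ℂ) : {y : ℝ | z * e y = 1}.Countable := by
  rcases Set.eq_empty_or_nonempty {y : ℝ | z * e y = 1} with h | ⟨y₀, hy₀⟩
  · rw [h]
    exact Set.countable_empty
  · refine (Set.countable_range (fun k : ℤ => y₀ + k)).mono ?_
    intro y hy
    have hz : z ≠ 0 := by
      rintro rfl
      simp at hy₀
    have h1 : e y = e y₀ := by
      have hy1 : z * e y = 1 := hy
      have hy2 : z * e y₀ = 1 := hy₀
      exact mul_left_cancel₀ hz (hy1.trans hy2.symm)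
    rw [e, e, Complex.exp_eq_exp_iff_exists_int] at h1
    obtain ⟨k, hk⟩ := h1
    refine ⟨k, ?_⟩
    have h2 : ((2 * Real.pi * y : ℝ) : ℂ) * I = ((2 * Real.pi * (y₀ + k) : ℝ) : ℂ) * I := by
      rw [hk]
      push_cast
      ring
    have h3 : ((2 * Real.pi * y : ℝ) : ℂ) = ((2 * Real.pi * (y₀ + k) : ℝ) : ℂ) :=
      mul_right_cancel₀ I_ne_zero h2
    have h4 : 2 * Real.pi * y = 2 * Real.pi * (y₀ + k) := by exact_mod_cast h3
    exact (mul_left_cancel₀ (by positivity) h4).symm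

/-- Target NONE. -/
theorem p_NONE : N_ONE := by
  intro z β s a hβ hs ha hPB
  refine ⟨⋃ n : {n : ℕ // 2 ≤ n}, (fun t : ℝ => t * Real.log n.1) ⁻¹' {y : ℝ | z * e y = 1},
    ?_, ?_⟩
  · refine Set.countable_iUnion fun n => (NONE_cnt z).preimage_of_injOn ?_
    intro t _ t' _ htt
    have hlog : 0 < Real.log n.1 := Real.log_pos (by exact_mod_cast n.2)
    exact mul_right_cancel₀ hlog.ne' htt
  · intro ε hε
    obtain ⟨C, hC⟩ := hPB ε hε
    refine ⟨C * (2 * Real.pi) ^ (a + ε) + |GZ z 0|, ?_⟩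
    intro t htS ht N hN hNt
    rw [one_mul] at hNt
    have hpi : 1 ≤ 2 * Real.pi := by linarith [Real.pi_gt_three]
    have ht0 : 0 ≤ t := by linarith
    have hx : 1 ≤ 2 * Real.pi * t := by nlinarith
    have hNx : (N : ℝ) ≤ (2 * Real.pi * t) ^ β :=
      hNt.trans (Real.rpow_le_rpow ht0 (by nlinarith) hβ.le)
    have h1 := hC (2 * Real.pi * t) hx N hN hNx
    have hne : ∀ n ∈ Finset.Icc 2 N, ‖1 - z * e (t * Real.log n)‖ ≠ 0 := by
      intro n hn
      rw [norm_ne_zero_iff]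
      intro h0
      refine htS (Set.mem_iUnion.2 ⟨⟨n, (Finset.mem_Icc.1 hn).1⟩, ?_⟩)
      exact (sub_eq_zero.1 h0).symm
    have h2 : ∏ n ∈ Finset.Icc 2 N, ‖1 - z * (n : ℂ) ^ (((2 * Real.pi * t : ℝ) : ℂ) * I)‖ =
        ∏ n ∈ Finset.Icc 2 N, ‖1 - z * e (t * Real.log n)‖ := by
      refine Finset.prod_congr rfl fun n hn => ?_
      rw [NONE_e n (by have := (Finset.mem_Icc.1 hn).1; omega)]
    rw [h2] at h1
    have hpos : 0 < ∏ n ∈ Finset.Icc 2 N, ‖1 - z * e (t * Real.log n)‖ :=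
      Finset.prod_pos fun n hn => lt_of_le_of_ne (norm_nonneg _) (Ne.symm (hne n hn))
    have h3 := (Real.log_le_iff_le_exp hpos).2 h1
    rw [Real.log_prod hne] at h3
    have h4 : ∑ n ∈ Finset.Icc 1 N, GZ z (t * Real.log n) =
        GZ z 0 + ∑ n ∈ Finset.Icc 2 N, Real.log ‖1 - z * e (t * Real.log n)‖ := by
      have h5 : Finset.Icc 1 N = insert 1 (Finset.Icc 2 N) := by
        ext n
        simp only [Finset.mem_insert, Finset.mem_Icc]
        omega
      rw [h5, Finset.sum_insert (by simp)]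
      simp [GZ]
    rw [h4]
    have hN1 : (1 : ℝ) ≤ (N : ℝ) ^ s := Real.one_le_rpow (by exact_mod_cast hN) hs
    have ht1 : (1 : ℝ) ≤ t ^ (a + ε) := Real.one_le_rpow ht (by linarith)
    have h6 : |GZ z 0| ≤ |GZ z 0| * (N : ℝ) ^ s * t ^ (a + ε) := by
      rw [mul_assoc]
      refine le_mul_of_one_le_right (abs_nonneg _) ?_
      nlinarith
    have h7 : GZ z 0 ≤ |GZ z 0| * (N : ℝ) ^ s * t ^ (a + ε) := (le_abs_self _).trans h6
    refine (add_le_add h7 h3).trans (le_of_eq ?_)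
    rw [Real.mul_rpow (by positivity) ht0]
    ring

end Pool.Agent.Ben
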