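import Pool.Agent.Ben.Targets12

/-!
# Ben, target NSM: the statistic is smooth for `|z| < 1`
-/

set_option autoImplicit false

namespace Pool.Agent.Ben

open Complex MeasureTheory Set

private theorem NSM_e (n : ℕ) (hn : 1 ≤ n) (x : ℝ) :
    e (Real.logb (Real.exp (2 * Real.pi)) ((n : ℝ) ^ x)) = (n : ℂ) ^ (x * I : ℂ) := by
  have hn0 : (n : ℂ) ≠ 0 := by exact_mod_cast (by omega : n ≠ 0)
  have hnR : (0 : ℝ) < n := by exact_mod_cast hn
  have hpi := Real.pi_pos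
  rw [Complex.cpow_def_of_ne_zero hn0, e, ← Complex.natCast_log, Real.logb, Real.log_exp,
    Real.log_rpow hnR]
  congr 1
  have h1 : 2 * Real.pi * (x * Real.log n / (2 * Real.pi)) = x * Real.log n := by
    field_simp
  rw [h1]
  push_cast
  ring

private theorem NSM_norm_e (y : ℝ) : ‖e y‖ = 1 := by
  rw [e, Complex.norm_exp_ofReal_mul_I]

private theorem NSM_per (y : ℝ) : e (y + 1) = e y := by
  rw [e, e, Complex.exp_eq_exp_iff_exists_int]
  refine ⟨1, ?_⟩
  push_cast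
  ring

private theorem NSM_ne {z w : ℂ} (hz : ‖z‖ < 1) (hw : ‖w‖ = 1) : 1 - z * w ≠ 0 := by
  intro h
  have h1 : z * w = 1 := (sub_eq_zero.1 h).symm
  have h2 : ‖z * w‖ = 1 := by rw [h1, norm_one]
  rw [norm_mul, hw, mul_one] at h2
  linarith

private theorem NSM_smooth {z : ℂ} (hz : ‖z‖ < 1) : ContDiff ℝ 1 (GZ z) := by
  have h1 : ContDiff ℝ 1 fun y : ℝ => 1 - z * e y := by
    unfold e
    refine contDiff_const.sub (contDiff_const.mul (ContDiff.cexp ?_))
    refine ContDiff.mul ?_ contDiff_const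
    exact Complex.ofRealCLM.contDiff.comp (contDiff_const.mul contDiff_id)
  have h2 : ∀ y : ℝ, 1 - z * e y ≠ 0 := fun y => NSM_ne hz (NSM_norm_e y)
  exact (h1.norm ℝ h2).log fun y => norm_ne_zero_iff.2 (h2 y)

private theorem NSM_periodic (z : ℂ) : Function.Periodic (GZ z) 1 := by
  intro y
  rw [GZ, GZ, NSM_per]

private theorem NSM_bdd {f : ℝ → ℝ} (hf : ContDiff ℝ 1 f) (hper : Function.Periodic f 1) :
    ∃ M : ℝ, ∀ y, |deriv f y| ≤ M := by
  have hc : Continuous (deriv f) := hf.continuous_deriv (le_refl _)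
  have hp : Function.Periodic (deriv f) 1 := by
    intro y
    have h1 : (fun t => f (t + 1)) = f := funext hper
    rw [← deriv_comp_add_const, h1]
  obtain ⟨M, hM⟩ := (isCompact_Icc (a := (0 : ℝ)) (b := 1)).exists_bound_of_continuousOn
    hc.continuousOn
  refine ⟨M, fun y => ?_⟩
  have h2 : deriv f (Int.fract y) = deriv f y := by
    have h3 := hp.sub_zsmul_eq (x := y) ⌊y⌋
    rw [zsmul_one, ← Int.self_sub_floor] at *
    exact h3
  rw [← h2]
  exact hM _ ⟨Int.fract_nonneg y, (Int.fract_lt_one y).le⟩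

private theorem NSM_mean {z : ℂ} (h : coef (GZ z) 0 = 0) : ∫ u in (0 : ℝ)..1, GZ z u = 0 := by
  have h1 : coef (GZ z) 0 = ((∫ u in (0 : ℝ)..1, GZ z u : ℝ) : ℂ) := by
    rw [coef, ← intervalIntegral.integral_ofReal]
    refine intervalIntegral.integral_congr fun u _ => ?_
    simp [e]
  rw [h1] at h
  exact_mod_cast h

/-- Target NSM. -/
theorem p_NSM : N_ZB → N_SM := by
  intro hZB z s a hz hs ha hCP ε hε
  by_cases hz0 : z = 0
  · refine ⟨0, fun x _ N _ _ => ?_⟩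
    simp [hz0]
  have hmean := NSM_mean (hZB z hz0 hz).2.1
  obtain ⟨C, hC⟩ := hCP ε hε
  have hsm := NSM_smooth hz
  have hper := NSM_periodic z
  obtain ⟨M, hM⟩ := NSM_bdd hsm hper
  refine ⟨C * M + |Real.log ‖1 - z‖|, fun x hx N hN hNx => ?_⟩
  rw [Real.rpow_one] at hNx
  have h1 := hC (GZ z) M hsm hper hM x N hN hNx
  rw [hmean, mul_zero, sub_zero] at h1
  have hterm : ∀ n ∈ Finset.Icc 1 N, GZ z (Real.logb (Real.exp (2 * Real.pi)) ((n : ℝ) ^ x)) =
      Real.log ‖1 - z * (n : ℂ) ^ (x * I : ℂ)‖ := by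
    intro n hn
    rw [GZ, NSM_e n (Finset.mem_Icc.1 hn).1]
  rw [Finset.sum_congr rfl hterm] at h1
  have h5 : Finset.Icc 1 N = insert 1 (Finset.Icc 2 N) := by
    ext n
    simp only [Finset.mem_insert, Finset.mem_Icc]
    omega
  rw [h5, Finset.sum_insert (by simp)] at h1
  have hone : Real.log ‖1 - z * ((1 : ℕ) : ℂ) ^ (x * I : ℂ)‖ = Real.log ‖1 - z‖ := by
    rw [Nat.cast_one, Complex.one_cpow, mul_one]
  rw [hone] at h1
  have hne : ∀ n ∈ Finset.Icc 2 N, ‖1 - z * (n : ℂ) ^ (x * I : ℂ)‖ ≠ 0 := by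
    intro n hn
    have hn1 : 1 ≤ n := by
      have := (Finset.mem_Icc.1 hn).1
      omega
    rw [norm_ne_zero_iff, ← NSM_e n hn1]
    exact NSM_ne hz (NSM_norm_e _)
  have hpos : 0 < ∏ n ∈ Finset.Icc 2 N, ‖1 - z * (n : ℂ) ^ (x * I : ℂ)‖ :=
    Finset.prod_pos fun n hn => lt_of_le_of_ne (norm_nonneg _) (Ne.symm (hne n hn))
  rw [← Real.log_le_iff_le_exp hpos, Real.log_prod hne]
  have hNs : 1 ≤ (N : ℝ) ^ s := Real.one_le_rpow (by exact_mod_cast hN) hs
  have hxa : 1 ≤ x ^ (a + ε) := Real.one_le_rpow hx (by linarith)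
  have hbig : 1 ≤ (N : ℝ) ^ s * x ^ (a + ε) := one_le_mul_of_one_le_of_one_le hNs hxa
  have h6 := (le_abs_self _).trans h1
  have h7 : -Real.log ‖1 - z‖ ≤ |Real.log ‖1 - z‖| * ((N : ℝ) ^ s * x ^ (a + ε)) :=
    (neg_le_abs _).trans (le_mul_of_one_le_right (abs_nonneg _) hbig)
  linarith

end Pool.Agent.Ben
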