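import Pool.Agent.Ben.Targets12

/-!
# The statistic `log |1 - z e y|` for `|z| = 1` is a translate of `log |1 - e y|`
-/

set_option autoImplicit false

namespace Pool.Agent.Ben

open Complex MeasureTheory Set

private theorem NZA_add (x y : ℝ) : e (x + y) = e x * e y := by
  unfold e
  rw [← Complex.exp_add]
  congr 1
  push_cast
  ring

private theorem NZA_one (h : ℤ) : e h = 1 := by
  unfold e
  rw [Complex.exp_eq_one_iff]
  exact ⟨h, by push_cast; ring⟩

private theorem NZA_z (z : ℂ) (hz : ‖z‖ = 1) : ∃ c : ℝ, z = e c := by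
  refine ⟨Complex.arg z / (2 * Real.pi), ?_⟩
  have h := Complex.norm_mul_exp_arg_mul_I z
  rw [hz, Complex.ofReal_one, one_mul] at h
  have h2 : 2 * Real.pi * (Complex.arg z / (2 * Real.pi)) = Complex.arg z := by
    have := Real.pi_ne_zero
    field_simp
  unfold e
  rw [h2, h]

private theorem NZA_coef (hG : Function.Periodic G0 1) (c : ℝ) (h : ℤ) :
    coef (fun y => G0 (y + c)) h = e (h * c) * coef G0 h := by
  unfold coef
  have hF : Function.Periodic (fun v : ℝ => (G0 v : ℂ) * e (-(h * v))) 1 := by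
    intro v
    have e1 : -((h : ℝ) * (v + 1)) = -(h * v) + ((-h : ℤ) : ℝ) := by
      push_cast
      ring
    simp only [hG v]
    rw [e1, NZA_add, NZA_one, mul_one]
  have h1 : ∀ x : ℝ, (G0 (x + c) : ℂ) * e (-(h * x)) =
      e (h * c) * ((G0 (x + c) : ℂ) * e (-(h * (x + c)))) := by
    intro x
    have e1 : -((h : ℝ) * x) = h * c + -(h * (x + c)) := by ring
    rw [e1, NZA_add]
    ring
  simp only [h1]
  rw [intervalIntegral.integral_const_mul]
  congr 1
  have h2 := intervalIntegral.integral_comp_add_right (a := 0) (b := 1)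
    (fun v : ℝ => (G0 v : ℂ) * e (-(h * v))) c
  rw [h2, zero_add, add_comm 1 c]
  have h3 := hF.intervalIntegral_add_eq c 0
  rw [zero_add] at h3
  exact h3

theorem p_NZA : L_GA → L_GB → N_ZA := by
  rintro ⟨⟨B, hB⟩, h0⟩ hG1 z hz
  obtain ⟨c, rfl⟩ := NZA_z z hz
  have hGZ : GZ (e c) = fun y => G0 (y + c) := by
    funext y
    unfold GZ G0
    rw [add_comm y c, NZA_add]
  have hne : ∀ x : ℝ, e x ≠ 0 := fun x => Complex.exp_ne_zero _
  have hper : Function.Periodic (fun y => G0 (y + c)) 1 := by
    intro y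
    have e1 : y + 1 + c = y + c + 1 := by ring
    simp only [e1]
    exact hB.per (y + c)
  have hint : IntervalIntegrable (fun y => G0 (y + c)) volume 0 1 := by
    have h1 : IntervalIntegrable G0 volume (0 + c) (1 + c) := by
      refine hB.per.intervalIntegrable (t := 0) one_ne_zero ?_ _ _
      rw [zero_add]
      exact hB.int
    have h2 := h1.comp_add_right c
    simpa using h2
  rw [hGZ]
  refine ⟨⟨(∫ x in (0 : ℝ)..1, |G0 (x + c)|) + |G0 (0 + c)|,
    ⟨hB.meas.comp (measurable_id.add_const c), hper, hint, ?_, ?_⟩⟩, ?_, ?_⟩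
  · exact le_add_of_nonneg_right (abs_nonneg _)
  · exact le_add_of_nonneg_left
      (intervalIntegral.integral_nonneg zero_le_one fun x _ => abs_nonneg _)
  · rw [NZA_coef hB.per, h0, mul_zero]
  · rw [NZA_coef hB.per]
    exact mul_ne_zero (hne _) hG1

end Pool.Agent.Ben
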