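import Pool.Agent.Ben.Targets12

/-!
# The statistic `log |1 - z e y|` for `|z| < 1`: mean and first coefficient
-/

set_option autoImplicit false

namespace Pool.Agent.Ben

open Complex MeasureTheory Set

private theorem NZB_norm (y : ℝ) : ‖e y‖ = 1 := by
  rw [e, Complex.norm_exp_ofReal_mul_I]

private theorem NZB_add (x y : ℝ) : e (x + y) = e x * e y := by
  unfold e
  rw [← Complex.exp_add]
  congr 1
  push_cast
  ring

private theorem NZB_pow (y : ℝ) (h : ℕ) : e y ^ h = e (h * y) := by
  unfold e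
  rw [← Complex.exp_nat_mul]
  congr 1
  push_cast
  ring

private theorem NZB_conj (y : ℝ) : (starRingEnd ℂ) (e y) = e (-y) := by
  unfold e
  rw [← Complex.exp_conj, map_mul, Complex.conj_I, Complex.conj_ofReal]
  congr 1
  push_cast
  ring

private theorem NZB_cont : Continuous e := by
  unfold e
  fun_prop

private theorem NZB_per (y : ℝ) : e (y + 1) = e y := by
  rw [e, e, Complex.exp_eq_exp_iff_exists_int]
  refine ⟨1, ?_⟩
  push_cast
  ring

private theorem NZB_ne {z w : ℂ} (hz : ‖z‖ < 1) (hw : ‖w‖ = 1) : 1 - z * w ≠ 0 := by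
  intro h
  have h1 : z * w = 1 := (sub_eq_zero.1 h).symm
  have h2 : ‖z * w‖ = 1 := by rw [h1, norm_one]
  rw [norm_mul, hw, mul_one] at h2
  linarith

private theorem NZB_GZcont {z : ℂ} (hz : ‖z‖ < 1) : Continuous (GZ z) := by
  unfold GZ
  refine Continuous.log ?_ fun y => norm_ne_zero_iff.2 (NZB_ne hz (NZB_norm y))
  exact (continuous_const.sub (continuous_const.mul NZB_cont)).norm

private theorem NZB_int (m : ℤ) :
    ∫ y in (0 : ℝ)..1, e (m * y) = if m = 0 then 1 else 0 := by
  split_ifs with h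
  · subst h
    simp [e]
  · have h1 : ∀ y : ℝ, e (m * y) = Complex.exp ((m * (2 * Real.pi * I)) * y) := by
      intro y
      rw [e]
      congr 1
      push_cast
      ring
    simp only [h1]
    have hc : (m * (2 * Real.pi * I) : ℂ) ≠ 0 := by
      refine mul_ne_zero (by exact_mod_cast h) ?_
      exact Complex.two_pi_I_ne_zero
    rw [integral_exp_mul_complex hc, Complex.ofReal_one, Complex.ofReal_zero, mul_one, mul_zero,
      Complex.exp_zero, Complex.exp_int_mul_two_pi_mul_I, sub_self, zero_div]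

private theorem NZB_ser {z : ℂ} (hz : ‖z‖ < 1) (y : ℝ) :
    HasSum (fun h : ℕ => -(1 / 2 : ℂ) * (z ^ h / h * e (h * y) +
      (starRingEnd ℂ) z ^ h / h * e (-(h * y)))) (GZ z y : ℂ) := by
  have h0 : ‖z * e y‖ < 1 := by
    rw [norm_mul, NZB_norm, mul_one]
    exact hz
  have h1 := Complex.hasSum_taylorSeries_neg_log h0
  have h2 := Complex.hasSum_conj'.2 h1
  have h3 := (h1.add h2).mul_left (-(1 / 2 : ℂ))
  have e1 : (fun h : ℕ => -(1 / 2 : ℂ) * (z ^ h / h * e (h * y) +
      (starRingEnd ℂ) z ^ h / h * e (-(h * y)))) = fun h : ℕ =>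
      -(1 / 2 : ℂ) * ((z * e y) ^ h / h + (starRingEnd ℂ) ((z * e y) ^ h / h)) := by
    funext h
    rw [mul_pow, NZB_pow, map_div₀, map_mul, map_pow, Complex.conj_natCast, NZB_conj]
    ring
  have e2 : (GZ z y : ℂ) = -(1 / 2 : ℂ) * (-Complex.log (1 - z * e y) +
      (starRingEnd ℂ) (-Complex.log (1 - z * e y))) := by
    rw [Complex.add_conj, Complex.neg_re, Complex.log_re, GZ]
    push_cast
    ring
  rw [e1, e2]
  exact h3

private theorem NZB_coef {z : ℂ} (hz : ‖z‖ < 1) (k : ℤ) :
    HasSum (fun h : ℕ => -(1 / 2 : ℂ) * (z ^ h / h * (if (h : ℤ) - k = 0 then 1 else 0) +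
      (starRingEnd ℂ) z ^ h / h * (if -(h : ℤ) - k = 0 then 1 else 0))) (coef (GZ z) k) := by
  have hc : ∀ m : ℤ, Continuous fun y : ℝ => e (m * y) := fun m =>
    NZB_cont.comp (continuous_const.mul continuous_id)
  have h1 : HasSum (fun h : ℕ => ∫ y in (0 : ℝ)..1, -(1 / 2 : ℂ) *
      (z ^ h / h * e (((h : ℤ) - k : ℤ) * y) +
      (starRingEnd ℂ) z ^ h / h * e ((-(h : ℤ) - k : ℤ) * y))) (coef (GZ z) k) := by
    refine intervalIntegral.hasSum_integral_of_dominated_convergence
      (fun (h : ℕ) (_ : ℝ) => ‖z‖ ^ h) ?_ ?_ ?_ ?_ ?_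
    · intro h
      exact (continuous_const.mul ((continuous_const.mul (hc _)).add
        (continuous_const.mul (hc _)))).aestronglyMeasurable
    · intro h
      refine Filter.Eventually.of_forall fun y _ => ?_
      have h2 : ‖z ^ h / (h : ℂ)‖ ≤ ‖z‖ ^ h := by
        rw [norm_div, norm_pow, Complex.norm_natCast]
        rcases Nat.eq_zero_or_pos h with h0 | h0
        · subst h0
          simp
        · exact div_le_self (by positivity) (by exact_mod_cast h0)
      have h3 : ‖(starRingEnd ℂ) z ^ h / (h : ℂ)‖ ≤ ‖z‖ ^ h := by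
        have h4 : (starRingEnd ℂ) z ^ h / (h : ℂ) = (starRingEnd ℂ) (z ^ h / (h : ℂ)) := by
          rw [map_div₀, map_pow, Complex.conj_natCast]
        rw [h4, Complex.norm_conj]
        exact h2
      rw [norm_mul]
      have h5 : ‖z ^ h / (h : ℂ) * e (((h : ℤ) - k : ℤ) * y) +
          (starRingEnd ℂ) z ^ h / h * e ((-(h : ℤ) - k : ℤ) * y)‖ ≤ ‖z‖ ^ h + ‖z‖ ^ h := by
        refine (norm_add_le _ _).trans ?_
        rw [norm_mul, norm_mul, NZB_norm, NZB_norm, mul_one, mul_one]
        exact add_le_add h2 h3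
      have h6 : ‖(-(1 / 2 : ℂ))‖ = 1 / 2 := by
        rw [norm_neg]
        norm_num
      rw [h6]
      linarith
    · exact Filter.Eventually.of_forall fun y _ =>
        summable_geometric_of_lt_one (norm_nonneg z) hz
    · exact intervalIntegrable_const
    · refine Filter.Eventually.of_forall fun y _ => ?_
      have h2 := (NZB_ser hz y).mul_right (e (-(k * y)))
      have e0 : (fun h : ℕ => -(1 / 2 : ℂ) * (z ^ h / h * e (((h : ℤ) - k : ℤ) * y) +
          (starRingEnd ℂ) z ^ h / h * e ((-(h : ℤ) - k : ℤ) * y))) = fun h : ℕ =>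
          -(1 / 2 : ℂ) * (z ^ h / h * e (h * y) +
          (starRingEnd ℂ) z ^ h / h * e (-(h * y))) * e (-(k * y)) := by
        funext h
        have e1 : (((h : ℤ) - k : ℤ) : ℝ) * y = h * y + -(k * y) := by
          push_cast
          ring
        have e2 : ((-(h : ℤ) - k : ℤ) : ℝ) * y = -(h * y) + -(k * y) := by
          push_cast
          ring
        rw [e1, e2, NZB_add, NZB_add]
        ring
      rw [e0]
      exact h2
  convert h1 using 1
  funext h
  have hi : ∀ (c : ℂ) (m : ℤ), IntervalIntegrable (fun y : ℝ => c * e (m * y)) volume 0 1 :=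
    fun c m => (continuous_const.mul (hc m)).intervalIntegrable _ _
  rw [intervalIntegral.integral_const_mul, intervalIntegral.integral_add (hi _ _) (hi _ _),
    intervalIntegral.integral_const_mul, intervalIntegral.integral_const_mul, NZB_int, NZB_int]

theorem p_NZB : N_ZB := by
  intro z hz0 hz
  have hcont := NZB_GZcont hz
  refine ⟨⟨(∫ x in (0 : ℝ)..1, |GZ z x|) + |GZ z 0|, ?_⟩, ?_, ?_⟩
  · refine ⟨hcont.measurable, ?_, hcont.intervalIntegrable _ _, ?_, ?_⟩
    · intro y
      rw [GZ, GZ, NZB_per]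
    · have := abs_nonneg (GZ z 0)
      linarith
    · have : 0 ≤ ∫ x in (0 : ℝ)..1, |GZ z x| :=
        intervalIntegral.integral_nonneg (by norm_num) fun x _ => abs_nonneg _
      linarith
  · have h1 := NZB_coef hz 0
    have h2 : (fun h : ℕ => -(1 / 2 : ℂ) * (z ^ h / h * (if (h : ℤ) - 0 = 0 then 1 else 0) +
        (starRingEnd ℂ) z ^ h / h * (if -(h : ℤ) - 0 = 0 then 1 else 0))) = fun _ => 0 := by
      funext h
      rcases Nat.eq_zero_or_pos h with h0 | h0
      · subst h0
        simp
      · rw [if_neg (by omega), if_neg (by omega)]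
        ring
    rw [h2] at h1
    exact h1.unique hasSum_zero
  · have h1 := NZB_coef hz 1
    have h3 := hasSum_single (f := fun h : ℕ => -(1 / 2 : ℂ) *
        (z ^ h / h * (if (h : ℤ) - 1 = 0 then 1 else 0) +
        (starRingEnd ℂ) z ^ h / h * (if -(h : ℤ) - 1 = 0 then 1 else 0))) 1 (by
      intro h hh
      rw [if_neg (by omega), if_neg (by omega)]
      ring)
    rw [h1.unique h3]
    simp [hz0]

end Pool.Agent.Ben
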