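import Pool.Agent.Ben.Targets
import Mathlib.NumberTheory.ZetaValues

/-!
# Fourier series of the integrated sawtooth
-/

set_option autoImplicit false

namespace Pool.Agent.Ben

open Set

private theorem PHI_unit {x : ℝ} (hx : x ∈ Icc (0 : ℝ) 1) :
    HasSum (fun h : ℕ => Real.cos (2 * Real.pi * (h + 1) * x) /
      (2 * Real.pi ^ 2 * (h + 1 : ℝ) ^ 2)) ((x ^ 2 - x + 1 / 6) / 2) := by
  have h := hasSum_one_div_nat_pow_mul_cos (k := 1) one_ne_zero hx
  rw [← hasSum_nat_add_iff' 1] at h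
  have hB : (Polynomial.map (algebraMap ℚ ℝ) (Polynomial.bernoulli (2 * 1))).eval x =
      x ^ 2 - x + 6⁻¹ := bernoulliFun_two x
  rw [hB] at h
  have hpi : Real.pi ≠ 0 := Real.pi_ne_zero
  have h2 := h.mul_left (1 / (2 * Real.pi ^ 2))
  convert! h2 using 1
  · funext n
    have hn : ((n : ℝ) + 1) ≠ 0 := by positivity
    push_cast
    field_simp
  · simp [Nat.factorial]
    field_simp

/-- Fourier series of the integrated sawtooth function. -/
theorem p_PHI : T_PHI := by
  intro x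
  have hx : Int.fract x ∈ Icc (0 : ℝ) 1 := ⟨Int.fract_nonneg x, (Int.fract_lt_one x).le⟩
  have h := PHI_unit hx
  convert! h using 1
  funext n
  congr 1
  have hfx : x = Int.fract x + ⌊x⌋ := (Int.fract_add_floor x).symm
  have he : 2 * Real.pi * ((n : ℝ) + 1) * x =
      2 * Real.pi * ((n : ℝ) + 1) * Int.fract x + ((((n : ℤ) + 1) * ⌊x⌋ : ℤ) : ℝ) *
        (2 * Real.pi) := by
    conv_lhs => rw [hfx]
    push_cast
    ring
  rw [he, Real.cos_add_int_mul_two_pi]

end Pool.Agent.Ben
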