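import Pool.Agent.Ben.Targets

/-!
# The pole term
-/

set_option autoImplicit false

namespace Pool.Agent.Ben

open Complex MeasureTheory Set

private theorem POLE_rho_one (N : ℕ) (x : ℝ) (h : x ≤ N) : rho N x = 1 := by
  unfold rho
  have h1 : (1 : ℝ) ≤ N + 1 - x := by linarith
  rw [min_eq_left h1]
  exact max_eq_right zero_le_one

private theorem POLE_rho_le (N : ℕ) (x : ℝ) : |rho N x| ≤ 1 := by
  unfold rho
  rw [abs_of_nonneg (le_max_left _ _)]
  exact max_le zero_le_one (min_le_left _ _)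

private theorem POLE_rho_cont (N : ℕ) : Continuous (rho N) := by
  unfold rho
  fun_prop

private theorem POLE_cont (N : ℕ) (T : ℝ) (a b : ℝ) (ha : 0 < a) (hb : 0 < b) :
    ContinuousOn (fun x : ℝ => (rho N x : ℂ) * (x : ℂ) ^ (-(T * I) : ℂ)) (Set.uIcc a b) := by
  refine ContinuousOn.mul ?_ ?_
  · exact (Complex.continuous_ofReal.comp (POLE_rho_cont N)).continuousOn
  · intro x hx
    have hx0 : 0 < x := lt_of_lt_of_le (lt_min ha hb) hx.1
    refine ContinuousAt.continuousWithinAt ?_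
    exact ContinuousAt.cpow Complex.continuous_ofReal.continuousAt continuousAt_const
      (Complex.ofReal_mem_slitPlane.mpr hx0)

private theorem POLE_norm (T x : ℝ) (hx : 0 < x) : ‖(x : ℂ) ^ (-(T * I) : ℂ)‖ = 1 := by
  rw [Complex.norm_cpow_eq_rpow_re_of_pos hx]
  simp

theorem p_POLE : T_POLE := by
  intro N hN T hT
  have hN1 : (1 : ℝ) ≤ N := by exact_mod_cast hN
  have hN0 : (0 : ℝ) < N := by linarith
  have hT0 : (0 : ℝ) < T := by linarith
  have hi1 : IntervalIntegrable (fun x : ℝ => (rho N x : ℂ) * (x : ℂ) ^ (-(T * I) : ℂ))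
      volume 1 N := (POLE_cont N T 1 N one_pos hN0).intervalIntegrable
  have hi2 : IntervalIntegrable (fun x : ℝ => (rho N x : ℂ) * (x : ℂ) ^ (-(T * I) : ℂ))
      volume N (N + 1) := (POLE_cont N T N (N + 1) hN0 (by linarith)).intervalIntegrable
  rw [← intervalIntegral.integral_add_adjacent_intervals hi1 hi2]
  have h1 : ∫ x in (1 : ℝ)..N, (rho N x : ℂ) * (x : ℂ) ^ (-(T * I) : ℂ) =
      ∫ x in (1 : ℝ)..N, (x : ℂ) ^ (-(T * I) : ℂ) := by
    apply intervalIntegral.integral_congr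
    intro x hx
    rw [Set.uIcc_of_le hN1] at hx
    simp only
    rw [POLE_rho_one N x hx.2]
    simp
  have hne : (1 - T * I : ℂ) ≠ 0 := by
    intro h
    have := congrArg Complex.re h
    simp at this
  have hnorm : T ≤ ‖(1 - T * I : ℂ)‖ := by
    have := Complex.abs_im_le_norm (1 - T * I : ℂ)
    simp at this
    rw [abs_of_pos hT0] at this
    exact this
  have h2 : ‖∫ x in (1 : ℝ)..N, (x : ℂ) ^ (-(T * I) : ℂ)‖ ≤ (N + 1) / T := by
    rw [integral_cpow (Or.inr ⟨by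
      intro h
      have := congrArg Complex.re h
      simp at this, by
      rw [Set.uIcc_of_le hN1]
      intro h
      linarith [h.1]⟩)]
    have e1 : (-(T * I) + 1 : ℂ) = 1 - T * I := by ring
    rw [e1, norm_div]
    have n1 : ‖((N : ℝ) : ℂ) ^ (1 - T * I : ℂ)‖ = N := by
      rw [Complex.norm_cpow_eq_rpow_re_of_pos hN0]
      simp
    have n2 : ‖(((1 : ℝ) : ℂ)) ^ (1 - T * I : ℂ)‖ = 1 := by
      rw [Complex.norm_cpow_eq_rpow_re_of_pos one_pos]
      simp
    have n3 : ‖((N : ℝ) : ℂ) ^ (1 - T * I : ℂ) - (((1 : ℝ) : ℂ)) ^ (1 - T * I : ℂ)‖ ≤ N + 1 := by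
      refine (norm_sub_le _ _).trans ?_
      rw [n1, n2]
    calc ‖((N : ℝ) : ℂ) ^ (1 - T * I : ℂ) - (((1 : ℝ) : ℂ)) ^ (1 - T * I : ℂ)‖ /
          ‖(1 - T * I : ℂ)‖ ≤ (N + 1) / ‖(1 - T * I : ℂ)‖ := by gcongr
      _ ≤ (N + 1) / T := by gcongr
  have h3 : ‖∫ x in (N : ℝ)..(N + 1), (rho N x : ℂ) * (x : ℂ) ^ (-(T * I) : ℂ)‖ ≤ 1 := by
    have := intervalIntegral.norm_integral_le_of_norm_le_const (a := (N : ℝ)) (b := N + 1)
      (C := 1) (f := fun x : ℝ => (rho N x : ℂ) * (x : ℂ) ^ (-(T * I) : ℂ)) (by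
        intro x hx
        rw [Set.uIoc_of_le (by linarith)] at hx
        have hx0 : 0 < x := by linarith [hx.1]
        rw [norm_mul, POLE_norm T x hx0, mul_one, Complex.norm_real, Real.norm_eq_abs]
        exact POLE_rho_le N x)
    simpa using this
  rw [h1]
  exact (norm_add_le _ _).trans (add_le_add h2 h3)

end Pool.Agent.Ben
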