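import Pool.Agent.Ben.Targets

/-!
# T_RB: two bounds for the Mellin transform of the cutoff
-/

set_option autoImplicit false

namespace Pool.Agent.Ben

open Complex Set

private theorem RB_first (N : ℕ) (hN : 1 ≤ N) (s : ℂ) (hs : 0 < s.re) :
    ‖RR N s‖ ≤ 2 * (N + 1 : ℝ) ^ (s.re + 1) / (‖s‖ * ‖s + 1‖) := by
  have hN0 : (0 : ℝ) < N := by exact_mod_cast hN
  have hN1 : (0 : ℝ) < N + 1 := by linarith
  unfold RR
  rw [norm_div, norm_mul]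
  refine div_le_div_of_nonneg_right ?_ (by positivity)
  have h1 : ‖((N + 1 : ℝ) : ℂ) ^ (s + 1)‖ = (N + 1 : ℝ) ^ (s.re + 1) := by
    rw [norm_cpow_eq_rpow_re_of_pos hN1]
    simp
  have h2 : ‖((N : ℝ) : ℂ) ^ (s + 1)‖ = (N : ℝ) ^ (s.re + 1) := by
    rw [norm_cpow_eq_rpow_re_of_pos hN0]
    simp
  have h3 : (N : ℝ) ^ (s.re + 1) ≤ (N + 1 : ℝ) ^ (s.re + 1) :=
    Real.rpow_le_rpow hN0.le (by linarith) (by linarith)
  calc ‖((N + 1 : ℝ) : ℂ) ^ (s + 1) - ((N : ℝ) : ℂ) ^ (s + 1)‖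
      ≤ ‖((N + 1 : ℝ) : ℂ) ^ (s + 1)‖ + ‖((N : ℝ) : ℂ) ^ (s + 1)‖ := norm_sub_le _ _
    _ ≤ 2 * (N + 1 : ℝ) ^ (s.re + 1) := by rw [h1, h2]; linarith

private theorem RB_second (N : ℕ) (hN : 1 ≤ N) (s : ℂ) (hs : 0 < s.re) :
    ‖RR N s‖ ≤ (N + 1 : ℝ) ^ s.re / ‖s‖ := by
  have hN0 : (0 : ℝ) < N := by exact_mod_cast hN
  have hs1 : s + 1 ≠ 0 := by
    intro h
    have := congrArg Complex.re h
    simp at this
    linarith
  have hs2 : s ≠ -1 := fun h => hs1 (by rw [h]; ring)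
  have hs0 : s ≠ 0 := by
    intro h
    rw [h] at hs
    simp at hs
  have hle : (N : ℝ) ≤ N + 1 := by linarith
  have h1 := norm_image_sub_le_of_norm_deriv_le_segment' (a := (N : ℝ)) (b := (N + 1 : ℝ))
    (f := fun y : ℝ => (y : ℂ) ^ (s + 1) / (s + 1)) (f' := fun y : ℝ => (y : ℂ) ^ s)
    (C := (N + 1 : ℝ) ^ s.re)
    (fun x hx => (hasDerivAt_ofReal_cpow_const' (hN0.trans_le hx.1).ne'
      hs2).hasDerivWithinAt)
    (fun x hx => by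
      rw [norm_cpow_eq_rpow_re_of_pos (by linarith [hx.1])]
      exact Real.rpow_le_rpow (by linarith [hx.1]) hx.2.le hs.le)
    (N + 1) ⟨hle, le_refl _⟩
  have h2 : RR N s = (((N + 1 : ℝ) : ℂ) ^ (s + 1) / (s + 1) -
      ((N : ℝ) : ℂ) ^ (s + 1) / (s + 1)) / s := by
    unfold RR
    field_simp
  rw [h2, norm_div]
  refine div_le_div_of_nonneg_right ?_ (norm_nonneg _)
  refine h1.trans (le_of_eq ?_)
  ring

theorem p_RB : T_RB := fun N hN s hs => ⟨RB_first N hN s hs, RB_second N hN s hs⟩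

end Pool.Agent.Ben
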