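import Pool.Agent.Ben.Targets

/-!
# LH and Benford's law: the sawtooth between difference quotients
-/

set_option autoImplicit false

namespace Pool.Agent.Ben

theorem p_SAW : T_SAW := by
  intro x δ hδ hδ1
  have hf0 : 0 ≤ Int.fract x := Int.fract_nonneg x
  have hf1 : Int.fract x < 1 := Int.fract_lt_one x
  have hx : x = ⌊x⌋ + Int.fract x := (Int.floor_add_fract x).symm
  unfold psi
  constructor
  · rcases le_or_gt δ (Int.fract x) with h | h
    · have h1 : Int.fract (x - δ) = Int.fract x - δ := by
        rw [Int.fract_eq_iff]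
        refine ⟨by linarith, by linarith, ⌊x⌋, by linarith⟩
      rw [h1]
      set f := Int.fract x
      have h2 : ((f ^ 2 - f + 1 / 6) / 2 - ((f - δ) ^ 2 - (f - δ) + 1 / 6) / 2) / δ + δ / 2 =
          f - 1 / 2 := by
        field_simp
        ring
      rw [h2]
    · have h1 : Int.fract (x - δ) = Int.fract x - δ + 1 := by
        rw [Int.fract_eq_iff]
        refine ⟨by linarith, by linarith, ⌊x⌋ - 1, ?_⟩
        push_cast
        linarith
      rw [h1]
      set f := Int.fract x
      have h2 : ((f ^ 2 - f + 1 / 6) / 2 -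
          ((f - δ + 1) ^ 2 - (f - δ + 1) + 1 / 6) / 2) / δ + δ / 2 = f + 1 / 2 - f / δ := by
        field_simp
        ring
      rw [h2]
      have h3 : f / δ ≤ 1 := by
        rw [div_le_one hδ]
        exact h.le
      linarith
  · rcases lt_or_ge (Int.fract x + δ) 1 with h | h
    · have h1 : Int.fract (x + δ) = Int.fract x + δ := by
        rw [Int.fract_eq_iff]
        refine ⟨by linarith, by linarith, ⌊x⌋, by linarith⟩
      rw [h1]
      set f := Int.fract x
      have h2 : (((f + δ) ^ 2 - (f + δ) + 1 / 6) / 2 - (f ^ 2 - f + 1 / 6) / 2) / δ - δ / 2 =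
          f - 1 / 2 := by
        field_simp
        ring
      rw [h2]
    · have h1 : Int.fract (x + δ) = Int.fract x + δ - 1 := by
        rw [Int.fract_eq_iff]
        refine ⟨by linarith, by linarith, ⌊x⌋ + 1, ?_⟩
        push_cast
        linarith
      rw [h1]
      set f := Int.fract x
      have h2 : (((f + δ - 1) ^ 2 - (f + δ - 1) + 1 / 6) / 2 -
          (f ^ 2 - f + 1 / 6) / 2) / δ - δ / 2 = f - 3 / 2 + (1 - f) / δ := by
        field_simp
        ring
      rw [h2]
      have h3 : (1 - f) / δ ≤ 1 := by
        rw [div_le_one hδ]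
        linarith
      linarith

end Pool.Agent.Ben
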