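import Pool.Agent.Ben.Targets10

/-!
# Block SBV: all statistics of bounded variation, all lines
-/

set_option autoImplicit false

namespace Pool.Agent.Ben

open Complex MeasureTheory Set

/-- All statistics of bounded variation, pointwise. -/
theorem SBV_one (hK : V_KOKG) : ∀ s : ℝ, DP s → ∀ g : ℝ, 1 < g → BP g s := by
  intro s hD g hg ε hε
  obtain ⟨C, hC⟩ := hD g hg ε hε
  refine ⟨4 * |C|, ?_⟩
  intro f hper hf x N hN hNx
  set V := (eVariationOn f (Icc 0 1)).toReal with hV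
  have hV0 : 0 ≤ V := ENNReal.toReal_nonneg
  have hN1 : (1 : ℝ) ≤ (N : ℝ) := by exact_mod_cast hN
  have hx0 : 0 < x := by linarith
  have hxe : 0 ≤ x ^ ε := Real.rpow_nonneg hx0.le _
  have hsN : 0 ≤ (N : ℝ) ^ s := Real.rpow_nonneg (Nat.cast_nonneg N) _
  have hDab : ∀ a b : ℝ, |∑ n ∈ Finset.Icc 1 N,
      (psi (x / Real.log g * Real.log n + b) - psi (x / Real.log g * Real.log n + a))| ≤
      2 * (C * (N : ℝ) ^ s * x ^ ε) := by
    intro a b
    have e1 := hC x N hN hNx b
    have e2 := hC x N hN hNx a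
    rw [Finset.sum_sub_distrib]
    refine (abs_sub _ _).trans ?_
    linarith
  have h1 := hK N (fun n => x / Real.log g * Real.log n) _ hDab f hper hf
  have h2 : ∑ n ∈ Finset.Icc 1 N, f (Real.logb g ((n : ℝ) ^ x)) =
      ∑ n ∈ Finset.Icc 1 N, f (x / Real.log g * Real.log n) := by
    refine Finset.sum_congr rfl fun n hn => ?_
    have hn1 : 1 ≤ n := (Finset.mem_Icc.1 hn).1
    have hn0 : (0 : ℝ) < n := by exact_mod_cast hn1
    congr 1
    rw [Real.logb, Real.log_rpow hn0]
    ring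
  rw [h2]
  refine h1.trans ?_
  rw [← hV]
  calc 2 * V * (2 * (C * (N : ℝ) ^ s * x ^ ε)) = C * (4 * (V * (N : ℝ) ^ s * x ^ ε)) := by ring
    _ ≤ |C| * (4 * (V * (N : ℝ) ^ s * x ^ ε)) := by
      gcongr
      exact le_abs_self C
    _ = _ := by ring

/-- All statistics of bounded variation in the mean of order q. -/
theorem SBV_two (hK : V_KOKG) : ∀ q s : ℝ, 1 ≤ q → DQ q s → ∀ g : ℝ, 1 < g → BQ g q s := by
  intro q s hq hD g hg ε hε
  obtain ⟨C, hC⟩ := hD g hg ε hε
  refine ⟨4 ^ q * |C|, ?_⟩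
  intro f hper hf X hX N hN hNX
  obtain ⟨E, hEc, hE, hEI⟩ := hC X hX N hN hNX
  set V := (eVariationOn f (Icc 0 1)).toReal with hV
  have hV0 : 0 ≤ V := ENNReal.toReal_nonneg
  have hq0 : 0 < q := by linarith
  have hsN : 0 ≤ (N : ℝ) ^ s := Real.rpow_nonneg (Nat.cast_nonneg N) _
  have hX0 : 0 < X := by linarith
  have hpt : ∀ x : ℝ, |∑ n ∈ Finset.Icc 1 N, f (Real.logb g ((n : ℝ) ^ x)) -
      N * ∫ u in (0 : ℝ)..1, f u| ≤ 4 * V * E x := by
    intro x
    have hDab : ∀ a b : ℝ, |∑ n ∈ Finset.Icc 1 N,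
        (psi (x / Real.log g * Real.log n + b) - psi (x / Real.log g * Real.log n + a))| ≤
        2 * E x := by
      intro a b
      have e1 := hE x b
      have e2 := hE x a
      rw [Finset.sum_sub_distrib]
      refine (abs_sub _ _).trans ?_
      linarith
    have h1 := hK N (fun n => x / Real.log g * Real.log n) _ hDab f hper hf
    have h2 : ∑ n ∈ Finset.Icc 1 N, f (Real.logb g ((n : ℝ) ^ x)) =
        ∑ n ∈ Finset.Icc 1 N, f (x / Real.log g * Real.log n) := by
      refine Finset.sum_congr rfl fun n hn => ?_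
      have hn1 : 1 ≤ n := (Finset.mem_Icc.1 hn).1
      have hn0 : (0 : ℝ) < n := by exact_mod_cast hn1
      congr 1
      rw [Real.logb, Real.log_rpow hn0]
      ring
    rw [h2]
    refine h1.trans (le_of_eq ?_)
    rw [← hV]
    ring
  have hE0 : ∀ x : ℝ, 0 ≤ E x := fun x => (abs_nonneg _).trans (hE x 0)
  have hright : 4 ^ q * |C| * (V * (N : ℝ) ^ s) ^ q * X ^ (1 + q * ε) =
      (4 * V) ^ q * (|C| * ((N : ℝ) ^ s) ^ q * X ^ (1 + q * ε)) := by
    rw [Real.mul_rpow (by norm_num) hV0, Real.mul_rpow hV0 hsN]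
    ring
  have hXp : 0 ≤ X ^ (1 + q * ε) := Real.rpow_nonneg hX0.le _
  have hR0 : 0 ≤ 4 ^ q * |C| * (V * (N : ℝ) ^ s) ^ q * X ^ (1 + q * ε) := by positivity
  by_cases hint : IntervalIntegrable (fun x => |∑ n ∈ Finset.Icc 1 N,
      f (Real.logb g ((n : ℝ) ^ x)) - N * ∫ u in (0 : ℝ)..1, f u| ^ q) volume X (2 * X)
  · have hEq : Continuous fun x => (4 * V) ^ q * E x ^ q :=
      continuous_const.mul (hEc.rpow_const fun x => Or.inr hq0.le)
    calc ∫ x in X..(2 * X), |∑ n ∈ Finset.Icc 1 N, f (Real.logb g ((n : ℝ) ^ x)) -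
          N * ∫ u in (0 : ℝ)..1, f u| ^ q
        ≤ ∫ x in X..(2 * X), (4 * V) ^ q * E x ^ q := by
          refine intervalIntegral.integral_mono_on (by linarith) hint
            (hEq.intervalIntegrable _ _) fun x _ => ?_
          rw [← Real.mul_rpow (by positivity) (hE0 x)]
          exact Real.rpow_le_rpow (abs_nonneg _) (hpt x) hq0.le
      _ = (4 * V) ^ q * ∫ x in X..(2 * X), E x ^ q := intervalIntegral.integral_const_mul _ _
      _ ≤ (4 * V) ^ q * (C * ((N : ℝ) ^ s) ^ q * X ^ (1 + q * ε)) := by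
          refine mul_le_mul_of_nonneg_left hEI ?_
          positivity
      _ ≤ (4 * V) ^ q * (|C| * ((N : ℝ) ^ s) ^ q * X ^ (1 + q * ε)) := by
          gcongr
          exact le_abs_self C
      _ = _ := hright.symm
  · rw [intervalIntegral.integral_undef hint]
    exact hR0

/-- All statistics of bounded variation, pointwise and in the mean of order q. -/
theorem p_SBV : V_KOKG → S_BV := fun hK => ⟨SBV_one hK, SBV_two hK⟩

end Pool.Agent.Ben
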