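import Pool.Agent.Ben.Targets10
import Pool.Agent.Ben.P_VDIGB

/-!
# Block SDB: one digit, one-sided, error exponent `s`, pointwise and in the mean of order `q`
-/

set_option autoImplicit false

namespace Pool.Agent.Ben

open Complex MeasureTheory Set

lemma SDB_pow (N : ℕ) (s q : ℝ) : ((N : ℝ) ^ s) ^ q = (N : ℝ) ^ (s * q) := by
  rw [← Real.rpow_mul (Nat.cast_nonneg N)]

lemma SDB_negper (j d : ℕ) : Function.Periodic (fun y => - VDIGB_f j d y) 1 := by
  intro y
  show - VDIGB_f j d (y + 1) = - VDIGB_f j d y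
  rw [VDIGB_per j d y]

lemma SDB_negbdd (j d : ℕ) (y : ℝ) : |(fun y => - VDIGB_f j d y) y| ≤ 1 := by
  show |- VDIGB_f j d y| ≤ 1
  rw [abs_neg]
  exact VDIGB_bdd j d y

lemma SDB_nonconst {j d : ℕ} (hd : d ≤ 9) (hjd : j = 0 → 1 ≤ d) :
    ¬ (∃ c : ℝ, ∀ᵐ y, VDIGB_f j d y = c) := by
  rintro ⟨c, hc⟩
  exact VDIGB_nonconst hd hjd c hc

lemma SDB_negnonconst {j d : ℕ} (hd : d ≤ 9) (hjd : j = 0 → 1 ≤ d) :
    ¬ (∃ c : ℝ, ∀ᵐ y, (fun y => - VDIGB_f j d y) y = c) := by
  rintro ⟨c, hc⟩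
  refine VDIGB_nonconst hd hjd (-c) ?_
  filter_upwards [hc] with y hy
  rw [← hy, neg_neg]

theorem p_SDB : S_DB := by
  intro j d β s a hd hjd
  refine ⟨?_, ?_⟩
  · intro h
    rcases h with h | h
    · refine ⟨VDIGB_f j d, VDIGB_meas j d, VDIGB_per j d, VDIGB_bdd j d,
        SDB_nonconst hd hjd, ?_⟩
      intro ε hε
      obtain ⟨C, hC⟩ := h ε hε
      refine ⟨C, fun x h1 N hN hx => ?_⟩
      rw [VDIGB_count, VDIGB_integral]
      exact hC x h1 N hN hx
    · refine ⟨fun y => - VDIGB_f j d y, (VDIGB_meas j d).neg, SDB_negper j d, SDB_negbdd j d,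
        SDB_negnonconst hd hjd, ?_⟩
      intro ε hε
      obtain ⟨C, hC⟩ := h ε hε
      refine ⟨C, fun x h1 N hN hx => ?_⟩
      rw [Finset.sum_neg_distrib, VDIGB_count, intervalIntegral.integral_neg, VDIGB_integral]
      have := hC x h1 N hN hx
      linarith
  · intro q h
    rcases h with h | h
    · refine ⟨VDIGB_f j d, VDIGB_meas j d, VDIGB_per j d, VDIGB_bdd j d,
        SDB_nonconst hd hjd, ?_⟩
      intro ε hε
      obtain ⟨C, hC⟩ := h ε hε
      refine ⟨C, fun X h1 N hN hX => ?_⟩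
      have e : (fun x : ℝ => (max (∑ n ∈ Finset.Icc 1 N, VDIGB_f j d (Real.logb 10 ((n : ℝ) ^ x)) -
          N * ∫ u in (0 : ℝ)..1, VDIGB_f j d u) 0) ^ q) =
          fun x : ℝ => (max ((dcount j d x N : ℝ) - N * benf j d) 0) ^ q := by
        funext x
        rw [VDIGB_count, VDIGB_integral]
      rw [e, ← SDB_pow]
      exact hC X h1 N hN hX
    · refine ⟨fun y => - VDIGB_f j d y, (VDIGB_meas j d).neg, SDB_negper j d, SDB_negbdd j d,
        SDB_negnonconst hd hjd, ?_⟩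
      intro ε hε
      obtain ⟨C, hC⟩ := h ε hε
      refine ⟨C, fun X h1 N hN hX => ?_⟩
      have e : (fun x : ℝ => (max (∑ n ∈ Finset.Icc 1 N,
          (fun y => - VDIGB_f j d y) (Real.logb 10 ((n : ℝ) ^ x)) -
          N * ∫ u in (0 : ℝ)..1, (fun y => - VDIGB_f j d y) u) 0) ^ q) =
          fun x : ℝ => (max (N * benf j d - (dcount j d x N : ℝ)) 0) ^ q := by
        funext x
        simp only
        rw [Finset.sum_neg_distrib, VDIGB_count, intervalIntegral.integral_neg, VDIGB_integral]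
        congr 2
        ring
      rw [e, ← SDB_pow]
      exact hC X h1 N hN hX

end Pool.Agent.Ben
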