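import Pool.Agent.Ben.Targets10
import Pool.Agent.Ben.P_FWD

set_option autoImplicit false

/-!
# All lines: exponential sums give the discrepancy of `t log n` (block SDP)
-/

namespace Pool.Agent.Ben

open Complex MeasureTheory Set

private lemma SDP_main (hET : T_ET) (hphi : T_PHI) (hsaw : T_SAW) (s : ℝ) (hs1 : 1 / 2 ≤ s)
    (hs2 : s < 1) (hE : EP s 0) (ε : ℝ) (hε : 0 < ε) (K : ℝ) (hK : 0 < K) :
    ∃ C : ℝ, 0 ≤ C ∧ ∀ t : ℝ, 1 ≤ t → ∀ N : ℕ, 1 ≤ N → (N : ℝ) ≤ K * t →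
    ∀ c : ℝ, |∑ n ∈ Finset.Icc 1 N, psi (t * Real.log n + c)| ≤ C * (N : ℝ) ^ s * t ^ ε := by
  obtain ⟨C, hC⟩ := hE (min ε 1 / 4) (by positivity) K hK
  set η : ℝ := min ε 1 / 4 with hη
  have hη0 : 0 < η := by positivity
  have hη1 : η ≤ 1 / 4 := by
    have := min_le_right ε 1
    rw [hη]
    linarith
  have hηε : 2 * η ≤ ε := by
    have := min_le_left ε 1
    rw [hη]
    have : (0 : ℝ) < min ε 1 := by positivity
    linarith
  have hsum : Summable (fun h : ℕ => ((h : ℝ) + 1) ^ (-(1 + η))) := by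
    have h1 : Summable (fun h : ℕ => (h : ℝ) ^ (-(1 + η))) :=
      Real.summable_nat_rpow.2 (by linarith)
    have h2 := (summable_nat_add_iff 1).2 h1
    refine h2.congr fun h => ?_
    push_cast
    rfl
  set Z : ℝ := ∑' h : ℕ, ((h : ℝ) + 1) ^ (-(1 + η)) with hZ
  have hZ0 : 0 ≤ Z := tsum_nonneg fun h => by positivity
  refine ⟨1 / 2 + |C| * (2 * Real.pi) ^ η * K ^ η * Z, by positivity, ?_⟩
  intro t ht N hN hNK c
  have ht0 : 0 < t := by linarith
  have hN0 : (0 : ℝ) < N := by exact_mod_cast hN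
  have hN1 : (1 : ℝ) ≤ N := by exact_mod_cast hN
  obtain ⟨r, hr⟩ : ∃ r : ℝ, r = (N : ℝ) ^ s := ⟨_, rfl⟩
  obtain ⟨δ, hδ⟩ : ∃ δ : ℝ, δ = (N : ℝ) ^ (s - 1) := ⟨_, rfl⟩
  have hr0 : 0 < r := by rw [hr]; positivity
  have hpi := Real.pi_gt_three
  have hδ0 : 0 < δ := by rw [hδ]; positivity
  have hδ1 : δ ≤ 1 := by
    rw [hδ]
    exact Real.rpow_le_one_of_one_le_of_nonpos hN1 (by linarith)
  have key := hET hphi hsaw N (fun n => t * Real.log n) c δ hδ0 hδ1
  have hδN : (N : ℝ) * δ / 2 = 1 / 2 * r := by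
    have : (N : ℝ) * δ = r := by
      rw [hδ, hr, Real.rpow_sub_one hN0.ne']
      field_simp
    rw [this]
    ring
  rw [← hr]
  -- the bound for one frequency
  have hterm : ∀ h : ℕ, min (1 / (Real.pi * (h + 1)))
      (1 / (Real.pi ^ 2 * (h + 1) ^ 2 * δ)) *
        ‖∑ n ∈ Finset.Icc 1 N, e ((h + 1) * (t * Real.log n))‖ ≤
      (|C| * (2 * Real.pi) ^ η * K ^ η * r * t ^ (2 * η)) *
        ((h : ℝ) + 1) ^ (-(1 + η)) := by
    intro h
    have hH1 : (1 : ℝ) ≤ h + 1 := by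
      have : (0 : ℝ) ≤ h := Nat.cast_nonneg h
      linarith
    have hH0 : (0 : ℝ) < h + 1 := by linarith
    have h1 := FWD_min (h + 1) δ (2 * η) hH1 hδ0 (by linarith) (by linarith)
    have hT : t ≤ 2 * Real.pi * (h + 1) * t := by
      have : 1 ≤ 2 * Real.pi * ((h : ℝ) + 1) := by nlinarith
      nlinarith
    have h2 := hC (2 * Real.pi * (h + 1) * t) (ht.trans hT) N hN
      (hNK.trans (mul_le_mul_of_nonneg_left hT hK.le))
    rw [zero_add, ← hr] at h2
    rw [FWD_norm]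
    have h3 : ‖∑ n ∈ Finset.Icc 1 N,
        (n : ℂ) ^ (-((2 * Real.pi * (h + 1) * t : ℝ) * I) : ℂ)‖ ≤
        |C| * r * ((2 * Real.pi) ^ η * ((h : ℝ) + 1) ^ η * t ^ η) := by
      refine h2.trans ?_
      rw [Real.mul_rpow (by positivity) ht0.le, Real.mul_rpow (by positivity) hH0.le]
      have : C * r ≤ |C| * r :=
        mul_le_mul_of_nonneg_right (le_abs_self C) hr0.le
      exact mul_le_mul_of_nonneg_right this (by positivity)
    have h4 : δ ^ (-(2 * η)) ≤ K ^ η * t ^ η := by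
      rw [hδ, ← Real.rpow_mul hN0.le, ← Real.mul_rpow hK.le ht0.le]
      refine le_trans ?_ (Real.rpow_le_rpow hN0.le hNK hη0.le)
      refine Real.rpow_le_rpow_of_exponent_le hN1 ?_
      nlinarith
    have h5 : (0 : ℝ) ≤ ((h : ℝ) + 1) ^ (-(1 + 2 * η)) := by positivity
    calc _ ≤ (((h : ℝ) + 1) ^ (-(1 + 2 * η)) * δ ^ (-(2 * η))) *
          (|C| * r * ((2 * Real.pi) ^ η * ((h : ℝ) + 1) ^ η * t ^ η)) := by
            refine mul_le_mul h1 h3 (norm_nonneg _) (by positivity)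
      _ ≤ (((h : ℝ) + 1) ^ (-(1 + 2 * η)) * (K ^ η * t ^ η)) *
          (|C| * r * ((2 * Real.pi) ^ η * ((h : ℝ) + 1) ^ η * t ^ η)) := by
            refine mul_le_mul_of_nonneg_right (mul_le_mul_of_nonneg_left h4 h5) (by positivity)
      _ = (|C| * (2 * Real.pi) ^ η * K ^ η * r * (t ^ η * t ^ η)) *
          (((h : ℝ) + 1) ^ (-(1 + 2 * η)) * ((h : ℝ) + 1) ^ η) := by ring
      _ = _ := by
            rw [← Real.rpow_add ht0, ← Real.rpow_add hH0]
            congr 2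
            · congr 1
              ring
            · ring
  have hsum2 := hsum.mul_left (|C| * (2 * Real.pi) ^ η * K ^ η * r * t ^ (2 * η))
  have hsum1 : Summable (fun h : ℕ => min (1 / (Real.pi * (h + 1)))
      (1 / (Real.pi ^ 2 * (h + 1) ^ 2 * δ)) *
        ‖∑ n ∈ Finset.Icc 1 N, e ((h + 1) * (t * Real.log n))‖) := by
    refine Summable.of_nonneg_of_le (fun h => ?_) hterm hsum2
    have : (0 : ℝ) ≤ h := Nat.cast_nonneg h
    refine mul_nonneg (le_min (by positivity) (by positivity)) (norm_nonneg _)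
  have htot := hsum1.tsum_le_tsum hterm hsum2
  rw [tsum_mul_left] at htot
  have ht1 : t ^ (2 * η) ≤ t ^ ε := Real.rpow_le_rpow_of_exponent_le ht hηε
  have ht2 : 1 ≤ t ^ ε := Real.one_le_rpow ht hε.le
  rw [hδN] at key
  refine key.trans ((add_le_add_right htot _).trans ?_)
  have f1 : 1 / 2 * r ≤ 1 / 2 * r * t ^ ε :=
    le_mul_of_one_le_right (by positivity) ht2
  have f2 : |C| * (2 * Real.pi) ^ η * K ^ η * r * t ^ (2 * η) * Z ≤
      |C| * (2 * Real.pi) ^ η * K ^ η * r * t ^ ε * Z :=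
    mul_le_mul_of_nonneg_right (mul_le_mul_of_nonneg_left ht1 (by positivity)) hZ0
  calc _ ≤ 1 / 2 * r * t ^ ε +
        |C| * (2 * Real.pi) ^ η * K ^ η * r * t ^ ε * Z := add_le_add f1 f2
    _ = _ := by ring

private lemma SDP_psi (y : ℝ) : |psi y| ≤ 1 := by
  unfold psi
  rw [abs_le]
  constructor
  · linarith [Int.fract_nonneg y]
  · linarith [Int.fract_lt_one y]

/-- SDP -/
theorem p_SDP : T_PHI → T_SAW → T_ET → S_DP := by
  intro hphi hsaw hET s hs1 hs2 hE g hg ε hε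
  have hL : 0 < Real.log g := Real.log_pos hg
  obtain ⟨C, hC0, hC⟩ := SDP_main hET hphi hsaw s hs1 hs2 hE ε hε (Real.log g) hL
  refine ⟨C * (Real.log g) ^ (-ε) + (Real.log g) ^ (1 - s), ?_⟩
  intro x N hN hNx c
  have hN0 : (0 : ℝ) < N := by exact_mod_cast hN
  have hN1 : (1 : ℝ) ≤ N := by exact_mod_cast hN
  have hx1 : 1 ≤ x := hN1.trans hNx
  have hx0 : 0 < x := by linarith
  have hNs : 0 ≤ (N : ℝ) ^ s := by positivity
  have hxe : 1 ≤ x ^ ε := Real.one_le_rpow hx1 hε.le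
  have hA : 0 ≤ C * (Real.log g) ^ (-ε) * (N : ℝ) ^ s * x ^ ε := by positivity
  have hB : 0 ≤ (Real.log g) ^ (1 - s) * (N : ℝ) ^ s * x ^ ε := by positivity
  have hsplit : (C * (Real.log g) ^ (-ε) + (Real.log g) ^ (1 - s)) * (N : ℝ) ^ s * x ^ ε =
      C * (Real.log g) ^ (-ε) * (N : ℝ) ^ s * x ^ ε +
        (Real.log g) ^ (1 - s) * (N : ℝ) ^ s * x ^ ε := by ring
  rw [hsplit]
  rcases le_or_gt 1 (x / Real.log g) with ht | ht
  · have h1 := hC (x / Real.log g) ht N hN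
      (by rw [mul_div_cancel₀ _ hL.ne']; exact hNx) c
    have h2 : (x / Real.log g) ^ ε = x ^ ε * (Real.log g) ^ (-ε) := by
      rw [Real.div_rpow hx0.le hL.le, Real.rpow_neg hL.le, div_eq_mul_inv]
    rw [h2] at h1
    have h3 : C * (N : ℝ) ^ s * (x ^ ε * (Real.log g) ^ (-ε)) =
        C * (Real.log g) ^ (-ε) * (N : ℝ) ^ s * x ^ ε := by ring
    linarith
  · have hxg : x < Real.log g := by
      rwa [div_lt_one hL] at ht
    have h1 : |∑ n ∈ Finset.Icc 1 N, psi (x / Real.log g * Real.log n + c)| ≤ N := by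
      refine (Finset.abs_sum_le_sum_abs _ _).trans ?_
      refine (Finset.sum_le_sum fun n _ => SDP_psi _).trans ?_
      simp
    have h2 : (N : ℝ) = (N : ℝ) ^ (1 - s) * (N : ℝ) ^ s := by
      rw [← Real.rpow_add hN0]
      simp
    have h3 : (N : ℝ) ^ (1 - s) ≤ (Real.log g) ^ (1 - s) :=
      Real.rpow_le_rpow hN0.le (hNx.trans hxg.le) (by linarith)
    have h4 : (N : ℝ) ^ (1 - s) * (N : ℝ) ^ s ≤ (Real.log g) ^ (1 - s) * (N : ℝ) ^ s :=
      mul_le_mul_of_nonneg_right h3 hNs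
    have h5 : (Real.log g) ^ (1 - s) * (N : ℝ) ^ s ≤
        (Real.log g) ^ (1 - s) * (N : ℝ) ^ s * x ^ ε :=
      le_mul_of_one_le_right (by positivity) hxe
    linarith

end Pool.Agent.Ben
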