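import Pool.Agent.Ben.Targets10
import Pool.Agent.Ben.P_FWD

/-!
# Ben, all lines, target `S_DQ`: sawtooth sums in the mean of order `q`
-/

set_option autoImplicit false

namespace Pool.Agent.Ben

open Complex MeasureTheory Set
open scoped ENNReal

private lemma SDQ_e_cont : Continuous e := by
  unfold e
  fun_prop

/-- Jensen's inequality -/
private lemma SDQ_jensen {q : ℝ} (hq : 1 ≤ q) (w y : ℕ → ℝ≥0∞) :
    (∑' h, w h * y h) ^ q ≤ (∑' h, w h) ^ (q - 1) * ∑' h, w h * y h ^ q := by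
  have hq0 : 0 < q := by linarith
  have h1 : ∑' h, w h * y h ≤ (∑' h, w h) ^ (1 - q⁻¹) * (∑' h, w h * y h ^ q) ^ q⁻¹ := by
    rw [ENNReal.tsum_eq_iSup_sum]
    refine iSup_le fun s => ?_
    refine (ENNReal.inner_le_weight_mul_Lp_of_nonneg s hq w y).trans ?_
    have h2 : 0 ≤ 1 - q⁻¹ := by
      have := inv_le_one_of_one_le₀ hq
      linarith
    gcongr
    · exact ENNReal.sum_le_tsum s
    · exact ENNReal.sum_le_tsum s
  calc (∑' h, w h * y h) ^ q
      ≤ ((∑' h, w h) ^ (1 - q⁻¹) * (∑' h, w h * y h ^ q) ^ q⁻¹) ^ q := by gcongr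
    _ = _ := by
        rw [ENNReal.mul_rpow_of_nonneg _ _ hq0.le, ← ENNReal.rpow_mul, ← ENNReal.rpow_mul]
        congr 1
        · congr 1
          field_simp
        · rw [inv_mul_cancel₀ hq0.ne', ENNReal.rpow_one]

private lemma SDQ_lint {φ : ℝ → ℝ} (hφ : Continuous φ) (h0 : ∀ x, 0 ≤ φ x) {X Y : ℝ}
    (h : X ≤ Y) :
    ENNReal.ofReal (∫ x in X..Y, φ x) = ∫⁻ x in Ioc X Y, ENNReal.ofReal (φ x) := by
  rw [intervalIntegral.integral_of_le h, ofReal_integral_eq_lintegral_ofReal]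
  · exact (hφ.integrableOn_Icc (a := X) (b := Y)).mono_set Ioc_subset_Icc_self
  · exact Filter.Eventually.of_forall h0

private lemma SDQ_norm_e (x : ℝ) : ‖e x‖ = 1 := by
  unfold e
  exact Complex.norm_exp_ofReal_mul_I _

private lemma SDQ_norm_le (N : ℕ) (z : ℕ → ℝ) : ‖∑ n ∈ Finset.Icc 1 N, e (z n)‖ ≤ N := by
  refine (norm_sum_le _ _).trans (le_of_eq ?_)
  simp [SDQ_norm_e]

private lemma SDQ_pow_add {q a b : ℝ} (hq : 0 ≤ q) (ha : 0 ≤ a) (hb : 0 ≤ b) :
    (a + b) ^ q ≤ 2 ^ q * (a ^ q + b ^ q) := by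
  have h1 : a + b ≤ 2 * max a b := by
    have h1 := le_max_left a b
    have h2 := le_max_right a b
    linarith
  have h2 : (max a b) ^ q ≤ a ^ q + b ^ q := by
    have e1 : 0 ≤ a ^ q := Real.rpow_nonneg ha _
    have e2 : 0 ≤ b ^ q := Real.rpow_nonneg hb _
    rcases le_total a b with h | h
    · rw [max_eq_right h]
      linarith
    · rw [max_eq_left h]
      linarith
  calc (a + b) ^ q ≤ (2 * max a b) ^ q := Real.rpow_le_rpow (by positivity) h1 hq
    _ = 2 ^ q * (max a b) ^ q := Real.mul_rpow (by norm_num) (le_max_of_le_left ha)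
    _ ≤ _ := mul_le_mul_of_nonneg_left h2 (by positivity)

/-- one frequency -/
private lemma SDQ_freq {q s b C₁ g X : ℝ} {N : ℕ} (hq : 0 < q) (hs1 : s < 1) (hb : 0 ≤ b)
    (hg : 0 < Real.log g) (hX1 : 1 ≤ X) (hN : 1 ≤ N) (hNX : (N : ℝ) ≤ X)
    (hE : ∀ T : ℝ, 1 ≤ T → ∀ N : ℕ, 1 ≤ N → (N : ℝ) ≤ Real.log g * T →
      ∫ t in T..(2 * T), ‖∑ n ∈ Finset.Icc 1 N, (n : ℂ) ^ (-(t * I) : ℂ)‖ ^ q ≤
        C₁ * ((N : ℝ) ^ s) ^ q * T ^ (1 + q * b)) {H : ℝ} (hH : 1 ≤ H) :
    ∫ x in X..(2 * X), (H ^ (-b) *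
      ‖∑ n ∈ Finset.Icc 1 N, e (H * (x / Real.log g * Real.log n))‖) ^ q ≤
      (|C₁| * ((2 * Real.pi / Real.log g) ^ b) ^ q + (Real.log g ^ (1 - s)) ^ q) *
        ((N : ℝ) ^ s) ^ q * X ^ (1 + q * b) := by
  have hpi := Real.pi_pos
  have hh0 : 0 < H := by linarith
  have hX0 : 0 < X := by linarith
  by_cases hX : Real.log g ≤ X
  · set l : ℝ := 2 * Real.pi * H / Real.log g with hl
    have hl0 : 0 < l := by positivity
    set F : ℝ → ℝ := fun t => ‖∑ n ∈ Finset.Icc 1 N, (n : ℂ) ^ (-(t * I) : ℂ)‖ ^ q with hF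
    have h1 : ∀ x : ℝ, (H ^ (-b) *
        ‖∑ n ∈ Finset.Icc 1 N, e (H * (x / Real.log g * Real.log n))‖) ^ q =
        H ^ (-(b * q)) * F (l * x) := by
      intro x
      rw [Real.mul_rpow (by positivity) (norm_nonneg _), ← Real.rpow_mul hh0.le,
        FWD_norm, hF]
      congr 1
      · congr 1
        ring
      · have : 2 * Real.pi * H * (x / Real.log g) = l * x := by
          rw [hl]
          ring
        rw [this]
    simp_rw [h1]
    rw [intervalIntegral.integral_const_mul, intervalIntegral.integral_comp_mul_left F hl0.ne']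
    have hT : X ≤ l * X * Real.log g := by
      have h3 : (3 : ℝ) < Real.pi := Real.pi_gt_three
      have h4 : 1 ≤ 2 * Real.pi * H := by nlinarith
      have h5 : l * X * Real.log g = 2 * Real.pi * H * X := by
        rw [hl]
        field_simp
      rw [h5]
      nlinarith
    have hT1 : 1 ≤ l * X := by
      by_contra hlt
      push Not at hlt
      have : l * X * Real.log g < 1 * Real.log g := by gcongr
      linarith
    have h2 := hE (l * X) hT1 N hN (by linarith)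
    have h3 : l * (2 * X) = 2 * (l * X) := by ring
    rw [h3, smul_eq_mul]
    have h4 : H ^ (-(b * q)) * (l⁻¹ * (C₁ * ((N : ℝ) ^ s) ^ q * (l * X) ^ (1 + q * b))) =
        C₁ * (((2 * Real.pi / Real.log g) ^ b) ^ q * ((N : ℝ) ^ s) ^ q * X ^ (1 + q * b)) := by
      have h5 : (l * X) ^ (1 + q * b) = l * (l ^ (q * b)) * X ^ (1 + q * b) := by
        rw [Real.mul_rpow hl0.le (by linarith), Real.rpow_add hl0, Real.rpow_one]
      have h6 : l ^ (q * b) = ((2 * Real.pi / Real.log g) ^ b) ^ q * H ^ (b * q) := by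
        rw [← Real.rpow_mul (by positivity), mul_comm q b, ← Real.mul_rpow (by positivity) hh0.le]
        congr 1
        rw [hl]
        ring
      have h7 : H ^ (-(b * q)) * H ^ (b * q) = 1 := by
        rw [← Real.rpow_add hh0]
        simp
      rw [h5, h6]
      calc _ = (H ^ (-(b * q)) * H ^ (b * q)) * (l⁻¹ * l) *
            (C₁ * (((2 * Real.pi / Real.log g) ^ b) ^ q * ((N : ℝ) ^ s) ^ q *
              X ^ (1 + q * b))) := by ring
        _ = _ := by rw [h7, inv_mul_cancel₀ hl0.ne', one_mul, one_mul]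
    calc H ^ (-(b * q)) * (l⁻¹ * ∫ x in (l * X)..(2 * (l * X)), F x)
        ≤ H ^ (-(b * q)) * (l⁻¹ * (C₁ * ((N : ℝ) ^ s) ^ q * (l * X) ^ (1 + q * b))) := by
          gcongr
      _ = C₁ * (((2 * Real.pi / Real.log g) ^ b) ^ q * ((N : ℝ) ^ s) ^ q * X ^ (1 + q * b)) := h4
      _ ≤ |C₁| * (((2 * Real.pi / Real.log g) ^ b) ^ q * ((N : ℝ) ^ s) ^ q * X ^ (1 + q * b)) := by
          gcongr
          exact le_abs_self _
      _ = |C₁| * ((2 * Real.pi / Real.log g) ^ b) ^ q * ((N : ℝ) ^ s) ^ q * X ^ (1 + q * b) := by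
          ring
      _ ≤ _ := by
          gcongr
          have : 0 ≤ (Real.log g ^ (1 - s)) ^ q := by positivity
          linarith
  · push Not at hX
    have hc : Continuous fun x : ℝ => (H ^ (-b) *
        ‖∑ n ∈ Finset.Icc 1 N, e (H * (x / Real.log g * Real.log n))‖) ^ q := by
      have h0 := SDQ_e_cont
      have h1 : Continuous fun x : ℝ =>
          ∑ n ∈ Finset.Icc 1 N, e (H * (x / Real.log g * Real.log n)) := by fun_prop
      exact (continuous_const.mul h1.norm).rpow_const fun x => Or.inr hq.le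
    have h1 : ∫ x in X..(2 * X), (H ^ (-b) *
        ‖∑ n ∈ Finset.Icc 1 N, e (H * (x / Real.log g * Real.log n))‖) ^ q ≤
        ∫ x in X..(2 * X), (((N : ℝ) ^ s) * (Real.log g ^ (1 - s))) ^ q := by
      refine intervalIntegral.integral_mono_on (by linarith) (hc.intervalIntegrable _ _)
        (by simp) fun x _ => ?_
      have e1 : H ^ (-b) ≤ 1 := Real.rpow_le_one_of_one_le_of_nonpos hH (by linarith)
      have e2 := SDQ_norm_le N fun n => H * (x / Real.log g * Real.log n)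
      have e3 : (N : ℝ) ^ (1 - s) ≤ Real.log g ^ (1 - s) :=
        Real.rpow_le_rpow (by positivity) (hNX.trans hX.le) (by linarith)
      have e4 : (N : ℝ) = (N : ℝ) ^ s * (N : ℝ) ^ (1 - s) := by
        rw [← Real.rpow_add (by exact_mod_cast hN)]
        simp
      refine Real.rpow_le_rpow (by positivity) ?_ hq.le
      calc H ^ (-b) * ‖∑ n ∈ Finset.Icc 1 N, e (H * (x / Real.log g * Real.log n))‖
          ≤ 1 * N := mul_le_mul e1 e2 (norm_nonneg _) zero_le_one
        _ = (N : ℝ) ^ s * (N : ℝ) ^ (1 - s) := by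
            rw [one_mul]
            exact e4
        _ ≤ _ := by gcongr
    rw [intervalIntegral.integral_const, smul_eq_mul] at h1
    refine h1.trans ?_
    have h3 : X ≤ X ^ (1 + q * b) := by
      calc X = X ^ (1 : ℝ) := (Real.rpow_one X).symm
        _ ≤ _ := Real.rpow_le_rpow_of_exponent_le hX1 (by
            have : 0 ≤ q * b := by positivity
            linarith)
    calc (2 * X - X) * (((N : ℝ) ^ s) * (Real.log g ^ (1 - s))) ^ q
        = (Real.log g ^ (1 - s)) ^ q * ((N : ℝ) ^ s) ^ q * X := by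
          rw [Real.mul_rpow (by positivity) (Real.rpow_nonneg hg.le _)]
          ring
      _ ≤ (Real.log g ^ (1 - s)) ^ q * ((N : ℝ) ^ s) ^ q * X ^ (1 + q * b) := by gcongr
      _ ≤ _ := by
          gcongr
          have : 0 ≤ |C₁| * ((2 * Real.pi / Real.log g) ^ b) ^ q := by positivity
          linarith

theorem p_SDQ : T_PHI → T_SAW → T_ET → S_DQ := by
  intro hPHI hSAW hET q s hq hs hs1 hE g hg ε hε
  set b : ℝ := min (ε / 4) (1 / 8) with hb
  have hb0 : 0 < b := lt_min (by linarith) (by norm_num)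
  have hbε : b ≤ ε / 4 := min_le_left _ _
  have hb8 : b ≤ 1 / 8 := min_le_right _ _
  have hq0 : 0 < q := by linarith
  have hlg : 0 < Real.log g := Real.log_pos hg
  have hpi := Real.pi_pos
  obtain ⟨C₁, hC₁⟩ := hE b hb0 (Real.log g) hlg
  rw [zero_add] at hC₁
  have hsum : Summable (fun h : ℕ => ((h : ℝ) + 1) ^ (-(1 + b))) := by
    have h1 : Summable (fun h : ℕ => (h : ℝ) ^ (-(1 + b))) :=
      Real.summable_nat_rpow.2 (by linarith)
    have h2 := (summable_nat_add_iff 1).2 h1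
    refine h2.congr fun h => ?_
    push_cast
    rfl
  set Z : ℝ := ∑' h : ℕ, ((h : ℝ) + 1) ^ (-(1 + b)) with hZ
  have hZ0 : 0 ≤ Z := tsum_nonneg fun h => by positivity
  set K₁ : ℝ := |C₁| * ((2 * Real.pi / Real.log g) ^ b) ^ q + (Real.log g ^ (1 - s)) ^ q with hK₁
  have hK0 : 0 ≤ K₁ := by positivity
  refine ⟨2 ^ q * ((1 / 2) ^ q + Z ^ q * K₁), ?_⟩
  intro X hX1 N hN hNX
  have hX0 : 0 < X := by linarith
  have hN0 : (0 : ℝ) < N := by exact_mod_cast hN
  have hN1 : (1 : ℝ) ≤ N := by exact_mod_cast hN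
  have hs0 : 0 < (N : ℝ) ^ s := Real.rpow_pos_of_pos hN0 _
  have hδ0 : 0 < (N : ℝ) ^ (s - 1) := Real.rpow_pos_of_pos hN0 _
  have hδ1 : (N : ℝ) ^ (s - 1) ≤ 1 :=
    Real.rpow_le_one_of_one_le_of_nonpos hN1 (by linarith)
  have hδN : (N : ℝ) * (N : ℝ) ^ (s - 1) / 2 = 1 / 2 * (N : ℝ) ^ s := by
    have : (N : ℝ) * (N : ℝ) ^ (s - 1) = (N : ℝ) ^ s := by
      nth_rewrite 1 [← Real.rpow_one (N : ℝ)]
      rw [← Real.rpow_add hN0]
      congr 1
      ring
    rw [this]
    ring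
  set c : ℕ → ℝ := fun h => min (1 / (Real.pi * (h + 1)))
      (1 / (Real.pi ^ 2 * (h + 1) ^ 2 * ((N : ℝ) ^ (s - 1)))) with hc
  set S : ℕ → ℝ → ℝ := fun h x =>
    ‖∑ n ∈ Finset.Icc 1 N, e ((h + 1) * (x / Real.log g * Real.log n))‖ with hS
  have hc0 : ∀ h, 0 ≤ c h := by
    intro h
    have : (0 : ℝ) ≤ h := Nat.cast_nonneg h
    exact le_min (by positivity) (by positivity)
  have hS0 : ∀ h x, 0 ≤ S h x := fun h x => norm_nonneg _
  have hSN : ∀ h x, S h x ≤ N := fun h x => SDQ_norm_le N _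
  have hSc : ∀ h, Continuous (S h) := by
    intro h
    have h0 := SDQ_e_cont
    have h1 : Continuous fun x : ℝ =>
        ∑ n ∈ Finset.Icc 1 N, e (((h : ℝ) + 1) * (x / Real.log g * Real.log n)) := by fun_prop
    exact h1.norm
  -- the weights
  have hcw : ∀ h : ℕ, c h ≤ ((h : ℝ) + 1) ^ (-(1 + 2 * b)) * (N : ℝ) ^ b := by
    intro h
    have hH1 : (1 : ℝ) ≤ h + 1 := by
      have : (0 : ℝ) ≤ h := Nat.cast_nonneg h
      linarith
    have h1 := FWD_min (h + 1) ((N : ℝ) ^ (s - 1)) (2 * b) hH1 hδ0 (by linarith) (by linarith)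
    have h4 : ((N : ℝ) ^ (s - 1)) ^ (-(2 * b)) ≤ (N : ℝ) ^ b := by
      rw [← Real.rpow_mul hN0.le]
      refine Real.rpow_le_rpow_of_exponent_le hN1 ?_
      nlinarith [mul_nonneg hb0.le (by linarith : 0 ≤ 2 * s - 1)]
    exact h1.trans (mul_le_mul_of_nonneg_left h4 (by positivity))
  have hcs : ∀ h : ℕ, c h ≤ ((h : ℝ) + 1) ^ (-(1 + b)) * (N : ℝ) ^ b := by
    intro h
    refine (hcw h).trans ?_
    have hH1 : (1 : ℝ) ≤ h + 1 := by
      have : (0 : ℝ) ≤ h := Nat.cast_nonneg h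
      linarith
    exact mul_le_mul_of_nonneg_right
      (Real.rpow_le_rpow_of_exponent_le hH1 (by linarith)) (by positivity)
  have hFs : ∀ x, Summable fun h => c h * S h x := by
    intro x
    refine Summable.of_nonneg_of_le (fun h => mul_nonneg (hc0 h) (hS0 h x)) (fun h => ?_)
      ((hsum.mul_right ((N : ℝ) ^ b)).mul_right (N : ℝ))
    exact mul_le_mul (hcs h) (hSN h x) (hS0 h x) (by positivity)
  set F : ℝ → ℝ := fun x => ∑' h, c h * S h x with hF
  have hF0 : ∀ x, 0 ≤ F x := fun x => tsum_nonneg fun h => mul_nonneg (hc0 h) (hS0 h x)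
  have hFc : Continuous F := by
    refine continuous_tsum (fun h => continuous_const.mul (hSc h))
      ((hsum.mul_right ((N : ℝ) ^ b)).mul_right (N : ℝ)) fun h x => ?_
    rw [Real.norm_eq_abs, abs_of_nonneg (mul_nonneg (hc0 h) (hS0 h x))]
    exact mul_le_mul (hcs h) (hSN h x) (hS0 h x) (by positivity)
  refine ⟨fun x => 1 / 2 * (N : ℝ) ^ s + F x, continuous_const.add hFc, ?_, ?_⟩
  · intro x t
    have key := hET hPHI hSAW N (fun n => x / Real.log g * Real.log n) t ((N : ℝ) ^ (s - 1)) hδ0 hδ1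
    rw [hδN] at key
    exact key
  -- the mean of order `q` of `F`
  set w : ℕ → ℝ≥0∞ := fun h => ENNReal.ofReal (c h * ((h : ℝ) + 1) ^ b) with hw
  set Y : ℕ → ℝ → ℝ≥0∞ := fun h x => ENNReal.ofReal (((h : ℝ) + 1) ^ (-b) * S h x) with hY
  have hwsum : ∑' h, w h ≤ ENNReal.ofReal (Z * X ^ b) := by
    have h1 : ∀ h : ℕ, c h * ((h : ℝ) + 1) ^ b ≤ ((h : ℝ) + 1) ^ (-(1 + b)) * X ^ b := by
      intro h
      have hH0 : (0 : ℝ) < h + 1 := by positivity
      have e1 : ((h : ℝ) + 1) ^ (-(1 + 2 * b)) * ((h : ℝ) + 1) ^ b =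
          ((h : ℝ) + 1) ^ (-(1 + b)) := by
        rw [← Real.rpow_add hH0]
        congr 1
        ring
      calc c h * ((h : ℝ) + 1) ^ b
          ≤ (((h : ℝ) + 1) ^ (-(1 + 2 * b)) * (N : ℝ) ^ b) * ((h : ℝ) + 1) ^ b :=
            mul_le_mul_of_nonneg_right (hcw h) (by positivity)
        _ = (((h : ℝ) + 1) ^ (-(1 + 2 * b)) * ((h : ℝ) + 1) ^ b) * (N : ℝ) ^ b := by ring
        _ = ((h : ℝ) + 1) ^ (-(1 + b)) * (N : ℝ) ^ b := by rw [e1]
        _ ≤ _ := by gcongr
    have h2 : Summable fun h : ℕ => ((h : ℝ) + 1) ^ (-(1 + b)) * X ^ b := hsum.mul_right _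
    calc ∑' h, w h ≤ ∑' h : ℕ, ENNReal.ofReal (((h : ℝ) + 1) ^ (-(1 + b)) * X ^ b) :=
          ENNReal.tsum_le_tsum fun h => ENNReal.ofReal_le_ofReal (h1 h)
      _ = ENNReal.ofReal (∑' h : ℕ, ((h : ℝ) + 1) ^ (-(1 + b)) * X ^ b) :=
          (ENNReal.ofReal_tsum_of_nonneg (fun h => by positivity) h2).symm
      _ = _ := by rw [tsum_mul_right]
  have hpt : ∀ x, ENNReal.ofReal (F x) = ∑' h, w h * Y h x := by
    intro x
    rw [hF, ENNReal.ofReal_tsum_of_nonneg (fun h => mul_nonneg (hc0 h) (hS0 h x)) (hFs x)]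
    refine tsum_congr fun h => ?_
    have hH0 : (0 : ℝ) < h + 1 := by positivity
    rw [hw, hY]
    simp only
    rw [← ENNReal.ofReal_mul (mul_nonneg (hc0 h) (by positivity))]
    congr 1
    have h7 : ((h : ℝ) + 1) ^ b * ((h : ℝ) + 1) ^ (-b) = 1 := by
      rw [← Real.rpow_add hH0]
      simp
    calc c h * S h x = c h * (((h : ℝ) + 1) ^ b * ((h : ℝ) + 1) ^ (-b)) * S h x := by
          rw [h7, mul_one]
      _ = _ := by ring
  have hYm : ∀ h, Measurable (Y h) := by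
    intro h
    exact ENNReal.measurable_ofReal.comp (continuous_const.mul (hSc h)).measurable
  set B : ℝ := K₁ * ((N : ℝ) ^ s) ^ q * X ^ (1 + q * b) with hB
  have hB0 : 0 ≤ B := by positivity
  have hfreq : ∀ h, w h * ∫⁻ x in Ioc X (2 * X), Y h x ^ q ≤ w h * ENNReal.ofReal B := by
    intro h
    gcongr
    have hH1 : (1 : ℝ) ≤ h + 1 := by
      have : (0 : ℝ) ≤ h := Nat.cast_nonneg h
      linarith
    have h1 := SDQ_freq hq0 hs1 hb0.le hlg hX1 hN hNX hC₁ hH1
    have h2 : ∀ x, Y h x ^ q = ENNReal.ofReal ((((h : ℝ) + 1) ^ (-b) * S h x) ^ q) := by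
      intro x
      rw [hY]
      exact ENNReal.ofReal_rpow_of_nonneg (mul_nonneg (by positivity) (hS0 h x)) hq0.le
    simp_rw [h2]
    rw [← SDQ_lint _ (fun x => Real.rpow_nonneg (mul_nonneg (by positivity) (hS0 h x)) _)
      (by linarith)]
    · exact ENNReal.ofReal_le_ofReal h1
    · exact (continuous_const.mul (hSc h)).rpow_const fun x => Or.inr hq0.le
  have hFq : Continuous fun x => F x ^ q := hFc.rpow_const fun x => Or.inr hq0.le
  have htot : ENNReal.ofReal (∫ x in X..(2 * X), F x ^ q) ≤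
      ENNReal.ofReal ((Z * X ^ b) ^ q * B) := by
    rw [SDQ_lint hFq (fun x => Real.rpow_nonneg (hF0 x) _) (by linarith)]
    have hmeas : Measurable fun x => ∑' h, w h * Y h x ^ q :=
      Measurable.ennreal_tsum fun h => ((hYm h).pow_const q).const_mul _
    calc ∫⁻ x in Ioc X (2 * X), ENNReal.ofReal (F x ^ q)
        ≤ ∫⁻ x in Ioc X (2 * X), (∑' h, w h) ^ (q - 1) * ∑' h, w h * Y h x ^ q := by
          refine lintegral_mono fun x => ?_
          rw [← ENNReal.ofReal_rpow_of_nonneg (hF0 x) hq0.le, hpt x]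
          exact SDQ_jensen hq _ _
      _ = (∑' h, w h) ^ (q - 1) * ∑' h, w h * ∫⁻ x in Ioc X (2 * X), Y h x ^ q := by
          rw [lintegral_const_mul _ hmeas, lintegral_tsum fun h =>
            (((hYm h).pow_const q).const_mul _).aemeasurable]
          congr 1
          refine tsum_congr fun h => ?_
          rw [lintegral_const_mul _ ((hYm h).pow_const q)]
      _ ≤ (∑' h, w h) ^ (q - 1) * ∑' h, w h * ENNReal.ofReal B := by
          exact mul_le_mul' le_rfl (ENNReal.tsum_le_tsum fun h => hfreq h)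
      _ = (∑' h, w h) ^ q * ENNReal.ofReal B := by
          rw [ENNReal.tsum_mul_right, ← mul_assoc]
          congr 1
          conv_lhs => rw [← ENNReal.rpow_one (∑' h, w h), ← ENNReal.rpow_mul]
          rw [← ENNReal.rpow_add_of_nonneg _ _ (by linarith) (by norm_num)]
          congr 1
          ring
      _ ≤ ENNReal.ofReal (Z * X ^ b) ^ q * ENNReal.ofReal B := by gcongr
      _ = _ := by
          rw [ENNReal.ofReal_rpow_of_nonneg (by positivity) hq0.le,
            ← ENNReal.ofReal_mul (by positivity)]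
  rw [ENNReal.ofReal_le_ofReal_iff (by positivity)] at htot
  have hexp : X ^ (q * b) * X ^ (1 + q * b) ≤ X ^ (1 + q * ε) := by
    rw [← Real.rpow_add hX0]
    refine Real.rpow_le_rpow_of_exponent_le hX1 ?_
    have : q * b ≤ q * (ε / 4) := mul_le_mul_of_nonneg_left hbε hq0.le
    have h2 : 0 ≤ q * ε := by positivity
    linarith
  have hF1 : ∫ x in X..(2 * X), F x ^ q ≤ Z ^ q * K₁ * ((N : ℝ) ^ s) ^ q * X ^ (1 + q * ε) := by
    refine htot.trans ?_
    have e1 : (Z * X ^ b) ^ q = Z ^ q * X ^ (q * b) := by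
      rw [Real.mul_rpow hZ0 (by positivity), ← Real.rpow_mul hX0.le, mul_comm b q]
    calc (Z * X ^ b) ^ q * B =
          Z ^ q * K₁ * ((N : ℝ) ^ s) ^ q * (X ^ (q * b) * X ^ (1 + q * b)) := by
          rw [e1, hB]
          ring
      _ ≤ _ := by
          gcongr
  have h1 : ∫ x in X..(2 * X), (1 / 2 * (N : ℝ) ^ s + F x) ^ q ≤
      ∫ x in X..(2 * X), 2 ^ q * ((1 / 2 * ((N : ℝ) ^ s)) ^ q + F x ^ q) := by
    refine intervalIntegral.integral_mono_on (by linarith)
      (Continuous.intervalIntegrable ((continuous_const.add hFc).rpow_const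
        fun x => Or.inr hq0.le) _ _)
      (Continuous.intervalIntegrable (continuous_const.mul (continuous_const.add hFq)) _ _)
      fun x _ => ?_
    exact SDQ_pow_add hq0.le (by positivity) (hF0 x)
  have h2 : ∫ x in X..(2 * X), 2 ^ q * ((1 / 2 * ((N : ℝ) ^ s)) ^ q + F x ^ q) =
      2 ^ q * (X * (1 / 2 * ((N : ℝ) ^ s)) ^ q + ∫ x in X..(2 * X), F x ^ q) := by
    rw [intervalIntegral.integral_const_mul, intervalIntegral.integral_add (by simp)
      (hFq.intervalIntegrable _ _), intervalIntegral.integral_const, smul_eq_mul]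
    congr 3
    ring
  rw [h2] at h1
  refine h1.trans ?_
  have h3 : X ≤ X ^ (1 + q * ε) := by
    calc X = X ^ (1 : ℝ) := (Real.rpow_one X).symm
      _ ≤ _ := Real.rpow_le_rpow_of_exponent_le hX1 (by
          have : 0 ≤ q * ε := by positivity
          linarith)
  have h4 : X * (1 / 2 * (N : ℝ) ^ s) ^ q ≤
      (1 / 2) ^ q * ((N : ℝ) ^ s) ^ q * X ^ (1 + q * ε) := by
    rw [Real.mul_rpow (by norm_num) hs0.le]
    calc X * ((1 / 2) ^ q * ((N : ℝ) ^ s) ^ q) = (1 / 2) ^ q * ((N : ℝ) ^ s) ^ q * X := by ring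
      _ ≤ _ := by gcongr
  calc 2 ^ q * (X * (1 / 2 * ((N : ℝ) ^ s)) ^ q + ∫ x in X..(2 * X), F x ^ q)
      ≤ 2 ^ q * ((1 / 2) ^ q * ((N : ℝ) ^ s) ^ q * X ^ (1 + q * ε) +
          Z ^ q * K₁ * ((N : ℝ) ^ s) ^ q * X ^ (1 + q * ε)) := by gcongr
    _ = _ := by ring

end Pool.Agent.Ben
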