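import Pool.Agent.Ben.Targets10

/-!
# Block SEP: growth of zeta on the line `Re = s` gives bounds for `∑ n^(-iT)` (helper29)
-/

set_option autoImplicit false

namespace Pool.Agent.Ben

open Complex MeasureTheory Set

private lemma SEP_low {s : ℝ} (hs : 1 / 2 ≤ s) (v : ℝ) : (1 + |v|) / 3 ≤ ‖(s + v * I : ℂ)‖ := by
  have h1 : |v| ≤ ‖(s + v * I : ℂ)‖ := by
    have := Complex.abs_im_le_norm (s + v * I : ℂ)
    simpa using this
  have h2 : (1 / 2 : ℝ) ≤ ‖(s + v * I : ℂ)‖ := by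
    have := Complex.abs_re_le_norm (s + v * I : ℂ)
    have h3 : (s + v * I : ℂ).re = s := by simp
    rw [h3, abs_of_pos (by linarith)] at this
    linarith
  have h0 := abs_nonneg v
  linarith

private lemma SEP_low' {s : ℝ} (hs : 1 / 2 ≤ s) (v : ℝ) :
    (1 + |v|) / 3 ≤ ‖(s + v * I : ℂ) + 1‖ := by
  have h1 : |v| ≤ ‖(s + v * I : ℂ) + 1‖ := by
    have := Complex.abs_im_le_norm ((s + v * I : ℂ) + 1)
    simpa using this
  have h2 : (1 / 2 : ℝ) ≤ ‖(s + v * I : ℂ) + 1‖ := by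
    have := Complex.abs_re_le_norm ((s + v * I : ℂ) + 1)
    have h3 : ((s + v * I : ℂ) + 1).re = s + 1 := by simp
    rw [h3, abs_of_pos (by linarith)] at this
    linarith
  have h0 := abs_nonneg v
  linarith

/-- the bound for `RR N` on the line `Re = s` -/
private lemma SEP_RR (hR : T_RB) {s : ℝ} (hs : 1 / 2 ≤ s) {N : ℕ} (hN : 1 ≤ N) (v : ℝ) {θ : ℝ}
    (h0 : 0 < θ) (h1 : θ ≤ 1) :
    ‖RR N (s + v * I)‖ ≤
      3 * (N + 1 : ℝ) ^ s * (6 * (N + 1 : ℝ)) ^ θ * (1 + |v|) ^ (-(1 + θ)) := by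
  have hre : (s + v * I : ℂ).re = s := by simp
  obtain ⟨hb1, hb2⟩ := hR N hN (s + v * I) (by rw [hre]; linarith)
  rw [hre] at hb1 hb2
  set X := ‖RR N (s + v * I)‖ with hX
  have hs1 := SEP_low hs v
  have hs' := SEP_low' hs v
  set a := ‖(s + v * I : ℂ)‖ with ha
  set b := ‖(s + v * I : ℂ) + 1‖ with hb
  have hv : 0 < 1 + |v| := by have := abs_nonneg v; linarith
  have hapos : 0 < a := lt_of_lt_of_le (by positivity) hs1
  have hbpos : 0 < b := lt_of_lt_of_le (by positivity) hs'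
  have hNp : (0 : ℝ) < N + 1 := by positivity
  set p := (N + 1 : ℝ) ^ s with hp
  have hpp : 0 < p := Real.rpow_pos_of_pos hNp _
  set c := 2 * (N + 1 : ℝ) / b with hc
  have hcp : 0 < c := by positivity
  have e1 : 2 * (N + 1 : ℝ) ^ (s + 1 : ℝ) / (a * b) = p / a * c := by
    rw [Real.rpow_add hNp, Real.rpow_one, hc, hp]
    field_simp
  rw [e1] at hb1
  have h2 : X ≤ p / a * c ^ θ := by
    have hpa : 0 ≤ p / a := by positivity
    rcases le_total c 1 with h | h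
    · refine hb1.trans (mul_le_mul_of_nonneg_left ?_ hpa)
      have := Real.rpow_le_rpow_of_exponent_ge hcp h h1
      rwa [Real.rpow_one] at this
    · refine hb2.trans ?_
      have := Real.one_le_rpow h h0.le
      calc p / a = p / a * 1 := (mul_one _).symm
        _ ≤ p / a * c ^ θ := mul_le_mul_of_nonneg_left this hpa
  refine h2.trans ?_
  have h3 : p / a ≤ 3 * p * (1 + |v|)⁻¹ := by
    rw [div_le_iff₀ hapos]
    have h4 : (1 : ℝ) ≤ 3 * (1 + |v|)⁻¹ * a := by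
      rw [mul_comm (3 : ℝ), mul_assoc, ← div_eq_inv_mul, le_div_iff₀ hv]
      linarith
    nlinarith
  have h5 : c ^ θ ≤ (6 * (N + 1 : ℝ)) ^ θ * (1 + |v|) ^ (-θ) := by
    rw [Real.rpow_neg hv.le, ← div_eq_mul_inv, ← Real.div_rpow (by positivity) hv.le]
    refine Real.rpow_le_rpow hcp.le ?_ h0.le
    rw [hc, div_le_div_iff₀ hbpos hv]
    nlinarith
  have h6 : 0 ≤ c ^ θ := Real.rpow_nonneg hcp.le _
  calc p / a * c ^ θ ≤ (3 * p * (1 + |v|)⁻¹) * ((6 * (N + 1 : ℝ)) ^ θ * (1 + |v|) ^ (-θ)) :=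
        mul_le_mul h3 h5 h6 (by positivity)
    _ = 3 * p * (6 * (N + 1 : ℝ)) ^ θ * ((1 + |v|) ^ (-1 : ℝ) * (1 + |v|) ^ (-θ)) := by
        rw [Real.rpow_neg_one]
        ring
    _ = 3 * p * (6 * (N + 1 : ℝ)) ^ θ * (1 + |v|) ^ (-(1 + θ)) := by
        rw [← Real.rpow_add hv]
        congr 2
        ring

/-- the product of the two factors -/
private lemma SEP_pt (hR : T_RB) {s : ℝ} (hs : 1 / 2 ≤ s) (hs1 : s < 1) {N : ℕ} (hN : 1 ≤ N)
    {a ε' K T B : ℝ} (ha : 0 ≤ a)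
    (hε' : 0 < ε') (h1a : a + 2 * ε' ≤ 1) (hT : 1 ≤ T) (hNK : (N : ℝ) ≤ K * T) (hB : 0 ≤ B)
    (v Z : ℝ) (_hZ0 : 0 ≤ Z) (hZ : Z ≤ B * ((2 * T) ^ (a + ε') + |v| ^ (a + ε'))) :
    ‖RR N (s + v * I)‖ * Z ≤
      6 * (N : ℝ) ^ s * B * (2 * (12 * K) ^ (2 * ε') + (12 * K) ^ (a + 2 * ε')) *
        T ^ (a + 3 * ε') * (1 + |v|) ^ (-(1 + ε')) := by
  have hT0 : 0 < T := by linarith
  have hNr : (1 : ℝ) ≤ N := by exact_mod_cast hN
  have hN0 : (0 : ℝ) < N + 1 := by positivity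
  have hv : 0 < 1 + |v| := by have := abs_nonneg v; linarith
  have hv1 : 1 ≤ 1 + |v| := by have := abs_nonneg v; linarith
  have hKT : 0 < K * T := by linarith
  have hK : 0 < K := by
    by_contra hcon
    push Not at hcon
    nlinarith
  have hN3 : 6 * (N + 1 : ℝ) ≤ 12 * K * T := by linarith
  have hNs0 : 0 < (N : ℝ) ^ s := Real.rpow_pos_of_pos (by linarith) _
  have h4 : (N + 1 : ℝ) ^ s ≤ 2 * (N : ℝ) ^ s := by
    calc (N + 1 : ℝ) ^ s ≤ (2 * N : ℝ) ^ s :=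
          Real.rpow_le_rpow hN0.le (by linarith) (by linarith)
      _ = 2 ^ s * (N : ℝ) ^ s := Real.mul_rpow (by norm_num) (by linarith)
      _ ≤ 2 * (N : ℝ) ^ s := by
          refine mul_le_mul_of_nonneg_right ?_ hNs0.le
          have := Real.rpow_le_rpow_of_exponent_le (x := 2) (by norm_num) hs1.le
          rwa [Real.rpow_one] at this
  set X := ‖RR N (s + v * I)‖ with hX
  have hX0 : 0 ≤ X := norm_nonneg _
  have hp0 : 0 < a + ε' := by linarith
  -- the two parts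
  have hA : X * (2 * T) ^ (a + ε') ≤
      6 * (N : ℝ) ^ s * (2 * (12 * K) ^ (2 * ε')) * T ^ (a + 3 * ε') *
        (1 + |v|) ^ (-(1 + ε')) := by
    have h1 := SEP_RR hR hs hN v (θ := 2 * ε') (by positivity) (by linarith)
    have h2 : (6 * (N + 1 : ℝ)) ^ (2 * ε') ≤ (12 * K) ^ (2 * ε') * T ^ (2 * ε') := by
      rw [← Real.mul_rpow (by positivity) hT0.le]
      exact Real.rpow_le_rpow (by positivity) hN3 (by positivity)
    have h3 : (2 * T) ^ (a + ε') ≤ 2 * T ^ (a + ε') := by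
      rw [Real.mul_rpow (by norm_num) hT0.le]
      have h5 : (2 : ℝ) ^ (a + ε') ≤ 2 := by
        have := Real.rpow_le_rpow_of_exponent_le (x := 2) (by norm_num)
          (show a + ε' ≤ 1 by linarith)
        rwa [Real.rpow_one] at this
      exact mul_le_mul_of_nonneg_right h5 (Real.rpow_nonneg hT0.le _)
    have h5 : (1 + |v|) ^ (-(1 + 2 * ε')) ≤ (1 + |v|) ^ (-(1 + ε')) :=
      Real.rpow_le_rpow_of_exponent_le hv1 (by linarith)
    have h6 : T ^ (a + 3 * ε') = T ^ (2 * ε') * T ^ (a + ε') := by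
      rw [← Real.rpow_add hT0]
      congr 1
      ring
    calc X * (2 * T) ^ (a + ε')
        ≤ (3 * (N + 1 : ℝ) ^ s * (6 * (N + 1 : ℝ)) ^ (2 * ε') *
            (1 + |v|) ^ (-(1 + 2 * ε'))) * (2 * T ^ (a + ε')) := by gcongr
      _ ≤ (3 * (2 * (N : ℝ) ^ s) * ((12 * K) ^ (2 * ε') * T ^ (2 * ε')) *
            (1 + |v|) ^ (-(1 + ε'))) * (2 * T ^ (a + ε')) := by gcongr
      _ = _ := by
          rw [h6]
          ring
  have hC : X * |v| ^ (a + ε') ≤
      6 * (N : ℝ) ^ s * (12 * K) ^ (a + 2 * ε') * T ^ (a + 3 * ε') *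
        (1 + |v|) ^ (-(1 + ε')) := by
    have h1 := SEP_RR hR hs hN v (θ := a + 2 * ε') (by positivity) h1a
    have h2 : (6 * (N + 1 : ℝ)) ^ (a + 2 * ε') ≤
        (12 * K) ^ (a + 2 * ε') * T ^ (a + 2 * ε') := by
      rw [← Real.mul_rpow (by positivity) hT0.le]
      exact Real.rpow_le_rpow (by positivity) hN3 (by positivity)
    have h3 : |v| ^ (a + ε') ≤ (1 + |v|) ^ (a + ε') :=
      Real.rpow_le_rpow (abs_nonneg v) (by linarith) hp0.le
    have h5 : (1 + |v|) ^ (-(1 + ε')) =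
        (1 + |v|) ^ (-(1 + (a + 2 * ε'))) * (1 + |v|) ^ (a + ε') := by
      rw [← Real.rpow_add hv]
      congr 1
      ring
    have h6 : T ^ (a + 2 * ε') ≤ T ^ (a + 3 * ε') :=
      Real.rpow_le_rpow_of_exponent_le hT (by linarith)
    calc X * |v| ^ (a + ε')
        ≤ (3 * (N + 1 : ℝ) ^ s * (6 * (N + 1 : ℝ)) ^ (a + 2 * ε') *
            (1 + |v|) ^ (-(1 + (a + 2 * ε')))) * (1 + |v|) ^ (a + ε') := by gcongr
      _ ≤ (3 * (2 * (N : ℝ) ^ s) * ((12 * K) ^ (a + 2 * ε') * T ^ (a + 3 * ε')) *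
            (1 + |v|) ^ (-(1 + (a + 2 * ε')))) * (1 + |v|) ^ (a + ε') := by
          gcongr
          exact h2.trans (mul_le_mul_of_nonneg_left h6 (by positivity))
      _ = _ := by
          rw [h5]
          ring
  calc X * Z ≤ X * (B * ((2 * T) ^ (a + ε') + |v| ^ (a + ε'))) :=
        mul_le_mul_of_nonneg_left hZ hX0
    _ = B * (X * (2 * T) ^ (a + ε') + X * |v| ^ (a + ε')) := by ring
    _ ≤ B * (6 * (N : ℝ) ^ s * (2 * (12 * K) ^ (2 * ε')) * T ^ (a + 3 * ε') *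
        (1 + |v|) ^ (-(1 + ε')) + 6 * (N : ℝ) ^ s * (12 * K) ^ (a + 2 * ε') *
        T ^ (a + 3 * ε') *
        (1 + |v|) ^ (-(1 + ε'))) := mul_le_mul_of_nonneg_left (add_le_add hA hC) hB
    _ = _ := by ring

theorem p_SEP : S_FORM → T_RB → T_POLE → S_EP := by
  intro hF hR hP s a hs hs1 ha ha1 hLa ε hε K hKpos
  have h1s : 0 < 1 - s := by linarith
  set ε' := min ε (1 - a) / 8 with hε'def
  have hε' : 0 < ε' := by
    have : 0 < min ε (1 - a) := lt_min hε (by linarith)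
    positivity
  have h1a : a + 2 * ε' ≤ 1 := by
    rw [hε'def]
    linarith [min_le_right ε (1 - a)]
  have h8ε : 8 * ε' ≤ ε := by
    rw [hε'def]
    linarith [min_le_left ε (1 - a)]
  obtain ⟨C0, hC0⟩ := hLa ε' hε'
  have hC0n : 0 ≤ C0 := by
    have h := hC0 0
    simp only [abs_zero, add_zero, Real.one_rpow, mul_one] at h
    exact (norm_nonneg _).trans h
  set R := 1 / (1 - s) with hRdef
  have hR0 : 0 ≤ R := by positivity
  have hint : Integrable (fun v : ℝ => (1 + ‖v‖) ^ (-(1 + ε'))) := by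
    refine integrable_one_add_norm ?_
    simp only [Module.finrank_self, Nat.cast_one]
    linarith
  set J := ∫ v : ℝ, (1 + ‖v‖) ^ (-(1 + ε')) with hJ
  have hJ0 : 0 ≤ J := integral_nonneg fun v => by positivity
  set M := 6 * (C0 + R) * (2 * (12 * K) ^ (2 * ε') + (12 * K) ^ (a + 2 * ε')) with hM
  have hM0 : 0 ≤ M := by positivity
  refine ⟨(2 * K + 1) + M * J, fun T hT N hN hNK => ?_⟩
  have hT0 : 0 < T := by linarith
  have hNr : (1 : ℝ) ≤ N := by exact_mod_cast hN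
  have hN3 : (N + 1 : ℝ) ≤ 2 * K * T := by linarith
  have hsq : (1 : ℝ) ≤ (N : ℝ) ^ s := Real.one_le_rpow hNr (by linarith)
  have hTe : (1 : ℝ) ≤ T ^ (a + ε) := Real.one_le_rpow hT (by linarith)
  rw [hF s hs hs1 N hN T]
  refine (norm_add_le _ _).trans ?_
  have hA : ‖∫ x in (1 : ℝ)..(N + 1), (rho N x : ℂ) * (x : ℂ) ^ (-(T * I) : ℂ)‖ ≤
      (2 * K + 1) * (N : ℝ) ^ s * T ^ (a + ε) := by
    refine (hP N hN T hT).trans ?_
    have h1 : (N + 1 : ℝ) / T ≤ 2 * K := by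
      rw [div_le_iff₀ hT0]
      exact hN3
    have h2 : (1 : ℝ) ≤ (N : ℝ) ^ s * T ^ (a + ε) := by nlinarith
    have h3 : 0 ≤ 2 * K + 1 := by positivity
    calc (N + 1 : ℝ) / T + 1 ≤ (2 * K + 1) * 1 := by linarith
      _ ≤ (2 * K + 1) * ((N : ℝ) ^ s * T ^ (a + ε)) := mul_le_mul_of_nonneg_left h2 h3
      _ = _ := by ring
  have hB : ‖((1 / (2 * Real.pi) : ℝ) : ℂ) * ∫ v : ℝ, RR N (s + v * I) *
      (riemannZeta (s + (T + v : ℝ) * I) - 1 / ((s : ℂ) - 1 + (T + v : ℝ) * I))‖ ≤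
      M * J * (N : ℝ) ^ s * T ^ (a + ε) := by
    set D := M * (N : ℝ) ^ s * T ^ (a + 3 * ε') with hD
    have hD0 : 0 ≤ D := by positivity
    have hpt : ∀ v : ℝ, ‖RR N (s + v * I) *
        (riemannZeta (s + (T + v : ℝ) * I) - 1 / ((s : ℂ) - 1 + (T + v : ℝ) * I))‖ ≤
        D * (1 + ‖v‖) ^ (-(1 + ε')) := by
      intro v
      rw [norm_mul]
      have h2 : ‖riemannZeta (s + (T + v : ℝ) * I) - 1 / ((s : ℂ) - 1 + (T + v : ℝ) * I)‖ ≤
          (C0 + R) * ((2 * T) ^ (a + ε') + |v| ^ (a + ε')) := by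
        have h3 : ‖(1 : ℂ) / ((s : ℂ) - 1 + (T + v : ℝ) * I)‖ ≤ R := by
          rw [norm_div, norm_one, hRdef]
          refine one_div_le_one_div_of_le h1s ?_
          have := Complex.abs_re_le_norm ((s : ℂ) - 1 + (T + v : ℝ) * I : ℂ)
          have h5 : ((s : ℂ) - 1 + (T + v : ℝ) * I : ℂ).re = s - 1 := by simp
          rw [h5, abs_sub_comm, abs_of_pos h1s] at this
          exact this
        have h4 := hC0 (T + v)
        have h5 : (1 : ℝ) ≤ (1 + |T + v|) ^ (a + ε') :=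
          Real.one_le_rpow (by have := abs_nonneg (T + v); linarith) (by linarith)
        have h6 : (1 + |T + v|) ^ (a + ε') ≤ (2 * T) ^ (a + ε') + |v| ^ (a + ε') := by
          have h7 : 1 + |T + v| ≤ 2 * T + |v| := by
            have h8 := abs_add_le T v
            rw [abs_of_pos hT0] at h8
            linarith
          calc (1 + |T + v|) ^ (a + ε') ≤ (2 * T + |v|) ^ (a + ε') :=
                Real.rpow_le_rpow (by positivity) h7 (by linarith)
            _ ≤ _ := Real.rpow_add_le_add_rpow (by positivity) (abs_nonneg v) (by linarith)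
                (by linarith)
        calc ‖riemannZeta (s + (T + v : ℝ) * I) - 1 / ((s : ℂ) - 1 + (T + v : ℝ) * I)‖
            ≤ ‖riemannZeta (s + (T + v : ℝ) * I)‖ +
                ‖(1 : ℂ) / ((s : ℂ) - 1 + (T + v : ℝ) * I)‖ := norm_sub_le _ _
          _ ≤ C0 * (1 + |T + v|) ^ (a + ε') + R := add_le_add h4 h3
          _ ≤ (C0 + R) * (1 + |T + v|) ^ (a + ε') := by nlinarith
          _ ≤ _ := mul_le_mul_of_nonneg_left h6 (by positivity)
      have h1 := SEP_pt hR hs hs1 hN ha hε' h1a hT hNK (show 0 ≤ C0 + R by linarith) v _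
        (norm_nonneg _) h2
      refine h1.trans (le_of_eq ?_)
      rw [Real.norm_eq_abs, hD, hM]
      ring
    have h1 : ‖∫ v : ℝ, RR N (s + v * I) *
        (riemannZeta (s + (T + v : ℝ) * I) - 1 / ((s : ℂ) - 1 + (T + v : ℝ) * I))‖ ≤
        D * J := by
      have := norm_integral_le_of_norm_le (hint.const_mul D) (Filter.Eventually.of_forall hpt)
      rwa [integral_const_mul] at this
    rw [norm_mul]
    have h2 : ‖((1 / (2 * Real.pi) : ℝ) : ℂ)‖ ≤ 1 := by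
      rw [Complex.norm_real, Real.norm_eq_abs, abs_of_pos (by positivity),
        div_le_one (by positivity)]
      linarith [Real.pi_gt_three]
    have h3 : D ≤ M * (N : ℝ) ^ s * T ^ (a + ε) := by
      rw [hD]
      exact mul_le_mul_of_nonneg_left
        (Real.rpow_le_rpow_of_exponent_le hT (by linarith)) (by positivity)
    calc ‖((1 / (2 * Real.pi) : ℝ) : ℂ)‖ * ‖∫ v : ℝ, RR N (s + v * I) *
          (riemannZeta (s + (T + v : ℝ) * I) - 1 / ((s : ℂ) - 1 + (T + v : ℝ) * I))‖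
        ≤ 1 * (D * J) := mul_le_mul h2 h1 (norm_nonneg _) zero_le_one
      _ ≤ 1 * ((M * (N : ℝ) ^ s * T ^ (a + ε)) * J) := by gcongr
      _ = _ := by ring
  calc _ ≤ (2 * K + 1) * (N : ℝ) ^ s * T ^ (a + ε) +
        M * J * (N : ℝ) ^ s * T ^ (a + ε) := add_le_add hA hB
    _ = _ := by ring

end Pool.Agent.Ben
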