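import Pool.Agent.Ben.Targets10
import Pool.Agent.Ben.P_MTWO

/-!
# Ben: the means of order `2 k` of the Gaussian sums
-/

set_option autoImplicit false

namespace Pool.Agent.Ben

open Complex MeasureTheory Set

private theorem SGK_two_pow_ge (k : ℕ) : ((k + 1 : ℕ) : ℝ) ≤ 2 ^ k := by
  have h : k + 1 ≤ 2 ^ k := Nat.lt_two_pow_self
  exact_mod_cast h

private theorem SGK_small (ε : ℝ) (hε : 0 < ε) : ∃ K : ℝ, 1 ≤ K ∧ ∀ k : ℕ,
    ((k + 1 : ℕ) : ℝ) ≤ K * ((2 : ℝ) ^ k) ^ ε := by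
  have hl : 0 < Real.log 2 := Real.log_pos one_lt_two
  refine ⟨max 1 (1 / (ε * Real.log 2)), le_max_left _ _, fun k => ?_⟩
  set K := max 1 (1 / (ε * Real.log 2)) with hK
  have h1 : ((2 : ℝ) ^ k) ^ ε = Real.exp (k * (ε * Real.log 2)) := by
    rw [Real.rpow_def_of_pos (by positivity), Real.log_pow]
    congr 1
    ring
  have h2 : (k : ℝ) * (ε * Real.log 2) + 1 ≤ Real.exp (k * (ε * Real.log 2)) :=
    Real.add_one_le_exp _
  have h3 : 1 ≤ K := le_max_left _ _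
  have h4 : 1 ≤ K * (ε * Real.log 2) := by
    have h5 : 1 / (ε * Real.log 2) ≤ K := le_max_right _ _
    rwa [div_le_iff₀ (by positivity)] at h5
  rw [h1]
  have h5 : K * ((k : ℝ) * (ε * Real.log 2) + 1) ≤ K * Real.exp (k * (ε * Real.log 2)) :=
    mul_le_mul_of_nonneg_left h2 (by linarith)
  have h6 : (k : ℝ) ≤ k * (K * (ε * Real.log 2)) := by
    have hk : (0 : ℝ) ≤ k := Nat.cast_nonneg k
    nlinarith
  push_cast
  nlinarith

private theorem SGK_tau (ε : ℝ) (hε : 0 < ε) : ∃ C : ℝ, 0 < C ∧ ∀ n : ℕ, 1 ≤ n →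
    (n.divisors.card : ℝ) ≤ C * (n : ℝ) ^ ε := by
  classical
  obtain ⟨K, hK1, hK⟩ := SGK_small ε hε
  obtain ⟨N, hN⟩ := exists_nat_ge ((2 : ℝ) ^ (1 / ε))
  refine ⟨K ^ N, by positivity, fun n hn => ?_⟩
  have hn0 : n ≠ 0 := by omega
  have key : ∀ p ∈ n.primeFactors, ((n.factorization p + 1 : ℕ) : ℝ) ≤
      (if p < N then K else 1) * ((p : ℝ) ^ (n.factorization p)) ^ ε := by
    intro p hp
    have hp2 : 2 ≤ p := (Nat.prime_of_mem_primeFactors hp).two_le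
    have hp2' : (2 : ℝ) ≤ p := by exact_mod_cast hp2
    set k := n.factorization p
    by_cases h : p < N
    · rw [if_pos h]
      refine (hK k).trans ?_
      gcongr
    · rw [if_neg h, one_mul]
      push Not at h
      have h1 : (2 : ℝ) ^ (1 / ε) ≤ p := hN.trans (by exact_mod_cast h)
      have h2 : (2 : ℝ) ≤ (p : ℝ) ^ ε := by
        calc (2 : ℝ) = ((2 : ℝ) ^ (1 / ε)) ^ ε := by
              rw [← Real.rpow_mul (by norm_num), one_div, inv_mul_cancel₀ hε.ne', Real.rpow_one]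
          _ ≤ _ := Real.rpow_le_rpow (by positivity) h1 hε.le
      calc ((k + 1 : ℕ) : ℝ) ≤ 2 ^ k := SGK_two_pow_ge k
        _ ≤ ((p : ℝ) ^ ε) ^ k := pow_le_pow_left₀ (by norm_num) h2 k
        _ = _ := by
            rw [← Real.rpow_natCast, ← Real.rpow_mul (by positivity), ← Real.rpow_natCast,
              ← Real.rpow_mul (by positivity), mul_comm]
  have hcard : (n.divisors.card : ℝ) =
      ∏ p ∈ n.primeFactors, ((n.factorization p + 1 : ℕ) : ℝ) := by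
    rw [Nat.card_divisors hn0]
    push_cast
    rfl
  have hprod : ∏ p ∈ n.primeFactors, ((p : ℝ) ^ (n.factorization p)) ^ ε = (n : ℝ) ^ ε := by
    rw [Real.finsetProd_rpow _ _ (fun p _ => by positivity)]
    congr 1
    have h := Nat.prod_factorization_pow_eq_self hn0
    have h' : ((∏ p ∈ n.primeFactors, p ^ n.factorization p : ℕ) : ℝ) = n := by
      exact_mod_cast congrArg (Nat.cast (R := ℝ)) h
    rw [← h']
    push_cast
    rfl
  have hK' : ∏ p ∈ n.primeFactors, (if p < N then K else 1) ≤ K ^ N := by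
    rw [← Finset.prod_filter, Finset.prod_const]
    refine pow_le_pow_right₀ hK1 ?_
    calc (n.primeFactors.filter (fun p => p < N)).card ≤ (Finset.range N).card := by
          refine Finset.card_le_card ?_
          intro p hp
          exact Finset.mem_range.2 (Finset.mem_filter.1 hp).2
      _ = N := Finset.card_range N
  rw [hcard]
  calc ∏ p ∈ n.primeFactors, ((n.factorization p + 1 : ℕ) : ℝ)
      ≤ ∏ p ∈ n.primeFactors, ((if p < N then K else 1) * ((p : ℝ) ^ (n.factorization p)) ^ ε) :=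
        Finset.prod_le_prod (fun p _ => by positivity) key
    _ = (∏ p ∈ n.primeFactors, (if p < N then K else 1)) * (n : ℝ) ^ ε := by
        rw [Finset.prod_mul_distrib, hprod]
    _ ≤ K ^ N * (n : ℝ) ^ ε := mul_le_mul_of_nonneg_right hK' (by positivity)

/-- the coefficients of a product -/
private noncomputable def SGK_c (A M : ℕ) (c w : ℕ → ℝ) (n : ℕ) : ℝ :=
  ∑ p ∈ Finset.filter (fun p : ℕ × ℕ => p.1 * p.2 = n) (Finset.Icc 1 A ×ˢ Finset.Icc 1 M),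
    c p.1 * w p.2

private theorem SGK_mul (A M : ℕ) (c w : ℕ → ℝ) (t : ℝ) :
    (∑ n ∈ Finset.Icc 1 A, e (t * Real.log n) * (c n : ℝ)) *
      (∑ n ∈ Finset.Icc 1 M, e (t * Real.log n) * (w n : ℝ)) =
      ∑ k ∈ Finset.Icc 1 (A * M), e (t * Real.log k) * (SGK_c A M c w k : ℝ) := by
  rw [Finset.sum_mul_sum, ← Finset.sum_product']
  rw [← Finset.sum_fiberwise_of_maps_to (g := fun p : ℕ × ℕ => p.1 * p.2)
    (t := Finset.Icc 1 (A * M))]
  · refine Finset.sum_congr rfl fun k hk => ?_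
    unfold SGK_c
    push_cast
    rw [Finset.mul_sum]
    refine Finset.sum_congr rfl fun p hp => ?_
    rw [Finset.mem_filter, Finset.mem_product, Finset.mem_Icc, Finset.mem_Icc] at hp
    obtain ⟨⟨h1, h2⟩, h3⟩ := hp
    have h4 : (p.1 : ℝ) ≠ 0 := by
      have : p.1 ≠ 0 := by omega
      exact_mod_cast this
    have h5 : (p.2 : ℝ) ≠ 0 := by
      have : p.2 ≠ 0 := by omega
      exact_mod_cast this
    have h6 : e (t * Real.log k) = e (t * Real.log p.1) * e (t * Real.log p.2) := by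
      rw [← h3]
      unfold e
      rw [← Complex.exp_add]
      congr 1
      push_cast
      rw [← Nat.cast_mul, Nat.cast_mul, Real.log_mul h4 h5]
      push_cast
      ring
    rw [h6]
    ring
  · intro p hp
    rw [Finset.mem_product, Finset.mem_Icc, Finset.mem_Icc] at hp
    rw [Finset.mem_Icc]
    exact ⟨Nat.mul_pos hp.1.1 hp.2.1, Nat.mul_le_mul hp.1.2 hp.2.2⟩

private theorem SGK_bound (A M : ℕ) (c w : ℕ → ℝ) (D : ℝ) (hD : 0 ≤ D) (hc : ∀ n, |c n| ≤ D)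
    (hw : ∀ n, |w n| ≤ 1) (ε K : ℝ) (hε : 0 < ε) (hK : 0 < K)
    (hd : ∀ n : ℕ, 1 ≤ n → (n.divisors.card : ℝ) ≤ K * (n : ℝ) ^ ε) (k : ℕ) :
    |SGK_c A M c w k| ≤ D * (K * ((A : ℝ) * M) ^ ε) := by
  by_cases hk : 1 ≤ k ∧ k ≤ A * M
  · have h1 : |SGK_c A M c w k| ≤ (Finset.filter (fun p : ℕ × ℕ => p.1 * p.2 = k)
        (Finset.Icc 1 A ×ˢ Finset.Icc 1 M)).card * D := by
      unfold SGK_c
      refine (Finset.abs_sum_le_sum_abs _ _).trans ?_
      refine (Finset.sum_le_card_nsmul _ _ D fun p _ => ?_).trans (by simp)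
      rw [abs_mul]
      calc |c p.1| * |w p.2| ≤ D * 1 := mul_le_mul (hc _) (hw _) (abs_nonneg _) hD
        _ = D := mul_one D
    have h2 : (Finset.filter (fun p : ℕ × ℕ => p.1 * p.2 = k)
        (Finset.Icc 1 A ×ˢ Finset.Icc 1 M)).card ≤ k.divisors.card := by
      refine Finset.card_le_card_of_injOn (fun p => p.1) ?_ ?_
      · intro p hp
        have hp' := Finset.mem_filter.1 (Finset.mem_coe.1 hp)
        refine Finset.mem_coe.2 (Nat.mem_divisors.2 ⟨⟨p.2, hp'.2.symm⟩, by omega⟩)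
      · intro p hp q hq hpq
        have hp' := Finset.mem_filter.1 (Finset.mem_coe.1 hp)
        have hq' := Finset.mem_filter.1 (Finset.mem_coe.1 hq)
        have h3 := (Finset.mem_Icc.1 (Finset.mem_product.1 hp'.1).1).1
        simp only at hpq
        have h4 : p.1 * p.2 = p.1 * q.2 := by rw [hp'.2, hpq, hq'.2]
        exact Prod.ext hpq (Nat.eq_of_mul_eq_mul_left h3 h4)
    have h3 : (k.divisors.card : ℝ) ≤ K * (k : ℝ) ^ ε := hd k hk.1
    have h4 : (k : ℝ) ^ ε ≤ ((A : ℝ) * M) ^ ε := by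
      refine Real.rpow_le_rpow (by positivity) ?_ hε.le
      exact_mod_cast hk.2
    have h5 : ((Finset.filter (fun p : ℕ × ℕ => p.1 * p.2 = k)
        (Finset.Icc 1 A ×ˢ Finset.Icc 1 M)).card : ℝ) ≤ k.divisors.card := by exact_mod_cast h2
    have h6 : ((Finset.filter (fun p : ℕ × ℕ => p.1 * p.2 = k)
        (Finset.Icc 1 A ×ˢ Finset.Icc 1 M)).card : ℝ) ≤ K * ((A : ℝ) * M) ^ ε :=
      h5.trans (h3.trans (mul_le_mul_of_nonneg_left h4 hK.le))
    refine h1.trans ?_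
    rw [mul_comm D]
    exact mul_le_mul_of_nonneg_right h6 hD
  · have h1 : SGK_c A M c w k = 0 := by
      unfold SGK_c
      rw [Finset.sum_eq_zero]
      intro p hp
      exfalso
      rw [Finset.mem_filter, Finset.mem_product, Finset.mem_Icc, Finset.mem_Icc] at hp
      obtain ⟨⟨h1, h2⟩, h3⟩ := hp
      apply hk
      rw [← h3]
      exact ⟨Nat.mul_pos h1.1 h2.1, Nat.mul_le_mul h1.2 h2.2⟩
    rw [h1, abs_zero]
    positivity

private theorem SGK_pow (M : ℕ) (w : ℕ → ℝ) (hw : ∀ n, |w n| ≤ 1) (ε K : ℝ) (hε : 0 < ε)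
    (hK : 0 < K) (hM : 1 ≤ M) (hd : ∀ n : ℕ, 1 ≤ n → (n.divisors.card : ℝ) ≤ K * (n : ℝ) ^ ε)
    (k : ℕ) : ∃ c : ℕ → ℝ, (∀ n, |c n| ≤ (K * ((M : ℝ) ^ k) ^ ε) ^ k) ∧ ∀ t : ℝ,
      (∑ n ∈ Finset.Icc 1 M, e (t * Real.log n) * (w n : ℝ)) ^ k =
        ∑ n ∈ Finset.Icc 1 (M ^ k), e (t * Real.log n) * (c n : ℝ) := by
  have hM1 : (1 : ℝ) ≤ M := by exact_mod_cast hM
  induction k with
  | zero =>
    refine ⟨fun _ => 1, fun n => by simp, fun t => ?_⟩
    simp [e]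
  | succ k ih =>
    obtain ⟨c, hc, hs⟩ := ih
    refine ⟨SGK_c (M ^ k) M c w, fun n => ?_, fun t => ?_⟩
    · have h1 := SGK_bound (M ^ k) M c w _ (by positivity) hc hw ε K hε hK hd n
      refine h1.trans ?_
      rw [pow_succ (K * ((M : ℝ) ^ (k + 1)) ^ ε) k]
      have h2 : (((M ^ k : ℕ) : ℝ) * M) = (M : ℝ) ^ (k + 1) := by
        push_cast
        ring
      rw [h2]
      have h3 : (M : ℝ) ^ k ≤ (M : ℝ) ^ (k + 1) := pow_le_pow_right₀ hM1 (by omega)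
      gcongr
    · rw [pow_succ, hs t, SGK_mul]
      rw [pow_succ M k]

private theorem SGK_int (M : ℕ) (w : ℕ → ℝ) (hw : ∀ n, |w n| ≤ 1) (ε K : ℝ) (hε : 0 < ε)
    (hK : 0 < K) (hM : 1 ≤ M) (hd : ∀ n : ℕ, 1 ≤ n → (n.divisors.card : ℝ) ≤ K * (n : ℝ) ^ ε)
    (k : ℕ) (T : ℝ) (hT : 0 ≤ T) :
    ∫ t in T..2 * T, ‖∑ n ∈ Finset.Icc 1 M, e (t * Real.log n) * (w n : ℝ)‖ ^ (2 * k) ≤
      ((K * ((M : ℝ) ^ k) ^ ε) ^ k) ^ 2 * ((M : ℝ) ^ k * (T + 2 * (M : ℝ) ^ k *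
        (1 + Real.log ((M : ℝ) ^ k)))) := by
  obtain ⟨c, hc, hs⟩ := SGK_pow M w hw ε K hε hK hM hd k
  set D : ℝ := (K * ((M : ℝ) ^ k) ^ ε) ^ k with hD
  have hM0 : (0 : ℝ) < M := by exact_mod_cast hM
  have hD0 : 0 < D := by positivity
  have h1 := MTWO_upper (M ^ k) (fun n => c n / D) (fun n => by
    rw [abs_div, abs_of_pos hD0, div_le_one hD0]
    exact hc n) T hT
  have h2 : ∀ t : ℝ, ‖∑ n ∈ Finset.Icc 1 M, e (t * Real.log n) * (w n : ℝ)‖ ^ (2 * k) =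
      D ^ 2 * ‖∑ n ∈ Finset.Icc 1 (M ^ k), e (t * Real.log n) *
        ((c n / D : ℝ) : ℂ)‖ ^ 2 := by
    intro t
    have h3 : ∑ n ∈ Finset.Icc 1 (M ^ k), e (t * Real.log n) * (c n : ℝ) =
        (D : ℂ) * ∑ n ∈ Finset.Icc 1 (M ^ k), e (t * Real.log n) *
        ((c n / D : ℝ) : ℂ) := by
      rw [Finset.mul_sum]
      refine Finset.sum_congr rfl fun n _ => ?_
      have hD1 : (D : ℂ) ≠ 0 := by exact_mod_cast hD0.ne'
      push_cast
      field_simp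
    have h4 : ‖∑ n ∈ Finset.Icc 1 M, e (t * Real.log n) * (w n : ℝ)‖ ^ (2 * k) =
        ‖(∑ n ∈ Finset.Icc 1 M, e (t * Real.log n) * (w n : ℝ)) ^ k‖ ^ 2 := by
      rw [norm_pow, mul_comm 2 k, pow_mul]
    rw [h4, hs t, h3, norm_mul, mul_pow, Complex.norm_real, Real.norm_eq_abs, sq_abs]
  simp_rw [h2]
  rw [intervalIntegral.integral_const_mul]
  have h3 : ((M ^ k : ℕ) : ℝ) = (M : ℝ) ^ k := by push_cast; ring
  rw [h3] at h1
  exact mul_le_mul_of_nonneg_left h1 (by positivity)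

theorem p_SGK : S_GK := by
  intro k hk s hs1 hs2 hs3 β hβ0 hβ1 ε hε
  have hk0 : (0 : ℝ) < k := by exact_mod_cast hk
  have hk1 : (1 : ℝ) ≤ k := by exact_mod_cast hk
  set δ : ℝ := ε / (4 * k ^ 2) with hδ
  have hδ0 : 0 < δ := by positivity
  obtain ⟨K, hK, hd⟩ := SGK_tau δ hδ0
  set a : ℝ := max 0 ((2 * β - 1) / (2 * k)) with ha
  have ha0 : 0 ≤ a := le_max_left _ _
  have ha1 : 2 * β ≤ 1 + 2 * k * a := by
    have h : (2 * β - 1) / (2 * k) ≤ a := le_max_right _ _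
    rw [div_le_iff₀ (by positivity)] at h
    linarith
  refine ⟨(K ^ k) ^ 2 * (1 + 2 * (1 + k / (ε / 2))), fun T hT M hM hMT N hN hNM => ?_⟩
  have hT0 : 0 < T := by linarith
  have hM1 : (1 : ℝ) ≤ M := by exact_mod_cast hM
  have hM0 : (0 : ℝ) < M := by linarith
  have hMT' : (M : ℝ) ≤ T ^ β := by simpa using hMT
  have hMT1 : (M : ℝ) ≤ T := hMT'.trans (by
    calc T ^ β ≤ T ^ (1 : ℝ) := Real.rpow_le_rpow_of_exponent_le hT hβ1
      _ = T := Real.rpow_one T)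
  have h1 := SGK_int M (fun n => Real.exp (-(Real.log n - Real.log N) ^ 2 / 4))
    (fun n => by
      rw [abs_of_pos (Real.exp_pos _), Real.exp_le_one_iff]
      have := sq_nonneg (Real.log n - Real.log N)
      linarith) δ K hδ0 hK hM hd k T hT0.le
  have e1 : ∀ t : ℝ, ‖gs M t (Real.log N)‖ ^ (2 * (k : ℝ)) = ‖∑ n ∈ Finset.Icc 1 M,
      e (t * Real.log n) * (Real.exp (-(Real.log n - Real.log N) ^ 2 / 4) : ℝ)‖ ^ (2 * k) := by
    intro t
    rw [show 2 * (k : ℝ) = ((2 * k : ℕ) : ℝ) by push_cast; ring, Real.rpow_natCast]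
    rfl
  simp_rw [e1]
  refine h1.trans ?_
  -- the factor of the divisor bound
  have h2 : ((K * ((M : ℝ) ^ k) ^ δ) ^ k) ^ 2 ≤ (K ^ k) ^ 2 * T ^ (ε / 2) := by
    rw [mul_pow, mul_pow]
    refine mul_le_mul_of_nonneg_left ?_ (by positivity)
    calc ((((M : ℝ) ^ k) ^ δ) ^ k) ^ 2 ≤ (((T ^ k) ^ δ) ^ k) ^ 2 := by gcongr
      _ = T ^ (ε / 2) := by
        rw [← pow_mul, ← Real.rpow_natCast T k, ← Real.rpow_mul hT0.le, ← Real.rpow_natCast,
          ← Real.rpow_mul hT0.le]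
        congr 1
        rw [hδ]
        push_cast
        field_simp
        norm_num
  -- the powers of `M`
  have h3 : (M : ℝ) ^ k ≤ (M : ℝ) ^ (s * (2 * k)) := by
    rw [← Real.rpow_natCast]
    refine Real.rpow_le_rpow_of_exponent_le hM1 ?_
    nlinarith
  have h4 : (M : ℝ) ^ k * (M : ℝ) ^ k ≤ (M : ℝ) ^ (s * (2 * k)) * T ^ (1 + 2 * k * a) := by
    have h5 : (M : ℝ) ^ k * (M : ℝ) ^ k = (M : ℝ) ^ (s * (2 * k)) *
        (M : ℝ) ^ (2 * k * (1 - s)) := by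
      rw [← Real.rpow_natCast, ← Real.rpow_add hM0, ← Real.rpow_add hM0]
      congr 1
      ring
    rw [h5]
    refine mul_le_mul_of_nonneg_left ?_ (by positivity)
    have h6 : 2 * k * (1 - s) ≤ 2 := by
      have h7 : 1 - s ≤ 1 / (k : ℝ) := by linarith
      have h8 : k * (1 - s) ≤ 1 := by
        calc k * (1 - s) ≤ k * (1 / (k : ℝ)) := mul_le_mul_of_nonneg_left h7 hk0.le
          _ = 1 := by field_simp
      linarith
    calc (M : ℝ) ^ (2 * k * (1 - s)) ≤ (M : ℝ) ^ (2 : ℝ) :=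
          Real.rpow_le_rpow_of_exponent_le hM1 h6
      _ ≤ (T ^ β) ^ (2 : ℝ) := Real.rpow_le_rpow hM0.le hMT' (by norm_num)
      _ = T ^ (β * 2) := (Real.rpow_mul hT0.le _ _).symm
      _ ≤ T ^ (1 + 2 * k * a) := Real.rpow_le_rpow_of_exponent_le hT (by linarith)
  have h5 : 1 + Real.log ((M : ℝ) ^ k) ≤ (1 + k / (ε / 2)) * T ^ (ε / 2) := by
    have h6 : Real.log ((M : ℝ) ^ k) ≤ k * Real.log T := by
      rw [Real.log_pow]
      exact mul_le_mul_of_nonneg_left (Real.log_le_log hM0 hMT1) hk0.le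
    have h7 := Real.log_le_rpow_div hT0.le (by positivity : (0 : ℝ) < ε / 2)
    have h8 : 1 ≤ T ^ (ε / 2) := Real.one_le_rpow hT (by positivity)
    have h9 : (1 + k / (ε / 2)) * T ^ (ε / 2) = T ^ (ε / 2) + k * (T ^ (ε / 2) / (ε / 2)) := by
      ring
    rw [h9]
    have h10 := mul_le_mul_of_nonneg_left h7 hk0.le
    linarith
  have h6 : 0 ≤ Real.log ((M : ℝ) ^ k) := Real.log_nonneg (one_le_pow₀ hM1)
  set X : ℝ := (M : ℝ) ^ (s * (2 * k)) with hX
  have hX0 : 0 < X := by positivity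
  have hTa : T ≤ T ^ (1 + 2 * k * a) * T ^ (ε / 2) := by
    rw [← Real.rpow_add hT0]
    calc T = T ^ (1 : ℝ) := (Real.rpow_one T).symm
      _ ≤ _ := Real.rpow_le_rpow_of_exponent_le hT (by
        have : 0 ≤ 2 * (k : ℝ) * a := by positivity
        linarith)
  have h7 : (M : ℝ) ^ k * (T + 2 * (M : ℝ) ^ k * (1 + Real.log ((M : ℝ) ^ k))) ≤
      (1 + 2 * (1 + k / (ε / 2))) * (X * (T ^ (1 + 2 * k * a) * T ^ (ε / 2))) := by
    have h8 : (M : ℝ) ^ k * T ≤ X * (T ^ (1 + 2 * k * a) * T ^ (ε / 2)) :=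
      mul_le_mul h3 hTa hT0.le hX0.le
    have h9 : ((M : ℝ) ^ k * (M : ℝ) ^ k) * (1 + Real.log ((M : ℝ) ^ k)) ≤
        (X * T ^ (1 + 2 * k * a)) * ((1 + k / (ε / 2)) * T ^ (ε / 2)) :=
      mul_le_mul h4 h5 (by linarith) (by positivity)
    calc (M : ℝ) ^ k * (T + 2 * (M : ℝ) ^ k * (1 + Real.log ((M : ℝ) ^ k))) =
        (M : ℝ) ^ k * T + 2 * (((M : ℝ) ^ k * (M : ℝ) ^ k) *
          (1 + Real.log ((M : ℝ) ^ k))) := by ring
      _ ≤ X * (T ^ (1 + 2 * k * a) * T ^ (ε / 2)) + 2 * ((X * T ^ (1 + 2 * k * a)) *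
          ((1 + k / (ε / 2)) * T ^ (ε / 2))) := by linarith
      _ = _ := by ring
  have h8 : T ^ (ε / 2) * (T ^ (1 + 2 * k * a) * T ^ (ε / 2)) =
      T ^ (2 * k * a) * T ^ (1 + ε) := by
    rw [← Real.rpow_add hT0, ← Real.rpow_add hT0, ← Real.rpow_add hT0]
    congr 1
    ring
  have h9 : 0 ≤ (M : ℝ) ^ k * (T + 2 * (M : ℝ) ^ k * (1 + Real.log ((M : ℝ) ^ k))) := by
    positivity
  calc ((K * ((M : ℝ) ^ k) ^ δ) ^ k) ^ 2 * ((M : ℝ) ^ k * (T + 2 * (M : ℝ) ^ k *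
        (1 + Real.log ((M : ℝ) ^ k)))) ≤
      ((K ^ k) ^ 2 * T ^ (ε / 2)) *
        ((1 + 2 * (1 + k / (ε / 2))) * (X * (T ^ (1 + 2 * k * a) * T ^ (ε / 2)))) :=
        mul_le_mul h2 h7 h9 (by positivity)
    _ = (K ^ k) ^ 2 * (1 + 2 * (1 + k / (ε / 2))) * (X *
          (T ^ (ε / 2) * (T ^ (1 + 2 * k * a) * T ^ (ε / 2)))) := by ring
    _ = (K ^ k) ^ 2 * (1 + 2 * (1 + k / (ε / 2))) * (X * T ^ (2 * k * a)) * T ^ (1 + ε) := by
        rw [h8]
        ring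
    _ ≤ _ := by
        have h9 : X * T ^ (2 * k * a) ≤ X * T ^ (2 * k * a) + X := by linarith
        gcongr

end Pool.Agent.Ben
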