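import Pool.Agent.Ben.Targets

/-!
# Ben, block SHF: shift of a line of integration
-/

set_option autoImplicit false

open MeasureTheory Filter Topology Set

namespace Pool.Agent.Ben

private theorem SHF_kern : Integrable fun y : ℝ => (1 + |y|) ^ (-(3 / 2) : ℝ) := by
  have h := integrable_one_add_norm (E := ℝ) (μ := (volume : Measure ℝ)) (r := 3 / 2)
    (by rw [Module.finrank_self]; norm_num)
  simpa using h

private theorem SHF_line (f : ℂ → ℂ) (a b M : ℝ)
    (hd : ∀ s : ℂ, a ≤ s.re → s.re ≤ b → DifferentiableAt ℂ f s)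
    (hB : ∀ c y : ℝ, a ≤ c → c ≤ b →
      ‖f (c + y * Complex.I)‖ ≤ M * (1 + |y|) ^ (-(3 / 2) : ℝ))
    (c : ℝ) (hc : a ≤ c) (hcb : c ≤ b) : Integrable fun y : ℝ => f (c + y * Complex.I) := by
  have hcont : Continuous fun y : ℝ => f (c + y * Complex.I) := by
    rw [continuous_iff_continuousAt]
    intro y
    have h1 : ContinuousAt f (c + y * Complex.I) := by
      refine (hd _ ?_ ?_).continuousAt
      · simpa using hc
      · simpa using hcb
    have h2 : ContinuousAt (fun y : ℝ => (c : ℂ) + y * Complex.I) y := by fun_prop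
    exact ContinuousAt.comp (f := fun y : ℝ => (c : ℂ) + y * Complex.I) h1 h2
  refine Integrable.mono' (SHF_kern.const_mul M) hcont.aestronglyMeasurable ?_
  filter_upwards with y using hB c y hc hcb

theorem p_SHF : T_SHF := by
  intro f a b M hab hd hB
  have hi := SHF_line f a b M hd hB
  have i0 := hi a le_rfl hab
  have ib := hi b hab le_rfl
  have t0 := intervalIntegral_tendsto_integral i0 tendsto_neg_atTop_atBot tendsto_id
  have tb := intervalIntegral_tendsto_integral ib tendsto_neg_atTop_atBot tendsto_id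
  have hdiff := (tb.sub t0).norm
  have hz : Tendsto (fun T : ℝ => 2 * (M * (1 + T) ^ (-(3 / 2) : ℝ) * (b - a))) atTop (𝓝 0) := by
    have h1 : Tendsto (fun T : ℝ => (1 + T) ^ (-(3 / 2) : ℝ)) atTop (𝓝 0) := by
      have h0 : Tendsto (fun T : ℝ => 1 + T) atTop atTop :=
        tendsto_atTop_add_const_left _ _ tendsto_id
      exact (tendsto_rpow_neg_atTop (by norm_num : (0 : ℝ) < 3 / 2)).comp h0
    have h2 := ((h1.const_mul M).mul_const (b - a)).const_mul 2
    simpa using h2
  have hle : ∀ᶠ T : ℝ in atTop,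
      ‖(∫ y in (-T)..(id T), f (b + y * Complex.I)) - ∫ y in (-T)..(id T),
        f (a + y * Complex.I)‖ ≤ 2 * (M * (1 + T) ^ (-(3 / 2) : ℝ) * (b - a)) := by
    filter_upwards [eventually_ge_atTop (0 : ℝ)] with T hT
    have hrect := Complex.integral_boundary_rect_eq_zero_of_differentiableOn f
      (⟨a, -T⟩ : ℂ) (⟨b, T⟩ : ℂ) (by
        intro s hs
        rw [Complex.mem_reProdIm] at hs
        simp only at hs
        rw [Set.uIcc_of_le hab] at hs
        exact (hd s hs.1.1 hs.1.2).differentiableWithinAt)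
    simp only [smul_eq_mul] at hrect
    have hI : Complex.I * ((∫ y : ℝ in (-T)..T, f (b + y * Complex.I)) -
        ∫ y : ℝ in (-T)..T, f (a + y * Complex.I)) =
        (∫ x : ℝ in a..b, f (x + (T : ℝ) * Complex.I)) -
          ∫ x : ℝ in a..b, f (x + ((-T : ℝ) : ℂ) * Complex.I) := by
      linear_combination hrect
    have hn : ‖(∫ y : ℝ in (-T)..T, f (b + y * Complex.I)) -
        ∫ y : ℝ in (-T)..T, f (a + y * Complex.I)‖ =
        ‖(∫ x : ℝ in a..b, f (x + (T : ℝ) * Complex.I)) -
          ∫ x : ℝ in a..b, f (x + ((-T : ℝ) : ℂ) * Complex.I)‖ := by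
      rw [← hI, norm_mul, Complex.norm_I, one_mul]
    simp only [id]
    rw [hn]
    have b1 : ∀ S : ℝ, |S| = T → ‖∫ x : ℝ in a..b, f (x + (S : ℂ) * Complex.I)‖ ≤
        (M * (1 + T) ^ (-(3 / 2) : ℝ)) * |b - a| := by
      intro S hS
      refine intervalIntegral.norm_integral_le_of_norm_le_const fun x hx => ?_
      rw [Set.uIoc_of_le hab] at hx
      have h := hB x S hx.1.le hx.2
      rwa [hS] at h
    have h1 := b1 T (abs_of_nonneg hT)
    have h2 := b1 (-T) (by rw [abs_neg, abs_of_nonneg hT])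
    rw [abs_of_nonneg (sub_nonneg.2 hab)] at h1 h2
    refine (norm_sub_le _ _).trans ?_
    linarith
  have hfin : ‖(∫ y : ℝ, f (b + y * Complex.I)) - ∫ y : ℝ, f (a + y * Complex.I)‖ ≤ 0 :=
    le_of_tendsto_of_tendsto hdiff hz hle
  have h3 := norm_le_zero_iff.1 hfin
  exact (sub_eq_zero.1 h3).symm

end Pool.Agent.Ben
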