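import Pool.Agent.Ben.Targets10
import Pool.Agent.Ben.P_MPT

/-!
# Target S_PT: zeta on the line `Re = s` is bounded by the weighted mean of the smoothed sums
-/

set_option autoImplicit false

namespace Pool.Agent.Ben

open Complex MeasureTheory Set Filter Topology
open Pool.Agent.DBN

lemma SPT_dom (Z : ℝ → ℝ) (hZ : Continuous Z) (hZ0 : ∀ v, 0 ≤ Z v) (K : ℝ)
    (hK : ∀ v ≤ 0, Z v ≤ K * Real.exp (v / 2)) (l L : ℝ) (h0 : 0 ≤ l) (h1 : l ≤ L / 2)
    (hL : 0 ≤ L) :
    ∫ ω in (-(11 / 20 * L))..(11 / 20 * L), (Z (l - |ω|) + 1) ≤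
      2 * (2 * K + L + ∫ v in (0 : ℝ)..(L / 2), Z v) := by
  set B : ℝ := 11 / 20 * L with hB
  have hB0 : 0 ≤ B := by positivity
  have hK0 : 0 ≤ K := by
    have := (hZ0 0).trans (hK 0 le_rfl)
    simpa using this
  have hi : ∀ a b : ℝ, IntervalIntegrable Z volume a b := fun a b => hZ.intervalIntegrable a b
  have hF : Continuous fun ω : ℝ => Z (l - |ω|) + 1 := by fun_prop
  have e1 : ∫ ω in (0 : ℝ)..B, (Z (l - |ω|) + 1) = ∫ ω in (0 : ℝ)..B, (Z (l - ω) + 1) := by
    refine intervalIntegral.integral_congr fun ω hω => ?_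
    rw [uIcc_of_le hB0] at hω
    rw [abs_of_nonneg hω.1]
  have e2 : ∫ ω in (-B)..0, (Z (l - |ω|) + 1) = ∫ ω in (0 : ℝ)..B, (Z (l - ω) + 1) := by
    rw [← e1]
    have h3 := intervalIntegral.integral_comp_neg (a := 0) (b := B)
      (fun ω : ℝ => Z (l - |ω|) + 1)
    rw [neg_zero] at h3
    rw [← h3]
    refine intervalIntegral.integral_congr fun ω _ => ?_
    simp only [abs_neg]
  have e3 : ∫ ω in (0 : ℝ)..B, (Z (l - ω) + 1) = (∫ v in (l - B)..l, Z v) + B := by
    have h3 : Continuous fun ω : ℝ => Z (l - ω) := by fun_prop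
    rw [intervalIntegral.integral_add (f := fun ω : ℝ => Z (l - ω)) (g := fun _ => (1 : ℝ))
      (h3.intervalIntegrable _ _) intervalIntegrable_const,
      intervalIntegral.integral_comp_sub_left Z l]
    simp
  have e4 : ∫ ω in (-B)..B, (Z (l - |ω|) + 1) = 2 * ((∫ v in (l - B)..l, Z v) + B) := by
    rw [← intervalIntegral.integral_add_adjacent_intervals (hF.intervalIntegrable (-B) 0)
      (hF.intervalIntegrable 0 B), e2, e1, e3]
    ring
  rw [e4]
  have h4 : ∫ v in (l - B)..l, Z v = (∫ v in (l - B)..0, Z v) + ∫ v in (0 : ℝ)..l, Z v :=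
    (intervalIntegral.integral_add_adjacent_intervals (hi _ _) (hi _ _)).symm
  have h5 : ∫ v in (l - B)..0, Z v ≤ 2 * K := by
    have hle : l - B ≤ 0 := by linarith
    have hd : ∀ v ∈ uIcc (l - B) 0, HasDerivAt (fun v => 2 * K * Real.exp (v / 2))
        (K * Real.exp (v / 2)) v := by
      intro v _
      have h6 : HasDerivAt (fun v : ℝ => v / 2) (1 / 2) v := (hasDerivAt_id v).div_const 2
      exact (h6.exp.const_mul (2 * K)).congr_deriv (by ring)
    have hc : Continuous fun v : ℝ => K * Real.exp (v / 2) := by fun_prop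
    calc ∫ v in (l - B)..0, Z v ≤ ∫ v in (l - B)..0, K * Real.exp (v / 2) :=
          intervalIntegral.integral_mono_on hle (hi _ _) (hc.intervalIntegrable _ _)
            fun v hv => hK v hv.2
      _ = 2 * K * Real.exp (0 / 2) - 2 * K * Real.exp ((l - B) / 2) :=
          intervalIntegral.integral_eq_sub_of_hasDerivAt hd (hc.intervalIntegrable _ _)
      _ ≤ 2 * K := by
          have := Real.exp_pos ((l - B) / 2)
          rw [zero_div, Real.exp_zero]
          nlinarith
  have h6 : ∫ v in (0 : ℝ)..l, Z v ≤ ∫ v in (0 : ℝ)..(L / 2), Z v := by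
    rw [← intervalIntegral.integral_add_adjacent_intervals (hi 0 l) (hi l (L / 2))]
    have : 0 ≤ ∫ v in l..(L / 2), Z v :=
      intervalIntegral.integral_nonneg h1 fun v _ => hZ0 v
    linarith
  have h7 : B ≤ L := by rw [hB]; linarith
  linarith

theorem p_SPT : S_XI → S_PT := by
  intro hXI s hs hs1
  obtain ⟨Cx, hCx, hx⟩ := xi_two 1
  obtain ⟨C₂, T₂, hC₂, hT₂, hfar⟩ := win_far (c := 1) (δ := 1 / 20) one_pos (by norm_num) 1
  obtain ⟨C₁, T₁, hC₁, hT₁, hz⟩ := win_zsum
  set K : ℝ := Real.exp 1 * Nw.S32 with hK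
  have hK0 : 0 ≤ K := mul_nonneg (Real.exp_pos 1).le Nw.S32_nonneg
  set h : ℝ := s - 1 / 2 with hh
  have hh0 : 0 ≤ h := by linarith
  have hh1 : h ≤ 1 / 2 := by linarith
  refine ⟨Cx * (8 * C₂ + 2 * C₁ * (2 * K + 1)), max (max T₁ T₂) 7, by positivity,
    le_trans (by norm_num) (le_max_right _ _), fun T hT => ?_⟩
  have hTa : T₁ ≤ T := (le_max_left T₁ T₂).trans ((le_max_left _ _).trans hT)
  have hTb : T₂ ≤ T := (le_max_right T₁ T₂).trans ((le_max_left _ _).trans hT)
  have hT7 : 7 ≤ T := (le_max_right _ _).trans hT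
  have hT2 : 2 ≤ T := by linarith
  have hT1 : 1 ≤ T := by linarith
  have hT0 : 0 < T := by linarith
  have hs0 := size_pos hT0
  have hπ := Real.pi_pos
  have hL : 0 < Real.log T := Real.log_pos (by linarith)
  set L : ℝ := Real.log T with hLd
  set W : ℝ := T ^ (h / 2) with hW
  have hW0 : 0 < W := Real.rpow_pos_of_pos hT0 _
  have hW1 : 1 ≤ W := Real.one_le_rpow hT1 (by linarith)
  have hTexp : ∀ y : ℝ, T ^ y = Real.exp (L * y) := fun y => by
    rw [Real.rpow_def_of_pos hT0, ← hLd]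
  set Z : ℝ → ℝ := fun v => Real.exp (-h * v) * ‖zsum (Real.exp v) (T - Real.pi / 8)‖ with hZd
  have hZc : Continuous Z := by
    have h3 : Continuous fun v : ℝ => Real.exp (-h * v) := by fun_prop
    exact h3.mul (MPT_cont _).norm
  have hZ0 : ∀ v, 0 ≤ Z v := fun v => mul_nonneg (Real.exp_pos _).le (norm_nonneg _)
  have hZK : ∀ v ≤ 0, Z v ≤ K * Real.exp (v / 2) := by
    intro v hv
    have h3 := Nw.norm_zsum_le (Real.exp_pos v) (T - Real.pi / 8)
    calc Z v ≤ Real.exp (-h * v) * (K * Real.exp v) :=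
          mul_le_mul_of_nonneg_left h3 (Real.exp_pos _).le
      _ = K * Real.exp (-h * v + v) := by
          rw [Real.exp_add]
          ring
      _ ≤ K * Real.exp (v / 2) := by
          refine mul_le_mul_of_nonneg_left (Real.exp_le_exp.2 ?_) hK0
          nlinarith
  set l : ℝ := Real.log (√(T / (2 * Real.pi))) with hl
  have hl2 : l = Real.log (T / (2 * Real.pi)) / 2 := by
    rw [hl, Real.log_sqrt (by positivity)]
  have h2π : 2 * Real.pi ≤ T := by
    have := Real.pi_lt_d2
    linarith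
  have hl0 : 0 ≤ l := by
    rw [hl2]
    have : 0 ≤ Real.log (T / (2 * Real.pi)) :=
      Real.log_nonneg ((one_le_div (by positivity)).mpr h2π)
    linarith
  have hl1 : l ≤ L / 2 := by
    rw [hl2, hLd]
    have h3 : T / (2 * Real.pi) ≤ T := by
      apply div_le_self hT0.le
      have := Real.pi_gt_three
      linarith
    have := Real.log_le_log (by positivity) h3
    linarith
  have hdom := SPT_dom Z hZc hZ0 K hZK l L hl0 hl1 hL.le
  set B : ℝ := 11 / 20 * L with hB
  have hB0 : 0 ≤ B := by positivity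
  set g : ℝ → ℝ := fun ω => C₂ * size T * W * Real.exp (-(1 / (8 * L)) * ω ^ 2) +
    (Icc (-B) B).indicator (fun ω => C₁ * size T * W * (Z (l - |ω|) + 1)) ω with hg
  have hpt : ∀ ω : ℝ, ‖(Real.exp (-h * ω) : ℂ) * win ω T‖ ≤ g ω := by
    intro ω
    have hn : ‖(Real.exp (-h * ω) : ℂ) * win ω T‖ ≤ Real.exp (h * |ω|) * ‖win ω T‖ := by
      rw [norm_mul, Complex.norm_real, Real.norm_eq_abs, abs_of_pos (Real.exp_pos _)]
      refine mul_le_mul_of_nonneg_right (Real.exp_le_exp.2 ?_) (norm_nonneg _)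
      have := neg_abs_le ω
      nlinarith
    refine hn.trans ?_
    simp only [hg]
    rcases le_or_gt |ω| B with h' | h'
    · have hm : ω ∈ Icc (-B) B := abs_le.mp h'
      rw [indicator_of_mem hm]
      have h3 : ‖win ω T‖ = ‖win (-|ω|) T‖ := by
        rcases le_total 0 ω with h4 | h4
        · rw [abs_of_nonneg h4, norm_win_neg]
        · rw [abs_of_nonpos h4, neg_neg]
      have h5 := (hz T (-|ω|) hTa (by rw [abs_neg, abs_abs]; exact h')).1
      have h6 : Real.exp (-|ω|) * √(T / (2 * Real.pi)) = Real.exp (l - |ω|) := by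
        rw [hl, sub_eq_neg_add, Real.exp_add, Real.exp_log (by positivity)]
      rw [h6] at h5
      rw [h3]
      have h8 : 0 ≤ C₂ * size T * W * Real.exp (-(1 / (8 * L)) * ω ^ 2) := by positivity
      have ha : Real.exp (h * |ω|) * ‖zsum (Real.exp (l - |ω|)) (T - Real.pi / 8)‖ ≤
          W * Z (l - |ω|) := by
        have e1 : Real.exp (h * |ω|) = Real.exp (h * l) * Real.exp (-h * (l - |ω|)) := by
          rw [← Real.exp_add]
          congr 1
          ring
        have e2 : Real.exp (h * l) ≤ W := by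
          rw [hW, hTexp]
          refine Real.exp_le_exp.2 ?_
          nlinarith
        simp only [hZd]
        rw [e1, mul_assoc]
        exact mul_le_mul_of_nonneg_right e2 (hZ0 _)
      have hb : Real.exp (h * |ω|) * T ^ (-(1 / 20) : ℝ) ≤ W := by
        rw [hW, hTexp, hTexp, ← Real.exp_add]
        refine Real.exp_le_exp.2 ?_
        have h9 : h * |ω| ≤ h * B := mul_le_mul_of_nonneg_left h' hh0
        rw [hB] at h9
        nlinarith
      have h9 : Real.exp (h * |ω|) * ‖win (-|ω|) T‖ ≤ C₁ * size T * W * (Z (l - |ω|) + 1) := by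
        calc Real.exp (h * |ω|) * ‖win (-|ω|) T‖
            ≤ Real.exp (h * |ω|) * (C₁ * size T * (‖zsum (Real.exp (l - |ω|))
              (T - Real.pi / 8)‖ + T ^ (-(1 / 20) : ℝ))) :=
              mul_le_mul_of_nonneg_left h5 (Real.exp_pos _).le
          _ = C₁ * size T * (Real.exp (h * |ω|) * ‖zsum (Real.exp (l - |ω|))
              (T - Real.pi / 8)‖ + Real.exp (h * |ω|) * T ^ (-(1 / 20) : ℝ)) := by ring
          _ ≤ C₁ * size T * (W * Z (l - |ω|) + W) :=
              mul_le_mul_of_nonneg_left (add_le_add ha hb) (by positivity)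
          _ = _ := by ring
      linarith
    · have hm : ω ∉ Icc (-B) B := fun hm => absurd (abs_le.mpr hm) (not_le.mpr h')
      rw [indicator_of_notMem hm, add_zero]
      have h5 := hfar T ω hTb (by
        have : (1 / 2 + 1 / 20 : ℝ) * Real.log T = B := by rw [hB, ← hLd]; ring
        rw [this]; exact h'.le)
      have h7 : Real.exp (h * |ω|) * (T ^ (-(1 : ℝ)) *
          Real.exp (-(1 * ω ^ 2 / (4 * Real.log T)))) ≤ Real.exp (-(1 / (8 * L)) * ω ^ 2) := by
        rw [hTexp, ← Real.exp_add, ← Real.exp_add, ← hLd]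
        refine Real.exp_le_exp.2 ?_
        have e1 : -(1 * ω ^ 2 / (4 * L)) = -(1 / (8 * L)) * ω ^ 2 - |ω| ^ 2 / (8 * L) := by
          rw [sq_abs]
          field_simp
          ring
        rw [e1]
        have e2 : h * |ω| ≤ |ω| ^ 2 / (8 * L) + L / 2 := by
          have e3 : |ω| ^ 2 / (8 * L) + L / 2 - |ω| / 2 = (|ω| - 2 * L) ^ 2 / (8 * L) := by
            field_simp
            ring
          have e4 : 0 ≤ (|ω| - 2 * L) ^ 2 / (8 * L) := by positivity
          have e5 : h * |ω| ≤ 1 / 2 * |ω| := mul_le_mul_of_nonneg_right hh1 (abs_nonneg _)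
          linarith
        linarith
      calc Real.exp (h * |ω|) * ‖win ω T‖
          ≤ Real.exp (h * |ω|) * (C₂ * size T * T ^ (-(1 : ℝ)) *
            Real.exp (-(1 * ω ^ 2 / (4 * Real.log T)))) :=
            mul_le_mul_of_nonneg_left h5 (Real.exp_pos _).le
        _ = C₂ * size T * (Real.exp (h * |ω|) * (T ^ (-(1 : ℝ)) *
            Real.exp (-(1 * ω ^ 2 / (4 * Real.log T))))) := by ring
        _ ≤ C₂ * size T * Real.exp (-(1 / (8 * L)) * ω ^ 2) :=
            mul_le_mul_of_nonneg_left h7 (by positivity)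
        _ ≤ C₂ * size T * W * Real.exp (-(1 / (8 * L)) * ω ^ 2) := by
            refine mul_le_mul_of_nonneg_right ?_ (Real.exp_pos _).le
            exact le_mul_of_one_le_right (by positivity) hW1
  have hi1 : Integrable fun ω : ℝ => C₂ * size T * W * Real.exp (-(1 / (8 * L)) * ω ^ 2) :=
    (integrable_exp_neg_mul_sq (by positivity)).const_mul _
  have hF : Continuous fun ω : ℝ => C₁ * size T * W * (Z (l - |ω|) + 1) := by fun_prop
  have hi2 : Integrable ((Icc (-B) B).indicator
      (fun ω : ℝ => C₁ * size T * W * (Z (l - |ω|) + 1))) :=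
    (hF.integrableOn_Icc).integrable_indicator measurableSet_Icc
  have hint : ‖∫ ω : ℝ, (Real.exp (-h * ω) : ℂ) * win ω T‖ ≤ ∫ ω : ℝ, g ω :=
    norm_integral_le_of_norm_le (hi1.add hi2) (Eventually.of_forall hpt)
  have hg1 : ∫ ω : ℝ, g ω = C₂ * size T * W * √(Real.pi / (1 / (8 * L))) +
      C₁ * size T * W * ∫ ω in (-B)..B, (Z (l - |ω|) + 1) := by
    simp only [hg]
    rw [integral_add hi1 hi2, integral_const_mul, integral_gaussian,
      integral_indicator measurableSet_Icc, integral_Icc_eq_integral_Ioc,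
      ← intervalIntegral.integral_of_le (by linarith), intervalIntegral.integral_const_mul]
  have hsq : √(Real.pi / (1 / (8 * L))) ≤ 8 * (1 + L) := by
    apply Real.sqrt_le_iff.mpr
    refine ⟨by positivity, ?_⟩
    have e1 : Real.pi / (1 / (8 * L)) = 8 * Real.pi * L := by field_simp
    rw [e1]
    have := Real.pi_lt_d2
    nlinarith [mul_pos hπ hL]
  have hflow : ‖xi (s + T * I)‖ ≤ ‖∫ ω : ℝ, (Real.exp (-h * ω) : ℂ) * win ω T‖ := by
    have h3 := hXI h T
    have e1 : (1 / 2 + (h : ℂ) + T * I) = (s : ℂ) + T * I := by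
      rw [hh]
      push_cast
      ring
    rw [e1] at h3
    rw [h3, norm_mul, Complex.norm_real, Real.norm_eq_abs, abs_of_pos (by positivity)]
    have h4 : (2 * Real.pi)⁻¹ ≤ 1 := inv_le_one_of_one_le₀ (by
      have := Real.pi_gt_three
      linarith)
    have h5 : Real.exp (-h ^ 2) ≤ 1 := Real.exp_le_one_iff.2 (by nlinarith)
    have h6 : (2 * Real.pi)⁻¹ * Real.exp (-h ^ 2) ≤ 1 :=
      mul_le_one₀ h4 (Real.exp_pos _).le h5
    calc (2 * Real.pi)⁻¹ * Real.exp (-h ^ 2) *
          ‖∫ ω : ℝ, (Real.exp (-h * ω) : ℂ) * win ω T‖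
        ≤ 1 * ‖∫ ω : ℝ, (Real.exp (-h * ω) : ℂ) * win ω T‖ :=
          mul_le_mul_of_nonneg_right h6 (norm_nonneg _)
      _ = _ := one_mul _
  have hxi := (hx s T (by rw [abs_of_nonneg (by linarith)]; exact hs1.le) hT2).2
  rw [← hh, ← hW] at hxi
  have hJe : ∫ v in (0 : ℝ)..(L / 2), Real.exp (-h * v) *
      ‖zsum (Real.exp v) (T - Real.pi / 8)‖ = ∫ v in (0 : ℝ)..(L / 2), Z v := rfl
  rw [hJe]
  set J : ℝ := ∫ v in (0 : ℝ)..(L / 2), Z v with hJ
  have hJ0 : 0 ≤ J := intervalIntegral.integral_nonneg (by positivity) fun v _ => hZ0 v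
  have hfin : W * size T * ‖riemannZeta (s + T * I)‖ ≤
      W * size T * (Cx * (8 * C₂ + 2 * C₁ * (2 * K + 1)) * (1 + L + J)) := by
    refine hxi.trans ?_
    have h3 : ‖xi (s + T * I)‖ ≤ C₂ * size T * W * (8 * (1 + L)) +
        C₁ * size T * W * (2 * (2 * K + L + J)) := by
      refine (hflow.trans hint).trans ?_
      rw [hg1]
      exact add_le_add (mul_le_mul_of_nonneg_left hsq (by positivity))
        (mul_le_mul_of_nonneg_left hdom (by positivity))
    have h4 : C₂ * size T * W * (8 * (1 + L)) + C₁ * size T * W * (2 * (2 * K + L + J)) ≤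
        W * size T * ((8 * C₂ + 2 * C₁ * (2 * K + 1)) * (1 + L + J)) := by
      have e1 : C₂ * size T * W * (8 * (1 + L)) + C₁ * size T * W * (2 * (2 * K + L + J)) =
          W * size T * (8 * C₂ * (1 + L) + 2 * C₁ * (2 * K + L + J)) := by ring
      rw [e1]
      refine mul_le_mul_of_nonneg_left ?_ (by positivity)
      have h5 : 8 * C₂ * (1 + L) ≤ 8 * C₂ * (1 + L + J) :=
        mul_le_mul_of_nonneg_left (by linarith) (by positivity)
      have h6 : 2 * C₁ * (2 * K + L + J) ≤ 2 * C₁ * ((2 * K + 1) * (1 + L + J)) :=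
        mul_le_mul_of_nonneg_left
          (by nlinarith [mul_nonneg hK0 hL.le, mul_nonneg hK0 hJ0]) (by positivity)
      calc 8 * C₂ * (1 + L) + 2 * C₁ * (2 * K + L + J)
          ≤ 8 * C₂ * (1 + L + J) + 2 * C₁ * ((2 * K + 1) * (1 + L + J)) := add_le_add h5 h6
        _ = _ := by ring
    calc Cx * ‖xi (s + T * I)‖
        ≤ Cx * (W * size T * ((8 * C₂ + 2 * C₁ * (2 * K + 1)) * (1 + L + J))) := by
          gcongr
          exact h3.trans h4
      _ = _ := by ring
  exact le_of_mul_le_mul_left hfin (by positivity)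

end Pool.Agent.Ben
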