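import Pool.Agent.Ben.Targets

/-!
# The cut off sum and the line `Re s = 2`: two exchanges (target SUM)
-/

set_option autoImplicit false

namespace Pool.Agent.Ben

open Complex MeasureTheory Set

theorem SUM_rho_le {N n : ℕ} (h : n ≤ N) : rho N n = 1 := by
  unfold rho
  have h1 : (n : ℝ) ≤ N := by exact_mod_cast h
  rw [min_eq_left (by linarith), max_eq_right zero_le_one]

theorem SUM_rho_ge {N : ℕ} {x : ℝ} (h : (N : ℝ) + 1 ≤ x) : rho N x = 0 := by
  unfold rho
  rw [max_eq_left]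
  exact (min_le_right _ _).trans (by linarith)

theorem SUM_re (T v : ℝ) : ((2 : ℂ) + (T + v : ℝ) * I).re = 2 := by simp

theorem SUM_nz (T v : ℝ) : (1 : ℂ) + (T + v : ℝ) * I ≠ 0 := by
  intro h
  have := congrArg Complex.re h
  simp at this

theorem SUM_norm_cpow (n : ℕ) (T v : ℝ) :
    ‖1 / ((n : ℂ) + 1) ^ ((2 : ℂ) + (T + v : ℝ) * I)‖ = 1 / ((n : ℝ) + 1) ^ 2 := by
  have h0 : (0 : ℝ) < (n : ℝ) + 1 := by positivity
  have h1 : ((n : ℂ) + 1) = (((n : ℝ) + 1 : ℝ) : ℂ) := by push_cast; ring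
  rw [norm_div, norm_one, h1, norm_cpow_eq_rpow_re_of_pos h0, SUM_re]
  norm_num

theorem SUM_summable : Summable fun n : ℕ => 1 / ((n : ℝ) + 1) ^ 2 := by
  have h := (summable_nat_add_iff (f := fun n : ℕ => 1 / (n : ℝ) ^ 2) 1).2
    (Real.summable_one_div_nat_pow.2 one_lt_two)
  refine h.congr fun n => ?_
  push_cast
  rfl

theorem SUM_cont_zeta (T : ℝ) : Continuous fun v : ℝ => riemannZeta (2 + (T + v : ℝ) * I) := by
  rw [continuous_iff_continuousAt]
  intro v
  have h1 : (2 : ℂ) + (T + v : ℝ) * I ≠ 1 := by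
    intro h
    have := congrArg Complex.re h
    rw [SUM_re, one_re] at this
    norm_num at this
  have h2 : ContinuousAt riemannZeta (2 + (T + v : ℝ) * I) :=
    (differentiableAt_riemannZeta h1).continuousAt
  have h3 : ContinuousAt (fun v : ℝ => (2 : ℂ) + (T + v : ℝ) * I) v := by fun_prop
  exact ContinuousAt.comp (f := fun v : ℝ => (2 : ℂ) + (T + v : ℝ) * I) h2 h3

theorem SUM_zeta_eq (T v : ℝ) : riemannZeta (2 + (T + v : ℝ) * I) =
    ∑' n : ℕ, 1 / ((n : ℂ) + 1) ^ ((2 : ℂ) + (T + v : ℝ) * I) :=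
  zeta_eq_tsum_one_div_nat_add_one_cpow (by rw [SUM_re]; norm_num)

theorem SUM_zeta_bdd (T v : ℝ) : ‖riemannZeta (2 + (T + v : ℝ) * I)‖ ≤
    ∑' n : ℕ, 1 / ((n : ℝ) + 1) ^ 2 := by
  rw [SUM_zeta_eq]
  have h1 : Summable fun n : ℕ => ‖1 / ((n : ℂ) + 1) ^ ((2 : ℂ) + (T + v : ℝ) * I)‖ := by
    refine SUM_summable.congr fun n => ?_
    rw [SUM_norm_cpow]
  refine (norm_tsum_le_tsum_norm h1).trans (le_of_eq ?_)
  exact tsum_congr fun n => SUM_norm_cpow n T v

theorem SUM_int_zeta {R : ℝ → ℂ} (hR : Integrable R) (T : ℝ) :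
    Integrable fun v : ℝ => R v * riemannZeta (2 + (T + v : ℝ) * I) :=
  hR.mul_bdd (SUM_cont_zeta T).aestronglyMeasurable
    (Filter.Eventually.of_forall fun v => SUM_zeta_bdd T v)

theorem SUM_int_pole {R : ℝ → ℂ} (hR : Integrable R) (T : ℝ) :
    Integrable fun v : ℝ => R v * (1 / (1 + (T + v : ℝ) * I)) := by
  refine hR.mul_bdd (c := 1) ?_ (Filter.Eventually.of_forall fun v => ?_)
  · apply Continuous.aestronglyMeasurable
    exact continuous_const.div (by fun_prop) fun v => SUM_nz T v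
  · rw [norm_div, norm_one, div_le_one (norm_pos_iff.2 (SUM_nz T v))]
    have h1 := Complex.abs_re_le_norm ((1 : ℂ) + (T + v : ℝ) * I)
    have h2 : ((1 : ℂ) + (T + v : ℝ) * I).re = 1 := by simp
    rw [h2, abs_one] at h1
    exact h1

/-- The first exchange. -/
theorem SUM_A {N : ℕ} {R : ℝ → ℂ} (hR : Integrable R) (c : ℂ)
    (hρ : ∀ x : ℝ, 0 < x → (rho N x : ℂ) = c * ∫ v : ℝ, R v * (x : ℂ) ^ (-(2 + v * I) : ℂ))
    (T : ℝ) : ∑ n ∈ Finset.Icc 1 N, (n : ℂ) ^ (-(T * I) : ℂ) =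
      c * ∫ v : ℝ, R v * riemannZeta (2 + (T + v : ℝ) * I) := by
  set F : ℕ → ℝ → ℂ := fun n v => R v * (1 / ((n : ℂ) + 1) ^ ((2 : ℂ) + (T + v : ℝ) * I))
    with hF
  have h1 : ∀ n : ℕ, ((rho N ((n : ℝ) + 1) : ℝ) : ℂ) * ((n : ℂ) + 1) ^ (-(T * I) : ℂ) =
      c * ∫ v : ℝ, F n v := by
    intro n
    have h0 : (0 : ℝ) < (n : ℝ) + 1 := by positivity
    have hne : ((n : ℂ) + 1) ≠ 0 := by exact_mod_cast h0.ne'
    rw [hρ _ h0, mul_assoc, ← integral_mul_const]
    congr 1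
    apply integral_congr_ae
    refine Filter.Eventually.of_forall fun v => ?_
    simp only [hF]
    have h2 : (((n : ℝ) + 1 : ℝ) : ℂ) = (n : ℂ) + 1 := by push_cast; ring
    rw [h2, mul_assoc, ← cpow_add _ _ hne, one_div, ← cpow_neg]
    congr 2
    push_cast
    ring
  have hint : ∀ n : ℕ, Integrable (F n) := by
    intro n
    refine hR.mul_bdd (c := 1 / ((n : ℝ) + 1) ^ 2) ?_
      (Filter.Eventually.of_forall fun v => (SUM_norm_cpow n T v).le)
    apply Continuous.aestronglyMeasurable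
    have h0 : (0 : ℝ) < (n : ℝ) + 1 := by positivity
    have hne : ((n : ℂ) + 1) ≠ 0 := by exact_mod_cast h0.ne'
    refine continuous_const.div ?_ fun v => ?_
    · exact Continuous.const_cpow (by fun_prop) (Or.inl hne)
    · rw [Ne, cpow_eq_zero_iff]
      tauto
  have hnorm : ∀ (n : ℕ), ∫ v : ℝ, ‖F n v‖ = (∫ v : ℝ, ‖R v‖) * (1 / ((n : ℝ) + 1) ^ 2) := by
    intro n
    rw [← integral_mul_const]
    apply integral_congr_ae
    refine Filter.Eventually.of_forall fun v => ?_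
    simp only [hF]
    rw [norm_mul, SUM_norm_cpow]
  have hsum : Summable fun n : ℕ => ∫ v : ℝ, ‖F n v‖ := by
    simp_rw [hnorm]
    exact SUM_summable.mul_left _
  have h2 := integral_tsum_of_summable_integral_norm hint hsum
  have h3 : (∫ v : ℝ, ∑' n : ℕ, F n v) =
      ∫ v : ℝ, R v * riemannZeta (2 + (T + v : ℝ) * I) := by
    apply integral_congr_ae
    refine Filter.Eventually.of_forall fun v => ?_
    simp only [hF]
    rw [tsum_mul_left, SUM_zeta_eq]
  rw [← h3, ← h2, ← tsum_mul_left]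
  simp_rw [← h1]
  rw [tsum_eq_sum (s := Finset.range N)]
  · have h5 : Finset.Icc 1 N = Finset.Ico (0 + 1) (N + 1) := by
      ext n
      simp only [Finset.mem_Icc, Finset.mem_Ico]
      omega
    rw [h5, ← Finset.sum_Ico_add' (fun n : ℕ => (n : ℂ) ^ (-(T * I) : ℂ)) 0 N 1,
      ← Finset.range_eq_Ico]
    refine Finset.sum_congr rfl fun n hn => ?_
    rw [Finset.mem_range] at hn
    have h6 : (n : ℝ) + 1 = ((n + 1 : ℕ) : ℝ) := by push_cast; ring
    rw [h6, SUM_rho_le (by omega), ofReal_one, one_mul]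
    push_cast
    ring
  · intro n hn
    rw [Finset.mem_range, not_lt] at hn
    have h4 : (N : ℝ) ≤ n := by exact_mod_cast hn
    rw [SUM_rho_ge (by linarith), ofReal_zero, zero_mul]

/-- The second exchange. -/
theorem SUM_B {N : ℕ} {R : ℝ → ℂ} (hR : Integrable R) (c : ℂ)
    (hρ : ∀ x : ℝ, 0 < x → (rho N x : ℂ) = c * ∫ v : ℝ, R v * (x : ℂ) ^ (-(2 + v * I) : ℂ))
    (T : ℝ) : (∫ x in (1 : ℝ)..(N + 1), (rho N x : ℂ) * (x : ℂ) ^ (-(T * I) : ℂ)) =
      c * ∫ v : ℝ, R v * (1 / (1 + (T + v : ℝ) * I)) := by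
  have hN : (1 : ℝ) ≤ (N : ℝ) + 1 := by
    have : (0 : ℝ) ≤ N := Nat.cast_nonneg N
    linarith
  set G : ℝ → ℝ → ℂ := fun x v => R v * (x : ℂ) ^ (-(2 + (T + v : ℝ) * I) : ℂ) with hG
  have h1 : (∫ x in (1 : ℝ)..(N + 1), (rho N x : ℂ) * (x : ℂ) ^ (-(T * I) : ℂ)) =
      ∫ x in Ioi (1 : ℝ), (rho N x : ℂ) * (x : ℂ) ^ (-(T * I) : ℂ) := by
    rw [intervalIntegral.integral_of_le hN]
    symm
    apply setIntegral_eq_of_subset_of_forall_sdiff_eq_zero measurableSet_Ioi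
      (fun x hx => hx.1)
    intro x hx
    have h2 : (N : ℝ) + 1 ≤ x := by
      by_contra h3
      exact hx.2 ⟨hx.1, (not_le.1 h3).le⟩
    rw [SUM_rho_ge h2, ofReal_zero, zero_mul]
  have h2 : (∫ x in Ioi (1 : ℝ), (rho N x : ℂ) * (x : ℂ) ^ (-(T * I) : ℂ)) =
      ∫ x in Ioi (1 : ℝ), c * ∫ v : ℝ, G x v := by
    apply setIntegral_congr_fun measurableSet_Ioi
    intro x hx
    have hx0 : (0 : ℝ) < x := zero_lt_one.trans hx
    have hne : (x : ℂ) ≠ 0 := by exact_mod_cast hx0.ne'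
    show (rho N x : ℂ) * (x : ℂ) ^ (-(T * I) : ℂ) = c * ∫ v : ℝ, G x v
    rw [hρ x hx0, mul_assoc, ← integral_mul_const]
    congr 1
    apply integral_congr_ae
    refine Filter.Eventually.of_forall fun v => ?_
    simp only [hG]
    rw [mul_assoc, ← cpow_add _ _ hne]
    congr 2
    push_cast
    ring
  have h3 : Integrable (Function.uncurry G) ((volume.restrict (Ioi (1 : ℝ))).prod volume) := by
    have h4 : Integrable (fun x : ℝ => ((x ^ (-2 : ℝ) : ℝ) : ℂ))
        (volume.restrict (Ioi (1 : ℝ))) :=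
      (integrableOn_Ioi_rpow_of_lt (by norm_num) one_pos).ofReal
    have h5 := h4.mul_prod hR
    have h6 : Integrable (fun z : ℝ × ℝ => (z.1 : ℂ) ^ (-((T + z.2 : ℝ) * I) : ℂ) *
        (((z.1 ^ (-2 : ℝ) : ℝ) : ℂ) * R z.2))
        ((volume.restrict (Ioi (1 : ℝ))).prod volume) := by
      refine h5.bdd_mul (c := 1) ?_ ?_
      · apply Measurable.aestronglyMeasurable
        fun_prop
      · have h7 : ∀ᵐ z ∂((volume.restrict (Ioi (1 : ℝ))).prod (volume : Measure ℝ)),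
            z.1 ∈ Ioi (1 : ℝ) := by
          have h8 : ∀ᵐ x ∂(volume.restrict (Ioi (1 : ℝ))), x ∈ Ioi (1 : ℝ) :=
            ae_restrict_mem measurableSet_Ioi
          exact Measure.quasiMeasurePreserving_fst.ae h8
        filter_upwards [h7] with z hz
        have hz0 : (0 : ℝ) < z.1 := zero_lt_one.trans hz
        rw [norm_cpow_eq_rpow_re_of_pos hz0]
        have h9 : (-((T + z.2 : ℝ) * I) : ℂ).re = 0 := by simp
        rw [h9, Real.rpow_zero]
    refine h6.congr ?_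
    have h7 : ∀ᵐ z ∂((volume.restrict (Ioi (1 : ℝ))).prod (volume : Measure ℝ)),
        z.1 ∈ Ioi (1 : ℝ) := by
      have h8 : ∀ᵐ x ∂(volume.restrict (Ioi (1 : ℝ))), x ∈ Ioi (1 : ℝ) :=
        ae_restrict_mem measurableSet_Ioi
      exact Measure.quasiMeasurePreserving_fst.ae h8
    filter_upwards [h7] with z hz
    have hz0 : (0 : ℝ) < z.1 := zero_lt_one.trans hz
    have hne : (z.1 : ℂ) ≠ 0 := by exact_mod_cast hz0.ne'
    simp only [Function.uncurry, hG]
    rw [ofReal_cpow hz0.le, ← mul_assoc, ← cpow_add _ _ hne, mul_comm]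
    congr 2
    push_cast
    ring
  rw [h1, h2, integral_const_mul, integral_integral_swap h3]
  congr 1
  apply integral_congr_ae
  refine Filter.Eventually.of_forall fun v => ?_
  simp only [hG]
  rw [integral_const_mul]
  congr 1
  rw [integral_Ioi_cpow_of_lt (by simp) one_pos, ofReal_one, one_cpow]
  have h4 : (-(2 + (T + v : ℝ) * I) + 1 : ℂ) = -(1 + (T + v : ℝ) * I) := by ring
  rw [h4, neg_div_neg_eq]

theorem p_SUM : T_SUM := by
  intro hINV hMEL hRB N hN T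
  obtain ⟨hR, hρ⟩ := hINV hMEL hRB N hN 2 two_pos
  have e2 : ((2 : ℝ) : ℂ) = 2 := by norm_num
  simp only [e2] at hR hρ
  rw [SUM_A hR _ hρ T, SUM_B hR _ hρ T, ← mul_add, ← integral_add (SUM_int_pole hR T)]
  · congr 1
    apply integral_congr_ae
    refine Filter.Eventually.of_forall fun v => ?_
    show _ = _ + _
    ring
  · have h1 := (SUM_int_zeta hR T).sub (SUM_int_pole hR T)
    refine h1.congr (Filter.Eventually.of_forall fun v => ?_)
    simp only [Pi.sub_apply]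
    ring

end Pool.Agent.Ben
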