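import Pool.Agent.Ben.Targets10
import Pool.Agent.DBN.Good
import Pool.Agent.DBN.WinUp

/-!
# Benford dictionary, all lines: the target `S_XI`
-/

set_option autoImplicit false

namespace Pool.Agent.Ben

open Complex MeasureTheory Set

theorem p_SXI : S_XI := by
  intro h T
  set s₀ : ℂ := 1 / 2 + h + T * I with hs₀
  set g : ℝ → ℂ := fun ω => (Real.exp (-h * ω) : ℂ) * Pool.Agent.DBN.win ω T with hg
  -- the integrand after the substitution
  have h2 : ∀ x : ℝ, g (-2 * (x + h)) = (√Real.pi : ℂ) * ((Real.exp (h ^ 2) : ℂ) *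
      ((Real.exp (-x ^ 2) : ℂ) * Pool.Agent.DBN.flow (-1) (s₀ + x))) := by
    intro x
    simp only [hg]
    rw [Pool.Agent.DBN.win_eq]
    have e1 : (1 / 2 + T * I + (-((-2 * (x + h)) / 2) : ℝ) : ℂ) = s₀ + x := by
      rw [hs₀]
      push_cast
      ring
    rw [e1]
    have e2 : Real.exp (-h * (-2 * (x + h))) * Real.exp (-((-2 * (x + h)) ^ 2 / 4)) =
        Real.exp (h ^ 2) * Real.exp (-x ^ 2) := by
      rw [← Real.exp_add, ← Real.exp_add]
      congr 1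
      ring
    have e3 : (Real.exp (-h * (-2 * (x + h))) : ℂ) * (Real.exp (-((-2 * (x + h)) ^ 2 / 4)) : ℂ) =
        (Real.exp (h ^ 2) : ℂ) * (Real.exp (-x ^ 2) : ℂ) := by
      exact_mod_cast e2
    linear_combination ((√Real.pi : ℂ) * Pool.Agent.DBN.flow (-1) (s₀ + x)) * e3
  have h1 := Measure.integral_comp_mul_left g (-2)
  have h3 : ∫ x : ℝ, g (-2 * (x + h)) = ∫ x : ℝ, g (-2 * x) :=
    integral_add_right_eq_self (fun x : ℝ => g (-2 * x)) h
  rw [← h3] at h1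
  simp_rw [h2] at h1
  rw [integral_const_mul, integral_const_mul] at h1
  have h4 : |(-2 : ℝ)⁻¹| = 2⁻¹ := by
    rw [inv_neg, abs_neg, abs_of_pos (by norm_num)]
  rw [h4, Complex.real_smul] at h1
  have h5 := Pool.Agent.DBN.flow_semi (t := 0) (by norm_num) s₀
  rw [Pool.Agent.DBN.flow_zero] at h5
  have h6 : ∫ x : ℝ, (Real.exp (-x ^ 2) : ℂ) *
      Pool.Agent.DBN.flow (-1) (s₀ + √(1 + 0) * x) =
      ∫ x : ℝ, (Real.exp (-x ^ 2) : ℂ) * Pool.Agent.DBN.flow (-1) (s₀ + x) := by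
    refine integral_congr_ae (Filter.Eventually.of_forall fun x => ?_)
    simp only [add_zero, Real.sqrt_one, Complex.ofReal_one, one_mul]
  rw [h6] at h5
  set J : ℂ := ∫ x : ℝ, (Real.exp (-x ^ 2) : ℂ) * Pool.Agent.DBN.flow (-1) (s₀ + x) with hJ
  have hp : (√Real.pi : ℂ) ≠ 0 := Pool.Agent.DBN.sqrt_pi_ne
  have hq : (√Real.pi : ℂ) * (√Real.pi : ℂ) = (Real.pi : ℂ) := by
    exact_mod_cast Real.mul_self_sqrt Real.pi_pos.le
  have hpi : (Real.pi : ℂ) ≠ 0 := by exact_mod_cast Real.pi_pos.ne'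
  have he : (Real.exp (-h ^ 2) : ℂ) * (Real.exp (h ^ 2) : ℂ) = 1 := by
    have : Real.exp (-h ^ 2) * Real.exp (h ^ 2) = 1 := by
      rw [← Real.exp_add]
      simp
    exact_mod_cast this
  have h7 : ∫ ω : ℝ, g ω = 2 * ((√Real.pi : ℂ) * ((Real.exp (h ^ 2) : ℂ) * J)) := by
    rw [h1]
    push_cast
    ring
  rw [h7, h5]
  have h8 : (((2 * Real.pi)⁻¹ * Real.exp (-h ^ 2) : ℝ) : ℂ) =
      (2 * (Real.pi : ℂ))⁻¹ * (Real.exp (-h ^ 2) : ℂ) := by
    push_cast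
    ring
  rw [h8, ← hq]
  field_simp
  linear_combination (-J) * he

end Pool.Agent.Ben
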