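import Pool.Agent.Ben.Targets10

/-!
# Ben, all lines, target `S_ZK`: means of order `2 k` of zeta on the lines `Re s ≥ 1 - 1/k`
-/

set_option autoImplicit false

namespace Pool.Agent.Ben

open Complex MeasureTheory Set

theorem p_SZK : S_ZQ → S_GK → S_ZK := by
  intro hZ hG k hk s hs1 hs2 hs3 ε hε
  have hk1 : (1 : ℝ) ≤ k := by exact_mod_cast hk
  set ε' : ℝ := min (ε / 2) (1 / 8) with hε'
  have h0 : 0 < ε' := lt_min (by linarith) (by norm_num)
  have h1 : ε' ≤ ε / 2 := min_le_left _ _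
  have h2 : ε' ≤ 1 / 8 := min_le_right _ _
  have h3 := hG k hk s hs1 hs2 hs3 (1 / 2 + ε') (by linarith) (by linarith)
  set a' : ℝ := max 0 ((2 * (1 / 2 + ε') - 1) / (2 * k)) with ha'
  have h4 : a' ≤ ε' := by
    apply max_le h0.le
    have h5 : 2 * (1 / 2 + ε') - 1 = 2 * ε' := by ring
    rw [h5, div_le_iff₀ (by positivity)]
    nlinarith
  have h5 : 0 ≤ a' := le_max_left _ _
  obtain ⟨C, hC⟩ := hZ (2 * k) s a' 1 (1 / 2 + ε') (by linarith) hs1 hs3 h5 one_pos
    (by linarith) (by linarith) h3 (ε / 2) (by linarith)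
  refine ⟨|C|, fun T hT => (hC T hT).trans ?_⟩
  have hT0 : 0 < T := by linarith
  calc C * T ^ (1 + 2 * k * (a' + ε / 2)) ≤ |C| * T ^ (1 + 2 * k * (a' + ε / 2)) :=
        mul_le_mul_of_nonneg_right (le_abs_self _) (by positivity)
    _ ≤ |C| * T ^ (1 + 2 * k * (0 + ε)) := by
        apply mul_le_mul_of_nonneg_left _ (abs_nonneg _)
        apply Real.rpow_le_rpow_of_exponent_le hT
        have h6 : 2 * (k : ℝ) * (a' + ε / 2) ≤ 2 * k * (0 + ε) := by
          apply mul_le_mul_of_nonneg_left _ (by positivity)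
          linarith
        linarith

end Pool.Agent.Ben
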