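import Pool.Agent.Ben.Targets10
import Pool.Agent.Ben.P_SUML

/-!
# The growth of zeta on the line `Re = s` from Gaussian sums
-/

set_option autoImplicit false

namespace Pool.Agent.Ben

open Complex MeasureTheory Set

private theorem SZP_log {η T : ℝ} (hη : 0 < η) (hT : 1 ≤ T) :
    1 + Real.log T ≤ (1 + 1 / η) * T ^ η := by
  have h1 : Real.log T ≤ T ^ η / η := Real.log_le_rpow_div (by linarith) hη
  have h3 : 1 ≤ T ^ η := Real.one_le_rpow hT hη.le
  calc 1 + Real.log T ≤ T ^ η + T ^ η / η := by linarith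
    _ = _ := by ring

private theorem SZP_cont {s : ℝ} (hs : s < 1) :
    Continuous fun t : ℝ => ‖riemannZeta (s + t * I)‖ := by
  refine Continuous.norm (continuous_iff_continuousAt.mpr fun t => ?_)
  have h : (s + t * I : ℂ) ≠ 1 := by
    intro h
    have := congrArg Complex.re h
    simp at this
    linarith
  have h1 : ContinuousAt (fun t : ℝ => (s + t * I : ℂ)) t := by fun_prop
  exact ContinuousAt.comp (f := fun t : ℝ => (s + t * I : ℂ))
    (differentiableAt_riemannZeta h).continuousAt h1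

private theorem SZP_even (s t : ℝ) :
    ‖riemannZeta (s + ((-t : ℝ) : ℂ) * I)‖ = ‖riemannZeta (s + t * I)‖ := by
  have h : (s + ((-t : ℝ) : ℂ) * I : ℂ) = (starRingEnd ℂ) (s + t * I) := by
    rw [map_add, map_mul, Complex.conj_ofReal, Complex.conj_ofReal, Complex.conj_I]
    push_cast
    ring
  rw [h, riemannZeta_conj, Complex.norm_conj]

/-- the size of `M` -/
private theorem SZP_size {κ β d : ℝ} (hκ : 0 < κ) (hβ : 1 / 2 < β) (hβ1 : β ≤ 1)
    (hd : d ≤ (β - 1 / 2) / 4) : ∃ T₁ : ℝ, ∀ T : ℝ, T₁ ≤ T → 1 ≤ T → ∀ N : ℝ, 0 ≤ N →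
      N ≤ √(2 * T) → N * T ^ d ≤ κ * (T / (4 * Real.pi)) ^ β := by
  have hpi0 := Real.pi_pos
  have hpi := Real.pi_gt_three
  have hev := (tendsto_rpow_atTop (y := (β - 1 / 2) / 2) (by linarith)).eventually_ge_atTop
    (√2 * (4 * Real.pi) / κ)
  obtain ⟨T₁, hT₁⟩ := Filter.eventually_atTop.1 hev
  refine ⟨T₁, fun T hT hT1 N hN0 hN => ?_⟩
  have hT0 : 0 < T := by linarith
  have h1 := hT₁ T hT
  have h2 : √(2 * T) = √2 * T ^ (1 / 2 : ℝ) := by
    rw [Real.sqrt_mul (by norm_num), Real.sqrt_eq_rpow T]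
  have h3 : T ^ (1 / 2 + d) * T ^ ((β - 1 / 2) / 2) ≤ T ^ β := by
    rw [← Real.rpow_add hT0]
    exact Real.rpow_le_rpow_of_exponent_le hT1 (by linarith)
  have h4 : T ^ β / (4 * Real.pi) ≤ (T / (4 * Real.pi)) ^ β := by
    rw [Real.div_rpow hT0.le (by positivity)]
    refine div_le_div_of_nonneg_left (by positivity) (by positivity) ?_
    calc (4 * Real.pi) ^ β ≤ (4 * Real.pi) ^ (1 : ℝ) :=
          Real.rpow_le_rpow_of_exponent_le (by linarith) hβ1
      _ = 4 * Real.pi := Real.rpow_one _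
  calc N * T ^ d ≤ √(2 * T) * T ^ d := by gcongr
    _ = √2 * T ^ (1 / 2 + d) := by
      rw [h2, Real.rpow_add hT0]
      ring
    _ = κ / (4 * Real.pi) * (T ^ (1 / 2 + d) * (√2 * (4 * Real.pi) / κ)) := by
      field_simp
    _ ≤ κ / (4 * Real.pi) * (T ^ (1 / 2 + d) * T ^ ((β - 1 / 2) / 2)) := by gcongr
    _ ≤ κ / (4 * Real.pi) * T ^ β := by gcongr
    _ = κ * (T ^ β / (4 * Real.pi)) := by ring
    _ ≤ _ := by gcongr

/-- fixed `v` -/
private theorem SZP_fix (hT : T_TAIL) {s a κ β : ℝ} (hs : 1 / 2 ≤ s) (hs1 : s < 1) (ha : 0 ≤ a)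
    (hκ : 0 < κ) (hβ : 1 / 2 < β) (hβ1 : β ≤ 1) (hG : GG s a s κ β) {ε : ℝ} (hε : 0 < ε) :
    ∃ C T₁ : ℝ, 0 ≤ C ∧ ∀ T : ℝ, T₁ ≤ T → ∀ v : ℝ, 0 ≤ v → v ≤ Real.log T / 2 →
      Real.exp (-(s - 1 / 2) * v) *
        ‖Pool.Agent.DBN.zsum (Real.exp v) (T - Real.pi / 8)‖ ≤ C * T ^ (a + ε) := by
  have hpi0 := Real.pi_pos
  have hpi := Real.pi_gt_three
  set d : ℝ := min (ε / 2) ((β - 1 / 2) / 4) with hd
  have hd0 : 0 < d := lt_min (by positivity) (by linarith)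
  have hd1 : d ≤ ε / 2 := min_le_left _ _
  have hd2 : d ≤ (β - 1 / 2) / 4 := min_le_right _ _
  obtain ⟨T₀, hT₀⟩ := hT d hd0
  obtain ⟨C₀, hC₀⟩ := hG (ε / 2) (by positivity)
  obtain ⟨T₂, hT₂⟩ := SZP_size hκ hβ hβ1 hd2
  have hS := Pool.Agent.DBN.Nw.S32_nonneg
  set B : ℝ := Real.exp 1 * Pool.Agent.DBN.Nw.S32 * Real.exp 1 with hB
  have hB0 : 0 ≤ B := by positivity
  set D : ℝ := Real.exp (1 / 4) * (2 * |C₀| + 1) with hD
  have hD0 : 0 ≤ D := by positivity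
  refine ⟨B + D, max (max T₀ T₂) (4 * Real.pi), by positivity, fun T hT3 v hv0 hv => ?_⟩
  have ht0 : T₀ ≤ T := (le_max_left _ _).trans ((le_max_left _ _).trans hT3)
  have ht2 : T₂ ≤ T := (le_max_right _ _).trans ((le_max_left _ _).trans hT3)
  have htp : 4 * Real.pi ≤ T := (le_max_right _ _).trans hT3
  have hT1 : 1 ≤ T := by linarith
  have hT0 : 0 < T := by linarith
  have hTe : 1 ≤ T ^ (a + ε) := Real.one_le_rpow hT1 (by linarith)
  set N : ℝ := Real.exp v with hN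
  have hN0 : 0 < N := Real.exp_pos v
  have hN1 : 1 ≤ N := Real.one_le_exp hv0
  set h : ℝ := s - 1 / 2 with hh
  have hh0 : 0 ≤ h := by rw [hh]; linarith
  have hexp1 : Real.exp (-h * v) ≤ 1 := by
    rw [Real.exp_le_one_iff]
    nlinarith
  have hexpN : Real.exp (-h * v) = N ^ (-h) := by
    rw [hN, ← Real.exp_mul]
    congr 1
    ring
  have hn0 : 0 ≤ ‖Pool.Agent.DBN.zsum N (T - Real.pi / 8)‖ := norm_nonneg _
  rcases le_total v 1 with hv1 | hv1
  · have h1 : ‖Pool.Agent.DBN.zsum N (T - Real.pi / 8)‖ ≤ B := by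
      refine (Pool.Agent.DBN.Nw.norm_zsum_le hN0 _).trans ?_
      have : N ≤ Real.exp 1 := Real.exp_le_exp.2 hv1
      rw [hB]
      gcongr
    calc Real.exp (-h * v) * ‖Pool.Agent.DBN.zsum N (T - Real.pi / 8)‖ ≤ 1 * B := by gcongr
      _ = B * 1 := by ring
      _ ≤ (B + D) * T ^ (a + ε) := by gcongr; linarith
  set N₁ : ℝ := N / Real.exp 1 with hN₁
  have he1 : (2 : ℝ) ≤ Real.exp 1 := by
    have := Real.add_one_le_exp (1 : ℝ); linarith
  have hNe : Real.exp 1 ≤ N := Real.exp_le_exp.2 hv1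
  have hN₁1 : 1 ≤ N₁ := by rw [hN₁, le_div_iff₀ (Real.exp_pos _)]; linarith
  have hN₁2 : 2 * N₁ ≤ N := by
    have : N = N₁ * Real.exp 1 := by rw [hN₁]; field_simp
    nlinarith
  have hNs : N ≤ √(2 * T) := by
    have h1 : N ≤ √T := by
      rw [hN, Real.sqrt_eq_rpow, Real.rpow_def_of_pos hT0]
      apply Real.exp_le_exp.2
      linarith
    exact h1.trans (Real.sqrt_le_sqrt (by linarith))
  have hNT : N ≤ T := by
    refine hNs.trans ?_
    rw [Real.sqrt_le_left hT0.le]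
    nlinarith
  have hTd : 1 ≤ T ^ d := Real.one_le_rpow hT1 hd0.le
  have hNTd : 1 ≤ N₁ * T ^ d := by nlinarith
  set M : ℕ := ⌈N₁ * T ^ d⌉₊ with hM
  have hM1 : N₁ * T ^ d ≤ M := Nat.le_ceil _
  have hM2 : (M : ℝ) < N₁ * T ^ d + 1 := Nat.ceil_lt_add_one (by positivity)
  have hM3 : (M : ℝ) ≤ N * T ^ d := by nlinarith
  have hM4 : 1 ≤ M := by
    have : (1 : ℝ) ≤ M := hNTd.trans hM1
    exact_mod_cast this
  have hM5 : N₁ ≤ M := by nlinarith
  have hM6 : N₁ * T ^ d ≤ (M : ℝ) + 1 := by linarith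
  set t : ℝ := (T - Real.pi / 8) / (2 * Real.pi) with ht
  have ht4 : T / (4 * Real.pi) ≤ t := by
    rw [ht, div_le_div_iff₀ (by positivity) (by positivity)]
    nlinarith
  have hT4 : 1 ≤ T / (4 * Real.pi) := by rw [le_div_iff₀ (by positivity)]; linarith
  have ht1 : 1 ≤ t := hT4.trans ht4
  have htT : t ≤ T := by
    rw [ht, div_le_iff₀ (by positivity)]
    nlinarith
  have hMκ : (M : ℝ) ≤ κ * t ^ β := by
    refine (hM3.trans (hT₂ T ht2 hT1 N hN0.le hNs)).trans ?_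
    gcongr
  have hA := hC₀ t ht1 M hM4 hMκ N₁ hN₁1 hM5
  obtain ⟨hsum, htail⟩ := hT₀ T N₁ ht0 hN₁1 M hM6
  have hmain := SUML_split hN0 (T - Real.pi / 8) M hA hsum htail
  have hN₁T : N₁ / T ≤ 1 := by rw [div_le_one hT0]; linarith
  have ht0' : 0 < t := by linarith
  have hM0 : (0 : ℝ) ≤ M := Nat.cast_nonneg M
  have hMs : (M : ℝ) ^ s ≤ N ^ s * T ^ d := by
    calc (M : ℝ) ^ s ≤ (N * T ^ d) ^ s := Real.rpow_le_rpow hM0 hM3 (by linarith)
      _ = N ^ s * (T ^ d) ^ s := Real.mul_rpow hN0.le (by positivity)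
      _ ≤ N ^ s * (T ^ d) ^ (1 : ℝ) := by
        gcongr
      _ = _ := by rw [Real.rpow_one]
  have hbig : C₀ * ((M : ℝ) ^ s * t ^ a + (M : ℝ) ^ s) * t ^ (ε / 2) ≤
      2 * |C₀| * (N ^ s * T ^ (a + ε)) := by
    have e1 : 1 ≤ t ^ a := Real.one_le_rpow ht1 ha
    have e2 : (M : ℝ) ^ s ≤ (M : ℝ) ^ s * t ^ a := le_mul_of_one_le_right (by positivity) e1
    have e3 : T ^ d * (T ^ a * T ^ (ε / 2)) ≤ T ^ (a + ε) := by
      rw [← Real.rpow_add hT0, ← Real.rpow_add hT0]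
      exact Real.rpow_le_rpow_of_exponent_le hT1 (by linarith)
    calc C₀ * ((M : ℝ) ^ s * t ^ a + (M : ℝ) ^ s) * t ^ (ε / 2) ≤
          |C₀| * ((M : ℝ) ^ s * t ^ a + (M : ℝ) ^ s) * t ^ (ε / 2) := by
          gcongr
          exact le_abs_self C₀
      _ ≤ |C₀| * ((M : ℝ) ^ s * t ^ a + (M : ℝ) ^ s * t ^ a) * t ^ (ε / 2) := by gcongr
      _ = 2 * |C₀| * ((M : ℝ) ^ s * (t ^ a * t ^ (ε / 2))) := by ring
      _ ≤ 2 * |C₀| * (N ^ s * T ^ d * (T ^ a * T ^ (ε / 2))) := by gcongr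
      _ = 2 * |C₀| * (N ^ s * (T ^ d * (T ^ a * T ^ (ε / 2)))) := by ring
      _ ≤ _ := by gcongr
  have hone : (1 : ℝ) ≤ N ^ s * T ^ (a + ε) := by
    have h1 : 1 ≤ N ^ s := Real.one_le_rpow hN1 (by linarith)
    nlinarith
  have hsq : N ^ (-h) / √N = (N ^ s)⁻¹ := by
    rw [Real.sqrt_eq_rpow, ← Real.rpow_sub hN0, ← Real.rpow_neg hN0.le]
    congr 1
    rw [hh]
    ring
  have hNs0 : 0 < N ^ s := Real.rpow_pos_of_pos hN0 s
  calc Real.exp (-h * v) * ‖Pool.Agent.DBN.zsum N (T - Real.pi / 8)‖ ≤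
        Real.exp (-h * v) * (Real.exp (1 / 4) / √N *
          (C₀ * ((M : ℝ) ^ s * t ^ a + (M : ℝ) ^ s) * t ^ (ε / 2) + N₁ / T)) := by gcongr
    _ ≤ Real.exp (-h * v) * (Real.exp (1 / 4) / √N *
          (2 * |C₀| * (N ^ s * T ^ (a + ε)) + N ^ s * T ^ (a + ε))) := by
        gcongr
        exact hN₁T.trans hone
    _ = Real.exp (1 / 4) * (2 * |C₀| + 1) * ((N ^ (-h) / √N) * N ^ s) * T ^ (a + ε) := by
        rw [hexpN]
        ring
    _ = D * T ^ (a + ε) := by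
        rw [hsq, inv_mul_cancel₀ hNs0.ne', mul_one]
    _ ≤ (B + D) * T ^ (a + ε) := by gcongr; linarith

/-- growth of zeta on the line `Re = s` from the Gaussian sums -/
theorem p_SZP : T_TAIL → S_PT → S_ZP := by
  intro hT hP s a κ β hs hs1 ha hκ hβ hβ1 hG ε hε
  obtain ⟨C₁, T₁, hC₁, hT₁, hζ⟩ := hP s hs hs1
  obtain ⟨C₂, T₂, hC₂, hZ⟩ := SZP_fix hT hs hs1 ha hκ hβ hβ1 hG (ε := ε / 2) (by positivity)
  set T₃ : ℝ := max T₁ T₂ with hT₃
  have hT₃2 : 2 ≤ T₃ := hT₁.trans (le_max_left _ _)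
  obtain ⟨B, hB⟩ := (isCompact_Icc (a := (0 : ℝ)) (b := T₃)).exists_bound_of_continuousOn
    (SZP_cont hs1).continuousOn
  have hε2 : 0 < ε / 2 := by positivity
  set A : ℝ := 1 + 1 / (ε / 2) with hA
  have hA0 : 0 ≤ A := by positivity
  have hae : 0 ≤ a + ε := by linarith
  -- positive ordinates
  have key : ∀ t : ℝ, 0 ≤ t → ‖riemannZeta (s + t * I)‖ ≤
      (|B| + C₁ * ((1 + C₂) * A)) * (1 + t) ^ (a + ε) := by
    intro t ht
    have h1t : 1 ≤ (1 + t) ^ (a + ε) := Real.one_le_rpow (by linarith) hae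
    rcases le_total t T₃ with htT | htT
    · have h1 := hB t ⟨ht, htT⟩
      rw [norm_norm] at h1
      have h2 : 0 ≤ C₁ * ((1 + C₂) * A) := by positivity
      calc ‖riemannZeta (s + t * I)‖ ≤ |B| := h1.trans (le_abs_self B)
        _ = |B| * 1 := (mul_one _).symm
        _ ≤ (|B| + C₁ * ((1 + C₂) * A)) * (1 + t) ^ (a + ε) := by
          gcongr
          linarith
    · have ht2 : 2 ≤ t := hT₃2.trans htT
      have ht1 : 1 ≤ t := by linarith
      have ht0 : 0 < t := by linarith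
      have hl : 0 ≤ Real.log t := Real.log_nonneg ht1
      have h1 := hζ t ((le_max_left _ _).trans htT)
      have h2 : ∫ v in (0 : ℝ)..(Real.log t / 2), Real.exp (-(s - 1 / 2) * v) *
          ‖Pool.Agent.DBN.zsum (Real.exp v) (t - Real.pi / 8)‖ ≤
          C₂ * t ^ (a + ε / 2) * (Real.log t / 2) := by
        have h3 : ‖∫ v in (0 : ℝ)..(Real.log t / 2), Real.exp (-(s - 1 / 2) * v) *
            ‖Pool.Agent.DBN.zsum (Real.exp v) (t - Real.pi / 8)‖‖ ≤
            C₂ * t ^ (a + ε / 2) * |Real.log t / 2 - 0| := by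
          refine intervalIntegral.norm_integral_le_of_norm_le_const fun v hv => ?_
          rw [uIoc_of_le (by linarith)] at hv
          rw [Real.norm_of_nonneg (by positivity)]
          exact hZ t ((le_max_right _ _).trans htT) v hv.1.le hv.2
        rw [sub_zero, abs_of_nonneg (by linarith)] at h3
        exact (le_abs_self _).trans h3
      have hta : 1 ≤ t ^ (a + ε / 2) := Real.one_le_rpow ht1 (by linarith)
      have hlog := SZP_log hε2 ht1
      have h4 : 1 + Real.log t + C₂ * t ^ (a + ε / 2) * (Real.log t / 2) ≤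
          (1 + C₂) * ((1 + Real.log t) * t ^ (a + ε / 2)) := by
        have e1 : 1 + Real.log t ≤ (1 + Real.log t) * t ^ (a + ε / 2) :=
          le_mul_of_one_le_right (by linarith) hta
        have e2 : C₂ * t ^ (a + ε / 2) * (Real.log t / 2) ≤
            C₂ * t ^ (a + ε / 2) * (1 + Real.log t) := by
          gcongr
          linarith
        linarith
      have h5 : (1 + Real.log t) * t ^ (a + ε / 2) ≤ A * t ^ (a + ε) := by
        calc (1 + Real.log t) * t ^ (a + ε / 2) ≤ (A * t ^ (ε / 2)) * t ^ (a + ε / 2) := by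
              gcongr
          _ = A * (t ^ (ε / 2) * t ^ (a + ε / 2)) := by ring
          _ = A * t ^ (a + ε) := by
              rw [← Real.rpow_add ht0]
              congr 2
              ring
      have h6 : t ^ (a + ε) ≤ (1 + t) ^ (a + ε) := Real.rpow_le_rpow ht0.le (by linarith) hae
      calc ‖riemannZeta (s + t * I)‖ ≤ _ := h1
        _ ≤ C₁ * (1 + Real.log t + C₂ * t ^ (a + ε / 2) * (Real.log t / 2)) := by gcongr
        _ ≤ C₁ * ((1 + C₂) * ((1 + Real.log t) * t ^ (a + ε / 2))) := by gcongr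
        _ ≤ C₁ * ((1 + C₂) * (A * t ^ (a + ε))) := by gcongr
        _ = C₁ * ((1 + C₂) * A) * t ^ (a + ε) := by ring
        _ ≤ (|B| + C₁ * ((1 + C₂) * A)) * (1 + t) ^ (a + ε) := by
          gcongr
          linarith [abs_nonneg B]
  refine ⟨|B| + C₁ * ((1 + C₂) * A), fun t => ?_⟩
  rcases le_total 0 t with ht | ht
  · rw [abs_of_nonneg ht]
    exact key t ht
  · have h1 := key (-t) (by linarith)
    rw [SZP_even] at h1
    rwa [abs_of_nonpos ht]

end Pool.Agent.Ben
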