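import Pool.Agent.Ben.Targets

set_option autoImplicit false

/-!
# The Gaussian tail
-/

namespace Pool.Agent.Ben

open Filter Topology

theorem TAIL_tel (M : ℕ) : HasSum (fun n : ℕ => 1 / ((n : ℝ) + M + 1) - 1 / ((n : ℝ) + M + 2))
    (1 / ((M : ℝ) + 1)) := by
  rw [hasSum_iff_tendsto_nat_of_nonneg]
  · have e : (fun n : ℕ => ∑ i ∈ Finset.range n,
        (1 / ((i : ℝ) + M + 1) - 1 / ((i : ℝ) + M + 2))) =
        fun n : ℕ => 1 / ((M : ℝ) + 1) - 1 / ((n : ℝ) + M + 1) := by
      funext n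
      have := Finset.sum_range_sub' (fun i : ℕ => 1 / ((i : ℝ) + M + 1)) n
      simp only [Nat.cast_zero, zero_add] at this
      rw [← this]
      refine Finset.sum_congr rfl fun i _ => ?_
      push_cast
      ring_nf
    rw [e]
    have h : Tendsto (fun n : ℕ => 1 / ((n : ℝ) + M + 1)) atTop (𝓝 0) := by
      simp_rw [one_div]
      refine Tendsto.comp tendsto_inv_atTop_zero ?_
      refine tendsto_atTop_mono (fun n => ?_) tendsto_natCast_atTop_atTop
      have : (0 : ℝ) ≤ M := Nat.cast_nonneg _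
      linarith
    simpa using h.const_sub (1 / ((M : ℝ) + 1))
  · intro n
    have h0 : (0 : ℝ) ≤ M := Nat.cast_nonneg _
    have h1 : (0 : ℝ) ≤ n := Nat.cast_nonneg _
    rw [sub_nonneg]
    apply one_div_le_one_div_of_le <;> linarith

theorem TAIL_sq {k : ℝ} (h : 1 ≤ k) : 1 / k ^ 2 ≤ 2 * (1 / k - 1 / (k + 1)) := by
  have h0 : 0 < k := by linarith
  have e : 2 * (1 / k - 1 / (k + 1)) = 2 / (k * (k + 1)) := by
    field_simp
    ring
  rw [e, div_le_div_iff₀ (by positivity) (by positivity)]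
  nlinarith

/-- the Gaussian tail -/
theorem p_TAIL : T_TAIL := by
  intro d hd
  set P : ℝ := 2 + 1 / d with hP
  have hP0 : 0 < P := by positivity
  refine ⟨max (Real.exp (4 * P / d)) ((2 : ℝ) ^ (1 / d)), fun T N hT hN M hM => ?_⟩
  have hT1 : Real.exp (4 * P / d) ≤ T := (le_max_left _ _).trans hT
  have hT2 : (2 : ℝ) ^ (1 / d) ≤ T := (le_max_right _ _).trans hT
  have hT0 : 0 < T := lt_of_lt_of_le (Real.exp_pos _) hT1
  have hN0 : 0 < N := by linarith
  have hTd : 2 ≤ T ^ d := by
    have := Real.rpow_le_rpow (by positivity) hT2 hd.le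
    rwa [← Real.rpow_mul (by norm_num), one_div_mul_cancel hd.ne', Real.rpow_one] at this
  have hTd0 : 0 < T ^ d := by positivity
  have hlog : 4 * P ≤ d * Real.log T := by
    have := Real.log_le_log (Real.exp_pos _) hT1
    rw [Real.log_exp, div_le_iff₀ hd] at this
    linarith
  have hM0 : (0 : ℝ) ≤ M := Nat.cast_nonneg _
  -- the terms
  have key : ∀ n : ℕ, Real.exp (-(Real.log ((n : ℝ) + M + 1) - Real.log N) ^ 2 / 4) ≤
      N ^ 2 / T * (2 * (1 / ((n : ℝ) + M + 1) - 1 / ((n : ℝ) + M + 2))) := by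
    intro n
    have hn0 : (0 : ℝ) ≤ n := Nat.cast_nonneg _
    set y : ℝ := (n : ℝ) + M + 1 with hy
    have hy0 : 1 ≤ y := by linarith
    have hyN : N * T ^ d ≤ y := by linarith
    set x : ℝ := Real.log y - Real.log N with hx
    have hx1 : d * Real.log T ≤ x := by
      have := Real.log_le_log (by positivity) hyN
      rw [Real.log_mul hN0.ne' hTd0.ne', Real.log_rpow hT0] at this
      linarith
    have hx2 : 4 * P ≤ x := hlog.trans hx1
    have h1 : -x ^ 2 / 4 ≤ -(2 * x) - Real.log T := by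
      have h3 : P * x ≤ x ^ 2 / 4 := by nlinarith
      have h4 : P * x = 2 * x + x / d := by rw [hP]; ring
      have h5 : Real.log T ≤ x / d := by
        rw [le_div_iff₀ hd]; linarith
      linarith
    have h2 : Real.exp (-(2 * x) - Real.log T) = N ^ 2 / T * (1 / y ^ 2) := by
      rw [Real.exp_sub, Real.exp_log hT0, Real.exp_neg, show 2 * x = x + x by ring,
        Real.exp_add, hx,
        Real.exp_sub, Real.exp_log (by linarith), Real.exp_log hN0]
      field_simp
    refine (Real.exp_le_exp.2 h1).trans ?_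
    rw [h2]
    refine mul_le_mul_of_nonneg_left ?_ (by positivity)
    have := TAIL_sq hy0
    have e : y + 1 = (n : ℝ) + M + 2 := by rw [hy]; ring
    rwa [e] at this
  have hs := (TAIL_tel M).mul_left 2
  have hs2 := hs.mul_left (N ^ 2 / T)
  have hsum : Summable fun n : ℕ =>
      Real.exp (-(Real.log ((n : ℝ) + M + 1) - Real.log N) ^ 2 / 4) :=
    Summable.of_nonneg_of_le (fun n => (Real.exp_pos _).le) key hs2.summable
  refine ⟨hsum, ?_⟩
  refine (hsum.tsum_le_tsum key hs2.summable).trans ?_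
  rw [hs2.tsum_eq]
  have h6 : N ^ 2 / T * (2 * (1 / ((M : ℝ) + 1))) = N / T * (2 * N / (M + 1)) := by
    field_simp
  rw [h6]
  refine mul_le_of_le_one_right (by positivity) ?_
  rw [div_le_one (by positivity)]
  nlinarith

end Pool.Agent.Ben
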