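import Pool.Agent.Ben.Targets3

/-!
# Block VALL: all statistics of bounded variation
-/

set_option autoImplicit false

namespace Pool.Agent.Ben

open Complex MeasureTheory Set

namespace VALL

lemma intervalIntegrable {f : ℝ → ℝ} (hf : BoundedVariationOn f (Icc 0 1)) :
    IntervalIntegrable f volume 0 1 := by
  obtain ⟨p, q, hp, hq, rfl⟩ :=
    hf.locallyBoundedVariationOn.exists_monotoneOn_sub_monotoneOn
  have hu : uIcc (0 : ℝ) 1 = Icc 0 1 := uIcc_of_le zero_le_one
  rw [← hu] at hp hq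
  exact hp.intervalIntegrable.sub hq.intervalIntegrable

/-- A value differs from the mean by at most the variation. -/
lemma dev {f : ℝ → ℝ} (hper : Function.Periodic f 1) (hf : BoundedVariationOn f (Icc 0 1))
    (y : ℝ) : |f y - ∫ u in (0 : ℝ)..1, f u| ≤ (eVariationOn f (Icc 0 1)).toReal := by
  have hint := intervalIntegrable hf
  have h1 : f y = f (Int.fract y) := by
    have := hper.sub_int_mul_eq ⌊y⌋ (x := y)
    rw [mul_one] at this
    rw [Int.fract]
    exact this.symm
  have h2 : f y - ∫ u in (0 : ℝ)..1, f u = ∫ u in (0 : ℝ)..1, (f y - f u) := by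
    rw [intervalIntegral.integral_sub (by simp) hint]
    simp
  have hfr : Int.fract y ∈ Icc (0 : ℝ) 1 :=
    ⟨Int.fract_nonneg y, (Int.fract_lt_one y).le⟩
  rw [h2, ← Real.norm_eq_abs]
  have h3 : ∀ u ∈ Set.uIoc (0 : ℝ) 1, ‖f y - f u‖ ≤ (eVariationOn f (Icc 0 1)).toReal := by
    intro u hu
    rw [uIoc_of_le zero_le_one] at hu
    rw [h1, ← dist_eq_norm]
    exact hf.dist_le hfr ⟨hu.1.le, hu.2⟩
  have h4 := intervalIntegral.norm_integral_le_of_norm_le_const h3
  simpa using h4

end VALL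

open VALL in
/-- All statistics of bounded variation. -/
theorem p_VALL : V_KOKG → V_ALL := by
  intro hK hD g hg ε hε
  obtain ⟨C, hC⟩ := hD ε hε (Real.log g) (Real.log_pos hg)
  have hlg : 0 < Real.log g := Real.log_pos hg
  have hlge : 0 < Real.log g ^ ε := Real.rpow_pos_of_pos hlg ε
  refine ⟨4 * |C| / Real.log g ^ ε + √(Real.log g), ?_⟩
  intro f hper hf x N hN hNx
  set V := (eVariationOn f (Icc 0 1)).toReal with hV
  have hV0 : 0 ≤ V := ENNReal.toReal_nonneg
  have hN1 : (1 : ℝ) ≤ (N : ℝ) := by exact_mod_cast hN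
  have hx1 : 1 ≤ x := le_trans hN1 hNx
  have hx0 : 0 < x := by linarith
  have hxe : 1 ≤ x ^ ε := Real.one_le_rpow hx1 hε.le
  have hsN : 0 ≤ √(N : ℝ) := Real.sqrt_nonneg _
  by_cases ht : 1 ≤ x / Real.log g
  · have hle : (N : ℝ) ≤ Real.log g * (x / Real.log g) := by
      rw [mul_div_cancel₀ _ hlg.ne']
      exact hNx
    have hpow : (x / Real.log g) ^ ε = x ^ ε / Real.log g ^ ε :=
      Real.div_rpow hx0.le hlg.le ε
    have hub : C * √(N : ℝ) * (x / Real.log g) ^ ε ≤
        |C| / Real.log g ^ ε * √(N : ℝ) * x ^ ε := by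
      rw [hpow]
      have : C * √(N : ℝ) * (x ^ ε / Real.log g ^ ε) ≤
          |C| * √(N : ℝ) * (x ^ ε / Real.log g ^ ε) := by
        gcongr
        exact le_abs_self C
      refine this.trans (le_of_eq ?_)
      ring
    have hDab : ∀ a b : ℝ, |∑ n ∈ Finset.Icc 1 N,
        (psi (x / Real.log g * Real.log n + b) - psi (x / Real.log g * Real.log n + a))| ≤
        2 * (|C| / Real.log g ^ ε * √(N : ℝ) * x ^ ε) := by
      intro a b
      have e1 := hC (x / Real.log g) ht N hN hle b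
      have e2 := hC (x / Real.log g) ht N hN hle a
      rw [Finset.sum_sub_distrib]
      refine (abs_sub _ _).trans ?_
      linarith
    have h1 := hK N (fun n => x / Real.log g * Real.log n) _ hDab f hper hf
    have h2 : ∑ n ∈ Finset.Icc 1 N, f (Real.logb g ((n : ℝ) ^ x)) =
        ∑ n ∈ Finset.Icc 1 N, f (x / Real.log g * Real.log n) := by
      refine Finset.sum_congr rfl fun n hn => ?_
      have hn1 : 1 ≤ n := (Finset.mem_Icc.1 hn).1
      have hn0 : (0 : ℝ) < n := by exact_mod_cast hn1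
      congr 1
      rw [Real.logb, Real.log_rpow hn0]
      ring
    rw [h2]
    refine h1.trans ?_
    rw [← hV]
    calc 2 * V * (2 * (|C| / Real.log g ^ ε * √(N : ℝ) * x ^ ε))
        = 4 * |C| / Real.log g ^ ε * V * √(N : ℝ) * x ^ ε + 0 := by ring
      _ ≤ 4 * |C| / Real.log g ^ ε * V * √(N : ℝ) * x ^ ε +
          √(Real.log g) * V * √(N : ℝ) * x ^ ε := by
        gcongr
        positivity
      _ = _ := by ring
  · push Not at ht
    rw [div_lt_one hlg] at ht
    have hNg : (N : ℝ) ≤ Real.log g := by linarith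
    have h1 : ∑ n ∈ Finset.Icc 1 N, f (Real.logb g ((n : ℝ) ^ x)) -
        N * ∫ u in (0 : ℝ)..1, f u =
        ∑ n ∈ Finset.Icc 1 N, (f (Real.logb g ((n : ℝ) ^ x)) - ∫ u in (0 : ℝ)..1, f u) := by
      rw [Finset.sum_sub_distrib]
      simp
    rw [h1]
    calc |∑ n ∈ Finset.Icc 1 N, (f (Real.logb g ((n : ℝ) ^ x)) - ∫ u in (0 : ℝ)..1, f u)|
        ≤ ∑ n ∈ Finset.Icc 1 N,
          |f (Real.logb g ((n : ℝ) ^ x)) - ∫ u in (0 : ℝ)..1, f u| :=
          Finset.abs_sum_le_sum_abs _ _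
      _ ≤ ∑ _n ∈ Finset.Icc 1 N, V := Finset.sum_le_sum fun n _ => dev hper hf _
      _ = (N : ℝ) * V := by simp
      _ = √(N : ℝ) * √(N : ℝ) * V := by rw [Real.mul_self_sqrt (by positivity)]
      _ ≤ √(Real.log g) * √(N : ℝ) * V := by gcongr
      _ ≤ √(Real.log g) * √(N : ℝ) * V * x ^ ε :=
          le_mul_of_one_le_right (by positivity) hxe
      _ = 0 + √(Real.log g) * V * √(N : ℝ) * x ^ ε := by ring
      _ ≤ 4 * |C| / Real.log g ^ ε * V * √(N : ℝ) * x ^ ε +
          √(Real.log g) * V * √(N : ℝ) * x ^ ε := by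
        gcongr
        positivity
      _ = _ := by ring

end Pool.Agent.Ben
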