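import Pool.Agent.Ben.Targets3

/-!
# LH and Benford's law, version 2, block VDIG: decimal digits and mantissa intervals
-/

set_option autoImplicit false

namespace Pool.Agent.Ben

open Complex MeasureTheory Set

/-- the mantissa of `y` in base ten -/
private noncomputable def VDIG_F (y : ℝ) : ℝ := (10 : ℝ) ^ Int.fract (Real.logb 10 y)

private theorem VDIG_one_le (y : ℝ) : 1 ≤ VDIG_F y :=
  Real.one_le_rpow (by norm_num) (Int.fract_nonneg _)

private theorem VDIG_lt (y : ℝ) : VDIG_F y < 10 := by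
  have h := Real.rpow_lt_rpow_of_exponent_lt (x := (10 : ℝ)) (by norm_num)
    (Int.fract_lt_one (Real.logb 10 y))
  rwa [Real.rpow_one] at h

private theorem VDIG_eq {y : ℝ} (hy : 0 < y) :
    y = VDIG_F y * (10 : ℝ) ^ ⌊Real.logb 10 y⌋ := by
  unfold VDIG_F
  rw [← Real.rpow_intCast, ← Real.rpow_add (by norm_num), Int.fract_add_floor,
    Real.rpow_logb (by norm_num) (by norm_num) hy]

private theorem VDIG_mant {y : ℝ} (hy : 0 < y) {j m : ℕ} (h1 : 10 ^ j ≤ m)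
    (h2 : m < 10 ^ (j + 1)) :
    Mant 10 ((m : ℝ) / 10 ^ j) (((m + 1 : ℕ) : ℝ) / 10 ^ j) y ↔ ⌊VDIG_F y * 10 ^ j⌋₊ = m := by
  have hp : (0 : ℝ) < 10 ^ j := by positivity
  have hF1 := VDIG_one_le y
  have hFy := VDIG_eq hy
  have h1R : (10 : ℝ) ^ j ≤ m := by exact_mod_cast h1
  have h2R : ((m + 1 : ℕ) : ℝ) ≤ 10 ^ (j + 1) := by exact_mod_cast h2
  have hnn : 0 ≤ VDIG_F y * 10 ^ j := by positivity
  have hma : 1 ≤ (m : ℝ) / 10 ^ j := by rw [le_div_iff₀ hp]; linarith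
  have hmb : ((m + 1 : ℕ) : ℝ) / 10 ^ j ≤ 10 := by
    rw [div_le_iff₀ hp]
    calc ((m + 1 : ℕ) : ℝ) ≤ 10 ^ (j + 1) := h2R
      _ = 10 * 10 ^ j := by ring
  rw [Nat.floor_eq_iff hnn]
  have key : ((m : ℝ) ≤ VDIG_F y * 10 ^ j ∧ VDIG_F y * 10 ^ j < (m : ℝ) + 1) ↔
      ((m : ℝ) / 10 ^ j ≤ VDIG_F y ∧ VDIG_F y < ((m + 1 : ℕ) : ℝ) / 10 ^ j) := by
    rw [div_le_iff₀ hp, lt_div_iff₀ hp]
    push_cast
    exact Iff.rfl
  rw [key]
  constructor
  · rintro ⟨k, hk1, hk2⟩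
    have hkp : (0 : ℝ) < 10 ^ k := zpow_pos (by norm_num) k
    have hlo : (10 : ℝ) ^ k ≤ y := by
      refine le_trans ?_ hk1
      calc (10 : ℝ) ^ k = 1 * 10 ^ k := (one_mul _).symm
        _ ≤ _ := mul_le_mul_of_nonneg_right hma hkp.le
    have hhi : y < (10 : ℝ) ^ (k + 1) := by
      refine lt_of_lt_of_le hk2 ?_
      calc ((m + 1 : ℕ) : ℝ) / 10 ^ j * 10 ^ k ≤ 10 * 10 ^ k :=
            mul_le_mul_of_nonneg_right hmb hkp.le
        _ = 10 ^ (k + 1) := by rw [zpow_add₀ (by norm_num), zpow_one]; ring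
    have hfl : ⌊Real.logb 10 y⌋ = k := by
      rw [Int.floor_eq_iff]
      constructor
      · rw [Real.le_logb_iff_rpow_le (by norm_num) hy, Real.rpow_intCast]
        exact hlo
      · rw [Real.logb_lt_iff_lt_rpow (by norm_num) hy]
        have : ((k : ℝ) + 1) = ((k + 1 : ℤ) : ℝ) := by push_cast; ring
        rw [this, Real.rpow_intCast]
        exact hhi
    rw [hfl] at hFy
    rw [hFy] at hk1 hk2
    exact ⟨le_of_mul_le_mul_right hk1 hkp, lt_of_mul_lt_mul_right hk2 hkp.le⟩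
  · rintro ⟨ha, hb⟩
    have hkp : (0 : ℝ) < 10 ^ ⌊Real.logb 10 y⌋ := zpow_pos (by norm_num) _
    refine ⟨⌊Real.logb 10 y⌋, ?_, ?_⟩
    · calc (m : ℝ) / 10 ^ j * 10 ^ ⌊Real.logb 10 y⌋
          ≤ VDIG_F y * 10 ^ ⌊Real.logb 10 y⌋ := mul_le_mul_of_nonneg_right ha hkp.le
        _ = y := hFy.symm
    · calc y = VDIG_F y * 10 ^ ⌊Real.logb 10 y⌋ := hFy
        _ < _ := mul_lt_mul_of_pos_right hb hkp

private theorem VDIG_range (y : ℝ) (j : ℕ) :
    10 ^ j ≤ ⌊VDIG_F y * 10 ^ j⌋₊ ∧ ⌊VDIG_F y * 10 ^ j⌋₊ < 10 ^ (j + 1) := by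
  have hp : (0 : ℝ) < 10 ^ j := by positivity
  have hF1 := VDIG_one_le y
  have hF2 := VDIG_lt y
  constructor
  · apply Nat.le_floor
    push_cast
    calc (10 : ℝ) ^ j = 1 * 10 ^ j := (one_mul _).symm
      _ ≤ _ := mul_le_mul_of_nonneg_right hF1 hp.le
  · rw [Nat.floor_lt (by positivity)]
    push_cast
    calc VDIG_F y * 10 ^ j < 10 * 10 ^ j := mul_lt_mul_of_pos_right hF2 hp
      _ = 10 ^ (j + 1) := by ring

private theorem VDIG_ncard (P : ℕ → Prop) [DecidablePred P] (N : ℕ) :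
    {n : ℕ | 1 ≤ n ∧ n ≤ N ∧ P n}.ncard = ((Finset.Icc 1 N).filter P).card := by
  rw [← Set.ncard_coe_finset]
  congr 1
  ext n
  simp [and_assoc]

open Classical in
private theorem VDIG_sum (j d : ℕ) (x : ℝ) (N : ℕ) :
    dcount j d x N = ∑ m ∈ Finset.Ico (10 ^ j) (10 ^ (j + 1)) with m % 10 = d,
      count 10 ((m : ℝ) / 10 ^ j) (((m + 1 : ℕ) : ℝ) / 10 ^ j) x N := by
  unfold dcount count
  rw [VDIG_ncard (fun n => digit j ((n : ℝ) ^ x) = d)]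
  rw [Finset.card_eq_sum_card_fiberwise (f := fun n : ℕ => ⌊VDIG_F ((n : ℝ) ^ x) * 10 ^ j⌋₊)
    (t := (Finset.Ico (10 ^ j) (10 ^ (j + 1))).filter fun m => m % 10 = d)]
  · refine Finset.sum_congr rfl fun m hm => ?_
    rw [VDIG_ncard (fun n => Mant 10 ((m : ℝ) / 10 ^ j) (((m + 1 : ℕ) : ℝ) / 10 ^ j)
      ((n : ℝ) ^ x))]
    rw [Finset.mem_filter, Finset.mem_Ico] at hm
    congr 1
    ext n
    simp only [Finset.mem_filter, Finset.mem_Icc]
    constructor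
    · rintro ⟨⟨hn, hd⟩, hf⟩
      refine ⟨hn, ?_⟩
      have hy : (0 : ℝ) < (n : ℝ) ^ x := Real.rpow_pos_of_pos (by exact_mod_cast hn.1) x
      exact (VDIG_mant hy hm.1.1 hm.1.2).mpr hf
    · rintro ⟨hn, hf⟩
      have hy : (0 : ℝ) < (n : ℝ) ^ x := Real.rpow_pos_of_pos (by exact_mod_cast hn.1) x
      have h := (VDIG_mant hy hm.1.1 hm.1.2).mp hf
      refine ⟨⟨hn, ?_⟩, h⟩
      show ⌊VDIG_F ((n : ℝ) ^ x) * 10 ^ j⌋₊ % 10 = d
      rw [h]
      exact hm.2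
  · intro n hn
    have hn' := (Finset.mem_filter.mp (Finset.mem_coe.mp hn)).2
    refine Finset.mem_coe.mpr (Finset.mem_filter.mpr ⟨Finset.mem_Ico.mpr (VDIG_range _ j), ?_⟩)
    exact hn'

theorem p_VDIG : V_DIG := by
  intro hB j d ε hε
  obtain ⟨C, hC⟩ := hB ε hε
  set T := (Finset.Ico (10 ^ j) (10 ^ (j + 1))).filter fun m => m % 10 = d with hT
  refine ⟨T.card * C, fun x N hN hNx => ?_⟩
  rw [VDIG_sum, benf]
  push_cast
  rw [Finset.mul_sum, ← Finset.sum_sub_distrib]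
  refine (Finset.abs_sum_le_sum_abs _ _).trans ?_
  have hterm : ∀ m ∈ T, |(count 10 ((m : ℝ) / 10 ^ j) (((m : ℝ) + 1) / 10 ^ j) x N : ℝ) -
      N * Real.logb 10 (1 + 1 / m)| ≤ C * √(N : ℝ) * x ^ ε := by
    intro m hm
    rw [hT, Finset.mem_filter, Finset.mem_Ico] at hm
    have hp : (0 : ℝ) < 10 ^ j := by positivity
    have hm1 : (1 : ℝ) ≤ m := by
      have : 1 ≤ m := le_trans (Nat.one_le_pow _ _ (by norm_num)) hm.1.1
      exact_mod_cast this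
    have hm0 : (0 : ℝ) < m := by linarith
    have h := hC x N hN hNx ((m : ℝ) / 10 ^ j) (((m : ℝ) + 1) / 10 ^ j) (by positivity)
      (by gcongr; linarith) (by
        rw [← mul_div_assoc]
        gcongr
        linarith)
    have hr : (((m : ℝ) + 1) / 10 ^ j) / ((m : ℝ) / 10 ^ j) = 1 + 1 / m := by
      field_simp
    rw [hr] at h
    exact h
  refine (Finset.sum_le_sum hterm).trans (le_of_eq ?_)
  rw [Finset.sum_const, nsmul_eq_mul]
  ring

end Pool.Agent.Ben
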