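import Pool.Agent.Ben.Targets3

/-!
# Ben, version 2: the frequencies far from the main one
-/

set_option autoImplicit false

namespace Pool.Agent.Ben

private lemma VERR_term (m : ℕ) (hm : 1 ≤ m) (y : ℝ) (hy : 0 ≤ y) (n : ℕ) (hn : 2 ≤ n) (h : ℤ) :
    (if h < 0 ∨ (0 < h ∧ 2 * m * y ≤ h * Real.log 2) then
      Real.exp (-(h * Real.log n / m - y) ^ 2 / 4) else 0) ≤
    (if h = 0 then 0 else Real.exp (-(h * Real.log n / ((2 * m : ℕ) : ℝ)) ^ 2 / 4)) := by
  have hm0 : (0 : ℝ) < m := by exact_mod_cast hm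
  have hn' : (2 : ℝ) ≤ n := by exact_mod_cast hn
  have hL : Real.log 2 ≤ Real.log n := Real.log_le_log (by norm_num) hn'
  have hl2 : 0 < Real.log 2 := Real.log_pos (by norm_num)
  obtain ⟨L, hLd⟩ : ∃ L, L = Real.log n := ⟨_, rfl⟩
  rw [← hLd] at hL ⊢
  obtain ⟨z, hz⟩ : ∃ z, z = (h : ℝ) * L / (2 * m) := ⟨_, rfl⟩
  have hz2 : (h : ℝ) * L / m = 2 * z := by
    rw [hz]
    field_simp
  have hz3 : (h : ℝ) * L / ((2 * m : ℕ) : ℝ) = z := by
    rw [hz]
    push_cast
    ring
  rw [hz2, hz3]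
  by_cases h0 : h = 0
  · subst h0
    simp
  rw [if_neg h0]
  split_ifs with hc
  · apply Real.exp_le_exp.2
    rcases hc with hc | ⟨hc1, hc2⟩
    · have h1 : (h : ℝ) < 0 := by exact_mod_cast hc
      have h2 : z ≤ 0 := by
        rw [hz]
        apply div_nonpos_of_nonpos_of_nonneg _ (by positivity)
        nlinarith
      nlinarith
    · have h1 : (0 : ℝ) < h := by exact_mod_cast hc1
      have h2 : y ≤ z := by
        rw [hz, le_div_iff₀ (by positivity)]
        nlinarith
      nlinarith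
  · positivity

theorem p_VERR (hZ : V_ERZ) : V_ERR := by
  intro m hm
  obtain ⟨C, hC⟩ := hZ (2 * m) (by omega)
  refine ⟨C, fun y hy M => ?_⟩
  obtain ⟨hs, hb⟩ := hC M
  refine le_trans (Finset.sum_le_sum fun n hn => ?_) hb
  have hn2 : 2 ≤ n := (Finset.mem_Icc.1 hn).1
  have hs2 : Summable (fun h : ℤ => if h = 0 then (0 : ℝ) else
      Real.exp (-(h * Real.log n / ((2 * m : ℕ) : ℝ)) ^ 2 / 4)) := by
    refine Summable.of_nonneg_of_le (fun h => ?_) (fun h => ?_) (hs n hn)
    · split_ifs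
      · exact le_rfl
      · positivity
    · split_ifs
      · positivity
      · exact le_rfl
  refine Summable.tsum_le_tsum (fun h => VERR_term m hm y hy n hn2 h) ?_ hs2
  refine Summable.of_nonneg_of_le (fun h => ?_) (fun h => VERR_term m hm y hy n hn2 h) hs2
  split_ifs
  · positivity
  · exact le_rfl

end Pool.Agent.Ben
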