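import Pool.Agent.Ben.Targets3

/-!
# Block VERZ: all frequencies for `y = 0`, with the factor `1 / m`
-/

set_option autoImplicit false

namespace Pool.Agent.Ben

private lemma VERZ_summable : Summable (fun h : ℤ => Real.exp (-|(h : ℝ)|)) := by
  apply Summable.of_nat_of_neg
  · have := Real.summable_exp_neg_nat
    simpa using this
  · have := Real.summable_exp_neg_nat
    simpa using this

private lemma VERZ_bd (m : ℕ) (hm : 1 ≤ m) (n : ℕ) (hn : 2 ≤ n) (h : ℤ) (h0 : h ≠ 0) :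
    Real.exp (-(h * Real.log n / m) ^ 2 / 4) ≤
      Real.exp (16 * (m : ℝ) ^ 2) * (1 / (n : ℝ) ^ 2) * Real.exp (-|(h : ℝ)|) := by
  have hm0 : (0 : ℝ) < m := by exact_mod_cast hm
  have hn' : (2 : ℝ) ≤ n := by exact_mod_cast hn
  have hn0 : (0 : ℝ) < n := by linarith
  have hh : (1 : ℝ) ≤ |(h : ℝ)| := by
    have : (1 : ℤ) ≤ |h| := Int.one_le_abs h0
    exact_mod_cast this
  have hL : (1 / 2 : ℝ) ≤ Real.log n := by
    have h1 : Real.log 2 ≤ Real.log n := Real.log_le_log (by norm_num) hn'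
    have h2 := Real.log_two_gt_d9
    linarith
  have e2 : Real.exp (16 * (m : ℝ) ^ 2) * (1 / (n : ℝ) ^ 2) * Real.exp (-|(h : ℝ)|) =
      Real.exp (16 * (m : ℝ) ^ 2 - 2 * Real.log n - |(h : ℝ)|) := by
    have e3 : (1 / (n : ℝ) ^ 2) = Real.exp (-(2 * Real.log n)) := by
      rw [Real.exp_neg, mul_comm 2, Real.exp_mul, Real.exp_log hn0]
      norm_num
    rw [e3, ← Real.exp_add, ← Real.exp_add, sub_eq_add_neg, sub_eq_add_neg]
  rw [e2]
  apply Real.exp_le_exp.2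
  have e4 : (h * Real.log n / m) ^ 2 = (|(h : ℝ)| * Real.log n / m) ^ 2 := by
    rw [div_pow, div_pow, mul_pow, mul_pow, sq_abs]
  rw [e4]
  have e5 : 0 ≤ (|(h : ℝ)| * Real.log n / m / 2 - 4 * m) ^ 2 := sq_nonneg _
  have e8 : |(h : ℝ)| * Real.log n / m * m = |(h : ℝ)| * Real.log n :=
    div_mul_cancel₀ _ hm0.ne'
  have e6 : 0 ≤ (|(h : ℝ)| - 1) * (Real.log n) :=
    mul_nonneg (by linarith) (by linarith)
  have e7 : 0 ≤ |(h : ℝ)| * (Real.log n - 1 / 2) :=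
    mul_nonneg (by linarith) (by linarith)
  set X := |(h : ℝ)| * Real.log n / m with hX
  nlinarith

private lemma VERZ_term (m : ℕ) (hm : 1 ≤ m) (n : ℕ) (hn : 2 ≤ n) (h : ℤ) :
    (if h = 0 then 0 else Real.exp (-(h * Real.log n / m) ^ 2 / 4)) ≤
      Real.exp (16 * (m : ℝ) ^ 2) * (1 / (n : ℝ) ^ 2) * Real.exp (-|(h : ℝ)|) := by
  split_ifs with h0
  · positivity
  · exact VERZ_bd m hm n hn h h0

/-- All frequencies for `y = 0`. -/
theorem p_VERZ : V_ERZ := by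
  intro m hm
  have h2 : Summable (fun n : ℕ => 1 / (n : ℝ) ^ 2) :=
    Real.summable_one_div_nat_pow.2 (by norm_num)
  refine ⟨Real.exp (16 * (m : ℝ) ^ 2) * (∑' n : ℕ, 1 / (n : ℝ) ^ 2) *
    ∑' h : ℤ, Real.exp (-|(h : ℝ)|), fun M => ⟨?_, ?_⟩⟩
  · intro n hn
    have hn2 : 2 ≤ n := (Finset.mem_Icc.1 hn).1
    have hs : Summable (fun h : ℤ => Real.exp (16 * (m : ℝ) ^ 2) * (1 / (n : ℝ) ^ 2) *
        Real.exp (-|(h : ℝ)|)) := VERZ_summable.mul_left _
    refine Summable.of_norm_bounded_eventually (g := fun h : ℤ => Real.exp (16 * (m : ℝ) ^ 2) *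
      (1 / (n : ℝ) ^ 2) * Real.exp (-|(h : ℝ)|)) hs ?_
    have hfin : {h : ℤ | ¬ ‖Real.exp (-(h * Real.log n / m) ^ 2 / 4)‖ ≤
        Real.exp (16 * (m : ℝ) ^ 2) * (1 / (n : ℝ) ^ 2) * Real.exp (-|(h : ℝ)|)} ⊆ {0} := by
      intro h hh
      by_contra h0
      apply hh
      rw [Real.norm_of_nonneg (Real.exp_pos _).le]
      exact VERZ_bd m hm n hn2 h h0
    exact (Set.finite_singleton (0 : ℤ)).subset hfin
  · have key : ∀ n ∈ Finset.Icc 2 M, ∑' h : ℤ, (if h = 0 then 0 else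
        Real.exp (-(h * Real.log n / m) ^ 2 / 4)) ≤
        Real.exp (16 * (m : ℝ) ^ 2) * (1 / (n : ℝ) ^ 2) * ∑' h : ℤ, Real.exp (-|(h : ℝ)|) := by
      intro n hn
      have hn2 : 2 ≤ n := (Finset.mem_Icc.1 hn).1
      rw [← tsum_mul_left]
      have hs : Summable (fun h : ℤ => Real.exp (16 * (m : ℝ) ^ 2) * (1 / (n : ℝ) ^ 2) *
          Real.exp (-|(h : ℝ)|)) := VERZ_summable.mul_left _
      refine Summable.tsum_le_tsum (fun h => VERZ_term m hm n hn2 h) ?_ hs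
      refine Summable.of_nonneg_of_le (fun h => ?_) (fun h => VERZ_term m hm n hn2 h) hs
      split_ifs
      · exact le_refl _
      · positivity
    have hH : 0 ≤ ∑' h : ℤ, Real.exp (-|(h : ℝ)|) := tsum_nonneg fun h => (Real.exp_pos _).le
    calc ∑ n ∈ Finset.Icc 2 M, ∑' h : ℤ, (if h = 0 then 0 else
        Real.exp (-(h * Real.log n / m) ^ 2 / 4))
        ≤ ∑ n ∈ Finset.Icc 2 M, Real.exp (16 * (m : ℝ) ^ 2) * (1 / (n : ℝ) ^ 2) *
            ∑' h : ℤ, Real.exp (-|(h : ℝ)|) := Finset.sum_le_sum key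
      _ = Real.exp (16 * (m : ℝ) ^ 2) * (∑ n ∈ Finset.Icc 2 M, 1 / (n : ℝ) ^ 2) *
            ∑' h : ℤ, Real.exp (-|(h : ℝ)|) := by
          rw [Finset.mul_sum, Finset.sum_mul]
      _ ≤ Real.exp (16 * (m : ℝ) ^ 2) * (∑' n : ℕ, 1 / (n : ℝ) ^ 2) *
            ∑' h : ℤ, Real.exp (-|(h : ℝ)|) := by
          apply mul_le_mul_of_nonneg_right _ hH
          apply mul_le_mul_of_nonneg_left _ (Real.exp_pos _).le
          exact h2.sum_le_tsum _ (fun n _ => by positivity)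

end Pool.Agent.Ben
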