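import Pool.Agent.Ben.Targets2

/-!
# LH and Benford's law, version 2: one nonconstant statistic is enough

Every `def V_XXX : Prop` below is a conclusion; the theorem to prove is stated in its docstring
(file `Pool/Agent/Ben/P_VXXX.lean`, namespace `Pool.Agent.Ben`, theorem `p_VXXX`).
-/

set_option autoImplicit false

namespace Pool.Agent.Ben

open Complex MeasureTheory Set

/-- observables: bounded, measurable, of period one, mean zero -/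
structure Obs (G : ℝ → ℝ) (B : ℝ) : Prop where
  meas : Measurable G
  per : Function.Periodic G 1
  bdd : ∀ x, |G x| ≤ B
  mean : coef G 0 = 0

/-- `GaussLe` with the exponent `θ` in place of `1 / 2` -/
def GT (θ κ : ℝ) : Prop := ∀ ε : ℝ, 0 < ε → ∃ C : ℝ, ∀ t : ℝ, 1 ≤ t → ∀ M : ℕ, 1 ≤ M →
  (M : ℝ) ≤ κ * t → ∀ N : ℝ, 1 ≤ N → N ≤ M →
    ‖∑ n ∈ Finset.Icc 1 M, e (t * Real.log n) *
      (Real.exp (-(Real.log n - Real.log N) ^ 2 / 4) : ℝ)‖ ≤ C * (M : ℝ) ^ θ * t ^ ε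

/-- `theorem p_VFOU : V_FOU`. The proof of `p_FOU` (`P_FOU.lean`) with `Obs` for `Adm` (it does
not use the decay of the coefficients). -/
def V_FOU : Prop := ∀ (G : ℝ → ℝ) (B : ℝ), Obs G B → ∀ L t y : ℝ, 0 < L →
  Summable (fun h : ℤ => ‖coef G h‖ * Real.exp (-(h * L - y) ^ 2 / 4)) ∧
  ∫ u : ℝ, (G ((t + u) * L) : ℂ) * e (-(u * y)) * w u =
    (1 / (2 * √Real.pi) : ℝ) * ∑' h : ℤ, coef G h * e (h * (t * L)) *
      (Real.exp (-(h * L - y) ^ 2 / 4) : ℝ)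

/-- `theorem p_VERZ : V_ERZ`. As `P_ERZ.lean`: with `L = log n ≥ 1/2`, `X = |h| L / m`,
`X²/4 ≥ 4 m X - 16 m² = 4 |h| L - 16 m² ≥ 2 L + |h| - 16 m²`, so the term is at most
`exp(16 m²) n^(-2) exp(-|h|)`. -/
def V_ERZ : Prop := ∀ m : ℕ, 1 ≤ m → ∃ C : ℝ, ∀ M : ℕ,
  (∀ n ∈ Finset.Icc 2 M, Summable (fun h : ℤ => Real.exp (-(h * Real.log n / m) ^ 2 / 4))) ∧
  ∑ n ∈ Finset.Icc 2 M, ∑' h : ℤ, (if h = 0 then 0 else
    Real.exp (-(h * Real.log n / m) ^ 2 / 4)) ≤ C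

/-- `theorem p_VERR : V_ERZ → V_ERR`. For these `h`, `|h L / m - y| ≥ |h| L / (2 m)` (`h < 0`:
both terms negative; `h > 0`: `h L / m ≥ h log 2 / m ≥ 2 y`), so this is bounded by the sum of
`V_ERZ` for `2 m`. -/
def V_ERR : Prop := ∀ m : ℕ, 1 ≤ m → ∃ C : ℝ, ∀ y : ℝ, 0 ≤ y → ∀ M : ℕ,
  ∑ n ∈ Finset.Icc 2 M, ∑' h : ℤ, (if h < 0 ∨ (0 < h ∧ 2 * m * y ≤ h * Real.log 2) then
    Real.exp (-(h * Real.log n / m - y) ^ 2 / 4) else 0) ≤ C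

/-- `theorem p_VMEAN : V_FOU → V_ERZ → V_MEAN`. As `P_MEAN.lean`:
`(t + u/m) log n = (m t + u) (log n / m)`, so `V_FOU` with `L = log n / m`, `m t` in place of `t`
and `y = 0`; `‖coef G h‖ ≤ B`, `coef G 0 = 0`; for `n = 1` the integral is at most `B ∫ w`. -/
def V_MEAN : Prop := ∀ m : ℕ, 1 ≤ m → ∃ C : ℝ, 0 ≤ C ∧ ∀ (G : ℝ → ℝ) (B : ℝ), Obs G B →
  ∀ (t : ℝ) (M : ℕ),
    |∫ u : ℝ, (∑ n ∈ Finset.Icc 1 M, G ((t + u / m) * Real.log n)) * w u| ≤ C * B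

/-- `theorem p_VL1 : V_MEAN → V_L1`. As `P_L1.lean` (`|u / m| ≤ |u| ≤ t / 2`). -/
def V_L1 : Prop := ∀ m : ℕ, 1 ≤ m → ∀ (G : ℝ → ℝ) (B κ : ℝ), Obs G B → 0 < κ →
  Upper G κ → ∀ ε : ℝ, 0 < ε → ∃ C : ℝ, ∀ t : ℝ, 1 ≤ t → ∀ N : ℕ, 1 ≤ N → (N : ℝ) ≤ κ / 2 * t →
    ∫ u : ℝ, |∑ n ∈ Finset.Icc 1 N, G ((t + u / m) * Real.log n)| * w u ≤ C * √(N : ℝ) * t ^ ε

/-- `theorem p_VMAIN : V_FOU → V_ERR → V_MAIN`. As `P_MAIN.lean`, `V_FOU` with `L = log n / m`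
(`n ≥ 2`), `m t` in place of `t` and `y`: the `h`-th term is
`coef G h e(h t log n) exp(-(h log n / m - y)²/4)`. It vanishes for `0 ≤ h < m`, `h = m` is the
main term; the `h < 0` and the `h > m` with `h log 2 ≥ 2 m y` are bounded by `B · V_ERR`; the
others are `m < h < ⌈2 m y / log 2⌉₊` (`Nat.lt_ceil`): here use `‖coef G h‖ ≤ B` and exchange the
sums over `n` and `h`. The terms with `n = 1`: `1` in the main sum, `B ∫ w` in the integral, and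
`∑_h exp(-y²/4) ≤ (2 m y / log 2 + 1) exp(-y²/4) ≤ C_m` on the right. -/
def V_MAIN : Prop := ∀ m : ℕ, 1 ≤ m → ∃ C : ℝ, 0 ≤ C ∧ ∀ (G : ℝ → ℝ) (B : ℝ), Obs G B →
  (∀ j : ℕ, 0 < j → j < m → coef G j = 0) → ∀ (t y : ℝ) (M : ℕ), 0 ≤ y →
    ‖coef G m‖ * ‖∑ n ∈ Finset.Icc 1 M, e (m * t * Real.log n) *
        (Real.exp (-(Real.log n - y) ^ 2 / 4) : ℝ)‖ ≤
      C * (∫ u : ℝ, |∑ n ∈ Finset.Icc 1 M, G ((t + u / m) * Real.log n)| * w u) + C * B +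
      B * ∑ h ∈ Finset.Ioo m ⌈2 * m * y / Real.log 2⌉₊,
        ‖∑ n ∈ Finset.Icc 1 M, e (h * t * Real.log n) *
          (Real.exp (-(h * Real.log n / m - y) ^ 2 / 4) : ℝ)‖

/-- `theorem p_VNAR : V_NAR`. `exp(-(β z)²/4) = 2 √π ∫ e(u β z) w(u) du` (`β = √(α² - 1)`,
Fourier transform of a Gaussian, `fourierIntegral_gaussian`), and
`exp(-(α z)²/4) = exp(-z²/4) exp(-(β z)²/4)`, `z = log n - c`. So the sum is
`2 √π ∫ e(-(u β c)) (∑ e((T + β u) log n) exp(-(log n - c)²/4)) w(u) du`. -/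
def V_NAR : Prop := ∀ α : ℝ, 1 ≤ α → ∀ (c T : ℝ) (M : ℕ),
  ‖∑ n ∈ Finset.Icc 1 M, e (T * Real.log n) *
      (Real.exp (-(α * (Real.log n - c)) ^ 2 / 4) : ℝ)‖ ≤
    2 * √Real.pi * ∫ u : ℝ, ‖∑ n ∈ Finset.Icc 1 M, e ((T + √(α ^ 2 - 1) * u) * Real.log n) *
      (Real.exp (-(Real.log n - c) ^ 2 / 4) : ℝ)‖ * w u

/-- `theorem p_VHIGH : T_TAIL → V_NAR → V_HIGH`. `α = h/m > 1`, `N_h = N^(m/h) ∈ [1, N]`,
`h log n / m - log N = α (log n - log N_h)`. Let `d` be small (`θ d ≤ ε / 2`),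
`M' = min M ⌈N_h t^d⌉₊`. The terms `M' < n ≤ M` are at most
`∑_{n > M'} exp(-(log n - log N_h)²/4) ≤ N_h / t ≤ κ / 2` by `T_TAIL`, for `t ≥ T₀` (for `t < T₀`
the whole sum is at most `M ≤ κ T₀ / 2`). `V_NAR` for the sum up to `M'`, `√(α² - 1) ≤ α ≤ h`:
if `|u| ≤ t / 2`, the height `T' = h t + √(α² - 1) u` lies in `[h t / 2, 3 h t / 2]`, is `≥ 1` and
`M' ≤ κ T'`, so `GT θ κ` with exponent `ε / 2` gives `C (2 N_h t^d)^θ (3 h t / 2)^(ε/2)`; if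
`|u| > t / 2` use the trivial bound `M' ≤ κ t / 2 ≤ 2 κ u²` (as `1 ≤ t`, `t² ≤ 4 u²`) and
`∫ u² w < ∞`. -/
def V_HIGH : Prop := ∀ θ κ : ℝ, 0 ≤ θ → θ ≤ 1 → 0 < κ → GT θ κ → ∀ m : ℕ, 1 ≤ m →
  ∀ ε : ℝ, 0 < ε → ∃ C : ℝ, ∀ t : ℝ, 1 ≤ t → ∀ M : ℕ, 1 ≤ M → (M : ℝ) ≤ κ / 2 * t →
    ∀ N : ℝ, 1 ≤ N → N ≤ M → ∀ h : ℕ, m < h →
      ‖∑ n ∈ Finset.Icc 1 M, e (h * t * Real.log n) *
        (Real.exp (-(h * Real.log n / m - Real.log N) ^ 2 / 4) : ℝ)‖ ≤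
        C * N ^ ((m : ℝ) / h * θ) * (h * t) ^ ε

/-- `theorem p_VSTEP : V_MAIN → V_L1 → V_HIGH → V_STEP`. `κ' = min κ₀ κ / (2 m)`. Let `T ≥ 1`,
`1 ≤ N ≤ M ≤ κ' T`. If `T < m` everything is bounded. Otherwise `t = T / m ≥ 1` and
`M ≤ min κ₀ κ / 2 * t`. `V_MAIN` with `y = log N`; the integral is `≤ C √M t^ε'` by `V_L1`; each
of the at most `2 m log N / log 2 + 1 ≤ C t^ε'` frequencies `h > m` contributes, by `V_HIGH`,
`≤ C N^(m θ / h) (h t)^ε' ≤ C M^(m θ / (m + 1)) (C t^(1 + ε'))^ε'` (as `N ≥ 1`, `h ≥ m + 1`). -/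
def V_STEP : Prop := ∀ m : ℕ, 1 ≤ m → ∀ (G : ℝ → ℝ) (B κ₀ : ℝ), Obs G B → 0 < κ₀ →
  coef G m ≠ 0 → (∀ j : ℕ, 0 < j → j < m → coef G j = 0) → Upper G κ₀ →
  ∀ θ κ : ℝ, 0 ≤ θ → θ ≤ 1 → 0 < κ → GT θ κ →
    ∃ κ' : ℝ, 0 < κ' ∧ GT (max (1 / 2) ((m : ℝ) / (m + 1) * θ)) κ'

/-- `theorem p_VITER : V_STEP → V_ITER`. `GT 1 κ` is trivial; iterate `V_STEP`: for all `j`,
`∃ κ > 0, GT (max (1/2) ((m/(m+1))^j)) κ`; take `j` with `(m/(m+1))^j ≤ 1/2`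
(`Real.sqrt_eq_rpow`). -/
def V_ITER : Prop := ∀ m : ℕ, 1 ≤ m → ∀ (G : ℝ → ℝ) (B κ₀ : ℝ), Obs G B → 0 < κ₀ →
  coef G m ≠ 0 → (∀ j : ℕ, 0 < j → j < m → coef G j = 0) → Upper G κ₀ →
    ∃ κ : ℝ, 0 < κ ∧ GaussLe κ

/-- `theorem p_VUNIQ : V_UNIQ`. If all coefficients vanish then `G = 0` a.e. (`G` on
`AddCircle 1` is in `L²`; `fourierCoeff`, `fourierBasis`, `hasSum_fourier_series_L2` or
`tsum_sq_fourierCoeff`; `coef G h` is the `fourierCoeff` by `fourierCoeff_eq_intervalIntegral`;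
a.e. on `(0, 1)`, then a.e. on the line by periodicity). As `G` is real,
`coef G (-h) = conj (coef G h)`, and `coef G 0 = 0`, so some `coef G m ≠ 0` with `m ≥ 1`; take the
least one (`Nat.find`). -/
def V_UNIQ : Prop := ∀ (G : ℝ → ℝ) (B : ℝ), Obs G B → ¬ (∀ᵐ x, G x = 0) →
  ∃ m : ℕ, 1 ≤ m ∧ coef G m ≠ 0 ∧ ∀ j : ℕ, 0 < j → j < m → coef G j = 0

/-- `theorem p_VKOKG : V_KOKG`, Koksma's inequality. Proof: (1) for `0 ≤ α ≤ 1`,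
`#{n : α ≤ fract (y n)} - N (1 - α) = ∑ (psi (y n) - psi (y n - α))` (for `0 ≤ α < 1`,
`fract (y - α) = fract y - α + 1` if `fract y < α`, `fract y - α` otherwise), so it is `≤ D` in
absolute value; the same for `#{n : α < fract (y n)}`, since for `α' > α` close to `α` the counts
`#{α' ≤ fract}` and `#{α < fract}` agree, `α' → α`. (2) Let `p` be monotone on `[0, 1]`,
`V = p 1 - p 0`, `K ≥ 1`: with `p_K x = ∑_{j=1}^K (V/K) [p x - p 0 ≥ j V / K]` one has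
`0 ≤ (p x - p 0) - p_K x ≤ V / K` on `[0, 1]`, and every set `{x ∈ [0,1) : p x - p 0 ≥ s}` is of
the form `[α, 1)` or `(α, 1)` (or empty). So `|∑ p (fract (y n)) - N ∫_0^1 p| ≤ V D + 2 N V / K`,
`K → ∞`. (3) `G = p - q` on `[0, 1]`, `p x = variation of G on [0, x]`, `q = p - G`, both
monotone (`variationOnFromTo`, `LocallyBoundedVariationOn.exists_monotoneOn_sub_monotoneOn` or
its proof), `p 1 - p 0 = V(G)`, `q 1 - q 0 = V(G) - G 1 + G 0 = V(G)`; `G y = G (fract y)`. -/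
def V_KOKG : Prop := ∀ (N : ℕ) (y : ℕ → ℝ) (D : ℝ),
  (∀ a b : ℝ, |∑ n ∈ Finset.Icc 1 N, (psi (y n + b) - psi (y n + a))| ≤ D) →
  ∀ G : ℝ → ℝ, Function.Periodic G 1 → BoundedVariationOn G (Icc 0 1) →
    |∑ n ∈ Finset.Icc 1 N, G (y n) - N * ∫ u in (0 : ℝ)..1, G u| ≤
      2 * (eVariationOn G (Icc 0 1)).toReal * D

/-! ### the statements of the final theorem -/

/-- Benford's law with square root error for all statistics of bounded variation: `f` is a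
function of `log_g (n ^ x)` of period one -/
def StatAll (g : ℝ) : Prop :=
  ∀ ε : ℝ, 0 < ε → ∃ C : ℝ, ∀ f : ℝ → ℝ, Function.Periodic f 1 →
    BoundedVariationOn f (Icc 0 1) → ∀ x : ℝ, ∀ N : ℕ, 1 ≤ N → (N : ℝ) ≤ x →
      |∑ n ∈ Finset.Icc 1 N, f (Real.logb g ((n : ℝ) ^ x)) - N * ∫ u in (0 : ℝ)..1, f u| ≤
        C * (eVariationOn f (Icc 0 1)).toReal * √(N : ℝ) * x ^ ε

/-- the one-sided inequality for one statistic -/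
def StatUpper (g : ℝ) (f : ℝ → ℝ) : Prop :=
  ∀ ε : ℝ, 0 < ε → ∃ C : ℝ, ∀ x : ℝ, ∀ N : ℕ, 1 ≤ N → (N : ℝ) ≤ x →
    ∑ n ∈ Finset.Icc 1 N, f (Real.logb g ((n : ℝ) ^ x)) - N * ∫ u in (0 : ℝ)..1, f u ≤
      C * √(N : ℝ) * x ^ ε

/-- `theorem p_VALL : V_KOKG → V_ALL`. As `P_BENU.lean`: `logb g (n^x) = x / log g * log n`. For
`x ≥ log g` use `Disc` with `K = log g` and `V_KOKG` with `D = 2 C √N t^ε`. For `x < log g`,
`N ≤ x < log g` and `|G (y n) - ∫ G| ≤ V(G)`. -/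
def V_ALL : Prop := Disc → ∀ g : ℝ, 1 < g → StatAll g

/-- `theorem p_VONE : V_ONE`. `G y = f y - ∫_0^1 f`, `B' = 2 B`; `t = x / log g`, that is
`x = t log g`, `κ = log g`; `∑ G (t log n) = ∑ f (logb g (n^x)) - N ∫ f`; `(t log g)^ε ≤ C t^ε`. -/
def V_ONE : Prop := ∀ (g : ℝ) (f : ℝ → ℝ) (B : ℝ), 1 < g → Measurable f →
  Function.Periodic f 1 → (∀ y, |f y| ≤ B) → StatUpper g f →
    Obs (fun y => f y - ∫ u in (0 : ℝ)..1, f u) (2 * B) ∧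
    Upper (fun y => f y - ∫ u in (0 : ℝ)..1, f u) (Real.log g)

/-- the decimal digit number `j` of `y > 0` after the leading one (`j = 0`: the leading digit) -/
noncomputable def digit (j : ℕ) (y : ℝ) : ℕ :=
  ⌊(10 : ℝ) ^ Int.fract (Real.logb 10 y) * 10 ^ j⌋₊ % 10

/-- among the first `N` powers `n ^ x` those whose digit number `j` is `d` -/
noncomputable def dcount (j d : ℕ) (x : ℝ) (N : ℕ) : ℕ :=
  {n : ℕ | 1 ≤ n ∧ n ≤ N ∧ digit j ((n : ℝ) ^ x) = d}.ncard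

/-- the probability of the digit `d` at position `j` in Benford's law -/
noncomputable def benf (j d : ℕ) : ℝ :=
  ∑ m ∈ Finset.Ico (10 ^ j) (10 ^ (j + 1)) with m % 10 = d, Real.logb 10 (1 + 1 / m)

/-- Benford's law with square root error for one digit -/
def DigitLaw (j d : ℕ) : Prop :=
  ∀ ε : ℝ, 0 < ε → ∃ C : ℝ, ∀ x : ℝ, ∀ N : ℕ, 1 ≤ N → (N : ℝ) ≤ x →
    |(dcount j d x N : ℝ) - N * benf j d| ≤ C * √(N : ℝ) * x ^ ε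

/-- one-sided -/
def DigitUpper (j d : ℕ) : Prop :=
  ∀ ε : ℝ, 0 < ε → ∃ C : ℝ, ∀ x : ℝ, ∀ N : ℕ, 1 ≤ N → (N : ℝ) ≤ x →
    (dcount j d x N : ℝ) - N * benf j d ≤ C * √(N : ℝ) * x ^ ε

/-- one-sided -/
def DigitLower (j d : ℕ) : Prop :=
  ∀ ε : ℝ, 0 < ε → ∃ C : ℝ, ∀ x : ℝ, ∀ N : ℕ, 1 ≤ N → (N : ℝ) ≤ x →
    -(C * √(N : ℝ) * x ^ ε) ≤ (dcount j d x N : ℝ) - N * benf j d

/-- `theorem p_VDIG : V_DIG`. For `y > 0`: `digit j y = d` iff for some (unique)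
`m ∈ [10^j, 10^(j+1))` with `m % 10 = d` the mantissa `10^fract(log_10 y)` lies in
`[m / 10^j, (m+1) / 10^j)`, which is `Mant 10 (m/10^j) ((m+1)/10^j) y`. So `dcount j d x N` is the
sum over these `m` of `count 10 (m/10^j) ((m+1)/10^j) x N`, and `((m+1)/10^j) ≤ 10 (m/10^j)`. Add
the inequalities of `BenfordUnif 10`. -/
def V_DIG : Prop := BenfordUnif 10 → ∀ j d : ℕ, DigitLaw j d

/-- `theorem p_VDIGB : V_DIGB`. `f y = 1` if `⌊10^(fract y) 10^j⌋₊ % 10 = d`, else `0`: measurable,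
period one, `∫_0^1 f = benf j d` (on `[0,1)` the set is the disjoint union of
`[log_10 (m/10^j), log_10 ((m+1)/10^j))`, `m % 10 = d`), `0 < ∫_0^1 f < 1`, so `f` is not a.e.
constant (a.e. constant `c` would be `0` or `1`). `∑ f (logb 10 (n^x)) = dcount j d x N`. For the
lower inequality take `-f`. -/
def V_DIGB : Prop := ∀ j d : ℕ, d ≤ 9 → (j = 0 → 1 ≤ d) → (DigitUpper j d ∨ DigitLower j d) →
  ∃ f : ℝ → ℝ, Measurable f ∧ Function.Periodic f 1 ∧ (∀ y, |f y| ≤ 1) ∧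
    ¬ (∃ c : ℝ, ∀ᵐ y, f y = c) ∧ StatUpper 10 f

end Pool.Agent.Ben
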