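import Pool.Agent.Ben.P_FOU
import Pool.Agent.Ben.Targets3

/-!
# Ben, target `V_FOU`: Fourier series of the windowed function, for observables
-/

set_option autoImplicit false

namespace Pool.Agent.Ben

open Complex MeasureTheory

theorem VFOU_coef_le {G : ℝ → ℝ} {B : ℝ} (hG : Obs G B) (h : ℤ) : ‖coef G h‖ ≤ B := by
  unfold coef
  have h1 := intervalIntegral.norm_integral_le_of_norm_le_const (a := 0) (b := 1) (C := B)
    (f := fun x => (G x : ℂ) * e (-(h * x))) (fun x _ => by
      rw [norm_mul, FOU_norm_e, mul_one, Complex.norm_real]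
      exact hG.bdd x)
  simpa using h1

theorem p_VFOU : V_FOU := by
  intro G B hG L t y hL
  have hB : 0 ≤ B := (abs_nonneg (G 0)).trans (hG.bdd 0)
  have hsum := FOU_summable L y hL
  refine ⟨?_, ?_⟩
  · refine Summable.of_nonneg_of_le (fun h => by positivity) (fun h => ?_) (hsum.mul_left B)
    exact mul_le_mul_of_nonneg_right (VFOU_coef_le hG h) (Real.exp_pos _).le
  set g : ℝ → ℂ := fun v => (G v : ℂ) * FOU_K L t y v with hg
  have hGm : Measurable (fun v => (G v : ℂ)) := Complex.measurable_ofReal.comp hG.meas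
  have hgm : Measurable g := hGm.mul (FOU_continuous_K L t y).measurable
  have hgi : Integrable g := by
    apply ((FOU_integrable_wL L t hL).const_mul B).mono' hgm.aestronglyMeasurable
    filter_upwards with v
    rw [hg]
    show ‖(G v : ℂ) * FOU_K L t y v‖ ≤ _
    rw [norm_mul, FOU_norm_K, Complex.norm_real]
    exact mul_le_mul_of_nonneg_right (hG.bdd v) (FOU_w_pos _).le
  have hper : ∀ (v : ℝ) (n : ℤ), G (v + n) = G v := by
    intro v n
    have := (hG.per.int_mul n) v
    simpa using this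
  -- change of variables
  have s1 : ∫ u : ℝ, (G ((t + u) * L) : ℂ) * e (-(u * y)) * w u = ((L⁻¹ : ℝ) : ℂ) * ∫ v, g v := by
    have e1 : ∀ u : ℝ, (G ((t + u) * L) : ℂ) * e (-(u * y)) * w u = g ((t + u) * L) := by
      intro u
      have e2 : (t + u) * L / L - t = u := by
        field_simp
        ring
      rw [hg]
      show _ = (G ((t + u) * L) : ℂ) * FOU_K L t y ((t + u) * L)
      unfold FOU_K
      rw [e2, mul_assoc]
    simp_rw [e1]
    rw [integral_add_left_eq_self (fun x => g (x * L)) t, Measure.integral_comp_mul_right,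
      abs_of_pos (inv_pos.mpr hL), Complex.real_smul]
  -- first exchange
  have s2 : ∫ v, g v = ∫ v in Set.Ioc (0 : ℝ) 1, ∑' n : ℤ, g (v + n) := by
    have e1 := hgi.hasSum_intervalIntegral_comp_add_int
    have e2 := hgi.norm.hasSum_intervalIntegral_comp_add_int
    simp_rw [intervalIntegral.integral_of_le (zero_le_one (α := ℝ))] at e1 e2
    have e3 := hasSum_integral_of_summable_integral_norm
      (μ := volume.restrict (Set.Ioc (0 : ℝ) 1)) (F := fun (n : ℤ) (x : ℝ) => g (x + n))
      (fun n => (hgi.comp_add_right (n : ℝ)).restrict) e2.summable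
    exact e1.unique e3
  have s3 : ∀ v : ℝ, ∑' n : ℤ, g (v + n) = ((L / (2 * √Real.pi) : ℝ) : ℂ) *
      ∑' h : ℤ, (G v : ℂ) * (((Real.exp (-(h * L - y) ^ 2 / 4) : ℝ) : ℂ) *
        e (h * (t * L - v))) := by
    intro v
    have e1 : ∀ n : ℤ, g (v + n) = (G v : ℂ) * FOU_K L t y (v + n) := by
      intro n
      show (G (v + n) : ℂ) * FOU_K L t y (v + n) = _
      rw [hper]
    simp_rw [e1]
    rw [tsum_mul_left, tsum_mul_left, FOU_poisson L t y hL v]
    ring
  -- second exchange
  have s4 : ∫ v in Set.Ioc (0 : ℝ) 1, ∑' h : ℤ, (G v : ℂ) *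
      (((Real.exp (-(h * L - y) ^ 2 / 4) : ℝ) : ℂ) * e (h * (t * L - v))) =
      ∑' h : ℤ, ∫ v in Set.Ioc (0 : ℝ) 1, (G v : ℂ) *
      (((Real.exp (-(h * L - y) ^ 2 / 4) : ℝ) : ℂ) * e (h * (t * L - v))) := by
    have hn : ∀ (h : ℤ) (v : ℝ), ‖(G v : ℂ) *
        (((Real.exp (-(h * L - y) ^ 2 / 4) : ℝ) : ℂ) * e (h * (t * L - v)))‖ ≤
        B * Real.exp (-(h * L - y) ^ 2 / 4) := by
      intro h v
      rw [norm_mul, norm_mul, FOU_norm_e, mul_one, Complex.norm_real, Complex.norm_real,
        Real.norm_of_nonneg (Real.exp_pos _).le]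
      exact mul_le_mul_of_nonneg_right (hG.bdd v) (Real.exp_pos _).le
    have hm : ∀ h : ℤ, AEStronglyMeasurable (fun v : ℝ => (G v : ℂ) *
        (((Real.exp (-(h * L - y) ^ 2 / 4) : ℝ) : ℂ) * e (h * (t * L - v))))
        (volume.restrict (Set.Ioc (0 : ℝ) 1)) := by
      intro h
      have hc : Continuous (fun v : ℝ => ((Real.exp (-(h * L - y) ^ 2 / 4) : ℝ) : ℂ) *
          e (h * (t * L - v))) :=
        continuous_const.mul (FOU_continuous_e.comp (by fun_prop))
      exact (hGm.mul hc.measurable).aestronglyMeasurable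
    have hi : ∀ h : ℤ, Integrable (fun v : ℝ => (G v : ℂ) *
        (((Real.exp (-(h * L - y) ^ 2 / 4) : ℝ) : ℂ) * e (h * (t * L - v))))
        (volume.restrict (Set.Ioc (0 : ℝ) 1)) := by
      intro h
      apply (integrable_const (B * Real.exp (-(h * L - y) ^ 2 / 4))).mono' (hm h)
      filter_upwards with v using hn h v
    refine (hasSum_integral_of_summable_integral_norm hi ?_).tsum_eq.symm
    refine Summable.of_nonneg_of_le (fun h => integral_nonneg fun v => norm_nonneg _)
      (fun h => ?_) (hsum.mul_left B)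
    calc _ ≤ ∫ v in Set.Ioc (0 : ℝ) 1, B * Real.exp (-(h * L - y) ^ 2 / 4) :=
          integral_mono (hi h).norm (integrable_const _) (hn h)
      _ = _ := by simp
  have s5 : ∀ h : ℤ, ∫ v in Set.Ioc (0 : ℝ) 1, (G v : ℂ) *
      (((Real.exp (-(h * L - y) ^ 2 / 4) : ℝ) : ℂ) * e (h * (t * L - v))) =
      coef G h * e (h * (t * L)) * (Real.exp (-(h * L - y) ^ 2 / 4) : ℝ) := by
    intro h
    unfold coef
    rw [intervalIntegral.integral_of_le (zero_le_one (α := ℝ)), mul_assoc,
      ← integral_mul_const]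
    congr 1
    funext v
    rw [show (h : ℝ) * (t * L - v) = -(h * v) + h * (t * L) by ring, FOU_e_add]
    ring
  rw [s1, s2]
  simp_rw [s3]
  rw [integral_const_mul, s4, ← mul_assoc, ← Complex.ofReal_mul]
  simp_rw [s5]
  congr 2
  field_simp

end Pool.Agent.Ben
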