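import Pool.Agent.Ben.Targets3

/-!
# Ben, version 2, target `V_ITER`: iteration of the exponent
-/

set_option autoImplicit false

namespace Pool.Agent.Ben

open Complex MeasureTheory Set

private lemma VITER_norm_e (x : ℝ) : ‖e x‖ = 1 := by
  unfold e
  exact Complex.norm_exp_ofReal_mul_I _

private lemma VITER_start : GT 1 1 := by
  intro ε hε
  refine ⟨1, fun t ht M hM hMt N hN hNM => ?_⟩
  have h1 : ‖∑ n ∈ Finset.Icc 1 M, e (t * Real.log n) *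
      (Real.exp (-(Real.log n - Real.log N) ^ 2 / 4) : ℝ)‖ ≤ ∑ n ∈ Finset.Icc 1 M, (1 : ℝ) := by
    refine (norm_sum_le _ _).trans (Finset.sum_le_sum fun n _ => ?_)
    rw [norm_mul, VITER_norm_e, one_mul, Complex.norm_real,
      Real.norm_of_nonneg (Real.exp_pos _).le]
    apply Real.exp_le_one_iff.mpr
    nlinarith [sq_nonneg (Real.log n - Real.log N)]
  have h2 : ∑ n ∈ Finset.Icc 1 M, (1 : ℝ) = M := by
    simp
  rw [h2] at h1
  have h3 : (1 : ℝ) ≤ t ^ ε := Real.one_le_rpow ht hε.le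
  rw [one_mul, Real.rpow_one]
  refine h1.trans ?_
  have h4 : (0 : ℝ) ≤ M := Nat.cast_nonneg M
  nlinarith

private lemma VITER_iter (hS : V_STEP) (m : ℕ) (hm : 1 ≤ m) (G : ℝ → ℝ) (B κ₀ : ℝ)
    (hG : Obs G B) (hκ₀ : 0 < κ₀) (hc : coef G m ≠ 0)
    (h0 : ∀ j : ℕ, 0 < j → j < m → coef G j = 0) (hU : Upper G κ₀) (j : ℕ) :
    ∃ κ : ℝ, 0 < κ ∧ GT (max (1 / 2) (((m : ℝ) / (m + 1)) ^ j)) κ := by
  have hm0 : (0 : ℝ) < m := by exact_mod_cast hm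
  set ρ : ℝ := (m : ℝ) / (m + 1) with hρ
  have hρ0 : 0 ≤ ρ := by positivity
  have hρ1 : ρ ≤ 1 := by
    rw [hρ, div_le_one (by positivity)]
    linarith
  induction j with
  | zero =>
    refine ⟨1, one_pos, ?_⟩
    have h1 : max (1 / 2 : ℝ) (ρ ^ 0) = 1 := by
      rw [pow_zero]
      exact max_eq_right (by norm_num)
    rw [h1]
    exact VITER_start
  | succ j ih =>
    obtain ⟨κ, hκ, hGT⟩ := ih
    have hj : ρ ^ j ≤ 1 := pow_le_one₀ hρ0 hρ1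
    have hθ0 : (0 : ℝ) ≤ max (1 / 2) (ρ ^ j) := le_max_of_le_left (by norm_num)
    have hθ1 : max (1 / 2) (ρ ^ j) ≤ 1 := max_le (by norm_num) hj
    obtain ⟨κ', hκ', h'⟩ := hS m hm G B κ₀ hG hκ₀ hc h0 hU _ κ hθ0 hθ1 hκ hGT
    refine ⟨κ', hκ', ?_⟩
    have h1 : max (1 / 2 : ℝ) (ρ * max (1 / 2) (ρ ^ j)) = max (1 / 2) (ρ ^ (j + 1)) := by
      rw [mul_max_of_nonneg _ _ hρ0, ← max_assoc, max_eq_left (a := (1 / 2 : ℝ))
        (b := ρ * (1 / 2)) (by linarith), pow_succ, mul_comm ρ]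
    rw [← h1]
    exact h'

theorem p_VITER : V_STEP → V_ITER := by
  intro hS m hm G B κ₀ hG hκ₀ hc h0 hU
  have hm0 : (0 : ℝ) < m := by exact_mod_cast hm
  have hρ0 : 0 ≤ (m : ℝ) / (m + 1) := by positivity
  have hρ1 : (m : ℝ) / (m + 1) < 1 := by
    rw [div_lt_one (by positivity)]
    linarith
  obtain ⟨j, hj⟩ := exists_pow_lt_of_lt_one (by norm_num : (0 : ℝ) < 1 / 2) hρ1
  obtain ⟨κ, hκ, hGT⟩ := VITER_iter hS m hm G B κ₀ hG hκ₀ hc h0 hU j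
  refine ⟨κ, hκ, ?_⟩
  rw [max_eq_left hj.le] at hGT
  intro ε hε
  obtain ⟨C, hC⟩ := hGT ε hε
  refine ⟨C, fun t ht M hM hMt N hN hNM => ?_⟩
  rw [Real.sqrt_eq_rpow]
  exact hC t ht M hM hMt N hN hNM

end Pool.Agent.Ben
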