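import Pool.Agent.Ben.Targets3

/-!
# Block VKOKG: the inequality of Koksma for functions of bounded variation

The proof uses the partition of `[0, 1]` into `K` equal intervals and `K → ∞`.
-/

set_option autoImplicit false

namespace Pool.Agent.Ben

open MeasureTheory Set

private lemma VKOKG_ind (y α : ℝ) (h0 : 0 ≤ α) (h1 : α ≤ 1) :
    (if Int.fract y < α then (1 : ℝ) else 0) = psi (y + -α) - psi (y + 0) + α := by
  unfold psi
  have hf0 := Int.fract_nonneg y
  have hf1 := Int.fract_lt_one y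
  have hf2 : y - ⌊y⌋ = Int.fract y := Int.self_sub_floor y
  rw [add_zero]
  by_cases h : Int.fract y < α
  · rw [if_pos h]
    have h2 : Int.fract (y + -α) = Int.fract y - α + 1 := by
      rw [Int.fract_eq_iff]
      refine ⟨by linarith, by linarith, ⌊y⌋ - 1, ?_⟩
      push_cast
      linarith
    rw [h2]
    ring
  · rw [if_neg h]
    push Not at h
    have h2 : Int.fract (y + -α) = Int.fract y - α := by
      rw [Int.fract_eq_iff]
      refine ⟨by linarith, by linarith, ⌊y⌋, ?_⟩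
      linarith
    rw [h2]
    ring

private lemma VKOKG_cell (K : ℕ) (hK : 0 < K) (f : ℝ) (hf : 0 ≤ f) (j : ℕ) :
    ⌊K * f⌋₊ = j ↔ (j : ℝ) / K ≤ f ∧ f < ((j + 1 : ℕ) : ℝ) / K := by
  have hK0 : (0 : ℝ) < K := by exact_mod_cast hK
  rw [Nat.floor_eq_iff (by positivity), div_le_iff₀ hK0, lt_div_iff₀ hK0]
  push_cast
  rw [mul_comm (K : ℝ) f]

private lemma VKOKG_ite (K : ℕ) (hK : 0 < K) (f : ℝ) (hf : 0 ≤ f) (j : ℕ) :
    (if ⌊K * f⌋₊ = j then (1 : ℝ) else 0) =
      (if f < ((j + 1 : ℕ) : ℝ) / K then (1 : ℝ) else 0) -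
        (if f < (j : ℝ) / K then (1 : ℝ) else 0) := by
  have hK0 : (0 : ℝ) < K := by exact_mod_cast hK
  have h1 := VKOKG_cell K hK f hf j
  have h2 : (j : ℝ) / K ≤ ((j + 1 : ℕ) : ℝ) / K := by
    gcongr
    linarith
  by_cases ha : f < (j : ℝ) / K
  · rw [if_neg (fun h => absurd (h1.mp h).1 (not_le.mpr ha)), if_pos (by linarith), if_pos ha]
    ring
  · by_cases hb : f < ((j + 1 : ℕ) : ℝ) / K
    · rw [if_pos (h1.mpr ⟨not_lt.mp ha, hb⟩), if_pos hb, if_neg ha]
      ring
    · rw [if_neg (fun h => hb (h1.mp h).2), if_neg hb, if_neg ha]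
      ring

private lemma VKOKG_abel (E g : ℕ → ℝ) (K : ℕ) (h0 : E 0 = 0) (hK : E K = 0) :
    ∑ j ∈ Finset.range K, (E (j + 1) - E j) * g j =
      -∑ j ∈ Finset.range K, E (j + 1) * (g (j + 1) - g j) := by
  have h1 := Finset.sum_range_sub (fun j => E j * g j) K
  rw [h0, hK, zero_mul, zero_mul, sub_zero] at h1
  rw [eq_neg_iff_add_eq_zero, ← Finset.sum_add_distrib, ← h1]
  apply Finset.sum_congr rfl
  intro j _
  ring

private lemma VKOKG_step (N : ℕ) (y : ℕ → ℝ) (D : ℝ)
    (hD : ∀ a b : ℝ, |∑ n ∈ Finset.Icc 1 N, (psi (y n + b) - psi (y n + a))| ≤ D)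
    (G : ℝ → ℝ) (hper : Function.Periodic G 1) (hG : BoundedVariationOn G (Icc 0 1))
    (K : ℕ) (hK : 0 < K) :
    |∑ n ∈ Finset.Icc 1 N, G (y n) - N * ∫ u in (0 : ℝ)..1, G u| ≤
      2 * (eVariationOn G (Icc 0 1)).toReal * D +
        2 * N * (eVariationOn G (Icc 0 1)).toReal / K := by
  have hK0 : (0 : ℝ) < K := by exact_mod_cast hK
  have hlb : LocallyBoundedVariationOn G (Icc 0 1) := hG.locallyBoundedVariationOn
  have h0m : (0 : ℝ) ∈ Icc (0 : ℝ) 1 := ⟨le_rfl, zero_le_one⟩
  set V : ℝ → ℝ := variationOnFromTo G (Icc 0 1) 0 with hV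
  set x : ℕ → ℝ := fun j => (j : ℝ) / K with hx
  have hx0 : x 0 = 0 := by simp [hx]
  have hxK : x K = 1 := by
    rw [hx]
    exact div_self hK0.ne'
  have hxs : ∀ j, x (j + 1) = x j + 1 / K := by
    intro j
    rw [hx]
    push_cast
    ring
  have hxle : ∀ j, x j ≤ x (j + 1) := by
    intro j
    rw [hxs]
    have : 0 < 1 / (K : ℝ) := by positivity
    linarith
  have hxm : ∀ j, j ≤ K → x j ∈ Icc (0 : ℝ) 1 := by
    intro j hj
    refine ⟨by positivity, ?_⟩
    rw [hx]
    have : (j : ℝ) ≤ K := by exact_mod_cast hj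
    exact (div_le_one hK0).mpr this
  have hV1 : V 1 = (eVariationOn G (Icc 0 1)).toReal := by
    rw [hV, variationOnFromTo.eq_of_le G _ zero_le_one, inter_self]
  have hV0 : V 0 = 0 := variationOnFromTo.self G (Icc 0 1) 0
  have hD0 : 0 ≤ D := (abs_nonneg _).trans (hD 0 0)
  -- the variation over the cells
  have hcell : ∀ j, j < K → ∀ f ∈ Icc (x j) (x (j + 1)), |G f - G (x j)| ≤
      V (x (j + 1)) - V (x j) := by
    intro j hj f hf
    have hj1 := hxm j hj.le
    have hj2 := hxm (j + 1) hj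
    have hfm : f ∈ Icc (0 : ℝ) 1 := ⟨hj1.1.trans hf.1, hf.2.trans hj2.2⟩
    have h1 := variationOnFromTo.abs_sub_le_sub_of_le hlb h0m hj1 hfm hf.1
    have h2 := variationOnFromTo.monotoneOn hlb h0m hfm hj2 hf.2
    rw [hV]
    linarith
  have hcell0 : ∀ j, j < K → 0 ≤ V (x (j + 1)) - V (x j) := by
    intro j hj
    exact (abs_nonneg _).trans (hcell j hj (x j) ⟨le_rfl, hxle j⟩)
  have htel : ∑ j ∈ Finset.range K, (V (x (j + 1)) - V (x j)) = V 1 := by
    rw [Finset.sum_range_sub (fun j => V (x j)) K, hxK, hx0, hV0, sub_zero]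
  -- the counting errors
  set E : ℕ → ℝ := fun j => ∑ n ∈ Finset.Icc 1 N, (psi (y n + -(x j)) - psi (y n + 0)) with hEdef
  have hE : ∀ j, |E j| ≤ D := fun j => hD 0 (-(x j))
  have hEd : ∀ j, E (j + 1) - E j ≤ D := by
    intro j
    have h1 := hD (-(x j)) (-(x (j + 1)))
    have h2 : E (j + 1) - E j =
        ∑ n ∈ Finset.Icc 1 N, (psi (y n + -(x (j + 1))) - psi (y n + -(x j))) := by
      rw [hEdef]
      simp only
      rw [← Finset.sum_sub_distrib]
      apply Finset.sum_congr rfl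
      intro n _
      ring
    rw [h2]
    exact (le_abs_self _).trans h1
  have hE0 : E 0 = 0 := by
    rw [hEdef]
    simp only [hx0, neg_zero, sub_self, Finset.sum_const_zero]
  have hEK : E K = 0 := by
    rw [hEdef]
    apply Finset.sum_eq_zero
    intro n _
    have h1 := VKOKG_ind (y n) 1 zero_le_one le_rfl
    rw [if_pos (Int.fract_lt_one _)] at h1
    rw [hxK]
    linarith
  -- the cells
  set c : ℕ → ℕ := fun n => ⌊K * Int.fract (y n)⌋₊ with hc
  have hcK : ∀ n ∈ Finset.Icc 1 N, c n ∈ Finset.range K := by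
    intro n _
    rw [Finset.mem_range, hc]
    have h1 := Int.fract_lt_one (y n)
    have h2 := Int.fract_nonneg (y n)
    rw [Nat.floor_lt (by positivity)]
    nlinarith
  set A : ℕ → ℝ := fun j => (((Finset.Icc 1 N).filter (fun n => c n = j)).card : ℝ) with hAdef
  have hA0 : ∀ j, 0 ≤ A j := fun j => Nat.cast_nonneg _
  have hA : ∀ j, j < K → A j = N / K + (E (j + 1) - E j) := by
    intro j hj
    have h1 : A j = ∑ n ∈ Finset.Icc 1 N, (if c n = j then (1 : ℝ) else 0) := by
      rw [hAdef]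
      simp only
      rw [Finset.natCast_card_filter]
    have h2 : ∀ n ∈ Finset.Icc 1 N, (if c n = j then (1 : ℝ) else 0) =
        (psi (y n + -(x (j + 1))) - psi (y n + 0)) - (psi (y n + -(x j)) - psi (y n + 0)) +
          1 / K := by
      intro n _
      have h3 := VKOKG_ite K hK (Int.fract (y n)) (Int.fract_nonneg _) j
      have h4 := VKOKG_ind (y n) (x (j + 1)) (hxm (j + 1) hj).1 (hxm (j + 1) hj).2
      have h5 := VKOKG_ind (y n) (x j) (hxm j hj.le).1 (hxm j hj.le).2
      have h6 : (if c n = j then (1 : ℝ) else 0) =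
          (if Int.fract (y n) < x (j + 1) then (1 : ℝ) else 0) -
            (if Int.fract (y n) < x j then (1 : ℝ) else 0) := h3
      rw [h6, h4, h5, hxs j]
      ring
    rw [h1, Finset.sum_congr rfl h2, Finset.sum_add_distrib, Finset.sum_sub_distrib,
      Finset.sum_const, Nat.card_Icc, nsmul_eq_mul]
    rw [Nat.add_sub_cancel]
    rw [hEdef]
    ring
  -- splitting the sum
  have hS : ∑ n ∈ Finset.Icc 1 N, G (y n) =
      ∑ j ∈ Finset.range K, ∑ n ∈ (Finset.Icc 1 N).filter (fun n => c n = j), G (y n) :=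
    (Finset.sum_fiberwise_of_maps_to hcK _).symm
  have hS1 : |∑ n ∈ Finset.Icc 1 N, G (y n) - ∑ j ∈ Finset.range K, A j * G (x j)| ≤
      (N / K + D) * V 1 := by
    rw [hS, ← Finset.sum_sub_distrib, ← htel, Finset.mul_sum]
    refine (Finset.abs_sum_le_sum_abs _ _).trans (Finset.sum_le_sum fun j hj => ?_)
    have hjK := Finset.mem_range.mp hj
    have h1 : A j * G (x j) =
        ∑ n ∈ (Finset.Icc 1 N).filter (fun n => c n = j), G (x j) := by
      rw [Finset.sum_const, nsmul_eq_mul]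
    rw [h1, ← Finset.sum_sub_distrib]
    have h2 : |∑ n ∈ (Finset.Icc 1 N).filter (fun n => c n = j), (G (y n) - G (x j))| ≤
        ∑ n ∈ (Finset.Icc 1 N).filter (fun n => c n = j), (V (x (j + 1)) - V (x j)) := by
      refine (Finset.abs_sum_le_sum_abs _ _).trans (Finset.sum_le_sum fun n hn => ?_)
      have h3 : c n = j := (Finset.mem_filter.mp hn).2
      have h4 := (VKOKG_cell K hK (Int.fract (y n)) (Int.fract_nonneg _) j).mp h3
      have h5 : G (y n) = G (Int.fract (y n)) := by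
        have h6 := hper.sub_int_mul_eq (x := y n) ⌊y n⌋
        rw [mul_one, Int.self_sub_floor] at h6
        exact h6.symm
      rw [h5]
      exact hcell j hjK _ ⟨h4.1, h4.2.le⟩
    rw [Finset.sum_const, nsmul_eq_mul] at h2
    refine h2.trans ?_
    have h7 : A j ≤ N / K + D := by
      rw [hA j hjK]
      linarith [hEd j]
    exact mul_le_mul_of_nonneg_right h7 (hcell0 j hjK)
  have hS2 : ∑ j ∈ Finset.range K, A j * G (x j) =
      N / K * ∑ j ∈ Finset.range K, G (x j) +
        ∑ j ∈ Finset.range K, (E (j + 1) - E j) * G (x j) := by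
    rw [Finset.mul_sum, ← Finset.sum_add_distrib]
    apply Finset.sum_congr rfl
    intro j hj
    rw [hA j (Finset.mem_range.mp hj)]
    ring
  have hS3 : |∑ j ∈ Finset.range K, (E (j + 1) - E j) * G (x j)| ≤ D * V 1 := by
    rw [VKOKG_abel E (fun j => G (x j)) K hE0 hEK, abs_neg, ← htel, Finset.mul_sum]
    refine (Finset.abs_sum_le_sum_abs _ _).trans (Finset.sum_le_sum fun j hj => ?_)
    rw [abs_mul]
    exact mul_le_mul (hE (j + 1))
      (hcell j (Finset.mem_range.mp hj) _ ⟨hxle j, le_rfl⟩) (abs_nonneg _) hD0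
  -- the integral
  have hint : ∀ j, j < K → IntervalIntegrable G volume (x j) (x (j + 1)) := by
    intro j hj
    obtain ⟨p, q, hp, hq, hpq⟩ := hlb.exists_monotoneOn_sub_monotoneOn
    have hsub : uIcc (x j) (x (j + 1)) ⊆ Icc (0 : ℝ) 1 := by
      rw [uIcc_of_le (hxle j)]
      exact Icc_subset_Icc (hxm j hj.le).1 (hxm (j + 1) hj).2
    rw [hpq]
    exact ((hp.mono hsub).intervalIntegrable).sub ((hq.mono hsub).intervalIntegrable)
  have hI : ∑ j ∈ Finset.range K, ∫ u in (x j)..(x (j + 1)), G u = ∫ u in (0 : ℝ)..1, G u := by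
    have h1 := intervalIntegral.sum_integral_adjacent_intervals (f := G) (μ := volume) (a := x)
      (n := K) hint
    rw [hx0, hxK] at h1
    exact h1
  have hI1 : |(∫ u in (0 : ℝ)..1, G u) - 1 / K * ∑ j ∈ Finset.range K, G (x j)| ≤ V 1 / K := by
    rw [← hI, Finset.mul_sum, ← Finset.sum_sub_distrib, ← htel, Finset.sum_div]
    refine (Finset.abs_sum_le_sum_abs _ _).trans (Finset.sum_le_sum fun j hj => ?_)
    have hjK := Finset.mem_range.mp hj
    have h1 : (∫ u in (x j)..(x (j + 1)), G u) - 1 / K * G (x j) =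
        ∫ u in (x j)..(x (j + 1)), (G u - G (x j)) := by
      rw [intervalIntegral.integral_sub (hint j hjK) intervalIntegrable_const,
        intervalIntegral.integral_const, hxs j, smul_eq_mul]
      ring
    rw [h1]
    have h2 := intervalIntegral.norm_integral_le_of_norm_le_const (a := x j) (b := x (j + 1))
      (C := V (x (j + 1)) - V (x j)) (f := fun u => G u - G (x j)) (fun u hu => by
        rw [uIoc_of_le (hxle j)] at hu
        rw [Real.norm_eq_abs]
        exact hcell j hjK u ⟨hu.1.le, hu.2⟩)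
    rw [Real.norm_eq_abs] at h2
    refine h2.trans (le_of_eq ?_)
    rw [hxs j, add_sub_cancel_left, abs_of_pos (by positivity)]
    ring
  rw [← hV1]
  set S := ∑ n ∈ Finset.Icc 1 N, G (y n) with hSdef
  set P := ∑ j ∈ Finset.range K, A j * G (x j) with hPdef
  set Q := ∑ j ∈ Finset.range K, (E (j + 1) - E j) * G (x j) with hQdef
  set R := ∑ j ∈ Finset.range K, G (x j) with hRdef
  set J := ∫ u in (0 : ℝ)..1, G u with hJdef
  have hN : (0 : ℝ) ≤ N := Nat.cast_nonneg _
  have e1 : S - N * J = (S - P) + Q - N * (J - 1 / K * R) := by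
    rw [hS2]
    ring
  have e2 : |(N : ℝ) * (J - 1 / K * R)| ≤ N * (V 1 / K) := by
    rw [abs_mul, abs_of_nonneg hN]
    exact mul_le_mul_of_nonneg_left hI1 hN
  rw [e1]
  have e3 := abs_sub (S - P + Q) (N * (J - 1 / K * R))
  have e4 := abs_add_le (S - P) Q
  have e5 : 2 * V 1 * D + 2 * N * V 1 / K = (N / K + D) * V 1 + D * V 1 + N * (V 1 / K) := by
    ring
  rw [e5]
  linarith

/-- The inequality of Koksma. -/
theorem p_VKOKG : V_KOKG := by
  intro N y D hD G hper hG
  apply le_of_forall_pos_le_add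
  intro ε hε
  set W : ℝ := 2 * N * (eVariationOn G (Icc 0 1)).toReal with hW
  have hW0 : 0 ≤ W := by positivity
  obtain ⟨K, hK⟩ := exists_nat_gt (W / ε)
  have hKpos : (0 : ℝ) < K := lt_of_le_of_lt (by positivity) hK
  have hK0 : 0 < K := by exact_mod_cast hKpos
  refine (VKOKG_step N y D hD G hper hG K hK0).trans ?_
  have h1 : W / K ≤ ε := by
    rw [div_le_iff₀ hKpos]
    rw [div_lt_iff₀ hε] at hK
    linarith
  linarith

end Pool.Agent.Ben
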