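import Pool.Agent.Ben.Targets3

/-!
# Ben-VNAR: narrow Gaussian windows from wide ones
-/

set_option autoImplicit false

namespace Pool.Agent.Ben

open Complex MeasureTheory

private theorem VNAR_w_int : Integrable w := by
  have h : (0 : ℝ) < 4 * Real.pi ^ 2 := by positivity
  have := integrable_exp_neg_mul_sq h
  refine this.congr (Filter.Eventually.of_forall fun u => ?_)
  unfold w
  ring_nf

private theorem VNAR_w_pos (u : ℝ) : 0 < w u := Real.exp_pos _

private theorem VNAR_norm_e (x : ℝ) : ‖e x‖ = 1 := by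
  unfold e
  exact Complex.norm_exp_ofReal_mul_I _

private theorem VNAR_e_add (x y : ℝ) : e (x + y) = e x * e y := by
  unfold e
  rw [← Complex.exp_add]
  congr 1
  push_cast
  ring

private theorem VNAR_cont_e : Continuous e := by
  unfold e
  fun_prop

/-- the Fourier transform of the window -/
private theorem VNAR_gauss (x : ℝ) :
    ∫ u : ℝ, e (x * u) * (w u : ℂ) = ((1 / (2 * √Real.pi) : ℝ) : ℂ) *
      ((Real.exp (-x ^ 2 / 4) : ℝ) : ℂ) := by
  have hpi := Real.pi_pos
  have hb : 0 < ((4 * Real.pi ^ 2 : ℝ) : ℂ).re := by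
    rw [Complex.ofReal_re]
    positivity
  have key := fourierIntegral_gaussian hb ((2 * Real.pi * x : ℝ) : ℂ)
  have h1 : ∫ u : ℝ, e (x * u) * (w u : ℂ) =
      ∫ u : ℝ, cexp (I * ((2 * Real.pi * x : ℝ) : ℂ) * u) *
        cexp (-((4 * Real.pi ^ 2 : ℝ) : ℂ) * (u : ℂ) ^ 2) := by
    apply integral_congr_ae
    filter_upwards with u
    unfold e w
    rw [Complex.ofReal_exp]
    congr 2
    · push_cast
      ring
    · push_cast
      ring
  rw [h1, key]
  congr 1
  · have e1 : (Real.pi : ℂ) / ((4 * Real.pi ^ 2 : ℝ) : ℂ) = ((1 / (4 * Real.pi) : ℝ) : ℂ) := by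
      push_cast
      field_simp
    rw [e1, show (1 / 2 : ℂ) = ((1 / 2 : ℝ) : ℂ) by push_cast; ring,
      ← Complex.ofReal_cpow (by positivity)]
    congr 1
    rw [← Real.sqrt_eq_rpow, Real.sqrt_div zero_le_one, Real.sqrt_one,
      Real.sqrt_mul (by norm_num), show (4 : ℝ) = 2 ^ 2 by norm_num, Real.sqrt_sq (by norm_num)]
  · rw [Complex.ofReal_exp]
    congr 1
    push_cast
    field_simp
    ring

theorem p_VNAR : V_NAR := by
  intro α hα c T M
  have hpi := Real.pi_pos
  have hsp : 0 < √Real.pi := Real.sqrt_pos.2 hpi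
  set β : ℝ := √(α ^ 2 - 1) with hβ
  have hβ2 : β ^ 2 = α ^ 2 - 1 := Real.sq_sqrt (by nlinarith)
  set S : ℝ → ℂ := fun u => ∑ n ∈ Finset.Icc 1 M, e ((T + β * u) * Real.log n) *
      (Real.exp (-(Real.log n - c) ^ 2 / 4) : ℝ) with hS
  have hterm : ∀ n : ℕ, Integrable (fun u : ℝ => e ((T + β * u) * Real.log n) *
      (Real.exp (-(Real.log n - c) ^ 2 / 4) : ℝ) * (e (-(u * (β * c))) * (w u : ℂ))) := by
    intro n
    have hw : Integrable (fun u : ℝ => (w u : ℂ)) := VNAR_w_int.ofReal
    have h1 : Continuous (fun u : ℝ => e ((T + β * u) * Real.log n) *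
        (Real.exp (-(Real.log n - c) ^ 2 / 4) : ℝ) * e (-(u * (β * c)))) :=
      ((VNAR_cont_e.comp (by fun_prop)).mul continuous_const).mul
        (VNAR_cont_e.comp (by fun_prop))
    have h2 := hw.bdd_mul (c := Real.exp (-(Real.log n - c) ^ 2 / 4))
      h1.aestronglyMeasurable (Filter.Eventually.of_forall fun u => by
        rw [norm_mul, norm_mul, VNAR_norm_e, VNAR_norm_e, one_mul, mul_one, Complex.norm_real,
          Real.norm_of_nonneg (Real.exp_pos _).le])
    refine h2.congr (Filter.Eventually.of_forall fun u => ?_)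
    show _ = _
    ring
  have hval : ∀ n : ℕ, ∫ u : ℝ, e ((T + β * u) * Real.log n) *
      (Real.exp (-(Real.log n - c) ^ 2 / 4) : ℝ) * (e (-(u * (β * c))) * (w u : ℂ)) =
      ((1 / (2 * √Real.pi) : ℝ) : ℂ) * (e (T * Real.log n) *
        (Real.exp (-(α * (Real.log n - c)) ^ 2 / 4) : ℝ)) := by
    intro n
    have h1 : ∀ u : ℝ, e ((T + β * u) * Real.log n) *
        (Real.exp (-(Real.log n - c) ^ 2 / 4) : ℝ) * (e (-(u * (β * c))) * (w u : ℂ)) =
        (e (T * Real.log n) * (Real.exp (-(Real.log n - c) ^ 2 / 4) : ℝ)) *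
          (e ((β * (Real.log n - c)) * u) * (w u : ℂ)) := by
      intro u
      have e1 : e ((T + β * u) * Real.log n) = e (T * Real.log n) * e (β * u * Real.log n) := by
        rw [← VNAR_e_add]
        congr 1
        ring
      have e2 : e ((β * (Real.log n - c)) * u) = e (β * u * Real.log n) * e (-(u * (β * c))) := by
        rw [← VNAR_e_add]
        congr 1
        ring
      rw [e1, e2]
      ring
    rw [integral_congr_ae (Filter.Eventually.of_forall h1), integral_const_mul, VNAR_gauss]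
    have e3 : Real.exp (-(α * (Real.log n - c)) ^ 2 / 4) =
        Real.exp (-(Real.log n - c) ^ 2 / 4) * Real.exp (-(β * (Real.log n - c)) ^ 2 / 4) := by
      rw [← Real.exp_add]
      congr 1
      rw [mul_pow, mul_pow, hβ2]
      ring
    rw [e3, Complex.ofReal_mul]
    ring
  have hsum : ∫ u : ℝ, S u * (e (-(u * (β * c))) * (w u : ℂ)) =
      ((1 / (2 * √Real.pi) : ℝ) : ℂ) * ∑ n ∈ Finset.Icc 1 M, e (T * Real.log n) *
        (Real.exp (-(α * (Real.log n - c)) ^ 2 / 4) : ℝ) := by
    simp only [hS, Finset.sum_mul]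
    rw [integral_finsetSum _ fun n _ => hterm n, Finset.mul_sum]
    exact Finset.sum_congr rfl fun n _ => hval n
  have hnorm : ‖∫ u : ℝ, S u * (e (-(u * (β * c))) * (w u : ℂ))‖ ≤ ∫ u : ℝ, ‖S u‖ * w u := by
    refine (norm_integral_le_integral_norm _).trans (le_of_eq ?_)
    apply integral_congr_ae
    filter_upwards with u
    rw [norm_mul, norm_mul, VNAR_norm_e, one_mul, Complex.norm_real,
      Real.norm_of_nonneg (VNAR_w_pos u).le]
  rw [hsum, norm_mul, Complex.norm_real, Real.norm_of_nonneg (by positivity)] at hnorm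
  rw [one_div, inv_mul_le_iff₀ (by positivity)] at hnorm
  exact hnorm

end Pool.Agent.Ben
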