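import Pool.Agent.Ben.Targets3

/-!
# Ben, target VONE: one bounded measurable statistic
-/

set_option autoImplicit false

namespace Pool.Agent.Ben

open Complex MeasureTheory Set

theorem VONE_int {f : ℝ → ℝ} {B : ℝ} (hf : Measurable f) (hB : ∀ y, |f y| ≤ B) :
    IntervalIntegrable f volume 0 1 := by
  rw [intervalIntegrable_iff]
  exact Measure.integrableOn_of_bounded (M := B) (by simp) hf.aestronglyMeasurable
    (Filter.Eventually.of_forall fun x => by simpa using hB x)

theorem VONE_le {f : ℝ → ℝ} {B : ℝ} (hB : ∀ y, |f y| ≤ B) : |∫ u in (0 : ℝ)..1, f u| ≤ B := by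
  have h := intervalIntegral.norm_integral_le_of_norm_le_const (a := (0 : ℝ)) (b := 1) (f := f)
    (C := B) (fun x _ => by simpa using hB x)
  simpa using h

theorem VONE_logb {g t : ℝ} (hg : 1 < g) {n : ℕ} (hn : 1 ≤ n) :
    Real.logb g ((n : ℝ) ^ (t * Real.log g)) = t * Real.log n := by
  have hL : 0 < Real.log g := Real.log_pos hg
  have hn0 : (0 : ℝ) < n := by exact_mod_cast hn
  rw [Real.logb, Real.log_rpow hn0]
  field_simp

/-- Target VONE. -/
theorem p_VONE : V_ONE := by
  intro g f B hg hf hper hB hU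
  have hL : 0 < Real.log g := Real.log_pos hg
  refine ⟨⟨hf.sub_const _, ?_, ?_, ?_⟩, ?_⟩
  · intro x
    simp only
    rw [hper x]
  · intro x
    have h1 := abs_sub (f x) (∫ u in (0 : ℝ)..1, f u)
    have h2 := hB x
    have h3 := VONE_le hB
    linarith
  · unfold coef
    have h1 : ∀ x : ℝ, ((f x - ∫ u in (0 : ℝ)..1, f u : ℝ) : ℂ) * e (-(((0 : ℤ) : ℝ) * x)) =
        ((f x - ∫ u in (0 : ℝ)..1, f u : ℝ) : ℂ) := by
      intro x
      simp [e]
    simp only [h1]
    rw [intervalIntegral.integral_ofReal, intervalIntegral.integral_sub (VONE_int hf hB)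
      (by simp), intervalIntegral.integral_const]
    simp
  · intro ε hε
    obtain ⟨C, hC⟩ := hU ε hε
    refine ⟨C * Real.log g ^ ε, ?_⟩
    intro t ht N hN hNt
    have ht0 : 0 < t := by linarith
    have h1 := hC (t * Real.log g) N hN (by linarith [hNt, mul_comm (Real.log g) t])
    rw [Real.mul_rpow ht0.le hL.le] at h1
    have h2 : ∑ n ∈ Finset.Icc 1 N, f (Real.logb g ((n : ℝ) ^ (t * Real.log g))) =
        ∑ n ∈ Finset.Icc 1 N, f (t * Real.log n) := by
      refine Finset.sum_congr rfl fun n hn => ?_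
      rw [VONE_logb hg (Finset.mem_Icc.1 hn).1]
    rw [h2] at h1
    have h3 : ∑ n ∈ Finset.Icc 1 N, (f (t * Real.log n) - ∫ u in (0 : ℝ)..1, f u) =
        ∑ n ∈ Finset.Icc 1 N, f (t * Real.log n) - N * ∫ u in (0 : ℝ)..1, f u := by
      rw [Finset.sum_sub_distrib, Finset.sum_const, Nat.card_Icc, Nat.add_sub_cancel,
        nsmul_eq_mul]
    rw [h3]
    calc ∑ n ∈ Finset.Icc 1 N, f (t * Real.log n) - N * ∫ u in (0 : ℝ)..1, f u
        ≤ C * √(N : ℝ) * (t ^ ε * Real.log g ^ ε) := h1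
      _ = C * Real.log g ^ ε * √(N : ℝ) * t ^ ε := by ring

end Pool.Agent.Ben
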