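import Pool.Agent.Ben.Targets3
import Mathlib.Analysis.Fourier.AddCircle

/-!
# Ben, version 2, target `V_UNIQ`: a nonconstant observable has a first nonzero coefficient
-/

set_option autoImplicit false

namespace Pool.Agent.Ben

open Complex MeasureTheory Set

theorem VUNIQ_conj (G : ℝ → ℝ) (h : ℤ) : coef G (-h) = (starRingEnd ℂ) (coef G h) := by
  unfold coef
  rw [intervalIntegral.integral_of_le zero_le_one, intervalIntegral.integral_of_le zero_le_one,
    ← integral_conj]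
  congr 1
  funext x
  rw [map_mul, Complex.conj_ofReal]
  congr 1
  unfold e
  rw [← Complex.exp_conj]
  congr 1
  rw [map_mul, Complex.conj_I, Complex.conj_ofReal]
  push_cast
  ring

theorem VUNIQ_coeff (G : ℝ → ℝ) (h : ℤ) :
    fourierCoeffOn (zero_lt_one (α := ℝ)) (fun x => (G x : ℂ)) h = coef G h := by
  rw [fourierCoeffOn_eq_integral]
  unfold coef
  rw [sub_zero, div_one, one_smul]
  apply intervalIntegral.integral_congr
  intro x _
  beta_reduce
  rw [fourier_coe_apply, smul_eq_mul, mul_comm]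
  congr 1
  unfold e
  congr 1
  push_cast
  ring

theorem VUNIQ_ae (G : ℝ → ℝ) (B : ℝ) (hG : Obs G B) (hall : ∀ h : ℤ, coef G h = 0) :
    ∀ᵐ x, G x = 0 := by
  have hL2 : MemLp (fun x => (G x : ℂ)) 2 (volume.restrict (Ioc (0 : ℝ) 1)) := by
    refine MemLp.of_bound ?_ B (Filter.Eventually.of_forall fun x => ?_)
    · exact (Complex.measurable_ofReal.comp hG.meas).aestronglyMeasurable
    · rw [Complex.norm_real]
      exact hG.bdd x
  have h1 := tsum_sq_fourierCoeffOn (zero_lt_one (α := ℝ)) hL2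
  simp only [VUNIQ_coeff, hall, norm_zero] at h1
  have h2 : ∫ x in Ioc (0 : ℝ) 1, ‖((G x : ℝ) : ℂ)‖ ^ 2 = 0 := by
    rw [← intervalIntegral.integral_of_le zero_le_one]
    rw [sub_zero, inv_one, one_smul] at h1
    rw [← h1]
    simp
  have hint : IntegrableOn (fun x => ‖((G x : ℝ) : ℂ)‖ ^ 2) (Ioc (0 : ℝ) 1) :=
    hL2.norm.integrable_sq
  rw [setIntegral_eq_zero_iff_of_nonneg_ae
    (Filter.Eventually.of_forall fun x => by positivity) hint] at h2
  have h3 : ∀ᵐ x, x ∈ Ioc (0 : ℝ) 1 → G x = 0 := by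
    rw [← ae_restrict_iff' measurableSet_Ioc]
    filter_upwards [h2] with x hx
    have h4 : ‖((G x : ℝ) : ℂ)‖ = 0 := by
      simpa using hx
    rw [Complex.norm_real, norm_eq_zero] at h4
    exact h4
  have h5 : ∀ n : ℤ, ∀ᵐ x : ℝ, x - n ∈ Ioc (0 : ℝ) 1 → G (x - n) = 0 := fun n =>
    (measurePreserving_sub_right volume (n : ℝ)).quasiMeasurePreserving.ae h3
  filter_upwards [ae_all_iff.mpr h5] with x hx
  have h6 : x - ((⌈x⌉ - 1 : ℤ) : ℝ) ∈ Ioc (0 : ℝ) 1 := by
    push_cast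
    constructor
    · linarith [Int.ceil_lt_add_one x]
    · linarith [Int.le_ceil x]
  have h7 := hx (⌈x⌉ - 1) h6
  have h8 := hG.per.sub_int_mul_eq (x := x) (⌈x⌉ - 1)
  rw [mul_one] at h8
  rw [← h8]
  exact h7

theorem p_VUNIQ : V_UNIQ := by
  intro G B hG hne
  by_contra hcon
  apply hne
  have hpos : ∀ m : ℕ, 1 ≤ m → coef G m = 0 := by
    intro m
    induction m using Nat.strong_induction_on with
    | _ m ih =>
      intro hm
      by_contra h
      exact hcon ⟨m, hm, h, fun j hj hjm => ih j hjm hj⟩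
  refine VUNIQ_ae G B hG fun h => ?_
  rcases lt_trichotomy h 0 with h0 | h0 | h0
  · obtain ⟨m, hm⟩ : ∃ m : ℕ, h = -(m : ℤ) := ⟨(-h).toNat, by omega⟩
    rw [hm, VUNIQ_conj, hpos m (by omega), map_zero]
  · rw [h0]
    exact hG.mean
  · obtain ⟨m, hm⟩ : ∃ m : ℕ, h = (m : ℤ) := ⟨h.toNat, by omega⟩
    rw [hm]
    exact hpos m (by omega)

end Pool.Agent.Ben
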