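import Pool.Agent.Ben.Targets4

/-!
# Ben, target `W_COEF`: Fourier series of a `C¹` function of period one
-/

set_option autoImplicit false

namespace Pool.Agent.Ben

open Complex MeasureTheory Set

private theorem WCOEF_e (h : ℤ) (y : ℝ) :
    e (h * y) = Complex.exp (2 * Real.pi * Complex.I * h * y) := by
  unfold e
  congr 1
  push_cast
  ring

private theorem WCOEF_coef (f : ℝ → ℝ)
    (F : C(AddCircle (1 : ℝ), ℂ)) (hF : ∀ x : ℝ, F (x : AddCircle (1 : ℝ)) = (f x : ℂ)) (n : ℤ) :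
    fourierCoeff F n = fourierCoeffOn (zero_lt_one (α := ℝ)) (fun x => (f x : ℂ)) n := by
  rw [fourierCoeff_eq_intervalIntegral _ n 0, fourierCoeffOn_eq_integral, zero_add, sub_zero]
  congr 1
  refine intervalIntegral.integral_congr fun x _ => ?_
  show fourier (-n) (x : AddCircle (1 : ℝ)) • F (x : AddCircle (1 : ℝ)) =
    fourier (-n) (x : AddCircle (1 : ℝ)) • (f x : ℂ)
  rw [hF]

private theorem WCOEF_lift (f : ℝ → ℝ) (hf : Continuous f) (hp : Function.Periodic f 1) :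
    ∃ F : C(AddCircle (1 : ℝ), ℂ), ∀ x : ℝ, F (x : AddCircle (1 : ℝ)) = (f x : ℂ) := by
  have hp' : Function.Periodic (fun x : ℝ => (f x : ℂ)) 1 := fun x => by
    show (f (x + 1) : ℂ) = f x
    rw [hp x]
  have hc : Continuous (fun x : ℝ => (f x : ℂ)) := Complex.continuous_ofReal.comp hf
  refine ⟨⟨hp'.lift, ?_⟩, fun x => hp'.lift_coe x⟩
  exact continuous_coinduced_dom.2 (by
    show Continuous (hp'.lift ∘ ((↑) : ℝ → AddCircle (1 : ℝ)))
    exact hc)

private theorem WCOEF_ibp (f : ℝ → ℝ) (hf : ContDiff ℝ 1 f) (hp : Function.Periodic f 1)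
    {n : ℤ} (hn : n ≠ 0) :
    ‖fourierCoeffOn (zero_lt_one (α := ℝ)) (fun x => (f x : ℂ)) n‖ =
      1 / (2 * Real.pi) * (‖fourierCoeffOn (zero_lt_one (α := ℝ))
        (fun x => ((deriv f x : ℝ) : ℂ)) n‖ * |(n : ℝ)|⁻¹) := by
  have hd : ∀ x ∈ uIcc (0 : ℝ) 1, HasDerivAt (fun x => (f x : ℂ)) ((deriv f x : ℝ) : ℂ) x := by
    intro x _
    exact ((hf.differentiable (by norm_num)) x).hasDerivAt.ofReal_comp
  have hc : Continuous (fun x : ℝ => ((deriv f x : ℝ) : ℂ)) :=
    Complex.continuous_ofReal.comp (hf.continuous_deriv le_rfl)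
  rw [fourierCoeffOn_of_hasDerivAt zero_lt_one hn hd (hc.intervalIntegrable 0 1)]
  have h10 : f 1 = f 0 := by
    have := hp 0
    rwa [zero_add] at this
  have h1 : ‖(1 : ℂ) / (-2 * Real.pi * Complex.I * n)‖ = 1 / (2 * Real.pi) * |(n : ℝ)|⁻¹ := by
    rw [norm_div, norm_mul, norm_mul, norm_mul, norm_neg, Complex.norm_I, norm_one,
      Complex.norm_real, Complex.norm_intCast, Real.norm_of_nonneg Real.pi_pos.le]
    have : ‖(2 : ℂ)‖ = 2 := by simp
    rw [this]
    have : |(n : ℝ)| ≠ 0 := abs_ne_zero.2 (Int.cast_ne_zero.2 hn)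
    have := Real.pi_ne_zero
    field_simp
  rw [norm_mul, h1, h10]
  have h2 : ‖fourier (-n) ((0 : ℝ) : AddCircle (1 - 0 : ℝ)) * ((f 0 : ℂ) - (f 0 : ℂ)) -
      (((1 : ℝ) : ℂ) - ((0 : ℝ) : ℂ)) * fourierCoeffOn (zero_lt_one (α := ℝ))
        (fun x => ((deriv f x : ℝ) : ℂ)) n‖ =
      ‖fourierCoeffOn (zero_lt_one (α := ℝ)) (fun x => ((deriv f x : ℝ) : ℂ)) n‖ := by
    rw [sub_self, mul_zero, zero_sub, norm_neg, Complex.ofReal_one, Complex.ofReal_zero, sub_zero,
      one_mul]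
  rw [h2]
  ring

private theorem WCOEF_sq (f : ℝ → ℝ) (hf : ContDiff ℝ 1 f) {M : ℝ} (hM : ∀ y, |deriv f y| ≤ M) :
    ∃ s : ℝ, s ≤ M ^ 2 ∧ HasSum (fun n : ℤ => ‖fourierCoeffOn (zero_lt_one (α := ℝ))
      (fun x => ((deriv f x : ℝ) : ℂ)) n‖ ^ 2) s := by
  have hc : Continuous (fun x : ℝ => ((deriv f x : ℝ) : ℂ)) :=
    Complex.continuous_ofReal.comp (hf.continuous_deriv le_rfl)
  have hL : MemLp (fun x : ℝ => ((deriv f x : ℝ) : ℂ)) 2 (volume.restrict (Ioc 0 1)) := by
    refine MemLp.of_bound hc.aestronglyMeasurable M (Filter.Eventually.of_forall fun x => ?_)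
    rw [Complex.norm_real]
    exact hM x
  refine ⟨_, ?_, hasSum_sq_fourierCoeffOn zero_lt_one hL⟩
  rw [sub_zero, inv_one, one_smul]
  have h1 : ∫ x in (0 : ℝ)..1, ‖((deriv f x : ℝ) : ℂ)‖ ^ 2 ≤ ∫ _x in (0 : ℝ)..1, M ^ 2 := by
    apply intervalIntegral.integral_mono_on zero_le_one
    · exact (hc.norm.pow 2).intervalIntegrable 0 1
    · exact continuous_const.intervalIntegrable 0 1
    · intro x _
      rw [Complex.norm_real]
      exact pow_le_pow_left₀ (norm_nonneg _) (hM x) 2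
  simpa using h1

/-- the target -/
theorem p_WCOEF : W_COEF := by
  intro b hb0 hb
  set g : ℤ → ℝ := fun n => |(n : ℝ)| ^ (b - 1) with hg
  have hgs : Summable (fun n : ℤ => g n ^ 2) := by
    have h1 := Real.summable_abs_int_rpow (b := 2 - 2 * b) (by linarith)
    refine h1.congr fun n => ?_
    rw [hg]
    show |(n : ℝ)| ^ (-(2 - 2 * b)) = (|(n : ℝ)| ^ (b - 1)) ^ 2
    rw [← Real.rpow_natCast, ← Real.rpow_mul (abs_nonneg _)]
    congr 1
    push_cast
    ring
  set Gs : ℝ := ∑' n : ℤ, g n ^ 2 with hGs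
  have hGs0 : 0 ≤ Gs := tsum_nonneg fun n => sq_nonneg _
  refine ⟨1 / (2 * Real.pi) * ((1 + Gs) / 2), ?_⟩
  intro f M hf hp hM
  have hM0 : 0 ≤ M := (abs_nonneg _).trans (hM 0)
  obtain ⟨F, hF⟩ := WCOEF_lift f hf.continuous hp
  set d : ℤ → ℝ := fun n => ‖fourierCoeffOn (zero_lt_one (α := ℝ))
    (fun x => ((deriv f x : ℝ) : ℂ)) n‖ with hd
  obtain ⟨s, hsM, hs⟩ := WCOEF_sq f hf hM
  have hd0 : ∀ n, 0 ≤ d n := fun n => norm_nonneg _
  -- the weighted coefficients
  have hkey : ∀ n : ℤ, (if n = 0 then 0 else ‖fourierCoeff F n‖ * |(n : ℝ)| ^ b) =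
      1 / (2 * Real.pi) * (d n * g n) := by
    intro n
    by_cases hn : n = 0
    · rw [if_pos hn, hn]
      have : g 0 = 0 := by
        rw [hg]
        show |((0 : ℤ) : ℝ)| ^ (b - 1) = 0
        rw [Int.cast_zero, abs_zero, Real.zero_rpow (by linarith)]
      rw [this]
      ring
    · rw [if_neg hn, WCOEF_coef f F hF, WCOEF_ibp f hf hp hn]
      have hn' : 0 < |(n : ℝ)| := abs_pos.2 (Int.cast_ne_zero.2 hn)
      have h2 : |(n : ℝ)|⁻¹ * |(n : ℝ)| ^ b = g n := by
        rw [hg]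
        show |(n : ℝ)|⁻¹ * |(n : ℝ)| ^ b = |(n : ℝ)| ^ (b - 1)
        rw [Real.rpow_sub_one hn'.ne']
        field_simp
      rw [← h2]
      ring
  have hsum : Summable (fun n : ℤ => d n * g n) ∧ ∑' n : ℤ, d n * g n ≤ (1 + Gs) / 2 * M := by
    rcases hM0.eq_or_lt with h0 | h0
    · have hz : ∀ n, d n = 0 := by
        intro n
        have h1 : d n ^ 2 ≤ s := le_hasSum hs n (fun j _ => sq_nonneg _)
        rw [← h0] at hsM
        have h2 : d n ^ 2 ≤ 0 := by nlinarith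
        exact pow_eq_zero_iff (two_ne_zero) |>.1 (le_antisymm h2 (sq_nonneg _))
      have h3 : (fun n : ℤ => d n * g n) = fun _ => 0 := by
        funext n
        rw [hz, zero_mul]
      rw [h3, ← h0]
      exact ⟨summable_zero, by simp⟩
    · have h1 : ∀ n : ℤ, d n * g n ≤ 1 / (2 * M) * d n ^ 2 + M / 2 * g n ^ 2 := by
        intro n
        have h2 : 0 ≤ (d n - M * g n) ^ 2 / (2 * M) := by positivity
        have h3 : (d n - M * g n) ^ 2 / (2 * M) =
            1 / (2 * M) * d n ^ 2 + M / 2 * g n ^ 2 - d n * g n := by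
          field_simp
          ring
        linarith
      have h4 : HasSum (fun n : ℤ => 1 / (2 * M) * d n ^ 2 + M / 2 * g n ^ 2)
          (1 / (2 * M) * s + M / 2 * Gs) :=
        (hs.mul_left (1 / (2 * M))).add (hgs.hasSum.mul_left (M / 2))
      have hg0 : ∀ n, 0 ≤ g n := fun n => Real.rpow_nonneg (abs_nonneg _) _
      have h5 : Summable (fun n : ℤ => d n * g n) :=
        Summable.of_nonneg_of_le (fun n => mul_nonneg (hd0 n) (hg0 n)) h1 h4.summable
      refine ⟨h5, ?_⟩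
      have h6 := h5.tsum_le_tsum h1 h4.summable
      rw [h4.tsum_eq] at h6
      have h7 : 1 / (2 * M) * s ≤ M / 2 := by
        have : 1 / (2 * M) * s ≤ 1 / (2 * M) * M ^ 2 :=
          mul_le_mul_of_nonneg_left hsM (by positivity)
        have e1 : 1 / (2 * M) * M ^ 2 = M / 2 := by field_simp
        linarith
      linarith
  have hS : Summable (fun h : ℤ => if h = 0 then 0 else ‖fourierCoeff F h‖ * |(h : ℝ)| ^ b) :=
    (hsum.1.mul_left (1 / (2 * Real.pi))).congr fun n => (hkey n).symm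
  have hFs : Summable (fourierCoeff F) := by
    have h1 : Summable (fun n : ℤ => (if n = 0 then ‖fourierCoeff F 0‖ else 0) +
        (if n = 0 then 0 else ‖fourierCoeff F n‖ * |(n : ℝ)| ^ b)) :=
      (hasSum_ite_eq (0 : ℤ) ‖fourierCoeff F 0‖).summable.add hS
    refine Summable.of_norm_bounded h1 fun n => ?_
    by_cases hn : n = 0
    · rw [if_pos hn, if_pos hn, hn, add_zero]
    · rw [if_neg hn, if_neg hn, zero_add]
      have h2 : (1 : ℝ) ≤ |(n : ℝ)| := by
        have : 1 ≤ |n| := Int.one_le_abs hn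
        exact_mod_cast this
      have h3 : (1 : ℝ) ≤ |(n : ℝ)| ^ b := Real.one_le_rpow h2 hb0
      exact le_mul_of_one_le_right (norm_nonneg _) h3
  refine ⟨fourierCoeff F, ?_, ?_, hS, ?_⟩
  · intro y
    have h1 := has_pointwise_sum_fourier_series_of_summable hFs (y : AddCircle (1 : ℝ))
    rw [hF] at h1
    refine h1.congr_fun ?_
    intro n
    show fourierCoeff F n * e (n * y) = fourierCoeff F n • fourier n (y : AddCircle (1 : ℝ))
    rw [fourier_coe_apply, WCOEF_e, smul_eq_mul]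
    simp
  · rw [WCOEF_coef f F hF, fourierCoeffOn_eq_integral]
    rw [sub_zero, div_one, one_smul, ← intervalIntegral.integral_ofReal]
    refine intervalIntegral.integral_congr fun x _ => ?_
    show fourier (-0) (x : AddCircle (1 : ℝ)) • (f x : ℂ) = (f x : ℂ)
    rw [neg_zero, fourier_zero, one_smul]
  · rw [tsum_congr hkey, tsum_mul_left]
    have h1 := mul_le_mul_of_nonneg_left hsum.2 (show 0 ≤ 1 / (2 * Real.pi) by positivity)
    linarith

end Pool.Agent.Ben
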