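import Pool.Agent.Ben.Targets4

/-!
# Ben-WHIGH: the frequencies above the lowest one
-/

set_option autoImplicit false

namespace Pool.Agent.Ben

open MeasureTheory

private theorem WHIGH_w_pos (u : ℝ) : 0 < w u := Real.exp_pos _

private theorem WHIGH_w_int : Integrable w := by
  have h : (0 : ℝ) < 4 * Real.pi ^ 2 := by positivity
  have := integrable_exp_neg_mul_sq h
  refine this.congr (Filter.Eventually.of_forall fun u => ?_)
  unfold w
  ring_nf

private theorem WHIGH_w2_int : Integrable fun u : ℝ => u ^ 2 * w u := by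
  have h : (0 : ℝ) < 4 * Real.pi ^ 2 := by positivity
  have := integrable_rpow_mul_exp_neg_mul_sq h (s := 2) (by norm_num)
  refine this.congr (Filter.Eventually.of_forall fun u => ?_)
  unfold w
  simp only [Real.rpow_two]
  ring_nf

private theorem WHIGH_norm_e (x : ℝ) : ‖e x‖ = 1 := by
  unfold e
  exact Complex.norm_exp_ofReal_mul_I _

private theorem WHIGH_cont_e : Continuous e := by
  unfold e
  fun_prop

/-- the terms beyond `N₀ t ^ d` contribute at most `N₀ / t` -/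
private theorem WHIGH_cut (hT : T_TAIL) (d : ℝ) (hd : 0 < d) :
    ∃ T₀ : ℝ, ∀ t N₀ α : ℝ, T₀ ≤ t → 1 ≤ t → 1 ≤ N₀ → 1 ≤ α → ∀ c : ℕ → ℂ,
      (∀ n, ‖c n‖ = 1) → ∀ M : ℕ,
      ‖∑ n ∈ Finset.Icc 1 M, c n *
          (Real.exp (-(α * (Real.log n - Real.log N₀)) ^ 2 / 4) : ℝ)‖ ≤
        ‖∑ n ∈ Finset.Icc 1 (min M ⌈N₀ * t ^ d⌉₊), c n *
          (Real.exp (-(α * (Real.log n - Real.log N₀)) ^ 2 / 4) : ℝ)‖ + N₀ / t := by
  obtain ⟨T₀, hT₀⟩ := hT d hd
  refine ⟨T₀, fun t N₀ α htT ht hN hα c hc M => ?_⟩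
  set K : ℕ := ⌈N₀ * t ^ d⌉₊ with hK
  have hNt : 0 ≤ N₀ / t := by positivity
  rcases le_total M K with h | h
  · rw [min_eq_left h]
    linarith
  rw [min_eq_right h]
  have hle : N₀ * t ^ d ≤ (K : ℝ) + 1 := (Nat.le_ceil _).trans (by linarith)
  obtain ⟨hs, hb⟩ := hT₀ t N₀ htT hN K hle
  set f : ℕ → ℂ := fun n => c n *
    (Real.exp (-(α * (Real.log n - Real.log N₀)) ^ 2 / 4) : ℝ) with hf
  have h1 : ∑ n ∈ Finset.Icc 1 M, f n =
      ∑ n ∈ Finset.Icc 1 K, f n + ∑ i ∈ Finset.range (M - K), f (K + 1 + i) := by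
    have e1 : ∀ L : ℕ, Finset.Icc 1 L = Finset.Ioc 0 L := fun L => by
      ext n
      simp only [Finset.mem_Icc, Finset.mem_Ioc]
      omega
    have e2 : Finset.Ioc K M = Finset.Ico (K + 1) (M + 1) := by
      ext n
      simp only [Finset.mem_Ico, Finset.mem_Ioc]
      omega
    rw [e1, e1, ← Finset.sum_Ioc_consecutive f (Nat.zero_le K) h, e2,
      Finset.sum_Ico_eq_sum_range, Nat.add_sub_add_right]
  rw [h1]
  refine (norm_add_le _ _).trans (add_le_add le_rfl ?_)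
  calc ‖∑ i ∈ Finset.range (M - K), f (K + 1 + i)‖
      ≤ ∑ i ∈ Finset.range (M - K), ‖f (K + 1 + i)‖ := norm_sum_le _ _
    _ ≤ ∑ i ∈ Finset.range (M - K),
        Real.exp (-(Real.log ((i : ℝ) + K + 1) - Real.log N₀) ^ 2 / 4) := by
        refine Finset.sum_le_sum fun i _ => ?_
        simp only [hf]
        rw [norm_mul, hc, one_mul, Complex.norm_real, Real.norm_of_nonneg (Real.exp_pos _).le]
        refine Real.exp_le_exp.2 ?_
        have e3 : (((K + 1 + i : ℕ) : ℝ)) = (i : ℝ) + K + 1 := by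
          push_cast
          ring
        rw [e3]
        have h2 : (Real.log ((i : ℝ) + K + 1) - Real.log N₀) ^ 2 ≤
            (α * (Real.log ((i : ℝ) + K + 1) - Real.log N₀)) ^ 2 := by
          rw [mul_pow]
          exact le_mul_of_one_le_left (sq_nonneg _) (one_le_pow₀ hα)
        linarith
    _ ≤ ∑' i : ℕ, Real.exp (-(Real.log ((i : ℝ) + K + 1) - Real.log N₀) ^ 2 / 4) :=
        hs.sum_le_tsum _ fun i _ => (Real.exp_pos _).le
    _ ≤ N₀ / t := hb

/-- `M' ^ s ≤ 2 N₀ ^ s X ^ (ε / 2)` -/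
private theorem WHIGH_pow {s ε d t X N₀ K : ℝ} (hs0 : 0 ≤ s) (hs1 : s ≤ 1) (hd0 : 0 < d)
    (hd : d ≤ ε / 2) (ht : 1 ≤ t) (hX : t ≤ X) (hN : 1 ≤ N₀) (hK0 : 0 ≤ K)
    (hK : K ≤ 2 * (N₀ * t ^ d)) : K ^ s ≤ 2 * N₀ ^ s * X ^ (ε / 2) := by
  have ht0 : 0 < t := by linarith
  have hX1 : 1 ≤ X := by linarith
  have h1 : K ^ s ≤ (2 * (N₀ * t ^ d)) ^ s := Real.rpow_le_rpow hK0 hK hs0
  have h2 : (2 * (N₀ * t ^ d)) ^ s = 2 ^ s * (N₀ ^ s * (t ^ d) ^ s) := by
    rw [Real.mul_rpow (by norm_num) (by positivity), Real.mul_rpow (by positivity)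
      (by positivity)]
  have h3 : (2 : ℝ) ^ s ≤ 2 := by
    calc (2 : ℝ) ^ s ≤ 2 ^ (1 : ℝ) := Real.rpow_le_rpow_of_exponent_le (by norm_num) hs1
      _ = 2 := Real.rpow_one 2
  have h4 : (t ^ d) ^ s ≤ X ^ (ε / 2) := by
    rw [← Real.rpow_mul ht0.le]
    calc t ^ (d * s) ≤ X ^ (d * s) := Real.rpow_le_rpow ht0.le hX (by positivity)
      _ ≤ X ^ (ε / 2) := Real.rpow_le_rpow_of_exponent_le hX1 (by nlinarith)
  calc K ^ s ≤ 2 ^ s * (N₀ ^ s * (t ^ d) ^ s) := h1.trans h2.le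
    _ ≤ 2 * (N₀ ^ s * X ^ (ε / 2)) :=
        mul_le_mul h3 (mul_le_mul_of_nonneg_left h4 (by positivity)) (by positivity) (by norm_num)
    _ = _ := by ring

theorem p_WHIGH : T_TAIL → V_NAR → W_HIGH := by
  intro hT hNAR a θ κ ha hθ0 hθ1 hκ hGA m hm ε hε
  have hpi := Real.pi_pos
  have hd0 : 0 < ε / 2 := by positivity
  obtain ⟨T₀, hT₀⟩ := WHIGH_cut hT (ε / 2) hd0
  obtain ⟨C₁, hC₁⟩ := hGA (ε / 2) hd0
  have hm1 : (1 : ℝ) ≤ m := by exact_mod_cast hm
  set W0 : ℝ := ∫ u : ℝ, w u with hW0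
  set W2 : ℝ := ∫ u : ℝ, u ^ 2 * w u with hW2
  have hW0' : 0 ≤ W0 := integral_nonneg fun u => (WHIGH_w_pos u).le
  have hW2' : 0 ≤ W2 := integral_nonneg fun u => mul_nonneg (sq_nonneg u) (WHIGH_w_pos u).le
  set D : ℝ := |C₁| * (2 * (3 / 2) ^ a * (3 / 2) ^ (ε / 2)) with hD
  have hD0 : 0 ≤ D := by positivity
  refine ⟨κ * |T₀| / 2 + κ / 2 + 2 * √Real.pi * (D * W0 + 2 * κ * W2), ?_⟩
  intro t ht M hM hMt N hN hNM h hmh
  have ht0 : 0 < t := by linarith
  have hmh' : (m : ℝ) < h := by exact_mod_cast hmh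
  have hh0 : (0 : ℝ) < h := by linarith
  have hh1 : (1 : ℝ) ≤ h := by linarith
  have hm0 : (0 : ℝ) < m := by linarith
  set X : ℝ := h * t with hX
  have htX : t ≤ X := le_mul_of_one_le_left ht0.le hh1
  have hX1 : 1 ≤ X := by linarith
  have hX0 : 0 < X := by linarith
  set N₀ : ℝ := N ^ ((m : ℝ) / h) with hN₀
  have hr0 : 0 ≤ (m : ℝ) / h := by positivity
  have hr1 : (m : ℝ) / h ≤ 1 := (div_le_one hh0).2 hmh'.le
  have hN₀1 : 1 ≤ N₀ := Real.one_le_rpow hN hr0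
  have hN₀N : N₀ ≤ N := by
    calc N₀ ≤ N ^ (1 : ℝ) := Real.rpow_le_rpow_of_exponent_le hN hr1
      _ = N := Real.rpow_one N
  have hlog : Real.log N₀ = (m : ℝ) / h * Real.log N := Real.log_rpow (by linarith) _
  set α : ℝ := (h : ℝ) / m with hα
  have hα1 : 1 ≤ α := (one_le_div hm0).2 hmh'.le
  have hαh : α ≤ h := div_le_self hh0.le hm1
  set β : ℝ := √(α ^ 2 - 1) with hβ
  have hβ0 : 0 ≤ β := Real.sqrt_nonneg _
  have hβh : β ≤ h := by
    refine Real.sqrt_le_iff.2 ⟨hh0.le, ?_⟩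
    nlinarith
  set P : ℝ := N ^ ((m : ℝ) / h * (1 / 2)) * X ^ a + N ^ ((m : ℝ) / h * θ) with hP
  have hN0 : 0 ≤ N := by linarith
  have hp1 : N ^ ((m : ℝ) / h * (1 / 2)) = N₀ ^ (1 / 2 : ℝ) := Real.rpow_mul hN0 _ _
  have hp2 : N ^ ((m : ℝ) / h * θ) = N₀ ^ θ := Real.rpow_mul hN0 _ _
  have hP1 : 1 ≤ P := by
    have h1 : 1 ≤ N ^ ((m : ℝ) / h * θ) := Real.one_le_rpow hN (by positivity)
    have h2 : 0 ≤ N ^ ((m : ℝ) / h * (1 / 2)) * X ^ a := by positivity
    linarith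
  have hQ1 : 1 ≤ X ^ ε := Real.one_le_rpow hX1 hε.le
  have hPQ : 1 ≤ P * X ^ ε := one_le_mul_of_one_le_of_one_le hP1 hQ1
  have hrest : 0 ≤ 2 * √Real.pi * (D * W0 + 2 * κ * W2) := by positivity
  -- rewriting the sum
  have hterm : ∀ n : ℕ, (h * Real.log n / m - Real.log N) =
      α * (Real.log n - Real.log N₀) := by
    intro n
    rw [hlog, hα]
    field_simp
  have hsumeq : ∑ n ∈ Finset.Icc 1 M, e (X * Real.log n) *
      (Real.exp (-(h * Real.log n / m - Real.log N) ^ 2 / 4) : ℝ) =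
      ∑ n ∈ Finset.Icc 1 M, e (X * Real.log n) *
        (Real.exp (-(α * (Real.log n - Real.log N₀)) ^ 2 / 4) : ℝ) :=
    Finset.sum_congr rfl fun n _ => by rw [hterm n]
  rw [hsumeq]
  -- trivial bound
  have htriv : ∀ (L : ℕ) (c : ℕ → ℂ) (g : ℕ → ℝ), (∀ n, ‖c n‖ = 1) → (∀ n, 0 ≤ g n) →
      ‖∑ n ∈ Finset.Icc 1 L, c n * (Real.exp (-(g n) / 4) : ℝ)‖ ≤ L := by
    intro L c g hc hg
    calc ‖∑ n ∈ Finset.Icc 1 L, c n * (Real.exp (-(g n) / 4) : ℝ)‖
        ≤ ∑ n ∈ Finset.Icc 1 L, ‖c n * (Real.exp (-(g n) / 4) : ℝ)‖ := norm_sum_le _ _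
      _ ≤ ∑ _n ∈ Finset.Icc 1 L, (1 : ℝ) := by
          refine Finset.sum_le_sum fun n _ => ?_
          rw [norm_mul, hc, one_mul, Complex.norm_real, Real.norm_of_nonneg (Real.exp_pos _).le]
          have := hg n
          exact Real.exp_le_one_iff.2 (by linarith)
      _ = L := by simp
  have hMκ : (M : ℝ) ≤ κ / 2 * t := hMt
  rcases lt_or_ge t T₀ with hlt | hge
  · have h1 := htriv M (fun n => e (X * Real.log n))
      (fun n => (α * (Real.log n - Real.log N₀)) ^ 2) (fun n => WHIGH_norm_e _)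
      (fun n => sq_nonneg _)
    have h2 : (M : ℝ) ≤ κ * |T₀| / 2 := by
      have h3 : t ≤ |T₀| := hlt.le.trans (le_abs_self _)
      calc (M : ℝ) ≤ κ / 2 * t := hMκ
        _ ≤ κ / 2 * |T₀| := mul_le_mul_of_nonneg_left h3 (by positivity)
        _ = _ := by ring
    calc _ ≤ (M : ℝ) := h1
      _ ≤ (κ * |T₀| / 2 + κ / 2 + 2 * √Real.pi * (D * W0 + 2 * κ * W2)) * 1 := by
          rw [mul_one]
          have : 0 ≤ κ / 2 := by positivity
          linarith
      _ ≤ (κ * |T₀| / 2 + κ / 2 + 2 * √Real.pi * (D * W0 + 2 * κ * W2)) * (P * X ^ ε) :=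
          mul_le_mul_of_nonneg_left hPQ (by positivity)
      _ = _ := by ring
  · have hcut := hT₀ t N₀ α hge ht hN₀1 hα1 (fun n => e (X * Real.log n))
      (fun n => WHIGH_norm_e _) M
    set M' : ℕ := min M ⌈N₀ * t ^ (ε / 2)⌉₊ with hM'
    have htd : 1 ≤ t ^ (ε / 2) := Real.one_le_rpow ht hd0.le
    have hNt1 : N₀ ≤ N₀ * t ^ (ε / 2) := le_mul_of_one_le_right (by linarith) htd
    have hM'1 : 1 ≤ M' := by
      refine le_min hM ?_
      exact Nat.one_le_ceil_iff.2 (by linarith)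
    have hM'N : N₀ ≤ (M' : ℝ) := by
      rw [hM', Nat.cast_min]
      exact le_min (hN₀N.trans hNM) (hNt1.trans (Nat.le_ceil _))
    have hM'M : (M' : ℝ) ≤ M := by exact_mod_cast min_le_left _ _
    have hM'2 : (M' : ℝ) ≤ 2 * (N₀ * t ^ (ε / 2)) := by
      have h1 : (M' : ℝ) ≤ ⌈N₀ * t ^ (ε / 2)⌉₊ := by exact_mod_cast min_le_right _ _
      have h2 : (⌈N₀ * t ^ (ε / 2)⌉₊ : ℝ) < N₀ * t ^ (ε / 2) + 1 :=
        Nat.ceil_lt_add_one (by positivity)
      linarith
    have hnar := hNAR α hα1 (Real.log N₀) X M'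
    set S : ℝ → ℂ := fun u => ∑ n ∈ Finset.Icc 1 M', e ((X + β * u) * Real.log n) *
      (Real.exp (-(Real.log n - Real.log N₀) ^ 2 / 4) : ℝ) with hS
    have hMt2 : (M' : ℝ) ≤ κ / 2 * t := hM'M.trans hMκ
    -- pointwise bound
    have hpt : ∀ u, ‖S u‖ ≤ D * (P * X ^ ε) + 2 * κ * u ^ 2 := by
      intro u
      have hk1 : 0 ≤ 2 * κ * u ^ 2 := by positivity
      have hk2 : 0 ≤ D * (P * X ^ ε) := by positivity
      rcases le_or_gt |u| (t / 2) with h6 | h6
      · have hbu : |β * u| ≤ X / 2 := by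
          rw [abs_mul, abs_of_nonneg hβ0]
          calc β * |u| ≤ h * (t / 2) := mul_le_mul hβh h6 (abs_nonneg _) hh0.le
            _ = X / 2 := by rw [hX]; ring
        obtain ⟨hb1, hb2⟩ := abs_le.1 hbu
        have hX2 : 1 ≤ X + β * u ∨ X < 2 := by
          rcases lt_or_ge X 2 with h7 | h7
          · exact Or.inr h7
          · exact Or.inl (by linarith)
        have hh2 : (2 : ℝ) ≤ h := by
          have : 2 ≤ h := by omega
          exact_mod_cast this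
        have hX2' : 2 ≤ X := by
          rw [hX]
          nlinarith
        have hT1 : 1 ≤ X + β * u := by linarith
        have hT2 : X + β * u ≤ 3 / 2 * X := by linarith
        have hMT : (M' : ℝ) ≤ κ * (X + β * u) := by
          calc (M' : ℝ) ≤ κ / 2 * t := hMt2
            _ = κ * (t / 2) := by ring
            _ ≤ κ * (X + β * u) := mul_le_mul_of_nonneg_left (by linarith) hκ.le
        have h10 := hC₁ (X + β * u) hT1 M' hM'1 hMT N₀ hN₀1 hM'N
        have hM'0 : (0 : ℝ) ≤ M' := by positivity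
        have q1 : √(M' : ℝ) ≤ 2 * N₀ ^ (1 / 2 : ℝ) * X ^ (ε / 2) := by
          rw [Real.sqrt_eq_rpow]
          exact WHIGH_pow (by norm_num) (by norm_num) hd0 le_rfl ht htX hN₀1 hM'0 hM'2
        have q2 : (M' : ℝ) ^ θ ≤ 2 * N₀ ^ θ * X ^ (ε / 2) :=
          WHIGH_pow hθ0 hθ1 hd0 le_rfl ht htX hN₀1 hM'0 hM'2
        have q3 : (X + β * u) ^ a ≤ (3 / 2) ^ a * X ^ a := by
          rw [← Real.mul_rpow (by norm_num) hX0.le]
          exact Real.rpow_le_rpow (by linarith) hT2 ha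
        have q4 : (X + β * u) ^ (ε / 2) ≤ (3 / 2) ^ (ε / 2) * X ^ (ε / 2) := by
          rw [← Real.mul_rpow (by norm_num) hX0.le]
          exact Real.rpow_le_rpow (by linarith) hT2 hd0.le
        have q5 : 1 ≤ (3 / 2 : ℝ) ^ a := Real.one_le_rpow (by norm_num) ha
        have q6 : X ^ ε = X ^ (ε / 2) * X ^ (ε / 2) := by
          rw [← Real.rpow_add hX0]
          congr 1
          ring
        have q7 : √(M' : ℝ) * (X + β * u) ^ a + (M' : ℝ) ^ θ ≤
            2 * (3 / 2) ^ a * X ^ (ε / 2) * P := by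
          have r1 : √(M' : ℝ) * (X + β * u) ^ a ≤
              (2 * N₀ ^ (1 / 2 : ℝ) * X ^ (ε / 2)) * ((3 / 2) ^ a * X ^ a) :=
            mul_le_mul q1 q3 (Real.rpow_nonneg (by linarith) _) (by positivity)
          have r2 : 2 * N₀ ^ θ * X ^ (ε / 2) ≤ (3 / 2) ^ a * (2 * N₀ ^ θ * X ^ (ε / 2)) :=
            le_mul_of_one_le_left (by positivity) q5
          rw [hP, hp1, hp2]
          calc _ ≤ (2 * N₀ ^ (1 / 2 : ℝ) * X ^ (ε / 2)) * ((3 / 2) ^ a * X ^ a) +
                (3 / 2) ^ a * (2 * N₀ ^ θ * X ^ (ε / 2)) := add_le_add r1 (q2.trans r2)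
            _ = _ := by ring
        have hpos : 0 ≤ √(M' : ℝ) * (X + β * u) ^ a + (M' : ℝ) ^ θ := by
          have : 0 ≤ (X + β * u) ^ a := Real.rpow_nonneg (by linarith) _
          positivity
        have q8 : ‖S u‖ ≤ |C₁| * (2 * (3 / 2) ^ a * X ^ (ε / 2) * P) *
            ((3 / 2) ^ (ε / 2) * X ^ (ε / 2)) := by
          calc ‖S u‖ ≤ C₁ * (√(M' : ℝ) * (X + β * u) ^ a + (M' : ℝ) ^ θ) *
                (X + β * u) ^ (ε / 2) := h10
            _ ≤ |C₁| * (√(M' : ℝ) * (X + β * u) ^ a + (M' : ℝ) ^ θ) *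
                (X + β * u) ^ (ε / 2) :=
                mul_le_mul_of_nonneg_right (mul_le_mul_of_nonneg_right (le_abs_self _) hpos)
                  (Real.rpow_nonneg (by linarith) _)
            _ ≤ _ := by
                refine mul_le_mul (mul_le_mul_of_nonneg_left q7 (abs_nonneg _)) q4
                  (Real.rpow_nonneg (by linarith) _) (by positivity)
        have q9 : |C₁| * (2 * (3 / 2) ^ a * X ^ (ε / 2) * P) *
            ((3 / 2) ^ (ε / 2) * X ^ (ε / 2)) = D * (P * X ^ ε) := by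
          rw [hD, q6]
          ring
        linarith
      · have h7 : (t / 2) ^ 2 ≤ u ^ 2 := by
          rw [← sq_abs u]
          exact pow_le_pow_left₀ (by positivity) h6.le 2
        have h8 : (M' : ℝ) ≤ 2 * κ * u ^ 2 := by
          calc (M' : ℝ) ≤ κ / 2 * t := hMt2
            _ ≤ κ / 2 * t * t := le_mul_of_one_le_right (by positivity) ht
            _ = 2 * κ * (t / 2) ^ 2 := by ring
            _ ≤ 2 * κ * u ^ 2 := mul_le_mul_of_nonneg_left h7 (by positivity)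
        have h9 := htriv M' (fun n => e ((X + β * u) * Real.log n))
          (fun n => (Real.log n - Real.log N₀) ^ 2) (fun n => WHIGH_norm_e _)
          (fun n => sq_nonneg _)
        have h9' : ‖S u‖ ≤ M' := h9
        linarith
    have hSc : Continuous S := by
      refine continuous_finsetSum _ fun n _ => ?_
      exact (WHIGH_cont_e.comp (by fun_prop)).mul continuous_const
    have i1 : Integrable fun u : ℝ => (D * (P * X ^ ε)) * w u := WHIGH_w_int.const_mul _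
    have i2 : Integrable fun u : ℝ => (2 * κ) * (u ^ 2 * w u) := WHIGH_w2_int.const_mul _
    have hSw : Integrable fun u : ℝ => ‖S u‖ * w u := by
      refine Integrable.bdd_mul (c := M') WHIGH_w_int hSc.norm.aestronglyMeasurable ?_
      refine Filter.Eventually.of_forall fun u => ?_
      rw [norm_norm]
      exact htriv M' (fun n => e ((X + β * u) * Real.log n))
          (fun n => (Real.log n - Real.log N₀) ^ 2) (fun n => WHIGH_norm_e _)
          (fun n => sq_nonneg _)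
    have hint : ∫ u : ℝ, ‖S u‖ * w u ≤ (D * (P * X ^ ε)) * W0 + (2 * κ) * W2 := by
      calc ∫ u : ℝ, ‖S u‖ * w u ≤
            ∫ u : ℝ, ((D * (P * X ^ ε)) * w u + (2 * κ) * (u ^ 2 * w u)) := by
            refine integral_mono hSw (i1.add i2) fun u => ?_
            have := mul_le_mul_of_nonneg_right (hpt u) (WHIGH_w_pos u).le
            calc ‖S u‖ * w u ≤ (D * (P * X ^ ε) + 2 * κ * u ^ 2) * w u := this
              _ = _ := by ring
        _ = _ := by rw [integral_add i1 i2, integral_const_mul, integral_const_mul]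
    have hN₀t : N₀ / t ≤ κ / 2 := by
      rw [div_le_iff₀ ht0]
      linarith
    have hκT : 0 ≤ κ * |T₀| / 2 := by positivity
    have f1 : 2 * √Real.pi * ∫ u : ℝ, ‖S u‖ * w u ≤
        2 * √Real.pi * ((D * (P * X ^ ε)) * W0 + (2 * κ) * W2) :=
      mul_le_mul_of_nonneg_left hint (by positivity)
    have f2 : (2 * κ) * W2 ≤ (2 * κ) * W2 * (P * X ^ ε) :=
      le_mul_of_one_le_right (by positivity) hPQ
    have f3 : 2 * √Real.pi * ((D * (P * X ^ ε)) * W0 + (2 * κ) * W2) ≤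
        2 * √Real.pi * (D * W0 + 2 * κ * W2) * (P * X ^ ε) := by
      calc 2 * √Real.pi * ((D * (P * X ^ ε)) * W0 + (2 * κ) * W2) ≤
            2 * √Real.pi * ((D * (P * X ^ ε)) * W0 + (2 * κ) * W2 * (P * X ^ ε)) :=
            mul_le_mul_of_nonneg_left (add_le_add le_rfl f2) (by positivity)
        _ = _ := by ring
    have f4 : κ / 2 ≤ (κ * |T₀| / 2 + κ / 2) * (P * X ^ ε) := by
      calc κ / 2 ≤ κ * |T₀| / 2 + κ / 2 := by linarith
        _ ≤ _ := le_mul_of_one_le_right (by positivity) hPQ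
    calc _ ≤ _ := hcut
      _ ≤ 2 * √Real.pi * (∫ u : ℝ, ‖S u‖ * w u) + κ / 2 := add_le_add hnar hN₀t
      _ ≤ 2 * √Real.pi * (D * W0 + 2 * κ * W2) * (P * X ^ ε) +
          (κ * |T₀| / 2 + κ / 2) * (P * X ^ ε) := add_le_add (f1.trans f3) f4
      _ = _ := by ring

end Pool.Agent.Ben
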