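import Pool.Agent.Ben.Targets4
import Pool.Agent.Ben.P_FWD

/-!
# Ben, version 3, target `W_SMO`: smooth statistics
-/

set_option autoImplicit false

namespace Pool.Agent.Ben

open Complex MeasureTheory Set

private lemma WSMO_dev {f : ℝ → ℝ} {M : ℝ} (hf : ContDiff ℝ 1 f) (hper : Function.Periodic f 1)
    (hM : ∀ y, |deriv f y| ≤ M) (y : ℝ) : |f y - ∫ u in (0 : ℝ)..1, f u| ≤ M := by
  have hM0 : 0 ≤ M := (abs_nonneg _).trans (hM 0)
  have hint : IntervalIntegrable f volume 0 1 := hf.continuous.intervalIntegrable _ _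
  have h1 : f y = f (Int.fract y) := by
    have := hper.sub_int_mul_eq ⌊y⌋ (x := y)
    rw [mul_one] at this
    rw [Int.fract]
    exact this.symm
  have h2 : f y - ∫ u in (0 : ℝ)..1, f u = ∫ u in (0 : ℝ)..1, (f y - f u) := by
    rw [intervalIntegral.integral_sub (by simp) hint]
    simp
  have hfr : Int.fract y ∈ Icc (0 : ℝ) 1 :=
    ⟨Int.fract_nonneg y, (Int.fract_lt_one y).le⟩
  rw [h2, ← Real.norm_eq_abs]
  have h3 : ∀ u ∈ Set.uIoc (0 : ℝ) 1, ‖f y - f u‖ ≤ M := by
    intro u hu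
    rw [uIoc_of_le zero_le_one] at hu
    rw [h1]
    have h4 := Convex.norm_image_sub_le_of_norm_deriv_le (f := f) (C := M) (s := Set.univ)
      (x := u) (y := Int.fract y)
      (fun z _ => (hf.differentiable (by norm_num)).differentiableAt)
      (fun z _ => by rw [Real.norm_eq_abs]; exact hM z) convex_univ (mem_univ _) (mem_univ _)
    refine h4.trans ?_
    have h5 : ‖Int.fract y - u‖ ≤ 1 := by
      rw [Real.norm_eq_abs, abs_le]
      constructor <;> linarith [hfr.1, hfr.2, hu.1, hu.2]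
    calc M * ‖Int.fract y - u‖ ≤ M * 1 := mul_le_mul_of_nonneg_left h5 hM0
      _ = M := mul_one M
  have h4 := intervalIntegral.norm_integral_le_of_norm_le_const h3
  simpa using h4

private lemma WSMO_norm_neg (N : ℕ) (z : ℕ → ℝ) :
    ‖∑ n ∈ Finset.Icc 1 N, e (-(z n))‖ = ‖∑ n ∈ Finset.Icc 1 N, e (z n)‖ := by
  rw [← Complex.norm_conj, map_sum]
  congr 1
  refine Finset.sum_congr rfl fun n _ => ?_
  unfold e
  rw [← Complex.exp_conj, map_mul, Complex.conj_I, Complex.conj_ofReal]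
  congr 1
  push_cast
  ring

private lemma WSMO_norm_abs (N : ℕ) (h : ℤ) (t : ℝ) :
    ‖∑ n ∈ Finset.Icc 1 N, e (h * (t * Real.log n))‖ =
      ‖∑ n ∈ Finset.Icc 1 N, e (|(h : ℝ)| * (t * Real.log n))‖ := by
  rcases abs_cases (h : ℝ) with ⟨h1, _⟩ | ⟨h1, _⟩
  · rw [h1]
  · rw [h1, ← WSMO_norm_neg]
    simp only [neg_mul]

theorem p_WSMO : W_COEF → W_SMO := by
  intro hCo a ha ha2 hE g hg ε hε
  set η : ℝ := min ε ((1 / 2 - a) / 2) with hη
  have hη0 : 0 < η := lt_min hε (by linarith)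
  have hηε : η ≤ ε := min_le_left _ _
  have hη2 : η ≤ (1 / 2 - a) / 2 := min_le_right _ _
  set b : ℝ := a + η with hb
  have hb0 : 0 ≤ b := by linarith
  have hb2 : b < 1 / 2 := by linarith
  have hlg : 0 < Real.log g := Real.log_pos hg
  obtain ⟨C₀, hC₀⟩ := hCo b hb0 hb2
  obtain ⟨C₁, hC₁⟩ := hE η hη0 (Real.log g) hlg
  have hpi := Real.pi_pos
  set D : ℝ := (2 * Real.pi / Real.log g) ^ b with hD
  have hD0 : 0 ≤ D := by positivity
  refine ⟨|C₁| * |C₀| * D + √(Real.log g), ?_⟩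
  intro f M hf hper hM x N hN hNx
  have hM0 : 0 ≤ M := (abs_nonneg _).trans (hM 0)
  have hN1 : (1 : ℝ) ≤ (N : ℝ) := by exact_mod_cast hN
  have hx1 : 1 ≤ x := le_trans hN1 hNx
  have hx0 : 0 < x := by linarith
  have hxe : 1 ≤ x ^ (a + ε) := Real.one_le_rpow hx1 (by linarith)
  have hsN : 0 ≤ √(N : ℝ) := Real.sqrt_nonneg _
  set t : ℝ := x / Real.log g with ht
  have ht0 : 0 < t := by positivity
  have hlog : ∀ n ∈ Finset.Icc 1 N, f (Real.logb g ((n : ℝ) ^ x)) = f (t * Real.log n) := by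
    intro n hn
    have hn1 : 0 < (n : ℝ) := by
      have := (Finset.mem_Icc.1 hn).1
      exact_mod_cast this
    congr 1
    rw [Real.logb, Real.log_rpow hn1, ht]
    ring
  rw [Finset.sum_congr rfl hlog]
  set A : ℝ := ∫ u in (0 : ℝ)..1, f u with hA
  have hdiff : ∑ n ∈ Finset.Icc 1 N, f (t * Real.log n) - N * A =
      ∑ n ∈ Finset.Icc 1 N, (f (t * Real.log n) - A) := by
    rw [Finset.sum_sub_distrib, Finset.sum_const, Nat.card_Icc, Nat.add_sub_cancel,
      nsmul_eq_mul]
  rw [hdiff]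
  by_cases ht1 : 1 ≤ t
  · obtain ⟨c, hc, hc0, hs, hle⟩ := hC₀ f M hf hper hM
    set d : ℤ → ℂ := fun h => if h = 0 then 0 else c h with hd
    have hone : ∀ y : ℝ, HasSum (fun h : ℤ => d h * e (h * y)) ((f y - A : ℝ) : ℂ) := by
      intro y
      have h1 := (hc y).update 0 0
      have h2 : (fun h : ℤ => d h * e (h * y)) =
          Function.update (fun h : ℤ => c h * e (h * y)) 0 0 := by
        funext h
        by_cases h0 : h = 0
        · subst h0
          simp [hd]
        · rw [Function.update_of_ne h0]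
          simp [hd, h0]
      have h3 : e (((0 : ℤ) : ℝ) * y) = 1 := by
        unfold e
        simp
      have h4 : ((f y - A : ℝ) : ℂ) = 0 - c 0 * e (((0 : ℤ) : ℝ) * y) + (f y : ℂ) := by
        rw [h3, hc0]
        push_cast
        ring
      rw [h2, h4]
      exact h1
    have hsumN : HasSum (fun h : ℤ => ∑ n ∈ Finset.Icc 1 N, d h * e (h * (t * Real.log n)))
        (∑ n ∈ Finset.Icc 1 N, ((f (t * Real.log n) - A : ℝ) : ℂ)) :=
      hasSum_sum fun n _ => hone _
    set Q : ℝ := |C₁| * √(N : ℝ) * (2 * Real.pi * t) ^ b with hQ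
    have hQ0 : 0 ≤ Q := by positivity
    have hbd : ∀ h : ℤ, ‖∑ n ∈ Finset.Icc 1 N, d h * e (h * (t * Real.log n))‖ ≤
        Q * (if h = 0 then 0 else ‖c h‖ * |(h : ℝ)| ^ b) := by
      intro h
      by_cases h0 : h = 0
      · simp [hd, h0]
      · rw [if_neg h0, ← Finset.mul_sum, norm_mul]
        have hh1 : (1 : ℝ) ≤ |(h : ℝ)| := by
          have := Int.one_le_abs h0
          exact_mod_cast this
        have hd' : d h = c h := by simp [hd, h0]
        rw [hd', WSMO_norm_abs, FWD_norm]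
        have hT : t ≤ 2 * Real.pi * |(h : ℝ)| * t := by
          have h3 : (3 : ℝ) < Real.pi := Real.pi_gt_three
          have h4 : 1 ≤ 2 * Real.pi * |(h : ℝ)| := by nlinarith
          nlinarith
        have hT1 : 1 ≤ 2 * Real.pi * |(h : ℝ)| * t := ht1.trans hT
        have hNT : (N : ℝ) ≤ Real.log g * (2 * Real.pi * |(h : ℝ)| * t) := by
          have h5 : Real.log g * t = x := by
            rw [ht]
            field_simp
          calc (N : ℝ) ≤ x := hNx
            _ = Real.log g * t := h5.symm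
            _ ≤ _ := mul_le_mul_of_nonneg_left hT hlg.le
        have h6 := hC₁ _ hT1 N hN hNT
        have h7 : C₁ * √(N : ℝ) * (2 * Real.pi * |(h : ℝ)| * t) ^ (a + η) ≤
            Q * |(h : ℝ)| ^ b := by
          rw [hQ, ← hb]
          have h8 : (2 * Real.pi * |(h : ℝ)| * t) ^ b =
              (2 * Real.pi * t) ^ b * |(h : ℝ)| ^ b := by
            rw [← Real.mul_rpow (by positivity) (abs_nonneg _)]
            congr 1
            ring
          rw [h8]
          have h9 : C₁ ≤ |C₁| := le_abs_self _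
          have h10 : 0 ≤ √(N : ℝ) * ((2 * Real.pi * t) ^ b * |(h : ℝ)| ^ b) := by positivity
          nlinarith [mul_le_mul_of_nonneg_right h9 h10]
        calc ‖c h‖ * _ ≤ ‖c h‖ * (Q * |(h : ℝ)| ^ b) :=
              mul_le_mul_of_nonneg_left (h6.trans h7) (norm_nonneg _)
          _ = _ := by ring
    have hfin := hsumN.norm_le_of_bounded (hs.hasSum.mul_left Q) hbd
    have hcast : ‖∑ n ∈ Finset.Icc 1 N, ((f (t * Real.log n) - A : ℝ) : ℂ)‖ =
        |∑ n ∈ Finset.Icc 1 N, (f (t * Real.log n) - A)| := by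
      rw [← Complex.ofReal_sum, Complex.norm_real, Real.norm_eq_abs]
    rw [hcast] at hfin
    have hpow : (2 * Real.pi * t) ^ b = D * x ^ b := by
      rw [hD, ← Real.mul_rpow (by positivity) hx0.le]
      congr 1
      rw [ht]
      ring
    have hxb : x ^ b ≤ x ^ (a + ε) := Real.rpow_le_rpow_of_exponent_le hx1 (by linarith)
    have hC₀M : C₀ * M ≤ |C₀| * M := mul_le_mul_of_nonneg_right (le_abs_self _) hM0
    have hxb0 : 0 ≤ x ^ b := by positivity
    calc |∑ n ∈ Finset.Icc 1 N, (f (t * Real.log n) - A)| ≤ _ := hfin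
      _ ≤ Q * (C₀ * M) := mul_le_mul_of_nonneg_left hle hQ0
      _ ≤ Q * (|C₀| * M) := mul_le_mul_of_nonneg_left hC₀M hQ0
      _ = |C₁| * |C₀| * D * M * √(N : ℝ) * x ^ b := by
          rw [hQ, hpow]
          ring
      _ ≤ |C₁| * |C₀| * D * M * √(N : ℝ) * x ^ (a + ε) :=
          mul_le_mul_of_nonneg_left hxb (by positivity)
      _ ≤ _ := by
          have h1 : 0 ≤ √(Real.log g) * M * √(N : ℝ) * x ^ (a + ε) := by positivity
          linarith
  · push Not at ht1
    have hxg : x < Real.log g := by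
      rw [ht, div_lt_one hlg] at ht1
      exact ht1
    have h1 : |∑ n ∈ Finset.Icc 1 N, (f (t * Real.log n) - A)| ≤ N * M := by
      refine (Finset.abs_sum_le_sum_abs _ _).trans ?_
      have h0 : ∑ n ∈ Finset.Icc 1 N, |f (t * Real.log n) - A| ≤
          ∑ n ∈ Finset.Icc 1 N, M :=
        Finset.sum_le_sum fun n _ => WSMO_dev hf hper hM (t * Real.log n)
      refine h0.trans (le_of_eq ?_)
      rw [Finset.sum_const, Nat.card_Icc, Nat.add_sub_cancel, nsmul_eq_mul]
    have h2 : (N : ℝ) ≤ √(N : ℝ) * √(Real.log g) := by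
      have h3 : √(N : ℝ) ≤ √(Real.log g) := Real.sqrt_le_sqrt (hNx.trans hxg.le)
      have h4 : (N : ℝ) = √(N : ℝ) * √(N : ℝ) := (Real.mul_self_sqrt (by positivity)).symm
      calc (N : ℝ) = √(N : ℝ) * √(N : ℝ) := h4
        _ ≤ _ := mul_le_mul_of_nonneg_left h3 hsN
    calc |∑ n ∈ Finset.Icc 1 N, (f (t * Real.log n) - A)| ≤ N * M := h1
      _ ≤ √(N : ℝ) * √(Real.log g) * M := mul_le_mul_of_nonneg_right h2 hM0
      _ ≤ √(N : ℝ) * √(Real.log g) * M * x ^ (a + ε) :=
          le_mul_of_one_le_right (by positivity) hxe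
      _ ≤ _ := by
          have h5 : 0 ≤ |C₁| * |C₀| * D * M * √(N : ℝ) * x ^ (a + ε) := by positivity
          linarith

end Pool.Agent.Ben
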