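import Pool.Agent.Ben.Targets4

/-!
# Ben version 3, WSTEP: one step of the iteration with a growth exponent
-/

set_option autoImplicit false

namespace Pool.Agent.Ben

open Complex MeasureTheory

private lemma WSTEP_trivial (T N : ℝ) (M : ℕ) :
    ‖∑ n ∈ Finset.Icc 1 M, e (T * Real.log n) *
      (Real.exp (-(Real.log n - Real.log N) ^ 2 / 4) : ℝ)‖ ≤ M := by
  refine (norm_sum_le _ _).trans ?_
  calc ∑ n ∈ Finset.Icc 1 M, ‖e (T * Real.log n) *
        (Real.exp (-(Real.log n - Real.log N) ^ 2 / 4) : ℝ)‖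
      ≤ ∑ _n ∈ Finset.Icc 1 M, (1 : ℝ) := by
        refine Finset.sum_le_sum (fun n _ => ?_)
        rw [norm_mul, e, Complex.norm_exp_ofReal_mul_I, one_mul, Complex.norm_real,
          Real.norm_eq_abs, abs_of_pos (Real.exp_pos _), Real.exp_le_one_iff]
        have := sq_nonneg (Real.log n - Real.log N)
        linarith
    _ = M := by simp

private lemma WSTEP_card (m : ℕ) (x : ℝ) (hx : 0 ≤ x) :
    ((Finset.Ioo m ⌈x⌉₊).card : ℝ) ≤ x := by
  rw [Nat.card_Ioo]
  rcases Nat.lt_or_ge (m + 1) ⌈x⌉₊ with h | h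
  · have h1 : ((⌈x⌉₊ - m - 1 : ℕ) : ℝ) = (⌈x⌉₊ : ℝ) - m - 1 := by
      rw [Nat.cast_sub (by omega), Nat.cast_sub (by omega), Nat.cast_one]
    rw [h1]
    have h2 := Nat.ceil_lt_add_one hx
    have h3 : (0 : ℝ) ≤ m := Nat.cast_nonneg m
    linarith
  · have h1 : ⌈x⌉₊ - m - 1 = 0 := by omega
    rw [h1]
    simpa using hx

theorem p_WSTEP : V_MAIN → W_L1 → W_HIGH → W_STEP := by
  intro hMain hL1 hHigh m hm G B κ₀ a hG hκ₀ ha hcm hcj hUp θ κ hθ0 hθ1 hκ hGA
  obtain ⟨C0, hC0, hmain⟩ := hMain m hm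
  have hm0 : (0 : ℝ) < m := by exact_mod_cast hm
  have hm1 : (1 : ℝ) ≤ m := by exact_mod_cast hm
  have hB : 0 ≤ B := (abs_nonneg _).trans (hG.bdd 0)
  have hlog2 : 0 < Real.log 2 := Real.log_pos (by norm_num)
  set κ' : ℝ := min κ₀ κ / (2 * m) with hκ'
  have hmin : 0 < min κ₀ κ := lt_min hκ₀ hκ
  have hκ'0 : 0 < κ' := by positivity
  refine ⟨κ', hκ'0, ?_⟩
  intro ε hε
  set d : ℝ := ε / (4 * (1 + a + ε / 4)) with hd
  have hd0 : 0 < d := by positivity
  have hdε : d * (1 + a + ε / 4) = ε / 4 := by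
    rw [hd]
    field_simp
  obtain ⟨C1, h1⟩ := hL1 m hm G B κ₀ a hG hκ₀ ha hUp ε hε
  obtain ⟨C2, h2⟩ := hHigh a θ κ ha hθ0 hθ1 hκ hGA m hm (ε / 4) (by linarith)
  set θ' : ℝ := (m : ℝ) / (m + 1) * θ with hθ'
  have hθ'0 : 0 ≤ θ' := by positivity
  have hA : 0 < ‖coef G m‖ := norm_pos_iff.2 hcm
  set K2 : ℝ := 2 * m / Real.log 2 * (κ' ^ d / d) with hK2
  have hK2p : 0 < K2 := by positivity
  set D : ℝ := C0 * |C1| + C0 * B +
    B * (K2 * (|C2| * ((K2 ^ a + 1) * K2 ^ (ε / 4)))) with hD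
  have hDp : 0 ≤ D := by positivity
  refine ⟨κ' * m + D / ‖coef G m‖, ?_⟩
  intro T hT M hM hMT N hN hNM
  have hT0 : 0 < T := by linarith
  have hM1 : (1 : ℝ) ≤ M := by exact_mod_cast hM
  have hMθ : 1 ≤ (M : ℝ) ^ θ' := Real.one_le_rpow hM1 hθ'0
  have hTε : 1 ≤ T ^ ε := Real.one_le_rpow hT hε.le
  set Y : ℝ := √(M : ℝ) * T ^ a + (M : ℝ) ^ θ' with hY
  have hY1 : 1 ≤ Y := by
    have : 0 ≤ √(M : ℝ) * T ^ a := by positivity
    rw [hY]
    linarith
  have hY0 : 0 ≤ Y := by linarith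
  have hYa : √(M : ℝ) * T ^ a ≤ Y := by
    have : 0 ≤ (M : ℝ) ^ θ' := by positivity
    rw [hY]
    linarith
  have hDA : 0 ≤ D / ‖coef G m‖ := by positivity
  rcases lt_or_ge T m with hTm | hTm
  · have e1 : (M : ℝ) ≤ κ' * m := hMT.trans (mul_le_mul_of_nonneg_left hTm.le hκ'0.le)
    calc _ ≤ (M : ℝ) := WSTEP_trivial T N M
      _ ≤ κ' * m := e1
      _ ≤ κ' * m + D / ‖coef G m‖ := by linarith
      _ = (κ' * m + D / ‖coef G m‖) * 1 * 1 := by ring
      _ ≤ (κ' * m + D / ‖coef G m‖) * Y * T ^ ε := by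
        have e2 : 0 ≤ κ' * m + D / ‖coef G m‖ := by positivity
        have e3 := mul_le_mul_of_nonneg_left hY1 e2
        exact mul_le_mul e3 hTε zero_le_one (by positivity)
  · set t : ℝ := T / m with ht
    have ht1 : 1 ≤ t := by
      rw [ht, le_div_iff₀ hm0]
      linarith
    have ht0 : 0 < t := by linarith
    have htT : t ≤ T := by
      rw [ht, div_le_iff₀ hm0]
      nlinarith
    have hmt : (m : ℝ) * t = T := by
      rw [ht]
      field_simp
    have e0 : κ' * T = min κ₀ κ / 2 * t := by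
      rw [hκ', ht]
      field_simp
    have e1 : (M : ℝ) ≤ κ₀ / 2 * t := by
      have := min_le_left κ₀ κ
      nlinarith
    have e2 : (M : ℝ) ≤ κ / 2 * t := by
      have := min_le_right κ₀ κ
      nlinarith
    have hy0 : 0 ≤ Real.log N := Real.log_nonneg hN
    have hN0 : 0 < N := by linarith
    have hNT : N ≤ κ' * T := hNM.trans hMT
    have main := hmain G B hG hcj t (Real.log N) M hy0
    have f1 := h1 t ht1 M hM e1
    -- the integral term
    have g1 : ∫ u : ℝ, |∑ n ∈ Finset.Icc 1 M, G ((t + u / m) * Real.log n)| * w u ≤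
        |C1| * (Y * T ^ ε) := by
      refine f1.trans ?_
      have a2 : t ^ (a + ε) ≤ T ^ (a + ε) := Real.rpow_le_rpow ht0.le htT (by positivity)
      have a3 : √(M : ℝ) * t ^ (a + ε) ≤ Y * T ^ ε := by
        calc √(M : ℝ) * t ^ (a + ε) ≤ √(M : ℝ) * T ^ (a + ε) :=
              mul_le_mul_of_nonneg_left a2 (by positivity)
          _ = √(M : ℝ) * T ^ a * T ^ ε := by
              rw [Real.rpow_add hT0]
              ring
          _ ≤ Y * T ^ ε := mul_le_mul_of_nonneg_right hYa (by positivity)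
      calc C1 * √(M : ℝ) * t ^ (a + ε) = C1 * (√(M : ℝ) * t ^ (a + ε)) := by ring
        _ ≤ |C1| * (√(M : ℝ) * t ^ (a + ε)) :=
          mul_le_mul_of_nonneg_right (le_abs_self _) (by positivity)
        _ ≤ _ := mul_le_mul_of_nonneg_left a3 (abs_nonneg _)
    -- the size of the frequencies
    have hlogN : 2 * m * Real.log N / Real.log 2 ≤ K2 * T ^ d := by
      have a2 : Real.log N ≤ N ^ d / d := Real.log_le_rpow_div hN0.le hd0
      have a3 : N ^ d ≤ κ' ^ d * T ^ d := by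
        rw [← Real.mul_rpow hκ'0.le hT0.le]
        exact Real.rpow_le_rpow hN0.le hNT hd0.le
      have a4 : Real.log N ≤ κ' ^ d / d * T ^ d := by
        refine a2.trans ?_
        rw [div_mul_eq_mul_div]
        exact div_le_div_of_nonneg_right a3 hd0.le
      calc 2 * m * Real.log N / Real.log 2 = 2 * m / Real.log 2 * Real.log N := by ring
        _ ≤ 2 * m / Real.log 2 * (κ' ^ d / d * T ^ d) :=
          mul_le_mul_of_nonneg_left a4 (by positivity)
        _ = K2 * T ^ d := by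
          rw [hK2]
          ring
    -- one high frequency
    have g2 : ∀ h ∈ Finset.Ioo m ⌈2 * m * Real.log N / Real.log 2⌉₊,
        ‖∑ n ∈ Finset.Icc 1 M, e (h * t * Real.log n) *
          (Real.exp (-(h * Real.log n / m - Real.log N) ^ 2 / 4) : ℝ)‖ ≤
        |C2| * ((K2 ^ a + 1) * (Y * T ^ (d * a)) * (K2 ^ (ε / 4) * T ^ ((1 + d) * (ε / 4)))) := by
      intro h hh
      rw [Finset.mem_Ioo] at hh
      have a1 := h2 t ht1 M hM e2 N hN hNM h hh.1
      have a2 : (h : ℝ) < 2 * m * Real.log N / Real.log 2 := Nat.lt_ceil.1 hh.2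
      have hmh : (m : ℝ) + 1 ≤ h := by exact_mod_cast hh.1
      have hh0 : (0 : ℝ) < h := by linarith
      have a3 : (h : ℝ) * t ≤ K2 * T ^ (1 + d) := by
        calc (h : ℝ) * t ≤ (K2 * T ^ d) * T :=
              mul_le_mul (a2.le.trans hlogN) htT ht0.le (by positivity)
          _ = K2 * T ^ (1 + d) := by
              rw [Real.rpow_add hT0, Real.rpow_one]
              ring
      have hht : 0 ≤ (h : ℝ) * t := by positivity
      have a4 : ∀ p : ℝ, 0 ≤ p → ((h : ℝ) * t) ^ p ≤ K2 ^ p * T ^ ((1 + d) * p) := by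
        intro p hp
        have b1 : ((h : ℝ) * t) ^ p ≤ (K2 * T ^ (1 + d)) ^ p :=
          Real.rpow_le_rpow hht a3 hp
        refine b1.trans (le_of_eq ?_)
        rw [Real.mul_rpow hK2p.le (by positivity), ← Real.rpow_mul hT0.le]
      have a5 : N ^ ((m : ℝ) / h * θ) ≤ (M : ℝ) ^ θ' := by
        have b0 : 0 ≤ (m : ℝ) / h * θ := by positivity
        have b1 : (m : ℝ) / h * θ ≤ θ' := by
          refine mul_le_mul_of_nonneg_right ?_ hθ0
          exact div_le_div_of_nonneg_left hm0.le (by linarith) hmh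
        exact (Real.rpow_le_rpow hN0.le hNM b0).trans
          (Real.rpow_le_rpow_of_exponent_le hM1 b1)
      have a6 : N ^ ((m : ℝ) / h * (1 / 2)) ≤ √(M : ℝ) := by
        have b0 : 0 ≤ (m : ℝ) / h * (1 / 2) := by positivity
        have b1 : (m : ℝ) / h * (1 / 2) ≤ 1 / 2 := by
          have : (m : ℝ) / h ≤ 1 := by
            rw [div_le_one hh0]
            linarith
          linarith
        rw [Real.sqrt_eq_rpow]
        exact (Real.rpow_le_rpow hN0.le hNM b0).trans
          (Real.rpow_le_rpow_of_exponent_le hM1 b1)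
      have hTd : 1 ≤ T ^ (d * a) := Real.one_le_rpow hT (by positivity)
      have a7 : N ^ ((m : ℝ) / h * (1 / 2)) * (h * t) ^ a + N ^ ((m : ℝ) / h * θ) ≤
          (K2 ^ a + 1) * (Y * T ^ (d * a)) := by
        have b1 : N ^ ((m : ℝ) / h * (1 / 2)) * (h * t) ^ a ≤
            K2 ^ a * (Y * T ^ (d * a)) := by
          calc N ^ ((m : ℝ) / h * (1 / 2)) * (h * t) ^ a
              ≤ √(M : ℝ) * (K2 ^ a * T ^ ((1 + d) * a)) :=
                mul_le_mul a6 (a4 a ha) (by positivity) (by positivity)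
            _ = K2 ^ a * (√(M : ℝ) * T ^ a * T ^ (d * a)) := by
                rw [add_mul, one_mul, Real.rpow_add hT0]
                ring
            _ ≤ K2 ^ a * (Y * T ^ (d * a)) :=
                mul_le_mul_of_nonneg_left (mul_le_mul_of_nonneg_right hYa (by positivity))
                  (by positivity)
        have b2 : N ^ ((m : ℝ) / h * θ) ≤ Y * T ^ (d * a) := by
          have b3 : (M : ℝ) ^ θ' ≤ Y := by
            have : 0 ≤ √(M : ℝ) * T ^ a := by positivity
            rw [hY]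
            linarith
          calc N ^ ((m : ℝ) / h * θ) ≤ Y := a5.trans b3
            _ = Y * 1 := (mul_one _).symm
            _ ≤ Y * T ^ (d * a) := mul_le_mul_of_nonneg_left hTd hY0
        calc _ ≤ K2 ^ a * (Y * T ^ (d * a)) + Y * T ^ (d * a) := add_le_add b1 b2
          _ = _ := by ring
      calc _ ≤ C2 * (N ^ ((m : ℝ) / h * (1 / 2)) * (h * t) ^ a + N ^ ((m : ℝ) / h * θ)) *
            (h * t) ^ (ε / 4) := a1
        _ = C2 * ((N ^ ((m : ℝ) / h * (1 / 2)) * (h * t) ^ a + N ^ ((m : ℝ) / h * θ)) *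
            (h * t) ^ (ε / 4)) := by ring
        _ ≤ |C2| * ((N ^ ((m : ℝ) / h * (1 / 2)) * (h * t) ^ a + N ^ ((m : ℝ) / h * θ)) *
            (h * t) ^ (ε / 4)) :=
          mul_le_mul_of_nonneg_right (le_abs_self _) (by positivity)
        _ ≤ _ := by
          refine mul_le_mul_of_nonneg_left ?_ (abs_nonneg _)
          exact mul_le_mul a7 (a4 (ε / 4) (by linarith)) (by positivity) (by positivity)
    -- the number of frequencies
    have g3 : ((Finset.Ioo m ⌈2 * m * Real.log N / Real.log 2⌉₊).card : ℝ) ≤ K2 * T ^ d :=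
      (WSTEP_card m (2 * m * Real.log N / Real.log 2) (by positivity)).trans hlogN
    have hTT : T ^ d * (T ^ (d * a) * T ^ ((1 + d) * (ε / 4))) ≤ T ^ ε := by
      rw [← Real.rpow_add hT0, ← Real.rpow_add hT0]
      refine Real.rpow_le_rpow_of_exponent_le hT ?_
      have : d + (d * a + (1 + d) * (ε / 4)) = d * (1 + a + ε / 4) + ε / 4 := by ring
      rw [this, hdε]
      linarith
    have g4 : ∑ h ∈ Finset.Ioo m ⌈2 * m * Real.log N / Real.log 2⌉₊,
        ‖∑ n ∈ Finset.Icc 1 M, e (h * t * Real.log n) *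
          (Real.exp (-(h * Real.log n / m - Real.log N) ^ 2 / 4) : ℝ)‖ ≤
        K2 * (|C2| * ((K2 ^ a + 1) * K2 ^ (ε / 4))) * (Y * T ^ ε) := by
      refine (Finset.sum_le_sum g2).trans ?_
      rw [Finset.sum_const, nsmul_eq_mul]
      have a0 : 0 ≤ |C2| * ((K2 ^ a + 1) * (Y * T ^ (d * a)) *
        (K2 ^ (ε / 4) * T ^ ((1 + d) * (ε / 4)))) := by positivity
      refine (mul_le_mul_of_nonneg_right g3 a0).trans ?_
      calc K2 * T ^ d * (|C2| * ((K2 ^ a + 1) * (Y * T ^ (d * a)) *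
            (K2 ^ (ε / 4) * T ^ ((1 + d) * (ε / 4))))) =
          K2 * (|C2| * ((K2 ^ a + 1) * K2 ^ (ε / 4))) *
            (Y * (T ^ d * (T ^ (d * a) * T ^ ((1 + d) * (ε / 4))))) := by ring
        _ ≤ K2 * (|C2| * ((K2 ^ a + 1) * K2 ^ (ε / 4))) * (Y * T ^ ε) :=
          mul_le_mul_of_nonneg_left (mul_le_mul_of_nonneg_left hTT hY0) (by positivity)
    have hX : 1 ≤ Y * T ^ ε := one_le_mul_of_one_le_of_one_le hY1 hTε
    have hL : ‖∑ n ∈ Finset.Icc 1 M, e (T * Real.log n) *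
        (Real.exp (-(Real.log n - Real.log N) ^ 2 / 4) : ℝ)‖ * ‖coef G m‖ ≤
        D * (Y * T ^ ε) := by
      rw [mul_comm]
      rw [hmt] at main
      refine main.trans ?_
      have b1 := mul_le_mul_of_nonneg_left g1 hC0
      have b2 : C0 * B ≤ C0 * B * (Y * T ^ ε) :=
        le_mul_of_one_le_right (by positivity) hX
      have b3 := mul_le_mul_of_nonneg_left g4 hB
      calc _ ≤ C0 * (|C1| * (Y * T ^ ε)) + C0 * B * (Y * T ^ ε) +
          B * (K2 * (|C2| * ((K2 ^ a + 1) * K2 ^ (ε / 4))) * (Y * T ^ ε)) :=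
            add_le_add (add_le_add b1 b2) b3
        _ = D * (Y * T ^ ε) := by
          rw [hD]
          ring
    have hL2 : ‖∑ n ∈ Finset.Icc 1 M, e (T * Real.log n) *
        (Real.exp (-(Real.log n - Real.log N) ^ 2 / 4) : ℝ)‖ ≤
        D / ‖coef G m‖ * (Y * T ^ ε) := by
      rw [div_mul_eq_mul_div, le_div_iff₀ hA]
      exact hL
    calc _ ≤ D / ‖coef G m‖ * (Y * T ^ ε) := hL2
      _ ≤ (κ' * m + D / ‖coef G m‖) * (Y * T ^ ε) := by
        refine mul_le_mul_of_nonneg_right ?_ (by positivity)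
        have : 0 < κ' * m := by positivity
        linarith
      _ = _ := by ring

end Pool.Agent.Ben
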