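import Pool.Agent.Ben.Targets5

/-! # LH and Benford's law: from strings of first digits back to mantissa intervals (XSTB) -/

set_option autoImplicit false

namespace Pool.Agent.Ben

open Complex MeasureTheory Set

namespace XSTB_

/-! ### combinatorics -/

theorem sum_Ico_mul (b : ℕ) (f : ℕ → ℝ) (A : ℕ) : ∀ B : ℕ, A ≤ B →
    ∑ e ∈ Finset.Ico (b * A) (b * B), f e =
      ∑ d ∈ Finset.Ico A B, ∑ c ∈ Finset.range b, f (b * d + c) := by
  intro B hB
  induction B, hB using Nat.le_induction with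
  | base => simp
  | succ B hB ih =>
    rw [Finset.sum_Ico_succ_top hB, ← ih, ← Finset.sum_Ico_consecutive f
      (Nat.mul_le_mul_left b hB) (Nat.mul_le_mul_left b (Nat.le_succ B))]
    congr 1
    rw [Finset.sum_Ico_eq_sum_range]
    have : b * (B + 1) - b * B = b := by rw [Nat.mul_succ]; omega
    rw [this]

theorem sum_le_card (μ : ℕ → ℝ) (E : ℝ) (hE : 0 ≤ E) (hμ : ∀ d, 1 ≤ d → μ d ≤ E) (A B b : ℕ)
    (hA : 1 ≤ A) (hB : B ≤ A + b) : ∑ d ∈ Finset.Ico A B, μ d ≤ b * E := by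
  calc ∑ d ∈ Finset.Ico A B, μ d ≤ ∑ _d ∈ Finset.Ico A B, E :=
        Finset.sum_le_sum fun d hd => hμ d (hA.trans (Finset.mem_Ico.1 hd).1)
    _ = ((B - A : ℕ) : ℝ) * E := by rw [Finset.sum_const, Nat.card_Ico, nsmul_eq_mul]
    _ ≤ b * E := by
        apply mul_le_mul_of_nonneg_right _ hE
        have : B - A ≤ b := by omega
        exact_mod_cast this

theorem comb (b : ℕ) (hb : 2 ≤ b) (μ : ℕ → ℝ) (E : ℝ) (hE : 0 ≤ E) (L : ℕ)
    (hadd : ∀ d, 1 ≤ d → d < b ^ L → μ d = ∑ c ∈ Finset.range b, μ (b * d + c))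
    (hμ : ∀ d, 1 ≤ d → μ d ≤ E) : ∀ i ≤ L, ∀ S, b ^ i ≤ S → S ≤ b ^ (i + 1) →
    ∑ d ∈ Finset.Ico (b ^ i) S, μ d ≤ (i + 1) * b * E ∧
    ∑ d ∈ Finset.Ico S (b ^ (i + 1)), μ d ≤ (i + 1) * b * E := by
  intro i
  induction i with
  | zero =>
    intro _ S h1 h2
    simp only [pow_zero, zero_add, pow_one] at h1 h2 ⊢
    simp only [Nat.cast_zero, zero_add, one_mul]
    exact ⟨sum_le_card μ E hE hμ 1 S b le_rfl (by omega),
      sum_le_card μ E hE hμ S b b h1 (by omega)⟩
  | succ i ih =>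
    intro hi S h1 h2
    have hb0 : 0 < b := by omega
    have hpos : 0 < b ^ i := pow_pos hb0 i
    have hS1 : b ^ i ≤ S / b := by
      rw [Nat.le_div_iff_mul_le hb0, ← pow_succ]; exact h1
    have hS2 : S / b ≤ b ^ (i + 1) := by
      apply Nat.div_le_of_le_mul
      rw [← pow_succ']; exact h2
    have hmod := Nat.div_add_mod S b
    have hlt := Nat.mod_lt S hb0
    have hbL : b ^ (i + 1) ≤ b ^ L := Nat.pow_le_pow_right hb0 hi
    have hsum : ∀ A B, b ^ i ≤ A → A ≤ B → B ≤ b ^ (i + 1) →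
        ∑ e ∈ Finset.Ico (b * A) (b * B), μ e = ∑ d ∈ Finset.Ico A B, μ d := by
      intro A B hA hAB hB
      rw [sum_Ico_mul b μ A B hAB]
      refine Finset.sum_congr rfl fun d hd => ?_
      rw [Finset.mem_Ico] at hd
      rw [← hadd d (by omega) (by omega)]
    push_cast
    constructor
    · have e1 : b ^ (i + 1) = b * b ^ i := pow_succ' b i
      rw [← Finset.sum_Ico_consecutive μ (show b ^ (i + 1) ≤ b * (S / b) by
          rw [e1]; exact Nat.mul_le_mul_left b hS1) (show b * (S / b) ≤ S by omega)]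
      have h3 := hsum (b ^ i) (S / b) le_rfl hS1 hS2
      rw [← e1] at h3
      rw [h3]
      have h4 := (ih (by omega) (S / b) hS1 hS2).1
      have h5 := sum_le_card μ E hE hμ (b * (S / b)) S b
        (Nat.mul_pos hb0 (lt_of_lt_of_le hpos hS1)) (by omega)
      nlinarith
    · have e1 : b ^ (i + 1 + 1) = b * b ^ (i + 1) := pow_succ' b (i + 1)
      rcases Nat.lt_or_ge (S / b) (b ^ (i + 1)) with hlt' | hge
      · rw [← Finset.sum_Ico_consecutive μ (show S ≤ b * (S / b + 1) by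
          rw [Nat.mul_succ]; omega) (show b * (S / b + 1) ≤ b ^ (i + 1 + 1) by
          rw [e1]; exact Nat.mul_le_mul_left b hlt')]
        have h3 := hsum (S / b + 1) (b ^ (i + 1)) (by omega) hlt' le_rfl
        rw [← e1] at h3
        rw [h3]
        have h4 := (ih (by omega) (S / b + 1) (by omega) hlt').2
        have h5 := sum_le_card μ E hE hμ S (b * (S / b + 1)) b
          (le_trans (Nat.one_le_pow _ _ hb0) h1) (by rw [Nat.mul_succ]; omega)
        nlinarith
      · have hSe : S = b ^ (i + 1 + 1) := by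
          apply le_antisymm h2
          rw [e1]
          calc b * b ^ (i + 1) ≤ b * (S / b) := Nat.mul_le_mul_left b hge
            _ ≤ S := by omega
        rw [hSe, Finset.Ico_self, Finset.sum_empty]
        positivity

/-! ### strings of digits -/

theorem begins_uniq {b m e e' : ℕ} (hb : 2 ≤ b) (h : Begins b e m) (h' : Begins b e' m)
    (h1 : e / b < e') (h2 : e' / b < e) : e = e' := by
  obtain ⟨j, hj⟩ := h
  obtain ⟨j', hj'⟩ := h'
  have hb0 : 0 < b := by omega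
  have key : ∀ (i i' u u' : ℕ), m / b ^ i = u → m / b ^ i' = u' → i < i' → u' ≤ u / b := by
    intro i i' u u' hu hu' hii
    obtain ⟨t, rfl⟩ : ∃ t, i' = i + 1 + t := ⟨i' - (i + 1), by omega⟩
    rw [← hu', ← hu, pow_add, pow_succ, ← Nat.div_div_eq_div_mul, ← Nat.div_div_eq_div_mul]
    exact Nat.div_le_self _ _
  rcases lt_trichotomy j j' with h3 | h3 | h3
  · exact absurd (key j j' e e' hj hj' h3) (by omega)
  · rw [← hj, ← hj', h3]
  · exact absurd (key j' j e' e hj' hj h3) (by omega)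

open Classical in
/-- number of `n`, `2 ≤ n ≤ N`, for which `n ^ k` begins with `d` -/
noncomputable def bc (b k N d : ℕ) : ℕ :=
  ((Finset.Icc 2 N).filter (fun n => Begins b d (n ^ k))).card

theorem bc_add {b k N d : ℕ} (hb : 2 ≤ b) (hd : 1 ≤ d) (hdk : d < 2 ^ k) :
    bc b k N d = ∑ c ∈ Finset.range b, bc b k N (b * d + c) := by
  classical
  have hb0 : 0 < b := by omega
  unfold bc
  rw [← Finset.card_biUnion]
  · congr 1
    ext n
    simp only [Finset.mem_filter, Finset.mem_biUnion, Finset.mem_range]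
    constructor
    · rintro ⟨hn, j, hj⟩
      have hn2 := (Finset.mem_Icc.1 hn).1
      have hnk : 2 ^ k ≤ n ^ k := Nat.pow_le_pow_left hn2 k
      cases j with
      | zero => rw [pow_zero, Nat.div_one] at hj; omega
      | succ j =>
        refine ⟨(n ^ k / b ^ j) % b, Nat.mod_lt _ hb0, hn, j, ?_⟩
        rw [pow_succ, ← Nat.div_div_eq_div_mul] at hj
        rw [← hj]
        exact (Nat.div_add_mod _ _).symm
    · rintro ⟨c, hc, hn, j, hj⟩
      refine ⟨hn, j + 1, ?_⟩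
      rw [pow_succ, ← Nat.div_div_eq_div_mul, hj, Nat.mul_add_div hb0, Nat.div_eq_of_lt hc,
        add_zero]
  · intro c hc c' hc' hne
    rw [Finset.coe_range, mem_Iio] at hc hc'
    rw [Function.onFun, Finset.disjoint_left]
    intro n hn hn'
    rw [Finset.mem_filter] at hn hn'
    apply hne
    have e1 : ∀ c, c < b → (b * d + c) / b = d := fun c hc => by
      rw [Nat.mul_add_div hb0, Nat.div_eq_of_lt hc, add_zero]
    have hbd : 2 * d ≤ b * d := Nat.mul_le_mul_right d hb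
    have := begins_uniq hb hn.2 hn'.2 (by rw [e1 c hc]; omega) (by rw [e1 c' hc']; omega)
    omega

theorem sum_log (b : ℕ) (_hb : 2 ≤ b) (A : ℕ) (hA : 1 ≤ A) : ∀ S, A ≤ S →
    ∑ d ∈ Finset.Ico A S, Real.logb b (1 + 1 / d) = Real.logb b (S / A) := by
  intro S hS
  induction S, hS using Nat.le_induction with
  | base =>
    have : (A : ℝ) ≠ 0 := by positivity
    simp [div_self this]
  | succ S hS ih =>
    rw [Finset.sum_Ico_succ_top hS, ih]
    have hA0 : (A : ℝ) ≠ 0 := by positivity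
    have hS0 : (S : ℝ) ≠ 0 := by
      have : 1 ≤ S := hA.trans hS
      positivity
    rw [← Real.logb_mul (div_ne_zero hS0 hA0) (by positivity)]
    congr 1
    push_cast
    field_simp

theorem log_add {b d : ℕ} (hb : 2 ≤ b) (hd : 1 ≤ d) :
    Real.logb b (1 + 1 / d) = ∑ c ∈ Finset.range b, Real.logb b (1 + 1 / ((b * d + c : ℕ) : ℝ)) := by
  have h1 := sum_log b hb (b * d) (Nat.mul_pos (by omega) hd) (b * d + b) (Nat.le_add_right _ _)
  rw [Finset.sum_Ico_eq_sum_range, Nat.add_sub_cancel_left] at h1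
  rw [h1]
  congr 1
  have hd0 : (d : ℝ) ≠ 0 := by positivity
  have hb0 : (b : ℝ) ≠ 0 := by
    have : 0 < b := by omega
    positivity
  push_cast
  field_simp

open Classical in
/-- number of `n`, `2 ≤ n ≤ N`, for which the prefix of length `L + 1` of `n ^ k` is `< S` -/
noncomputable def cc (b k N L S : ℕ) : ℕ :=
  ((Finset.Icc 2 N).filter (fun n => ∃ d, b ^ L ≤ d ∧ d < S ∧ Begins b d (n ^ k))).card

theorem cc_eq {b k N L S : ℕ} (hb : 2 ≤ b) (hS : S ≤ b ^ (L + 1)) :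
    cc b k N L S = ∑ d ∈ Finset.Ico (b ^ L) S, bc b k N d := by
  classical
  have hb0 : 0 < b := by omega
  unfold cc bc
  rw [← Finset.card_biUnion]
  · congr 1
    ext n
    simp only [Finset.mem_filter, Finset.mem_biUnion, Finset.mem_Ico]
    constructor
    · rintro ⟨hn, d, h1, h2, h3⟩
      exact ⟨d, ⟨h1, h2⟩, hn, h3⟩
    · rintro ⟨d, ⟨h1, h2⟩, hn, h3⟩
      exact ⟨hn, d, h1, h2, h3⟩
  · intro d hd d' hd' hne
    rw [Finset.coe_Ico, mem_Ico] at hd hd'
    rw [Function.onFun, Finset.disjoint_left]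
    intro n hn hn'
    rw [Finset.mem_filter] at hn hn'
    apply hne
    have e1 : ∀ x, x < S → x / b < b ^ L := fun x hx => by
      rw [Nat.div_lt_iff_lt_mul hb0, ← pow_succ]; omega
    have e2 := e1 d hd.2
    have e3 := e1 d' hd'.2
    exact begins_uniq hb hn.2 hn'.2 (by omega) (by omega)

theorem exists_prefix {b m L : ℕ} (hb : 2 ≤ b) (hm : b ^ L ≤ m) :
    ∃ d, b ^ L ≤ d ∧ d < b ^ (L + 1) ∧ Begins b d m := by
  have hb0 : 0 < b := by omega
  have hm0 : m ≠ 0 := by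
    have : 0 < b ^ L := pow_pos hb0 L
    omega
  have hL : L ≤ Nat.log b m := Nat.le_log_of_pow_le (by omega) hm
  obtain ⟨t, ht⟩ : ∃ t, Nat.log b m = L + t := ⟨Nat.log b m - L, by omega⟩
  have h1 : b ^ (L + t) ≤ m := by rw [← ht]; exact Nat.pow_log_le_self b hm0
  have h2 : m < b ^ (L + t + 1) := by rw [← ht]; exact Nat.lt_pow_succ_log_self (by omega) m
  refine ⟨m / b ^ t, ?_, ?_, t, rfl⟩
  · rw [Nat.le_div_iff_mul_le (pow_pos hb0 t), ← pow_add]; exact h1
  · rw [Nat.div_lt_iff_lt_mul (pow_pos hb0 t), ← pow_add]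
    have : L + 1 + t = L + t + 1 := by ring
    rw [this]; exact h2

theorem cc_top {b k N L : ℕ} (hb : 2 ≤ b) (hN : 1 ≤ N) (hL : b ^ L ≤ 2 ^ k) :
    (cc b k N L (b ^ (L + 1)) : ℝ) = N - 1 := by
  classical
  have : cc b k N L (b ^ (L + 1)) = N - 1 := by
    unfold cc
    rw [Finset.filter_true_of_mem]
    · rw [Nat.card_Icc]; omega
    · intro n hn
      have hn2 := (Finset.mem_Icc.1 hn).1
      have hnk : 2 ^ k ≤ n ^ k := Nat.pow_le_pow_left hn2 k
      exact exists_prefix hb (hL.trans hnk)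
  rw [this, Nat.cast_sub hN, Nat.cast_one]

theorem core {b k N L : ℕ} (hb : 2 ≤ b) (hN : 1 ≤ N) (hL : b ^ L ≤ 2 ^ k) {σ E : ℝ}
    (hσ : σ = 1 ∨ σ = -1) (hE : 0 ≤ E)
    (hμ : ∀ d, 1 ≤ d → σ * ((bc b k N d : ℝ) - N * Real.logb b (1 + 1 / d)) ≤ E)
    {S : ℕ} (hS1 : b ^ L ≤ S) (hS2 : S ≤ b ^ (L + 1)) :
    |(cc b k N L S : ℝ) - N * Real.logb b (S / (b : ℝ) ^ L)| ≤ (L + 1) * b * E + 1 := by
  have hb0 : 0 < b := by omega
  have hbL : 1 ≤ b ^ L := Nat.one_le_pow _ _ hb0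
  have hb1 : (1 : ℝ) < b := by
    have : 1 < b := by omega
    exact_mod_cast this
  set μ : ℕ → ℝ := fun d => σ * ((bc b k N d : ℝ) - N * Real.logb b (1 + 1 / d)) with hμd
  have hadd : ∀ d, 1 ≤ d → d < b ^ L → μ d = ∑ c ∈ Finset.range b, μ (b * d + c) := by
    intro d hd hdL
    simp only [hμd]
    rw [← Finset.mul_sum, Finset.sum_sub_distrib, ← Finset.mul_sum, ← log_add hb hd]
    rw [bc_add hb hd (lt_of_lt_of_le hdL hL)]
    push_cast
    rfl
  obtain ⟨h1, h2⟩ := comb b hb μ E hE L hadd hμ L le_rfl S hS1 hS2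
  have hD : ∀ S', b ^ L ≤ S' → S' ≤ b ^ (L + 1) → ∑ d ∈ Finset.Ico (b ^ L) S', μ d =
      σ * ((cc b k N L S' : ℝ) - N * Real.logb b (S' / (b : ℝ) ^ L)) := by
    intro S' hS1' hS2'
    simp only [hμd]
    rw [← Finset.mul_sum, Finset.sum_sub_distrib, ← Finset.mul_sum, sum_log b hb _ hbL S' hS1',
      cc_eq hb hS2']
    push_cast
    rfl
  have hall := hD (b ^ (L + 1)) (hS1.trans hS2) le_rfl
  rw [← Finset.sum_Ico_consecutive μ hS1 hS2, hD S hS1 hS2, cc_top hb hN hL] at hall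
  rw [hD S hS1 hS2] at h1
  have hone : Real.logb b (((b ^ (L + 1) : ℕ) : ℝ) / (b : ℝ) ^ L) = 1 := by
    push_cast
    rw [pow_succ, mul_comm, mul_div_assoc, div_self (by positivity), mul_one,
      Real.logb_self_eq_one hb1]
  rw [hone] at hall
  set D := (cc b k N L S : ℝ) - N * Real.logb b (S / (b : ℝ) ^ L) with hDd
  rcases hσ with rfl | rfl
  · rw [abs_le]; constructor <;> linarith
  · rw [abs_le]; constructor <;> linarith

/-! ### mantissas -/

theorem ncard_bounds (P : ℕ → Prop) [DecidablePred P] (N : ℕ) :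
    ((Finset.Icc 2 N).filter P).card ≤ {n : ℕ | 1 ≤ n ∧ n ≤ N ∧ P n}.ncard ∧
    {n : ℕ | 1 ≤ n ∧ n ≤ N ∧ P n}.ncard ≤ ((Finset.Icc 2 N).filter P).card + 1 := by
  have e : {n : ℕ | 1 ≤ n ∧ n ≤ N ∧ P n} = (((Finset.Icc 1 N).filter P : Finset ℕ) : Set ℕ) := by
    ext n
    simp only [Set.mem_ofPred_eq, Finset.coe_filter, Finset.mem_Icc]
    tauto
  rw [e, Set.ncard_coe_finset]
  constructor
  · apply Finset.card_le_card
    intro n hn
    simp only [Finset.mem_filter, Finset.mem_Icc] at hn ⊢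
    exact ⟨⟨by omega, hn.1.2⟩, hn.2⟩
  · refine le_trans (Finset.card_le_card (t := insert 1 ((Finset.Icc 2 N).filter P)) ?_)
      (Finset.card_insert_le _ _)
    intro n hn
    simp only [Finset.mem_filter, Finset.mem_Icc, Finset.mem_insert] at hn ⊢
    by_cases h1 : n = 1
    · left; exact h1
    · right; exact ⟨⟨by omega, hn.1.2⟩, hn.2⟩

theorem mant_of_lt {b L d m S : ℕ} {s : ℝ} (hb : 2 ≤ b) (h1 : b ^ L ≤ d) (h2 : d < S)
    (hS : (S : ℝ) ≤ s * (b : ℝ) ^ L) (h : Begins b d m) : Mant b 1 s m := by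
  obtain ⟨j, hj⟩ := h
  have hb0 : (0 : ℝ) < b := by
    have : 0 < b := by omega
    exact_mod_cast this
  have hbj : 0 < b ^ j := pow_pos (by omega) j
  have h3 : d * b ^ j ≤ m := by rw [← hj]; exact Nat.div_mul_le_self m (b ^ j)
  have h4 : m < (d + 1) * b ^ j := by
    have h5 := Nat.lt_mul_div_succ m hbj
    rw [hj] at h5
    rw [mul_comm]
    exact h5
  refine ⟨((L + j : ℕ) : ℤ), ?_, ?_⟩
  · rw [zpow_natCast, one_mul]
    have : b ^ (L + j) ≤ m := by
      rw [pow_add]; exact (Nat.mul_le_mul_right _ h1).trans h3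
    exact_mod_cast this
  · rw [zpow_natCast, pow_add, ← mul_assoc]
    have h5 : m < S * b ^ j := lt_of_lt_of_le h4 (Nat.mul_le_mul_right _ h2)
    have h6 : (m : ℝ) < S * (b : ℝ) ^ j := by exact_mod_cast h5
    refine lt_of_lt_of_le h6 ?_
    exact mul_le_mul_of_nonneg_right hS (by positivity)

theorem lt_of_mant {b L d m : ℕ} {s : ℝ} (hb : 2 ≤ b) (hs : 0 < s) (h2 : d < b ^ (L + 1))
    (h : Begins b d m) (hM : Mant b 1 s m) : (d : ℝ) < s * (b : ℝ) ^ L := by
  obtain ⟨j, hj⟩ := h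
  obtain ⟨z, hz1, hz2⟩ := hM
  have hb0 : (0 : ℝ) < b := by
    have : 0 < b := by omega
    exact_mod_cast this
  have hb1 : (1 : ℝ) ≤ b := by
    have : 1 ≤ b := by omega
    exact_mod_cast this
  have hbj : 0 < b ^ j := pow_pos (by omega) j
  have h3 : d * b ^ j ≤ m := by rw [← hj]; exact Nat.div_mul_le_self m (b ^ j)
  have h4 : m < (d + 1) * b ^ j := by
    have h5 := Nat.lt_mul_div_succ m hbj
    rw [hj] at h5
    rw [mul_comm]
    exact h5
  have hz : z ≤ ((L + j : ℕ) : ℤ) := by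
    by_contra hcon
    push Not at hcon
    have h5 : (b : ℝ) ^ (((L + 1 + j : ℕ) : ℤ)) ≤ (b : ℝ) ^ z :=
      zpow_le_zpow_right₀ hb1 (by push_cast at hcon ⊢; omega)
    rw [zpow_natCast] at h5
    have h6 : m < b ^ (L + 1 + j) := by
      rw [pow_add]
      exact lt_of_lt_of_le h4 (Nat.mul_le_mul_right _ h2)
    have h7 : (m : ℝ) < (b : ℝ) ^ (L + 1 + j) := by exact_mod_cast h6
    rw [one_mul] at hz1
    linarith
  have h5 : (b : ℝ) ^ z ≤ (b : ℝ) ^ (((L + j : ℕ) : ℤ)) := zpow_le_zpow_right₀ hb1 hz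
  rw [zpow_natCast, pow_add] at h5
  have h6 : (d : ℝ) * (b : ℝ) ^ j ≤ m := by exact_mod_cast h3
  have h7 : (d : ℝ) * (b : ℝ) ^ j < (s * (b : ℝ) ^ L) * (b : ℝ) ^ j := by
    calc (d : ℝ) * (b : ℝ) ^ j ≤ m := h6
      _ < s * (b : ℝ) ^ z := hz2
      _ ≤ s * ((b : ℝ) ^ L * (b : ℝ) ^ j) := mul_le_mul_of_nonneg_left h5 hs.le
      _ = _ := by ring
  exact lt_of_mul_lt_mul_right h7 (by positivity)

theorem sq_le_two_pow : ∀ k : ℕ, 4 ≤ k → k * k ≤ 2 ^ k := by
  intro k hk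
  induction k, hk using Nat.le_induction with
  | base => norm_num
  | succ k hk ih =>
    rw [pow_succ]
    nlinarith

theorem clog_le {b k : ℕ} (hb : 2 ≤ b) (hk : 1 ≤ k) {δ : ℝ} (hδ : 0 < δ) :
    ((Nat.clog b k : ℕ) : ℝ) + 1 ≤ (2 / δ + 2) * (k : ℝ) ^ δ := by
  have hk1 : (1 : ℝ) ≤ k := by exact_mod_cast hk
  have hkd : 1 ≤ (k : ℝ) ^ δ := Real.one_le_rpow hk1 hδ.le
  have hlog := Real.log_le_rpow_div (by linarith : (0 : ℝ) ≤ k) hδ
  have hlog0 : 0 ≤ Real.log k := Real.log_nonneg hk1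
  have h2 : ((Nat.clog b k : ℕ) : ℝ) ≤ 1 + 2 * Real.log k := by
    rcases Nat.eq_zero_or_pos (Nat.clog b k) with h0 | hpos
    · rw [h0, Nat.cast_zero]; linarith
    · obtain ⟨t, ht⟩ : ∃ t, Nat.clog b k = t + 1 := ⟨Nat.clog b k - 1, by omega⟩
      have hk2 : 1 < k := by
        by_contra hcon
        have : k = 1 := by omega
        rw [this, Nat.clog_one_right] at hpos
        omega
      have h3 := Nat.pow_pred_clog_lt_self (by omega : 1 < b) hk2
      rw [ht, Nat.pred_succ] at h3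
      have h4 : 2 ^ t ≤ k := (Nat.pow_le_pow_left hb t).trans h3.le
      have h5 : ((2 : ℝ) ^ t) ≤ k := by exact_mod_cast h4
      have h6 := Real.log_le_log (by positivity) h5
      rw [Real.log_pow] at h6
      have h7 : (1 / 2 : ℝ) ≤ Real.log 2 := by
        have := Real.log_two_gt_d9
        linarith
      rw [ht]
      push_cast
      have h8 : (t : ℝ) * (1 / 2) ≤ t * Real.log 2 :=
        mul_le_mul_of_nonneg_left h7 (Nat.cast_nonneg _)
      linarith
  have h3 : 2 * Real.log k ≤ (2 / δ) * (k : ℝ) ^ δ := by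
    calc 2 * Real.log k ≤ 2 * ((k : ℝ) ^ δ / δ) := by linarith
      _ = _ := by ring
  nlinarith

end XSTB_

open XSTB_

theorem p_XSTB : X_STB := by
  classical
  intro b hb hor ε hε
  have hb0 : (0 : ℝ) < b := by
    have : 0 < b := by omega
    exact_mod_cast this
  have hb2 : (2 : ℝ) ≤ b := by exact_mod_cast hb
  have hb1 : (1 : ℝ) < b := by linarith
  obtain ⟨σ, C0, hσ, hC0⟩ : ∃ (σ C0 : ℝ), (σ = 1 ∨ σ = -1) ∧ ∀ k N d : ℕ, 1 ≤ N → N ≤ k →
      1 ≤ d → σ * ((bc b k N d : ℝ) - N * Real.logb b (1 + 1 / d)) ≤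
        |C0| * √(N : ℝ) * (k : ℝ) ^ (ε / 2) + 1 := by
    rcases hor with hU | hL
    · obtain ⟨C, hC⟩ := hU (ε / 2) (by linarith)
      refine ⟨1, C, Or.inl rfl, fun k N d hN hNk hd => ?_⟩
      have h1 := hC k N d hN hNk hd
      have h2 := (ncard_bounds (fun n => Begins b d (n ^ k)) N).1
      have h3 : (bc b k N d : ℝ) ≤ (bcount b d k N : ℝ) := by
        unfold bc bcount
        exact_mod_cast h2
      have h4 : C * √(N : ℝ) * (k : ℝ) ^ (ε / 2) ≤ |C| * √(N : ℝ) * (k : ℝ) ^ (ε / 2) := by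
        apply mul_le_mul_of_nonneg_right _ (by positivity)
        exact mul_le_mul_of_nonneg_right (le_abs_self C) (by positivity)
      linarith
    · obtain ⟨C, hC⟩ := hL (ε / 2) (by linarith)
      refine ⟨-1, C, Or.inr rfl, fun k N d hN hNk hd => ?_⟩
      have h1 := hC k N d hN hNk hd
      have h2 := (ncard_bounds (fun n => Begins b d (n ^ k)) N).2
      have h3 : (bcount b d k N : ℝ) ≤ (bc b k N d : ℝ) + 1 := by
        unfold bc bcount
        exact_mod_cast h2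
      have h4 : C * √(N : ℝ) * (k : ℝ) ^ (ε / 2) ≤ |C| * √(N : ℝ) * (k : ℝ) ^ (ε / 2) := by
        apply mul_le_mul_of_nonneg_right _ (by positivity)
        exact mul_le_mul_of_nonneg_right (le_abs_self C) (by positivity)
      linarith
  refine ⟨(2 / (ε / 2) + 2) * b * (|C0| + 1) + 4 + (b + 4), ?_⟩
  intro k N hN hNk s hs1 hsb
  have hN1 : (1 : ℝ) ≤ N := by exact_mod_cast hN
  have hNk' : (N : ℝ) ≤ (k : ℝ) := by exact_mod_cast hNk
  have hk1 : (1 : ℝ) ≤ k := hN1.trans hNk'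
  have hs0 : 0 < s := by linarith
  have hsqN : 1 ≤ √(N : ℝ) := by rw [Real.one_le_sqrt]; exact hN1
  have hke : 1 ≤ (k : ℝ) ^ ε := Real.one_le_rpow hk1 hε.le
  have hke2 : 1 ≤ (k : ℝ) ^ (ε / 2) := Real.one_le_rpow hk1 (by linarith)
  have hprod : 1 ≤ √(N : ℝ) * (k : ℝ) ^ ε := by nlinarith
  have hlogs0 : 0 ≤ Real.logb b s := Real.logb_nonneg hb1 hs1
  have hlogs1 : Real.logb b s ≤ 1 := by
    rw [← Real.logb_self_eq_one hb1]
    exact Real.logb_le_logb_of_le hb1 hs0 hsb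
  have hcountN : (count b 1 s k N : ℝ) ≤ N := by
    have h1 : count b 1 s k N ≤ N := by
      unfold count
      have h2 : {n : ℕ | 1 ≤ n ∧ n ≤ N ∧ Mant b 1 s ((n : ℝ) ^ (k : ℝ))} ⊆
          ((Finset.Icc 1 N : Finset ℕ) : Set ℕ) := by
        intro n hn
        simp only [Finset.coe_Icc, mem_Icc]
        exact ⟨hn.1, hn.2.1⟩
      have h3 := Set.ncard_le_ncard h2 (Finset.finite_toSet _)
      rw [Set.ncard_coe_finset, Nat.card_Icc] at h3
      omega
    exact_mod_cast h1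
  have hcount0 : (0 : ℝ) ≤ (count b 1 s k N : ℝ) := Nat.cast_nonneg _
  have hA : 0 ≤ (2 / (ε / 2) + 2) * b * (|C0| + 1) := by positivity
  have hgoal : ((2 / (ε / 2) + 2) * b * (|C0| + 1) + 4 + (b + 4)) * √(N : ℝ) * (k : ℝ) ^ ε =
      (2 / (ε / 2) + 2) * b * (|C0| + 1) * (√(N : ℝ) * (k : ℝ) ^ ε) +
        4 * (√(N : ℝ) * (k : ℝ) ^ ε) + (b + 4) * (√(N : ℝ) * (k : ℝ) ^ ε) := by ring
  rw [hgoal]
  rcases Nat.lt_or_ge k (b + 4) with hsmall | hbig
  · have h1 : (k : ℝ) ≤ b + 4 := by exact_mod_cast hsmall.le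
    have h2 : |(count b 1 s k N : ℝ) - N * Real.logb b s| ≤ N := by
      rw [abs_le]
      constructor
      · nlinarith
      · nlinarith
    have h3 : (b + 4 : ℝ) ≤ (b + 4) * (√(N : ℝ) * (k : ℝ) ^ ε) := by nlinarith
    have h4 : 0 ≤ (2 / (ε / 2) + 2) * b * (|C0| + 1) * (√(N : ℝ) * (k : ℝ) ^ ε) :=
      mul_nonneg hA (by linarith)
    linarith
  · set L := Nat.clog b k with hLdef
    have hkL : k ≤ b ^ L := Nat.le_pow_clog (by omega) k
    have hLb : b ^ L ≤ b * k := by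
      rcases Nat.eq_zero_or_pos L with h0 | hpos
      · rw [h0, pow_zero]
        exact Nat.mul_pos (by omega) (by omega)
      · obtain ⟨t, ht⟩ : ∃ t, L = t + 1 := ⟨L - 1, by omega⟩
        have h3 := Nat.pow_pred_clog_lt_self (by omega : 1 < b) (by omega : 1 < k)
        rw [← hLdef, ht, Nat.pred_succ] at h3
        rw [ht, pow_succ']
        exact Nat.mul_le_mul_left b h3.le
    have hL2 : b ^ L ≤ 2 ^ k := by
      refine hLb.trans (le_trans ?_ (sq_le_two_pow k (by omega)))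
      exact Nat.mul_le_mul_right k (by omega)
    set E : ℝ := |C0| * √(N : ℝ) * (k : ℝ) ^ (ε / 2) + 1 with hE
    have hE0 : 0 ≤ E := by positivity
    have hbL0 : (0 : ℝ) < (b : ℝ) ^ L := by positivity
    set S : ℕ := ⌊s * (b : ℝ) ^ L⌋₊ with hSdef
    have hSle : (S : ℝ) ≤ s * (b : ℝ) ^ L := Nat.floor_le (by positivity)
    have hSlt : s * (b : ℝ) ^ L < S + 1 := Nat.lt_floor_add_one _
    have hS1 : b ^ L ≤ S := by
      apply Nat.le_floor
      push_cast
      nlinarith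
    have hS2 : S ≤ b ^ (L + 1) := by
      have h1 : (S : ℝ) ≤ (b : ℝ) ^ (L + 1) := by
        rw [pow_succ']
        exact hSle.trans (mul_le_mul_of_nonneg_right hsb hbL0.le)
      exact_mod_cast h1
    have hSpos : 0 < S := lt_of_lt_of_le (pow_pos (by omega) L) hS1
    have hSposR : (0 : ℝ) < S := by exact_mod_cast hSpos
    set ℓ := Real.logb b (1 + 1 / (S : ℝ)) with hℓ
    have hNℓ : (N : ℝ) * ℓ ≤ 2 := by
      have h5 : Real.log (1 + 1 / (S : ℝ)) ≤ 1 / S := by
        have := Real.log_le_sub_one_of_pos (show (0 : ℝ) < 1 + 1 / (S : ℝ) by positivity)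
        linarith
      have hlb : (1 / 2 : ℝ) ≤ Real.log b := by
        have h6 : Real.log 2 ≤ Real.log b := Real.log_le_log (by norm_num) hb2
        have := Real.log_two_gt_d9
        linarith
      have h7 : ℓ ≤ (1 / S) / (1 / 2) := by
        rw [hℓ, Real.logb]
        exact div_le_div₀ (by positivity) h5 (by norm_num) hlb
      have h8 : (N : ℝ) ≤ S := by
        have : N ≤ S := by omega
        exact_mod_cast this
      calc (N : ℝ) * ℓ ≤ (N : ℝ) * ((1 / S) / (1 / 2)) :=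
            mul_le_mul_of_nonneg_left h7 (by linarith)
        _ ≤ (S : ℝ) * ((1 / S) / (1 / 2)) := mul_le_mul_of_nonneg_right h8 (by positivity)
        _ = 2 := by field_simp
    have hlogS : Real.logb b (((S : ℝ) + 1) / (b : ℝ) ^ L) =
        Real.logb b ((S : ℝ) / (b : ℝ) ^ L) + ℓ := by
      rw [hℓ, ← Real.logb_mul (by positivity) (by positivity)]
      congr 1
      field_simp
    have hlog1 : Real.logb b s ≤ Real.logb b ((S : ℝ) / (b : ℝ) ^ L) + ℓ := by
      rw [← hlogS]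
      apply Real.logb_le_logb_of_le hb1 hs0
      rw [le_div_iff₀ hbL0]
      exact hSlt.le
    have hlog2 : Real.logb b ((S : ℝ) / (b : ℝ) ^ L) ≤ Real.logb b s := by
      apply Real.logb_le_logb_of_le hb1 (by positivity)
      rw [div_le_iff₀ hbL0]
      exact hSle
    have hcast : ∀ n : ℕ, ((n : ℝ) ^ (k : ℝ)) = ((n ^ k : ℕ) : ℝ) := by
      intro n
      rw [Real.rpow_natCast]
      push_cast
      rfl
    have hcnt := ncard_bounds (fun n => Mant b 1 s ((n : ℝ) ^ (k : ℝ))) N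
    set M := ((Finset.Icc 2 N).filter (fun n : ℕ => Mant b 1 s ((n : ℝ) ^ (k : ℝ)))).card with hM
    have hc1 : (M : ℝ) ≤ (count b 1 s k N : ℝ) := by
      unfold count
      exact_mod_cast hcnt.1
    have hc2 : (count b 1 s k N : ℝ) ≤ (M : ℝ) + 1 := by
      unfold count
      exact_mod_cast hcnt.2
    have hM1 : (cc b k N L S : ℝ) ≤ M := by
      have : cc b k N L S ≤ M := by
        rw [hM]
        unfold cc
        apply Finset.card_le_card
        intro n hn
        rw [Finset.mem_filter] at hn ⊢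
        obtain ⟨hn1, d, hd1, hd2, hd3⟩ := hn
        refine ⟨hn1, ?_⟩
        rw [hcast]
        exact mant_of_lt hb hd1 hd2 hSle hd3
      exact_mod_cast this
    have hM2 : (M : ℝ) ≤ (cc b k N L (S + 1) : ℝ) := by
      have : M ≤ cc b k N L (S + 1) := by
        rw [hM]
        unfold cc
        apply Finset.card_le_card
        intro n hn
        rw [Finset.mem_filter] at hn ⊢
        obtain ⟨hn1, hn2⟩ := hn
        refine ⟨hn1, ?_⟩
        rw [hcast] at hn2
        have hnk : 2 ^ k ≤ n ^ k := Nat.pow_le_pow_left (Finset.mem_Icc.1 hn1).1 k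
        obtain ⟨d, hd1, hd2, hd3⟩ := exists_prefix (L := L) hb (hL2.trans hnk)
        refine ⟨d, hd1, ?_, hd3⟩
        have := lt_of_mant hb hs0 hd2 hd3 hn2
        exact Nat.lt_succ_of_le (Nat.le_floor this.le)
      exact_mod_cast this
    have hμ : ∀ d, 1 ≤ d → σ * ((bc b k N d : ℝ) - N * Real.logb b (1 + 1 / d)) ≤ E :=
      fun d hd => hC0 k N d hN hNk hd
    have hcore1 := abs_le.1 (core hb hN hL2 hσ hE0 hμ hS1 hS2)
    set R : ℝ := (L + 1) * b * E + 1 with hR
    have hRle : R + 3 ≤ (2 / (ε / 2) + 2) * b * (|C0| + 1) * (√(N : ℝ) * (k : ℝ) ^ ε) +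
        4 * (√(N : ℝ) * (k : ℝ) ^ ε) := by
      have h1 := clog_le (k := k) hb (by omega) (show (0 : ℝ) < ε / 2 by linarith)
      rw [← hLdef] at h1
      have hkk : (k : ℝ) ^ ε = (k : ℝ) ^ (ε / 2) * (k : ℝ) ^ (ε / 2) := by
        rw [← Real.rpow_add (by linarith)]
        congr 1
        ring
      have h2 : E ≤ (|C0| + 1) * (√(N : ℝ) * (k : ℝ) ^ (ε / 2)) := by
        have : 1 ≤ √(N : ℝ) * (k : ℝ) ^ (ε / 2) := by nlinarith
        rw [hE]
        nlinarith [abs_nonneg C0]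
      have h3 : (L + 1 : ℝ) * b * E ≤ ((2 / (ε / 2) + 2) * (k : ℝ) ^ (ε / 2)) * b *
          ((|C0| + 1) * (√(N : ℝ) * (k : ℝ) ^ (ε / 2))) := by
        apply mul_le_mul _ h2 hE0 (by positivity)
        exact mul_le_mul_of_nonneg_right h1 hb0.le
      have h4 : ((2 / (ε / 2) + 2) * (k : ℝ) ^ (ε / 2)) * b *
          ((|C0| + 1) * (√(N : ℝ) * (k : ℝ) ^ (ε / 2))) =
          (2 / (ε / 2) + 2) * b * (|C0| + 1) * (√(N : ℝ) * (k : ℝ) ^ ε) := by
        rw [hkk]; ring
      rw [hR]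
      linarith
    have hlast : 0 ≤ ((b : ℝ) + 4) * (√(N : ℝ) * (k : ℝ) ^ ε) := by positivity
    have hN0 : (0 : ℝ) ≤ N := by linarith
    have hm1 := mul_le_mul_of_nonneg_left hlog1 hN0
    have hm2 := mul_le_mul_of_nonneg_left hlog2 hN0
    rw [mul_add] at hm1
    have hR0 : 0 ≤ R := by positivity
    rw [abs_le]
    constructor
    · linarith [hcore1.1]
    · rcases Nat.lt_or_ge S (b ^ (L + 1)) with hSlt2 | hSge
      · have hcore2 := abs_le.1 (core hb hN hL2 hσ hE0 hμ (S := S + 1) (by omega) hSlt2)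
        have hcast2 : (((S + 1 : ℕ) : ℝ)) = (S : ℝ) + 1 := by push_cast; rfl
        rw [hcast2, hlogS, mul_add] at hcore2
        linarith [hcore2.2]
      · have h1 : ((b : ℝ) ^ (L + 1)) ≤ S := by exact_mod_cast hSge
        have h2 : (b : ℝ) ≤ s := by
          have h3 : (b : ℝ) * (b : ℝ) ^ L ≤ s * (b : ℝ) ^ L := by
            rw [← pow_succ']; exact h1.trans hSle
          exact le_of_mul_le_mul_right h3 hbL0
        have h3 : s = b := le_antisymm hsb h2
        have h4 : Real.logb b s = 1 := by rw [h3, Real.logb_self_eq_one hb1]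
        rw [h4]
        linarith

end Pool.Agent.Ben
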