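import Pool.Agent.Ben.Targets5

/-! # LH and Benford's law: strings of first digits from mantissa intervals (XSTF) -/

set_option autoImplicit false

namespace Pool.Agent.Ben

open Complex MeasureTheory Set

theorem XSTF_begins_mant {b d m : ℕ} (hb : 2 ≤ b) (h : Begins b d m) :
    Mant (b : ℝ) (d : ℝ) ((d : ℝ) + 1) (m : ℝ) := by
  obtain ⟨j, hj⟩ := h
  have hbj : 0 < b ^ j := by positivity
  have h1 : d * b ^ j ≤ m := by
    rw [← hj]
    exact Nat.div_mul_le_self m (b ^ j)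
  have h2 : m < (d + 1) * b ^ j := by
    have h3 := Nat.lt_mul_div_succ m hbj
    rw [hj] at h3
    rw [mul_comm]
    exact h3
  refine ⟨(j : ℤ), ?_, ?_⟩
  · rw [zpow_natCast]
    exact_mod_cast h1
  · rw [zpow_natCast]
    exact_mod_cast h2

theorem XSTF_mant_begins {b d m : ℕ} (hb : 2 ≤ b) (hd : 1 ≤ d) (hdm : d ≤ m)
    (h : Mant (b : ℝ) (d : ℝ) ((d : ℝ) + 1) (m : ℝ)) : Begins b d m := by
  obtain ⟨z, h1, h2⟩ := h
  rcases le_or_gt 0 z with hz | hz
  · lift z to ℕ using hz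
    refine ⟨z, ?_⟩
    rw [zpow_natCast] at h1 h2
    have h1' : d * b ^ z ≤ m := by exact_mod_cast h1
    have h2' : m < (d + 1) * b ^ z := by exact_mod_cast h2
    exact Nat.div_eq_of_lt_le h1' h2'
  · exfalso
    have hb1 : (1 : ℝ) ≤ b := by
      have : (2 : ℝ) ≤ b := by exact_mod_cast hb
      linarith
    have hb0 : (0 : ℝ) < b := by linarith
    have h3 : (b : ℝ) ^ z ≤ (b : ℝ) ^ (-1 : ℤ) := zpow_le_zpow_right₀ hb1 (by omega)
    have h4 : (m : ℝ) < ((d : ℝ) + 1) * (b : ℝ)⁻¹ := by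
      refine h2.trans_le ?_
      rw [zpow_neg_one] at h3
      exact mul_le_mul_of_nonneg_left h3 (by positivity)
    have h5 : (m : ℝ) * b < (d : ℝ) + 1 := by
      rwa [← div_eq_mul_inv, lt_div_iff₀ hb0] at h4
    have h6 : m * b < d + 1 := by exact_mod_cast h5
    have h7 : d * 2 ≤ m * b := Nat.mul_le_mul hdm hb
    omega

theorem p_XSTF : X_STF := by
  intro b hb hU ε hε
  obtain ⟨C, hC⟩ := hU ε hε
  refine ⟨|C| + 2, ?_⟩
  intro k N d hN hNk hd
  have hb2 : (2 : ℝ) ≤ b := by exact_mod_cast hb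
  have hd1 : (1 : ℝ) ≤ d := by exact_mod_cast hd
  have hN1 : (1 : ℝ) ≤ N := by exact_mod_cast hN
  have hNk' : (N : ℝ) ≤ (k : ℝ) := by exact_mod_cast hNk
  have hk1 : (1 : ℝ) ≤ k := hN1.trans hNk'
  have hsq : 1 ≤ √(N : ℝ) * (k : ℝ) ^ ε := by
    have h1 : 1 ≤ √(N : ℝ) := by
      rw [Real.one_le_sqrt]
      exact hN1
    have h2 : 1 ≤ (k : ℝ) ^ ε := Real.one_le_rpow hk1 hε.le
    nlinarith
  have hm := hC (k : ℝ) N hN hNk' (d : ℝ) ((d : ℝ) + 1) (by linarith) (by linarith)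
    (by nlinarith)
  have hlog : ((d : ℝ) + 1) / d = 1 + 1 / d := by
    field_simp
  rw [hlog] at hm
  set L : ℝ := Real.logb b (1 + 1 / d) with hL
  -- the two sets
  set S₁ : Set ℕ := {n : ℕ | 1 ≤ n ∧ n ≤ N ∧ Begins b d (n ^ k)} with hS₁
  set S₂ : Set ℕ := {n : ℕ | 1 ≤ n ∧ n ≤ N ∧
    Mant (b : ℝ) (d : ℝ) ((d : ℝ) + 1) ((n : ℝ) ^ (k : ℝ))} with hS₂
  have hfin : S₂.Finite := (Set.finite_Icc 1 N).subset fun n hn => ⟨hn.1, hn.2.1⟩
  have hcast : ∀ n : ℕ, ((n : ℝ) ^ (k : ℝ)) = ((n ^ k : ℕ) : ℝ) := by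
    intro n
    rw [Real.rpow_natCast]
    push_cast
    rfl
  have hsub : S₁ ⊆ S₂ := by
    intro n hn
    refine ⟨hn.1, hn.2.1, ?_⟩
    rw [hcast]
    exact XSTF_begins_mant hb hn.2.2
  have hle : bcount b d k N ≤ count b d ((d : ℝ) + 1) k N := Set.ncard_le_ncard hsub hfin
  have hle' : (bcount b d k N : ℝ) ≤ (count b d ((d : ℝ) + 1) k N : ℝ) := by exact_mod_cast hle
  have hCa : C * √(N : ℝ) * (k : ℝ) ^ ε ≤ |C| * (√(N : ℝ) * (k : ℝ) ^ ε) := by
    rw [mul_assoc]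
    exact mul_le_mul_of_nonneg_right (le_abs_self C) (by positivity)
  have hgoal : (|C| + 2) * √(N : ℝ) * (k : ℝ) ^ ε =
      |C| * (√(N : ℝ) * (k : ℝ) ^ ε) + 2 * (√(N : ℝ) * (k : ℝ) ^ ε) := by ring
  rw [hgoal]
  rw [abs_le] at hm ⊢
  rcases le_or_gt d (2 ^ k) with hdk | hdk
  · have hdiff : S₂ ⊆ insert 1 S₁ := by
      intro n hn
      rcases Nat.lt_or_ge n 2 with h2 | h2
      · left
        have := hn.1
        omega
      · right
        refine ⟨hn.1, hn.2.1, ?_⟩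
        have h3 := hn.2.2
        rw [hcast] at h3
        exact XSTF_mant_begins hb hd (hdk.trans (Nat.pow_le_pow_left h2 k)) h3
    have h4 : count b d ((d : ℝ) + 1) k N ≤ bcount b d k N + 1 :=
      (Set.ncard_le_ncard hdiff ((hfin.subset hsub).insert 1)).trans (Set.ncard_insert_le 1 S₁)
    have h4' : (count b d ((d : ℝ) + 1) k N : ℝ) ≤ (bcount b d k N : ℝ) + 1 := by
      exact_mod_cast h4
    constructor
    · linarith [hm.1]
    · linarith [hm.2]
  · have hLle : (N : ℝ) * L ≤ 2 := by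
      have h5 : Real.log (1 + 1 / d) ≤ 1 / d := by
        have := Real.log_le_sub_one_of_pos (show (0 : ℝ) < 1 + 1 / d by positivity)
        linarith
      have hlb : (1 / 2 : ℝ) ≤ Real.log b := by
        have h6 : Real.log 2 ≤ Real.log b := Real.log_le_log (by norm_num) hb2
        have := Real.log_two_gt_d9
        linarith
      have h7 : L ≤ (1 / d) / (1 / 2) := by
        rw [hL, Real.logb]
        refine div_le_div₀ (by positivity) h5 (by norm_num) hlb
      have h8 : (N : ℝ) ≤ d := by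
        have h9 : N ≤ d := by
          have : k < 2 ^ k := Nat.lt_two_pow_self
          omega
        exact_mod_cast h9
      have hd0 : (0 : ℝ) < d := by linarith
      calc (N : ℝ) * L ≤ (d : ℝ) * ((1 / d) / (1 / 2)) := by
            have h10 : 0 ≤ (1 / (d : ℝ)) / (1 / 2) := by positivity
            have h11 : (N : ℝ) * L ≤ (N : ℝ) * ((1 / d) / (1 / 2)) :=
              mul_le_mul_of_nonneg_left h7 (by linarith)
            exact h11.trans (mul_le_mul_of_nonneg_right h8 h10)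
        _ = 2 := by field_simp
    have h0 : (0 : ℝ) ≤ (bcount b d k N : ℝ) := Nat.cast_nonneg _
    have hCn : 0 ≤ |C| * (√(N : ℝ) * (k : ℝ) ^ ε) := by positivity
    constructor
    · linarith
    · linarith [hm.2]

end Pool.Agent.Ben
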