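import Pool.Agent.Ben.Defs
import Pool.Agent.DBN.Defs2

/-!
# LH and Benford's law: the blocks

Every block is a `def T_XXX : Prop`. Prove `theorem XXX : T_XXX` (hypotheses = earlier blocks where
stated) in a file `Pool/Agent/Ben/P_XXX.lean` that imports `Pool.Agent.Ben.Targets`.
-/

set_option autoImplicit false

namespace Pool.Agent.Ben

open Complex MeasureTheory Set

/-! ## A. Forward direction -/

/-- Mellin transform of the cutoff `rho N`. Proof: `rho N` is bounded, continuous and vanishes for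
`x > N + 1`, so convergence for `Re s > 0`; split the integral at `N` and `N + 1`:
`∫_0^N x^(s-1) = N^s / s`, `∫_N^(N+1) (N + 1 - x) x^(s-1) dx = (N+1) ((N+1)^s - N^s) / s
 - ((N+1)^(s+1) - N^(s+1)) / (s+1)`; the sum is `((N+1)^(s+1) - N^(s+1)) / (s (s+1))`. -/
def T_MEL : Prop := ∀ N : ℕ, 1 ≤ N → ∀ s : ℂ, 0 < s.re →
  MellinConvergent (fun x => (rho N x : ℂ)) s ∧ mellin (fun x => (rho N x : ℂ)) s = RR N s

/-- Two bounds for `RR N s`: the trivial one, and `x ↦ x^(s+1)` has derivative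
`(s+1) x^s` with norm `‖s+1‖ x^(Re s) ≤ ‖s+1‖ (N+1)^(Re s)` on `[N, N+1]`. -/
def T_RB : Prop := ∀ N : ℕ, 1 ≤ N → ∀ s : ℂ, 0 < s.re →
  ‖RR N s‖ ≤ 2 * (N + 1 : ℝ) ^ (s.re + 1) / (‖s‖ * ‖s + 1‖) ∧
  ‖RR N s‖ ≤ (N + 1 : ℝ) ^ s.re / ‖s‖

/-- Mellin inversion on the line `Re s = σ` (`mellin_inversion`, `mellinInv`; `rho N` is
continuous; integrability from the first bound of `T_RB`, which is `O(1 / (1 + v²))`). -/
def T_INV : Prop := T_MEL → T_RB → ∀ N : ℕ, 1 ≤ N → ∀ σ : ℝ, 0 < σ →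
  Integrable (fun v : ℝ => RR N (σ + v * I)) ∧ ∀ x : ℝ, 0 < x →
    (rho N x : ℂ) = (1 / (2 * Real.pi) : ℝ) *
      ∫ v : ℝ, RR N (σ + v * I) * (x : ℂ) ^ (-(σ + v * I) : ℂ)

/-- The cut off sum in terms of `ζ(s) - 1/(s-1)` on the line `Re s = 2`. Proof: for natural
`n ≥ 1`, `rho N n = 1` if `n ≤ N` and `0` otherwise, so the left hand side is
`∑' n, rho N n n^(-iT)`. Insert `T_INV` with `σ = 2` and exchange (`∑ n^(-2) < ∞`,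
`integral_tsum` or `hasSum_integral_of_summable_integral_norm`); `∑ n^(-s) = ζ(s)`
(`zeta_eq_tsum_one_div_nat_cpow`), `s = 2 + i (T + v)`. In the same way (Fubini on
`(1, ∞) × ℝ`) `∫_1^∞ rho(x) x^(-iT) dx = (1/2π) ∫ RR(2+iv) (∫_1^∞ x^(-2-i(T+v)) dx) dv`, inner
integral `= 1 / (s - 1)`, and `rho N x = 0` for `x ≥ N + 1`. -/
def T_SUM : Prop := T_INV → T_MEL → T_RB → ∀ N : ℕ, 1 ≤ N → ∀ T : ℝ,
  ∑ n ∈ Finset.Icc 1 N, (n : ℂ) ^ (-(T * I) : ℂ) =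
    (∫ x in (1 : ℝ)..(N + 1), (rho N x : ℂ) * (x : ℂ) ^ (-(T * I) : ℂ)) +
    (1 / (2 * Real.pi) : ℝ) * ∫ v : ℝ, RR N (2 + v * I) *
      (riemannZeta (2 + (T + v : ℝ) * I) - 1 / (1 + (T + v : ℝ) * I))

/-- Shift of a line of integration. Proof: adapt `shift` of `Pool/Agent/CHN/RSH.lean` (same
statement with the bound `(1 + y²)⁻¹`); rectangles `[a, b] × [-Y, Y]`, the horizontal sides are
`≤ (b - a) M (1 + Y)^(-3/2) → 0`. -/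
def T_SHF : Prop := ∀ (f : ℂ → ℂ) (a b M : ℝ), a ≤ b →
  (∀ s : ℂ, a ≤ s.re → s.re ≤ b → DifferentiableAt ℂ f s) →
  (∀ c y : ℝ, a ≤ c → c ≤ b → ‖f (c + y * I)‖ ≤ M * (1 + |y|) ^ (-(3 / 2) : ℝ)) →
  ∫ y : ℝ, f (a + y * I) = ∫ y : ℝ, f (b + y * I)

/-- `ζ(s) - 1/(s-1)` extended over `s = 1`, with a bound in the strip. Proof: put
`K s = 1 - s * mellin f1 s` with `f1` of `Pool/Agent/NBL/Mel.lean` (`f1_diff`, `f1_all`: for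
`Re s > 0`, `s (s-1) mellin f1 s = s - riemannZeta₁ s`, `riemannZeta₁ s = (s-1) ζ(s)` for
`s ≠ 1`). Bound: for `|Im s| ≥ 2` from `mu_unif` (`Pool/Agent/DBN/Mu.lean`) applied to
`a σ = max (|σ - 1/2| / 2) (1/4) - (σ - 1/2)/2`, `mu_quarter_exp` in `Pool/Agent/DBN/ZA.lean`
(so `≤ 1/2 ` for `1/2 ≤ σ ≤ 2`), and conjugation for negative imaginary part; for `|Im s| ≤ 2` by
compactness (`K` is continuous on `1/2 ≤ Re s ≤ 2, |Im s| ≤ 2`). -/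
def T_KB : Prop := ∃ K : ℂ → ℂ, (∀ s : ℂ, 0 < s.re → DifferentiableAt ℂ K s) ∧
  (∀ s : ℂ, 0 < s.re → s ≠ 1 → K s = riemannZeta s - 1 / (s - 1)) ∧
  ∃ C : ℝ, ∀ s : ℂ, 1 / 2 ≤ s.re → s.re ≤ 2 → ‖K s‖ ≤ C * (1 + |s.im|) ^ (1 / 2 : ℝ)

/-- The formula on the critical line. Proof: `T_SHF` with `a = 1/2`, `b = 2`,
`f s = RR N s * K (s + iT)`; the bound: `‖RR N s‖ ≤ C_N (1 + |Im s|)^(-2)` (first bound of
`T_RB`; `‖s‖, ‖s + 1‖ ≥ (1 + |Im s|) / 3`) and `‖K (s + iT)‖ ≤ C (1 + |Im s + T|)^(1/2)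
≤ C (1 + |T|)^(1/2) (1 + |Im s|)^(1/2)`. `RR N` is differentiable for `Re s > 0`. -/
def T_FORM : Prop := T_SUM → T_INV → T_MEL → T_RB → T_SHF → T_KB → ∀ N : ℕ, 1 ≤ N → ∀ T : ℝ,
  ∑ n ∈ Finset.Icc 1 N, (n : ℂ) ^ (-(T * I) : ℂ) =
    (∫ x in (1 : ℝ)..(N + 1), (rho N x : ℂ) * (x : ℂ) ^ (-(T * I) : ℂ)) +
    (1 / (2 * Real.pi) : ℝ) * ∫ v : ℝ, RR N (1 / 2 + v * I) *
      (riemannZeta (1 / 2 + (T + v : ℝ) * I) - 1 / (-1 / 2 + (T + v : ℝ) * I))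

/-- The pole term: integration by parts, or split at `N`: `∫_1^N x^(-iT) dx =
(N^(1-iT) - 1)/(1-iT)`, `∫_N^(N+1) (N+1-x) x^(-iT) dx = (N+1) ((N+1)^(1-iT) - N^(1-iT))/(1-iT) -
((N+1)^(2-iT) - N^(2-iT))/(2-iT)`; or simply `|∫_N^(N+1)| ≤ 1` and `|∫_1^N| ≤ (N + 1) / |T|`. -/
def T_POLE : Prop := ∀ N : ℕ, 1 ≤ N → ∀ T : ℝ, 1 ≤ T →
  ‖∫ x in (1 : ℝ)..(N + 1), (rho N x : ℂ) * (x : ℂ) ^ (-(T * I) : ℂ)‖ ≤ (N + 1) / T + 1

/-- LH gives square root cancellation. Proof: `T_FORM` and `T_POLE`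
(`(N + 1)/T + 1 ≤ 2 K + 1 ≤ (2 K + 1) √N T^ε` as `N + 1 ≤ 2 N ≤ 2 K T`). In the integral
`‖ζ - 1/(…)‖ ≤ C (1 + |T + v|)^ε' + 2 ≤ C' (1 + T)^ε' (1 + |v|)^ε'`, `ε' = min ε 1 / 8`. The
minimum of the two bounds of `T_RB` at `Re s = 1/2` is at most (`min a b ≤ a^(1-θ) b^θ`)
`(N+1)^(1/2) (2 (N+1))^θ / (‖s‖ ‖s+1‖^θ) ≤ C (N+1)^(1/2 + θ) (1 + |v|)^(-1-θ)`, `θ = 2 ε'`, and
`∫ (1 + |v|)^(-1-θ+ε') dv < ∞`. The power `(N+1)^θ ≤ (2 K T)^θ` is `≤ C T^(2 ε')`. -/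
def T_EXPS : Prop := T_FORM → T_SUM → T_INV → T_MEL → T_RB → T_SHF → T_KB → T_POLE → LH →
  ∀ ε : ℝ, 0 < ε → ∀ K : ℝ, 0 < K → ∃ C : ℝ, ∀ T : ℝ, 1 ≤ T → ∀ N : ℕ, 1 ≤ N → (N : ℝ) ≤ K * T →
    ‖∑ n ∈ Finset.Icc 1 N, (n : ℂ) ^ (-(T * I) : ℂ)‖ ≤ C * √(N : ℝ) * T ^ ε

/-- Fourier series of `Φ(x) = ({x}² - {x} + 1/6) / 2`: `Φ(x) = ∑_{h ≥ 1} cos(2πhx) / (2π²h²)`.
Mathlib: `hasSum_one_div_nat_pow_mul_cos` with `k = 1` on `[0, 1]` (Bernoulli polynomial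
`B_2 = x² - x + 1/6`), then periodicity. -/
def T_PHI : Prop := ∀ x : ℝ, HasSum
  (fun h : ℕ => Real.cos (2 * Real.pi * (h + 1) * x) / (2 * Real.pi ^ 2 * (h + 1 : ℝ) ^ 2))
  ((Int.fract x ^ 2 - Int.fract x + 1 / 6) / 2)

/-- Sawtooth between difference quotients of `Φ`: for `0 ≤ u ≤ δ ≤ 1`, `{x - u} ≥ {x} - u` and
`{x + u} ≤ {x} + u`; integrate over `u ∈ [0, δ]` (`Φ` is an antiderivative of `psi`; or check the
two inequalities by cases `{x} < δ`, `{x} ≥ δ` as polynomial inequalities). -/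
def T_SAW : Prop := ∀ x δ : ℝ, 0 < δ → δ ≤ 1 →
  psi x ≤ ((Int.fract x ^ 2 - Int.fract x + 1 / 6) / 2 -
    (Int.fract (x - δ) ^ 2 - Int.fract (x - δ) + 1 / 6) / 2) / δ + δ / 2 ∧
  ((Int.fract (x + δ) ^ 2 - Int.fract (x + δ) + 1 / 6) / 2 -
    (Int.fract x ^ 2 - Int.fract x + 1 / 6) / 2) / δ - δ / 2 ≤ psi x

/-- Erdős–Turán type inequality for the sawtooth. Proof: sum `T_SAW` over the points `x n + c`,
insert `T_PHI`; `cos(2πhy) - cos(2πh(y-δ)) = Re (e(hy) (1 - e(-hδ)))` and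
`‖1 - e(-hδ)‖ ≤ min 2 (2πhδ)`, so the term of frequency `h` is at most
`(1/δ) (1/(2π²h²)) min(2, 2πhδ) ‖∑ e(h x n)‖ = min(1/(π²h²δ), 1/(πh)) ‖…‖`. (`tsum` over `ℕ`
with `h + 1`; summable since `≤ N / (π² h² δ)`.) -/
def T_ET : Prop := T_PHI → T_SAW → ∀ (N : ℕ) (x : ℕ → ℝ) (c δ : ℝ), 0 < δ → δ ≤ 1 →
  |∑ n ∈ Finset.Icc 1 N, psi (x n + c)| ≤ N * δ / 2 +
    ∑' h : ℕ, min (1 / (Real.pi * (h + 1))) (1 / (Real.pi ^ 2 * (h + 1) ^ 2 * δ)) *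
      ‖∑ n ∈ Finset.Icc 1 N, e ((h + 1) * x n)‖

/-- LH gives the discrepancy of `t log n`. Proof: `T_ET` with `x n = t log n`, `δ = 1/√N`:
`e(h t log n) = n^(2πi h t)`, conjugate of `n^(-iT)` with `T = 2π h t ≥ 1`, `N ≤ K t ≤ K T`, so
`‖∑‖ ≤ C √N (2πht)^ε'`, `ε' = min ε 1 / 8`. `min(1/(πh), 1/(π²h²δ)) ≤ h^(-1-θ) δ^(-θ)` with
`θ = 2 ε'` (`min a b ≤ a^(1-θ) b^θ`), `∑ h^(-1-θ+ε') < ∞`, `δ^(-θ) = N^(ε') ≤ (K t)^ε'`. -/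
def T_FWD : Prop := T_ET →
  (∀ ε : ℝ, 0 < ε → ∀ K : ℝ, 0 < K → ∃ C : ℝ, ∀ T : ℝ, 1 ≤ T → ∀ N : ℕ, 1 ≤ N → (N : ℝ) ≤ K * T →
    ‖∑ n ∈ Finset.Icc 1 N, (n : ℂ) ^ (-(T * I) : ℂ)‖ ≤ C * √(N : ℝ) * T ^ ε) → T_PHI → T_SAW →
  ∀ ε : ℝ, 0 < ε → ∀ K : ℝ, 0 < K → ∃ C : ℝ, ∀ t : ℝ, 1 ≤ t → ∀ N : ℕ, 1 ≤ N → (N : ℝ) ≤ K * t →
    ∀ c : ℝ, |∑ n ∈ Finset.Icc 1 N, psi (t * Real.log n + c)| ≤ C * √(N : ℝ) * t ^ ε

/-- the conclusion of `T_FWD` -/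
def Disc : Prop :=
  ∀ ε : ℝ, 0 < ε → ∀ K : ℝ, 0 < K → ∃ C : ℝ, ∀ t : ℝ, 1 ≤ t → ∀ N : ℕ, 1 ≤ N → (N : ℝ) ≤ K * t →
    ∀ c : ℝ, |∑ n ∈ Finset.Icc 1 N, psi (t * Real.log n + c)| ≤ C * √(N : ℝ) * t ^ ε

/-- The mantissa condition through fractional parts. For `n ≥ 1`, `x > 0`:
`log_g (n^x) = (x / log g) log n =: y`, and `a g^m ≤ g^y < b g^m` for some `m ∈ ℤ` iff
`fract (y - log_g a) < log_g b - log_g a` (take `m = ⌊y - log_g a⌋`; conversely `m` must be this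
floor, as `0 < log_g b - log_g a < 1`). Then the indicator minus `log_g (b/a)` is
`psi (y - log_g b) - psi (y - log_g a)`: with `z = y - log_g a`, `β = log_g(b/a)`, if
`fract z < β` then `fract (z - β) = fract z - β + 1`, otherwise `fract (z - β) = fract z - β`.
So the count is a sum of sawtooth values. -/
def T_MANT : Prop := ∀ g a b : ℝ, 1 < g → 0 < a → a < b → b < g * a → ∀ x : ℝ, 0 < x → ∀ N : ℕ,
  (count g a b x N : ℝ) - N * Real.logb g (b / a) =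
    ∑ n ∈ Finset.Icc 1 N, (psi (x / Real.log g * Real.log n - Real.logb g b) -
      psi (x / Real.log g * Real.log n - Real.logb g a))

/-- The number of digits: `len g m = ⌊log_g m⌋ + 1` for `m ≥ 1`
(`Nat.digits_len`: `(digits b n).length = b.log n + 1`; `Nat.log` and `Int.floor (logb)`,
`Real.floor_logb_natCast`). With `t = k / log g`: `∑ len (n^k) - len ((N!)^k) - N/2 =
- ∑ psi (t log n) + {t log N!} - 1`. -/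
def T_LEN : Prop := ∀ g k N : ℕ, 2 ≤ g → 1 ≤ k → 1 ≤ N →
  ∑ n ∈ Finset.Icc 1 N, (len g (n ^ k) : ℝ) - len g (N.factorial ^ k) - N / 2 =
    -∑ n ∈ Finset.Icc 1 N, psi (k / Real.log g * Real.log n) +
      Int.fract (k / Real.log g * Real.log N.factorial) - 1

/-- Benford's law from `Disc`. Proof: `T_MANT`, `t = x / log g`. If `t ≥ 1` use `Disc` with
`K = log g` (`N ≤ x = t log g`), `t^ε ≤ C_g x^ε`. If `t < 1` then `N ≤ x < log g`, the left hand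
side is `≤ 2 N ≤ 2 √(log g) √N` and `x ≥ 1`. -/
def T_BENF : Prop := T_MANT → Disc → ∀ g a b : ℝ, 1 < g → 0 < a → a < b → b < g * a →
  Benford g a b

/-- Lengths from `Disc`. Proof: `T_LEN`, `t = k / log g`; `g^N ≤ 2^k` gives
`N ≤ t log 2 ≤ t`, hence `t ≥ 1`; `Disc` with `K = 1`, `c = 0`; `t ≤ k / log 2 ≤ 2 k`. -/
def T_LENF : Prop := T_LEN → Disc → Lengths

/-! ## B. Backward direction -/

/-- The windowed integral of an observable. Proof: `J(x) = ∫ G(x + u L) e(-(u y)) w(u) du` is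
continuous (substitute `v = u + x / L`; dominated convergence) and of period one, with Fourier
coefficients `coef G h * ∫ e(h u L) e(-(u y)) w(u) du` (Fubini, and `∫_0^1 G(x + a) e(-hx) dx =
e(ha) coef G h` by periodicity), and `∫ e(u z) w(u) du = exp(-z²/4) / (2√π)`
(`fourierIntegral_gaussian`-type lemma) with `z = h L - y`. Summable by `dec` (or `‖coef‖ ≤ B`)
and the Gaussian factor, so `J(x) = ∑ h, ĉ_h e(h x)` (Mathlib: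
`hasSum_fourier_series_apply_of_summable` on `AddCircle 1`). Take `x = t L`. -/
def T_FOU : Prop := ∀ (G : ℝ → ℝ) (B : ℝ), Adm G B → ∀ L t y : ℝ, 0 < L →
  Summable (fun h : ℤ => ‖coef G h‖ * Real.exp (-(h * L - y) ^ 2 / 4)) ∧
  ∫ u : ℝ, (G ((t + u) * L) : ℂ) * e (-(u * y)) * w u =
    (1 / (2 * √Real.pi) : ℝ) * ∑' h : ℤ, coef G h * e (h * (t * L)) *
      (Real.exp (-(h * L - y) ^ 2 / 4) : ℝ)

/-- The frequencies other than `1`. For `h ≤ -1` and `y ≥ 0`: `(hL - y)² ≥ h²L²`, and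
`X²/4 ≥ 4X - 16` with `X = |h| L`, `L = log n ≥ log 2`, gives
`exp(-h²L²/4) ≤ e^16 n^(-2) exp(-|h|)` (as `4|h|L ≥ 2L + |h|`); sum over `n, h` is `≤ C`. For
`h ≥ 2`: `z²/4 ≥ |z| - 1`, so the term is `≤ e · exp(-|h log n - y|)`; for fixed `h`,
`∑_{n ≥ 1} exp(-|h log n - y|) ≤ e^(y/h) + ∑_{n > e^(y/h)} e^y n^(-h) ≤ 2 e^(y/h) + 1
≤ 3 e^(y/2)`; use this for `h ≤ 2 y / log 2 + 2` and for larger `h`
`∑_{n ≥ 2} e^y n^(-h) ≤ 4 e^y 2^(-h)`, with sum over these `h` at most `8`. -/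
def T_ERR : Prop := ∃ C : ℝ, ∀ y : ℝ, 0 ≤ y → ∀ M : ℕ,
  ∑ n ∈ Finset.Icc 2 M, ∑' h : ℤ, (if h = 0 ∨ h = 1 then 0 else
    Real.exp (-(h * Real.log n - y) ^ 2 / 4) / |(h : ℝ)|) ≤ C * Real.exp (y / 2) * (1 + y)

/-- All frequencies for `y = 0`: same bound `exp(-h²L²/4) ≤ e^16 n^(-2) exp(-|h|)`. -/
def T_ERZ : Prop := ∃ C : ℝ, ∀ M : ℕ,
  ∑ n ∈ Finset.Icc 2 M, ∑' h : ℤ, (if h = 0 then 0 else
    Real.exp (-(h * Real.log n) ^ 2 / 4) / |(h : ℝ)|) ≤ C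

/-- The mean over the window is bounded. Proof: `T_FOU` with `y = 0`, `L = log n`, for `2 ≤ n`
(coefficients `≤ B / |h|`, `coef G 0 = 0`), `T_ERZ`; for `n = 1` the argument is `0` and the
integral is `G 0 / (2 √π)`. Exchange of the finite sum and the integral. -/
def T_MEAN : Prop := T_FOU → T_ERZ → ∃ C : ℝ, 0 ≤ C ∧ ∀ (G : ℝ → ℝ) (B : ℝ), Adm G B →
  ∀ (t : ℝ) (M : ℕ), |∫ u : ℝ, (∑ n ∈ Finset.Icc 1 M, G ((t + u) * Real.log n)) * w u| ≤ C * B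

/-- The frequency one is isolated. Proof: multiply `F(t + u) = ∑ G((t+u) log n)` by
`e(-(u y)) w(u)` and integrate; `T_FOU` for `n ≥ 2`; the terms `h ≠ 0, 1` are bounded by
`B · T_ERR`, the term `h = 1` is `coef G 1 e(t log n) exp(-(log n - y)²/4) / (2√π)`; for `n = 1`
the integral is at most `B` and the missing term of the main sum at most `‖coef G 1‖ ≤ B`.
Finally `‖∫ F e w‖ ≤ ∫ |F| w`. -/
def T_MAIN : Prop := T_FOU → T_ERR → ∃ C : ℝ, 0 ≤ C ∧ ∀ (G : ℝ → ℝ) (B : ℝ), Adm G B →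
  ∀ (t y : ℝ) (M : ℕ), 0 ≤ y →
    ‖coef G 1‖ * ‖∑ n ∈ Finset.Icc 1 M, e (t * Real.log n) *
        (Real.exp (-(Real.log n - y) ^ 2 / 4) : ℝ)‖ ≤
      C * (∫ u : ℝ, |∑ n ∈ Finset.Icc 1 M, G ((t + u) * Real.log n)| * w u) +
        C * B * Real.exp (y / 2) * (1 + y)

/-- A one-sided bound gives an `L¹` bound. Proof: `|F| = 2 F⁺ - F`, `T_MEAN` for the second term.
For `|u| ≤ t / 2` the hypothesis at `t + u ∈ [t/2, 3t/2]` (if `t ≥ 2`; `N ≤ κ t / 2 ≤ κ (t+u)`)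
gives `F⁺(t+u) ≤ |C| √N (3t/2)^ε`; for `|u| > t/2` use `|F| ≤ B N` and
`∫_{|u| > t/2} w ≤ C exp(-π² t²/2)`, so this part is `≤ C B N exp(-t) ≤ C`. For `1 ≤ t < 2`
everything is bounded (`N ≤ κ`). -/
def T_L1 : Prop := T_MEAN → T_FOU → T_ERZ → ∀ (G : ℝ → ℝ) (B κ : ℝ), Adm G B → 0 < κ →
  Upper G κ → ∀ ε : ℝ, 0 < ε → ∃ C : ℝ, ∀ t : ℝ, 1 ≤ t → ∀ N : ℕ, 1 ≤ N → (N : ℝ) ≤ κ / 2 * t →
    ∫ u : ℝ, |∑ n ∈ Finset.Icc 1 N, G ((t + u) * Real.log n)| * w u ≤ C * √(N : ℝ) * t ^ ε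

/-- the Gaussian sums of length `N` with the cutoff `M`, for `M ≤ κ t` -/
def GaussLe (κ : ℝ) : Prop := ∀ ε : ℝ, 0 < ε → ∃ C : ℝ, ∀ t : ℝ, 1 ≤ t → ∀ M : ℕ, 1 ≤ M →
  (M : ℝ) ≤ κ * t → ∀ N : ℝ, 1 ≤ N → N ≤ M →
    ‖∑ n ∈ Finset.Icc 1 M, e (t * Real.log n) *
      (Real.exp (-(Real.log n - Real.log N) ^ 2 / 4) : ℝ)‖ ≤ C * √(M : ℝ) * t ^ ε

/-- Proof: `T_MAIN` with `y = log N`, `e^(y/2) = √N ≤ √M`, `1 + y ≤ C t^ε` (`N ≤ κ t`), `T_L1`,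
divide by `‖coef G 1‖ > 0`. -/
def T_GAU : Prop := T_MAIN → T_MEAN → T_L1 → T_FOU → T_ERR → T_ERZ →
  ∀ (G : ℝ → ℝ) (B κ : ℝ), Adm G B → 0 < κ → coef G 1 ≠ 0 → Upper G κ → GaussLe (κ / 2)

/-- The Gaussian tail: if `M + 1 ≥ N T^d` then for large `T` (in terms of `d`)
`∑_{n > M} exp(-(log(n/N))²/4) ≤ N / T`. Proof: for `n ≥ N T^d`, `x = log (n/N) ≥ d log T`, so
`x²/4 ≥ x d log T / 4 ≥ P x` with `P = 2 + 1/d` as soon as `d log T ≥ 4 P`; the sum is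
`≤ ∑_{n > M} (N/n)^P ≤ (N/(M+1))^(P-2) ∑ N²/n² ≤ T^(-d(P-2)) · N² · 2/(M+1)`
`≤ T^(-1) · 2 N T^(-d)` (with `∑_{n > M} 1/n² ≤ 2/(M+1)`), and `2 T^(-d) ≤ 1` for large `T`. -/
def T_TAIL : Prop := ∀ d : ℝ, 0 < d → ∃ T₀ : ℝ, ∀ T N : ℝ, T₀ ≤ T → 1 ≤ N → ∀ M : ℕ,
  N * T ^ d ≤ M + 1 →
    Summable (fun n : ℕ => Real.exp (-(Real.log ((n : ℝ) + M + 1) - Real.log N) ^ 2 / 4)) ∧
    ∑' n : ℕ, Real.exp (-(Real.log ((n : ℝ) + M + 1) - Real.log N) ^ 2 / 4) ≤ N / T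

/-- The smoothed zeta sums. Proof: let `0 ≤ b < 1`, `ε > 0`; choose
`δ = d = min (ε/2) ((1 - b)/4)` and so on. Completing the square,
`n^(-1/2) exp(-(log(n/N))²/4) = N^(-1/2) e^(1/4) exp(-(log n - log (N/e))²/4)`. If
`N ≤ e T^ε'` use `norm_zsum_le` (`‖zsum N T‖ ≤ C N`, `Pool/Agent/DBN/WinSumC.lean`). Otherwise
`N₁ = N/e ≥ 1`, `M = ⌈N₁ T^d⌉`, `t = T/(2π)`; `M ≤ κ t` for large `T` since
`N ≤ T^(b+δ)`, `b + δ + d < 1`; `e(t log n) = n^(iT)`, the conjugate of `n^(-iT)`; `GaussLe` gives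
`C √M t^ε' ≤ C' √N T^(d/2 + ε')`, and `T_TAIL` bounds the terms `n > M` by `N/T ≤ √N`. Divide by
`√N`. For bounded `T` use `norm_zsum_le` again. -/
def T_SUML : Prop := T_TAIL → ∀ κ : ℝ, 0 < κ → GaussLe κ → ∀ b : ℝ, 0 ≤ b → b < 1 →
  Pool.Agent.DBN.SumLe b 0

/-- Proof: `SumLe b η` for all `b ∈ [0, 1]` and every `η > 0`: for `b < 1` by hypothesis
(`SumLe.mono`), for `b = 1` `sumLe_three` (`Pool/Agent/DBN/SumThree.lean`): `SumLe 1 0`. Then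
`growth_iff_sum` (`Pool/Agent/DBN/WinGrow.lean`) with `c = 0`, `A = 0`, `growth_zero`
(`Pool/Agent/DBN/Good.lean`) and `lh_iff` (`Pool/Agent/DBN/Const.lean`). -/
def T_LH : Prop := (∀ b : ℝ, 0 ≤ b → b < 1 → Pool.Agent.DBN.SumLe b 0) → LH

/-- The observable of a mantissa interval, `G y = psi (y - b') - psi (y - a')`, `0 < b' - a' < 1`,
is admissible with `B = 2` and `coef G 1 ≠ 0`: `coef psi h = -1/(2πi h)` for `h ≠ 0`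
(integrate `(x - 1/2) e(-hx)` by parts), `coef psi 0 = 0`, and a translation by `a'` multiplies by
`e(-(h a'))`. So `coef G 1 = -(e(-b') - e(-a'))/(2πi)`, which is `0` only if `b' - a' ∈ ℤ`. -/
def T_ADMB : Prop := ∀ a' b' : ℝ, a' < b' → b' < a' + 1 →
  Adm (fun y => psi (y - b') - psi (y - a')) 2 ∧
  coef (fun y => psi (y - b') - psi (y - a')) 1 ≠ 0

/-- The sawtooth and its negative are admissible. -/
def T_ADMP : Prop := (Adm psi 1 ∧ coef psi 1 ≠ 0) ∧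
  Adm (fun y => -psi y) 1 ∧ coef (fun y => -psi y) 1 ≠ 0

/-- Proof: for `t ≥ 1`, `N ≤ κ t` with `κ = log g`, put `x = t log g`, so `N ≤ x`, and
`x / log g = t`; `T_MANT`; `x^ε ≤ C t^ε`. -/
def T_BENB : Prop := T_MANT → ∀ g a b : ℝ, 1 < g → 0 < a → a < b → b < g * a →
  BenfordUpper g a b →
    Upper (fun y => psi (y - Real.logb g b) - psi (y - Real.logb g a)) (Real.log g)

/-- From integers to real `t`. Proof: let `t ≥ 1`, `1 ≤ N ≤ t / 4`. Take `g = ⌈exp (N²)⌉ + 1`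
(so `log g ≥ N²`, `log g ≤ N² + 2`) and `k = ⌈t log g⌉`, `t' = k / log g`,
`0 ≤ t' - t ≤ 1 / log g ≤ 1 / N²`. Then `g^N ≤ 2^k` as `N log g ≤ (t/4) log g ≤ k log 2`, and
`k ≤ t (N² + 2) + 1 ≤ 4 t³`. By `T_LEN` and `LengthsUpper`,
`-∑ psi (t' log n) ≤ |C| √N k^ε + 1`, `k^ε ≤ C t^(3ε)`. And `psi (x + δ) ≤ psi x + δ` for
`δ ≥ 0` (`fract (x+δ) ≤ fract x + δ`), so `-psi (t log n) ≤ -psi (t' log n) + (t' - t) log n`,
with `∑_{n ≤ N} (t' - t) log n ≤ N · log N / N² ≤ 1`. -/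
def T_LENU : Prop := T_LEN → LengthsUpper → Upper (fun y => -psi y) (1 / 4)

/-- The other side: `t' = k / log g ≤ t` with `k = ⌊t log g⌋`, and
`psi (t log n) ≤ psi (t' log n) + (t - t') log n`. -/
def T_LENL : Prop := T_LEN → LengthsLower → Upper psi (1 / 4)

end Pool.Agent.Ben
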