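import Pool.Agent.Ben.Targets9

/-!
# All lines `Re = s`, `1/2 ≤ s < 1`: the growth function of zeta and Benford's law

Every `def S_XXX : Prop` is a conclusion; the theorem to prove is `p_SXXX` with the hypotheses
named in the docstring (file `Pool/Agent/Ben/P_SXXX.lean`, namespace `Pool.Agent.Ben`, all helper
lemmas private or with the prefix `SXXX_`). The case `s = 1/2` is proved in the files named in the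
docstrings: copy them (their lemmas are often private) and replace `√N` by `N ^ s`. The suffix
`P` means pointwise, `Q` in the mean of order `q`.
-/

set_option autoImplicit false

namespace Pool.Agent.Ben

open Complex MeasureTheory Set

/-! ### from Gaussian sums to zeta -/

/-- `theorem p_SXI : S_XI`. (`Pool.Agent.DBN`, WinUp.lean; see the proof of `flow_eq_win`.)
`flow_zero` and `flow_semi` with `t = 0`: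
`xi (1/2 + h + i T) = π^(-1/2) ∫ e^(-x²) flow (-1) (1/2 + h + i T + x) dx`; substitute
`x = -ω/2 - h` and insert `win_eq`: `win ω T = π^(1/2) e^(-ω²/4) flow (-1) (1/2 + i T - ω/2)`;
`-(ω/2 + h)² + ω²/4 = -h ω - h²`. -/
def S_XI : Prop := ∀ h T : ℝ, Pool.Agent.DBN.xi (1 / 2 + h + T * I) =
  (((2 * Real.pi)⁻¹ * Real.exp (-h ^ 2) : ℝ) : ℂ) *
    ∫ ω : ℝ, (Real.exp (-h * ω) : ℂ) * Pool.Agent.DBN.win ω T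

/-- `theorem p_SPT : S_XI → S_PT`. As `P_MPT.lean` (the case `s = 1/2`). `h = s - 1/2 ∈ [0, 1/2)`,
`L = log T`, `B = 11 L / 20`, `l = log √(T/2π) ≤ L/2`, `Z v = ‖zsum (e^v) (T - π/8)‖`. By `S_XI`,
`‖xi (s + i T)‖ ≤ ∫ e^(h |ω|) ‖win ω T‖ dω`. For `|ω| ≤ B`:
`‖win ω T‖ ≤ C size T (Z (l - |ω|) + T^(-1/20))` (`norm_win_neg`, `win_zsum`), and
`e^(h |ω|) = e^(h l) e^(-h (l - |ω|))`, `e^(h l) ≤ T^(h/2)`, `e^(h B) T^(-1/20) ≤ T^(h/2)`;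
with `v = l - |ω|` the part `v < 0` is `≤ K ∫_{v < 0} e^((1 - h) v) ≤ 2 K` (`norm_zsum_le`). For
`|ω| > B`: `win_far` (`c = 1`, `δ = 1/20`, exponent `1`), `h |ω| ≤ ω²/(8 L) + L/2`, so this part is
`≤ C size T T^(-1) T^(1/2) ∫ e^(-ω²/(8L)) ≤ C size T (1 + L)`. Divide by `T^(h/2) size T`
(`xi_two`, with the factor `T^((s - 1/2)/2)`). -/
def S_PT : Prop := ∀ s : ℝ, 1 / 2 ≤ s → s < 1 → ∃ C T₀ : ℝ, 0 ≤ C ∧ 2 ≤ T₀ ∧ ∀ T : ℝ, T₀ ≤ T →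
  ‖riemannZeta (s + T * I)‖ ≤ C * (1 + Real.log T + ∫ v in (0 : ℝ)..(Real.log T / 2),
    Real.exp (-(s - 1 / 2) * v) * ‖Pool.Agent.DBN.zsum (Real.exp v) (T - Real.pi / 8)‖)

/-- growth of zeta on the line `Re = s`, pointwise -/
def ZP (s a : ℝ) : Prop := ∀ ε : ℝ, 0 < ε → ∃ C : ℝ, ∀ t : ℝ,
  ‖riemannZeta (s + t * I)‖ ≤ C * (1 + |t|) ^ (a + ε)

/-- growth of zeta on the line `Re = s` in the mean of order `q` -/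
def ZQ (q s a : ℝ) : Prop := ∀ ε : ℝ, 0 < ε → ∃ C : ℝ, ∀ T : ℝ, 1 ≤ T →
  ∫ t in T..(2 * T), ‖riemannZeta (s + t * I)‖ ^ q ≤ C * T ^ (1 + q * (a + ε))

/-- `theorem p_SZQ : T_TAIL → S_PT → S_ZQ`. As `P_MZ.lean`: the extra weight
`e^(-(s - 1/2) v) = N^(-(s - 1/2))` turns `N^(-1/2)` into `N^(-s)`, and `GM` gives
`∫ ‖gs‖^q ≤ C M^(s q) T^(1 + q a + ε)` with `M ≤ N T^d`. -/
def S_ZQ : Prop := ∀ q s a κ β : ℝ, 1 ≤ q → 1 / 2 ≤ s → s < 1 → 0 ≤ a → 0 < κ → 1 / 2 < β →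
  β ≤ 1 → GM q s a s κ β → ZQ q s a

/-- `theorem p_SZP : T_TAIL → S_PT → S_ZP`. Pointwise version of `S_ZQ`: for `t = T` large,
`‖zsum N t'‖ ≤ C N^(-1/2) (‖Gaussian sum with M = ⌈N e⁻¹ T^d⌉ terms‖ + 1)` as in `P_MZ.lean` or
`P_GSUML.lean`, `GG` gives `‖..‖ ≤ C M^s T^(a + ε')`, so the integrand in `S_PT` is
`≤ C T^(a + ε' + d)`. For `|t| ≤ T₀` continuity (`s ≠ 1`), for `t < 0` conjugation
(`riemannZeta_conj`, see `P_MAVG.lean`). -/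
def S_ZP : Prop := ∀ s a κ β : ℝ, 1 / 2 ≤ s → s < 1 → 0 ≤ a → 0 < κ → 1 / 2 < β →
  β ≤ 1 → GG s a s κ β → ZP s a

/-! ### from zeta to exponential sums -/

/-- `theorem p_SFORM : T_SUM → T_INV → T_MEL → T_RB → T_SHF → T_KB → S_FORM`. As `P_FORM.lean`
with `s` in place of `1/2`. -/
def S_FORM : Prop := ∀ s : ℝ, 1 / 2 ≤ s → s < 1 → ∀ N : ℕ, 1 ≤ N → ∀ T : ℝ,
  ∑ n ∈ Finset.Icc 1 N, (n : ℂ) ^ (-(T * I) : ℂ) =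
    (∫ x in (1 : ℝ)..(N + 1), (rho N x : ℂ) * (x : ℂ) ^ (-(T * I) : ℂ)) +
    (1 / (2 * Real.pi) : ℝ) * ∫ v : ℝ, RR N (s + v * I) *
      (riemannZeta (s + (T + v : ℝ) * I) - 1 / ((s : ℂ) - 1 + (T + v : ℝ) * I))

/-- `theorem p_SAVG : S_AVG`. As `P_MAVG.lean`. -/
def S_AVG : Prop := ∀ q s a : ℝ, 1 ≤ q → 1 / 2 ≤ s → s < 1 → 0 ≤ a → ZQ q s a →
  ∀ ε : ℝ, 0 < ε → ∃ C : ℝ, 0 ≤ C ∧ ∀ Y : ℝ, 1 ≤ Y →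
    ∫ t in (-Y)..Y, ‖riemannZeta (s + t * I)‖ ^ q ≤ C * Y ^ (1 + q * (a + ε)) ∧
    ∫ t in (-Y)..Y, ‖riemannZeta (s + t * I)‖ ≤ C * Y ^ (1 + (a + ε))

/-- exponential sums, pointwise -/
def EP (s a : ℝ) : Prop :=
  ∀ ε : ℝ, 0 < ε → ∀ K : ℝ, 0 < K → ∃ C : ℝ, ∀ T : ℝ, 1 ≤ T → ∀ N : ℕ, 1 ≤ N → (N : ℝ) ≤ K * T →
    ‖∑ n ∈ Finset.Icc 1 N, (n : ℂ) ^ (-(T * I) : ℂ)‖ ≤ C * (N : ℝ) ^ s * T ^ (a + ε)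

/-- exponential sums in the mean of order `q` -/
def EQ (q s a : ℝ) : Prop :=
  ∀ ε : ℝ, 0 < ε → ∀ K : ℝ, 0 < K → ∃ C : ℝ, ∀ T : ℝ, 1 ≤ T → ∀ N : ℕ, 1 ≤ N → (N : ℝ) ≤ K * T →
    ∫ t in T..(2 * T), ‖∑ n ∈ Finset.Icc 1 N, (n : ℂ) ^ (-(t * I) : ℂ)‖ ^ q ≤
      C * ((N : ℝ) ^ s) ^ q * T ^ (1 + q * (a + ε))

/-- `theorem p_SEP : S_FORM → T_RB → T_POLE → S_EP`. As `P_WEXPS.lean`
(`‖1/(s - 1 + ..)‖ ≤ 1/(1 - s)`, `‖RR N (s + i v)‖ ≤ C N^s min ((1 + |v|)⁻¹) (T (1 + |v|)⁻²)`). -/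
def S_EP : Prop := ∀ s a : ℝ, 1 / 2 ≤ s → s < 1 → 0 ≤ a → a < 1 → ZP s a → EP s a

/-- `theorem p_SEQ : S_FORM → T_RB → T_POLE → S_AVG → M_FAR → S_EQ`. As `P_MEXPS.lean`. -/
def S_EQ : Prop := ∀ q s a : ℝ, 1 ≤ q → 1 / 2 ≤ s → s < 1 → 0 ≤ a → a < 1 → ZQ q s a → EQ q s a

/-! ### from exponential sums to statistics -/

/-- the law for all `C¹` statistics, pointwise -/
def CP (g s a : ℝ) : Prop :=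
  ∀ ε : ℝ, 0 < ε → ∃ C : ℝ, ∀ (f : ℝ → ℝ) (M : ℝ), ContDiff ℝ 1 f → Function.Periodic f 1 →
    (∀ y, |deriv f y| ≤ M) → ∀ x : ℝ, ∀ N : ℕ, 1 ≤ N → (N : ℝ) ≤ x →
      |∑ n ∈ Finset.Icc 1 N, f (Real.logb g ((n : ℝ) ^ x)) - N * ∫ u in (0 : ℝ)..1, f u| ≤
        C * M * (N : ℝ) ^ s * x ^ (a + ε)

/-- the law for all `C¹` statistics in the mean of order `q` -/
def CQ (g q s a : ℝ) : Prop :=
  ∀ ε : ℝ, 0 < ε → ∃ C : ℝ, ∀ (f : ℝ → ℝ) (M : ℝ), ContDiff ℝ 1 f → Function.Periodic f 1 →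
    (∀ y, |deriv f y| ≤ M) → ∀ X : ℝ, 1 ≤ X → ∀ N : ℕ, 1 ≤ N → (N : ℝ) ≤ X →
      ∫ x in X..(2 * X), |∑ n ∈ Finset.Icc 1 N, f (Real.logb g ((n : ℝ) ^ x)) -
        N * ∫ u in (0 : ℝ)..1, f u| ^ q ≤ C * (M * (N : ℝ) ^ s) ^ q * X ^ (1 + q * (a + ε))

/-- `theorem p_SCP : W_COEF → S_CP`. As `P_WSMO.lean`. -/
def S_CP : Prop := ∀ s a : ℝ, 1 / 2 ≤ s → s < 1 → 0 ≤ a → a < 1 / 2 → EP s a →
  ∀ g : ℝ, 1 < g → CP g s a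

/-- `theorem p_SCQ : W_COEF → S_CQ`. As `P_MSMO.lean`. -/
def S_CQ : Prop := ∀ q s a : ℝ, 1 ≤ q → 1 / 2 ≤ s → s < 1 → 0 ≤ a → a < 1 / 2 → EQ q s a →
  ∀ g : ℝ, 1 < g → CQ g q s a

/-- `theorem p_STR : S_TR`, both trivial bounds. As `P_WTRIV.lean` and `P_MTRIV.lean`:
`|..| ≤ M N ≤ M N^s N^(1-s) ≤ M N^s x^a`. -/
def S_TR : Prop := ∀ s a : ℝ, 1 / 2 ≤ s → s < 1 → 1 - s ≤ a → ∀ g : ℝ, 1 < g →
  CP g s a ∧ ∀ q : ℝ, 1 ≤ q → CQ g q s a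

/-- sawtooth sums, pointwise, uniformly in the shift `c` -/
def DP (s : ℝ) : Prop :=
  ∀ g : ℝ, 1 < g → ∀ ε : ℝ, 0 < ε → ∃ C : ℝ, ∀ x : ℝ, ∀ N : ℕ, 1 ≤ N → (N : ℝ) ≤ x → ∀ c : ℝ,
    |∑ n ∈ Finset.Icc 1 N, psi (x / Real.log g * Real.log n + c)| ≤ C * (N : ℝ) ^ s * x ^ ε

/-- sawtooth sums in the mean of order `q`, uniformly in the shift `c` -/
def DQ (q s : ℝ) : Prop :=
  ∀ g : ℝ, 1 < g → ∀ ε : ℝ, 0 < ε → ∃ C : ℝ, ∀ X : ℝ, 1 ≤ X → ∀ N : ℕ, 1 ≤ N → (N : ℝ) ≤ X →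
    ∃ E : ℝ → ℝ, Continuous E ∧
      (∀ x c : ℝ, |∑ n ∈ Finset.Icc 1 N, psi (x / Real.log g * Real.log n + c)| ≤ E x) ∧
      ∫ x in X..(2 * X), E x ^ q ≤ C * ((N : ℝ) ^ s) ^ q * X ^ (1 + q * ε)

/-- `theorem p_SDP : T_PHI → T_SAW → T_ET → S_DP`. As `P_FWD.lean` with `δ = N^(s-1)`,
`t = x / log g`, `K = log g`; for `t < 1`, `N ≤ x < log g` and the sum is at most
`N ≤ N^s (log g)^(1-s)`. -/
def S_DP : Prop := ∀ s : ℝ, 1 / 2 ≤ s → s < 1 → EP s 0 → DP s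

/-- `theorem p_SDQ : T_PHI → T_SAW → T_ET → S_DQ`. As `P_MDISC.lean` with `δ = N^(s-1)`:
`E x = N^s / 2 + ∑_h min (1/(π H)) (N^(1-s)/(π² H²)) S_h x`, the minimum is
`≤ H^(-1-2b) N^(2b(1-s)) ≤ H^(-1-2b) N^b`. -/
def S_DQ : Prop := ∀ q s : ℝ, 1 ≤ q → 1 / 2 ≤ s → s < 1 → EQ q s 0 → DQ q s

/-- the law for all statistics of bounded variation, pointwise -/
def BP (g s : ℝ) : Prop :=
  ∀ ε : ℝ, 0 < ε → ∃ C : ℝ, ∀ f : ℝ → ℝ, Function.Periodic f 1 →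
    BoundedVariationOn f (Icc 0 1) → ∀ x : ℝ, ∀ N : ℕ, 1 ≤ N → (N : ℝ) ≤ x →
      |∑ n ∈ Finset.Icc 1 N, f (Real.logb g ((n : ℝ) ^ x)) - N * ∫ u in (0 : ℝ)..1, f u| ≤
        C * (eVariationOn f (Icc 0 1)).toReal * (N : ℝ) ^ s * x ^ ε

/-- the law for all statistics of bounded variation in the mean of order `q` -/
def BQ (g q s : ℝ) : Prop :=
  ∀ ε : ℝ, 0 < ε → ∃ C : ℝ, ∀ f : ℝ → ℝ, Function.Periodic f 1 →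
    BoundedVariationOn f (Icc 0 1) → ∀ X : ℝ, 1 ≤ X → ∀ N : ℕ, 1 ≤ N → (N : ℝ) ≤ X →
      ∫ x in X..(2 * X), |∑ n ∈ Finset.Icc 1 N, f (Real.logb g ((n : ℝ) ^ x)) -
        N * ∫ u in (0 : ℝ)..1, f u| ^ q ≤
        C * ((eVariationOn f (Icc 0 1)).toReal * (N : ℝ) ^ s) ^ q * X ^ (1 + q * ε)

/-- `theorem p_SBV : V_KOKG → S_BV`, both. As `P_VALL.lean` (now shorter, `DP` covers all
`x ≥ N`; the constant `4 |C|`) and `P_MBVQ.lean`. -/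
def S_BV : Prop := (∀ s : ℝ, DP s → ∀ g : ℝ, 1 < g → BP g s) ∧
  ∀ q s : ℝ, 1 ≤ q → DQ q s → ∀ g : ℝ, 1 < g → BQ g q s

/-- one digit, two-sided, pointwise -/
def LP (j d : ℕ) (s : ℝ) : Prop :=
  ∀ ε : ℝ, 0 < ε → ∃ C : ℝ, ∀ x : ℝ, ∀ N : ℕ, 1 ≤ N → (N : ℝ) ≤ x →
    |(dcount j d x N : ℝ) - N * benf j d| ≤ C * (N : ℝ) ^ s * x ^ ε

/-- one digit, two-sided, in the mean of order `q` -/
def LQ (j d : ℕ) (q s : ℝ) : Prop :=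
  ∀ ε : ℝ, 0 < ε → ∃ C : ℝ, ∀ X : ℝ, 1 ≤ X → ∀ N : ℕ, 1 ≤ N → (N : ℝ) ≤ X →
    ∫ x in X..(2 * X), |(dcount j d x N : ℝ) - N * benf j d| ^ q ≤
      C * ((N : ℝ) ^ s) ^ q * X ^ (1 + q * ε)

/-- `theorem p_SDG : T_MANT → S_DG`, both. As `P_MDGQ.lean` (it bounds `|dcount - N benf|` by
`10^(j+1) * (2 E)` for each `x > 0`). -/
def S_DG : Prop := (∀ s : ℝ, DP s → ∀ j d : ℕ, LP j d s) ∧
  ∀ q s : ℝ, 1 ≤ q → DQ q s → ∀ j d : ℕ, LQ j d q s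

/-! ### one digit, one-sided -/

/-- one digit, upper, pointwise, `N ≤ x ^ β` -/
def UP (j d : ℕ) (β s a : ℝ) : Prop :=
  ∀ ε : ℝ, 0 < ε → ∃ C : ℝ, ∀ x : ℝ, 1 ≤ x → ∀ N : ℕ, 1 ≤ N → (N : ℝ) ≤ x ^ β →
    (dcount j d x N : ℝ) - N * benf j d ≤ C * (N : ℝ) ^ s * x ^ (a + ε)

/-- one digit, lower, pointwise, `N ≤ x ^ β` -/
def DnP (j d : ℕ) (β s a : ℝ) : Prop :=
  ∀ ε : ℝ, 0 < ε → ∃ C : ℝ, ∀ x : ℝ, 1 ≤ x → ∀ N : ℕ, 1 ≤ N → (N : ℝ) ≤ x ^ β →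
    -(C * (N : ℝ) ^ s * x ^ (a + ε)) ≤ (dcount j d x N : ℝ) - N * benf j d

/-- one digit, upper, in the mean of order `q` -/
def UQ (j d : ℕ) (β q s a : ℝ) : Prop :=
  ∀ ε : ℝ, 0 < ε → ∃ C : ℝ, ∀ X : ℝ, 1 ≤ X → ∀ N : ℕ, 1 ≤ N → (N : ℝ) ≤ X ^ β →
    ∫ x in X..(2 * X), (max ((dcount j d x N : ℝ) - N * benf j d) 0) ^ q ≤
      C * ((N : ℝ) ^ s) ^ q * X ^ (1 + q * (a + ε))

/-- one digit, lower, in the mean of order `q` -/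
def DnQ (j d : ℕ) (β q s a : ℝ) : Prop :=
  ∀ ε : ℝ, 0 < ε → ∃ C : ℝ, ∀ X : ℝ, 1 ≤ X → ∀ N : ℕ, 1 ≤ N → (N : ℝ) ≤ X ^ β →
    ∫ x in X..(2 * X), (max (N * benf j d - (dcount j d x N : ℝ)) 0) ^ q ≤
      C * ((N : ℝ) ^ s) ^ q * X ^ (1 + q * (a + ε))

/-- `theorem p_SDB : S_DB`, both. As `P_GDIGB.lean` and `P_MDIGB.lean`
(`(N^s)^q = N^(s q)`, `Real.rpow_mul`). -/
def S_DB : Prop := ∀ (j d : ℕ) (β s a : ℝ), d ≤ 9 → (j = 0 → 1 ≤ d) →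
  ((UP j d β s a ∨ DnP j d β s a) →
    ∃ f : ℝ → ℝ, Measurable f ∧ Function.Periodic f 1 ∧ (∀ y, |f y| ≤ 1) ∧
      ¬ (∃ c : ℝ, ∀ᵐ y, f y = c) ∧ StatUpperG 10 β s a f) ∧
  ∀ q : ℝ, (UQ j d β q s a ∨ DnQ j d β q s a) →
    ∃ f : ℝ → ℝ, Measurable f ∧ Function.Periodic f 1 ∧ (∀ y, |f y| ≤ 1) ∧
      ¬ (∃ c : ℝ, ∀ᵐ y, f y = c) ∧ SM 10 β s q a f

/-! ### unconditional means -/

/-- `theorem p_SHOL : S_HOL`. As `P_MHOL.lean`. -/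
def S_HOL : Prop := ∀ q r s a : ℝ, 1 ≤ q → q ≤ r → 1 / 2 ≤ s → s < 1 → 0 ≤ a → ZQ r s a →
  ZQ q s a

/-- `theorem p_SGK : S_GK`, means of order `2 k` of the Gaussian sums. As `P_MGF.lean` (`k = 2`).
`gs M t y ^ k = ∑_{n ≤ M^k} e (t log n) c_n` with `0 ≤ c_n ≤ C n^ε'` for every `ε' > 0` (induction
on `k`: the product with one more factor has the coefficients
`∑_{m | n} c_m w_(n/m) ≤ #(divisors n) max c`, divisor bound as in `P_MGF.lean`), then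
`MTWO_upper`: `∫ ‖gs‖^(2k) ≤ C M^ε'' M^k (T + 2 M^k (1 + k log M))`. Finally
`M^k ≤ M^(2 k s)` (`s ≥ 1/2`) and
`M^(2k) = M^(2ks) M^(2k(1-s)) ≤ M^(2ks) M² ≤ M^(2ks) T^(2β) ≤ M^(2ks) T^(1 + 2 k a)`
(`s ≥ 1 - 1/k`), `a = max 0 ((2β - 1)/(2k))`. -/
def S_GK : Prop := ∀ k : ℕ, 1 ≤ k → ∀ s : ℝ, 1 / 2 ≤ s → 1 - 1 / (k : ℝ) ≤ s → s < 1 →
  ∀ β : ℝ, 0 < β → β ≤ 1 →
    GM (2 * k) s (max 0 ((2 * β - 1) / (2 * k))) s 1 β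

/-- `theorem p_SZK : S_ZQ → S_GK → S_ZK`. As `P_MZF.lean`: given `ε`, take
`ε' = min (ε/2) (1/8)` and `β = 1/2 + ε'`: `S_GK` gives `GM (2k) s a' s 1 β` with
`a' = 2 ε'/(2k) ≤ ε'`, `S_ZQ` gives `ZQ (2k) s a'`; use it with `ε/2`. -/
def S_ZK : Prop := ∀ k : ℕ, 1 ≤ k → ∀ s : ℝ, 1 / 2 ≤ s → 1 - 1 / (k : ℝ) ≤ s → s < 1 →
  ZQ (2 * k) s 0

end Pool.Agent.Ben
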