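import Pool.Agent.Ben.Targets11

/-!
# The product criterion at a point `z` of the closed unit disc

`∏_{1 < n ≤ N} |1 - z n ^ (i x)| ≤ exp (C N ^ s x ^ (a + ε))`, `0 < |z| ≤ 1`. The case `z = 1` is
`Targets11.lean` (all blocks landed). Every `def N_XXX : Prop` is a conclusion; the theorem to
prove is `p_NXXX` with the hypotheses named in the docstring (file `Pool/Agent/Ben/P_NXXX.lean`,
namespace `Pool.Agent.Ben`, all helper lemmas private or with the prefix `NXXX_`).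
-/

set_option autoImplicit false

namespace Pool.Agent.Ben

open Complex MeasureTheory Set

/-- the statistic `log |1 - z e y|` (in Lean `0` where `z e y = 1`) -/
noncomputable def GZ (z : ℂ) (y : ℝ) : ℝ := Real.log ‖1 - z * e y‖

/-- `theorem p_NZA : L_GA → L_GB → N_ZA`. `z = e c` (`c = arg z / (2 π)`), so
`GZ z y = G0 (y + c)`. `G0` is periodic and locally integrable, `B = ∫_0^1 |GZ z| + |GZ z 0|`, and
`coef (GZ z) h = e (h c) * coef G0 h` (substitution and `Function.Periodic.intervalIntegral_add_eq`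
for the periodic function `G0 v * e (-(h v))`). -/
def N_ZA : Prop := ∀ z : ℂ, ‖z‖ = 1 →
  (∃ B : ℝ, Loc (GZ z) B) ∧ coef (GZ z) 0 = 0 ∧ coef (GZ z) 1 ≠ 0

/-- `theorem p_NZB : N_ZB`. `GZ z` is continuous (`‖1 - z e y‖ ≥ 1 - ‖z‖`) and
`GZ z y = -Re ∑_{h ≥ 1} (z e y)^h / h = -(1/2) ∑ (z^h e (h y) + (conj z)^h e (-h y)) / h`
(`Complex.hasSum_taylorSeries_neg_log`, `Complex.log_re`). Integrate term by term
(`∑ ‖z‖^h < ∞`, `intervalIntegral.hasSum_integral_of_summable_norm`): `coef (GZ z) 0 = 0`,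
`coef (GZ z) 1 = -z / 2`. -/
def N_ZB : Prop := ∀ z : ℂ, z ≠ 0 → ‖z‖ < 1 →
  (∃ B : ℝ, Loc (GZ z) B) ∧ coef (GZ z) 0 = 0 ∧ coef (GZ z) 1 ≠ 0

/-- the product bound at the point `z` -/
def PZ (z : ℂ) (β s a : ℝ) : Prop := ∀ ε : ℝ, 0 < ε → ∃ C : ℝ, ∀ x : ℝ, 1 ≤ x → ∀ N : ℕ, 1 ≤ N →
  (N : ℝ) ≤ x ^ β → ∏ n ∈ Finset.Icc 2 N, ‖1 - z * (n : ℂ) ^ (x * I : ℂ)‖ ≤
    Real.exp (C * (N : ℝ) ^ s * x ^ (a + ε))

/-- the product bound, uniformly on the closed unit disc -/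
def PU (s : ℝ) : Prop := ∀ ε : ℝ, 0 < ε → ∃ C : ℝ, ∀ z : ℂ, ‖z‖ ≤ 1 → ∀ x : ℝ, 1 ≤ x →
  ∀ N : ℕ, 1 ≤ N → (N : ℝ) ≤ x → ∏ n ∈ Finset.Icc 2 N, ‖1 - z * (n : ℂ) ^ (x * I : ℂ)‖ ≤
    Real.exp (C * (N : ℝ) ^ s * x ^ ε)

/-- `theorem p_NFWD : N_FWD`. As `P_LFWD.lean` with `ζ = z n^(i x)`, `‖ζ‖ ≤ 1`. The inequality
`(1 + r) ‖1 - ζ‖ ≤ 2 ‖1 - r ζ‖`, `0 ≤ r ≤ 1`, also holds for `‖ζ‖ = ρ ≤ 1`:
`(1 + r)² (1 - 2 X + ρ²) - 4 (1 - 2 r X + r² ρ²)` is affine in `X = Re ζ ∈ [-ρ, ρ]`, at `X = ρ` it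
is `≤ 0` as `(1 + r) (1 - ρ) ≤ 2 (1 - r ρ)`, at `X = -ρ` as `(1 + r) (1 + ρ) ≤ 2 (1 + r ρ)`
(difference `(1 - r) (1 - ρ) ≥ 0`). The inner sums get the factor `z^h`, `‖z^h‖ ≤ 1`. -/
def N_FWD : Prop := ∀ s : ℝ, 1 / 2 ≤ s → s < 1 → EP s 0 → PU s

/-- `theorem p_NONE : N_ONE`. As `P_LONE.lean`. Exceptional set
`⋃_{n ≥ 2} {t | z * e (t log n) = 1}`, countable (two solutions `t, t'` for the same `n` satisfy
`(t - t') log n ∈ ℤ`; `Complex.exp_eq_exp_iff_exists_int`). The term `n = 1` is the constant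
`GZ z 0`: constant `|C| (2 π)^(a + ε) + |GZ z 0|`, as `N^s t^(a + ε) ≥ 1`. -/
def N_ONE : Prop := ∀ (z : ℂ) (β s a : ℝ), 0 < β → 0 ≤ s → 0 ≤ a → PZ z β s a →
  UpperC (GZ z) 1 β s a

/-- `theorem p_NSM : N_ZB → N_SM`. `g = exp (2 π)`: `logb g (n ^ x) = x log n / (2 π)` and
`e (x log n / (2 π)) = n ^ (i x)`, so `GZ z (logb g (n ^ x)) = log ‖1 - z n^(i x)‖`. `GZ z` is `C¹`
(`‖1 - z e y‖ ≥ 1 - ‖z‖ > 0`; write it as `(1/2) log (1 + ‖z‖² - 2 Re (z e y))`, or as the real part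
of `Complex.log`, `1 - z e y` in `slitPlane`), of period one, `|GZ z ' | ≤ 2 π / (1 - ‖z‖)`, mean
`coef (GZ z) 0 = 0` (`N_ZB`; for `z = 0` the product is one). `CP` bounds the sum over `n ≤ N`;
subtract the term `n = 1` and exponentiate (`Real.log_prod`, no factor vanishes). -/
def N_SM : Prop := ∀ (z : ℂ) (s a : ℝ), ‖z‖ < 1 → 0 ≤ s → 0 ≤ a →
  CP (Real.exp (2 * Real.pi)) s a → PZ z 1 s a

end Pool.Agent.Ben
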