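import Pool.Agent.Ben.Targets

/-!
# LH and Benford's law: uniform version and integer exponents
-/

set_option autoImplicit false

namespace Pool.Agent.Ben

open Complex MeasureTheory Set

/-- Benford's law with square root error, uniformly in all mantissa intervals -/
def BenfordUnif (g : ℝ) : Prop :=
  ∀ ε : ℝ, 0 < ε → ∃ C : ℝ, ∀ x : ℝ, ∀ N : ℕ, 1 ≤ N → (N : ℝ) ≤ x →
    ∀ a b : ℝ, 0 < a → a < b → b ≤ g * a →
      |(count g a b x N : ℝ) - N * Real.logb g (b / a)| ≤ C * √(N : ℝ) * x ^ ε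

/-- integer exponents and one base: the powers `1 ^ k, …, N ^ k`, `N ≤ k`, with mantissa `< s` -/
def BenfordInt (g : ℝ) : Prop :=
  ∀ ε : ℝ, 0 < ε → ∃ C : ℝ, ∀ k N : ℕ, 1 ≤ N → N ≤ k → ∀ s : ℝ, 1 ≤ s → s ≤ g →
    |(count g 1 s k N : ℝ) - N * Real.logb g s| ≤ C * √(N : ℝ) * (k : ℝ) ^ ε

/-- the other one-sided inequality -/
def BenfordLower (g a b : ℝ) : Prop :=
  ∀ ε : ℝ, 0 < ε → ∃ C : ℝ, ∀ x : ℝ, ∀ N : ℕ, 1 ≤ N → (N : ℝ) ≤ x →
    -(C * √(N : ℝ) * x ^ ε) ≤ (count g a b x N : ℝ) - N * Real.logb g (b / a)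

/-- The mantissas in `[b, g a)` are the others. -/
def T_BENL : Prop := T_MANT → ∀ g a b : ℝ, 1 < g → 0 < a → a < b → b < g * a →
  BenfordLower g a b → BenfordUpper g b (g * a)

/-- As `T_BENF`, with a constant that does not depend on `a, b`; for `b = g a` every number has
its mantissa in the interval. -/
def T_BENU : Prop := T_MANT → Disc → ∀ g : ℝ, 1 < g → BenfordUnif g

/-- Integer exponents (helper4). Proof: `k = ⌈t log g⌉`, so `M ≤ t log g ≤ k` and
`|t - k / log g| ≤ 1 / log g`. With `t_k = k / log g`, `D(b) = #{n ≤ N : {t_k log n} < b} - N b`: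
`∑_{n ≤ N} e(t_k log n) = - 2 π i ∫_0^1 e(b) D(b) db`. So `|∑_{n ≤ N} e(t_k log n)| ≤
2 π C √N k^ε` for all `N ≤ k`. Abel summation with the weight
`e((t - t_k) log n) exp(-(log n - log N)²/4)`, total variation `≤ 2 + 2 π log M / log g`. -/
def T_INT : Prop := T_MANT → ∀ g : ℝ, 1 < g → BenfordInt g → GaussLe (Real.log g)

end Pool.Agent.Ben
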