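import Pool.Agent.Ben.Targets3

/-!
# LH and Benford's law, version 3: all growth exponents `a ≥ 0`

Every `def W_XXX : Prop` below is a conclusion; the theorem to prove is stated in its docstring
(file `Pool/Agent/Ben/P_WXXX.lean`, namespace `Pool.Agent.Ben`, theorem `p_WXXX`). They are the
blocks `V_XXX` (and `T_EXPS`, `T_SUML`, `T_LH`) with an additional factor `t ^ a`.
-/

set_option autoImplicit false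

namespace Pool.Agent.Ben

open Complex MeasureTheory Set

/-- `ζ(1/2 + it) = O(|t|^(a + ε))` -/
def Lind (a : ℝ) : Prop :=
  ∀ ε : ℝ, 0 < ε → ∃ C : ℝ, ∀ t : ℝ, ‖riemannZeta (1 / 2 + t * I)‖ ≤ C * (1 + |t|) ^ (a + ε)

/-- exponential sums -/
def Exps (a : ℝ) : Prop :=
  ∀ ε : ℝ, 0 < ε → ∀ K : ℝ, 0 < K → ∃ C : ℝ, ∀ T : ℝ, 1 ≤ T → ∀ N : ℕ, 1 ≤ N → (N : ℝ) ≤ K * T →
    ‖∑ n ∈ Finset.Icc 1 N, (n : ℂ) ^ (-(T * I) : ℂ)‖ ≤ C * √(N : ℝ) * T ^ (a + ε)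

/-- the conclusion of `T_FORM` -/
def Form : Prop := ∀ N : ℕ, 1 ≤ N → ∀ T : ℝ,
  ∑ n ∈ Finset.Icc 1 N, (n : ℂ) ^ (-(T * I) : ℂ) =
    (∫ x in (1 : ℝ)..(N + 1), (rho N x : ℂ) * (x : ℂ) ^ (-(T * I) : ℂ)) +
    (1 / (2 * Real.pi) : ℝ) * ∫ v : ℝ, RR N (1 / 2 + v * I) *
      (riemannZeta (1 / 2 + (T + v : ℝ) * I) - 1 / (-1 / 2 + (T + v : ℝ) * I))

/-- `theorem p_WEXPS : Form → T_RB → T_POLE → W_EXPS`. As `P_EXPS.lean` (where `a = 0`). Take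
`ε'` small (`ε' ≤ ε / 8`, `a + 2 ε' < 1`). Now `‖ζ - 1/(…)‖ ≤ C (1 + |T + v|)^(a + ε') + 2 ≤
C' ((1 + T)^(a + ε') + |v|^(a + ε'))` (subadditivity of `x^p`, `p ≤ 1`). For the first term as in
`P_EXPS.lean` with `θ = 2 ε'`. For the second use `min x y ≤ x^(1-θ) y^θ` for the two bounds of
`T_RB` with `θ = a + 2 ε'`: `‖RR N (1/2 + i v)‖ |v|^(a + ε') ≤ C (N+1)^(1/2 + θ) (1+|v|)^(-1-ε')`,
and `(N+1)^θ ≤ (2 K T)^θ`. -/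
def W_EXPS : Prop := ∀ a : ℝ, 0 ≤ a → a < 1 → Lind a → Exps a

/-- `theorem p_WCOEF : W_COEF`. Fourier series of a `C¹` function of period one. Proof: `f'` is
continuous, `∑ |coef f' h|² = ∫_0^1 f'² ≤ M²` (`tsum_sq_fourierCoeff` or Bessel), integration by
parts `coef f h = coef f' h / (2 π i h)` for `h ≠ 0` (`fourierCoeffOn_of_hasDerivAt`), so
`∑_{h≠0} |coef f h| |h|^b ≤ (1/2π) ∑ |coef f' h| |h|^(b-1) ≤ C_b M` by Cauchy-Schwarz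
(`2 (b - 1) < -1`); the series converges absolutely, to `f` (continuous, on `AddCircle 1`:
`hasSum_fourier_series_apply_of_summable`). -/
def W_COEF : Prop := ∀ b : ℝ, 0 ≤ b → b < 1 / 2 → ∃ C : ℝ, ∀ (f : ℝ → ℝ) (M : ℝ),
  ContDiff ℝ 1 f → Function.Periodic f 1 → (∀ y, |deriv f y| ≤ M) → ∃ c : ℤ → ℂ,
    (∀ y : ℝ, HasSum (fun h : ℤ => c h * e (h * y)) (f y : ℂ)) ∧
    c 0 = ((∫ u in (0 : ℝ)..1, f u : ℝ) : ℂ) ∧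
    Summable (fun h : ℤ => if h = 0 then 0 else ‖c h‖ * |(h : ℝ)| ^ b) ∧
    ∑' h : ℤ, (if h = 0 then 0 else ‖c h‖ * |(h : ℝ)| ^ b) ≤ C * M

/-- Benford's law with error `√N x^(a + ε)` for all `C¹` statistics -/
def StatC1 (g a : ℝ) : Prop :=
  ∀ ε : ℝ, 0 < ε → ∃ C : ℝ, ∀ (f : ℝ → ℝ) (M : ℝ), ContDiff ℝ 1 f → Function.Periodic f 1 →
    (∀ y, |deriv f y| ≤ M) → ∀ x : ℝ, ∀ N : ℕ, 1 ≤ N → (N : ℝ) ≤ x →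
      |∑ n ∈ Finset.Icc 1 N, f (Real.logb g ((n : ℝ) ^ x)) - N * ∫ u in (0 : ℝ)..1, f u| ≤
        C * M * √(N : ℝ) * x ^ (a + ε)

/-- `theorem p_WSMO : W_COEF → W_SMO`. `logb g (n^x) = t log n`, `t = x / log g`. By `W_COEF` with
`b = a + ε'`, `ε' ≤ ε`, `b < 1/2`, the left hand side is at most
`∑_{h≠0} ‖c h‖ ‖∑_{n ≤ N} e(h t log n)‖`; `e(h t log n) = n^(2πi h t)`, of modulus and up to
conjugation the sum of `Exps` with `T = 2π |h| t`. For `t ≥ 1`, `N ≤ x = t log g ≤ K T` with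
`K = log g`: `≤ C √N (2π |h| t)^(a + ε')`. For `t < 1`: `N ≤ x < log g` and
`|f y - ∫ f| ≤ M` (mean value theorem), so `≤ N M ≤ √(log g) √N M`. -/
def W_SMO : Prop := ∀ a : ℝ, 0 ≤ a → a < 1 / 2 → Exps a → ∀ g : ℝ, 1 < g → StatC1 g a

/-- `theorem p_WTRIV : W_TRIV`. `|f y - ∫_0^1 f| ≤ M` (mean value theorem, period one) and
`N ≤ √N √x ≤ √N x^(a + ε)`. -/
def W_TRIV : Prop := ∀ a : ℝ, 1 / 2 ≤ a → ∀ g : ℝ, 1 < g → StatC1 g a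

/-- one-sided bound with exponent `a` -/
def UpperA (G : ℝ → ℝ) (κ a : ℝ) : Prop :=
  ∀ ε : ℝ, 0 < ε → ∃ C : ℝ, ∀ t : ℝ, 1 ≤ t → ∀ N : ℕ, 1 ≤ N → (N : ℝ) ≤ κ * t →
    ∑ n ∈ Finset.Icc 1 N, G (t * Real.log n) ≤ C * √(N : ℝ) * t ^ (a + ε)

/-- `theorem p_WL1 : V_MEAN → W_L1`. As `P_VL1.lean`. -/
def W_L1 : Prop := ∀ m : ℕ, 1 ≤ m → ∀ (G : ℝ → ℝ) (B κ a : ℝ), Obs G B → 0 < κ → 0 ≤ a →
  UpperA G κ a → ∀ ε : ℝ, 0 < ε → ∃ C : ℝ, ∀ t : ℝ, 1 ≤ t → ∀ N : ℕ, 1 ≤ N →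
    (N : ℝ) ≤ κ / 2 * t →
    ∫ u : ℝ, |∑ n ∈ Finset.Icc 1 N, G ((t + u / m) * Real.log n)| * w u ≤
      C * √(N : ℝ) * t ^ (a + ε)

/-- Gaussian sums: bound `(√M t^a + M^θ) t^ε` -/
def GA (a θ κ : ℝ) : Prop := ∀ ε : ℝ, 0 < ε → ∃ C : ℝ, ∀ t : ℝ, 1 ≤ t → ∀ M : ℕ, 1 ≤ M →
  (M : ℝ) ≤ κ * t → ∀ N : ℝ, 1 ≤ N → N ≤ M →
    ‖∑ n ∈ Finset.Icc 1 M, e (t * Real.log n) *
      (Real.exp (-(Real.log n - Real.log N) ^ 2 / 4) : ℝ)‖ ≤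
      C * (√(M : ℝ) * t ^ a + (M : ℝ) ^ θ) * t ^ ε

/-- `theorem p_WHIGH : T_TAIL → V_NAR → W_HIGH`. As `P_VHIGH.lean`; `GA` at the height
`T' ∈ [h t / 2, 3 h t / 2]` with `M' ≤ 2 N_h t^d`, `N_h = N^(m/h)`, gives
`C (√(2 N_h t^d) (3 h t / 2)^a + (2 N_h t^d)^θ) (3 h t / 2)^(ε/2)`, `d` small. -/
def W_HIGH : Prop := ∀ a θ κ : ℝ, 0 ≤ a → 0 ≤ θ → θ ≤ 1 → 0 < κ → GA a θ κ → ∀ m : ℕ, 1 ≤ m →
  ∀ ε : ℝ, 0 < ε → ∃ C : ℝ, ∀ t : ℝ, 1 ≤ t → ∀ M : ℕ, 1 ≤ M → (M : ℝ) ≤ κ / 2 * t →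
    ∀ N : ℝ, 1 ≤ N → N ≤ M → ∀ h : ℕ, m < h →
      ‖∑ n ∈ Finset.Icc 1 M, e (h * t * Real.log n) *
        (Real.exp (-(h * Real.log n / m - Real.log N) ^ 2 / 4) : ℝ)‖ ≤
        C * (N ^ ((m : ℝ) / h * (1 / 2)) * (h * t) ^ a + N ^ ((m : ℝ) / h * θ)) * (h * t) ^ ε

/-- `theorem p_WSTEP : V_MAIN → W_L1 → W_HIGH → W_STEP`. As `P_VSTEP.lean`: the integral is
`≤ C √M t^(a + ε')`, the frequencies `m < h ≤ C t^ε'` contribute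
`≤ C (√M (C t^(1 + ε'))^a + M^(m θ / (m + 1))) (C t^(1 + ε'))^ε'`. -/
def W_STEP : Prop := ∀ m : ℕ, 1 ≤ m → ∀ (G : ℝ → ℝ) (B κ₀ a : ℝ), Obs G B → 0 < κ₀ → 0 ≤ a →
  coef G m ≠ 0 → (∀ j : ℕ, 0 < j → j < m → coef G j = 0) → UpperA G κ₀ a →
  ∀ θ κ : ℝ, 0 ≤ θ → θ ≤ 1 → 0 < κ → GA a θ κ →
    ∃ κ' : ℝ, 0 < κ' ∧ GA a ((m : ℝ) / (m + 1) * θ) κ'

/-- the limit of the iteration -/
def GaussA (κ a : ℝ) : Prop := ∀ ε : ℝ, 0 < ε → ∃ C : ℝ, ∀ t : ℝ, 1 ≤ t → ∀ M : ℕ, 1 ≤ M →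
  (M : ℝ) ≤ κ * t → ∀ N : ℝ, 1 ≤ N → N ≤ M →
    ‖∑ n ∈ Finset.Icc 1 M, e (t * Real.log n) *
      (Real.exp (-(Real.log n - Real.log N) ^ 2 / 4) : ℝ)‖ ≤ C * √(M : ℝ) * t ^ (a + ε)

/-- `theorem p_WITER : W_STEP → W_ITER`. `GA a 1 κ` is trivial; iterate: `GA a ((m/(m+1))^j) κ_j`;
when `(m/(m+1))^j ≤ 1/2` the bound is `≤ 2 C √M t^(a + ε)`. -/
def W_ITER : Prop := ∀ m : ℕ, 1 ≤ m → ∀ (G : ℝ → ℝ) (B κ₀ a : ℝ), Obs G B → 0 < κ₀ → 0 ≤ a →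
  coef G m ≠ 0 → (∀ j : ℕ, 0 < j → j < m → coef G j = 0) → UpperA G κ₀ a →
    ∃ κ : ℝ, 0 < κ ∧ GaussA κ a

/-- `theorem p_WSUML : T_TAIL → W_SUML`. As `P_SUML.lean`. -/
def W_SUML : Prop := ∀ κ a : ℝ, 0 < κ → 0 ≤ a → GaussA κ a → ∀ b : ℝ, 0 ≤ b → b < 1 →
  Pool.Agent.DBN.SumLe b a

/-- `theorem p_WLH : W_LH`. As `P_LH.lean`: `SumLe 1 0` from `sumLe_three`, `SumLe.mono`,
`growth_iff_sum` with `c = 0`, `A = a`, `growth_zero`; from `MuLe (1/2) a` to `Lind a`: negative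
`t` by conjugation, `|t| ≤ 2` by compactness (see the proof of `lh_iff` in
`Pool/Agent/DBN/Const.lean`). -/
def W_LH : Prop := ∀ a : ℝ, 0 ≤ a → (∀ b : ℝ, 0 ≤ b → b < 1 → Pool.Agent.DBN.SumLe b a) → Lind a

/-- the one-sided inequality with exponent `a` for one statistic -/
def StatUpperA (g a : ℝ) (f : ℝ → ℝ) : Prop :=
  ∀ ε : ℝ, 0 < ε → ∃ C : ℝ, ∀ x : ℝ, ∀ N : ℕ, 1 ≤ N → (N : ℝ) ≤ x →
    ∑ n ∈ Finset.Icc 1 N, f (Real.logb g ((n : ℝ) ^ x)) - N * ∫ u in (0 : ℝ)..1, f u ≤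
      C * √(N : ℝ) * x ^ (a + ε)

/-- `theorem p_WONE : W_ONE`. As `P_VONE.lean`. -/
def W_ONE : Prop := ∀ (g a : ℝ) (f : ℝ → ℝ) (B : ℝ), 1 < g → 0 ≤ a → Measurable f →
  Function.Periodic f 1 → (∀ y, |f y| ≤ B) → StatUpperA g a f →
    Obs (fun y => f y - ∫ u in (0 : ℝ)..1, f u) (2 * B) ∧
    UpperA (fun y => f y - ∫ u in (0 : ℝ)..1, f u) (Real.log g) a

/-- one digit, one-sided, exponent `a` -/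
def DigitUpperA (j d : ℕ) (a : ℝ) : Prop :=
  ∀ ε : ℝ, 0 < ε → ∃ C : ℝ, ∀ x : ℝ, ∀ N : ℕ, 1 ≤ N → (N : ℝ) ≤ x →
    (dcount j d x N : ℝ) - N * benf j d ≤ C * √(N : ℝ) * x ^ (a + ε)

/-- one digit, one-sided, exponent `a` -/
def DigitLowerA (j d : ℕ) (a : ℝ) : Prop :=
  ∀ ε : ℝ, 0 < ε → ∃ C : ℝ, ∀ x : ℝ, ∀ N : ℕ, 1 ≤ N → (N : ℝ) ≤ x →
    -(C * √(N : ℝ) * x ^ (a + ε)) ≤ (dcount j d x N : ℝ) - N * benf j d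

/-- `theorem p_WDIGB : W_DIGB`. As `P_VDIGB.lean`. -/
def W_DIGB : Prop := ∀ (j d : ℕ) (a : ℝ), d ≤ 9 → (j = 0 → 1 ≤ d) →
  (DigitUpperA j d a ∨ DigitLowerA j d a) →
  ∃ f : ℝ → ℝ, Measurable f ∧ Function.Periodic f 1 ∧ (∀ y, |f y| ≤ 1) ∧
    ¬ (∃ c : ℝ, ∀ᵐ y, f y = c) ∧ StatUpperA 10 a f

end Pool.Agent.Ben
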