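import Pool.Agent.Ben.Targets4

/-!
# LH and Benford's law: the first digits of the integers `n ^ k`
-/

set_option autoImplicit false

namespace Pool.Agent.Ben

open Complex MeasureTheory Set

/-- the expansion of `m` in base `b` begins with that of `d` (for `d ≥ 1`): deleting the last `j`
digits of `m` leaves `d` -/
def Begins (b d m : ℕ) : Prop := ∃ j : ℕ, m / b ^ j = d

/-- among `1 ^ k, …, N ^ k` those whose expansion in base `b` begins with that of `d` -/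
noncomputable def bcount (b d k N : ℕ) : ℕ :=
  {n : ℕ | 1 ≤ n ∧ n ≤ N ∧ Begins b d (n ^ k)}.ncard

/-- Benford's law with square root error for all strings of first digits of `1 ^ k, …, N ^ k` -/
def StringsAll (b : ℕ) : Prop :=
  ∀ ε : ℝ, 0 < ε → ∃ C : ℝ, ∀ k N d : ℕ, 1 ≤ N → N ≤ k → 1 ≤ d →
    |(bcount b d k N : ℝ) - N * Real.logb b (1 + 1 / d)| ≤ C * √(N : ℝ) * (k : ℝ) ^ ε

/-- one-sided -/
def StringsUpper (b : ℕ) : Prop :=
  ∀ ε : ℝ, 0 < ε → ∃ C : ℝ, ∀ k N d : ℕ, 1 ≤ N → N ≤ k → 1 ≤ d →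
    (bcount b d k N : ℝ) - N * Real.logb b (1 + 1 / d) ≤ C * √(N : ℝ) * (k : ℝ) ^ ε

/-- one-sided -/
def StringsLower (b : ℕ) : Prop :=
  ∀ ε : ℝ, 0 < ε → ∃ C : ℝ, ∀ k N d : ℕ, 1 ≤ N → N ≤ k → 1 ≤ d →
    -(C * √(N : ℝ) * (k : ℝ) ^ ε) ≤ (bcount b d k N : ℝ) - N * Real.logb b (1 + 1 / d)

/-- `theorem p_XSTF : X_STF`. `Begins b d (n^k)` implies `Mant b d (d+1) (n^k)` (with `j ≥ 0`), and
the converse holds if `d ≤ n^k`. `(d + 1) ≤ b d`, so `BenfordUnif b` applies to `Mant b d (d+1)`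
(`x = k`): the number `c'` of `n ≤ N` with `Mant` is `N log_b(1 + 1/d) + O(√N k^ε)`. If `d ≤ 2^k`
the two counts differ at most by one (`n = 1`). If `d > 2^k` then `0 ≤ bcount ≤ c'` and
`N log_b(1 + 1/d) ≤ N / (d log b) ≤ 2`, so both are `O(√N k^ε)`. -/
def X_STF : Prop := ∀ b : ℕ, 2 ≤ b → BenfordUnif b → StringsAll b

/-- `theorem p_XSTB : X_STB`. Proof (helper74). Let `E = C √N k^ε` be the bound for one string
(upper version; the lower one is the same with reversed inequalities), `L` with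
`k ≤ b^L ≤ b k` and `k` so large that `b k ≤ 2^k` (small `k`: `N ≤ k ≤ k₀`, trivial). For
`2 ≤ n ≤ N` and `i ≤ L` let `pre i n` be the prefix of length `i + 1` of `n^k ≥ 2^k ≥ b^L`,
`b^i ≤ pre i n < b^(i+1)`, `pre i n = pre (i+1) n / b`. By induction on `i`, for
`b^i ≤ S ≤ b^(i+1)`: `#{2 ≤ n ≤ N : pre i n < S} ≤ N log_b(S / b^i) + (i+1) b E'` and
`#{2 ≤ n ≤ N : S ≤ pre i n} ≤ N (1 - log_b(S / b^i)) + (i+1) b E'`, `E' = max E 1` (step:
`S = b S' + c`, `pre (i+1) n < S` iff `pre i n < S'` or `pre (i+1) n = b S' + c'` for some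
`c' < c`; the logarithms telescope; in the same way for `≥`). The two together give
`|#{2 ≤ n ≤ N : pre L n < S} - N log_b(S / b^L)| ≤ (L+1) b E' + 1`. For `1 ≤ s ≤ b` let
`S = ⌊s b^L⌋`: mantissa `< s` is implied by `pre L n < S` and implies `pre L n < S + 1`, and
`N log_b((S+1)/S) ≤ N / (b^L log b) ≤ 2`. Finally `L + 1 ≤ C log k + C ≤ C k^ε`. -/
def X_STB : Prop := ∀ b : ℕ, 2 ≤ b → (StringsUpper b ∨ StringsLower b) → BenfordInt b

end Pool.Agent.Ben
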