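import Pool.Agent.Ben.Targets5

/-!
# LH and Benford's law: the square root in the error term is optimal, unconditionally
-/

set_option autoImplicit false

namespace Pool.Agent.Ben

open Complex MeasureTheory Set

/-- one-sided bound with the exponent `θ` of `N` -/
def UpperT (G : ℝ → ℝ) (κ θ : ℝ) : Prop :=
  ∀ ε : ℝ, 0 < ε → ∃ C : ℝ, ∀ t : ℝ, 1 ≤ t → ∀ N : ℕ, 1 ≤ N → (N : ℝ) ≤ κ * t →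
    ∑ n ∈ Finset.Icc 1 N, G (t * Real.log n) ≤ C * (N : ℝ) ^ θ * t ^ ε

/-- `theorem p_YL1 : V_MEAN → Y_L1`. As `P_VL1.lean`. -/
def Y_L1 : Prop := ∀ m : ℕ, 1 ≤ m → ∀ (G : ℝ → ℝ) (B κ θ : ℝ), Obs G B → 0 < κ → 0 ≤ θ →
  UpperT G κ θ → ∀ ε : ℝ, 0 < ε → ∃ C : ℝ, ∀ t : ℝ, 1 ≤ t → ∀ N : ℕ, 1 ≤ N →
    (N : ℝ) ≤ κ / 2 * t →
    ∫ u : ℝ, |∑ n ∈ Finset.Icc 1 N, G ((t + u / m) * Real.log n)| * w u ≤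
      C * (N : ℝ) ^ θ * t ^ ε

/-- `theorem p_YSTEP : V_MAIN → Y_L1 → V_HIGH → Y_STEP`. As `P_VSTEP.lean`. -/
def Y_STEP : Prop := ∀ m : ℕ, 1 ≤ m → ∀ (G : ℝ → ℝ) (B κ₀ θ₀ : ℝ), Obs G B → 0 < κ₀ →
  0 ≤ θ₀ → coef G m ≠ 0 → (∀ j : ℕ, 0 < j → j < m → coef G j = 0) → UpperT G κ₀ θ₀ →
  ∀ θ κ : ℝ, 0 ≤ θ → θ ≤ 1 → 0 < κ → GT θ κ →
    ∃ κ' : ℝ, 0 < κ' ∧ GT (max θ₀ ((m : ℝ) / (m + 1) * θ)) κ'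

/-- `theorem p_YITER : Y_STEP → Y_ITER`. As `P_VITER.lean`. -/
def Y_ITER : Prop := ∀ m : ℕ, 1 ≤ m → ∀ (G : ℝ → ℝ) (B κ₀ θ₀ : ℝ), Obs G B → 0 < κ₀ →
  0 ≤ θ₀ → coef G m ≠ 0 → (∀ j : ℕ, 0 < j → j < m → coef G j = 0) → UpperT G κ₀ θ₀ →
  ∀ θ : ℝ, θ₀ < θ → ∃ κ : ℝ, 0 < κ ∧ GT θ κ

/-- `theorem p_YMS : Y_MS`, by the mean square. Proof: we may assume `θ ≥ 0` (otherwise `GT 0 κ`
holds). Let `S(t) = ∑_{n ≤ M} w_n e(t log n)`, `w_n = exp(-(log n - log M)²/4)`,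
`M = ⌊T^(1/4)⌋` (`T` large, `M ≤ κ T`), `t ∈ [T, 2T]`. Then `∫_T^(2T) |S|² ≥ T ∑ w_n² -
∑_{m ≠ n} 1/(π |log m - log n|) ≥ T M / 4 - M³ ≥ T M / 8` (`|log m - log n| ≥ 1/M`,
`∑ w_n² ≥ ∑_{M/2 ≤ n ≤ M} exp(-(log 2)²/2)`), while `GT` gives `≤ T C² M^(2θ) (2T)^(2ε)` and
`T ≤ (M+1)^4`. For `8 ε < 1 - 2 θ` this is a contradiction for large `M`. -/
def Y_MS : Prop := ∀ θ κ : ℝ, θ < 1 / 2 → 0 < κ → ¬ GT θ κ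

/-- the one-sided inequality with `N ^ θ` for one statistic -/
def StatUpperT (g θ : ℝ) (f : ℝ → ℝ) : Prop :=
  ∀ ε : ℝ, 0 < ε → ∃ C : ℝ, ∀ x : ℝ, ∀ N : ℕ, 1 ≤ N → (N : ℝ) ≤ x →
    ∑ n ∈ Finset.Icc 1 N, f (Real.logb g ((n : ℝ) ^ x)) - N * ∫ u in (0 : ℝ)..1, f u ≤
      C * (N : ℝ) ^ θ * x ^ ε

/-- `theorem p_YONE : Y_ONE`. As `P_WONE.lean`. -/
def Y_ONE : Prop := ∀ (g θ : ℝ) (f : ℝ → ℝ) (B : ℝ), 1 < g → Measurable f →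
  Function.Periodic f 1 → (∀ y, |f y| ≤ B) → StatUpperT g θ f →
    Obs (fun y => f y - ∫ u in (0 : ℝ)..1, f u) (2 * B) ∧
    UpperT (fun y => f y - ∫ u in (0 : ℝ)..1, f u) (Real.log g) θ

end Pool.Agent.Ben
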