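import Pool.Agent.Ben.Targets6

/-!
# LH and Benford's law: shorter ranges `N ≤ x ^ β`

One parametrised version of the blocks: `W_XXX` is `p = 1/2`, `β = 1`; `Y_XXX` is `a = 0`,
`β = 1`.
-/

set_option autoImplicit false

namespace Pool.Agent.Ben

open Complex MeasureTheory Set

/-- one-sided bound `N ^ p t ^ (a + ε)` for `N ≤ κ t ^ β` -/
def UpperG (G : ℝ → ℝ) (κ β p a : ℝ) : Prop :=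
  ∀ ε : ℝ, 0 < ε → ∃ C : ℝ, ∀ t : ℝ, 1 ≤ t → ∀ N : ℕ, 1 ≤ N → (N : ℝ) ≤ κ * t ^ β →
    ∑ n ∈ Finset.Icc 1 N, G (t * Real.log n) ≤ C * (N : ℝ) ^ p * t ^ (a + ε)

/-- `theorem p_GL1 : V_MEAN → G_L1` -/
def G_L1 : Prop := ∀ m : ℕ, 1 ≤ m → ∀ (G : ℝ → ℝ) (B κ β p a : ℝ), Obs G B → 0 < κ → 0 < β →
  β ≤ 1 → 0 ≤ p → 0 ≤ a → UpperG G κ β p a → ∀ ε : ℝ, 0 < ε → ∃ C : ℝ, ∀ t : ℝ, 1 ≤ t →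
  ∀ N : ℕ, 1 ≤ N → (N : ℝ) ≤ κ / 2 * t ^ β →
    ∫ u : ℝ, |∑ n ∈ Finset.Icc 1 N, G ((t + u / m) * Real.log n)| * w u ≤
      C * (N : ℝ) ^ p * t ^ (a + ε)

/-- Gaussian sums: bound `(M ^ p t ^ a + M ^ θ) t ^ ε` for `M ≤ κ t ^ β` -/
def GG (p a θ κ β : ℝ) : Prop := ∀ ε : ℝ, 0 < ε → ∃ C : ℝ, ∀ t : ℝ, 1 ≤ t → ∀ M : ℕ, 1 ≤ M →
  (M : ℝ) ≤ κ * t ^ β → ∀ N : ℝ, 1 ≤ N → N ≤ M →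
    ‖∑ n ∈ Finset.Icc 1 M, e (t * Real.log n) *
      (Real.exp (-(Real.log n - Real.log N) ^ 2 / 4) : ℝ)‖ ≤
      C * ((M : ℝ) ^ p * t ^ a + (M : ℝ) ^ θ) * t ^ ε

/-- `theorem p_GHIGH : T_TAIL → V_NAR → G_HIGH` -/
def G_HIGH : Prop := ∀ p a θ κ β : ℝ, 0 ≤ p → p ≤ 1 → 0 ≤ a → 0 ≤ θ → θ ≤ 1 → 0 < κ →
  0 < β → β ≤ 1 → GG p a θ κ β → ∀ m : ℕ, 1 ≤ m →
  ∀ ε : ℝ, 0 < ε → ∃ C : ℝ, ∀ t : ℝ, 1 ≤ t → ∀ M : ℕ, 1 ≤ M → (M : ℝ) ≤ κ / 2 * t ^ β →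
    ∀ N : ℝ, 1 ≤ N → N ≤ M → ∀ h : ℕ, m < h →
      ‖∑ n ∈ Finset.Icc 1 M, e (h * t * Real.log n) *
        (Real.exp (-(h * Real.log n / m - Real.log N) ^ 2 / 4) : ℝ)‖ ≤
        C * (N ^ ((m : ℝ) / h * p) * (h * t) ^ a + N ^ ((m : ℝ) / h * θ)) * (h * t) ^ ε

/-- `theorem p_GSTEP : V_MAIN → G_L1 → G_HIGH → G_STEP` -/
def G_STEP : Prop := ∀ m : ℕ, 1 ≤ m → ∀ (G : ℝ → ℝ) (B κ₀ β p a : ℝ), Obs G B → 0 < κ₀ →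
  0 < β → β ≤ 1 → 0 ≤ p → p ≤ 1 → 0 ≤ a →
  coef G m ≠ 0 → (∀ j : ℕ, 0 < j → j < m → coef G j = 0) → UpperG G κ₀ β p a →
  ∀ θ κ : ℝ, 0 ≤ θ → θ ≤ 1 → 0 < κ → GG p a θ κ β →
    ∃ κ' : ℝ, 0 < κ' ∧ GG p a ((m : ℝ) / (m + 1) * θ) κ' β

/-- `theorem p_GITER : G_STEP → G_ITER` -/
def G_ITER : Prop := ∀ m : ℕ, 1 ≤ m → ∀ (G : ℝ → ℝ) (B κ₀ β p a : ℝ), Obs G B → 0 < κ₀ →
  0 < β → β ≤ 1 → 0 ≤ p → p ≤ 1 → 0 ≤ a →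
  coef G m ≠ 0 → (∀ j : ℕ, 0 < j → j < m → coef G j = 0) → UpperG G κ₀ β p a →
    ∀ θ : ℝ, 0 < θ → ∃ κ : ℝ, 0 < κ ∧ GG p a θ κ β

/-- `theorem p_GSUML : T_TAIL → G_SUML` -/
def G_SUML : Prop := ∀ κ β a : ℝ, 0 < κ → 0 < β → β ≤ 1 → 0 ≤ a → GG (1 / 2) a (1 / 2) κ β →
  ∀ b : ℝ, 0 ≤ b → b < β → Pool.Agent.DBN.SumLe b a

/-- `theorem p_GLH : G_LH`. By the reflection `winLe_iff`, `winLe_neg` only `b ≤ 1/2` is needed. -/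
def G_LH : Prop := ∀ β a : ℝ, 1 / 2 < β → 0 ≤ a →
  (∀ b : ℝ, 0 ≤ b → b < β → Pool.Agent.DBN.SumLe b a) → Lind a

/-- `theorem p_GMS : G_MS`, as `P_YMS.lean` with `T = M ^ q`, `q ≥ 4`, `q β ≥ 2`. -/
def G_MS : Prop := ∀ p θ κ β : ℝ, p < 1 / 2 → θ < 1 / 2 → 0 < κ → 0 < β → ¬ GG p 0 θ κ β

/-- the one-sided inequality `O(N ^ p x ^ (a + ε))`, `N ≤ x ^ β`, for one statistic -/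
def StatUpperG (g β p a : ℝ) (f : ℝ → ℝ) : Prop :=
  ∀ ε : ℝ, 0 < ε → ∃ C : ℝ, ∀ x : ℝ, 1 ≤ x → ∀ N : ℕ, 1 ≤ N → (N : ℝ) ≤ x ^ β →
    ∑ n ∈ Finset.Icc 1 N, f (Real.logb g ((n : ℝ) ^ x)) - N * ∫ u in (0 : ℝ)..1, f u ≤
      C * (N : ℝ) ^ p * x ^ (a + ε)

/-- `theorem p_GONE : G_ONE`, as `P_WONE.lean`, for some `κ > 0` (`x = t log g ≥ 1` only for
`t ≥ 1 / log g`; for smaller `t` the sum is bounded). -/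
def G_ONE : Prop := ∀ (g β p a : ℝ) (f : ℝ → ℝ) (B : ℝ), 1 < g → 0 < β → β ≤ 1 → 0 ≤ a →
  0 ≤ p → Measurable f → Function.Periodic f 1 → (∀ y, |f y| ≤ B) → StatUpperG g β p a f →
    Obs (fun y => f y - ∫ u in (0 : ℝ)..1, f u) (2 * B) ∧
    ∃ κ : ℝ, 0 < κ ∧ UpperG (fun y => f y - ∫ u in (0 : ℝ)..1, f u) κ β p a

/-- one digit, one-sided, exponent `a`, range `N ≤ x ^ β` -/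
def DigitUpperG (j d : ℕ) (β a : ℝ) : Prop :=
  ∀ ε : ℝ, 0 < ε → ∃ C : ℝ, ∀ x : ℝ, 1 ≤ x → ∀ N : ℕ, 1 ≤ N → (N : ℝ) ≤ x ^ β →
    (dcount j d x N : ℝ) - N * benf j d ≤ C * √(N : ℝ) * x ^ (a + ε)

/-- one digit, one-sided, exponent `a`, range `N ≤ x ^ β` -/
def DigitLowerG (j d : ℕ) (β a : ℝ) : Prop :=
  ∀ ε : ℝ, 0 < ε → ∃ C : ℝ, ∀ x : ℝ, 1 ≤ x → ∀ N : ℕ, 1 ≤ N → (N : ℝ) ≤ x ^ β →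
    -(C * √(N : ℝ) * x ^ (a + ε)) ≤ (dcount j d x N : ℝ) - N * benf j d

/-- `theorem p_GDIGB : G_DIGB`, as `P_WDIGB.lean`. -/
def G_DIGB : Prop := ∀ (j d : ℕ) (β a : ℝ), d ≤ 9 → (j = 0 → 1 ≤ d) →
  (DigitUpperG j d β a ∨ DigitLowerG j d β a) →
  ∃ f : ℝ → ℝ, Measurable f ∧ Function.Periodic f 1 ∧ (∀ y, |f y| ≤ 1) ∧
    ¬ (∃ c : ℝ, ∀ᵐ y, f y = c) ∧ StatUpperG 10 β (1 / 2) a f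

end Pool.Agent.Ben
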