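import Pool.Agent.Ben.Targets7

/-!
# Means of order `q`: the moments of zeta and Benford's law

Every `def M_XXX : Prop` is a conclusion; the theorem to prove is `p_MXXX` with the hypotheses
named in the docstring (file `Pool/Agent/Ben/P_MXXX.lean`, namespace `Pool.Agent.Ben`). `q ≥ 1` is
real; all means are over `[T, 2 T]`. The pointwise versions are proved in the files named in the
docstrings. Jensen's inequality below: for a weight `k ≥ 0` and `y ≥ 0`,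
`(∫ k y)^q ≤ (∫ k)^(q-1) ∫ k y^q` (Hölder, `integral_mul_le_Lp_mul_Lq` or
`ENNReal.lintegral_mul_le_Lp_mul_Lq`; for sums `Real.inner_le_Lp_mul_Lq` or
`Real.pow_arith_mean_le_arith_mean_rpow`).
-/

set_option autoImplicit false

namespace Pool.Agent.Ben

open Complex MeasureTheory Set

/-- the smoothed sum with the window centred at `y` (logarithmic scale), `n ≤ M` -/
noncomputable def gs (M : ℕ) (t y : ℝ) : ℂ :=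
  ∑ n ∈ Finset.Icc 1 M, e (t * Real.log n) * (Real.exp (-(Real.log n - y) ^ 2 / 4) : ℝ)

/-- one-sided bound in the mean of order `q`, for `N ≤ κ T ^ β` -/
def MU (G : ℝ → ℝ) (κ β p q a : ℝ) : Prop :=
  ∀ ε : ℝ, 0 < ε → ∃ C : ℝ, ∀ T : ℝ, 1 ≤ T → ∀ N : ℕ, 1 ≤ N → (N : ℝ) ≤ κ * T ^ β →
    ∫ t in T..(2 * T), (max (∑ n ∈ Finset.Icc 1 N, G (t * Real.log n)) 0) ^ q ≤
      C * (N : ℝ) ^ (p * q) * T ^ (1 + q * (a + ε))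

/-- `theorem p_ML1 : V_MEAN → M_L1`. As `P_GL1.lean` (the pointwise version). Let
`F t = ∑ G (t log n)`, `|F| ≤ B N`. `|F| = 2 F⁺ - F` and `V_MEAN`:
`∫ |F (t + u/m)| w u du ≤ 2 ∫ F⁺ (t + u/m) w u du + C₀ B`, so the `q`-th power is at most
`4^q (∫ F⁺ w)^q + 2^q (C₀ B)^q`; Jensen (`∫ w ≤ 1`): `(∫ F⁺ w)^q ≤ ∫ (F⁺ (t + u/m))^q w u du`.
Exchange the integrals over `t ∈ [T, 2T]` and `u`. If `|u| ≤ T/2` and `T ≥ 2`, the inner integral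
is over `[T + u/m, 2T + u/m]`, contained in `[T/2, T] ∪ [T, 2T] ∪ [2T, 4T]`, and
`N ≤ κ (T/2)^β`: use `MU` three times. If `|u| > T/2`: the trivial bound `(B N)^q T` and
`∫_{|u| > T/2} w ≤ C exp (-T²)`. For `T < 2` everything is bounded (`N ≤ κ`). -/
def M_L1 : Prop := ∀ m : ℕ, 1 ≤ m → ∀ (G : ℝ → ℝ) (B κ β p q a : ℝ), Obs G B → 0 < κ → 0 < β →
  β ≤ 1 → 0 ≤ p → 1 ≤ q → 0 ≤ a → MU G κ β p q a → ∀ ε : ℝ, 0 < ε → ∃ C : ℝ, ∀ T : ℝ, 1 ≤ T →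
  ∀ N : ℕ, 1 ≤ N → (N : ℝ) ≤ κ / 2 * T ^ β →
    ∫ t in T..(2 * T),
      (∫ u : ℝ, |∑ n ∈ Finset.Icc 1 N, G ((t + u / m) * Real.log n)| * w u) ^ q ≤
      C * (N : ℝ) ^ (p * q) * T ^ (1 + q * (a + ε))

/-- Gaussian sums in the mean of order `q`, for `M ≤ κ T ^ β` -/
def GM (q p a η κ β : ℝ) : Prop := ∀ ε : ℝ, 0 < ε → ∃ C : ℝ, ∀ T : ℝ, 1 ≤ T → ∀ M : ℕ, 1 ≤ M →
  (M : ℝ) ≤ κ * T ^ β → ∀ N : ℝ, 1 ≤ N → N ≤ M →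
    ∫ t in T..(2 * T), ‖gs M t (Real.log N)‖ ^ q ≤
      C * ((M : ℝ) ^ (p * q) * T ^ (q * a) + (M : ℝ) ^ (η * q)) * T ^ (1 + ε)

/-- `theorem p_MHIGH : T_TAIL → V_NAR → M_HIGH`. As `P_GHIGH.lean`. `α = h/m > 1`,
`N_h = N^(m/h)`, `M' = min M ⌈N_h T^d⌉₊` (the same for all `t ∈ [T, 2T]`). The terms `n > M'` are
at most `κ` in all (`T_TAIL`), for `T ≥ T₀`. For the others `V_NAR`:
`‖..‖ ≤ 2 √π ∫ ‖gs M' (h t + √(α² - 1) u) (log N_h)‖ w u du`; `q`-th power, Jensen, exchange the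
integrals, substitute `s = h t`: `(1/h) ∫ w u ∫_{hT}^{2hT} ‖gs M' (s + √(α² - 1) u) ..‖^q ds du`.
If `|u| ≤ T/2` then `√(α² - 1) |u| ≤ h T / 2`: use `GM` on `[hT/2, hT]`, `[hT, 2hT]`, `[2hT, 4hT]`
(`M' ≤ κ (h T/2)^β`), with `M' ≤ 2 N_h T^d`, `d` small. If `|u| > T/2`: trivial bound `M'^q`. -/
def M_HIGH : Prop := ∀ q p a η κ β : ℝ, 1 ≤ q → 0 ≤ p → p ≤ 1 → 0 ≤ a → 0 ≤ η → η ≤ 1 → 0 < κ →
  0 < β → β ≤ 1 → GM q p a η κ β → ∀ m : ℕ, 1 ≤ m →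
  ∀ ε : ℝ, 0 < ε → ∃ C : ℝ, ∀ T : ℝ, 1 ≤ T → ∀ M : ℕ, 1 ≤ M → (M : ℝ) ≤ κ / 2 * T ^ β →
    ∀ N : ℝ, 1 ≤ N → N ≤ M → ∀ h : ℕ, m < h →
      ∫ t in T..(2 * T), ‖∑ n ∈ Finset.Icc 1 M, e (h * t * Real.log n) *
        (Real.exp (-(h * Real.log n / m - Real.log N) ^ 2 / 4) : ℝ)‖ ^ q ≤
        C * (N ^ ((m : ℝ) / h * (p * q)) * (h * T) ^ (q * a) + N ^ ((m : ℝ) / h * (η * q))) *
          T * (h * T) ^ ε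

/-- `theorem p_MSTEP : V_MAIN → M_L1 → M_HIGH → M_STEP`. As `P_GSTEP.lean`. For `T ≥ m`
substitute `t = m s`, `s ∈ [T/m, 2T/m]`; `V_MAIN` with `y = log N`: `‖coef G m‖ ‖gs M (m s) y‖` is
at most `C I(s) + C B + B ∑_h H_h(s)`, with at most `2 m log N / log 2 + 1 ≤ C T^ε'` frequencies
`h`; the `q`-th power of a sum of `K` terms is at most `K^(q-1)` times the sum of the `q`-th
powers; `M_L1` and `M_HIGH` at `T/m`. The term `(C B)^q T` is at most `C M^(η q) T`. For `T < m`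
everything is bounded. -/
def M_STEP : Prop := ∀ m : ℕ, 1 ≤ m → ∀ (G : ℝ → ℝ) (B κ₀ β p q a : ℝ), Obs G B → 0 < κ₀ →
  0 < β → β ≤ 1 → 0 ≤ p → p ≤ 1 → 1 ≤ q → 0 ≤ a →
  coef G m ≠ 0 → (∀ j : ℕ, 0 < j → j < m → coef G j = 0) → MU G κ₀ β p q a →
  ∀ η κ : ℝ, 0 ≤ η → η ≤ 1 → 0 < κ → GM q p a η κ β →
    ∃ κ' : ℝ, 0 < κ' ∧ GM q p a ((m : ℝ) / (m + 1) * η) κ' β

/-- `theorem p_MITER : M_STEP → M_ITER`. As `P_GITER.lean`: `GM q p a 1 κ β` is trivial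
(`‖gs‖ ≤ M`); iterate; `GM` is monotone in `η` (`M ≥ 1`). -/
def M_ITER : Prop := ∀ m : ℕ, 1 ≤ m → ∀ (G : ℝ → ℝ) (B κ₀ β p q a : ℝ), Obs G B → 0 < κ₀ →
  0 < β → β ≤ 1 → 0 ≤ p → p ≤ 1 → 1 ≤ q → 0 ≤ a →
  coef G m ≠ 0 → (∀ j : ℕ, 0 < j → j < m → coef G j = 0) → MU G κ₀ β p q a →
    ∀ η : ℝ, 0 < η → ∃ κ : ℝ, 0 < κ ∧ GM q p a η κ β

/-- `theorem p_MPT : M_PT`, pointwise. Proof (`Pool.Agent.DBN`): `flow_eq_win` (WinUp.lean) with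
`t = 0`: `xi (1/2 + i T) = (2π)⁻¹ ∫ win ω T dω`. For `|ω| > (11/20) log T` use `win_far` (with
`δ = 1/20`, exponent `-1`; see `growth_of_win` in GrowWin.lean): this part is `≤ C size T`. For the
others `norm_win_neg` (`‖win (-ω) T‖ = ‖win ω T‖`, WinSumE.lean) and `win_zsum` (WinSumC.lean):
`2 ∫_{-(11/20) log T}^0 C size T (‖zsum (e^ω √(T/2π)) (T - π/8)‖ + 1) dω`; substitute
`v = ω + log √(T/2π)`; for `v < 0` use `norm_zsum_le` (`‖zsum (e^v) _‖ ≤ C e^v`); the remaining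
range is contained in `[0, log T / 2]` (the integrand is continuous in `v`: as
`continuous_zsum`), and the `+ 1` costs `C log T`. Finally
`size T ‖ζ(1/2 + i T)‖ ≤ C ‖xi (1/2 + i T)‖` (`xi_two`, Xi.lean). -/
def M_PT : Prop := ∃ C T₀ : ℝ, 0 ≤ C ∧ 2 ≤ T₀ ∧ ∀ T : ℝ, T₀ ≤ T →
  ‖riemannZeta (1 / 2 + T * I)‖ ≤ C * (1 + Real.log T +
    ∫ v in (0 : ℝ)..(Real.log T / 2), ‖Pool.Agent.DBN.zsum (Real.exp v) (T - Real.pi / 8)‖)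

/-- growth of zeta in the mean of order `q` -/
def ZM (q a : ℝ) : Prop := ∀ ε : ℝ, 0 < ε → ∃ C : ℝ, ∀ T : ℝ, 1 ≤ T →
  ∫ t in T..(2 * T), ‖riemannZeta (1 / 2 + t * I)‖ ^ q ≤ C * T ^ (1 + q * (a + ε))

/-- `theorem p_MZ : T_TAIL → M_PT → M_Z`. For `t ∈ [T, 2T]`, `T` large, `M_PT`, the upper limit
replaced by `L = log (2T) / 2` (continuity in `v`), `q`-th power and Jensen:
`‖ζ‖^q ≤ C (1 + log T)^q + C L^(q-1) ∫_0^L ‖zsum (e^v) (t - π/8)‖^q dv`; exchange the integrals.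
For fixed `v` (as in `P_GSUML.lean` and `SUML_split` in `P_SUML.lean`, with `N = e^v`,
`d ≤ (β - 1/2)/4` and `M = ⌈N e⁻¹ T^d⌉₊`):
`‖zsum N t'‖ ≤ e^(1/4) N^(-1/2) (‖gs M (t'/2π) (log N - 1)‖ + 1)` if `N ≥ e`, and `≤ C` if
`N < e` (`norm_zsum_le`). `t'/2π` runs over an interval of length `T / 2π` contained in
`[T/4π, T/2π] ∪ [T/2π, T/π]` (`T` large), `M ≤ N T^d ≤ κ (T/4π)^β`, and `GM` gives
`∫ ‖gs‖^q ≤ C M^(q/2) T^(1 + q a + ε)`, `M^(q/2) N^(-q/2) ≤ T^(d q/2)`. For bounded `T` the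
integral is bounded (continuity). -/
def M_Z : Prop := ∀ q a κ β : ℝ, 1 ≤ q → 0 ≤ a → 0 < κ → 1 / 2 < β → β ≤ 1 →
  GM q (1 / 2) a (1 / 2) κ β → ZM q a

/-- the one-sided inequality for one statistic, in the mean of order `q`, for `N ≤ X ^ β` -/
def SM (g β p q a : ℝ) (f : ℝ → ℝ) : Prop :=
  ∀ ε : ℝ, 0 < ε → ∃ C : ℝ, ∀ X : ℝ, 1 ≤ X → ∀ N : ℕ, 1 ≤ N → (N : ℝ) ≤ X ^ β →
    ∫ x in X..(2 * X), (max (∑ n ∈ Finset.Icc 1 N, f (Real.logb g ((n : ℝ) ^ x)) -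
      N * ∫ u in (0 : ℝ)..1, f u) 0) ^ q ≤ C * (N : ℝ) ^ (p * q) * X ^ (1 + q * (a + ε))

/-- `theorem p_MONE : M_ONE`. As `P_GONE.lean`, with the substitution `x = t log g` in the
integral, `κ = (log g)^β`, `X = T log g` (`X ≥ 1` as `1 ≤ N ≤ κ T^β = X^β`). -/
def M_ONE : Prop := ∀ (g β p q a : ℝ) (f : ℝ → ℝ) (B : ℝ), 1 < g → 0 < β → β ≤ 1 → 0 ≤ a →
  0 ≤ p → 1 ≤ q → Measurable f → Function.Periodic f 1 → (∀ y, |f y| ≤ B) → SM g β p q a f →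
    Obs (fun y => f y - ∫ u in (0 : ℝ)..1, f u) (2 * B) ∧
    ∃ κ : ℝ, 0 < κ ∧ MU (fun y => f y - ∫ u in (0 : ℝ)..1, f u) κ β p q a

/-- one digit, upper, in the mean of order `q` -/
def DigitMU (j d : ℕ) (β q a : ℝ) : Prop :=
  ∀ ε : ℝ, 0 < ε → ∃ C : ℝ, ∀ X : ℝ, 1 ≤ X → ∀ N : ℕ, 1 ≤ N → (N : ℝ) ≤ X ^ β →
    ∫ x in X..(2 * X), (max ((dcount j d x N : ℝ) - N * benf j d) 0) ^ q ≤
      C * √(N : ℝ) ^ q * X ^ (1 + q * (a + ε))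

/-- one digit, lower, in the mean of order `q` -/
def DigitML (j d : ℕ) (β q a : ℝ) : Prop :=
  ∀ ε : ℝ, 0 < ε → ∃ C : ℝ, ∀ X : ℝ, 1 ≤ X → ∀ N : ℕ, 1 ≤ N → (N : ℝ) ≤ X ^ β →
    ∫ x in X..(2 * X), (max (N * benf j d - (dcount j d x N : ℝ)) 0) ^ q ≤
      C * √(N : ℝ) ^ q * X ^ (1 + q * (a + ε))

/-- `theorem p_MDIGB : M_DIGB`. As `P_GDIGB.lean` (`√N ^ q = N^(q/2)`). -/
def M_DIGB : Prop := ∀ (j d : ℕ) (β q a : ℝ), d ≤ 9 → (j = 0 → 1 ≤ d) →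
  (DigitMU j d β q a ∨ DigitML j d β q a) →
  ∃ f : ℝ → ℝ, Measurable f ∧ Function.Periodic f 1 ∧ (∀ y, |f y| ≤ 1) ∧
    ¬ (∃ c : ℝ, ∀ᵐ y, f y = c) ∧ SM 10 β (1 / 2) q a f

/-- `theorem p_MMS : M_MS`. As `P_GMS.lean` (which deduces the mean square bound from the
pointwise one and then contradicts the mean value theorem). -/
def M_MS : Prop := ∀ p η κ β : ℝ, p < 1 / 2 → η < 1 / 2 → 0 < κ → 0 < β → ¬ GM 2 p 0 η κ β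

/-- `theorem p_MAVG : M_AVG`. `‖ζ(1/2 - i t)‖ = ‖ζ(1/2 + i t)‖` (`riemannZeta_conj`), `[1, Y]` is
covered by the intervals `[Y/2^(j+1), Y/2^j]` with left end at least `1` and by `[1, 2]`
(continuity, also for `[-1, 1]`), geometric series; Hölder `(∫ φ)^q ≤ (2Y)^(q-1) ∫ φ^q`. -/
def M_AVG : Prop := ∀ q a : ℝ, 1 ≤ q → 0 ≤ a → ZM q a → ∀ ε : ℝ, 0 < ε → ∃ C : ℝ, 0 ≤ C ∧
  ∀ Y : ℝ, 1 ≤ Y → ∫ t in (-Y)..Y, ‖riemannZeta (1 / 2 + t * I)‖ ^ q ≤ C * Y ^ (1 + q * (a + ε)) ∧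
    ∫ t in (-Y)..Y, ‖riemannZeta (1 / 2 + t * I)‖ ≤ C * Y ^ (1 + (a + ε))

/-- `theorem p_MFAR : M_FAR`. Dyadic decomposition `2^j X ≤ |v| ≤ 2^(j+1) X`, where
`φ v / v² ≤ φ v / (2^j X)²`. -/
def M_FAR : Prop := ∀ φ : ℝ → ℝ, Continuous φ → (∀ v, 0 ≤ φ v) → ∀ b C : ℝ, 0 ≤ b → b < 2 →
  0 ≤ C → (∀ Y : ℝ, 1 ≤ Y → ∫ v in (-Y)..Y, φ v ≤ C * Y ^ b) → ∀ X : ℝ, 1 ≤ X →
    IntegrableOn (fun v => φ v / v ^ 2) {v : ℝ | X ≤ |v|} ∧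
    ∫ v in {v : ℝ | X ≤ |v|}, φ v / v ^ 2 ≤ C * (4 / (1 - 2 ^ (b - 2))) * X ^ (b - 2)

/-- exponential sums in the mean of order `q` -/
def EM (q a : ℝ) : Prop :=
  ∀ ε : ℝ, 0 < ε → ∀ K : ℝ, 0 < K → ∃ C : ℝ, ∀ T : ℝ, 1 ≤ T → ∀ N : ℕ, 1 ≤ N → (N : ℝ) ≤ K * T →
    ∫ t in T..(2 * T), ‖∑ n ∈ Finset.Icc 1 N, (n : ℂ) ^ (-(t * I) : ℂ)‖ ^ q ≤
      C * √(N : ℝ) ^ q * T ^ (1 + q * (a + ε))

/-- `theorem p_MEXPS : Form → T_RB → T_POLE → M_AVG → M_FAR → M_EXPS`. See `P_WEXPS.lean`. For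
`t ∈ [T, 2T]`, `Form` and `T_POLE`: the sum is at most
`2 K + 1 + (2π)⁻¹ ∫ ‖RR N (1/2 + i v)‖ (‖ζ(1/2 + i (t + v))‖ + 2) dv`, and by `T_RB`
`‖RR N (1/2 + i v)‖ ≤ k v := C √N min ((1 + |v|)⁻¹) (T (1 + |v|)⁻²)` (`N + 1 ≤ 2 K T`),
`∫ k ≤ C √N (1 + log T)`. Part `|v| ≤ 4 T`: Jensen, exchange the integrals,
`∫_{T+v}^{2T+v} ‖ζ‖^q ≤ ∫_{-6T}^{6T} ‖ζ‖^q` (`M_AVG`). Part `|v| > 4 T`, pointwise in `t`:
`k v ≤ C √N T / v² ≤ C √N T / (t + v)²`, `|t + v| ≥ 2 T`, and `M_FAR` with `φ u = ‖ζ(1/2 + i u)‖`,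
`b = 1 + a + ε' < 2`: at most `C √N T^(a + ε')`. -/
def M_EXPS : Prop := ∀ q a : ℝ, 1 ≤ q → 0 ≤ a → a < 1 → ZM q a → EM q a

/-- Benford's law for all `C¹` statistics in the mean of order `q` -/
def CM (g q a : ℝ) : Prop :=
  ∀ ε : ℝ, 0 < ε → ∃ C : ℝ, ∀ (f : ℝ → ℝ) (M : ℝ), ContDiff ℝ 1 f → Function.Periodic f 1 →
    (∀ y, |deriv f y| ≤ M) → ∀ X : ℝ, 1 ≤ X → ∀ N : ℕ, 1 ≤ N → (N : ℝ) ≤ X →
      ∫ x in X..(2 * X), |∑ n ∈ Finset.Icc 1 N, f (Real.logb g ((n : ℝ) ^ x)) -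
        N * ∫ u in (0 : ℝ)..1, f u| ^ q ≤ C * (M * √(N : ℝ)) ^ q * X ^ (1 + q * (a + ε))

/-- `theorem p_MSMO : W_COEF → M_SMO`. See `P_WSMO.lean`. With `b = a + ε'`, `ε' ≤ ε`, `b < 1/2`,
`w_h = ‖c h‖ |h|^b` (`∑ w_h ≤ C M`) and `y_h x = |h|^(-b) ‖∑ e(h (x / log g) log n)‖`:
`|..| ≤ ∑_{h≠0} w_h y_h x`, Jensen `(∑ w_h y_h)^q ≤ (∑ w_h)^(q-1) ∑ w_h y_h^q`, and by `EM`
(`T = 2π |h| X / log g`, `K = log g`) `∫_X^{2X} (y_h x)^q dx ≤ C √N^q X^(1 + q b)`, uniformly in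
`h` (the factor `|h|^(q b)` cancels). Monotone convergence for the sum over `h`
(`integral_tsum_of_summable_integral_norm` or `lintegral_tsum`). For `X < log g`: `|..| ≤ N M`,
`N ≤ √N √(log g)` (`WSMO_dev` in `P_WSMO.lean`, copy it). -/
def M_SMO : Prop := ∀ q a : ℝ, 1 ≤ q → 0 ≤ a → a < 1 / 2 → EM q a → ∀ g : ℝ, 1 < g → CM g q a

/-- `theorem p_MTRIV : M_TRIV`. As `P_WTRIV.lean`: `|..| ≤ M N ≤ M √N √X`. -/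
def M_TRIV : Prop := ∀ q a : ℝ, 1 ≤ q → 1 / 2 ≤ a → ∀ g : ℝ, 1 < g → CM g q a

/-- `theorem p_MLHK : M_LHK`, all means give the pointwise bound. Let `q` be large. Hölder on
`[T - 1, T + 2] ⊂ [T/2, T] ∪ [T, 2T] ∪ [2T, 4T]`:
`∫_{|t - T| ≤ log T} ‖ζ(1/2 + i t)‖ dt ≤ (2 log T)^(1 - 1/q) (∫_{T/2}^{4T} ‖ζ‖^q)^(1/q) ≤
C T^(1/q + a + 2 ε)`. Then (`Pool.Agent.DBN`) `‖win ω T‖ ≤ ∫ e^(-v²) ‖xi (1/2 + i (T + v))‖ dv`;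
for `|v| ≤ log T`: `‖xi (1/2 + i t)‖ ≤ C size t ‖ζ(1/2 + i t)‖` (`xi_two`) and
`size t ≤ C size T e^(|v|)` (see `flow_window` in WinGrow.lean); for `|v| > log T` the integral is
`≤ C size T` (the case `|v| ≥ L` in `flow_window`). So `WinLe y (a + 1/q)` for all `|y| ≤ 1/2` and
all `q`, hence `WinLe y a`, and `growth_of_win` with `c = 0` gives `GrowthLe 0 a`,
`growth_zero.mp` and `WLH_lind` (`P_WLH.lean`) give `Lind a`. -/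
def M_LHK : Prop := ∀ a : ℝ, 0 ≤ a → (∀ q : ℝ, 1 ≤ q → ZM q a) → Lind a

end Pool.Agent.Ben
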