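import Pool.Agent.Ben.Targets8

/-!
# Means of order `q`, second part: two-sided laws, the fourth moment, the mean of order one

Every `def M_XXX : Prop` is a conclusion; the theorem to prove is `p_MXXX` with the hypotheses
named in the docstring (file `Pool/Agent/Ben/P_MXXX.lean`, namespace `Pool.Agent.Ben`).
-/

set_option autoImplicit false

namespace Pool.Agent.Ben

open Complex MeasureTheory Set

/-- sawtooth sums in the mean of order `q`, uniformly in the shift `c` -/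
def DM (q : ℝ) : Prop :=
  ∀ g : ℝ, 1 < g → ∀ ε : ℝ, 0 < ε → ∃ C : ℝ, ∀ X : ℝ, 1 ≤ X → ∀ N : ℕ, 1 ≤ N → (N : ℝ) ≤ X →
    ∃ E : ℝ → ℝ, Continuous E ∧
      (∀ x c : ℝ, |∑ n ∈ Finset.Icc 1 N, psi (x / Real.log g * Real.log n + c)| ≤ E x) ∧
      ∫ x in X..(2 * X), E x ^ q ≤ C * √(N : ℝ) ^ q * X ^ (1 + q * ε)

/-- `theorem p_MDISC : T_PHI → T_SAW → T_ET → M_DISC`. See `P_FWD.lean` (pointwise version) and
`P_MSMO.lean` (Jensen over the frequencies, same structure). `T_ET` with `δ = 1/√N`,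
`x n = x / log g * log n`: `E x = √N / 2 + ∑_h c_h S_h x`,
`c_h = min (1/(π (h+1))) (√N/(π² (h+1)²))`, `S_h x = ‖∑ e ((h+1) (x / log g) log n)‖ ≤ N`
(continuity: `continuous_tsum`, summable bound `N √N / (π² (h+1)²)`). With `H = h + 1`,
`b = min (ε/4) (1/8)`, `w_h = c_h H^b`, `y_h = H^(-b) S_h`: `c_h ≤ H^(-1-2b) N^b` (`FWD_min`), so
`∑ w_h ≤ C N^b`; Jensen `(∑ w_h y_h)^q ≤ (∑ w_h)^(q-1) ∑ w_h y_h^q`; `EM` with
`T = 2π H X / log g` (if `T ≥ 1`), `K = log g`, gives `∫_X^{2X} (y_h x)^q ≤ C √N^q X^(1 + q b)`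
uniformly in `h` (`FWD_norm`, substitution `t = 2π H x / log g`). If `2π H X / log g < 1` then
`X < log g`, `N < log g`, and `y_h ≤ N ≤ √N √(log g)` is enough. `(a + b)^q ≤ 2^q (a^q + b^q)`. -/
def M_DISC : Prop := ∀ q : ℝ, 1 ≤ q → EM q 0 → DM q

/-- the law for all statistics of bounded variation in the mean of order `q` -/
def BM (g q : ℝ) : Prop :=
  ∀ ε : ℝ, 0 < ε → ∃ C : ℝ, ∀ f : ℝ → ℝ, Function.Periodic f 1 →
    BoundedVariationOn f (Icc 0 1) → ∀ X : ℝ, 1 ≤ X → ∀ N : ℕ, 1 ≤ N → (N : ℝ) ≤ X →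
      ∫ x in X..(2 * X), |∑ n ∈ Finset.Icc 1 N, f (Real.logb g ((n : ℝ) ^ x)) -
        N * ∫ u in (0 : ℝ)..1, f u| ^ q ≤
        C * ((eVariationOn f (Icc 0 1)).toReal * √(N : ℝ)) ^ q * X ^ (1 + q * ε)

/-- `theorem p_MBVQ : V_KOKG → M_BVQ`. `V_KOKG` with `D = 2 E x`, `y n = x / log g * log n`
(`logb g (n^x) = y n`, see `P_VALL.lean`): the integrand is at most `(4 V E x)^q`. If the
left integrand is not integrable its integral is `0` and the right side is `≥ 0` (so no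
measurability is needed); otherwise `intervalIntegral.integral_mono_on`. -/
def M_BVQ : Prop := ∀ q : ℝ, 1 ≤ q → DM q → ∀ g : ℝ, 1 < g → BM g q

/-- one digit, two-sided, in the mean of order `q` -/
def DigitMT (j d : ℕ) (q : ℝ) : Prop :=
  ∀ ε : ℝ, 0 < ε → ∃ C : ℝ, ∀ X : ℝ, 1 ≤ X → ∀ N : ℕ, 1 ≤ N → (N : ℝ) ≤ X →
    ∫ x in X..(2 * X), |(dcount j d x N : ℝ) - N * benf j d| ^ q ≤
      C * √(N : ℝ) ^ q * X ^ (1 + q * ε)

/-- `theorem p_MDGQ : T_MANT → M_DGQ`. `VDIG_sum` in `P_VDIG.lean` (copy it with its lemmas):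
`dcount j d x N` is the sum of `count 10 (m/10^j) ((m+1)/10^j) x N` over `m`; `T_MANT` with
`g = 10` (the condition `b < g a` is `(m+1) < 10 m`, true as `m ≥ 1`) makes every term with its
main term `N logb 10 (1 + 1/m)` a difference of two sawtooth sums, so
`|dcount - N benf| ≤ 10^(j+1) * (2 E x)` for `x > 0`. If the left integrand is not integrable its
integral is `0`. -/
def M_DGQ : Prop := ∀ q : ℝ, 1 ≤ q → DM q → ∀ j d : ℕ, DigitMT j d q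

/-- `theorem p_MGF : M_GF`, the fourth moment of Gaussian sums. `P_MTWO.lean` has the mean square:
`MTWO_upper`: `∫_T^{2T} ‖∑_{n ≤ M} e (t log n) a_n‖² ≤ M (T + 2 M (1 + log M))` if `|a_n| ≤ 1`
(scale for `|a_n| ≤ A`). Here `gs M t y ^ 2 = ∑_{k ≤ M²} e (t log k) c_k`,
`c_k = ∑_{m n = k, m, n ≤ M} w_m w_n` (`Finset.sum_mul_sum`, fibers of `(m, n) ↦ m n`), and
`0 ≤ c_k ≤ #(divisors k) ≤ C k^ε' ≤ C M^(2 ε')` (divisor bound: copy the 90 lines of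
`Pool/Agent/SSM/TAU.lean`, do not import it). So
`∫ ‖gs‖^4 ≤ C² M^(4 ε') M² (T + 2 M² (1 + 2 log M))`, and `M² ≤ T^(2β) ≤ T^(1 + 4a)`,
`a = max 0 ((2β - 1)/4)`. -/
def M_GF : Prop := ∀ β : ℝ, 0 < β → β ≤ 1 → GM 4 (1 / 2) (max 0 ((2 * β - 1) / 4)) (1 / 2) 1 β

/-- `theorem p_MZF : M_Z → M_GF → M_ZF`. Given `ε`, let `ε' = min (ε/2) (1/8)`,
`β = 1/2 + 2 ε'`: `M_GF` and `M_Z` give `ZM 4 ε'`; use it with `ε/2`. -/
def M_ZF : Prop := ZM 4 0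

/-- `theorem p_MHOL : M_HOL`, Hölder on `[T, 2T]`:
`∫ ‖ζ‖^q ≤ T^(1 - q/r) (∫ ‖ζ‖^r)^(q/r)`. -/
def M_HOL : Prop := ∀ q r a : ℝ, 1 ≤ q → q ≤ r → 0 ≤ a → ZM r a → ZM q a

/-- `theorem p_MMSA : M_GF → M_MS → M_MSA`. Let `θ = max (max p η) 0 < 1/2`, `κ' = min κ 1`,
`β' = min β (1/2)`. For `M ≤ κ' T^β'` both `GM 1 p 0 η κ β` and `M_GF` at `β'` (where
`a = 0`) apply; Hölder (exponents `3/2` and `3`):
`∫ ‖gs‖² ≤ (∫ ‖gs‖)^(2/3) (∫ ‖gs‖^4)^(1/3) ≤ C (M^θ T^(1+ε))^(2/3) (M² T^(1+ε))^(1/3)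
= C M^(2 p') T^(1+ε)`, `p' = (θ + 1)/3 < 1/2`. So `GM 2 p' 0 p' κ' β'`, against `M_MS`. -/
def M_MSA : Prop := ∀ p η κ β : ℝ, p < 1 / 2 → η < 1 / 2 → 0 < κ → 0 < β → ¬ GM 1 p 0 η κ β

end Pool.Agent.Ben
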